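import Pool.Agent.CUB.StmtsC

/-!
# CUB, module CHI: the chart `chi` is a local isomorphism
-/

set_option autoImplicit false

open Polynomial

namespace CUB

namespace CHI

section Surj

variable {A B : Type} [CommRing A] [CommRing B] (φ : A →+* B) (r : A)

/-- The elements of `B` which lie in the image of `A` after multiplication by a power of `r`. -/
def Im (x : B) : Prop := ∃ a m, φ a = φ r ^ m * x

variable {φ r}

lemma Im.of (a : A) : Im φ r (φ a) := ⟨a, 0, by simp⟩

lemma Im.add {x y : B} (hx : Im φ r x) (hy : Im φ r y) : Im φ r (x + y) := by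
  obtain ⟨a, m, h1⟩ := hx
  obtain ⟨b, n, h2⟩ := hy
  refine ⟨r ^ n * a + r ^ m * b, m + n, ?_⟩
  rw [map_add, map_mul, map_mul, map_pow, map_pow, h1, h2]
  ring

lemma Im.mul {x y : B} (hx : Im φ r x) (hy : Im φ r y) : Im φ r (x * y) := by
  obtain ⟨a, m, h1⟩ := hx
  obtain ⟨b, n, h2⟩ := hy
  refine ⟨a * b, m + n, ?_⟩
  rw [map_mul, h1, h2]
  ring

end Surj

variable {k R : Type} [Field k] [CommRing R] [Algebra k R] {G f v : R}

/-- The equation of the double cover, factorised. -/
lemma rel (hv : v ^ 2 - v = G) :
    (yy (C G + X * C f) - algebraMap R[X] (YY G f) (C v)) *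
      (yy (C G + X * C f) - algebraMap R[X] (YY G f) (C (1 - v))) =
    algebraMap R[X] (YY G f) X * algebraMap R[X] (YY G f) (C f) := by
  have h := yy_eq (C G + X * C f)
  rw [← hv] at h ⊢
  simp only [map_sub, map_add, map_mul, map_pow, map_one] at h ⊢
  linear_combination h

/-- Injectivity of the localisation of the chart from a solution `s`. -/
lemma inj (hv : v ^ 2 - v = G) (b : YY G f) (s : Localization.Away b)
    (h1 : algebraMap (YY G f) (Localization.Away b) (algebraMap R[X] (YY G f) (C v)) +
      s * algebraMap (YY G f) (Localization.Away b) (algebraMap R[X] (YY G f) (C f)) =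
      algebraMap (YY G f) (Localization.Away b) (yy (C G + X * C f)))
    (h2 : s * (s * algebraMap (YY G f) (Localization.Away b) (algebraMap R[X] (YY G f) (C f)) +
      algebraMap (YY G f) (Localization.Away b) (algebraMap R[X] (YY G f) (C (2 * v - 1)))) =
      algebraMap (YY G f) (Localization.Away b) (algebraMap R[X] (YY G f) X)) (a : YY G f)
    (ha : chi (k := k) (f := f) v hv a = 0) : ∃ n, b ^ n * a = 0 := by
  let ι : YY G f →ₐ[k] Localization.Away b := IsScalarTower.toAlgHom k _ _
  let θ : R[X] →ₐ[k] Localization.Away b :=
    evs (ι.comp ((Qbase (C G + X * C f)).comp (CC k R))) s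
  have hθC : ∀ r : R, θ (C r) = ι (algebraMap R[X] (YY G f) (C r)) := fun r => evs_C _ _ r
  have hθX : θ X = s := evs_X _ _
  have hcomp : θ.comp (chi (k := k) (f := f) v hv) = ι := by
    apply Q_ext
    · intro t
      rw [AlgHom.comp_apply, chi_algebraMap]
      have h3 := evs_unique (ι.comp ((Qbase (C G + X * C f)).comp (CC k R)))
        (ι (algebraMap R[X] (YY G f) X))
        (θ.comp (evs (CC k R) (X * (X * C f + C (2 * v - 1))))) (fun r => by
          rw [AlgHom.comp_apply, evs_C, CC_apply, hθC]
          rfl) (by
          rw [AlgHom.comp_apply, evs_X, map_mul, map_add, map_mul, hθX, hθC, hθC]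
          exact h2)
      have h4 := evs_unique (ι.comp ((Qbase (C G + X * C f)).comp (CC k R)))
        (ι (algebraMap R[X] (YY G f) X))
        (ι.comp (Qbase (C G + X * C f))) (fun r => rfl) rfl
      have h5 := h3.trans h4.symm
      exact AlgHom.congr_fun h5 t
    · rw [AlgHom.comp_apply, chi_yy, map_add, map_mul, hθX, hθC, hθC]
      exact h1
  have h6 : ι a = 0 := by
    rw [← hcomp, AlgHom.comp_apply, ha, map_zero]
  have h7 : algebraMap (YY G f) (Localization.Away b) a =
      algebraMap (YY G f) (Localization.Away b) 0 := by
    rw [map_zero]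
    exact h6
  rw [IsLocalization.eq_iff_exists (Submonoid.powers b)] at h7
  obtain ⟨⟨_, n, rfl⟩, hn⟩ := h7
  exact ⟨n, by simpa using hn⟩

lemma img1 {W : Type} [CommRing W] (κ : YY G f →+* W) :
    κ (algebraMap R[X] (YY G f) (C (1 - v))) = 1 - κ (algebraMap R[X] (YY G f) (C v)) := by
  simp only [map_sub, map_one]

lemma img2 {W : Type} [CommRing W] (κ : YY G f →+* W) :
    κ (algebraMap R[X] (YY G f) (C (2 * v - 1))) =
      2 * κ (algebraMap R[X] (YY G f) (C v)) - 1 := by
  have h2 : (C (2 : R) : R[X]) = 2 := rfl
  simp only [map_sub, map_mul, map_one, h2, map_ofNat]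

/-- Surjectivity of the localisation of the chart. -/
lemma surj (hv : v ^ 2 - v = G) (b : YY G f)
    (hX : Im (chi (k := k) (f := f) v hv).toRingHom b X) (x : R[X]) :
    Im (chi (k := k) (f := f) v hv).toRingHom b x := by
  have hC : ∀ r : R, Im (chi (k := k) (f := f) v hv).toRingHom b (C r) := by
    intro r
    have h := Im.of (φ := (chi (k := k) (f := f) v hv).toRingHom) (r := b)
      (algebraMap R[X] (YY G f) (C r))
    have h2 : (chi (k := k) (f := f) v hv).toRingHom (algebraMap R[X] (YY G f) (C r)) = C r := by
      change chi (k := k) (f := f) v hv (algebraMap R[X] (YY G f) (C r)) = C r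
      rw [chi_algebraMap, evs_C, CC_apply]
    rwa [h2] at h
  induction x using Polynomial.induction_on with
  | C a => exact hC a
  | add p q hp hq => exact hp.add hq
  | monomial n a ih =>
    rw [pow_succ, ← mul_assoc]
    exact ih.mul hX

end CHI

/-- CHI. -/
theorem t_CHI : M_CHI := by
  intro hGLI k R _ _ _ _ G f v hv hu
  apply hGLI
  intro P
  have hyv : chi (k := k) (f := f) v hv
      (yy (C G + X * C f) - algebraMap R[X] (YY G f) (C v)) = X * C f := by
    rw [map_sub, chi_yy, chi_algebraMap, evs_C, CC_apply]
    ring
  have hrel := CHI.rel (f := f) hv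
  by_cases hf : (C f : R[X]) ∈ P.asIdeal
  · -- `b = y - (1 - v)`
    let b : YY G f := yy (C G + X * C f) - algebraMap R[X] (YY G f) (C (1 - v))
    have hb : chi (k := k) (f := f) v hv b = X * C f + C (2 * v - 1) := by
      change chi (k := k) (f := f) v hv
        (yy (C G + X * C f) - algebraMap R[X] (YY G f) (C (1 - v))) = _
      rw [map_sub, chi_yy, chi_algebraMap, evs_C, CC_apply]
      have h2 : (C (2 : R) : R[X]) = 2 := rfl
      simp only [map_sub, map_mul, map_one, h2]
      ring
    refine ⟨b, ?_, ?_, ?_⟩
    · intro hmem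
      rw [hb] at hmem
      have h1 : (C (2 * v - 1) : R[X]) ∈ P.asIdeal :=
        (Submodule.add_mem_iff_right _ (P.asIdeal.mul_mem_left X hf)).mp hmem
      exact P.isPrime.ne_top (Ideal.eq_top_of_isUnit_mem _ h1 (hu.map C))
    · rw [Localization.awayMap_injective_iff]
      intro a ha
      obtain ⟨u, hu⟩ : IsUnit (algebraMap (YY G f) (Localization.Away b) b) :=
        IsLocalization.Away.algebraMap_isUnit b
      have hub : (↑u⁻¹ : Localization.Away b) * algebraMap (YY G f) (Localization.Away b) b = 1 := by
        rw [← hu]
        exact u.inv_mul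
      have hbe : algebraMap (YY G f) (Localization.Away b) b =
          algebraMap (YY G f) (Localization.Away b) (yy (C G + X * C f)) -
          algebraMap (YY G f) (Localization.Away b)
            (algebraMap R[X] (YY G f) (C (1 - v))) := map_sub _ _ _
      have hrel2 := congrArg (algebraMap (YY G f) (Localization.Away b)) hrel
      rw [map_mul, map_mul, map_sub, map_sub, CHI.img1] at hrel2
      rw [hbe, CHI.img1] at hub
      refine CHI.inj (k := k) hv b
        (↑u⁻¹ * algebraMap (YY G f) (Localization.Away b) (algebraMap R[X] (YY G f) X))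
        ?_ ?_ a ha
      · generalize (↑u⁻¹ : Localization.Away b) = t at *
        linear_combination (-t) * hrel2 +
          (algebraMap (YY G f) (Localization.Away b) (yy (C G + X * C f)) -
          algebraMap (YY G f) (Localization.Away b) (algebraMap R[X] (YY G f) (C v))) * hub
      · rw [CHI.img2]
        generalize (↑u⁻¹ : Localization.Away b) = t at *
        linear_combination (-t ^ 2 * algebraMap (YY G f) (Localization.Away b)
          (algebraMap R[X] (YY G f) X)) * hrel2 +
          (algebraMap (YY G f) (Localization.Away b) (algebraMap R[X] (YY G f) X)) *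
          (1 + t * (algebraMap (YY G f) (Localization.Away b) (yy (C G + X * C f)) -
          algebraMap (YY G f) (Localization.Away b) (algebraMap R[X] (YY G f) (C v)))) * hub
    · rw [Localization.awayMap_surjective_iff]
      intro x
      refine CHI.surj (k := k) hv b ⟨algebraMap R[X] (YY G f) X, 1, ?_⟩ x
      change chi (k := k) (f := f) v hv (algebraMap R[X] (YY G f) X) =
        chi (k := k) (f := f) v hv b ^ 1 * X
      rw [chi_algebraMap, evs_X, hb]
      ring
  · refine ⟨algebraMap R[X] (YY G f) (C f), ?_, ?_, ?_⟩
    · rw [chi_algebraMap, evs_C, CC_apply]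
      exact hf
    · rw [Localization.awayMap_injective_iff]
      intro a ha
      obtain ⟨t, hub⟩ : ∃ t : Localization.Away (algebraMap R[X] (YY G f) (C f)),
          t * algebraMap (YY G f) (Localization.Away (algebraMap R[X] (YY G f) (C f)))
            (algebraMap R[X] (YY G f) (C f)) = 1 := by
        obtain ⟨u, hu⟩ : IsUnit (algebraMap (YY G f)
            (Localization.Away (algebraMap R[X] (YY G f) (C f)))
            (algebraMap R[X] (YY G f) (C f))) :=
          IsLocalization.Away.algebraMap_isUnit _
        refine ⟨↑u⁻¹, ?_⟩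
        rw [← hu]
        exact u.inv_mul
      have hrel2 := congrArg (algebraMap (YY G f)
        (Localization.Away (algebraMap R[X] (YY G f) (C f)))) hrel
      rw [map_mul, map_mul, map_sub, map_sub, CHI.img1] at hrel2
      refine CHI.inj (k := k) hv _
        (t * (algebraMap (YY G f) (Localization.Away (algebraMap R[X] (YY G f) (C f)))
          (yy (C G + X * C f)) -
          algebraMap (YY G f) (Localization.Away (algebraMap R[X] (YY G f) (C f)))
            (algebraMap R[X] (YY G f) (C v)))) ?_ ?_ a ha
      · linear_combination (algebraMap (YY G f)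
          (Localization.Away (algebraMap R[X] (YY G f) (C f))) (yy (C G + X * C f)) -
          algebraMap (YY G f) (Localization.Away (algebraMap R[X] (YY G f) (C f)))
            (algebraMap R[X] (YY G f) (C v))) * hub
      · rw [CHI.img2]
        linear_combination t * hrel2 +
          (algebraMap (YY G f) (Localization.Away (algebraMap R[X] (YY G f) (C f)))
            (algebraMap R[X] (YY G f) X) + t * (algebraMap (YY G f)
          (Localization.Away (algebraMap R[X] (YY G f) (C f))) (yy (C G + X * C f)) -
          algebraMap (YY G f) (Localization.Away (algebraMap R[X] (YY G f) (C f)))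
            (algebraMap R[X] (YY G f) (C v))) ^ 2) * hub
    · rw [Localization.awayMap_surjective_iff]
      intro x
      refine CHI.surj (k := k) hv _
        ⟨yy (C G + X * C f) - algebraMap R[X] (YY G f) (C v), 1, ?_⟩ x
      change chi (k := k) (f := f) v hv
        (yy (C G + X * C f) - algebraMap R[X] (YY G f) (C v)) =
        chi (k := k) (f := f) v hv (algebraMap R[X] (YY G f) (C f)) ^ 1 * X
      rw [hyv, chi_algebraMap, evs_C, CC_apply]
      ring

end CUB
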