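import Pool.Agent.CUB.StmtsA

/-!
# CUB, module PBC: base change for closed immersions
-/

set_option autoImplicit false

open Polynomial

namespace CUB

namespace PBC

variable {k A B E : Type} [Field k] [CommRing A] [CommRing B] [Algebra k A] [Algebra k B]
  [Field E]

lemma pushP_injective {n : ℕ} (φ : A →ₐ[k] B) (hφ : Function.Surjective φ) :
    Function.Injective (pushP (n := n) φ hφ) := by
  intro P Q h
  have h1 : PrimeSpectrum.comap φ.toRingHom P.1 = PrimeSpectrum.comap φ.toRingHom Q.1 :=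
    congrArg Subtype.val h
  exact Subtype.ext (PrimeSpectrum.comap_injective_of_surjective φ.toRingHom hφ h1)

lemma push_apply {n : ℕ} (φ : A →ₐ[k] B) (hφ : Function.Surjective φ) (d : RP k B n →₀ E)
    (P : RP k B n) : push E φ hφ d (pushP φ hφ P) = d P := by
  unfold push
  rw [Finsupp.lmapDomain_apply]
  exact Finsupp.mapDomain_apply (pushP_injective φ hφ) d P

lemma push_notin {n : ℕ} (φ : A →ₐ[k] B) (hφ : Function.Surjective φ) (d : RP k B n →₀ E)
    (P : RP k A n) (h : ¬ RingHom.ker φ.toRingHom ≤ P.1.asIdeal) : push E φ hφ d P = 0 := by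
  unfold push
  rw [Finsupp.lmapDomain_apply]
  refine Finsupp.mapDomain_of_notMem_range d P ?_
  rintro ⟨Q, rfl⟩
  refine h ?_
  intro x hx
  have hx' : φ.toRingHom x = 0 := hx
  show φ.toRingHom x ∈ Q.1.asIdeal
  rw [hx']
  exact Q.1.asIdeal.zero_mem

lemma exists_pushP {n : ℕ} (φ : A →ₐ[k] B) (hφ : Function.Surjective φ) (P : RP k A n)
    (h : RingHom.ker φ.toRingHom ≤ P.1.asIdeal) : ∃ Q : RP k B n, pushP φ hφ Q = P := by
  have h1 : P.1 ∈ Set.range (PrimeSpectrum.comap φ.toRingHom) := by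
    rw [range_comap_of_surjective _ φ.toRingHom hφ]
    exact h
  obtain ⟨Q, hQ⟩ := h1
  refine ⟨⟨Q, ?_⟩, Subtype.ext hQ⟩
  rw [← rdim_comap φ hφ Q, hQ]
  exact P.2

end PBC

open PBC in
theorem t_PBC : S_PBC := by
  intro k A B A' B' E _ _ _ _ _ _ _ _ _ _ r n φ φ' α β hα hβ hcomm hker c d hpull P
  by_cases hP : RingHom.ker β.toRingHom ≤ P.1.asIdeal
  · obtain ⟨P', rfl⟩ := exists_pushP β hβ P hP
    have h1 : PrimeSpectrum.comap φ.toRingHom (pushP β hβ P').1 =
        PrimeSpectrum.comap α.toRingHom (PrimeSpectrum.comap φ'.toRingHom P'.1) := by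
      ext x
      show β (φ x) ∈ P'.1.asIdeal ↔ φ' (α x) ∈ P'.1.asIdeal
      have h2 : φ' (α x) = β (φ x) := DFunLike.congr_fun hcomm x
      rw [h2]
    have h3 : rdim k (PrimeSpectrum.comap φ.toRingHom (pushP β hβ P').1) =
        rdim k (PrimeSpectrum.comap φ'.toRingHom P'.1) := by
      rw [h1, rdim_comap α hα]
    rw [push_apply]
    refine ⟨fun h => ?_, fun h => ?_⟩
    · have h4 : rdim k (PrimeSpectrum.comap φ'.toRingHom P'.1) = n := by rw [← h3]; exact h
      have h5 : (⟨PrimeSpectrum.comap φ.toRingHom (pushP β hβ P').1, h⟩ : RP k A n) =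
          pushP α hα ⟨PrimeSpectrum.comap φ'.toRingHom P'.1, h4⟩ := Subtype.ext h1
      rw [h5, push_apply]
      exact (hpull P').1 h4
    · exact (hpull P').2 (by rw [← h3]; exact h)
  · rw [push_notin β hβ d P hP]
    refine ⟨fun h => ?_, fun _ => rfl⟩
    rw [push_notin α hα c _ ?_]
    intro h1
    refine hP (hker.trans ?_)
    rw [Ideal.map_le_iff_le_comap]
    exact h1

end CUB
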