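import Pool.Agent.CUB.StmtsA

/-!
# CUB: the double cover is etale where `2 y - 1` is invertible
-/

set_option autoImplicit false

namespace CUB

open Polynomial

namespace GET

variable {k A B : Type} [Field k] [CommRing A] [CommRing B] [Algebra k A] [Algebra k B]

lemma rdim_le (φ : A →ₐ[k] B) (P : PrimeSpectrum B)
    (hs : ∀ x : B, ∃ (f : A[X]) (n : ℕ), φ (f.coeff n) ∉ P.asIdeal ∧
      f.eval₂ φ.toRingHom x = 0) :
    rdim k P ≤ rdim k (PrimeSpectrum.comap φ.toRingHom P) := by
  unfold rdim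
  have H : (PrimeSpectrum.comap φ.toRingHom P).asIdeal ≤ P.asIdeal.comap φ := le_refl _
  let ψ : (A ⧸ (PrimeSpectrum.comap φ.toRingHom P).asIdeal) →ₐ[k] (B ⧸ P.asIdeal) :=
    Ideal.quotientMapₐ P.asIdeal φ H
  have h1 : Function.Injective ψ := Ideal.quotientMap_injective' (H := H) (le_refl _)
  let _ : Algebra (A ⧸ (PrimeSpectrum.comap φ.toRingHom P).asIdeal) (B ⧸ P.asIdeal) :=
    ψ.toRingHom.toAlgebra
  have : IsScalarTower k (A ⧸ (PrimeSpectrum.comap φ.toRingHom P).asIdeal) (B ⧸ P.asIdeal) :=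
    IsScalarTower.of_algebraMap_eq (fun x => (ψ.commutes x).symm)
  have : FaithfulSMul (A ⧸ (PrimeSpectrum.comap φ.toRingHom P).asIdeal) (B ⧸ P.asIdeal) :=
    (faithfulSMul_iff_algebraMap_injective _ _).mpr h1
  have : Algebra.IsAlgebraic (A ⧸ (PrimeSpectrum.comap φ.toRingHom P).asIdeal)
      (B ⧸ P.asIdeal) := by
    constructor
    intro x
    obtain ⟨x, rfl⟩ := Ideal.Quotient.mk_surjective x
    obtain ⟨f, n, hn, hf⟩ := hs x
    refine ⟨f.map (Ideal.Quotient.mk _), ?_, ?_⟩
    · intro h0
      have h2 := congrArg (fun q => coeff q n) h0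
      simp only [coeff_map, coeff_zero] at h2
      rw [Ideal.Quotient.eq_zero_iff_mem] at h2
      exact hn h2
    · change (f.map (Ideal.Quotient.mk (PrimeSpectrum.comap φ.toRingHom P).asIdeal)).eval₂
        ψ.toRingHom (Ideal.Quotient.mk P.asIdeal x) = 0
      rw [Polynomial.eval₂_map]
      have h2 : (ψ.toRingHom).comp
          (Ideal.Quotient.mk (PrimeSpectrum.comap φ.toRingHom P).asIdeal) =
          (Ideal.Quotient.mk P.asIdeal).comp φ.toRingHom := rfl
      rw [h2, ← Polynomial.hom_eval₂, hf, map_zero]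
  have h := trdeg_add_eq k (A ⧸ (PrimeSpectrum.comap φ.toRingHom P).asIdeal) (A := B ⧸ P.asIdeal)
  rw [trdeg_eq_zero (R := A ⧸ (PrimeSpectrum.comap φ.toRingHom P).asIdeal) (A := B ⧸ P.asIdeal),
    add_zero] at h
  exact h.ge

/-- the polynomial of `x` with `D x = a + b y` -/
lemma quad {T S : Type} [CommRing T] [CommRing S] (ψ : T →+* S) (g D a b : T) (x y : S)
    (hy : y ^ 2 - y - ψ g = 0) (hx : x * ψ D = ψ a + ψ b * y) :
    (C (D ^ 2) * X ^ 2 - C ((2 * a + b) * D) * X + C (a ^ 2 + a * b - b ^ 2 * g) : T[X]).eval₂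
      ψ x = 0 := by
  simp only [eval₂_add, eval₂_sub, eval₂_mul, eval₂_C, eval₂_X, eval₂_pow]
  simp only [map_pow, map_mul, map_add, map_sub, map_ofNat]
  linear_combination (x * ψ D - ψ a - ψ b + ψ b * y) * hx + ψ b ^ 2 * hy

lemma quad_coeff {T : Type} [CommRing T] (p q r : T) :
    (C p * X ^ 2 - C q * X + C r : T[X]).coeff 2 = p := by
  simp

end GET

theorem t_GET : S_GET := by
  intro k T B _ _ _ _ _ _ _ g φ hloc
  have hflat : (φ.comp (Qbase g)).toRingHom.Flat := by
    have h1 : (Qbase (k := k) g).toRingHom.Flat := by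
      have h2 : (algebraMap T (Q T g)).Flat := by
        rw [RingHom.flat_algebraMap_iff]
        infer_instance
      exact h2
    have h2 : φ.toRingHom.Flat := by
      let _ := φ.toRingHom.toAlgebra
      have : IsLocalization.Away (2 * yy g - 1) B := hloc
      have h3 : (algebraMap (Q T g) B).Flat := by
        rw [RingHom.flat_algebraMap_iff]
        exact IsLocalization.flat _ (Submonoid.powers (2 * yy g - 1))
      exact h3
    exact h1.comp h2
  have hunit : IsUnit (φ (2 * yy g - 1)) := by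
    let _ := φ.toRingHom.toAlgebra
    have : IsLocalization.Away (2 * yy g - 1) B := hloc
    exact IsLocalization.Away.algebraMap_isUnit (2 * yy g - 1)
  have hsurj : ∀ x : B, ∃ (n : ℕ) (q : Q T g), x * φ (2 * yy g - 1) ^ n = φ q := by
    intro x
    let _ := φ.toRingHom.toAlgebra
    have : IsLocalization.Away (2 * yy g - 1) B := hloc
    exact IsLocalization.Away.surj (2 * yy g - 1) x
  have hyy : φ (yy g) ^ 2 - φ (yy g) - φ (algebraMap T (Q T g) g) = 0 := by
    have := congrArg φ (yy_eq g)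
    rwa [map_sub, map_sub, map_pow, map_zero] at this
  have hsq : φ (2 * yy g - 1) ^ 2 = φ (algebraMap T (Q T g) (4 * g + 1)) := by
    simp only [map_sub, map_mul, map_one, map_ofNat, map_add]
    linear_combination 4 * hyy
  have hsurj2 : ∀ x : B, ∃ (n : ℕ) (a b : T), x * φ (algebraMap T (Q T g) ((4 * g + 1) ^ n)) =
      φ (algebraMap T (Q T g) a) + φ (algebraMap T (Q T g) b) * φ (yy g) := by
    intro x
    obtain ⟨n, q, hq⟩ := hsurj x
    obtain ⟨a, b, hab⟩ := Q_span (q * (2 * yy g - 1) ^ n)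
    refine ⟨n, a, b, ?_⟩
    rw [map_pow, map_pow, ← hsq, ← map_mul, ← map_add, ← hab, map_mul, map_pow, ← hq]
    ring
  refine ⟨hflat, fun P => ?_⟩
  have hD : ∀ n, (φ.comp (Qbase g)) ((4 * g + 1) ^ n) ∉ P.asIdeal := by
    intro n hn
    have h1 : (φ.comp (Qbase g)) ((4 * g + 1) ^ n) = φ (2 * yy g - 1) ^ (2 * n) := by
      rw [pow_mul, hsq, ← map_pow, ← map_pow]
      rfl
    rw [h1] at hn
    exact P.isPrime.ne_top (Ideal.eq_top_of_isUnit_mem _ hn (hunit.pow _))
  constructor
  · rw [Nat.cast_zero, add_zero]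
    apply GET.rdim_le
    intro x
    obtain ⟨n, a, b, hx⟩ := hsurj2 x
    refine ⟨C (((4 * g + 1) ^ n) ^ 2) * X ^ 2 - C ((2 * a + b) * (4 * g + 1) ^ n) * X +
      C (a ^ 2 + a * b - b ^ 2 * g), 2, ?_, ?_⟩
    · rw [GET.quad_coeff, ← pow_mul]
      exact hD _
    · exact GET.quad (φ.comp (Qbase g)).toRingHom g _ a b x (φ (yy g)) hyy hx
  · intro _
    rw [← Localization.AtPrime.map_eq_maximalIdeal, Ideal.map_le_iff_le_comap]
    intro x hx
    rw [Ideal.mem_comap]
    obtain ⟨n, a, b, hab⟩ := hsurj2 x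
    set L := algebraMap B (Localization.AtPrime P.asIdeal) with hL
    set J := (PrimeSpectrum.comap (φ.comp (Qbase g)).toRingHom P).asIdeal.map
        (L.comp (φ.comp (Qbase g)).toRingHom) with hJ
    have hu : ∀ z : B, z ∉ P.asIdeal → IsUnit (L z) := fun z hz =>
      IsLocalization.map_units (Localization.AtPrime P.asIdeal) (⟨z, hz⟩ : P.asIdeal.primeCompl)
    have hmem : ∀ t : T, φ (algebraMap T (Q T g) t) ∈ P.asIdeal →
        L (φ (algebraMap T (Q T g) t)) ∈ J := fun t ht =>
      Ideal.mem_map_of_mem (L.comp (φ.comp (Qbase g)).toRingHom)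
        (show t ∈ (PrimeSpectrum.comap (φ.comp (Qbase g)).toRingHom P).asIdeal from ht)
    -- the element s = a + b y and its conjugate
    set s := φ (algebraMap T (Q T g) a) + φ (algebraMap T (Q T g) b) * φ (yy g) with hs
    set s' := φ (algebraMap T (Q T g) a) + φ (algebraMap T (Q T g) b) * (1 - φ (yy g)) with hs'
    have hsP : s ∈ P.asIdeal := by
      rw [← hab]
      exact P.asIdeal.mul_mem_right _ hx
    have hN : s' * s = φ (algebraMap T (Q T g) (a ^ 2 + a * b - b ^ 2 * g)) := by
      rw [hs, hs']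
      simp only [map_sub, map_mul, map_pow, map_add]
      linear_combination -(φ (algebraMap T (Q T g) b)) ^ 2 * hyy
    have key : L s ∈ J := by
      by_cases hs'P : s' ∈ P.asIdeal
      · have hb : φ (algebraMap T (Q T g) b) ∈ P.asIdeal := by
          have h1 : φ (algebraMap T (Q T g) b) * φ (2 * yy g - 1) ∈ P.asIdeal := by
            have h2 : φ (algebraMap T (Q T g) b) * φ (2 * yy g - 1) = s - s' := by
              rw [hs, hs']
              simp only [map_sub, map_mul, map_one, map_ofNat]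
              ring
            rw [h2]
            exact P.asIdeal.sub_mem hsP hs'P
          rcases P.isPrime.mem_or_mem h1 with h3 | h3
          · exact h3
          · exact absurd (Ideal.eq_top_of_isUnit_mem _ h3 hunit) P.isPrime.ne_top
        have ha : φ (algebraMap T (Q T g) a) ∈ P.asIdeal := by
          have h2 : φ (algebraMap T (Q T g) a) =
              s - φ (algebraMap T (Q T g) b) * φ (yy g) := by
            rw [hs]; ring
          rw [h2]
          exact P.asIdeal.sub_mem hsP (P.asIdeal.mul_mem_right _ hb)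
        rw [hs, map_add, map_mul]
        exact J.add_mem (hmem a ha) (J.mul_mem_right _ (hmem b hb))
      · have h1 : L (s' * s) ∈ J := by
          rw [hN]
          apply hmem
          rw [← hN]
          exact P.asIdeal.mul_mem_left _ hsP
        rw [map_mul] at h1
        exact (Ideal.unit_mul_mem_iff_mem J (hu s' hs'P)).1 h1
    rw [← hab, map_mul] at key
    exact (Ideal.mul_unit_mem_iff_mem J (hu _ (hD n))).1 key

end CUB
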