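import Pool.Agent.CUB.StmtsC

/-!
# CUB, module STP: one equation
-/

set_option autoImplicit false

open Polynomial

namespace CUB

namespace STP

lemma ker_mapAlg {k R R' : Type} [Field k] [CommRing R] [CommRing R'] [Algebra k R] [Algebra k R'] (m : ℕ)
    (ψ : R →ₐ[k] R') (a : R) (h : RingHom.ker ψ.toRingHom = Ideal.span {a}) :
    RingHom.ker (MvPolynomial.mapAlgHom (σ := Fin m) ψ).toRingHom =
      Ideal.span {(MvPolynomial.C a : MvPolynomial (Fin m) R)} := by
  have h1 : (MvPolynomial.mapAlgHom (σ := Fin m) ψ).toRingHom = MvPolynomial.map ψ.toRingHom := rfl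
  rw [h1, MvPolynomial.ker_map, h, Ideal.map_span, Set.image_singleton]

end STP

open STP in
theorem t_STP : M_STP := by
  intro hP h0 hV k R R' E _ _ _ _ _ _ _ _ _ m f l ψ hψ hker n c hc hr
  obtain ⟨e, e', he, he', hee⟩ := hV k R R' m f l ψ
  have : Algebra.FiniteType k (MvPolynomial (Fin m) R) :=
    Algebra.FiniteType.trans (S := R) inferInstance inferInstance
  set c' := push E e'.symm.toAlgHom e'.symm.surjective c with hc'
  have hs : Function.Surjective (MvPolynomial.mapAlgHom (σ := Fin m) ψ) :=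
    MvPolynomial.map_surjective _ hψ
  have h1 : ptau E _ c' = -c' := by
    have h2 : (tauH (k := k) _ : VR R' (fun j => ψ (f j)) →ₐ[k] VR R' (fun j => ψ (f j))).comp e'.symm.toAlgHom =
        e'.symm.toAlgHom.comp (tauH (k := k) _) := by
      refine AlgHom.ext fun x => ?_
      obtain ⟨y, rfl⟩ := e'.surjective x
      change tauH (k := k) _ (e'.symm (e' y)) = e'.symm (tauH (k := k) _ (e' y))
      rw [← he', AlgEquiv.symm_apply_apply, AlgEquiv.symm_apply_apply]
    have hsur : Function.Surjective (e'.symm.toAlgHom.comp (tauH (k := k) _)) :=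
      e'.symm.surjective.comp (tauH_surjective _)
    have h3 := hP.1 k _ _ _ E n (tauH (k := k) _) e'.symm.toAlgHom (e'.symm.toAlgHom.comp (tauH (k := k) _))
      (tauH_surjective _) e'.symm.surjective hsur rfl c
    have h4 := hP.1 k _ _ _ E n e'.symm.toAlgHom (tauH (k := k) _) (e'.symm.toAlgHom.comp (tauH (k := k) _))
      e'.symm.surjective (tauH_surjective _) hsur h2.symm c
    have h5 : ptau E _ c' = push E (tauH (k := k) _) (tauH_surjective _) c' := rfl
    rw [h5, hc', ← h3, h4]
    have h6 : push E (tauH (k := k) _) (tauH_surjective _) c = -c := hc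
    rw [h6, map_neg]
  have h2 : push E (YYmap _ _ (MvPolynomial.mapAlgHom ψ)) (YYmap_surjective _ _ (MvPolynomial.mapAlgHom ψ) hs) c' ∈
      rat k (YY (lin (fun j => f (l.succAbove j))) (MvPolynomial.C (f l))) E n := by
    have h3 : e'.symm.toAlgHom.comp (YYmap (lin (fun j => f (l.succAbove j))) (MvPolynomial.C (f l))
        (MvPolynomial.mapAlgHom ψ)) = (VRmap ψ f).comp e.symm.toAlgHom := by
      refine AlgHom.ext fun x => ?_
      obtain ⟨y, rfl⟩ := e.surjective x
      change e'.symm (YYmap _ _ (MvPolynomial.mapAlgHom ψ) (e y)) = VRmap ψ f (e.symm (e y))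
      rw [← hee, AlgEquiv.symm_apply_apply, AlgEquiv.symm_apply_apply]
    have hsur : Function.Surjective ((VRmap ψ f).comp e.symm.toAlgHom) :=
      (VRmap_surjective ψ hψ f).comp e.symm.surjective
    have h4 := hP.1 k _ _ _ E n (YYmap (lin (fun j => f (l.succAbove j))) (MvPolynomial.C (f l))
        (MvPolynomial.mapAlgHom ψ)) e'.symm.toAlgHom ((VRmap ψ f).comp e.symm.toAlgHom)
      (YYmap_surjective _ _ (MvPolynomial.mapAlgHom ψ) hs) e'.symm.surjective hsur h3.symm c
    have h5 := hP.1 k _ _ _ E n e.symm.toAlgHom (VRmap ψ f) ((VRmap ψ f).comp e.symm.toAlgHom)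
      e.symm.surjective (VRmap_surjective ψ hψ f) hsur rfl c
    rw [hc', ← h4, h5]
    exact (hP.2.2.1 k _ _ E n e.symm _).mpr hr
  have h3 := h0 k (MvPolynomial (Fin m) R) (MvPolynomial (Fin m) R') E (lin (fun j => f (l.succAbove j)))
    (MvPolynomial.C (f l)) (MvPolynomial.mapAlgHom ψ) hs (ker_mapAlg m ψ (f l) hker) n c' h1 h2
  exact (hP.2.2.1 k _ _ E n e'.symm c).mp h3

end CUB
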