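import Pool.Agent.CUB.StmtsC

/-!
# CUB, module VRX: the varieties `VR R f` as double covers of a polynomial ring in one variable
-/

set_option autoImplicit false

open Polynomial

namespace CUB

namespace VRX

section A

variable {k R : Type} [Field k] [CommRing R] [Algebra k R] {m : ℕ}

variable (k R) in
/-- the isomorphism `R[t_0, ..., t_m] ≃ R[t_0, ..., t_(m-1)][X]`, `t_l ↦ X` -/
noncomputable def pe (l : Fin (m + 1)) :
    MvPolynomial (Fin (m + 1)) R ≃ₐ[k] (MvPolynomial (Fin m) R)[X] :=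
  ((MvPolynomial.renameEquiv R (finSuccEquiv' l)).trans
    (MvPolynomial.optionEquivLeft R (Fin m))).restrictScalars k

lemma pe_apply (l : Fin (m + 1)) (P : MvPolynomial (Fin (m + 1)) R) :
    pe k R l P = MvPolynomial.optionEquivLeft R (Fin m) (MvPolynomial.rename (finSuccEquiv' l) P) := rfl

lemma pe_C (l : Fin (m + 1)) (r : R) : pe k R l (MvPolynomial.C r) = C (MvPolynomial.C r) := by
  rw [pe_apply, MvPolynomial.rename_C, MvPolynomial.optionEquivLeft_C]

lemma pe_X (l : Fin (m + 1)) : pe k R l (MvPolynomial.X l) = X := by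
  rw [pe_apply, MvPolynomial.rename_X, finSuccEquiv'_at, MvPolynomial.optionEquivLeft_X_none]

lemma pe_X' (l : Fin (m + 1)) (j : Fin m) :
    pe k R l (MvPolynomial.X (l.succAbove j)) = C (MvPolynomial.X j) := by
  rw [pe_apply, MvPolynomial.rename_X, finSuccEquiv'_succAbove, MvPolynomial.optionEquivLeft_X_some]

lemma pe_lin (l : Fin (m + 1)) (f : Fin (m + 1) → R) :
    pe k R l (lin f) = C (lin (fun j => f (l.succAbove j))) + X * C (MvPolynomial.C (f l)) := by
  rw [lin, map_sum, Fin.sum_univ_succAbove _ l, map_mul, pe_X, pe_C, add_comm, lin, map_sum]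
  refine congrArg (fun t => t + _) (Finset.sum_congr rfl fun j _ => ?_)
  rw [map_mul, pe_X', pe_C, map_mul]

/-- isomorphism of double covers -/
noncomputable def qe {T S : Type} [CommRing T] [CommRing S] [Algebra k T] [Algebra k S] {g : T}
    {g' : S} (φ : T ≃ₐ[k] S) (h : φ g = g') : Q T g ≃ₐ[k] Q S g' :=
  AlgEquiv.ofAlgHom (Qmap (φ : T →ₐ[k] S) h)
    (Qmap (φ.symm : S →ₐ[k] T) (by rw [← h]; exact φ.symm_apply_apply g))
    (by
      apply Q_ext
      · intro t
        rw [AlgHom.comp_apply, Qmap_algebraMap, Qmap_algebraMap]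
        exact congrArg _ (φ.apply_symm_apply t)
      · rw [AlgHom.comp_apply, Qmap_yy, Qmap_yy]
        rfl)
    (by
      apply Q_ext
      · intro t
        rw [AlgHom.comp_apply, Qmap_algebraMap, Qmap_algebraMap]
        exact congrArg _ (φ.symm_apply_apply t)
      · rw [AlgHom.comp_apply, Qmap_yy, Qmap_yy]
        rfl)

lemma qe_yy {T S : Type} [CommRing T] [CommRing S] [Algebra k T] [Algebra k S] {g : T}
    {g' : S} (φ : T ≃ₐ[k] S) (h : φ g = g') : qe φ h (yy g) = yy g' :=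
  Qmap_yy (φ : T →ₐ[k] S) h

lemma qe_algebraMap {T S : Type} [CommRing T] [CommRing S] [Algebra k T] [Algebra k S] {g : T}
    {g' : S} (φ : T ≃ₐ[k] S) (h : φ g = g') (t : T) :
    qe φ h (algebraMap T (Q T g) t) = algebraMap S (Q S g') (φ t) :=
  Qmap_algebraMap (φ : T →ₐ[k] S) h t

lemma qe_tau {T S : Type} [CommRing T] [CommRing S] [Algebra k T] [Algebra k S] {g : T}
    {g' : S} (φ : T ≃ₐ[k] S) (h : φ g = g') (x : Q T g) :
    qe φ h (tauH (k := k) g x) = tauH (k := k) g' (qe φ h x) := by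
  have h1 : ((qe φ h : Q T g →ₐ[k] Q S g')).comp (tauH (k := k) g) =
      (tauH (k := k) g').comp (qe φ h : Q T g →ₐ[k] Q S g') := by
    apply Q_ext
    · intro t
      change qe φ h (tau (k := k) g (algebraMap T (Q T g) t)) =
        tau (k := k) g' (qe φ h (algebraMap T (Q T g) t))
      rw [tau_algebraMap, qe_algebraMap, tau_algebraMap]
    · change qe φ h (tau (k := k) g (yy g)) = tau (k := k) g' (qe φ h (yy g))
      rw [tau_yy, map_sub, map_one, qe_yy, tau_yy]
  exact AlgHom.congr_fun h1 x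

lemma pe_map {R' : Type} [CommRing R'] [Algebra k R'] (ψ : R →ₐ[k] R') (l : Fin (m + 1))
    (P : MvPolynomial (Fin (m + 1)) R) :
    pe k R' l (MvPolynomial.mapAlgHom ψ P) = mapX (MvPolynomial.mapAlgHom ψ) (pe k R l P) := by
  induction P using MvPolynomial.induction_on with
  | C r =>
    have h1 : MvPolynomial.mapAlgHom ψ (MvPolynomial.C (σ := Fin (m + 1)) r) = MvPolynomial.C (ψ r) :=
      MvPolynomial.map_C _ _
    have h2 : MvPolynomial.mapAlgHom ψ (MvPolynomial.C (σ := Fin m) r) = MvPolynomial.C (ψ r) :=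
      MvPolynomial.map_C _ _
    rw [h1, pe_C, pe_C, ← h2]
    exact (Polynomial.map_C _).symm
  | add p q hp hq => rw [map_add, map_add, hp, hq, map_add, map_add]
  | mul_X p i hp =>
    have h1 : MvPolynomial.mapAlgHom ψ (MvPolynomial.X (R := R) i) = MvPolynomial.X i :=
      MvPolynomial.map_X _ _
    rw [map_mul, map_mul, hp, map_mul, map_mul, h1]
    congr 1
    rcases Fin.eq_self_or_eq_succAbove l i with rfl | ⟨j, rfl⟩
    · rw [pe_X, pe_X]
      exact (Polynomial.map_X _).symm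
    · rw [pe_X', pe_X']
      have h2 : MvPolynomial.mapAlgHom ψ (MvPolynomial.X (R := R) j) = MvPolynomial.X j :=
        MvPolynomial.map_X _ _
      rw [← h2]
      exact (Polynomial.map_C _).symm

end A

end VRX

theorem t_VRX : S_VRX := by
  intro k R R' _ _ _ _ _ m f l ψ
  have h' : VRX.pe k R' l (lin (fun j => ψ (f j))) =
      C ((MvPolynomial.mapAlgHom ψ) (lin (fun j => f (l.succAbove j)))) +
        X * C ((MvPolynomial.mapAlgHom ψ) (MvPolynomial.C (f l))) := by
    have h2 : MvPolynomial.mapAlgHom ψ (MvPolynomial.C (σ := Fin m) (f l)) = MvPolynomial.C (ψ (f l)) :=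
      MvPolynomial.map_C _ _
    rw [VRX.pe_lin, map_lin, h2]
  refine ⟨VRX.qe (VRX.pe k R l) (VRX.pe_lin l f), VRX.qe (VRX.pe k R' l) h', VRX.qe_tau _ _, VRX.qe_tau _ _, ?_⟩
  intro x
  have h1 : ((VRX.qe (VRX.pe k R' l) h').toAlgHom).comp (VRmap ψ f) =
      (YYmap (lin (fun j => f (l.succAbove j))) (MvPolynomial.C (f l)) (MvPolynomial.mapAlgHom ψ)).comp
        (VRX.qe (VRX.pe k R l) (VRX.pe_lin l f)).toAlgHom := by
    apply Q_ext
    · intro t
      change VRX.qe (VRX.pe k R' l) h' (VRmap ψ f (algebraMap _ _ t)) =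
        YYmap _ _ (MvPolynomial.mapAlgHom ψ) (VRX.qe (VRX.pe k R l) (VRX.pe_lin l f) (algebraMap _ _ t))
      rw [VRX.qe_algebraMap, VRmap, Qmap_algebraMap, VRX.qe_algebraMap, YYmap, Qmap_algebraMap, VRX.pe_map]
    · change VRX.qe (VRX.pe k R' l) h' (VRmap ψ f (yy _)) =
        YYmap _ _ (MvPolynomial.mapAlgHom ψ) (VRX.qe (VRX.pe k R l) (VRX.pe_lin l f) (yy _))
      rw [VRX.qe_yy, VRmap, Qmap_yy, VRX.qe_yy, YYmap, Qmap_yy]
  exact AlgHom.congr_fun h1 x

end CUB
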