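import Pool.Agent.CUB.StmtsB

/-!
# CUB, module TWO: the split double cover
-/

set_option autoImplicit false

open Polynomial

namespace CUB

namespace TWO

section Push

variable {k A B E : Type} [Field k] [CommRing A] [CommRing B] [Algebra k A] [Algebra k B]
  [Field E]

lemma pushP_inj (φ : A →ₐ[k] B) (hφ : Function.Surjective φ) (n : ℕ) :
    Function.Injective (pushP (n := n) φ hφ) := by
  intro P P' h
  apply Subtype.ext
  have h1 : PrimeSpectrum.comap φ.toRingHom P.1 = PrimeSpectrum.comap φ.toRingHom P'.1 :=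
    congrArg Subtype.val h
  exact PrimeSpectrum.comap_injective_of_surjective φ.toRingHom hφ h1

lemma mem_range_iff (φ : A →ₐ[k] B) (hφ : Function.Surjective φ) (n : ℕ) (p : RP k A n) :
    p ∈ Set.range (pushP (n := n) φ hφ) ↔ RingHom.ker φ.toRingHom ≤ p.1.asIdeal := by
  constructor
  · rintro ⟨P, rfl⟩
    intro x hx
    change φ x ∈ P.1.asIdeal
    have h : φ x = 0 := hx
    rw [h]
    exact P.1.asIdeal.zero_mem
  · intro h
    have h1 : p.1 ∈ Set.range (PrimeSpectrum.comap φ.toRingHom) := by
      rw [range_comap_of_surjective _ _ hφ]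
      exact h
    obtain ⟨P, hP⟩ := h1
    refine ⟨⟨P, ?_⟩, Subtype.ext hP⟩
    rw [← rdim_comap φ hφ P, hP]
    exact p.2

lemma push_apply {n : ℕ} (φ : A →ₐ[k] B) (hφ : Function.Surjective φ) (c : RP k B n →₀ E)
    (P : RP k B n) : push E φ hφ c (pushP φ hφ P) = c P :=
  Finsupp.mapDomain_apply (pushP_inj φ hφ n) c P

lemma push_zero {n : ℕ} (φ : A →ₐ[k] B) (hφ : Function.Surjective φ) (c : RP k B n →₀ E)
    (p : RP k A n) (hp : ¬ RingHom.ker φ.toRingHom ≤ p.1.asIdeal) : push E φ hφ c p = 0 := by
  apply Finsupp.mapDomain_of_notMem_range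
  rw [mem_range_iff]
  exact hp

end Push

section Idem

variable {k T : Type} [Field k] [CommRing T] [Algebra k T] {G : T}

/-- the idempotent of the sheet `y = v`; `u` is the inverse of `2 v - 1` -/
noncomputable def ee (G v u : T) : Q T G :=
  (yy G - algebraMap T (Q T G) (1 - v)) * algebraMap T (Q T G) u

lemma ee_idem (v u : T) (hv : v ^ 2 - v = G) (hu : (2 * v - 1) * u = 1) :
    IsIdempotentElem (ee G v u) := by
  have h1 := yy_eq G
  have h2 : algebraMap T (Q T G) G = algebraMap T (Q T G) v ^ 2 - algebraMap T (Q T G) v := by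
    rw [← map_pow, ← map_sub, hv]
  have h3 : (2 * algebraMap T (Q T G) v - 1) * algebraMap T (Q T G) u = 1 := by
    have h4 := congrArg (algebraMap T (Q T G)) hu
    rw [map_mul, map_sub, map_mul, map_one, map_ofNat] at h4
    exact h4
  unfold IsIdempotentElem ee
  rw [h2] at h1
  rw [map_sub, map_one]
  generalize algebraMap T (Q T G) v = V at *
  generalize algebraMap T (Q T G) u = U at *
  generalize yy G = Y at *
  linear_combination U ^ 2 * h1 + (Y - (1 - V)) * U * h3

lemma sg_ee (v u : T) (hv : v ^ 2 - v = G) (hu : (2 * v - 1) * u = 1) :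
    sg (k := k) v hv (ee G v u) = 1 := by
  unfold ee
  rw [map_mul, map_sub, sg_yy, sg_algebraMap, sg_algebraMap]
  linear_combination hu

lemma ker_sg (v u : T) (hv : v ^ 2 - v = G) (hu : (2 * v - 1) * u = 1) :
    RingHom.ker (sg (k := k) v hv).toRingHom = Ideal.span {1 - ee G v u} := by
  apply le_antisymm
  · intro x hx
    have hx' : sg (k := k) v hv x = 0 := hx
    obtain ⟨a, b, rfl⟩ := Q_span x
    rw [map_add, map_mul, sg_algebraMap, sg_algebraMap, sg_yy] at hx'
    rw [Ideal.mem_span_singleton]
    refine ⟨algebraMap T (Q T G) a + algebraMap T (Q T G) b * yy G, ?_⟩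
    have h1 := yy_eq G
    have h2 : algebraMap T (Q T G) G = algebraMap T (Q T G) v ^ 2 - algebraMap T (Q T G) v := by
      rw [← map_pow, ← map_sub, hv]
    have h5 : algebraMap T (Q T G) a + algebraMap T (Q T G) b * algebraMap T (Q T G) v = 0 := by
      rw [← map_mul, ← map_add, hx', map_zero]
    rw [h2] at h1
    unfold ee
    rw [map_sub, map_one]
    generalize algebraMap T (Q T G) v = V at *
    generalize algebraMap T (Q T G) u = U at *
    generalize algebraMap T (Q T G) a = A at *
    generalize algebraMap T (Q T G) b = B at *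
    generalize yy G = Y at *
    linear_combination (Y - (1 - V)) * U * h5 + B * U * h1
  · rw [Ideal.span_le]
    intro x hx
    rw [Set.mem_singleton_iff] at hx
    rw [hx]
    have : sg (k := k) v hv (1 - ee G v u) = 0 := by
      rw [map_sub, map_one, sg_ee v u hv hu, sub_self]
    exact this

lemma ee_conj (v u : T) (hv : v ^ 2 - v = G) (hu : (2 * v - 1) * u = 1) :
    ee G (1 - v) (-u) = 1 - ee G v u := by
  have h3 : (2 * algebraMap T (Q T G) v - 1) * algebraMap T (Q T G) u = 1 := by
    have h4 := congrArg (algebraMap T (Q T G)) hu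
    rw [map_mul, map_sub, map_mul, map_one, map_ofNat] at h4
    exact h4
  unfold ee
  simp only [map_sub, map_neg, map_one]
  generalize algebraMap T (Q T G) v = V at *
  generalize algebraMap T (Q T G) u = U at *
  generalize yy G = Y at *
  linear_combination h3

lemma ker_sg' (v u : T) (hv : v ^ 2 - v = G) (hu : (2 * v - 1) * u = 1) :
    RingHom.ker (sg (k := k) (1 - v) (conj_root hv)).toRingHom = Ideal.span {ee G v u} := by
  have hu' : (2 * (1 - v) - 1) * (-u) = 1 := by linear_combination hu
  have h := ker_sg (k := k) (1 - v) (-u) (conj_root hv) hu'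
  rw [ee_conj v u hv hu, sub_sub_cancel] at h
  exact h

lemma good_sg (hG : S_GLO) [Algebra.FiniteType k T] (v u : T) (hv : v ^ 2 - v = G)
    (hu : (2 * v - 1) * u = 1) : Good k 0 (sg (k := k) v hv) := by
  refine hG k (Q T G) T (sg (k := k) v hv) (ee G v u) ?_
  let _ := (sg (k := k) v hv).toRingHom.toAlgebra
  exact IsLocalization.away_of_isIdempotentElem (ee_idem v u hv hu) (ker_sg v u hv hu)
    (sg_surjective v hv)

end Idem

end TWO

open TWO

theorem t_TWO : M_TWO := by
  intro hG k T E _ _ _ _ _ G v hv hunit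
  obtain ⟨w, hw⟩ := hunit
  have hu : (2 * v - 1) * ((w⁻¹ : Tˣ) : T) = 1 := by
    rw [← hw]
    exact w.mul_inv
  generalize ((w⁻¹ : Tˣ) : T) = u at hu
  have hu' : (2 * (1 - v) - 1) * (-u) = 1 := by linear_combination hu
  have k0 := ker_sg (k := k) v u hv hu
  have k1 := ker_sg' (k := k) v u hv hu
  -- a prime does not contain both kernels
  have hno : ∀ p : PrimeSpectrum (Q T G), RingHom.ker (sg (k := k) v hv).toRingHom ≤ p.asIdeal →
      ¬ RingHom.ker (sg (k := k) (1 - v) (conj_root hv)).toRingHom ≤ p.asIdeal := by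
    intro p h0 h1
    rw [k0, Ideal.span_singleton_le_iff_mem] at h0
    rw [k1, Ideal.span_singleton_le_iff_mem] at h1
    apply p.2.ne_top
    rw [Ideal.eq_top_iff_one]
    have := p.asIdeal.add_mem h0 h1
    rwa [sub_add_cancel] at this
  have hone : ∀ p : PrimeSpectrum (Q T G),
      RingHom.ker (sg (k := k) v hv).toRingHom ≤ p.asIdeal ∨
      RingHom.ker (sg (k := k) (1 - v) (conj_root hv)).toRingHom ≤ p.asIdeal := by
    intro p
    rw [k0, k1, Ideal.span_singleton_le_iff_mem, Ideal.span_singleton_le_iff_mem]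
    apply p.2.mem_or_mem
    have h := ee_idem v u hv hu
    unfold IsIdempotentElem at h
    have h2 : (1 - ee G v u) * ee G v u = 0 := by
      rw [sub_mul, one_mul, h, sub_self]
    rw [h2]
    exact p.asIdeal.zero_mem
  refine ⟨good_sg hG v u hv hu, good_sg hG (1 - v) (-u) (conj_root hv) hu', ?_, ?_⟩
  · intro n c c₀ c₁ h0 h1
    ext p
    rw [Finsupp.add_apply]
    rcases hone p.1 with h | h
    · obtain ⟨P, hP⟩ := (mem_range_iff (sg (k := k) v hv) (sg_surjective v hv) n p).2 h
      rw [← hP, push_apply, push_zero _ _ c₁ (pushP _ _ P) (by rw [hP]; exact hno p.1 h), add_zero]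
      have h2 := (h0 P).1 ((rdim_comap _ (sg_surjective v hv) P.1).trans P.2)
      exact h2.symm
    · obtain ⟨P, hP⟩ := (mem_range_iff (sg (k := k) (1 - v) (conj_root hv))
        (sg_surjective (1 - v) (conj_root hv)) n p).2 h
      rw [← hP, push_apply, push_zero _ _ c₀ (pushP _ _ P)
        (by rw [hP]; exact fun h3 => hno p.1 h3 h), zero_add]
      have h2 := (h1 P).1 ((rdim_comap _ (sg_surjective (1 - v) (conj_root hv)) P.1).trans P.2)
      exact h2.symm
  · intro n c₀ c₁ P
    have hd : rdim k (PrimeSpectrum.comap (sg (k := k) v hv).toRingHom P.1) = n :=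
      (rdim_comap _ (sg_surjective v hv) P.1).trans P.2
    refine ⟨fun h => ?_, fun h => absurd hd h⟩
    rw [Finsupp.add_apply]
    have h1 : (⟨PrimeSpectrum.comap (sg (k := k) v hv).toRingHom P.1, h⟩ : RP k (Q T G) n) =
        pushP (n := n) (sg (k := k) v hv) (sg_surjective v hv) P := rfl
    have h2 : push E (sg (k := k) (1 - v) (conj_root hv)) (sg_surjective (1 - v) (conj_root hv)) c₁
        (pushP (n := n) (sg (k := k) v hv) (sg_surjective v hv) P) = 0 := by
      apply push_zero
      apply hno
      exact (mem_range_iff (sg (k := k) v hv) (sg_surjective v hv) n _).1 ⟨P, rfl⟩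
    rw [h1, push_apply, h2]
    exact (add_zero _).symm

end CUB
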