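import Pool.Agent.CUB.BR5

/-!
# CUB: bridge between affine varieties and rings

Contents (namespace `CUB`):
* `Dim1`: `rdim_lt`, `rdim_le`, `rdim_add_one_le`, `eq_of_le_of_rdim_eq`, `exists_rdim`
* `BR1`: `toPt`, `ofPt`, `dim_toPt`, `ptE`, `cyE`, `cyE_apply`, `cyE_single`, `cq`
* `BR2`: `len_comap`, `len_eq_zero`, `len_span`, `len_quot`, `ord_fn`
* `BR3`: `coheight_eq_one`, `isDiv_iff`, `cyE_mem`
* `BR4`: `clo_ptE`, `opn_ptE`, `rdim_comap_opn`, `isOpenImmersion_spm`, `complementary_away`,
  `lineE`, `lineX`
* `BR5`: `pX`, `rdim_pX`, `lineP`, `isPull_line_iff`, `cls`, `cls_push`, `cls_rat`, `cls_frob`,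
  `cls_res`, `inj_iff_cls`, `surj_iff_cls`, `line_cls`, `VIso.refl/symm/trans`,
  `push_viso_bijective`, `inj_viso`, `surj_viso`, `exists_aff`
* here: `ss_viso`, localizations away from an element.
-/

set_option autoImplicit false

open Polynomial CategoryTheory AlgebraicGeometry

namespace CUB

open Pool.Agent.Lib_helper55.Beil Pool.Agent.Lib_helper66.OneP

universe v

variable {k : Type} [Field k] {A : Type} [CommRing A] [Algebra k A] [Algebra.FiniteType k A]
  {E : Type} [Field E]

instance finiteType_away (a : A) : Algebra.FiniteType k (Localization.Away a) :=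
  have : Algebra.FiniteType A (Localization.Away a) :=
    RingHom.finiteType_algebraMap.1 (RingHom.finiteType_holdsForLocalizationAway _ a)
  Algebra.FiniteType.trans (S := A) inferInstance inferInstance

variable (k) in
/-- The homomorphism `A → A[1/a]`. -/
noncomputable def awayHom (a : A) : A →ₐ[k] Localization.Away a :=
  IsScalarTower.toAlgHom k A (Localization.Away a)

omit [Algebra.FiniteType k A] in
lemma isLocalization_awayHom (a : A) :
    @IsLocalization.Away A _ a (Localization.Away a) _ (awayHom k a).toRingHom.toAlgebra := by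
  have h : (awayHom k a).toRingHom.toAlgebra = (inferInstance : Algebra A (Localization.Away a)) := by
    apply Algebra.algebra_ext
    intro r
    rfl
  rw [h]
  infer_instance

instance isOpenImmersion_away (a : A) : IsOpenImmersion (spm (awayHom k a)) :=
  isOpenImmersion_spm _ a (isLocalization_awayHom a)

/-- `V(a)` and `D(a)` are complementary. -/
lemma complementary_cq (a : A) :
    Complementary (cq (k := k) (Ideal.span {a})) (opn (awayHom k a) (isOpenImmersion_away a)) :=
  complementary_away (awayHom k a) a (isLocalization_awayHom a) _ _ Ideal.mk_ker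

/-- Semisimplicity is invariant under isomorphisms. -/
theorem ss_viso {X Y : Var k} {i : ℕ} (T : Homology.{v} k E i) (s : VIso X Y) :
    T.Semisimple X ↔ T.Semisimple Y := by
  have key : ∀ {X Y : Var k} (_ : VIso X Y), T.Semisimple Y → T.Semisimple X := by
    intro X Y s h m hm
    have hF : ∀ m, T.P (2 * i) s.cl (T.F (2 * i) X m) = T.F (2 * i) Y (T.P (2 * i) s.cl m) :=
      fun m => T.equivariant.1 (2 * i) X Y s.cl m
    have hsub : ∀ m m', T.P (2 * i) s.cl (m - m') =
        T.P (2 * i) s.cl m - T.P (2 * i) s.cl m' := fun m m' => map_sub (T.push (2 * i) s.cl) m m'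
    apply (push_viso_bijective T (2 * i) s).injective
    rw [hF]
    apply h
    rw [← hF, ← hsub, ← hF, hm]
  exact ⟨key s.symm, key s⟩

end CUB
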