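import Pool.Agent.CUB.StmtsC
import Pool.Agent.CUB.Bridge

/-!
# CUB, block V: presentations, smoothness (statements)

Module `X` proves `theorem t_X : M_X` (or `t_X : S_X` if there is no `M_X`) in the namespace `CUB`, in the file
`Pool/Agent/CUB/V_X.lean`, importing this file.  The hypotheses of `M_X` are statements of other modules.
-/

set_option autoImplicit false

open Polynomial CategoryTheory AlgebraicGeometry

namespace CUB

open Pool.Agent.Lib_helper55.Beil

universe v

/-- QUAD. Every algebra of finite type is defined by equations of degree at most two. Take a presentation `k[x_1, ..., x_n] / I`, `I` generated by finitely many polynomials of degree `≤ D`. New variables `u_a`, one for each exponent `a` with `|a| ≤ D` (a finite type, then reindex by `Fin N`), `u_a ↦ x^a`. Equations: `u_0 - 1`; `u_a u_b - u_(a+b)` whenever `|a + b| ≤ D`; and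
for each generator `g = ∑ g_a x^a` of `I` the linear polynomial `∑ g_a u_a`. Let `J` be the ideal generated by them. Modulo `J`, `u_a = ∏ u_(e_i)^(a_i)` (induction on `|a|`), so the homomorphism `k[x] → k[u] / J`, `x_i ↦ u_(e_i)`, is surjective, it maps `g` to `∑ g_a u_a = 0`, so it factors through `A = k[x] / I`; the composition `A → k[u] / J → A` is the identity, so
`A → k[u] / J` is an isomorphism, inverse to the given map. (Other proofs are fine: for instance add one variable `z` and one equation `z - x y` at a time.) -/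
def S_QUAD : Prop := ∀ (k A : Type) [Field k] [CommRing A] [Algebra k A]
  [Algebra.FiniteType k A], ∃ (N m : ℕ) (f : Fin m → MvPolynomial (Fin N) k)
  (φ : MvPolynomial (Fin N) k →ₐ[k] A), Function.Surjective φ ∧
  RingHom.ker φ.toRingHom = Ideal.span (Set.range f) ∧ ∀ j, (f j).totalDegree ≤ 2

/-- PAD. Adding the equation `0` (one more equation), and adding a variable `x` and the equation `x = 0` (one more variable, one more equation; `φ x = 0`, the kernel is generated by the old equations and `x`). -/
def S_PAD : Prop := ∀ (k A : Type) [Field k] [CommRing A] [Algebra k A] (N m : ℕ)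
  (f : Fin m → MvPolynomial (Fin N) k) (φ : MvPolynomial (Fin N) k →ₐ[k] A),
  Function.Surjective φ → RingHom.ker φ.toRingHom = Ideal.span (Set.range f) →
  (∀ j, (f j).totalDegree ≤ 2) → ∀ (N' m' : ℕ), N ≤ N' → m + (N' - N) ≤ m' →
  ∃ (f' : Fin m' → MvPolynomial (Fin N') k) (φ' : MvPolynomial (Fin N') k →ₐ[k] A),
    Function.Surjective φ' ∧ RingHom.ker φ'.toRingHom = Ideal.span (Set.range f') ∧
    ∀ j, (f' j).totalDegree ≤ 2

/-- CUV. `MvPolynomial (Fin b) (MvPolynomial (Fin a) k) ≃ MvPolynomial (Fin b ⊕ Fin a) k ≃ MvPolynomial (Fin (3 n)) k` (`MvPolynomial.sumAlgEquiv`, `renameEquiv`), `F` the image of `∑ t_j f_j`, of degree `≤ 3` (a product of a variable and a renamed polynomial of degree `≤ 2`), and `Qmap` of the isomorphism. -/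
def S_CUV : Prop := ∀ (k : Type) [Field k] (a b n : ℕ), a + b = 3 * n →
  ∀ f : Fin b → MvPolynomial (Fin a) k, (∀ j, (f j).totalDegree ≤ 2) →
  ∃ F : MvPolynomial (Fin (3 * n)) k, F.totalDegree ≤ 3 ∧
    Nonempty (Q (MvPolynomial (Fin (3 * n)) k) F ≃ₐ[k] VR (MvPolynomial (Fin a) k) f)

/-- SMO. `VR P f` is smooth over `k` for `P = k[x_1, ..., x_a]`: standard smooth presentation `k[x, t, y] / (y^2 - y - ∑ t_j f_j)`: locally, where the partial derivative with respect to `y` (`2 y - 1`) or with respect to `t_l` (`- f_l`) is invertible it is standard smooth (Jacobian criterion, Mathlib `Algebra.SubmersivePresentation`), and these open sets cover: a prime containing `2 y - 1` and all the `f_l`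
contains `y^2 - y` and `(2 y - 1)^2 - 4 (y^2 - y) = 1`. Or use S_VRL: away from `f_l` it is a polynomial ring over a localised polynomial ring; away from `2 y - 1` it is standard etale over `P[t]` (`Algebra.IsStandardEtale` or the like). Smoothness is local on the source (`HasRingHomProperty` / `Smooth` is local). `Smooth (aff k A).f` with `(aff k A).f = Spec.map (ofHom (algebraMap k A))`: the ring map is smooth
(`RingHom.Smooth`, `Algebra.Smooth k A`). -/
def S_SMO : Prop := ∀ (k : Type) [Field k] (a b : ℕ) (f : Fin b → MvPolynomial (Fin a) k),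
  Smooth (aff k (VR (MvPolynomial (Fin a) k) f)).f

def M_SMO : Prop := S_VRL → S_SMO

/-- SMI. Smoothness of `aff k A` is invariant under isomorphisms of algebras. -/
def S_SMI : Prop := ∀ (k A B : Type) [Field k] [CommRing A] [CommRing B] [Algebra k A]
  [Algebra k B] [Algebra.FiniteType k A] [Algebra.FiniteType k B], (A ≃ₐ[k] B) →
  Smooth (aff k A).f → Smooth (aff k B).f

/-- RED. The reduction step (block V, helper66). -/
def S_RED : Prop := ∀ (k E : Type) [Field k] [Finite k] [Field E] [CharZero E]
  (T : ∀ i : ℕ, Homology.{v} k E i), Extra T → ∀ (R R' : Type) [CommRing R] [CommRing R']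
  [Algebra k R] [Algebra k R'] [Algebra.FiniteType k R] [Algebra.FiniteType k R'] (m i : ℕ)
  (f : Fin (m + 1) → R) (ψ : R →ₐ[k] R'), Function.Surjective ψ →
  RingHom.ker ψ.toRingHom = Ideal.span (Set.range f) → (∀ z : RP k R i →₀ E, z ∈ rat k R E i) →
  ((T (i + (m + 1))).Inj (aff k (VR R f)) → (T i).Inj (aff k R')) ∧
  ((T (i + (m + 1))).Surj (aff k (VR R f)) → (T i).Surj (aff k R'))

/-- MAIN. From smooth cubic hypersurfaces to all affine varieties. By `exists_aff`, `inj_viso`, `surj_viso` (Bridge) it is enough to treat `aff k A`. Take a presentation of `A` by S_QUAD with `N` variables and `m` equations, let `n = N + m + 2 i + 1`, `N' = n + i`, `m' = 2 n - i = (m' - 1) + 1`; S_PAD gives a presentation with `N'` variables and `m'` equations (`m + (N' - N) ≤ m'`). `i < N'`, so all `i`-dimensional cycles of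
`k[x_1, ..., x_N']` are in `rat` (S_ZPOL). `N' + m' = 3 n`: by S_CUV the ring `VR _ f'` is isomorphic to the coordinate ring of a cubic hypersurface `cubic F`, smooth by S_SMO, S_SMI. `i + m' = 2 n`, so the hypothesis for `n`, `F` gives `Inj` and `Surj` for `T (i + m')` and `aff k (VR _ f')`, and S_RED for `aff k A`. -/
def S_MAIN : Prop := ∀ (k E : Type) [Field k] [Finite k] [Field E] [CharZero E]
  (T : ∀ i : ℕ, Homology.{v} k E i), Extra T →
  ((∀ (n : ℕ) (F : MvPolynomial (Fin (3 * n)) k), F.totalDegree ≤ 3 → Smooth (cubic F).f →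
    (T (2 * n)).Inj (cubic F)) → ∀ (i : ℕ) (X : Var k), IsAffine X.X → (T i).Inj X) ∧
  ((∀ (n : ℕ) (F : MvPolynomial (Fin (3 * n)) k), F.totalDegree ≤ 3 → Smooth (cubic F).f →
    (T (2 * n)).Surj (cubic F)) → ∀ (i : ℕ) (X : Var k), IsAffine X.X → (T i).Surj X)

def M_MAIN : Prop := S_QUAD → S_PAD → S_CUV → S_SMO → S_SMI → S_ZPOL → S_RED.{v} → S_MAIN.{v}

/-- SURJ. If `Surj` holds for all affine varieties then `Surj` and `Semisimple` hold for all varieties, by the theorem of helper55: `Homology.surj_of_good`, `semisimple_of_good`, `good_of_cover` in `Pool/Agent/Lib_helper55/Beil` (see `Results/MP_3af9db_ag/EtaleCoversSuffice.lean`): its hypothesis `CoverVanish` is only about integral finite etale covers `U` of affine spaces, which are affine (finite morphism to an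
affine scheme); as in that file: `T.inv_zero_of_surj`. -/
def S_SURJ : Prop := ∀ (k E : Type) [Field k] [Finite k] [Field E] (i : ℕ)
  (T : Homology.{v} k E i), (∀ X : Var k, IsAffine X.X → T.Surj X) →
  ∀ X : Var k, T.Surj X ∧ T.Semisimple X

end CUB
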