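import Pool.Agent.CUB.StmtsV

/-!
# CUB, module CUV
-/

set_option autoImplicit false

open Polynomial

namespace CUB

namespace CUV

/-- The isomorphism of double covers defined by an isomorphism of the bases. -/
noncomputable def Qequiv {k T S : Type} [Field k] [CommRing T] [CommRing S] [Algebra k T]
    [Algebra k S] {g : T} {g' : S} (φ : T ≃ₐ[k] S) (h : φ g = g') : Q T g ≃ₐ[k] Q S g' :=
  AlgEquiv.ofAlgHom (Qmap (φ : T →ₐ[k] S) h)
    (Qmap (φ.symm : S →ₐ[k] T) (by rw [← h]; exact φ.symm_apply_apply g))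
    (by
      apply Q_ext
      · intro t
        rw [AlgHom.comp_apply, Qmap_algebraMap, Qmap_algebraMap]
        simp
      · rw [AlgHom.comp_apply, Qmap_yy, Qmap_yy]
        rfl)
    (by
      apply Q_ext
      · intro t
        rw [AlgHom.comp_apply, Qmap_algebraMap, Qmap_algebraMap]
        simp
      · rw [AlgHom.comp_apply, Qmap_yy, Qmap_yy]
        rfl)

/-- The reindexing of the variables. -/
def idx {a b n : ℕ} (h : a + b = 3 * n) : Fin b ⊕ Fin a ≃ Fin (3 * n) :=
  finSumFinEquiv.trans (finCongr (by omega))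

end CUV

open CUV

theorem t_CUV : S_CUV := by
  intro k _ a b n hab f hf
  let G : MvPolynomial (Fin b ⊕ Fin a) k :=
    ∑ j, MvPolynomial.X (Sum.inl j) * MvPolynomial.rename Sum.inr (f j)
  have hG : G.totalDegree ≤ 3 := by
    refine MvPolynomial.totalDegree_finsetSum_le (fun j _ => ?_)
    refine (MvPolynomial.totalDegree_mul _ _).trans ?_
    have h1 : (MvPolynomial.X (Sum.inl j) : MvPolynomial (Fin b ⊕ Fin a) k).totalDegree = 1 :=
      MvPolynomial.totalDegree_X _
    have h2 := MvPolynomial.totalDegree_rename_le (Sum.inr : Fin a → Fin b ⊕ Fin a) (f j)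
    have h3 := hf j
    omega
  have hS : MvPolynomial.sumAlgEquiv k (Fin b) (Fin a) G = lin f := by
    have hr : ∀ p : MvPolynomial (Fin a) k,
        MvPolynomial.sumAlgEquiv k (Fin b) (Fin a) (MvPolynomial.rename Sum.inr p) =
          MvPolynomial.C p := by
      intro p
      exact DFunLike.congr_fun (MvPolynomial.sumAlgEquiv_comp_rename_inr (R := k)
        (S₁ := Fin b) (S₂ := Fin a)) p
    simp only [G, lin, map_sum, map_mul, hr, MvPolynomial.sumAlgEquiv_X_inl]
  refine ⟨MvPolynomial.rename (idx hab) G, ?_, ⟨Qequiv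
    ((MvPolynomial.renameEquiv k (idx hab)).symm.trans
      (MvPolynomial.sumAlgEquiv k (Fin b) (Fin a))) ?_⟩⟩
  · exact (MvPolynomial.totalDegree_rename_le _ _).trans hG
  · rw [← hS, AlgEquiv.trans_apply]
    congr 1
    rw [AlgEquiv.symm_apply_eq]
    rfl

end CUB
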