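import Pool.Agent.CUB.StmtsR

/-!
# CUB: DISJ, the exchange formula for two elements without common primes of height one
-/

set_option autoImplicit false

namespace CUB

namespace DISJ

lemma length_max {C A : Type} [CommRing C] [IsNoetherianRing C] [CommRing A] [Algebra C A]
    [Module.Finite C A] (P : Ideal A) (hP : P.IsMaximal) : Module.length C (A ⧸ P) ≠ ⊤ := by
  haveI := hP
  haveI h1 : (P.under C).IsMaximal := Ideal.isMaximal_comap_of_isIntegral_of_isMaximal P
  haveI : P.LiesOver (P.under C) := Ideal.over_under P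
  letI : Field (C ⧸ P.under C) := Ideal.Quotient.field _
  haveI : Module.Finite (C ⧸ P.under C) (A ⧸ P) :=
    Module.Finite.of_restrictScalars_finite C _ _
  rw [Module.length_eq_of_surjective (S := C) (R := C ⧸ P.under C) (M := A ⧸ P)
    Ideal.Quotient.mk_surjective]
  exact Module.length_ne_top

lemma len_eq {A : Type} [CommRing A] (I : Ideal A) (p : PrimeSpectrum A) :
    lC (Localization.AtPrime p.asIdeal) (LocalizedModule p.asIdeal.primeCompl (A ⧸ I)) =
      len I p := by
  unfold lC len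
  congr 1
  have e1 := IsLocalizedModule.linearEquiv p.asIdeal.primeCompl
    (LocalizedModule.mkLinearMap p.asIdeal.primeCompl (A ⧸ I))
    (I.toLocalizedQuotient' (Localization.AtPrime p.asIdeal) p.asIdeal.primeCompl
      (Algebra.linearMap A (Localization.AtPrime p.asIdeal)))
  have e2 := e1.extendScalarsOfIsLocalization p.asIdeal.primeCompl
    (Localization.AtPrime p.asIdeal)
  rw [e2.length_eq, Ideal.localized'_eq_map]

lemma quot_eq {C A : Type} [CommRing C] [CommRing A] [Algebra C A] (x y : A) :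
    lC C ((A ⧸ Ideal.span {x}) ⧸ LinearMap.range (LinearMap.lsmul A (A ⧸ Ideal.span {x}) y)) =
      lC C (A ⧸ (Ideal.span {x} ⊔ Ideal.span {y})) := by
  have h : LinearMap.range (LinearMap.lsmul A (A ⧸ Ideal.span {x}) y) =
      Submodule.map (Submodule.mkQ (Ideal.span {x})) (Ideal.span {y}) := by
    ext z
    constructor
    · rintro ⟨w, rfl⟩
      obtain ⟨a, rfl⟩ := Submodule.Quotient.mk_surjective _ w
      exact ⟨y * a, Ideal.mul_mem_right _ _ (Ideal.mem_span_singleton_self y), rfl⟩
    · rintro ⟨w, hw, rfl⟩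
      obtain ⟨a, rfl⟩ := Ideal.mem_span_singleton'.1 hw
      exact ⟨(Ideal.span {x}).mkQ a, by rw [mul_comm a y]; rfl⟩
  unfold lC
  congr 1
  rw [h]
  exact ((Submodule.quotientQuotientEquivQuotientSup (Ideal.span {x})
    (Ideal.span {y})).restrictScalars C).length_eq

lemma half (hDEV : S_DEV) {C A : Type} [CommRing C] [IsNoetherianRing C] [CommRing A]
    [IsNoetherianRing A] [Algebra C A] [Module.Finite C A]
    (h3 : ∀ p ∈ HH A, ∀ p' : Ideal A, p'.IsPrime → p' < p.asIdeal → p' = ⊥)
    (h5 : ∀ p ∈ HH A, ∀ x, x ∉ p.asIdeal →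
      Module.length C (A ⧸ (p.asIdeal ⊔ Ideal.span {x})) ≠ ⊤) (x y : A) (hx : x ≠ 0)
    (h4 : {p | p ∈ HH A ∧ x ∈ p.asIdeal}.Finite)
    (hxy : ∀ p ∈ HH A, x ∈ p.asIdeal → y ∉ p.asIdeal) (W : Finset (PrimeSpectrum A))
    (hW : ∀ p ∈ W, p ∈ HH A) (hW2 : ∀ p ∈ HH A, x ∈ p.asIdeal → p ∈ W) :
    lC C (A ⧸ (Ideal.span {x} ⊔ Ideal.span {y})) =
      lC C (LinearMap.ker (LinearMap.lsmul A (A ⧸ Ideal.span {x}) y)) +
      ∑ p ∈ W, len (Ideal.span {x}) p * lC C (A ⧸ (p.asIdeal ⊔ Ideal.span {y})) := by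
  classical
  have hS : ∀ p, p ∈ h4.toFinset ↔ p ∈ HH A ∧ x ∈ p.asIdeal := by
    intro p
    rw [Set.Finite.mem_toFinset]
    rfl
  obtain ⟨_, _, _, h⟩ := hDEV C A y h4.toFinset
    (fun P hP => ⟨hxy P ((hS P).1 hP).1 ((hS P).1 hP).2,
      h5 P ((hS P).1 hP).1 y (hxy P ((hS P).1 hP).1 ((hS P).1 hP).2)⟩)
    (fun P hP P' hP' hle => by
      rcases hle.lt_or_eq with hlt | he
      · exact absurd (h3 P' ((hS P').1 hP').1 P.asIdeal P.isPrime hlt) ((hS P).1 hP).1.1
      · exact PrimeSpectrum.ext he)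
    (A ⧸ Ideal.span {x}) (by
      intro P hP
      have hxP : x ∈ P.asIdeal := by
        by_contra hcon
        rw [Module.mem_support_iff_exists_annihilator] at hP
        obtain ⟨m, hm⟩ := hP
        apply hcon
        apply hm
        rw [Submodule.mem_annihilator_span_singleton]
        obtain ⟨a, rfl⟩ := Submodule.Quotient.mk_surjective _ m
        rw [← Submodule.Quotient.mk_smul, Submodule.Quotient.mk_eq_zero]
        exact Ideal.mul_mem_right _ _ (Ideal.mem_span_singleton_self x)
      by_cases hPH : P ∈ HH A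
      · exact Or.inl ((hS P).2 ⟨hPH, hxP⟩)
      · right
        have hb : P.asIdeal ≠ ⊥ := by
          intro hb
          rw [hb] at hxP
          exact hx ((Ideal.mem_bot).1 hxP)
        have hmax : P.asIdeal.IsMaximal := by
          by_contra hcon
          exact hPH ⟨hb, hcon⟩
        refine ⟨fun P' hP' hle => ?_, length_max P.asIdeal hmax⟩
        have := hmax.eq_of_le P'.isPrime.ne_top hle
        exact ((hS P').1 hP').1.2 (this ▸ hmax))
  rw [quot_eq] at h
  rw [h]
  congr 1
  have hsub : h4.toFinset ⊆ W := fun p hp => hW2 p ((hS p).1 hp).1 ((hS p).1 hp).2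
  rw [← Finset.sum_subset hsub]
  · refine Finset.sum_congr rfl fun p _ => ?_
    rw [len_eq]
  · intro p hp hp2
    have hxp : x ∉ p.asIdeal := fun hc => hp2 ((hS p).2 ⟨hW p hp, hc⟩)
    have h0 : len (Ideal.span {x}) p = 0 := by
      have htop : (Ideal.span {x}).map (algebraMap A (Localization.AtPrime p.asIdeal)) = ⊤ := by
        rw [Ideal.eq_top_iff_one]
        have hu : IsUnit (algebraMap A (Localization.AtPrime p.asIdeal) x) :=
          IsLocalization.map_units (Localization.AtPrime p.asIdeal)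
            (⟨x, hxp⟩ : p.asIdeal.primeCompl)
        exact (Ideal.eq_top_of_isUnit_mem _
          (Ideal.mem_map_of_mem _ (Ideal.mem_span_singleton_self x)) hu) ▸ Submodule.mem_top
      unfold len
      haveI : Subsingleton (Localization.AtPrime p.asIdeal ⧸
          (Ideal.span {x}).map (algebraMap A (Localization.AtPrime p.asIdeal))) :=
        Ideal.Quotient.subsingleton_iff.2 htop
      rw [Module.length_eq_zero]
      rfl
    rw [h0, zero_mul]

end DISJ

open DISJ in
theorem t_DISJ : M_DISJ := by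
  intro hDEV hKOS hHHA C A K _ _ _ _ _ _ _ _ _ _ _ hSit x y hx hy hxy W hW hW2
  obtain ⟨hN, _, h3, h4, h5, _⟩ := hHHA C A K hSit
  haveI := hN
  haveI := hSit.fin
  have e1 := half hDEV (C := C) h3 h5 x y hx (h4 x hx) hxy W hW
    (fun p hp h => hW2 p hp (Or.inl h))
  have e2 := half hDEV (C := C) h3 h5 y x hy (h4 y hy) (fun p hp h1 h2 => hxy p hp h2 h1) W hW
    (fun p hp h => hW2 p hp (Or.inr h))
  have e3 : lC C (LinearMap.ker (LinearMap.lsmul A (A ⧸ Ideal.span {x}) y)) =
      lC C (LinearMap.ker (LinearMap.lsmul A (A ⧸ Ideal.span {y}) x)) := by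
    unfold lC
    rw [hKOS C A x y hx hy]
  rw [sup_comm, e1, e3] at e2
  exact Nat.add_left_cancel e2

end CUB
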