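import Pool.Agent.CUB.StmtsA

/-!
# CUB, module LENC: lengths in dimension one
-/

set_option autoImplicit false
set_option linter.unusedSectionVars false

namespace CUB

namespace LENC

/-- the length of `A_p / I A_p` -/
noncomputable def lenE {A : Type} [CommRing A] (I : Ideal A) (p : PrimeSpectrum A) : ℕ∞ :=
  Module.length (Localization.AtPrime p.asIdeal) (Localization.AtPrime p.asIdeal ⧸
    I.map (algebraMap A (Localization.AtPrime p.asIdeal)))

theorem len_eq {A : Type} [CommRing A] (I : Ideal A) (p : PrimeSpectrum A) :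
    len I p = (lenE I p).toNat := rfl

/-- the length as an order of vanishing -/
theorem lenE_eq {A : Type} [CommRing A] (q : Ideal A) (a : A) (p : PrimeSpectrum A) :
    lenE (q ⊔ Ideal.span {a}) p =
      Ring.ord (Localization.AtPrime p.asIdeal ⧸
        q.map (algebraMap A (Localization.AtPrime p.asIdeal)))
        (Ideal.Quotient.mk _ (algebraMap A _ a)) := by
  unfold lenE Ring.ord
  rw [Ideal.map_sup, Ideal.map_span, Set.image_singleton]
  set S := Localization.AtPrime p.asIdeal with hS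
  set J : Ideal S := q.map (algebraMap A S) with hJ
  set b : S := algebraMap A S a with hb
  have e := DoubleQuot.quotQuotEquivQuotSupₐ S J (Ideal.span {b})
  have h1 : (Ideal.span {b}).map (Ideal.Quotient.mkₐ S J) =
      Ideal.span {Ideal.Quotient.mk J b} := by
    rw [Ideal.map_span, Set.image_singleton]
    rfl
  rw [h1] at e
  rw [← e.toLinearEquiv.length_eq]
  exact Module.length_eq_of_surjective (S := S) (R := S ⧸ J) Ideal.Quotient.mk_surjective

theorem lenE_top {A : Type} [CommRing A] (I : Ideal A) (p : PrimeSpectrum A)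
    (h : ¬ I ≤ p.asIdeal) : lenE I p = 0 := by
  obtain ⟨x, hx, hxp⟩ := Set.not_subset.mp h
  have h1 : I.map (algebraMap A (Localization.AtPrime p.asIdeal)) = ⊤ := by
    apply Ideal.eq_top_of_isUnit_mem _ (Ideal.mem_map_of_mem _ hx)
    exact IsLocalization.map_units (Localization.AtPrime p.asIdeal)
      (⟨x, hxp⟩ : p.asIdeal.primeCompl)
  unfold lenE
  rw [h1, Module.length_eq_zero_iff]
  exact Ideal.Quotient.subsingleton_iff.mpr rfl

theorem lenE_ne {A : Type} [CommRing A] (I : Ideal A) (p : PrimeSpectrum A)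
    (h : I ≤ p.asIdeal) : lenE I p ≠ 0 := by
  unfold lenE
  rw [Ne, Module.length_eq_zero_iff, Ideal.Quotient.subsingleton_iff]
  intro h1
  have h2 : I.map (algebraMap A (Localization.AtPrime p.asIdeal)) ≤
      IsLocalRing.maximalIdeal (Localization.AtPrime p.asIdeal) := by
    rw [← Localization.AtPrime.map_eq_maximalIdeal]
    exact Ideal.map_mono h
  rw [h1] at h2
  exact (IsLocalRing.maximalIdeal.isMaximal (Localization.AtPrime p.asIdeal)).ne_top
    (top_le_iff.mp h2)

/-- maximality of an ideal from the preimage -/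
theorem max_of_comap {S C : Type} [CommRing S] [CommRing C] (f : S →+* C)
    (hf : Function.Surjective f) (I : Ideal C) (h : (I.comap f).IsMaximal) : I.IsMaximal := by
  rw [Ideal.isMaximal_def]
  refine ⟨fun h1 => h.ne_top (by rw [h1, Ideal.comap_top]), fun K hK => ?_⟩
  have h2 : I.comap f < K.comap f := by
    refine lt_of_le_of_ne (Ideal.comap_mono hK.le) fun h3 => hK.ne ?_
    exact Ideal.comap_injective_of_surjective f hf h3
  have h3 := (Ideal.isMaximal_def.mp h).2 _ h2
  exact (Ideal.comap_eq_top_iff).mp h3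

/-- the quotient of the local ring has dimension at most one -/
theorem krull_aux {A : Type} [CommRing A] (p q : Ideal A) [p.IsPrime]
    (hbet : ∀ r : Ideal A, r.IsPrime → q ≤ r → q ≠ r → r ≤ p → r = p) :
    Ring.KrullDimLE 1 (Localization.AtPrime p ⧸
      q.map (algebraMap A (Localization.AtPrime p))) := by
  apply Ring.KrullDimLE.mk₁'
  intro I hI hIp
  apply max_of_comap (Ideal.Quotient.mk _) Ideal.Quotient.mk_surjective
  have hQp : (I.comap (Ideal.Quotient.mk _)).IsPrime := Ideal.comap_isPrime _ _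
  have hJQ : q.map (algebraMap A (Localization.AtPrime p)) ≤ I.comap (Ideal.Quotient.mk _) := by
    intro x hx
    rw [Ideal.mem_comap, Ideal.Quotient.eq_zero_iff_mem.mpr hx]
    exact I.zero_mem
  have hne : q.map (algebraMap A (Localization.AtPrime p)) ≠ I.comap (Ideal.Quotient.mk _) := by
    intro h3
    apply hI
    rw [eq_bot_iff]
    intro x hx
    obtain ⟨y, rfl⟩ := Ideal.Quotient.mk_surjective x
    have h4 : y ∈ I.comap (Ideal.Quotient.mk _) := hx
    rw [← h3] at h4
    rw [Ideal.mem_bot, Ideal.Quotient.eq_zero_iff_mem]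
    exact h4
  generalize I.comap (Ideal.Quotient.mk _) = Q at hQp hJQ hne
  have hmap : (Q.comap (algebraMap A (Localization.AtPrime p))).map
      (algebraMap A (Localization.AtPrime p)) = Q :=
    IsLocalization.map_under p.primeCompl (Localization.AtPrime p) Q
  have h5 : Q.comap (algebraMap A (Localization.AtPrime p)) = p := by
    apply hbet
    · exact Ideal.comap_isPrime _ _
    · exact Ideal.map_le_iff_le_comap.mp hJQ
    · intro h2
      apply hne
      rw [h2, hmap]
    · have h2 : Q ≤ IsLocalRing.maximalIdeal (Localization.AtPrime p) :=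
        IsLocalRing.le_maximalIdeal hQp.ne_top
      intro x hx
      have h3 := h2 hx
      by_contra hxp
      have h4 : IsUnit (algebraMap A (Localization.AtPrime p) x) :=
        IsLocalization.map_units (Localization.AtPrime p) (⟨x, hxp⟩ : p.primeCompl)
      exact (IsLocalRing.mem_maximalIdeal _).mp h3 h4
  rw [← hmap, h5, Localization.AtPrime.map_eq_maximalIdeal]
  exact IsLocalRing.maximalIdeal.isMaximal _

section Dim

variable {k A : Type} [Field k] [CommRing A] [Algebra k A] [Algebra.FiniteType k A]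

/-- there is no prime strictly between -/
theorem between (h1 : S_DIM1) {n : ℕ} (q : RP k A (n + 1)) (p : RP k A n)
    (r : PrimeSpectrum A) (hq : q.1 < r) (hr : r ≤ p.1) : r = p.1 := by
  rcases hr.eq_or_lt with h | h
  · exact h
  exfalso
  obtain ⟨⟨m, hm⟩, h2⟩ := h1 k A r
  have h3 := h2 p.1 h
  have h4 := (h1 k A q.1).2 r hq
  rw [hm, p.2] at h3
  rw [hm, q.2] at h4
  have h5 : n < m := by exact_mod_cast h3
  have h6 : m < n + 1 := by exact_mod_cast h4
  omega

theorem disj {n : ℕ} (q : RP k A (n + 1)) (p : RP k A n)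
    (hqp : q.1.asIdeal ≤ p.1.asIdeal) :
    Disjoint (p.1.asIdeal.primeCompl : Set A) q.1.asIdeal := by
  rw [Set.disjoint_left]
  intro x hx hx'
  exact hx (hqp hx')

theorem prime_map {n : ℕ} (q : RP k A (n + 1)) (p : RP k A n)
    (hqp : q.1.asIdeal ≤ p.1.asIdeal) :
    (q.1.asIdeal.map (algebraMap A (Localization.AtPrime p.1.asIdeal))).IsPrime :=
  IsLocalization.isPrime_of_isPrime_disjoint p.1.asIdeal.primeCompl _ _ q.1.isPrime
    (disj q p hqp)

theorem mk_ne {n : ℕ} (q : RP k A (n + 1)) (p : RP k A n)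
    (hqp : q.1.asIdeal ≤ p.1.asIdeal) {a : A} (ha : a ∉ q.1.asIdeal) :
    (Ideal.Quotient.mk (q.1.asIdeal.map (algebraMap A (Localization.AtPrime p.1.asIdeal)))
      (algebraMap A _ a)) ≠ 0 := by
  rw [Ne, Ideal.Quotient.eq_zero_iff_mem]
  intro h
  apply ha
  have h2 := IsLocalization.under_map_of_isPrime_disjoint p.1.asIdeal.primeCompl
    (Localization.AtPrime p.1.asIdeal) q.1.isPrime (disj q p hqp)
  rw [← h2]
  exact h

theorem krull (h1 : S_DIM1) {n : ℕ} (q : RP k A (n + 1)) (p : RP k A n)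
    (hqp : q.1.asIdeal ≤ p.1.asIdeal) :
    Ring.KrullDimLE 1 (Localization.AtPrime p.1.asIdeal ⧸
      q.1.asIdeal.map (algebraMap A (Localization.AtPrime p.1.asIdeal))) := by
  apply krull_aux
  intro r hr h2 h3 h4
  have h5 := between h1 q p ⟨r, hr⟩ (lt_of_le_of_ne h2 fun h => h3 (congrArg _ h)) h4
  exact congrArg PrimeSpectrum.asIdeal h5

theorem lenE_fin (h1 : S_DIM1) {n : ℕ} (q : RP k A (n + 1)) (p : RP k A n)
    (hqp : q.1.asIdeal ≤ p.1.asIdeal) {a : A} (ha : a ∉ q.1.asIdeal) :
    lenE (q.1.asIdeal ⊔ Ideal.span {a}) p.1 ≠ ⊤ := by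
  have hp := prime_map q p hqp
  have hN : IsNoetherianRing A := Algebra.FiniteType.isNoetherianRing k A
  have hS : IsNoetherianRing (Localization.AtPrime p.1.asIdeal) :=
    IsLocalization.isNoetherianRing p.1.asIdeal.primeCompl _ hN
  have hK := krull h1 q p hqp
  rw [lenE_eq]
  exact Ring.ord_ne_top (mem_nonZeroDivisors_of_ne_zero (mk_ne q p hqp ha))

theorem lenE_mul {n : ℕ} (q : RP k A (n + 1)) (p : RP k A n)
    (hqp : q.1.asIdeal ≤ p.1.asIdeal) {a b : A} (ha : a ∉ q.1.asIdeal) :
    lenE (q.1.asIdeal ⊔ Ideal.span {a * b}) p.1 =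
      lenE (q.1.asIdeal ⊔ Ideal.span {a}) p.1 + lenE (q.1.asIdeal ⊔ Ideal.span {b}) p.1 := by
  have hp := prime_map q p hqp
  rw [lenE_eq, lenE_eq, lenE_eq, map_mul, map_mul]
  exact Ring.ord_mul' _ (mem_nonZeroDivisors_of_ne_zero (mk_ne q p hqp ha))

end Dim

end LENC

open LENC in
theorem t_LENC : M_LENC := by
  intro h1 k A _ _ _ _ n q p
  have key : ∀ a : A, ¬ (q.1.asIdeal ≤ p.1.asIdeal ∧ a ∈ p.1.asIdeal) →
      len (q.1.asIdeal ⊔ Ideal.span {a}) p.1 = 0 := by
    intro a h
    rw [len_eq, lenE_top, ENat.toNat_zero]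
    intro h2
    apply h
    refine ⟨le_sup_left.trans h2, h2 (Ideal.mem_sup_right (Ideal.mem_span_singleton_self a))⟩
  refine ⟨?_, ?_, ?_, ?_⟩
  · intro a b ha hb
    by_cases hqp : q.1.asIdeal ≤ p.1.asIdeal
    · rw [len_eq, len_eq, len_eq, lenE_mul q p hqp ha,
        ENat.toNat_add (lenE_fin h1 q p hqp ha) (lenE_fin h1 q p hqp hb)]
    · rw [key _ fun h => hqp h.1, key _ fun h => hqp h.1, key _ fun h => hqp h.1]
  · intro a h
    by_contra h2
    exact h (key a h2)
  · intro a ha hqp hap
    rw [len_eq, Ne, ENat.toNat_eq_zero, not_or]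
    refine ⟨lenE_ne _ _ ?_, lenE_fin h1 q p hqp ha⟩
    rw [sup_le_iff, Ideal.span_singleton_le_iff_mem]
    exact ⟨hqp, hap⟩
  · intro a ha
    exact key a fun h => ha h.2

end CUB
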