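import Pool.Agent.CUB.Defs

/-!
# CUB: the dimension of primes drops strictly
-/

set_option autoImplicit false

namespace CUB

open Cardinal

section Trdeg

variable {k : Type} [Field k] {A B : Type} [CommRing A] [CommRing B] [Algebra k A] [Algebra k B]

/-- A surjection of a domain of finite transcendence degree which is not injective lowers the
transcendence degree. -/
lemma trdeg_lt_of_surjective [IsDomain A] [IsDomain B] (hA : Algebra.trdeg k A < ℵ₀)
    (f : A →ₐ[k] B) (hf : Function.Surjective f) (hni : ¬ Function.Injective f) :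
    Algebra.trdeg k B < Algebra.trdeg k A := by
  refine lt_of_le_of_ne (_root_.trdeg_le_of_surjective f hf) ?_
  intro heq
  obtain ⟨s, hs⟩ := exists_isTranscendenceBasis k B
  have hcard : #s = Algebra.trdeg k B := hs.cardinalMk_eq_trdeg
  let y : s → A := fun a => Function.surjInv hf a.1
  have hy : ∀ a, f (y a) = a.1 := fun a => Function.surjInv_eq hf a.1
  have hfy : (f ∘ y) = fun a : s => (a.1 : B) := funext hy
  have hyi : AlgebraicIndependent k y := by
    refine AlgebraicIndependent.of_comp f ?_
    rw [hfy]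
    exact hs.1
  have hyb : IsTranscendenceBasis k y :=
    hyi.isTranscendenceBasis_of_trdeg_le hA (by rw [hcard, heq])
  have halg : Algebra.IsAlgebraic (Algebra.adjoin k (Set.range y)) A := hyb.isAlgebraic
  -- a nonzero element of the kernel
  obtain ⟨z, hz0, hz⟩ : ∃ z : A, z ≠ 0 ∧ f z = 0 := by
    by_contra hcon
    push Not at hcon
    apply hni
    rw [injective_iff_map_eq_zero]
    intro a ha
    by_contra ha0
    exact hcon a ha0 ha
  have hne := Ideal.comap_ne_bot_of_algebraic_mem (R := Algebra.adjoin k (Set.range y))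
    (I := RingHom.ker f) hz0 hz (halg.isAlgebraic z)
  apply hne
  rw [eq_bot_iff]
  rintro ⟨x, hx⟩ hx2
  have hx3 : f x = 0 := hx2
  rw [Algebra.adjoin_range_eq_range_aeval] at hx
  obtain ⟨F, hF⟩ := hx
  have h1 : MvPolynomial.aeval (f ∘ y) F = 0 := by
    have h2 := MvPolynomial.comp_aeval_apply (f := y) f F
    have h3 : MvPolynomial.aeval y F = x := hF
    rw [h3, hx3] at h2
    exact h2.symm
  rw [hfy] at h1
  have h2 : F = 0 := (algebraicIndependent_iff.mp hs.1) F h1
  have h3 : x = 0 := by
    rw [← hF, h2]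
    exact map_zero _
  exact Subtype.ext h3

variable [Algebra.FiniteType k A]

lemma rdim_lt_aleph0 (p : PrimeSpectrum A) : rdim k p < ℵ₀ :=
  trdeg_lt_aleph0_of_finiteType

lemma exists_rdim (p : PrimeSpectrum A) : ∃ n : ℕ, rdim k p = n :=
  lt_aleph0.mp (rdim_lt_aleph0 p)

/-- DIM1: the dimension of primes drops strictly. -/
theorem rdim_lt {p q : PrimeSpectrum A} (h : p < q) : rdim k q < rdim k p := by
  have hle : p.asIdeal ≤ q.asIdeal := h.le
  refine trdeg_lt_of_surjective (rdim_lt_aleph0 p) (Ideal.Quotient.factorₐ k hle)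
    (Ideal.Quotient.factor_surjective hle) ?_
  intro hinj
  apply h.not_ge
  intro a ha
  have h1 : Ideal.Quotient.factorₐ k hle (Ideal.Quotient.mk p.asIdeal a) = 0 := by
    exact Ideal.Quotient.eq_zero_iff_mem.mpr ha
  have h2 : Ideal.Quotient.mk p.asIdeal a = 0 := hinj (h1.trans (map_zero _).symm)
  exact Ideal.Quotient.eq_zero_iff_mem.mp h2

theorem rdim_le {p q : PrimeSpectrum A} (h : p ≤ q) : rdim k q ≤ rdim k p := by
  rcases h.eq_or_lt with rfl | h
  · exact le_rfl
  · exact (rdim_lt h).le

/-- If `p < q` then the dimension of `p` is at least the dimension of `q` plus one. -/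
theorem rdim_add_one_le {p q : PrimeSpectrum A} (h : p < q) : rdim k q + 1 ≤ rdim k p := by
  obtain ⟨a, ha⟩ := exists_rdim (k := k) p
  obtain ⟨b, hb⟩ := exists_rdim (k := k) q
  have h1 := rdim_lt (k := k) h
  rw [ha, hb] at h1 ⊢
  exact_mod_cast h1

/-- A prime containing a prime of the same dimension is equal to it. -/
theorem eq_of_le_of_rdim_eq {p q : PrimeSpectrum A} (h : p ≤ q) (hd : rdim k p = rdim k q) :
    p = q := by
  rcases h.eq_or_lt with h | h
  · exact h
  · exact absurd hd (rdim_lt (k := k) h).ne'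

end Trdeg

end CUB
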