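import Pool.Agent.CUB.StmtsA
import Pool.Agent.CUB.Dim1

/-!
# CUB, module DIM1: the dimension of primes is finite and drops strictly
-/

set_option autoImplicit false

namespace CUB

/-- DIM1. -/
theorem t_DIM1 : S_DIM1 := by
  intro k A _ _ _ _ p
  exact ⟨exists_rdim p, fun q h => rdim_lt h⟩

end CUB
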