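import Pool.Agent.CUB.StmtsA
import Pool.Agent.CUB.Dim1

/-!
# CUB, module DIM2: the dimension drops by one along a covering relation of primes
-/

set_option autoImplicit false

namespace CUB

namespace DIM2

open Cardinal

/-- The transcendence degree of a hypersurface is at least `n - 1`. -/
lemma le_trdeg {k : Type} [Field k] {n : ℕ} {F : MvPolynomial (Fin n) k} (hF : Prime F) :
    (n : Cardinal) ≤ Algebra.trdeg k (MvPolynomial (Fin n) k ⧸ Ideal.span {F}) + 1 := by
  classical
  obtain ⟨j, hj⟩ : ∃ j, j ∈ F.vars := by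
    by_contra hcon
    push Not at hcon
    have h1 : F.vars = ∅ := Finset.eq_empty_of_forall_notMem hcon
    rw [MvPolynomial.vars_eq_empty_iff_eq_C] at h1
    have h0 : F.coeff 0 ≠ 0 := by
      intro h
      apply hF.ne_zero
      rw [h1, h, map_zero]
    apply hF.not_unit
    rw [h1]
    exact (isUnit_iff_ne_zero.mpr h0).map MvPolynomial.C
  have hdj : 0 < F.degreeOf j := by
    rw [MvPolynomial.degreeOf_def, Multiset.count_pos]
    rw [MvPolynomial.vars_def, Multiset.mem_toFinset] at hj
    exact hj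
  have hind : AlgebraicIndependent k (fun i : {i : Fin n // i ≠ j} =>
      Ideal.Quotient.mk (Ideal.span {F}) (MvPolynomial.X i.1)) := by
    rw [algebraicIndependent_iff]
    intro G hG
    have h1 : MvPolynomial.aeval (fun i : {i : Fin n // i ≠ j} =>
        Ideal.Quotient.mk (Ideal.span {F}) (MvPolynomial.X i.1)) G =
        Ideal.Quotient.mk (Ideal.span {F}) (MvPolynomial.rename Subtype.val G) := by
      have h2 : (MvPolynomial.aeval (fun i : {i : Fin n // i ≠ j} =>
          Ideal.Quotient.mk (Ideal.span {F}) (MvPolynomial.X i.1)) :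
          MvPolynomial {i : Fin n // i ≠ j} k →ₐ[k] _) =
          (Ideal.Quotient.mkₐ k (Ideal.span {F})).comp (MvPolynomial.rename Subtype.val) := by
        apply MvPolynomial.algHom_ext
        intro i
        simp
      rw [h2]
      rfl
    rw [h1, Ideal.Quotient.eq_zero_iff_mem, Ideal.mem_span_singleton] at hG
    obtain ⟨H, hH⟩ := hG
    by_contra hG0
    have hG1 : MvPolynomial.rename (Subtype.val : {i : Fin n // i ≠ j} → Fin n) G ≠ 0 := by
      intro h
      apply hG0
      exact MvPolynomial.rename_injective _ Subtype.val_injective (h.trans (map_zero _).symm)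
    have hH0 : H ≠ 0 := by
      rintro rfl
      exact hG1 (hH.trans (mul_zero _))
    have h2 : (MvPolynomial.rename (Subtype.val : {i : Fin n // i ≠ j} → Fin n) G).degreeOf j
        = 0 := by
      rw [MvPolynomial.degreeOf_def, Multiset.count_eq_zero]
      intro hmem
      have h3 : j ∈ (MvPolynomial.rename (Subtype.val : {i : Fin n // i ≠ j} → Fin n) G).vars := by
        rw [MvPolynomial.vars_def, Multiset.mem_toFinset]
        exact hmem
      have h4 := MvPolynomial.vars_rename _ _ h3
      rw [Finset.mem_image] at h4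
      obtain ⟨a, -, ha⟩ := h4
      exact a.2 ha
    rw [hH, MvPolynomial.degreeOf_mul_eq hF.ne_zero hH0] at h2
    omega
  have h2 := hind.cardinalMk_le_trdeg
  have h3 : #{i : Fin n // i ≠ j} + 1 = n := by
    rw [Cardinal.mk_fintype, Fintype.card_subtype_compl, Fintype.card_fin,
      Fintype.card_subtype_eq]
    have : 0 < n := j.pos
    norm_cast
    omega
  rw [← h3]
  gcongr

/-- The main case: a prime of height one in a domain. -/
lemma le_trdeg_quot {k A : Type} [Field k] [CommRing A] [IsDomain A] [Algebra k A]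
    [Algebra.FiniteType k A] (q : Ideal A) [q.IsPrime] (hq : q ≠ ⊥)
    (hmin : ∀ P : Ideal A, P.IsPrime → P ≤ q → P ≠ ⊥ → P = q) :
    Algebra.trdeg k A ≤ Algebra.trdeg k (A ⧸ q) + 1 := by
  obtain ⟨n, g, hg, hgi⟩ := exists_integral_inj_algHom_of_fg k A
  letI : Algebra (MvPolynomial (Fin n) k) A := g.toRingHom.toAlgebra
  haveI : IsScalarTower k (MvPolynomial (Fin n) k) A :=
    IsScalarTower.of_algebraMap_eq' g.comp_algebraMap.symm
  haveI : FaithfulSMul (MvPolynomial (Fin n) k) A :=
    (faithfulSMul_iff_algebraMap_injective _ _).mpr hg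
  haveI : Algebra.IsIntegral (MvPolynomial (Fin n) k) A := ⟨hgi⟩
  have htr : Algebra.trdeg k A = n := by
    have h0 : Algebra.trdeg (MvPolynomial (Fin n) k) A = 0 := _root_.trdeg_eq_zero
    rw [← _root_.trdeg_add_eq k (MvPolynomial (Fin n) k) (A := A), h0,
      MvPolynomial.trdeg_of_isDomain]
    simp
  have hq' : q.under (MvPolynomial (Fin n) k) ≠ ⊥ := fun h =>
    hq (Ideal.eq_bot_of_comap_eq_bot h)
  obtain ⟨F, hFq, hF⟩ := (inferInstance : (q.under (MvPolynomial (Fin n) k)).IsPrime)
    |>.exists_mem_prime_of_ne_bot hq'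
  haveI hFp : (Ideal.span {F}).IsPrime := (Ideal.span_singleton_prime hF.ne_zero).mpr hF
  have hle : Ideal.span {F} ≤ q.under (MvPolynomial (Fin n) k) := by
    rw [Ideal.span_singleton_le_iff_mem]
    exact hFq
  obtain ⟨P, hPq, hP, hPo⟩ := Ideal.exists_ideal_le_liesOver_of_le
    (R := MvPolynomial (Fin n) k) (p := Ideal.span {F})
    (q := q.under (MvPolynomial (Fin n) k)) q hle
  have hPq2 : P = q := by
    refine hmin P hP hPq ?_
    rintro rfl
    have h1 := hPo.over
    rw [Ideal.under, Ideal.comap_bot_of_injective _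
      (FaithfulSMul.algebraMap_injective (MvPolynomial (Fin n) k) A),
      Ideal.span_singleton_eq_bot] at h1
    exact hF.ne_zero h1
  subst hPq2
  have h2 : Algebra.trdeg k (MvPolynomial (Fin n) k ⧸ Ideal.span {F}) =
      Algebra.trdeg k (A ⧸ P) := by
    have h0 : Algebra.trdeg (MvPolynomial (Fin n) k ⧸ Ideal.span {F}) (A ⧸ P) = 0 :=
      _root_.trdeg_eq_zero
    rw [← _root_.trdeg_add_eq k (MvPolynomial (Fin n) k ⧸ Ideal.span {F}) (A := A ⧸ P), h0,
      add_zero]
  rw [htr, ← h2]
  exact le_trdeg hF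

end DIM2

/-- DIM2. -/
theorem t_DIM2 : S_DIM2 := by
  intro k A _ _ _ _ p q hpq
  refine le_antisymm (rdim_add_one_le hpq.lt) ?_
  have hle : p.asIdeal ≤ q.asIdeal := hpq.le
  have hker : RingHom.ker (Ideal.Quotient.mk p.asIdeal) ≤ q.asIdeal := by
    rw [Ideal.mk_ker]
    exact hle
  haveI : (q.asIdeal.map (Ideal.Quotient.mk p.asIdeal)).IsPrime :=
    Ideal.map_isPrime_of_surjective Ideal.Quotient.mk_surjective hker
  have hcm : (q.asIdeal.map (Ideal.Quotient.mk p.asIdeal)).comap (Ideal.Quotient.mk p.asIdeal) =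
      q.asIdeal := by
    rw [Ideal.comap_map_of_surjective' _ Ideal.Quotient.mk_surjective, sup_eq_left]
    exact hker
  have h1 : Algebra.trdeg k ((A ⧸ p.asIdeal) ⧸ q.asIdeal.map (Ideal.Quotient.mk p.asIdeal)) =
      rdim k q :=
    AlgEquiv.trdeg_eq (DoubleQuot.quotQuotEquivQuotOfLEₐ k hle)
  unfold rdim at h1 ⊢
  rw [← h1]
  refine DIM2.le_trdeg_quot _ ?_ ?_
  · intro h
    rw [h, ← RingHom.ker_eq_comap_bot, Ideal.mk_ker] at hcm
    exact hpq.lt.ne (PrimeSpectrum.ext hcm)
  · intro P hP hPq hPb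
    have h2 : p < ⟨P.comap (Ideal.Quotient.mk p.asIdeal), inferInstance⟩ := by
      rw [lt_iff_le_and_ne]
      refine ⟨?_, fun h => ?_⟩
      · change p.asIdeal ≤ P.comap (Ideal.Quotient.mk p.asIdeal)
        intro x hx
        rw [Ideal.mem_comap, Ideal.Quotient.eq_zero_iff_mem.mpr hx]
        exact P.zero_mem
      · have h3 : p.asIdeal = P.comap (Ideal.Quotient.mk p.asIdeal) := congrArg (·.asIdeal) h
        apply hPb
        have h4 := Ideal.map_comap_of_surjective (Ideal.Quotient.mk p.asIdeal)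
          Ideal.Quotient.mk_surjective P
        rw [← h4, ← h3, Ideal.map_quotient_self]
    have h5 : (⟨P.comap (Ideal.Quotient.mk p.asIdeal), inferInstance⟩ : PrimeSpectrum A) ≤ q := by
      change P.comap (Ideal.Quotient.mk p.asIdeal) ≤ q.asIdeal
      rw [← hcm]
      exact Ideal.comap_mono hPq
    have h6 := (hpq.eq_or_eq h2.le h5).resolve_left h2.ne'
    have h7 : P.comap (Ideal.Quotient.mk p.asIdeal) = q.asIdeal := congrArg (·.asIdeal) h6
    rw [← h7, Ideal.map_comap_of_surjective _ Ideal.Quotient.mk_surjective]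

end CUB
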