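import Pool.Agent.CUB.StmtsA

/-!
# CUB, block A, module DVX: the divisor of a function exists
-/

set_option autoImplicit false

open Polynomial

namespace CUB

namespace DVX

/-- A point of dimension `n` of the closed subset `V(q + (a))` is a minimal prime. -/
lemma mem_minimalPrimes (hD : S_DIM1) {k A : Type} [Field k] [CommRing A] [Algebra k A]
    [Algebra.FiniteType k A] {n : ℕ} (q : RP k A (n + 1)) (a : A) (ha : a ∉ q.1.asIdeal)
    (p : RP k A n) (hq : q.1.asIdeal ≤ p.1.asIdeal) (hp : a ∈ p.1.asIdeal) :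
    p.1.asIdeal ∈ (q.1.asIdeal ⊔ Ideal.span {a}).minimalPrimes := by
  refine ⟨⟨p.1.isPrime, sup_le hq ?_⟩, ?_⟩
  · rw [Ideal.span_singleton_le_iff_mem]
    exact hp
  · rintro P ⟨hP, hI⟩ hle
    by_contra hne
    let P' : PrimeSpectrum A := ⟨P, hP⟩
    have h1 : P' < p.1 := by
      refine lt_of_le_of_ne hle ?_
      intro h
      exact hne (le_of_eq (congrArg PrimeSpectrum.asIdeal h).symm)
    have haP : a ∈ P := hI (Ideal.mem_sup_right (Ideal.subset_span rfl))
    have hqP : q.1.asIdeal ≤ P := le_sup_left.trans hI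
    have h2 : q.1 < P' := by
      refine lt_of_le_of_ne hqP ?_
      intro h
      apply ha
      rw [h]
      exact haP
    obtain ⟨m, hm⟩ := (hD k A P').1
    have h3 := (hD k A P').2 p.1 h1
    have h4 := (hD k A q.1).2 P' h2
    rw [hm, p.2] at h3
    rw [hm, q.2] at h4
    have h3' : n < m := by exact_mod_cast h3
    have h4' : m < n + 1 := by exact_mod_cast h4
    omega

end DVX

theorem t_DVX : M_DVX := by
  intro hD hL k A E _ _ _ _ _ n q a ha
  classical
  have hN : IsNoetherianRing A := Algebra.FiniteType.isNoetherianRing k A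
  have hfin : (q.1.asIdeal ⊔ Ideal.span {a}).minimalPrimes.Finite :=
    Ideal.finite_minimalPrimes_of_isNoetherianRing A _
  have hinj : Function.Injective (fun p : RP k A n => p.1.asIdeal) := by
    intro p p' h
    exact Subtype.ext (PrimeSpectrum.ext h)
  have hf : (Function.support (fun p : RP k A n =>
      ((len (q.1.asIdeal ⊔ Ideal.span {a}) p.1 : ℕ) : E))).Finite := by
    refine Set.Finite.subset (hfin.preimage (hinj.injOn)) ?_
    intro p hp
    have h0 : len (q.1.asIdeal ⊔ Ideal.span {a}) p.1 ≠ 0 := by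
      intro h
      apply hp
      show ((len (q.1.asIdeal ⊔ Ideal.span {a}) p.1 : ℕ) : E) = 0
      rw [h, Nat.cast_zero]
    obtain ⟨h1, h2⟩ := (hL k A n q p).2.1 a h0
    exact DVX.mem_minimalPrimes hD q a ha p h1 h2
  exact ⟨Finsupp.ofSupportFinite _ hf, fun p => rfl⟩

end CUB
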