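import Pool.Agent.CUB.StmtsA

/-!
# Module FPX: existence of flat pull-backs
-/

set_option autoImplicit false
set_option linter.unusedSectionVars false

open Polynomial

namespace CUB

namespace FPX

variable {k A B : Type} [Field k] [CommRing A] [CommRing B] [Algebra k A] [Algebra k B]
  [Algebra.FiniteType k A] [Algebra.FiniteType k B]

/-- the primes over `p` of the maximal dimension are minimal over `p B` -/
theorem mem_minimal (hD : S_DIM1) {r n : ℕ} {φ : A →ₐ[k] B} (hφ : Good k r φ)
    (P : RP k B (n + r)) (hP : rdim k (PrimeSpectrum.comap φ.toRingHom P.1) = n) :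
    P.1.asIdeal ∈ ((PrimeSpectrum.comap φ.toRingHom P.1).asIdeal.map φ.toRingHom).minimalPrimes := by
  refine ⟨⟨P.1.isPrime, ?_⟩, ?_⟩
  · rw [Ideal.map_le_iff_le_comap]
    exact le_refl _
  · rintro I ⟨hI, hle⟩ hIP
    rw [Ideal.map_le_iff_le_comap] at hle
    by_contra hne
    have hlt : (⟨I, hI⟩ : PrimeSpectrum B) < P.1 := by
      refine lt_of_le_not_ge hIP fun h => hne h
    have h1 := ((hD k B ⟨I, hI⟩).2 P.1 hlt)
    have hc : PrimeSpectrum.comap φ.toRingHom (⟨I, hI⟩ : PrimeSpectrum B) =
        PrimeSpectrum.comap φ.toRingHom P.1 := by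
      apply PrimeSpectrum.ext
      exact le_antisymm (Ideal.comap_mono hIP) hle
    have h2 := (hφ.at' ⟨I, hI⟩).1
    rw [hc, hP] at h2
    rw [P.2] at h1
    push_cast at h1
    exact absurd h1 (not_lt.2 h2)

/-- there are finitely many of them -/
theorem finite_fibre (hD : S_DIM1) {r n : ℕ} {φ : A →ₐ[k] B} (hφ : Good k r φ) (p : RP k A n) :
    {P : RP k B (n + r) | PrimeSpectrum.comap φ.toRingHom P.1 = p.1}.Finite := by
  have hB : IsNoetherianRing B := Algebra.FiniteType.isNoetherianRing k B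
  have h1 := Ideal.finite_minimalPrimes_of_isNoetherianRing B (p.1.asIdeal.map φ.toRingHom)
  have hinj : Function.Injective fun P : RP k B (n + r) => P.1.asIdeal := fun P Q h =>
    Subtype.ext (PrimeSpectrum.ext h)
  refine (h1.preimage hinj.injOn).subset fun P hP => ?_
  have h2 : PrimeSpectrum.comap φ.toRingHom P.1 = p.1 := hP
  have h3 := mem_minimal hD hφ P (by rw [h2]; exact p.2)
  rw [h2] at h3
  exact h3

end FPX

theorem t_FPX : M_FPX := by
  intro hD k A B E _ _ _ _ _ _ _ _ r n φ hφ c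
  have hex : ∀ P : RP k B (n + r), ∃ x : E,
      (∀ h : rdim k (PrimeSpectrum.comap φ.toRingHom P.1) = n,
        x = c ⟨PrimeSpectrum.comap φ.toRingHom P.1, h⟩) ∧
      (rdim k (PrimeSpectrum.comap φ.toRingHom P.1) ≠ n → x = 0) := by
    intro P
    by_cases h : rdim k (PrimeSpectrum.comap φ.toRingHom P.1) = n
    · exact ⟨c ⟨PrimeSpectrum.comap φ.toRingHom P.1, h⟩, fun _ => rfl, fun h' => absurd h h'⟩
    · exact ⟨0, fun h' => absurd h' h, fun _ => rfl⟩
  choose f hf using hex
  have hfin : (Function.support f).Finite := by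
    have h1 : (⋃ p ∈ (c.support : Set (RP k A n)),
        {P : RP k B (n + r) | PrimeSpectrum.comap φ.toRingHom P.1 = p.1}).Finite :=
      c.support.finite_toSet.biUnion fun p _ => FPX.finite_fibre hD hφ p
    refine h1.subset fun P hP => ?_
    by_cases h : rdim k (PrimeSpectrum.comap φ.toRingHom P.1) = n
    · have h2 := (hf P).1 h
      rw [Function.mem_support, h2] at hP
      rw [Set.mem_iUnion₂]
      exact ⟨⟨_, h⟩, Finsupp.mem_support_iff.2 hP, rfl⟩
    · exact absurd ((hf P).2 h) hP
  refine ⟨Finsupp.ofSupportFinite f hfin, fun P => ⟨fun h => ?_, fun h => ?_⟩⟩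
  · exact (hf P).1 h
  · exact (hf P).2 h

end CUB
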