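import Pool.Agent.CUB.StmtsA
import Pool.Agent.CUB.Dim1

/-!
# CUB: composition of good homomorphisms and of flat pull-backs
-/

set_option autoImplicit false

namespace CUB

open Polynomial

namespace GCO

variable {k A B C : Type} [Field k] [CommRing A] [CommRing B] [CommRing C] [Algebra k A]
  [Algebra k B] [Algebra k C]

lemma comap_comp (φ : A →ₐ[k] B) (ψ : B →ₐ[k] C) (P : PrimeSpectrum C) :
    PrimeSpectrum.comap (ψ.comp φ).toRingHom P =
      PrimeSpectrum.comap φ.toRingHom (PrimeSpectrum.comap ψ.toRingHom P) := rfl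

lemma goodAt_comp [Algebra.FiniteType k A] [Algebra.FiniteType k B] [Algebra.FiniteType k C]
    (φ : A →ₐ[k] B) (ψ : B →ₐ[k] C) (r s : ℕ) (P : PrimeSpectrum C)
    (h1 : GoodAt k r φ (PrimeSpectrum.comap ψ.toRingHom P)) (h2 : GoodAt k s ψ P) :
    GoodAt k (r + s) (ψ.comp φ) P := by
  unfold GoodAt
  rw [comap_comp]
  obtain ⟨a, ha⟩ := exists_rdim (k := k)
    (PrimeSpectrum.comap φ.toRingHom (PrimeSpectrum.comap ψ.toRingHom P))
  obtain ⟨b, hb⟩ := exists_rdim (k := k) (PrimeSpectrum.comap ψ.toRingHom P)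
  obtain ⟨c, hc⟩ := exists_rdim (k := k) P
  obtain ⟨h1a, h1b⟩ := h1
  obtain ⟨h2a, h2b⟩ := h2
  rw [ha, hb] at h1a h1b
  rw [hb, hc] at h2a h2b
  rw [ha, hc]
  have e1 : b ≤ a + r := by exact_mod_cast h1a
  have e2 : c ≤ b + s := by exact_mod_cast h2a
  constructor
  · have : c ≤ a + (r + s) := by omega
    exact_mod_cast this
  · intro h
    have e3 : c = a + (r + s) := by exact_mod_cast h
    have e4 : b = a + r := by omega
    have e5 : c = b + s := by omega
    have m1 := h1b (by exact_mod_cast e4)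
    have m2 := h2b (by exact_mod_cast e5)
    have key : (Localization.localRingHom (PrimeSpectrum.comap ψ.toRingHom P).asIdeal P.asIdeal
        ψ.toRingHom rfl).comp (algebraMap B
          (Localization.AtPrime (PrimeSpectrum.comap ψ.toRingHom P).asIdeal)) =
        (algebraMap C (Localization.AtPrime P.asIdeal)).comp ψ.toRingHom := by
      ext x
      rw [RingHom.comp_apply, RingHom.comp_apply]
      exact Localization.localRingHom_to_map _ _ _ _ x
    refine m2.trans ?_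
    rw [← key, ← Ideal.map_map, Localization.AtPrime.map_eq_maximalIdeal]
    refine (Ideal.map_mono m1).trans ?_
    rw [Ideal.map_map, ← RingHom.comp_assoc, key, RingHom.comp_assoc]
    exact le_refl _

lemma good_comp [Algebra.FiniteType k A] [Algebra.FiniteType k B] [Algebra.FiniteType k C]
    (φ : A →ₐ[k] B) (ψ : B →ₐ[k] C) (r s : ℕ) (h1 : Good k r φ) (h2 : Good k s ψ) :
    Good k (r + s) (ψ.comp φ) :=
  ⟨h1.flat.comp h2.flat, fun P => goodAt_comp φ ψ r s P (h1.at' _) (h2.at' P)⟩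

lemma pull_comp [Algebra.FiniteType k A] [Algebra.FiniteType k B] [Algebra.FiniteType k C]
    {E : Type} [Field E] (φ : A →ₐ[k] B) (ψ : B →ₐ[k] C) (r s n : ℕ) (h1 : Good k r φ)
    (h2 : Good k s ψ) (c : RP k A n →₀ E) (d : RP k B (n + r) →₀ E)
    (e : RP k C (n + r + s) →₀ E) (hc : IsPull k E r φ c d) (hd : IsPull k E s ψ d e)
    (P : RP k C (n + r + s)) :
    (∀ h : rdim k (PrimeSpectrum.comap (ψ.comp φ).toRingHom P.1) = n,
      e P = c ⟨PrimeSpectrum.comap (ψ.comp φ).toRingHom P.1, h⟩) ∧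
    (rdim k (PrimeSpectrum.comap (ψ.comp φ).toRingHom P.1) ≠ n → e P = 0) := by
  obtain ⟨a, ha⟩ := exists_rdim (k := k)
    (PrimeSpectrum.comap φ.toRingHom (PrimeSpectrum.comap ψ.toRingHom P.1))
  obtain ⟨b, hb⟩ := exists_rdim (k := k) (PrimeSpectrum.comap ψ.toRingHom P.1)
  have h1a := (h1.at' (PrimeSpectrum.comap ψ.toRingHom P.1)).1
  have h2a := (h2.at' P.1).1
  rw [ha, hb] at h1a
  rw [hb, P.2] at h2a
  have e1 : b ≤ a + r := by exact_mod_cast h1a
  have e2 : n + r + s ≤ b + s := by exact_mod_cast h2a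
  rw [comap_comp]
  constructor
  · intro h
    have e3 : a = n := by
      rw [ha] at h
      exact_mod_cast h
    have e4 : rdim k (PrimeSpectrum.comap ψ.toRingHom P.1) = ((n + r : ℕ) : Cardinal) := by
      rw [hb]
      have : b = n + r := by omega
      rw [this]
    have f1 := (hd P).1 e4
    have f2 := (hc ⟨_, e4⟩).1 h
    rw [f1, f2]
  · intro h
    by_cases e4 : rdim k (PrimeSpectrum.comap ψ.toRingHom P.1) = ((n + r : ℕ) : Cardinal)
    · have f1 := (hd P).1 e4
      have f2 := (hc ⟨_, e4⟩).2 h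
      rw [f1, f2]
    · exact (hd P).2 e4

lemma good_equiv (e : A ≃ₐ[k] B) : Good k 0 (e : A →ₐ[k] B) := by
  refine ⟨RingHom.Flat.of_bijective e.bijective, fun P => ⟨?_, fun _ => ?_⟩⟩
  · rw [rdim_comap (e : A →ₐ[k] B) e.surjective P]
    simp
  · rw [← Localization.AtPrime.map_eq_maximalIdeal, Ideal.map_le_iff_le_comap]
    intro x hx
    rw [Ideal.mem_comap]
    obtain ⟨a, rfl⟩ := e.surjective x
    exact Ideal.mem_map_of_mem
      ((algebraMap B (Localization.AtPrime P.asIdeal)).comp (e : A →ₐ[k] B).toRingHom)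
      (show a ∈ (PrimeSpectrum.comap (e : A →ₐ[k] B).toRingHom P).asIdeal from hx)

end GCO

theorem t_GCO : S_GCO := by
  refine ⟨?_, ?_, ?_, ?_⟩
  · intro k A B C _ _ _ _ _ _ _ _ _ _ φ ψ r s h1 h2
    exact GCO.good_comp φ ψ r s h1 h2
  · intro k A B C E _ _ _ _ _ _ _ _ _ _ _ φ ψ r n h1
    exact ⟨fun h2 c d e hc hd P => GCO.pull_comp φ ψ r 1 n h1 h2 c d e hc hd P,
      fun h2 c d e hc hd P => GCO.pull_comp φ ψ r 0 n h1 h2 c d e hc hd P⟩
  · intro k A B C E _ _ _ _ _ _ _ _ _ _ _ φ ψ r n h1 h2 c d e hc hd P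
    exact GCO.pull_comp φ ψ 0 r n h1 h2 c d e hc hd P
  · intro k A B _ _ _ _ _ e
    exact GCO.good_equiv e

end CUB
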