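import Pool.Agent.CUB.StmtsA

/-!
# CUB: local isomorphisms are good
-/

set_option autoImplicit false

namespace CUB

open Polynomial

namespace GLI

variable {k A B : Type} [Field k] [CommRing A] [CommRing B] [Algebra k A] [Algebra k B]

lemma rdim_le (φ : A →ₐ[k] B) (P : PrimeSpectrum B) (b : A) (hb : φ b ∉ P.asIdeal)
    (hs : ∀ x : B, ∃ (a : A) (m : ℕ), φ a = φ b ^ m * x) :
    rdim k P ≤ rdim k (PrimeSpectrum.comap φ.toRingHom P) := by
  unfold rdim
  have H : (PrimeSpectrum.comap φ.toRingHom P).asIdeal ≤ P.asIdeal.comap φ := le_refl _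
  let ψ : (A ⧸ (PrimeSpectrum.comap φ.toRingHom P).asIdeal) →ₐ[k] (B ⧸ P.asIdeal) :=
    Ideal.quotientMapₐ P.asIdeal φ H
  have h1 : Function.Injective ψ := Ideal.quotientMap_injective' (H := H) (le_refl _)
  let _ : Algebra (A ⧸ (PrimeSpectrum.comap φ.toRingHom P).asIdeal) (B ⧸ P.asIdeal) :=
    ψ.toRingHom.toAlgebra
  have hmap : ∀ x, algebraMap (A ⧸ (PrimeSpectrum.comap φ.toRingHom P).asIdeal)
      (B ⧸ P.asIdeal) x = ψ x := fun _ => rfl
  have hmk : ∀ a : A, ψ (Ideal.Quotient.mk _ a) = Ideal.Quotient.mk P.asIdeal (φ a) :=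
    fun _ => rfl
  have : IsScalarTower k (A ⧸ (PrimeSpectrum.comap φ.toRingHom P).asIdeal) (B ⧸ P.asIdeal) :=
    IsScalarTower.of_algebraMap_eq (fun x => (ψ.commutes x).symm)
  have : FaithfulSMul (A ⧸ (PrimeSpectrum.comap φ.toRingHom P).asIdeal) (B ⧸ P.asIdeal) :=
    (faithfulSMul_iff_algebraMap_injective _ _).mpr h1
  have : Algebra.IsAlgebraic (A ⧸ (PrimeSpectrum.comap φ.toRingHom P).asIdeal)
      (B ⧸ P.asIdeal) := by
    constructor
    intro x
    obtain ⟨x, rfl⟩ := Ideal.Quotient.mk_surjective x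
    obtain ⟨a, m, ham⟩ := hs x
    refine ⟨C (Ideal.Quotient.mk _ b ^ m) * X - C (Ideal.Quotient.mk _ a), ?_, ?_⟩
    · intro h0
      have h2 := congrArg (fun q => coeff q 1) h0
      simp only [coeff_sub, coeff_C_mul, coeff_X_one, mul_one, coeff_C_succ, sub_zero,
        coeff_zero] at h2

      have h4 : (Ideal.Quotient.mk (PrimeSpectrum.comap φ.toRingHom P).asIdeal b) = 0 :=
        eq_zero_of_pow_eq_zero h2
      rw [Ideal.Quotient.eq_zero_iff_mem] at h4
      exact hb h4
    · rw [map_sub, map_mul, aeval_C, aeval_X, aeval_C, hmap, hmap, map_pow, hmk, hmk, ham,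
        map_mul, map_pow, sub_self]
  have h := trdeg_add_eq k (A ⧸ (PrimeSpectrum.comap φ.toRingHom P).asIdeal) (A := B ⧸ P.asIdeal)
  rw [trdeg_eq_zero (R := A ⧸ (PrimeSpectrum.comap φ.toRingHom P).asIdeal) (A := B ⧸ P.asIdeal),
    add_zero] at h
  exact h.ge

lemma max_le (φ : A →ₐ[k] B) (P : PrimeSpectrum B) (b : A) (hb : φ b ∉ P.asIdeal)
    (hs : ∀ x : B, ∃ (a : A) (m : ℕ), φ a = φ b ^ m * x) :
    IsLocalRing.maximalIdeal (Localization.AtPrime P.asIdeal) ≤
      (PrimeSpectrum.comap φ.toRingHom P).asIdeal.map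
        ((algebraMap B (Localization.AtPrime P.asIdeal)).comp φ.toRingHom) := by
  rw [← Localization.AtPrime.map_eq_maximalIdeal, Ideal.map_le_iff_le_comap]
  intro x hx
  rw [Ideal.mem_comap]
  obtain ⟨a, m, ham⟩ := hs x
  have h1 : φ a ∈ P.asIdeal := by
    rw [ham]
    exact P.asIdeal.mul_mem_left _ hx
  have h2 : algebraMap B (Localization.AtPrime P.asIdeal) (φ a) ∈
      (PrimeSpectrum.comap φ.toRingHom P).asIdeal.map
        ((algebraMap B (Localization.AtPrime P.asIdeal)).comp φ.toRingHom) :=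
    Ideal.mem_map_of_mem ((algebraMap B (Localization.AtPrime P.asIdeal)).comp φ.toRingHom)
      (show a ∈ (PrimeSpectrum.comap φ.toRingHom P).asIdeal from h1)
  rw [ham, map_mul] at h2
  have h3 : IsUnit (algebraMap B (Localization.AtPrime P.asIdeal) (φ b ^ m)) := by
    refine IsLocalization.map_units (Localization.AtPrime P.asIdeal)
      (⟨φ b ^ m, ?_⟩ : P.asIdeal.primeCompl)
    intro h
    exact hb (P.isPrime.mem_of_pow_mem m h)
  exact (Ideal.unit_mul_mem_iff_mem _ h3).mp h2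

lemma flat (φ : A →ₐ[k] B)
    (h : ∀ P : PrimeSpectrum B, ∃ b : A, φ b ∉ P.asIdeal ∧
      Function.Bijective (Localization.awayMap φ.toRingHom b)) : φ.toRingHom.Flat := by
  refine RingHom.Flat.ofLocalizationSpanTarget φ.toRingHom
    {y | ∃ b : A, y = φ b ∧ Function.Bijective (Localization.awayMap φ.toRingHom b)} ?_ ?_
  · by_contra hne
    obtain ⟨M, hM, hle⟩ := Ideal.exists_le_maximal _ hne
    obtain ⟨b, hb, hbij⟩ := h ⟨M, hM.isPrime⟩
    exact hb (hle (Ideal.subset_span ⟨b, rfl, hbij⟩))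
  · rintro ⟨y, b, rfl, hbij⟩
    have h1 : (Localization.awayMap φ.toRingHom b).Flat := RingHom.Flat.of_bijective hbij
    have h2 : (algebraMap A (Localization.Away b)).Flat :=
      RingHom.flat_algebraMap_iff.mpr (IsLocalization.flat _ (Submonoid.powers b))
    have h3 := h2.comp h1
    have h4 : (algebraMap B (Localization.Away (φ b))).comp φ.toRingHom =
        (Localization.awayMap φ.toRingHom b).comp (algebraMap A (Localization.Away b)) := by
      ext x
      rw [RingHom.comp_apply, RingHom.comp_apply]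
      exact (IsLocalization.map_eq _ _).symm
    rw [← h4] at h3
    exact h3

end GLI

theorem t_GLI : S_GLI := by
  intro k A B _ _ _ _ _ _ _ φ h
  refine ⟨GLI.flat φ h, fun P => ?_⟩
  obtain ⟨b, hb, hbij⟩ := h P
  have hs : ∀ x : B, ∃ (a : A) (m : ℕ), φ a = φ b ^ m * x := fun x =>
    Localization.awayMap_surjective_iff.mp hbij.2 x
  refine ⟨?_, fun _ => GLI.max_le φ P b hb hs⟩
  have h1 := GLI.rdim_le φ P b hb hs
  simpa using h1

end CUB
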