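import Pool.Agent.CUB.StmtsA

/-!
# CUB GVR: the homomorphism `R → VR R f` is flat with good fibres
-/

set_option autoImplicit false

open Polynomial

namespace CUB

namespace GVR

/-- the localisation homomorphism -/
noncomputable abbrev locA (k : Type) {V : Type} [Field k] [CommRing V] [Algebra k V] (b : V) :
    V →ₐ[k] Localization.Away b := IsScalarTower.toAlgHom k V (Localization.Away b)

lemma isLoc (k : Type) {V : Type} [Field k] [CommRing V] [Algebra k V] (b : V) :
    @IsLocalization.Away V _ b (Localization.Away b) _ (locA k b).toRingHom.toAlgebra := by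
  have h : (locA k b).toRingHom.toAlgebra =
      (inferInstance : Algebra V (Localization.Away b)) := Algebra.algebra_ext _ _ (fun r => rfl)
  rw [h]
  infer_instance

lemma rdim_loc {k V W : Type} [Field k] [CommRing V] [CommRing W] [Algebra k V] [Algebra k W]
    (φ : V →ₐ[k] W) (P' : PrimeSpectrum W) :
    rdim k (PrimeSpectrum.comap φ.toRingHom P') ≤ rdim k P' := by
  unfold rdim
  have H : (PrimeSpectrum.comap φ.toRingHom P').asIdeal ≤ P'.asIdeal.comap φ := le_refl _
  exact trdeg_le_of_injective (Ideal.quotientMapₐ P'.asIdeal φ H)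
    (Ideal.quotientMap_injective' (H := H) (le_refl _))

/-- the condition `GoodAt` may be checked after a localisation -/
lemma goodAt_of_loc {k A V : Type} [Field k] [CommRing A] [CommRing V] [Algebra k A]
    [Algebra k V] [Algebra.FiniteType k V] (hGLO : S_GLO) (φ : A →ₐ[k] V) (b : V)
    (P : PrimeSpectrum V) (hb : b ∉ P.asIdeal) (r : ℕ)
    (hG : Good k r ((locA k b).comp φ)) : GoodAt k r φ P := by
  have hmem : P ∈ Set.range (PrimeSpectrum.comap (algebraMap V (Localization.Away b))) := by
    rw [PrimeSpectrum.localization_away_comap_range (Localization.Away b) b]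
    exact hb
  obtain ⟨P', rfl⟩ := hmem
  have hL : Good k 0 (locA k b) := hGLO k V (Localization.Away b) (locA k b) b (isLoc k b)
  have hd : rdim k P' = rdim k (PrimeSpectrum.comap (algebraMap V (Localization.Away b)) P') := by
    refine le_antisymm ?_ (rdim_loc (locA k b) P')
    have := (hL.at' P').1
    rwa [Nat.cast_zero, add_zero] at this
  have hP := hG.at' P'
  have hc : PrimeSpectrum.comap ((locA k b).comp φ).toRingHom P' =
      PrimeSpectrum.comap φ.toRingHom
        (PrimeSpectrum.comap (algebraMap V (Localization.Away b)) P') := rfl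
  refine ⟨?_, fun heq => ?_⟩
  · rw [← hd]
    exact hP.1
  · have h2 := hP.2 (by rw [hd]; exact heq)
    set Q : PrimeSpectrum V := PrimeSpectrum.comap (algebraMap V (Localization.Away b)) P'
      with hQ
    set T := Localization.AtPrime P'.asIdeal
    have hT : IsLocalization.AtPrime T Q.asIdeal :=
      IsLocalization.isLocalization_isLocalization_atPrime_isLocalization
        (Submonoid.powers b) T P'.asIdeal
    have hmap : (PrimeSpectrum.comap ((locA k b).comp φ).toRingHom P').asIdeal.map
        ((algebraMap (Localization.Away b) T).comp ((locA k b).comp φ).toRingHom) =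
        ((PrimeSpectrum.comap φ.toRingHom Q).asIdeal.map φ.toRingHom).map (algebraMap V T) := by
      rw [Ideal.map_map, hc]
      rfl
    rw [hmap] at h2
    rw [← Localization.AtPrime.map_eq_maximalIdeal, ← Ideal.map_map, Ideal.map_le_iff_le_comap]
    intro x hx
    have hx1 : algebraMap V T x ∈ IsLocalRing.maximalIdeal T := by
      have h3 : algebraMap V (Localization.Away b) x ∈ P'.asIdeal := hx
      have h4 := Ideal.mem_map_of_mem (algebraMap (Localization.Away b) T) h3
      rw [Localization.AtPrime.map_eq_maximalIdeal] at h4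
      exact h4
    have hx2 := h2 hx1
    have : IsLocalization (Q.asIdeal.primeCompl) T := hT
    rw [IsLocalization.algebraMap_mem_map_algebraMap_iff (Q.asIdeal.primeCompl)] at hx2
    rw [Ideal.mem_comap,
      IsLocalization.algebraMap_mem_map_algebraMap_iff (Q.asIdeal.primeCompl)]
    exact hx2

variable {k R : Type} [Field k] [CommRing R] [Algebra k R]

lemma flat (m : ℕ) (f : Fin m → R) : (VRbase (k := k) f).toRingHom.Flat := by
  have h1 : (algebraMap R (MvPolynomial (Fin m) R)).Flat :=
    RingHom.flat_algebraMap_iff.2 inferInstance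
  have h2 : (algebraMap (MvPolynomial (Fin m) R) (VR R f)).Flat :=
    RingHom.flat_algebraMap_iff.2 inferInstance
  exact h1.comp h2

lemma case1 [Algebra.FiniteType k R] (hGCO : S_GCO) (hGX : S_GX) (hGET : S_GET) (m : ℕ) (f : Fin m → R) :
    Good k m ((locA k (2 * yy (lin f) - 1)).comp (VRbase (k := k) f)) := by
  have h1 : Good k 0 ((locA k (2 * yy (lin f) - 1)).comp (Qbase (k := k) (lin f))) :=
    hGET k (MvPolynomial (Fin m) R) _ (lin f) (locA k (2 * yy (lin f) - 1)) (isLoc k _)
  have h2 : Good k m (IsScalarTower.toAlgHom k R (MvPolynomial (Fin m) R)) := hGX.2 k R m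
  have h3 := hGCO.1 k R (MvPolynomial (Fin m) R) (Localization.Away (2 * yy (lin f) - 1))
    (IsScalarTower.toAlgHom k R (MvPolynomial (Fin m) R))
    ((locA k (2 * yy (lin f) - 1)).comp (Qbase (k := k) (lin f))) m 0 h2 h1
  exact h3

lemma case2 [Algebra.FiniteType k R] (hGCO : S_GCO) (hGX : S_GX) (hGLO : S_GLO) (hVRL : S_VRL) (m : ℕ)
    (f : Fin (m + 1) → R) (l : Fin (m + 1)) :
    Good k (m + 1) ((locA k (VRbase (k := k) f (f l))).comp (VRbase (k := k) f)) := by
  obtain ⟨e, he, -⟩ := hVRL k R (Localization.Away (f l)) _ m f l (locA k (f l))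
    (locA k (VRbase (k := k) f (f l))) (isLoc k _) (isLoc k _)
  have h1 : Good k 0 (locA k (f l)) := hGLO k R _ (locA k (f l)) (f l) (isLoc k _)
  have h2 : Good k m (IsScalarTower.toAlgHom k (Localization.Away (f l))
      (MvPolynomial (Fin m) (Localization.Away (f l)))) := hGX.2 k _ m
  have h3 := hGX.1 k (MvPolynomial (Fin m) (Localization.Away (f l)))
  have h4 : Good k 0 (e.symm : (MvPolynomial (Fin m) (Localization.Away (f l)))[X] →ₐ[k]
      Localization.Away (VRbase (k := k) f (f l))) := hGCO.2.2.2 k _ _ e.symm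
  have h5 := hGCO.1 k _ _ _ _ _ 0 m h1 h2
  have h6 := hGCO.1 k _ _ _ _ _ (0 + m) 1 h5 h3
  have h7 := hGCO.1 k _ _ _ _ _ (0 + m + 1) 0 h6 h4
  have h8 : (e.symm : (MvPolynomial (Fin m) (Localization.Away (f l)))[X] →ₐ[k]
      Localization.Away (VRbase (k := k) f (f l))).comp
      ((IsScalarTower.toAlgHom k (MvPolynomial (Fin m) (Localization.Away (f l)))
      (MvPolynomial (Fin m) (Localization.Away (f l)))[X]).comp
      ((IsScalarTower.toAlgHom k (Localization.Away (f l))
      (MvPolynomial (Fin m) (Localization.Away (f l)))).comp (locA k (f l)))) =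
      (locA k (VRbase (k := k) f (f l))).comp (VRbase (k := k) f) := by
    refine AlgHom.ext fun r => ?_
    have h9 := he r
    have h10 : e.symm (Polynomial.C (MvPolynomial.C (locA k (f l) r))) =
        locA k (VRbase (k := k) f (f l)) (VRbase (k := k) f r) := by
      rw [← h9, AlgEquiv.symm_apply_apply]
    exact h10
  rw [h8, Nat.zero_add] at h7
  exact h7

lemma exists_l (m : ℕ) (f : Fin m → R) (P : PrimeSpectrum (VR R f))
    (hP : 2 * yy (lin f) - 1 ∈ P.asIdeal) : ∃ l, VRbase (k := k) f (f l) ∉ P.asIdeal := by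
  by_contra hcon
  push Not at hcon
  have h1 : algebraMap (MvPolynomial (Fin m) R) (VR R f) (lin f) ∈ P.asIdeal := by
    unfold lin
    rw [map_sum]
    refine Ideal.sum_mem _ fun j _ => ?_
    rw [map_mul]
    exact Ideal.mul_mem_left _ _ (hcon j)
  have h2 := yy_eq (lin f)
  have h3 : (1 : VR R f) = (2 * yy (lin f) - 1) * (2 * yy (lin f) - 1) -
      4 * algebraMap (MvPolynomial (Fin m) R) (VR R f) (lin f) := by
    linear_combination (-4) * h2
  refine P.2.ne_top ((Ideal.eq_top_iff_one _).2 ?_)
  rw [h3]
  exact Ideal.sub_mem _ (Ideal.mul_mem_left _ _ hP) (Ideal.mul_mem_left _ _ h1)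

end GVR

theorem t_GVR : M_GVR := by
  intro _ hGCO hGX hGLO hGET hVRL k R _ _ _ _ m f
  refine ⟨GVR.flat m f, fun P => ?_⟩
  by_cases hP : 2 * yy (lin f) - 1 ∈ P.asIdeal
  · obtain ⟨l, hl⟩ := GVR.exists_l (k := k) m f P hP
    cases m with
    | zero => exact l.elim0
    | succ m => exact GVR.goodAt_of_loc hGLO _ _ P hl _ (GVR.case2 hGCO hGX hGLO hVRL m f l)
  · exact GVR.goodAt_of_loc hGLO _ _ P hP _ (GVR.case1 hGCO hGX hGET m f)

end CUB
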