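import Pool.Agent.CUB.StmtsA

/-!
# CUB, module GX: polynomial rings
-/

set_option autoImplicit false

open Polynomial

namespace CUB

namespace GX

theorem trd {k A B : Type} [Field k] [CommRing A] [CommRing B] [IsDomain A] [IsDomain B]
    [Algebra k A] [Algebra k B] (i : A →ₐ[k] B) (hi : Function.Injective i) (x : B)
    (hx : ∀ b : B, ∃ f : A[X], f.eval₂ i.toRingHom x = b) :
    Algebra.trdeg k B ≤ Algebra.trdeg k A + 1 ∧
    ((∃ f : A[X], f ≠ 0 ∧ f.eval₂ i.toRingHom x = 0) → Algebra.trdeg k B = Algebra.trdeg k A) := by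
  let _ : Algebra A B := i.toRingHom.toAlgebra
  have : IsScalarTower k A B := IsScalarTower.of_algebraMap_eq (fun r => (i.commutes r).symm)
  have : FaithfulSMul A B := (faithfulSMul_iff_algebraMap_injective A B).2 hi
  have : FaithfulSMul k A := (faithfulSMul_iff_algebraMap_injective k A).2
    (algebraMap k A).injective
  have h := trdeg_add_eq k A (A := B)
  have hs : Function.Surjective (aeval x : A[X] →ₐ[A] B) := fun b => hx b
  have h1 : Algebra.trdeg A B ≤ 1 := by
    have h2 := trdeg_le_of_surjective (aeval x : A[X] →ₐ[A] B) hs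
    rwa [Polynomial.trdeg_of_isDomain] at h2
  refine ⟨?_, ?_⟩
  · rw [← h]
    gcongr
  · rintro ⟨f, hf, hfx⟩
    have hax : IsAlgebraic A x := ⟨f, hf, hfx⟩
    have hal : Algebra.IsAlgebraic A B := by
      refine ⟨fun b => ?_⟩
      obtain ⟨g, rfl⟩ := hs b
      have h3 : Algebra.adjoin A {x} ≤ Subalgebra.algebraicClosure A B := by
        refine Algebra.adjoin_le ?_
        rintro y rfl
        exact hax
      exact h3 (aeval_mem_adjoin_singleton A x)
    have h4 : Algebra.trdeg A B = 0 := trdeg_eq_zero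
    rw [← h, h4, add_zero]

variable {k R : Type} [Field k] [CommRing R] [Algebra k R]

theorem hyp (P : PrimeSpectrum R[X]) :
    rdim k P ≤ rdim k (PrimeSpectrum.comap (IsScalarTower.toAlgHom k R R[X]).toRingHom P) + 1 ∧
    (¬ P.asIdeal ≤ (PrimeSpectrum.comap (IsScalarTower.toAlgHom k R R[X]).toRingHom P).asIdeal.map
        (C : R →+* R[X]) →
      rdim k P = rdim k (PrimeSpectrum.comap (IsScalarTower.toAlgHom k R R[X]).toRingHom P)) := by
  set p := PrimeSpectrum.comap (IsScalarTower.toAlgHom k R R[X]).toRingHom P with hp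
  have H : p.asIdeal ≤ P.asIdeal.comap (IsScalarTower.toAlgHom k R R[X]) := le_refl _
  have h1 : Function.Injective
      (Ideal.quotientMapₐ P.asIdeal (IsScalarTower.toAlgHom k R R[X]) H) :=
    Ideal.quotientMap_injective' (H := H) (le_refl _)
  have ev : ∀ f : R[X], (f.map (Ideal.Quotient.mk p.asIdeal)).eval₂
      (Ideal.quotientMapₐ P.asIdeal (IsScalarTower.toAlgHom k R R[X]) H).toRingHom
      (Ideal.Quotient.mk P.asIdeal X) = Ideal.Quotient.mk P.asIdeal f := by
    intro f
    rw [Polynomial.eval₂_map]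
    have h2 : ((Ideal.quotientMapₐ P.asIdeal (IsScalarTower.toAlgHom k R R[X]) H).toRingHom).comp
        (Ideal.Quotient.mk p.asIdeal) = (Ideal.Quotient.mk P.asIdeal).comp C := rfl
    rw [h2, ← Polynomial.hom_eval₂, Polynomial.eval₂_C_X]
  have h3 := trd (k := k) (Ideal.quotientMapₐ P.asIdeal (IsScalarTower.toAlgHom k R R[X]) H) h1
    (Ideal.Quotient.mk P.asIdeal X) (fun b => by
      obtain ⟨f, rfl⟩ := Ideal.Quotient.mk_surjective b
      exact ⟨_, ev f⟩)
  refine ⟨h3.1, fun hn => h3.2 ?_⟩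
  obtain ⟨f, hf, hfp⟩ := SetLike.not_le_iff_exists.1 hn
  refine ⟨f.map (Ideal.Quotient.mk p.asIdeal), ?_, ?_⟩
  · intro h0
    refine hfp ?_
    rw [Ideal.mem_map_C_iff]
    intro n
    have h4 := congrArg (fun g => Polynomial.coeff g n) h0
    simp only [Polynomial.coeff_map, Polynomial.coeff_zero] at h4
    exact Ideal.Quotient.eq_zero_iff_mem.1 h4
  · rw [ev]
    exact Ideal.Quotient.eq_zero_iff_mem.2 hf

theorem good1 (hD : S_DIM1) [Algebra.FiniteType k R] :
    Good k 1 (IsScalarTower.toAlgHom k R R[X]) := by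
  refine ⟨?_, fun P => ⟨?_, fun h => ?_⟩⟩
  · have h1 : (algebraMap R R[X]).Flat := by
      rw [RingHom.flat_algebraMap_iff]
      infer_instance
    exact h1
  · have h1 := (hyp (k := k) P).1
    exact_mod_cast h1
  · have h1 : P.asIdeal ≤ (PrimeSpectrum.comap
        (IsScalarTower.toAlgHom k R R[X]).toRingHom P).asIdeal.map (C : R →+* R[X]) := by
      by_contra hn
      have h2 := (hyp (k := k) P).2 hn
      obtain ⟨n, hn'⟩ := (hD k R
        (PrimeSpectrum.comap (IsScalarTower.toAlgHom k R R[X]).toRingHom P)).1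
      rw [h2, hn'] at h
      norm_cast at h
      omega
    rw [← Localization.AtPrime.map_eq_maximalIdeal, ← Ideal.map_map]
    exact Ideal.map_mono h1

end GX

theorem t_GX : M_GX := by
  intro hD hG
  refine ⟨fun k R _ _ _ _ => GX.good1 hD, ?_⟩
  intro k R _ _ _ _ m
  induction m with
  | zero =>
    have h1 := hG.2.2.2 k R (MvPolynomial (Fin 0) R)
      (AlgEquiv.restrictScalars k (MvPolynomial.isEmptyAlgEquiv R (Fin 0)).symm)
    have h2 : ((AlgEquiv.restrictScalars k (MvPolynomial.isEmptyAlgEquiv R (Fin 0)).symm :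
        R ≃ₐ[k] MvPolynomial (Fin 0) R) : R →ₐ[k] MvPolynomial (Fin 0) R) =
        IsScalarTower.toAlgHom k R (MvPolynomial (Fin 0) R) := by
      ext r
      rfl
    rw [h2] at h1
    exact h1
  | succ m ih =>
    have h1 : Good k 1 (IsScalarTower.toAlgHom k (MvPolynomial (Fin m) R)
      (MvPolynomial (Fin m) R)[X]) := GX.good1 hD
    have h2 := hG.1 k R (MvPolynomial (Fin m) R) (MvPolynomial (Fin m) R)[X] _ _ m 1 ih h1
    have h3 := hG.2.2.2 k (MvPolynomial (Fin m) R)[X] (MvPolynomial (Fin (m + 1)) R)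
      (AlgEquiv.restrictScalars k (MvPolynomial.finSuccEquiv R m).symm)
    have h4 := hG.1 k R (MvPolynomial (Fin m) R)[X] (MvPolynomial (Fin (m + 1)) R) _ _ (m + 1) 0
      h2 h3
    have h5 : ((AlgEquiv.restrictScalars k (MvPolynomial.finSuccEquiv R m).symm :
        (MvPolynomial (Fin m) R)[X] ≃ₐ[k] MvPolynomial (Fin (m + 1)) R) :
        (MvPolynomial (Fin m) R)[X] →ₐ[k] MvPolynomial (Fin (m + 1)) R).comp
        ((IsScalarTower.toAlgHom k (MvPolynomial (Fin m) R) (MvPolynomial (Fin m) R)[X]).comp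
          (IsScalarTower.toAlgHom k R (MvPolynomial (Fin m) R))) =
        IsScalarTower.toAlgHom k R (MvPolynomial (Fin (m + 1)) R) := by
      refine AlgHom.ext fun r => ?_
      exact (MvPolynomial.finSuccEquiv R m).symm.commutes r
    rw [h5] at h4
    exact h4

end CUB
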