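import Pool.Agent.CUB.StmtsA

/-!
# CUB, HER: additivity of the length over the minimal primes of a reduced local ring
-/

set_option autoImplicit false

namespace CUB

namespace HER

section Two

variable {C : Type} [CommRing C] {X Y Z : Type} [AddCommGroup X] [AddCommGroup Y]
  [AddCommGroup Z] [Module C X] [Module C Y] [Module C Z]

/-- lengths of cokernels add up -/
lemma two (u : X →ₗ[C] Y) (v : Y →ₗ[C] Z) (hv : Function.Injective v) :
    Module.length C (Z ⧸ LinearMap.range (v ∘ₗ u)) =
      Module.length C (Y ⧸ LinearMap.range u) + Module.length C (Z ⧸ LinearMap.range v) := by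
  have h1 : LinearMap.range u ≤ (LinearMap.range (v ∘ₗ u)).comap v := by
    rintro _ ⟨x, rfl⟩
    exact ⟨x, rfl⟩
  have h2 : LinearMap.range (v ∘ₗ u) ≤ LinearMap.range v := by
    rintro _ ⟨x, rfl⟩
    exact ⟨u x, rfl⟩
  refine Module.length_eq_add_of_exact
    (Submodule.mapQ (LinearMap.range u) (LinearMap.range (v ∘ₗ u)) v h1) (Submodule.factor h2)
    ?_ (Submodule.factor_surjective h2) ?_
  · rw [← LinearMap.ker_eq_bot, LinearMap.ker_eq_bot']
    intro y hy
    induction y using Submodule.Quotient.induction_on with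
    | _ y =>
      rw [Submodule.mapQ_apply, Submodule.Quotient.mk_eq_zero] at hy
      obtain ⟨x, hx⟩ := hy
      rw [Submodule.Quotient.mk_eq_zero]
      exact ⟨x, hv hx⟩
  · intro z
    induction z using Submodule.Quotient.induction_on with
    | _ z =>
      constructor
      · intro hz
        have h3 : (Submodule.Quotient.mk z : Z ⧸ LinearMap.range v) = 0 := hz
        rw [Submodule.Quotient.mk_eq_zero] at h3
        obtain ⟨y, hy⟩ := h3
        refine ⟨Submodule.Quotient.mk y, ?_⟩
        rw [Submodule.mapQ_apply, hy]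
      · rintro ⟨y, hy⟩
        induction y using Submodule.Quotient.induction_on with
        | _ y =>
          rw [Submodule.mapQ_apply] at hy
          rw [← hy]
          show (Submodule.Quotient.mk (v y) : Z ⧸ LinearMap.range v) = 0
          rw [Submodule.Quotient.mk_eq_zero]
          exact ⟨y, rfl⟩

end Two

section Main

variable {C : Type} [CommRing C] (I : Finset (Ideal C))

/-- the product of the quotients -/
abbrev N : Type := (Q : I) → C ⧸ (Q.1 : Ideal C)

/-- the length of the cokernel of the multiplication -/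
lemma lenN (a : C) : Module.length C (N I ⧸ LinearMap.range (LinearMap.lsmul C (N I) a)) =
    ∑ Q ∈ I, Module.length C (C ⧸ (Q ⊔ Ideal.span {a})) := by
  let g : N I →ₗ[C] ((Q : I) → C ⧸ ((Q.1 : Ideal C) ⊔ Ideal.span {a})) :=
    LinearMap.pi fun Q => (Submodule.factor (le_sup_left : (Q.1 : Ideal C) ≤
      Q.1 ⊔ Ideal.span {a})) ∘ₗ LinearMap.proj Q
  have hg : Function.Surjective g := by
    intro y
    choose c hc using fun Q : I => Submodule.Quotient.mk_surjective _ (y Q)
    refine ⟨fun Q => Submodule.Quotient.mk (c Q), ?_⟩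
    funext Q
    rw [← hc Q]
    rfl
  have hk : LinearMap.ker g = LinearMap.range (LinearMap.lsmul C (N I) a) := by
    ext y
    constructor
    · intro hy
      have hy' : ∀ Q : I, ∃ z : C ⧸ (Q.1 : Ideal C), a • z = y Q := by
        intro Q
        have h1 : g y Q = 0 := by
          rw [LinearMap.mem_ker.1 hy]
          rfl
        obtain ⟨c, hc⟩ := Submodule.Quotient.mk_surjective _ (y Q)
        have h2 : (Submodule.Quotient.mk c : C ⧸ ((Q.1 : Ideal C) ⊔ Ideal.span {a})) = 0 := by
          rw [← h1]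
          show _ = Submodule.factor (le_sup_left : (Q.1 : Ideal C) ≤ Q.1 ⊔ Ideal.span {a}) (y Q)
          rw [← hc]
          rfl
        rw [Submodule.Quotient.mk_eq_zero, Submodule.mem_sup] at h2
        obtain ⟨q, hq, r, hr, hqr⟩ := h2
        obtain ⟨t, rfl⟩ := Ideal.mem_span_singleton'.1 hr
        refine ⟨Submodule.Quotient.mk t, ?_⟩
        rw [← hc, ← Submodule.Quotient.mk_smul, Submodule.Quotient.eq]
        have h3 : a • t - c = -q := by
          rw [← hqr, smul_eq_mul]
          ring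
        rw [h3]
        exact neg_mem hq
      choose z hz using hy'
      exact ⟨z, funext hz⟩
    · rintro ⟨z, rfl⟩
      rw [LinearMap.mem_ker]
      funext Q
      obtain ⟨c, hc⟩ := Submodule.Quotient.mk_surjective _ (z Q)
      show Submodule.factor (le_sup_left : (Q.1 : Ideal C) ≤ Q.1 ⊔ Ideal.span {a}) (a • z Q) = 0
      rw [← hc, ← Submodule.Quotient.mk_smul]
      show (Submodule.Quotient.mk (a • c) : C ⧸ ((Q.1 : Ideal C) ⊔ Ideal.span {a})) = 0
      rw [Submodule.Quotient.mk_eq_zero, smul_eq_mul, mul_comm]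
      exact Ideal.mem_sup_right (Ideal.mul_mem_left _ _ (Ideal.mem_span_singleton_self a))
  rw [← hk, (LinearMap.quotKerEquivOfSurjective g hg).length_eq, Module.length_pi_of_fintype]
  exact Finset.sum_coe_sort I fun Q => Module.length C (C ⧸ (Q ⊔ Ideal.span {a}))

end Main

end HER

open HER in
/-- HER -/
theorem t_HER : S_HER := by
  intro C _ _ _ a ha hP hmax hred
  have hfin : (minimalPrimes C).Finite := minimalPrimes.finite_of_isNoetherianRing C
  refine ⟨hfin, ?_⟩
  set I : Finset (Ideal C) := hfin.toFinset with hI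
  have hmem : ∀ Q : Ideal C, Q ∈ I ↔ Q ∈ minimalPrimes C := fun Q => hfin.mem_toFinset
  have : Ring.KrullDimLE 1 C := by
    rw [Ring.krullDimLE_one_iff]
    intro P hPp
    rcases hP P hPp with h | h
    · right
      rw [h]
      exact IsLocalRing.maximalIdeal.isMaximal C
    · exact Or.inl h
  have hprime : ∀ Q ∈ I, Q.IsPrime := fun Q hQ => ((hmem Q).1 hQ).1.1
  have hinter : ∀ x : C, (∀ Q ∈ I, x ∈ Q) → x = 0 := by
    intro x hx
    have h1 : x ∈ sInf (minimalPrimes C) := by
      rw [Ideal.mem_sInf]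
      intro Q hQ
      exact hx Q ((hmem Q).2 hQ)
    have h2 : sInf (minimalPrimes C) = (⊥ : Ideal C).radical := Ideal.sInf_minimalPrimes
    rw [h2] at h1
    obtain ⟨n, hn⟩ := h1
    exact hred.eq_zero x ⟨n, hn⟩
  have hnz : ∀ b : C, b ∈ nonZeroDivisors C → ∀ Q ∈ I, b ∉ Q := by
    intro b hb Q hQ hbQ
    exact notMem_nonZeroDivisors_of_mem_mem_minimalPrimes hbQ ((hmem Q).1 hQ) hb
  -- the injective maps
  let ι : C →ₗ[C] N I := LinearMap.pi fun Q => Submodule.mkQ (Q.1 : Ideal C)
  have hι : Function.Injective ι := by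
    rw [← LinearMap.ker_eq_bot, LinearMap.ker_eq_bot']
    intro x hx
    refine hinter x fun Q hQ => ?_
    have h1 : ι x ⟨Q, hQ⟩ = 0 := by
      rw [hx]
      rfl
    exact (Submodule.Quotient.mk_eq_zero _).1 h1
  have hinj : ∀ b : C, (∀ Q ∈ I, b ∉ Q) →
      Function.Injective (LinearMap.lsmul C (N I) b) := by
    intro b hb
    rw [← LinearMap.ker_eq_bot, LinearMap.ker_eq_bot']
    intro y hy
    funext Q
    have h1 : b • y Q = 0 := congrFun hy Q
    obtain ⟨c, hc⟩ := Submodule.Quotient.mk_surjective _ (y Q)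
    rw [← hc, ← Submodule.Quotient.mk_smul, Submodule.Quotient.mk_eq_zero, smul_eq_mul] at h1
    rw [← hc]
    refine (Submodule.Quotient.mk_eq_zero _).2 ?_
    exact ((hprime Q.1 Q.2).mem_or_mem h1).resolve_left (hb Q.1 Q.2)
  -- the conductor
  have hts : ∀ Q : I, ∃ t : C, t ∉ Q.1 ∧ ∀ Q' ∈ I, Q' ≠ Q.1 → t ∈ Q' := by
    classical
    intro Q
    have h1 : ¬ (I.erase Q.1).inf id ≤ Q.1 := by
      intro h
      rw [(hprime Q.1 Q.2).inf_le'] at h
      obtain ⟨Q', hQ', h2⟩ := h
      rw [Finset.mem_erase] at hQ'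
      have h3 : Q'.IsPrime := hprime Q' hQ'.2
      have h4 : Q.1 ≤ Q' := ((hmem Q.1).1 Q.2).2 ⟨h3, bot_le⟩ h2
      exact hQ'.1 (le_antisymm h2 h4)
    obtain ⟨t, ht, ht'⟩ := SetLike.not_le_iff_exists.1 h1
    refine ⟨t, ht', fun Q' hQ' hne => ?_⟩
    exact (Finset.inf_le (Finset.mem_erase.2 ⟨hne, hQ'⟩) : (I.erase Q.1).inf id ≤ id Q') ht
  choose t ht ht' using hts
  let s : C := ∑ Q : I, t Q
  have hsQ : ∀ Q : I, ∀ c : I → C, (∑ Q' : I, t Q' * c Q') - t Q * c Q ∈ Q.1 := by
    classical
    intro Q c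
    rw [← Finset.add_sum_erase _ _ (Finset.mem_univ Q), add_sub_cancel_left]
    refine Ideal.sum_mem _ fun Q' hQ' => ?_
    refine Ideal.mul_mem_right _ _ (ht' Q' Q.1 Q.2 ?_)
    intro h
    exact (Finset.mem_erase.1 hQ').1 (Subtype.ext h.symm)
  have hs1 : ∀ Q : I, s - t Q ∈ Q.1 := by
    intro Q
    have := hsQ Q fun _ => 1
    simpa only [mul_one] using this
  have hsn : ∀ Q ∈ I, s ∉ Q := by
    intro Q hQ h
    refine ht ⟨Q, hQ⟩ ?_
    have h1 := (Ideal.sub_mem _ h (hs1 ⟨Q, hQ⟩))
    rwa [sub_sub_cancel] at h1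
  have hsnz : s ∈ nonZeroDivisors C := by
    rw [mem_nonZeroDivisors_iff_right]
    intro x hx
    refine hinter x fun Q hQ => ?_
    have h1 : x * s ∈ Q := by
      rw [hx]
      exact Q.zero_mem
    exact ((hprime Q hQ).mem_or_mem h1).resolve_right (hsn Q hQ)
  have hle : LinearMap.range (LinearMap.lsmul C (N I) s) ≤ LinearMap.range ι := by
    rintro _ ⟨y, rfl⟩
    choose c hc using fun Q : I => Submodule.Quotient.mk_surjective _ (y Q)
    refine ⟨∑ Q' : I, t Q' * c Q', ?_⟩
    funext Q
    show (Submodule.Quotient.mk (∑ Q' : I, t Q' * c Q') : C ⧸ (Q.1 : Ideal C)) = s • y Q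
    rw [← hc Q, ← Submodule.Quotient.mk_smul, Submodule.Quotient.eq, smul_eq_mul]
    have h1 : (∑ Q' : I, t Q' * c Q') - s * c Q =
        ((∑ Q' : I, t Q' * c Q') - t Q * c Q) - (s - t Q) * c Q := by ring
    rw [h1]
    exact Ideal.sub_mem _ (hsQ Q c) (Ideal.mul_mem_right _ _ (hs1 Q))
  have hfinl : Module.length C (N I ⧸ LinearMap.range ι) ≠ ⊤ := by
    have h1 : Module.length C (N I ⧸ LinearMap.range ι) ≤
        Module.length C (N I ⧸ LinearMap.range (LinearMap.lsmul C (N I) s)) :=
      Module.length_le_of_surjective (Submodule.factor hle) (Submodule.factor_surjective hle)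
    have h2 : Module.length C (C ⧸ Ideal.span {s}) ≠ ⊤ :=
      Module.length_ne_top_iff.2 (isFiniteLength_quotient_span_singleton C hsnz)
    rw [lenN] at h1
    refine ne_top_of_le_ne_top ?_ h1
    rw [← lt_top_iff_ne_top, ENat.sum_lt_top]
    intro Q _
    refine lt_of_le_of_lt ?_ (lt_top_iff_ne_top.2 h2)
    exact Module.length_le_of_surjective
      (Submodule.factor (le_sup_right : Ideal.span {s} ≤ Q ⊔ Ideal.span {s}))
      (Submodule.factor_surjective _)
  have e1 := two ι (LinearMap.lsmul C (N I) a) (hinj a (hnz a ha))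
  have e2 := two (LinearMap.lsmul C C a) ι hι
  have e3 : (LinearMap.lsmul C (N I) a) ∘ₗ ι = ι ∘ₗ (LinearMap.lsmul C C a) := by
    refine LinearMap.ext fun x => ?_
    show a • ι x = ι (a • x)
    rw [map_smul]
  rw [e3, e2, add_comm] at e1
  have e4 := ENat.add_right_injective_of_ne_top hfinl e1
  have e5 : LinearMap.range (LinearMap.lsmul C C a) = Ideal.span {a} := by
    ext x
    rw [Ideal.mem_span_singleton']
    constructor
    · rintro ⟨y, rfl⟩
      exact ⟨y, by simp [mul_comm]⟩
    · rintro ⟨y, rfl⟩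
      exact ⟨y, by simp [mul_comm]⟩
  rw [e5, lenN] at e4
  exact e4

end CUB
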