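import Pool.Agent.CUB.StmtsA

/-!
# CUB: lengths and surjections
-/

set_option autoImplicit false

namespace CUB

namespace LENA

/-- surjective homomorphisms, lengths of the quotients -/
theorem length_quot {R S : Type} [CommRing R] [CommRing S] (f : R →+* S)
    (hf : Function.Surjective f) (I : Ideal R) (J : Ideal S) (h : I = J.comap f) :
    Module.length R (R ⧸ I) = Module.length S (S ⧸ J) := by
  letI : Algebra R S := f.toAlgebra
  have h1 : Module.length R (S ⧸ J) = Module.length S (S ⧸ J) :=
    Module.length_eq_of_surjective (R := S) (S := R) (M := S ⧸ J) hf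
  rw [← h1]
  let g : R →ₐ[R] (S ⧸ J) := Algebra.ofId R (S ⧸ J)
  have hg : ∀ x, g x = Ideal.Quotient.mk J (f x) := fun x => rfl
  have hgs : Function.Surjective g.toLinearMap := by
    intro y
    obtain ⟨z, rfl⟩ := Ideal.Quotient.mk_surjective y
    obtain ⟨x, rfl⟩ := hf z
    exact ⟨x, rfl⟩
  have hk : LinearMap.ker g.toLinearMap = I := by
    ext x
    rw [LinearMap.mem_ker, h, Ideal.mem_comap]
    have : g.toLinearMap x = Ideal.Quotient.mk J (f x) := rfl
    rw [this, Ideal.Quotient.eq_zero_iff_mem]
  have e := g.toLinearMap.quotKerEquivOfSurjective hgs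
  rw [hk] at e
  exact e.length_eq

end LENA

theorem t_LENA : S_LENA := by
  intro A B _ _ φ hφ J P
  have hP : (PrimeSpectrum.comap φ P).asIdeal = P.asIdeal.comap φ := rfl
  let ψ := Localization.localRingHom (PrimeSpectrum.comap φ P).asIdeal P.asIdeal φ hP
  have hs : Function.Surjective ψ := by
    intro y
    obtain ⟨b, s, rfl⟩ := IsLocalization.exists_mk'_eq P.asIdeal.primeCompl y
    obtain ⟨a, rfl⟩ := hφ b
    obtain ⟨t, ht⟩ := hφ s.1
    have htp : t ∈ (PrimeSpectrum.comap φ P).asIdeal.primeCompl := by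
      intro h
      have h2 : φ t ∈ P.asIdeal := h
      rw [ht] at h2
      exact s.2 h2
    refine ⟨IsLocalization.mk' _ a ⟨t, htp⟩, ?_⟩
    simp only [ψ]
    rw [Localization.localRingHom_mk']
    congr 1
    exact Subtype.ext ht
  have hI : (J.comap φ).map (algebraMap A (Localization.AtPrime (PrimeSpectrum.comap φ P).asIdeal)) =
      (J.map (algebraMap B (Localization.AtPrime P.asIdeal))).comap ψ := by
    ext z
    obtain ⟨a, s, rfl⟩ := IsLocalization.exists_mk'_eq (PrimeSpectrum.comap φ P).asIdeal.primeCompl z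
    rw [Ideal.mem_comap, IsLocalization.mk'_mem_map_algebraMap_iff]
    simp only [ψ]
    rw [Localization.localRingHom_mk', IsLocalization.mk'_mem_map_algebraMap_iff]
    constructor
    · rintro ⟨t, ht, h⟩
      refine ⟨φ t, ht, ?_⟩
      rw [← map_mul]
      exact h
    · rintro ⟨u, hu, h⟩
      obtain ⟨t, rfl⟩ := hφ u
      refine ⟨t, hu, ?_⟩
      rw [Ideal.mem_comap, map_mul]
      exact h
  unfold len
  rw [LENA.length_quot ψ hs _ _ hI]

end CUB
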