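import Pool.Agent.CUB.StmtsA

/-!
# LENB: lengths and flat local homomorphisms
-/

set_option autoImplicit false

namespace CUB

theorem t_LENB : S_LENB := by
  intro A B _ _ φ P hφ hm I
  set p : PrimeSpectrum A := PrimeSpectrum.comap φ P with hp
  have hpP : p.asIdeal = P.asIdeal.comap φ := rfl
  let ψ : Localization.AtPrime p.asIdeal →+* Localization.AtPrime P.asIdeal :=
    Localization.localRingHom p.asIdeal P.asIdeal φ hpP
  have hψ : ψ.Flat := RingHom.Flat.localRingHom hφ P.asIdeal p.asIdeal hpP
  have hloc : IsLocalHom ψ := Localization.isLocalHom_localRingHom p.asIdeal P.asIdeal φ hpP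
  have hcomp : ψ.comp (algebraMap A (Localization.AtPrime p.asIdeal)) =
      (algebraMap B (Localization.AtPrime P.asIdeal)).comp φ := by
    ext a
    exact Localization.localRingHom_to_map p.asIdeal P.asIdeal φ hpP a
  algebraize [ψ]
  have hloc' : IsLocalHom (algebraMap (Localization.AtPrime p.asIdeal)
      (Localization.AtPrime P.asIdeal)) := hloc
  -- the maximal ideals
  have hmax : (IsLocalRing.maximalIdeal (Localization.AtPrime p.asIdeal)).map
      (algebraMap (Localization.AtPrime p.asIdeal) (Localization.AtPrime P.asIdeal)) =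
      IsLocalRing.maximalIdeal (Localization.AtPrime P.asIdeal) := by
    apply le_antisymm
    · exact ((IsLocalRing.local_hom_TFAE ψ).out 0 2).mp hloc
    · refine hm.trans ?_
      rw [← Localization.AtPrime.map_eq_maximalIdeal, Ideal.map_map]
      change _ ≤ Ideal.map (ψ.comp (algebraMap A (Localization.AtPrime p.asIdeal))) p.asIdeal
      rw [hcomp]
  have h1 := IsLocalRing.length_baseChange (Localization.AtPrime p.asIdeal)
    (Localization.AtPrime P.asIdeal) (Localization.AtPrime p.asIdeal ⧸
      I.map (algebraMap A (Localization.AtPrime p.asIdeal)))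
  rw [hmax] at h1
  have h2 : Module.length (Localization.AtPrime P.asIdeal) (Localization.AtPrime P.asIdeal ⧸
      IsLocalRing.maximalIdeal (Localization.AtPrime P.asIdeal)) = 1 := by
    rw [Module.length_eq_one_iff, isSimpleModule_iff_isCoatom]
    exact Ideal.isMaximal_def.1 (IsLocalRing.maximalIdeal.isMaximal _)
  rw [h2, mul_one] at h1
  have h3 := (Algebra.TensorProduct.quotIdealMapEquivTensorQuot (Localization.AtPrime P.asIdeal)
    (I.map (algebraMap A (Localization.AtPrime p.asIdeal)))).toLinearEquiv.length_eq
  have h4 : (I.map (algebraMap A (Localization.AtPrime p.asIdeal))).map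
      (algebraMap (Localization.AtPrime p.asIdeal) (Localization.AtPrime P.asIdeal)) =
      (I.map φ).map (algebraMap B (Localization.AtPrime P.asIdeal)) := by
    rw [Ideal.map_map, Ideal.map_map, ← hcomp]
    rfl
  rw [h4, h1] at h3
  unfold len
  rw [h3]

end CUB
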