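import Pool.Agent.CUB.StmtsA

/-!
# Module LOC: the localisation sequence
-/

set_option autoImplicit false

open Polynomial

namespace CUB

namespace LOC

variable {k A B E : Type} [Field k] [CommRing A] [CommRing B] [Algebra k A] [Algebra k B]
  [Field E] {φ : A →ₐ[k] B} {a : A}

lemma rdim_le (φ : A →ₐ[k] B) (P : PrimeSpectrum B) :
    rdim k (PrimeSpectrum.comap φ.toRingHom P) ≤ rdim k P := by
  unfold rdim
  have H : (PrimeSpectrum.comap φ.toRingHom P).asIdeal ≤ P.asIdeal.comap φ := le_refl _
  have h1 : Function.Injective (Ideal.quotientMapₐ P.asIdeal φ H) :=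
    Ideal.quotientMap_injective' (H := H) (le_refl _)
  have hP : P.asIdeal.IsPrime := P.isPrime
  exact trdeg_le_of_injective (Ideal.quotientMapₐ P.asIdeal φ H) h1

lemma rdim_eq (hG : Good k 0 φ) (P : PrimeSpectrum B) :
    rdim k (PrimeSpectrum.comap φ.toRingHom P) = rdim k P := by
  refine le_antisymm (rdim_le φ P) ?_
  have := (hG.at' P).1
  simpa using this

lemma len_eq (hB : S_LENB) (hG : Good k 0 φ) (P : PrimeSpectrum B) (I : Ideal A) :
    len (I.map φ.toRingHom) P = len I (PrimeSpectrum.comap φ.toRingHom P) := by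
  refine hB A B φ.toRingHom P hG.flat ((hG.at' P).2 ?_) I
  rw [rdim_eq hG P]
  simp

lemma a_notMem (hloc : @IsLocalization.Away A _ a B _ φ.toRingHom.toAlgebra)
    (P : PrimeSpectrum B) : a ∉ (PrimeSpectrum.comap φ.toRingHom P).asIdeal := by
  let _ := φ.toRingHom.toAlgebra
  intro h
  have h1 : IsUnit (algebraMap A B a) := IsLocalization.Away.algebraMap_isUnit a
  exact P.isPrime.ne_top (Ideal.eq_top_of_isUnit_mem _ h h1)

lemma exists_prime (hloc : @IsLocalization.Away A _ a B _ φ.toRingHom.toAlgebra)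
    (p : PrimeSpectrum A) (hp : a ∉ p.asIdeal) :
    ∃ P : PrimeSpectrum B, PrimeSpectrum.comap φ.toRingHom P = p := by
  let _ := φ.toRingHom.toAlgebra
  have h := PrimeSpectrum.localization_away_comap_range B a
  have h1 : p ∈ Set.range (PrimeSpectrum.comap (algebraMap A B)) := by
    rw [h]
    exact hp
  exact h1

lemma comap_inj (hloc : @IsLocalization.Away A _ a B _ φ.toRingHom.toAlgebra) :
    Function.Injective (PrimeSpectrum.comap φ.toRingHom) := by
  let _ := φ.toRingHom.toAlgebra
  exact PrimeSpectrum.localization_comap_injective B (Submonoid.powers a)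

lemma map_comap (hloc : @IsLocalization.Away A _ a B _ φ.toRingHom.toAlgebra) (J : Ideal B) :
    (J.comap φ.toRingHom).map φ.toRingHom = J := by
  let _ := φ.toRingHom.toAlgebra
  exact IsLocalization.map_under (Submonoid.powers a) B J

lemma exists_num (hloc : @IsLocalization.Away A _ a B _ φ.toRingHom.toAlgebra) (b : B) :
    ∃ (b' : A) (u : Bˣ), φ b' = (u : B) * b := by
  let _ := φ.toRingHom.toAlgebra
  obtain ⟨⟨b', s⟩, h⟩ := IsLocalization.surj (Submonoid.powers a) b
  have hu : IsUnit (algebraMap A B s) := IsLocalization.map_units B s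
  refine ⟨b', hu.unit, ?_⟩
  rw [IsUnit.unit_spec, mul_comm]
  exact h.symm

/-- the points of `B` as points of `A` -/
noncomputable def iota (hG : Good k 0 φ) (n : ℕ) (P : RP k B n) : RP k A n :=
  ⟨PrimeSpectrum.comap φ.toRingHom P.1, (rdim_eq hG P.1).trans P.2⟩

lemma isPull_iff (hG : Good k 0 φ) (n : ℕ) (c : RP k A n →₀ E) (d : RP k B n →₀ E) :
    IsPull k E 0 φ c d ↔ ∀ P : RP k B n, d P = c (iota hG n P) := by
  constructor
  · intro h P
    exact (h P).1 ((rdim_eq hG P.1).trans P.2)
  · intro h P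
    refine ⟨fun _ => h P, fun hne => absurd ((rdim_eq hG P.1).trans P.2) hne⟩

lemma sup_eq (Q : Ideal B) (u : Bˣ) (b : B) :
    Q ⊔ Ideal.span {(u : B) * b} = Q ⊔ Ideal.span {b} := by
  congr 1
  rw [Ideal.span_singleton_mul_left_unit u.isUnit]

end LOC

open LOC in
/-- the localisation sequence -/
theorem t_LOC : M_LOC := by
  intro _ hLB _ hDV hGLO k A B E _ _ _ _ _ _ _ _ φ a hloc n I
  have hG : Good k 0 φ := hGLO k A B φ a hloc
  refine ⟨?_, ?_⟩
  · intro c d hcd hd
    -- lift of the rational equivalence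
    have key : ∀ d' : RP k B n →₀ E, d' ∈ ratOn k E n (I.map φ.toRingHom) →
        ∃ ρ ∈ ratOn k E n I, ∀ P : RP k B n, d' P = ρ (iota hG n P) := by
      intro d' hd'
      unfold ratOn at hd'
      induction hd' using Submodule.span_induction with
      | mem x hx =>
        obtain ⟨Q, b, hIQ, hbQ, hdv⟩ := hx
        obtain ⟨b', u, hb'⟩ := exists_num hloc b
        set q : RP k A (n + 1) := iota hG (n + 1) Q with hq
        have hb'q : b' ∉ q.1.asIdeal := by
          intro h
          have h1 : φ b' ∈ Q.1.asIdeal := h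
          rw [hb'] at h1
          rcases Q.1.isPrime.mem_or_mem h1 with h2 | h2
          · exact Q.1.isPrime.ne_top (Ideal.eq_top_of_isUnit_mem _ h2 u.isUnit)
          · exact hbQ h2
        obtain ⟨ρ, hρ⟩ := hDV k A E n q b' hb'q
        refine ⟨ρ, Submodule.subset_span ⟨q, b', ?_, hb'q, hρ⟩, ?_⟩
        · exact Ideal.map_le_iff_le_comap.mp hIQ
        · intro P
          rw [hdv P, hρ (iota hG n P)]
          have h3 := len_eq hLB hG P.1 (q.1.asIdeal ⊔ Ideal.span {b'})
          have h4 : (q.1.asIdeal ⊔ Ideal.span {b'}).map φ.toRingHom =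
              Q.1.asIdeal ⊔ Ideal.span {b} := by
            rw [Ideal.map_sup, Ideal.map_span, Set.image_singleton]
            have h5 : q.1.asIdeal.map φ.toRingHom = Q.1.asIdeal :=
              map_comap hloc Q.1.asIdeal
            have h6 : φ.toRingHom b' = (u : B) * b := hb'
            rw [h5, h6, sup_eq]
          rw [h4] at h3
          rw [h3]
          rfl
      | zero => exact ⟨0, Submodule.zero_mem _, fun P => rfl⟩
      | add x y _ _ hx hy =>
        obtain ⟨ρ₁, h1, h2⟩ := hx
        obtain ⟨ρ₂, h3, h4⟩ := hy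
        refine ⟨ρ₁ + ρ₂, Submodule.add_mem _ h1 h3, fun P => ?_⟩
        rw [Finsupp.add_apply, Finsupp.add_apply, h2, h4]
      | smul r x _ hx =>
        obtain ⟨ρ₁, h1, h2⟩ := hx
        refine ⟨r • ρ₁, Submodule.smul_mem _ r h1, fun P => ?_⟩
        rw [Finsupp.smul_apply, Finsupp.smul_apply, h2]
    obtain ⟨ρ, hρ, hρd⟩ := key d hd
    refine ⟨ρ, hρ, ?_⟩
    intro p hp
    rw [Ideal.span_singleton_le_iff_mem]
    by_contra hap
    obtain ⟨P, hP⟩ := exists_prime hloc p.1 hap
    have hPn : rdim k P = n := by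
      rw [← rdim_eq hG P, hP]
      exact p.2
    have h1 := (isPull_iff hG n c d).mp hcd ⟨P, hPn⟩
    have h2 := hρd ⟨P, hPn⟩
    have h3 : iota hG n ⟨P, hPn⟩ = p := Subtype.ext hP
    rw [h3] at h1 h2
    apply hp
    rw [Finsupp.sub_apply, ← h1, ← h2, sub_self]
  · intro d
    have hinj : Function.Injective (iota hG n) := by
      intro P P' h
      exact Subtype.ext (comap_inj hloc (congrArg Subtype.val h))
    refine ⟨Finsupp.mapDomain (iota hG n) d, (isPull_iff hG n _ d).mpr fun P => ?_⟩
    exact (Finsupp.mapDomain_apply hinj d P).symm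

end CUB
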