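import Pool.Agent.CUB.StmtsA

/-!
# CUB: pull-backs are unique and linear; pull-back along an isomorphism
-/

set_option autoImplicit false

namespace CUB

namespace PLIN

section lin

variable {k A B E : Type} [Field k] [CommRing A] [CommRing B] [Algebra k A] [Algebra k B]
  [Field E] {r n : ℕ} {φ : A →ₐ[k] B}

/-- two functions on the primes with the same description are equal -/
theorem uniq {c : RP k A n →₀ E} {d d' : RP k B (n + r) →₀ E} (h : IsPull k E r φ c d)
    (h' : IsPull k E r φ c d') : d = d' := by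
  refine Finsupp.ext fun P => ?_
  by_cases hP : rdim k (PrimeSpectrum.comap φ.toRingHom P.1) = n
  · rw [(h P).1 hP, (h' P).1 hP]
  · rw [(h P).2 hP, (h' P).2 hP]

theorem add {c c' : RP k A n →₀ E} {d d' : RP k B (n + r) →₀ E} (h : IsPull k E r φ c d)
    (h' : IsPull k E r φ c' d') : IsPull k E r φ (c + c') (d + d') := by
  intro P
  refine ⟨fun hP => ?_, fun hP => ?_⟩
  · rw [Finsupp.add_apply, Finsupp.add_apply, (h P).1 hP, (h' P).1 hP]
  · rw [Finsupp.add_apply, (h P).2 hP, (h' P).2 hP, add_zero]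

theorem sub {c c' : RP k A n →₀ E} {d d' : RP k B (n + r) →₀ E} (h : IsPull k E r φ c d)
    (h' : IsPull k E r φ c' d') : IsPull k E r φ (c - c') (d - d') := by
  intro P
  refine ⟨fun hP => ?_, fun hP => ?_⟩
  · rw [Finsupp.sub_apply, Finsupp.sub_apply, (h P).1 hP, (h' P).1 hP]
  · rw [Finsupp.sub_apply, (h P).2 hP, (h' P).2 hP, sub_zero]

theorem smul {c : RP k A n →₀ E} {d : RP k B (n + r) →₀ E} (x : E) (h : IsPull k E r φ c d) :
    IsPull k E r φ (x • c) (x • d) := by
  intro P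
  refine ⟨fun hP => ?_, fun hP => ?_⟩
  · rw [Finsupp.smul_apply, Finsupp.smul_apply, (h P).1 hP]
  · rw [Finsupp.smul_apply, (h P).2 hP, smul_zero]

theorem zero : IsPull k E r φ (0 : RP k A n →₀ E) 0 := by
  intro P
  exact ⟨fun _ => rfl, fun _ => rfl⟩

end lin

section iso

variable {k A B E : Type} [Field k] [CommRing A] [CommRing B] [Algebra k A] [Algebra k B]
  [Field E] {n : ℕ}

theorem comap_symm (e : A ≃ₐ[k] B) (P : PrimeSpectrum B) :
    PrimeSpectrum.comap (e.symm : B →ₐ[k] A).toRingHom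
      (PrimeSpectrum.comap (e : A →ₐ[k] B).toRingHom P) = P := by
  apply PrimeSpectrum.ext
  ext b
  show e (e.symm b) ∈ P.asIdeal ↔ b ∈ P.asIdeal
  rw [e.apply_symm_apply]

theorem symm_comap (e : A ≃ₐ[k] B) (P : PrimeSpectrum A) :
    PrimeSpectrum.comap (e : A →ₐ[k] B).toRingHom
      (PrimeSpectrum.comap (e.symm : B →ₐ[k] A).toRingHom P) = P := by
  apply PrimeSpectrum.ext
  ext a
  show e.symm (e a) ∈ P.asIdeal ↔ a ∈ P.asIdeal
  rw [e.symm_apply_apply]

theorem dim_eq (e : A ≃ₐ[k] B) (P : RP k B n) :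
    rdim k (PrimeSpectrum.comap (e : A →ₐ[k] B).toRingHom P.1) = n :=
  (rdim_comap (e : A →ₐ[k] B) e.surjective P.1).trans P.2

theorem push_eq (e : A ≃ₐ[k] B) (c : RP k A n →₀ E) (P : RP k B n) :
    push E (e.symm : B →ₐ[k] A) e.symm.surjective c P =
      c ⟨PrimeSpectrum.comap (e : A →ₐ[k] B).toRingHom P.1, dim_eq e P⟩ := by
  have hinj : Function.Injective (pushP (n := n) (e.symm : B →ₐ[k] A) e.symm.surjective) := by
    intro P₁ P₂ h
    have h1 : PrimeSpectrum.comap (e.symm : B →ₐ[k] A).toRingHom P₁.1 =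
        PrimeSpectrum.comap (e.symm : B →ₐ[k] A).toRingHom P₂.1 := congrArg Subtype.val h
    apply Subtype.ext
    rw [← symm_comap e P₁.1, ← symm_comap e P₂.1, h1]
  have hP : pushP (n := n) (e.symm : B →ₐ[k] A) e.symm.surjective
      ⟨PrimeSpectrum.comap (e : A →ₐ[k] B).toRingHom P.1, dim_eq e P⟩ = P :=
    Subtype.ext (comap_symm e P.1)
  have h2 := Finsupp.mapDomain_apply hinj c
    ⟨PrimeSpectrum.comap (e : A →ₐ[k] B).toRingHom P.1, dim_eq e P⟩
  rw [hP] at h2
  exact h2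

theorem iso (e : A ≃ₐ[k] B) (c : RP k A n →₀ E) (d : RP k B n →₀ E) :
    IsPull k E 0 (e : A →ₐ[k] B) c d ↔
      push E (e.symm : B →ₐ[k] A) e.symm.surjective c = d := by
  constructor
  · intro h
    refine Finsupp.ext fun P => ?_
    rw [push_eq e c P]
    exact ((h P).1 (dim_eq e P)).symm
  · rintro rfl
    intro P
    refine ⟨fun _ => push_eq e c P, fun hP => absurd (dim_eq (n := n) e P) hP⟩

end iso

end PLIN

theorem t_PLIN : S_PLIN := by
  refine ⟨?_, ?_⟩
  · intro k A B E _ _ _ _ _ _ r n φ c c' d d' x h h'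
    refine ⟨fun hc => ?_, PLIN.add h h', PLIN.sub h h', PLIN.smul x h, PLIN.zero⟩
    subst hc
    exact PLIN.uniq h h'
  · intro k A B E _ _ _ _ _ _ n e c d
    exact PLIN.iso e c d

end CUB
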