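import Pool.Agent.CUB.StmtsA

/-!
# CUB, module PUSH: push-forward of cycles along closed immersions
-/

set_option autoImplicit false

open Polynomial

namespace CUB

namespace PUSH

lemma len_zero {A : Type} [CommRing A] (I : Ideal A) (p : PrimeSpectrum A)
    (h : ¬ I ≤ p.asIdeal) : len I p = 0 := by
  unfold len
  obtain ⟨x, hx, hxp⟩ := Set.not_subset.mp h
  have h1 : I.map (algebraMap A (Localization.AtPrime p.asIdeal)) = ⊤ := by
    apply Ideal.eq_top_of_isUnit_mem _ (Ideal.mem_map_of_mem _ hx)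
    exact IsLocalization.map_units (M := p.asIdeal.primeCompl) _ ⟨x, hxp⟩
  rw [h1]
  have h2 : Subsingleton (Localization.AtPrime p.asIdeal ⧸
      (⊤ : Ideal (Localization.AtPrime p.asIdeal))) := Ideal.Quotient.subsingleton_iff.mpr rfl
  rw [Module.length_eq_zero]
  rfl

variable {k A B E : Type} [Field k] [CommRing A] [CommRing B] [Algebra k A] [Algebra k B]
  [Field E]

lemma pushP_inj (φ : A →ₐ[k] B) (hφ : Function.Surjective φ) (n : ℕ) :
    Function.Injective (pushP (n := n) φ hφ) := by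
  intro P P' h
  apply Subtype.ext
  have h1 : PrimeSpectrum.comap φ.toRingHom P.1 = PrimeSpectrum.comap φ.toRingHom P'.1 :=
    congrArg Subtype.val h
  exact PrimeSpectrum.comap_injective_of_surjective φ.toRingHom hφ h1

lemma mem_range_iff (φ : A →ₐ[k] B) (hφ : Function.Surjective φ) (n : ℕ) (p : RP k A n) :
    p ∈ Set.range (pushP (n := n) φ hφ) ↔ RingHom.ker φ.toRingHom ≤ p.1.asIdeal := by
  constructor
  · rintro ⟨P, rfl⟩
    intro x hx
    change φ x ∈ P.1.asIdeal
    have h : φ x = 0 := hx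
    rw [h]
    exact P.1.asIdeal.zero_mem
  · intro h
    have h1 : p.1 ∈ Set.range (PrimeSpectrum.comap φ.toRingHom) := by
      rw [range_comap_of_surjective _ _ hφ]
      exact h
    obtain ⟨P, hP⟩ := h1
    refine ⟨⟨P, ?_⟩, Subtype.ext hP⟩
    rw [← rdim_comap φ hφ P, hP]
    exact p.2

lemma push_apply {n : ℕ} (φ : A →ₐ[k] B) (hφ : Function.Surjective φ) (c : RP k B n →₀ E)
    (P : RP k B n) : push E φ hφ c (pushP φ hφ P) = c P :=
  Finsupp.mapDomain_apply (pushP_inj φ hφ n) c P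

lemma push_zero {n : ℕ} (φ : A →ₐ[k] B) (hφ : Function.Surjective φ) (c : RP k B n →₀ E)
    (p : RP k A n) (hp : ¬ RingHom.ker φ.toRingHom ≤ p.1.asIdeal) : push E φ hφ c p = 0 := by
  apply Finsupp.mapDomain_of_notMem_range
  rw [mem_range_iff]
  exact hp

lemma push_inj (φ : A →ₐ[k] B) (hφ : Function.Surjective φ) (n : ℕ) :
    Function.Injective (push E (n := n) φ hφ) :=
  Finsupp.mapDomain_injective (pushP_inj φ hφ n)

lemma supp_iff {n : ℕ} (φ : A →ₐ[k] B) (hφ : Function.Surjective φ) (c : RP k A n →₀ E) :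
    SuppOn k E (RingHom.ker φ.toRingHom) c ↔ ∃ c' : RP k B n →₀ E, push E φ hφ c' = c := by
  constructor
  · intro h
    refine ⟨Finsupp.comapDomain (pushP φ hφ) c (pushP_inj φ hφ n).injOn, ?_⟩
    apply Finsupp.mapDomain_comapDomain _ (pushP_inj φ hφ n)
    intro p hp
    rw [mem_range_iff]
    exact h p (Finsupp.mem_support_iff.mp hp)
  · rintro ⟨c', rfl⟩ p hp
    by_contra hcon
    exact hp (push_zero φ hφ c' p hcon)

/-- Comparison of the ideals. -/
lemma ideal_eq {A B : Type} [CommRing A] [CommRing B] (φ : A →+* B)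
    (hφ : Function.Surjective φ) (Q : Ideal B) (a : A) :
    (Q ⊔ Ideal.span {φ a}).comap φ = Q.comap φ ⊔ Ideal.span {a} := by
  have h1 : (Q.comap φ ⊔ Ideal.span {a}).map φ = Q ⊔ Ideal.span {φ a} := by
    rw [Ideal.map_sup, Ideal.map_comap_of_surjective φ hφ, Ideal.map_span, Set.image_singleton]
  rw [← h1, Ideal.comap_map_of_surjective φ hφ]
  apply sup_eq_left.mpr
  exact (Ideal.comap_mono bot_le).trans le_sup_left

lemma dv_iff (hL : S_LENA) {n : ℕ} (φ : A →ₐ[k] B) (hφ : Function.Surjective φ)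
    (Q : RP k B (n + 1)) (a : A) (c : RP k B n →₀ E) :
    IsDv k E (pushP φ hφ Q).1 a (push E φ hφ c) ↔ IsDv k E Q.1 (φ a) c := by
  have key : ∀ P : RP k B n, len ((pushP φ hφ Q).1.asIdeal ⊔ Ideal.span {a}) (pushP φ hφ P).1 =
      len (Q.1.asIdeal ⊔ Ideal.span {φ a}) P.1 := by
    intro P
    rw [← hL A B φ.toRingHom hφ (Q.1.asIdeal ⊔ Ideal.span {φ a}) P.1]
    have h := ideal_eq φ.toRingHom hφ Q.1.asIdeal a
    have h2 : (Q.1.asIdeal ⊔ Ideal.span {φ a}).comap φ.toRingHom =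
      (pushP φ hφ Q).1.asIdeal ⊔ Ideal.span {a} := h
    rw [h2]
    rfl
  constructor
  · intro h P
    have h1 := h (pushP φ hφ P)
    rw [push_apply, key P] at h1
    exact h1
  · intro h p
    by_cases hp : RingHom.ker φ.toRingHom ≤ p.1.asIdeal
    · obtain ⟨P, rfl⟩ := (mem_range_iff φ hφ n p).mpr hp
      rw [push_apply, key P]
      exact h P
    · rw [push_zero φ hφ c p hp, len_zero, Nat.cast_zero]
      intro hle
      apply hp
      have h3 : RingHom.ker φ.toRingHom ≤ (pushP φ hφ Q).1.asIdeal :=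
        (mem_range_iff φ hφ (n + 1) (pushP φ hφ Q)).mp ⟨Q, rfl⟩
      exact (h3.trans le_sup_left).trans hle

lemma ratOn_eq (hL : S_LENA) {n : ℕ} (φ : A →ₐ[k] B) (hφ : Function.Surjective φ)
    (J : Ideal B) :
    ratOn k E n (J.comap φ.toRingHom) = Submodule.map (push E φ hφ) (ratOn k E n J) := by
  apply le_antisymm
  · unfold ratOn
    rw [Submodule.span_le]
    rintro d ⟨q, a, hJ, ha, hd⟩
    have hk : RingHom.ker φ.toRingHom ≤ q.1.asIdeal :=
      (Ideal.comap_mono (bot_le : (⊥ : Ideal B) ≤ J)).trans hJ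
    obtain ⟨Q, rfl⟩ := (mem_range_iff φ hφ (n + 1) q).mpr hk
    have hs : SuppOn k E (RingHom.ker φ.toRingHom) d := by
      intro p hp
      by_contra hcon
      apply hp
      rw [hd p, len_zero, Nat.cast_zero]
      intro hle
      exact hcon ((hk.trans le_sup_left).trans hle)
    obtain ⟨c, rfl⟩ := (supp_iff φ hφ d).mp hs
    refine ⟨c, Submodule.subset_span ⟨Q, φ a, ?_, ?_, (dv_iff hL φ hφ Q a c).mp hd⟩, rfl⟩
    · intro b hb
      obtain ⟨x, rfl⟩ := hφ b
      exact hJ hb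
    · exact ha
  · unfold ratOn
    rw [Submodule.map_span, Submodule.span_le]
    rintro _ ⟨c, ⟨Q, b, hJ, hb, hc⟩, rfl⟩
    obtain ⟨a, rfl⟩ := hφ b
    exact Submodule.subset_span ⟨pushP φ hφ Q, a, Ideal.comap_mono hJ, hb,
      (dv_iff hL φ hφ Q a c).mpr hc⟩

end PUSH

open PUSH in
theorem t_PUSH : M_PUSH := by
  intro hL k A B E _ _ _ _ _ _ φ hφ n
  have h2 : ∀ (J : Ideal B) (c : RP k B n →₀ E),
      push E φ hφ c ∈ ratOn k E n (J.comap φ.toRingHom) ↔ c ∈ ratOn k E n J := by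
    intro J c
    rw [ratOn_eq hL φ hφ J]
    constructor
    · rintro ⟨c', hc', he⟩
      rw [← push_inj φ hφ n he]
      exact hc'
    · intro h
      exact ⟨c, h, rfl⟩
  refine ⟨push_inj φ hφ n, h2, ?_, supp_iff φ hφ, ?_⟩
  · intro c hc
    exact (h2 ⊥ c).mpr hc
  · intro c hc
    have h3 : c ∈ Submodule.map (push E φ hφ) (ratOn k E n (⊥ : Ideal B)) := by
      rw [← ratOn_eq hL φ hφ ⊥]
      exact hc
    obtain ⟨c', -, rfl⟩ := h3
    exact (supp_iff φ hφ _).mpr ⟨c', rfl⟩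

end CUB
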