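import Pool.Agent.CUB.StmtsA

/-!
# CUB: elementary properties of `ratOn`
-/

set_option autoImplicit false

namespace CUB

theorem t_RON : S_RON := by
  intro k A E _ _ _ _ n I J hIJ
  unfold ratOn
  apply Submodule.span_mono
  rintro c ⟨q, a, hJ, ha, hc⟩
  exact ⟨q, a, le_trans hIJ hJ, ha, hc⟩

end CUB
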