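import Pool.Agent.CUB.StmtsA

/-!
# CUB, VRL: the varieties `y ^ 2 - y = ∑ t_j f_j` away from one of the functions
-/

set_option autoImplicit false

open Polynomial

namespace CUB

namespace VRL

variable {k R S B : Type} [Field k] [CommRing R] [CommRing S] [CommRing B]
  [Algebra k R] [Algebra k S] [Algebra k B] {m : ℕ}

/-- The image of the variable `t_j`. -/
noncomputable def var (f : Fin (m + 1) → R) (l : Fin (m + 1)) (σ : R →ₐ[k] S) (u : S) :
    Fin (m + 1) → (MvPolynomial (Fin m) S)[X] :=
  l.insertNth ((X ^ 2 - X - ∑ j : Fin m, C (MvPolynomial.X j) *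
    C (MvPolynomial.C (σ (f (l.succAbove j))))) * C (MvPolynomial.C u))
    (fun j => C (MvPolynomial.X j))

/-- The homomorphism on the base. -/
noncomputable def psi (f : Fin (m + 1) → R) (l : Fin (m + 1)) (σ : R →ₐ[k] S) (u : S) :
    MvPolynomial (Fin (m + 1)) R →ₐ[k] (MvPolynomial (Fin m) S)[X] :=
  { MvPolynomial.eval₂Hom
      (((C : MvPolynomial (Fin m) S →+* _).comp MvPolynomial.C).comp σ.toRingHom)
      (var f l σ u) with
    commutes' := by
      intro c
      show MvPolynomial.eval₂Hom _ _ (MvPolynomial.C (algebraMap k R c)) = _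
      rw [MvPolynomial.eval₂Hom_C]
      show C (MvPolynomial.C (σ (algebraMap k R c))) = _
      rw [AlgHom.commutes]
      rfl }

theorem psi_C (f : Fin (m + 1) → R) (l : Fin (m + 1)) (σ : R →ₐ[k] S) (u : S) (r : R) :
    psi f l σ u (MvPolynomial.C r) = C (MvPolynomial.C (σ r)) :=
  MvPolynomial.eval₂Hom_C _ _ _

theorem psi_X (f : Fin (m + 1) → R) (l : Fin (m + 1)) (σ : R →ₐ[k] S) (u : S)
    (j : Fin (m + 1)) : psi f l σ u (MvPolynomial.X j) = var f l σ u j :=
  MvPolynomial.eval₂Hom_X' _ _ _

theorem psi_lin (f : Fin (m + 1) → R) (l : Fin (m + 1)) (σ : R →ₐ[k] S) (u : S)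
    (hu : σ (f l) * u = 1) :
    (X : (MvPolynomial (Fin m) S)[X]) ^ 2 - X = psi f l σ u (lin f) := by
  unfold lin
  rw [map_sum, Fin.sum_univ_succAbove _ l]
  simp only [map_mul, psi_C, psi_X, var, Fin.insertNth_apply_same, Fin.insertNth_apply_succAbove]
  have h : (C (MvPolynomial.C (σ (f l))) : (MvPolynomial (Fin m) S)[X]) *
      C (MvPolynomial.C u) = 1 := by
    rw [← C_mul, ← MvPolynomial.C_mul, hu, MvPolynomial.C_1, C_1]
  have h2 : (X ^ 2 - X - ∑ j : Fin m, C (MvPolynomial.X j) *
    C (MvPolynomial.C (σ (f (l.succAbove j)))) : (MvPolynomial (Fin m) S)[X]) *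
      C (MvPolynomial.C u) * C (MvPolynomial.C (σ (f l))) =
      X ^ 2 - X - ∑ j : Fin m, C (MvPolynomial.X j) *
        C (MvPolynomial.C (σ (f (l.succAbove j)))) := by
    rw [mul_assoc, mul_comm (C (MvPolynomial.C u)), h, mul_one]
  rw [h2]
  ring

end VRL

open VRL in
theorem t_VRL : S_VRL := by
  intro k R S B _ _ _ _ _ _ _ m f l σ φ hS hB
  letI aS : Algebra R S := σ.toRingHom.toAlgebra
  letI aB : Algebra (VR R f) B := φ.toRingHom.toAlgebra
  haveI iS : IsLocalization.Away (f l) S := hS
  haveI iB : IsLocalization.Away (VRbase (k := k) f (f l)) B := hB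
  have algS : ∀ r : R, algebraMap R S r = σ r := fun r => rfl
  have algB : ∀ b : VR R f, algebraMap (VR R f) B b = φ b := fun b => rfl
  -- the inverse of `f l`
  obtain ⟨u, hu⟩ : ∃ u : S, σ (f l) * u = 1 := by
    have h := IsLocalization.Away.algebraMap_isUnit (S := S) (f l)
    obtain ⟨w, hw⟩ := h
    refine ⟨((w⁻¹ : Sˣ) : S), ?_⟩
    rw [← algS, ← hw]
    exact w.mul_inv
  -- the homomorphism from the double cover
  let α : VR R f →ₐ[k] (MvPolynomial (Fin m) S)[X] := Qlift (psi f l σ u) X (psi_lin f l σ u hu)
  have α_base : ∀ t : MvPolynomial (Fin (m + 1)) R,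
      α (algebraMap (MvPolynomial (Fin (m + 1)) R) (VR R f) t) = psi f l σ u t :=
    fun t => Qlift_algebraMap _ _ _ _
  have α_yy : α (yy (lin f)) = X := Qlift_yy _ _ _
  have base_eq : ∀ r : R, VRbase (k := k) f r =
      algebraMap (MvPolynomial (Fin (m + 1)) R) (VR R f) (MvPolynomial.C r) := fun r => rfl
  have α_R : ∀ r : R, α (VRbase (k := k) f r) = C (MvPolynomial.C (σ r)) := by
    intro r
    rw [base_eq, α_base, psi_C]
  have hunit : IsUnit (α.toRingHom (VRbase (k := k) f (f l))) := by
    refine isUnit_iff_exists_inv.2 ⟨C (MvPolynomial.C u), ?_⟩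
    show α (VRbase (k := k) f (f l)) * _ = 1
    rw [α_R, ← C_mul, ← MvPolynomial.C_mul, hu, MvPolynomial.C_1, C_1]
  let E : B →+* (MvPolynomial (Fin m) S)[X] :=
    IsLocalization.Away.lift (VRbase (k := k) f (f l)) hunit
  have hE : ∀ b : VR R f, E (φ b) = α b := fun b =>
    IsLocalization.Away.lift_eq (VRbase (k := k) f (f l)) hunit b
  -- the inverse
  have hunit2 : IsUnit ((φ.toRingHom.comp (VRbase (k := k) f).toRingHom) (f l)) :=
    IsLocalization.Away.algebraMap_isUnit (S := B) (VRbase (k := k) f (f l))
  let γ : S →+* B := IsLocalization.Away.lift (f l) hunit2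
  have hγ : ∀ r : R, γ (σ r) = φ (VRbase (k := k) f r) := fun r =>
    IsLocalization.Away.lift_eq (f l) hunit2 r
  let G : MvPolynomial (Fin m) S →+* B := MvPolynomial.eval₂Hom γ (fun j =>
    φ (algebraMap (MvPolynomial (Fin (m + 1)) R) (VR R f) (MvPolynomial.X (l.succAbove j))))
  have G_C : ∀ s : S, G (MvPolynomial.C s) = γ s := fun s => MvPolynomial.eval₂Hom_C _ _ _
  have G_X : ∀ j : Fin m, G (MvPolynomial.X j) =
      φ (algebraMap (MvPolynomial (Fin (m + 1)) R) (VR R f) (MvPolynomial.X (l.succAbove j))) :=
    fun j => MvPolynomial.eval₂Hom_X' _ _ _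
  let β : (MvPolynomial (Fin m) S)[X] →+* B := Polynomial.eval₂RingHom G (φ (yy (lin f)))
  have β_C : ∀ p : MvPolynomial (Fin m) S, β (C p) = G p := fun p => Polynomial.eval₂_C _ _
  have β_X : β X = φ (yy (lin f)) := Polynomial.eval₂_X _ _
  -- β ∘ α = φ
  have key1 : ∀ t : MvPolynomial (Fin (m + 1)) R,
      β (psi f l σ u t) = φ (algebraMap (MvPolynomial (Fin (m + 1)) R) (VR R f) t) := by
    have h : (β.comp (psi f l σ u).toRingHom) =
        φ.toRingHom.comp (algebraMap (MvPolynomial (Fin (m + 1)) R) (VR R f)) := by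
      apply MvPolynomial.ringHom_ext
      · intro r
        show β (psi f l σ u (MvPolynomial.C r)) = φ (VRbase (k := k) f r)
        rw [psi_C, β_C, G_C, hγ]
      · intro j
        show β (psi f l σ u (MvPolynomial.X j)) =
          φ (algebraMap (MvPolynomial (Fin (m + 1)) R) (VR R f) (MvPolynomial.X j))
        rw [psi_X]
        rcases Fin.eq_self_or_eq_succAbove l j with rfl | ⟨i, rfl⟩
        · rw [var, Fin.insertNth_apply_same, map_mul, β_C, G_C, map_sub, map_sub, map_pow, β_X,
            map_sum]
          simp only [map_mul, β_C, G_C, G_X, hγ]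
          have h1 : γ u * φ (VRbase (k := k) f (f j)) = 1 := by
            rw [← hγ, ← map_mul, mul_comm, hu, map_one]
          have h2 := congrArg φ (yy_eq (lin f))
          rw [map_sub, map_sub, map_pow, map_zero] at h2
          have h3 : φ (algebraMap (MvPolynomial (Fin (m + 1)) R) (VR R f) (lin f)) =
              φ (algebraMap (MvPolynomial (Fin (m + 1)) R) (VR R f) (MvPolynomial.X j)) *
                φ (VRbase (k := k) f (f j)) +
              ∑ i : Fin m, φ (algebraMap (MvPolynomial (Fin (m + 1)) R) (VR R f)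
                (MvPolynomial.X (j.succAbove i))) *
                φ (VRbase (k := k) f (f (j.succAbove i))) := by
            have e1 : algebraMap (MvPolynomial (Fin (m + 1)) R) (VR R f) (lin f) =
                algebraMap (MvPolynomial (Fin (m + 1)) R) (VR R f) (MvPolynomial.X j) *
                  VRbase (k := k) f (f j) +
                ∑ i : Fin m, algebraMap (MvPolynomial (Fin (m + 1)) R) (VR R f)
                  (MvPolynomial.X (j.succAbove i)) * VRbase (k := k) f (f (j.succAbove i)) := by
              simp only [base_eq, ← map_mul, ← map_sum, ← map_add]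
              congr 1
              exact Fin.sum_univ_succAbove _ j
            rw [e1, map_add, map_mul, map_sum]
            congr 1
            exact Finset.sum_congr rfl fun i _ => map_mul _ _ _
          rw [h3] at h2
          have h4 : φ (yy (lin f)) ^ 2 - φ (yy (lin f)) -
              ∑ i : Fin m, φ (algebraMap (MvPolynomial (Fin (m + 1)) R) (VR R f)
                (MvPolynomial.X (j.succAbove i))) *
                φ (VRbase (k := k) f (f (j.succAbove i))) =
              φ (algebraMap (MvPolynomial (Fin (m + 1)) R) (VR R f) (MvPolynomial.X j)) *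
                φ (VRbase (k := k) f (f j)) := by
            linear_combination h2
          rw [h4, mul_assoc, mul_comm (φ (VRbase (k := k) f (f j))), h1, mul_one]
        · rw [var, Fin.insertNth_apply_succAbove, β_C, G_X]
    intro t
    exact RingHom.congr_fun h t
  have key2 : ∀ b : VR R f, β (α b) = φ b := by
    intro b
    obtain ⟨p, q, rfl⟩ := Q_span b
    rw [map_add, map_mul, α_base, α_base, α_yy, map_add, map_mul, key1, key1, β_X, map_add,
      map_mul]
  have key3 : ∀ b : B, β (E b) = b := by
    have h : β.comp E = RingHom.id B := by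
      apply IsLocalization.ringHom_ext (Submonoid.powers (VRbase (k := k) f (f l)))
      refine RingHom.ext fun b => ?_
      show β (E (φ b)) = φ b
      rw [hE, key2]
    intro b
    exact RingHom.congr_fun h b
  have key4 : ∀ s : S, E (γ s) = C (MvPolynomial.C s) := by
    have h : E.comp γ = (C : MvPolynomial (Fin m) S →+* _).comp MvPolynomial.C := by
      apply IsLocalization.ringHom_ext (Submonoid.powers (f l))
      refine RingHom.ext fun r => ?_
      show E (γ (σ r)) = C (MvPolynomial.C (σ r))
      rw [hγ, hE, α_R]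
    intro s
    exact RingHom.congr_fun h s
  have key5 : ∀ j : Fin m, E (φ (algebraMap (MvPolynomial (Fin (m + 1)) R) (VR R f)
      (MvPolynomial.X (l.succAbove j)))) = C (MvPolynomial.X j) := by
    intro j
    rw [hE, α_base, psi_X, var, Fin.insertNth_apply_succAbove]
  have key6 : ∀ p : (MvPolynomial (Fin m) S)[X], E (β p) = p := by
    have h : E.comp β = RingHom.id _ := by
      apply Polynomial.ringHom_ext'
      · apply MvPolynomial.ringHom_ext
        · intro s
          show E (β (C (MvPolynomial.C s))) = C (MvPolynomial.C s)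
          rw [β_C, G_C, key4]
        · intro j
          show E (β (C (MvPolynomial.X j))) = C (MvPolynomial.X j)
          rw [β_C, G_X, key5]
      · show E (β X) = X
        rw [β_X, hE, α_yy]
    intro p
    exact RingHom.congr_fun h p
  let e : B ≃+* (MvPolynomial (Fin m) S)[X] :=
    { E with
      invFun := β
      left_inv := key3
      right_inv := key6 }
  refine ⟨AlgEquiv.ofRingEquiv (f := e) ?_, ?_, ?_, ?_⟩
  · intro c
    show E (algebraMap k B c) = _
    rw [← φ.commutes, hE, α.commutes]
  · intro r
    show E (φ (VRbase (k := k) f r)) = _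
    rw [hE, α_R]
  · exact key5
  · show E (φ (yy (lin f))) = X
    rw [hE, α_yy]

end CUB
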