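import Pool.Agent.CUB.StmtsB

/-!
# CUB, block B: existence of the specialisation at infinity of a cycle (S_B1)
-/

set_option autoImplicit false

open Polynomial

namespace CUB

namespace B1

/-- The length at a prime of the quotient by the unit ideal is zero. -/
lemma len_top {A : Type} [CommRing A] (p : PrimeSpectrum A) : len (⊤ : Ideal A) p = 0 := by
  unfold len
  rw [Ideal.map_top]
  have h : Subsingleton (Localization.AtPrime p.asIdeal ⧸
      (⊤ : Ideal (Localization.AtPrime p.asIdeal))) := by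
    infer_instance
  rw [Module.length_eq_zero]
  rfl

/-- Evaluation at `0`, as a homomorphism of `k`-algebras. -/
noncomputable def ev0 (k R : Type) [Field k] [CommRing R] [Algebra k R] : R[X] →ₐ[k] R :=
  evs (AlgHom.id k R) 0

lemma ev0_toRingHom (k R : Type) [Field k] [CommRing R] [Algebra k R] :
    (ev0 k R).toRingHom = evalRingHom (0 : R) := rfl

lemma ev0_surjective (k R : Type) [Field k] [CommRing R] [Algebra k R] :
    Function.Surjective (ev0 k R) := fun r => ⟨C r, evs_C _ _ _⟩

lemma pushP_injective {k A B : Type} [Field k] [CommRing A] [CommRing B] [Algebra k A]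
    [Algebra k B] {n : ℕ} (φ : A →ₐ[k] B) (hφ : Function.Surjective φ) :
    Function.Injective (pushP (n := n) φ hφ) := by
  intro P P' h
  have h1 : PrimeSpectrum.comap φ.toRingHom P.1 = PrimeSpectrum.comap φ.toRingHom P'.1 :=
    congrArg Subtype.val h
  exact Subtype.ext (PrimeSpectrum.comap_injective_of_surjective φ.toRingHom hφ h1)

/-- The specialisation at infinity of one subvariety. -/
lemma one (hDVX : S_DVX) (hINFA : S_INFA) (hINFD : S_INFD) (k R E : Type) [Field k]
    [CommRing R] [Algebra k R] [Algebra.FiniteType k R] [Field E] (n : ℕ)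
    (z : RP k R[X] (n + 1)) :
    ∃ d : RP k R n →₀ E, ∀ p : RP k R n, d p = (bet z.1.asIdeal p.1 : E) := by
  by_cases hX : (X : R[X]) ∈ z.1.asIdeal
  · refine ⟨0, fun p => ?_⟩
    have h1 : infI z.1.asIdeal = ⊤ := hINFA.2.1 R z.1.asIdeal hX
    have h2 : bet z.1.asIdeal p.1 = 0 := by
      unfold bet
      rw [h1, top_sup_eq]
      exact len_top _
    rw [h2]
    simp
  · obtain ⟨hi, hXi, -⟩ := hINFA.2.2.1 R z.1.asIdeal z.1.isPrime hX
    have h1 : rdim k (⟨infI z.1.asIdeal, hi⟩ : PrimeSpectrum R[X]) = ((n + 1 : ℕ) : Cardinal) :=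
      (hINFD k R z.1.asIdeal z.1.isPrime hi hX).trans z.2
    obtain ⟨c, hc⟩ := hDVX k R[X] E n ⟨⟨infI z.1.asIdeal, hi⟩, h1⟩ X hXi
    refine ⟨Finsupp.comapDomain (pushP (n := n) (ev0 k R) (ev0_surjective k R)) c
      (pushP_injective _ _).injOn, fun p => ?_⟩
    rw [Finsupp.comapDomain_apply]
    exact hc (pushP (ev0 k R) (ev0_surjective k R) p)

end B1

theorem t_B1 : M_B1 := by
  intro hDVX hINFA hINFD k R E _ _ _ _ _ n c
  choose D hD using fun z : RP k R[X] (n + 1) => B1.one hDVX hINFA hINFD k R E n z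
  refine ⟨c.sum (fun z e => e • D z), fun p => ?_⟩
  rw [Finsupp.sum_apply]
  refine Finsupp.sum_congr fun z _ => ?_
  rw [Finsupp.smul_apply, smul_eq_mul, hD z p]

end CUB
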