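import Pool.Agent.CUB.StmtsB

/-!
# CUB, module B2: the specialisation at infinity of a pull-back
-/

set_option autoImplicit false

open Polynomial

namespace CUB

namespace B2

/-- the extension of a prime to the polynomial ring -/
noncomputable def extp {R : Type} [CommRing R] (p : PrimeSpectrum R) : PrimeSpectrum R[X] :=
  ⟨p.asIdeal.map (C : R →+* R[X]), haveI := p.isPrime; Ideal.isPrime_map_C_of_isPrime⟩

/-- the residue ring of the extension of a prime -/
noncomputable def eqv (k : Type) {R : Type} [Field k] [CommRing R] [Algebra k R] (I : Ideal R) :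
    (R ⧸ I)[X] ≃ₐ[k] (R[X] ⧸ I.map (C : R →+* R[X])) :=
  AlgEquiv.ofRingEquiv (f := Ideal.polynomialQuotientEquivQuotientPolynomial I) (by
    intro r
    have h1 : algebraMap k (R ⧸ I)[X] r = (C (algebraMap k R r)).map (Ideal.Quotient.mk I) := by
      rw [Polynomial.map_C]
      rfl
    rw [h1, Ideal.polynomialQuotientEquivQuotientPolynomial_map_mk]
    rfl)

theorem rdim_extp (k : Type) {R : Type} [Field k] [CommRing R] [Algebra k R]
    (p : PrimeSpectrum R) : rdim k (extp p) = rdim k p + 1 := by
  unfold rdim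
  have h1 : Algebra.trdeg k (R[X] ⧸ (extp p).asIdeal) = Algebra.trdeg k (R ⧸ p.asIdeal)[X] :=
    (AlgEquiv.trdeg_eq (eqv k p.asIdeal)).symm
  rw [h1]
  have h2 := trdeg_add_eq k (R ⧸ p.asIdeal) (A := (R ⧸ p.asIdeal)[X])
  rw [Polynomial.trdeg_of_isDomain] at h2
  exact h2.symm

theorem comap_extp (k : Type) {R : Type} [Field k] [CommRing R] [Algebra k R]
    (p : PrimeSpectrum R) : PrimeSpectrum.comap (CC k R).toRingHom (extp p) = p := by
  apply PrimeSpectrum.ext
  ext x
  change C x ∈ p.asIdeal.map (C : R →+* R[X]) ↔ x ∈ p.asIdeal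
  rw [Ideal.mem_map_C_iff]
  constructor
  · intro h
    simpa using h 0
  · intro h n
    rw [Polynomial.coeff_C]
    split_ifs
    · exact h
    · exact p.asIdeal.zero_mem

/-- a prime of the polynomial ring whose maximal ideal is generated by the primes below is
extended -/
theorem eq_extp (k : Type) {R : Type} [Field k] [CommRing R] [Algebra k R]
    (z : PrimeSpectrum R[X])
    (h : IsLocalRing.maximalIdeal (Localization.AtPrime z.asIdeal) ≤
      (PrimeSpectrum.comap (CC k R).toRingHom z).asIdeal.map
        ((algebraMap R[X] (Localization.AtPrime z.asIdeal)).comp (CC k R).toRingHom)) :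
    z = extp (PrimeSpectrum.comap (CC k R).toRingHom z) := by
  apply PrimeSpectrum.ext
  apply le_antisymm
  · intro x hx
    have h1 : algebraMap R[X] (Localization.AtPrime z.asIdeal) x ∈
        IsLocalRing.maximalIdeal (Localization.AtPrime z.asIdeal) :=
      (IsLocalization.AtPrime.to_map_mem_maximal_iff (Localization.AtPrime z.asIdeal)
        z.asIdeal x).mpr hx
    have h2 := h h1
    rw [← Ideal.map_map, IsLocalization.algebraMap_mem_map_algebraMap_iff
      z.asIdeal.primeCompl] at h2
    obtain ⟨m, hm, hmx⟩ := h2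
    have h3 : m * x ∈ (extp (PrimeSpectrum.comap (CC k R).toRingHom z)).asIdeal := hmx
    rcases (extp (PrimeSpectrum.comap (CC k R).toRingHom z)).isPrime.mem_or_mem h3 with h4 | h4
    · exfalso
      apply hm
      have h5 : (extp (PrimeSpectrum.comap (CC k R).toRingHom z)).asIdeal ≤ z.asIdeal := by
        change Ideal.map (C : R →+* R[X]) _ ≤ _
        rw [Ideal.map_le_iff_le_comap]
        exact fun y hy => hy
      exact h5 h4
    · exact h4
  · change Ideal.map (C : R →+* R[X]) _ ≤ _
    rw [Ideal.map_le_iff_le_comap]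
    exact fun y hy => hy

end B2

/-- The specialisation at infinity of a pull-back. -/
theorem t_B2 : M_B2 := by
  intro _ hGX hBETF k R E _ _ _ _ _ n c d hd p
  classical
  have hz0 : rdim k (B2.extp p.1) = ((n + 1 : ℕ) : Cardinal) := by
    rw [B2.rdim_extp, p.2]
    push_cast
    rfl
  let z0 : RP k R[X] (n + 1) := ⟨B2.extp p.1, hz0⟩
  have hd0 : d z0 = c p := by
    have h1 : rdim k (PrimeSpectrum.comap (CC k R).toRingHom z0.1) = n := by
      change rdim k (PrimeSpectrum.comap (CC k R).toRingHom (B2.extp p.1)) = n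
      rw [B2.comap_extp]
      exact p.2
    rw [(hd z0).1 h1]
    congr 1
    exact Subtype.ext (B2.comap_extp k p.1)
  have hb0 : bet z0.1.asIdeal p.1 = 1 := by
    have h1 := hBETF.1 k R n p p
    rw [if_pos rfl] at h1
    exact h1
  rw [Finsupp.sum, Finset.sum_eq_single z0]
  · rw [hd0, hb0, Nat.cast_one, mul_one]
  · intro z hz hne
    have hdz : d z ≠ 0 := Finsupp.mem_support_iff.mp hz
    have h1 : rdim k (PrimeSpectrum.comap (CC k R).toRingHom z.1) = n := by
      by_contra h
      exact hdz ((hd z).2 h)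
    have h2 : z.1 = B2.extp (PrimeSpectrum.comap (CC k R).toRingHom z.1) := by
      apply B2.eq_extp
      apply ((hGX.1 k R).at' z.1).2
      rw [z.2]
      change ((n + 1 : ℕ) : Cardinal) = rdim k (PrimeSpectrum.comap (CC k R).toRingHom z.1) + (1 : ℕ)
      rw [h1]
      push_cast
      rfl
    have h3 := hBETF.1 k R n ⟨PrimeSpectrum.comap (CC k R).toRingHom z.1, h1⟩ p
    have h4 : (⟨PrimeSpectrum.comap (CC k R).toRingHom z.1, h1⟩ : RP k R n) ≠ p := by
      intro h
      apply hne
      apply Subtype.ext
      rw [h2]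
      have h5 : PrimeSpectrum.comap (CC k R).toRingHom z.1 = p.1 := congrArg Subtype.val h
      rw [h5]
    have h5 : bet z.1.asIdeal p.1 = 0 := by
      rw [h2]
      exact h3.trans (if_neg h4)
    rw [h5, Nat.cast_zero, mul_zero]
  · intro hz
    rw [Finsupp.notMem_support_iff.mp hz, zero_mul]

end CUB
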