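import Pool.Agent.CUB.StmtsB

/-!
# CUB, module B3: specialisation at infinity preserves rational equivalence
-/

set_option autoImplicit false

open Polynomial

namespace CUB

namespace B3

variable {k R : Type} [Field k] [CommRing R] [Algebra k R]

/-- The homomorphism from `R[X]` to the fraction field of the residue ring of the prime `q`. -/
noncomputable def psi (q : Ideal R[X]) [q.IsPrime] : R[X] →ₐ[k] FractionRing (R[X] ⧸ q) :=
  (IsScalarTower.toAlgHom k (R[X] ⧸ q) (FractionRing (R[X] ⧸ q))).comp (Ideal.Quotient.mkₐ k q)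

lemma psi_apply (q : Ideal R[X]) [q.IsPrime] (P : R[X]) :
    psi (k := k) q P = algebraMap (R[X] ⧸ q) (FractionRing (R[X] ⧸ q)) (Ideal.Quotient.mk q P) :=
  rfl

lemma psi_zero (q : Ideal R[X]) [q.IsPrime] (P : R[X]) : psi (k := k) q P = 0 ↔ P ∈ q := by
  rw [psi_apply]
  constructor
  · intro h
    have h1 := IsFractionRing.injective (R[X] ⧸ q) (FractionRing (R[X] ⧸ q))
      (h.trans (map_zero _).symm)
    exact Ideal.Quotient.eq_zero_iff_mem.mp h1
  · intro h
    rw [Ideal.Quotient.eq_zero_iff_mem.mpr h, map_zero]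

lemma psi_evs (q : Ideal R[X]) [q.IsPrime] :
    evs ((psi (k := k) q).comp (CC k R)) (psi (k := k) q X) = psi (k := k) q :=
  (evs_unique _ _ (psi (k := k) q) (fun _ => rfl) rfl).symm

lemma psi_frac (q : Ideal R[X]) [q.IsPrime] (x : FractionRing (R[X] ⧸ q)) :
    ∃ A B : R[X], psi (k := k) q B ≠ 0 ∧ x * psi (k := k) q B = psi (k := k) q A := by
  obtain ⟨⟨a, b⟩, hab⟩ := IsLocalization.surj (nonZeroDivisors (R[X] ⧸ q)) x
  obtain ⟨A, rfl⟩ := Ideal.Quotient.mk_surjective a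
  obtain ⟨B, hB⟩ := Ideal.Quotient.mk_surjective (b : R[X] ⧸ q)
  refine ⟨A, B, ?_, ?_⟩
  · intro h0
    rw [psi_zero] at h0
    have h1 : (b : R[X] ⧸ q) = 0 := by
      rw [← hB]
      exact Ideal.Quotient.eq_zero_iff_mem.mpr h0
    exact nonZeroDivisors.coe_ne_zero b h1
  · rw [psi_apply, psi_apply, hB]
    exact hab

end B3

open B3 in
theorem t_B3 : M_B3 := by
  intro hB1 hBL hR k R E _ _ _ _ _ _ n I c d hc hd
  unfold ratOn at hc
  refine Submodule.span_induction
    (p := fun c _ => ∀ d : RP k R n →₀ E, IsBeta k E c d → d ∈ ratOn k E n I)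
    ?_ ?_ ?_ ?_ hc d hd
  · rintro c ⟨q, P, hI, hP, hDv⟩ d hd
    have hq : q.1.asIdeal.IsPrime := q.1.isPrime
    obtain ⟨D, hD1, -, hD3⟩ := hR k R (FractionRing (R[X] ⧸ q.1.asIdeal)) E n
      ((psi (k := k) q.1.asIdeal).comp (CC k R))
    obtain ⟨h, hsum⟩ := hD3 (psi (k := k) q.1.asIdeal X) P q c d
      (by
        intro x
        rw [psi_evs]
        exact psi_frac q.1.asIdeal x)
      (by
        rw [psi_evs]
        ext Q
        exact (psi_zero q.1.asIdeal Q).symm)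
      hP hDv hd
    rw [hsum]
    refine Submodule.sum_mem _ fun O _ => hD1 O _ _ I fun r hr => Or.inl ?_
    change psi (k := k) q.1.asIdeal (C r) = 0
    rw [psi_zero]
    exact hI (Ideal.mem_map_of_mem (CC k R).toRingHom hr)
  · intro d hd
    obtain ⟨h1, -, -, -, h0⟩ := hBL k R E n 0 0 d d 0 hd hd
    have h2 := (hBL k R E n 0 0 d 0 0 hd h0).1 rfl
    rw [h2]
    exact Submodule.zero_mem _
  · intro x y _ _ hx hy d hd
    obtain ⟨dx, hdx⟩ := hB1 k R E n x
    obtain ⟨dy, hdy⟩ := hB1 k R E n y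
    obtain ⟨-, hadd, -, -, -⟩ := hBL k R E n x y dx dy 0 hdx hdy
    have h2 := (hBL k R E n (x + y) (x + y) d (dx + dy) 0 hd hadd).1 rfl
    rw [h2]
    exact Submodule.add_mem _ (hx dx hdx) (hy dy hdy)
  · intro a x _ hx d hd
    obtain ⟨dx, hdx⟩ := hB1 k R E n x
    obtain ⟨-, -, -, hsm, -⟩ := hBL k R E n x x dx dx a hdx hdx
    have h2 := (hBL k R E n (a • x) (a • x) d (a • dx) 0 hd hsm).1 rfl
    rw [h2]
    exact Submodule.smul_mem _ _ (hx dx hdx)

end CUB
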