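import Pool.Agent.CUB.StmtsB

/-!
# CUB: the specialisation at infinity is invariant under `X ↦ u X`
-/

set_option autoImplicit false

open Polynomial

namespace CUB

namespace B4

/-- The multiplicity of the specialisation of the image of `z` under the inverse of `X ↦ u X`. -/
theorem bet_symm (hB : S_BETF) {k R : Type} [Field k] [CommRing R] [Algebra k R] (u : Rˣ)
    (z : Ideal R[X]) (p : PrimeSpectrum R) :
    bet (z.comap ((mu (k := k) u).symm : R[X] →ₐ[k] R[X]).toRingHom) p = bet z p := by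
  have h := hB.2.2.2 k R u (z.comap ((mu (k := k) u).symm : R[X] →ₐ[k] R[X]).toRingHom) p
  rw [← h]
  congr 1
  ext x
  show (mu (k := k) u).symm ((mu (k := k) u) x) ∈ z ↔ x ∈ z
  rw [(mu (k := k) u).symm_apply_apply]

end B4

theorem t_B4 : M_B4 := by
  intro hP hB k R E _ _ _ _ _ n u c d e hpull hbeta p
  have hd : push E ((mu (k := k) u).symm : R[X] →ₐ[k] R[X]) (mu (k := k) u).symm.surjective c = d :=
    (hP.2 k R[X] R[X] E (n + 1) (mu (k := k) u) c d).1 hpull
  rw [hbeta p, ← hd]
  show _ = (Finsupp.mapDomain (pushP (n := n + 1) ((mu (k := k) u).symm : R[X] →ₐ[k] R[X])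
    (mu (k := k) u).symm.surjective) c).sum (fun z e => e * (bet z.1.asIdeal p.1 : E))
  rw [Finsupp.sum_mapDomain_index (fun _ => by rw [zero_mul]) (fun _ _ _ => add_mul _ _ _)]
  refine Finsupp.sum_congr fun z _ => ?_
  have h2 := B4.bet_symm hB (k := k) u z.1.asIdeal p.1
  rw [← h2]
  rfl

end CUB
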