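import Pool.Agent.CUB.StmtsB

/-!
# CUB, module BETF: functoriality of the specialisation at infinity
-/

set_option autoImplicit false

open Polynomial

namespace CUB

namespace BETF

lemma len_zero {A : Type} [CommRing A] (I : Ideal A) (p : PrimeSpectrum A)
    (h : ¬ I ≤ p.asIdeal) : len I p = 0 := by
  unfold len
  obtain ⟨x, hx, hxp⟩ := Set.not_subset.mp h
  have h1 : I.map (algebraMap A (Localization.AtPrime p.asIdeal)) = ⊤ := by
    apply Ideal.eq_top_of_isUnit_mem _ (Ideal.mem_map_of_mem _ hx)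
    exact IsLocalization.map_units (M := p.asIdeal.primeCompl) _ ⟨x, hxp⟩
  rw [h1]
  have h2 : Subsingleton (Localization.AtPrime p.asIdeal ⧸
      (⊤ : Ideal (Localization.AtPrime p.asIdeal))) := Ideal.Quotient.subsingleton_iff.mpr rfl
  rw [Module.length_eq_zero]
  rfl

lemma len_self {A : Type} [CommRing A] (p : PrimeSpectrum A) : len p.asIdeal p = 1 := by
  unfold len
  rw [Localization.AtPrime.map_eq_maximalIdeal]
  have h : IsSimpleModule (Localization.AtPrime p.asIdeal) (Localization.AtPrime p.asIdeal ⧸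
      IsLocalRing.maximalIdeal (Localization.AtPrime p.asIdeal)) := by
    rw [isSimpleModule_iff_isCoatom]
    exact (IsLocalRing.maximalIdeal.isMaximal _).out
  rw [Module.length_eq_one]
  rfl

/-- the value at zero of the pull-back of the chart -/
lemma mem_ev0 {R : Type} [CommRing R] (p : PrimeSpectrum R) (f : R[X]) :
    f ∈ (PrimeSpectrum.comap (evalRingHom (0 : R)) p).asIdeal ↔ f.eval 0 ∈ p.asIdeal := Iff.rfl

/-- raising the degree of the reflection -/
lemma reflect_mem {S : Type} [CommRing S] (z : Ideal S[X]) (h : S[X]) (N N' : ℕ) (hN : h.natDegree ≤ N)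
    (hNN : N ≤ N') (hz : reflect N h ∈ z) : reflect N' h ∈ z := by
  have h1 := reflect_mul h (1 : S[X]) (F := N) (G := N' - N) hN (by simp)
  rw [mul_one, Nat.add_sub_cancel' hNN] at h1
  rw [h1]
  exact z.mul_mem_right _ hz

section Sup

variable {R S : Type} [CommRing R] [CommRing S]

lemma comap_sup (φ : R[X] →+* S[X]) (hφ : Function.Surjective φ) (v : Sˣ) (hX : φ X = C (v : S) * X)
    (I : Ideal S[X]) : I.comap φ ⊔ Ideal.span {X} = (I ⊔ Ideal.span {X}).comap φ := by
  apply le_antisymm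
  · refine sup_le (Ideal.comap_mono le_sup_left) ?_
    rw [Ideal.span_singleton_le_iff_mem, Ideal.mem_comap, hX]
    exact Ideal.mem_sup_right (Ideal.mul_mem_left _ _ (Ideal.mem_span_singleton_self X))
  · intro f hf
    rw [Ideal.mem_comap, Submodule.mem_sup] at hf
    obtain ⟨a, ha, b, hb, hab⟩ := hf
    obtain ⟨c, rfl⟩ := Ideal.mem_span_singleton'.mp hb
    obtain ⟨d, hd⟩ := hφ (C ((v⁻¹ : Sˣ) : S) * c)
    have h1 : φ (f - d * X) = a := by
      rw [map_sub, map_mul, hX, hd, ← hab]
      have h2 : (C ((v⁻¹ : Sˣ) : S) : S[X]) * C (v : S) = 1 := by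
        rw [← C_mul, Units.inv_mul, C_1]
      linear_combination (-c * X) * h2
    have h3 : f = (f - d * X) + d * X := by ring
    rw [h3]
    refine Submodule.add_mem_sup ?_ ?_
    · rw [Ideal.mem_comap, h1]
      exact ha
    · exact Ideal.mul_mem_left _ _ (Ideal.mem_span_singleton_self X)

end Sup

lemma infI_map {R : Type} [CommRing R] (hI : S_INFA) (p : Ideal R) :
    infI (p.map (C : R →+* R[X])) = p.map C := by
  ext g
  rw [hI.1 R]
  constructor
  · rintro ⟨N, hN, h⟩
    rw [Ideal.mem_map_C_iff] at h ⊢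
    intro i
    have h1 := h (revAt N i)
    rwa [coeff_reflect, revAt_invol] at h1
  · intro h
    refine ⟨g.natDegree, le_rfl, ?_⟩
    rw [Ideal.mem_map_C_iff] at h ⊢
    intro i
    rw [coeff_reflect]
    exact h _

lemma mapC_sup {R : Type} [CommRing R] (p : PrimeSpectrum R) :
    p.asIdeal.map (C : R →+* R[X]) ⊔ Ideal.span {X} = p.asIdeal.comap (evalRingHom (0 : R)) := by
  apply le_antisymm
  · refine sup_le ?_ ?_
    · rw [Ideal.map_le_iff_le_comap]
      intro r hr
      rw [Ideal.mem_comap, Ideal.mem_comap]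
      simpa using hr
    · rw [Ideal.span_singleton_le_iff_mem, Ideal.mem_comap]
      simp
  · intro f hf
    rw [Ideal.mem_comap, coe_evalRingHom] at hf
    rw [← divX_mul_X_add f, add_comm]
    refine Submodule.add_mem_sup ?_ (Ideal.mul_mem_left _ _ (Ideal.mem_span_singleton_self X))
    rw [coeff_zero_eq_eval_zero]
    exact Ideal.mem_map_of_mem _ hf

lemma infI_comap {R S : Type} [CommRing R] [CommRing S] (hI : S_INFA) (ψ : R →+* S) (z : Ideal S[X]) :
    infI (z.comap (mapRingHom ψ)) = (infI z).comap (mapRingHom ψ) := by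
  ext g
  rw [hI.1 R, Ideal.mem_comap, hI.1 S, coe_mapRingHom]
  constructor
  · rintro ⟨N, hN, h⟩
    refine ⟨N, natDegree_map_le.trans hN, ?_⟩
    rw [Ideal.mem_comap, coe_mapRingHom, ← reflect_map] at h
    exact h
  · rintro ⟨N, hN, h⟩
    refine ⟨max N g.natDegree, le_max_right _ _, ?_⟩
    rw [Ideal.mem_comap, coe_mapRingHom, ← reflect_map]
    exact reflect_mem z _ N _ hN (le_max_left _ _) h

lemma coeff_mu {k R : Type} [Field k] [CommRing R] [Algebra k R] (u : Rˣ) (g : R[X]) (i : ℕ) :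
    (mu (k := k) u g).coeff i = (u : R) ^ i * g.coeff i := by
  induction g using Polynomial.induction_on' with
  | add p q hp hq => rw [map_add, coeff_add, hp, hq, coeff_add, mul_add]
  | monomial n a =>
    rw [← C_mul_X_pow_eq_monomial, map_mul, map_pow, mu_C, mu_X, mul_pow, ← C_pow, ← mul_assoc, ← C_mul,
      coeff_C_mul_X_pow, coeff_C_mul_X_pow]
    split_ifs with h
    · rw [h]; ring
    · rw [mul_zero]

lemma natDegree_mu {k R : Type} [Field k] [CommRing R] [Algebra k R] (u : Rˣ) (g : R[X]) :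
    (mu (k := k) u g).natDegree = g.natDegree := by
  apply le_antisymm
  · rw [natDegree_le_iff_coeff_eq_zero]
    intro N hN
    rw [coeff_mu, coeff_eq_zero_of_natDegree_lt hN, mul_zero]
  · rw [natDegree_le_iff_coeff_eq_zero]
    intro N hN
    have h := coeff_mu (k := k) u g N
    rw [coeff_eq_zero_of_natDegree_lt hN] at h
    exact ((u ^ N).mul_right_eq_zero.mp (by rw [Units.val_pow_eq_pow_val]; exact h.symm))

lemma mu_reflect {k R : Type} [Field k] [CommRing R] [Algebra k R] (u : Rˣ) (g : R[X]) (N : ℕ)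
    (hN : g.natDegree ≤ N) : mu (k := k) u (reflect N g) = C ((u : R) ^ N) * reflect N (mu (k := k) u⁻¹ g) := by
  ext i
  rw [coeff_mu, coeff_reflect, coeff_C_mul, coeff_reflect, coeff_mu]
  rcases le_or_gt i N with h | h
  · rw [revAt_le h]
    have e : (u : R) ^ N * ((u⁻¹ : Rˣ) : R) ^ (N - i) = (u : R) ^ i := by
      rw [← Units.val_pow_eq_pow_val, ← Units.val_pow_eq_pow_val, ← Units.val_pow_eq_pow_val, ← Units.val_mul]
      congr 1
      rw [inv_pow, mul_inv_eq_iff_eq_mul, ← pow_add, Nat.add_sub_cancel' h]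
    rw [← mul_assoc, e]
  · rw [revAt_eq_self_of_lt h, coeff_eq_zero_of_natDegree_lt (hN.trans_lt h)]
    simp

lemma infI_mu {k R : Type} [Field k] [CommRing R] [Algebra k R] (hI : S_INFA) (u : Rˣ) (z : Ideal R[X]) :
    infI (z.comap (mu (k := k) u).toRingEquiv.toRingHom) =
      (infI z).comap (mu (k := k) u⁻¹).toRingEquiv.toRingHom := by
  ext g
  rw [hI.1 R, Ideal.mem_comap, hI.1 R]
  have e : ∀ N, g.natDegree ≤ N → (reflect N g ∈ z.comap (mu (k := k) u).toRingEquiv.toRingHom ↔
      reflect N (mu (k := k) u⁻¹ g) ∈ z) := by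
    intro N hN
    rw [Ideal.mem_comap]
    change mu (k := k) u (reflect N g) ∈ z ↔ _
    rw [mu_reflect u g N hN]
    constructor
    · intro h
      have h1 := z.mul_mem_left (C (((u⁻¹ : Rˣ) : R) ^ N)) h
      rw [← mul_assoc, ← C_mul, ← mul_pow, Units.inv_mul, one_pow, C_1, one_mul] at h1
      exact h1
    · exact fun h => z.mul_mem_left _ h
  have hd : (mu (k := k) u⁻¹ g).natDegree = g.natDegree := natDegree_mu _ _
  constructor
  · rintro ⟨N, hN, h⟩
    exact ⟨N, hd.le.trans hN, (e N hN).mp h⟩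
  · rintro ⟨N, hN, h⟩
    have hN' : g.natDegree ≤ N := hd.symm.le.trans hN
    exact ⟨N, hN', (e N hN').mpr h⟩

end BETF

open BETF in
theorem t_BETF : M_BETF := by
  intro hD hL hI
  refine ⟨?_, ?_, ?_, ?_⟩
  · intro k R _ _ _ _ n p p'
    unfold bet
    rw [infI_map hI, mapC_sup]
    have h1 := hL R[X] R (evalRingHom (0 : R)) (fun r => ⟨C r, by simp⟩) p.1.asIdeal p'.1
    rw [h1]
    split_ifs with h
    · rw [h, len_self]
    · refine len_zero _ _ fun hle => ?_
      have h2 : p.1 ≤ p'.1 := hle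
      rcases h2.lt_or_eq with h3 | h3
      · have h4 := (hD k R p.1).2 p'.1 h3
        rw [p.2, p'.2] at h4
        exact lt_irrefl _ h4
      · exact h (Subtype.ext h3)
  · intro R S _ _ ψ hψ z p
    unfold bet
    have hs : Function.Surjective (mapRingHom ψ) := Polynomial.map_surjective ψ hψ
    rw [infI_comap hI, comap_sup (mapRingHom ψ) hs 1 (by simp)]
    have h1 : PrimeSpectrum.comap (evalRingHom (0 : R)) (PrimeSpectrum.comap ψ p) =
        PrimeSpectrum.comap (mapRingHom ψ) (PrimeSpectrum.comap (evalRingHom (0 : S)) p) := by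
      ext f
      change ψ (f.eval 0) ∈ p.asIdeal ↔ (f.map ψ).eval 0 ∈ p.asIdeal
      rw [← coeff_zero_eq_eval_zero, ← coeff_zero_eq_eval_zero, coeff_map]
    rw [h1]
    exact hL _ _ _ hs _ _
  · intro R S _ _ ψ hψ z p hp
    unfold bet
    obtain ⟨r, hr, hrp⟩ := Set.not_subset.mp hp
    refine len_zero _ _ fun hle => hrp ?_
    have h1 : (C r : R[X]) ∈ infI (z.comap (mapRingHom ψ)) := by
      rw [hI.1 R]
      refine ⟨0, by simp, ?_⟩
      rw [Ideal.mem_comap, coe_mapRingHom, reflect_C, pow_zero, mul_one, map_C, RingHom.mem_ker.mp hr, C_0]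
      exact z.zero_mem
    have h2 := hle (Ideal.mem_sup_left h1)
    rw [mem_ev0, eval_C] at h2
    exact h2
  · intro k R _ _ _ u z p
    unfold bet
    have hs : Function.Surjective (mu (k := k) u⁻¹).toRingEquiv.toRingHom := (mu (k := k) u⁻¹).surjective
    rw [infI_mu hI, comap_sup (mu (k := k) u⁻¹).toRingEquiv.toRingHom hs u⁻¹ (mu_X (k := k) u⁻¹)]
    have h1 : PrimeSpectrum.comap (evalRingHom (0 : R)) p =
        PrimeSpectrum.comap (mu (k := k) u⁻¹).toRingEquiv.toRingHom
          (PrimeSpectrum.comap (evalRingHom (0 : R)) p) := by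
      ext f
      change f.eval 0 ∈ p.asIdeal ↔ (mu (k := k) u⁻¹ f).eval 0 ∈ p.asIdeal
      rw [← coeff_zero_eq_eval_zero, ← coeff_zero_eq_eval_zero, coeff_mu, pow_zero, one_mul]
    conv_lhs => rw [h1]
    exact hL _ _ _ hs _ _

end CUB
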