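import Pool.Agent.CUB.StmtsB

/-!
# CUB, module BINJ: a cycle on `R[X]` whose specialisation is rationally trivial is rationally trivial
-/

set_option autoImplicit false

open Polynomial

namespace CUB

theorem t_BINJ : M_BINJ := by
  intro hFP hGX hL0 hB2 hB3 hBLIN k R E _ _ _ _ _ _ n c e hce he
  obtain ⟨v, d, hvd, hcd⟩ := (hL0 k R E).1 n c
  have hbot : (⊥ : Ideal R).map (CC k R).toRingHom = ⊥ := Ideal.map_bot
  have hdv : IsBeta k E d v := hB2 k R E n v d hvd
  have hsub : IsBeta k E (c - d) (e - v) := (hBLIN k R E n c d e v 0 hce hdv).2.2.1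
  have hev : e - v ∈ rat k R E n := by
    refine hB3 k R E n ⊥ (c - d) (e - v) ?_ hsub
    rw [hbot]
    exact hcd
  have hv : v ∈ rat k R E n := by
    have h1 : v = e - (e - v) := by abel
    rw [h1]
    exact Submodule.sub_mem _ he hev
  have hgood : Good k 1 (CC k R) := hGX.1 k R
  have hd : d ∈ ratOn k E (n + 1) ((⊥ : Ideal R).map (CC k R).toRingHom) :=
    hFP k R R[X] E 1 n (CC k R) hgood ⊥ v d hvd hv
  rw [hbot] at hd
  have h2 : c = (c - d) + d := by abel
  rw [h2]
  exact Submodule.add_mem _ hcd hd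

end CUB
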