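import Pool.Agent.CUB.StmtsB

/-!
# CUB, block B: BLIN (linearity and uniqueness of the specialisation at infinity)
-/

set_option autoImplicit false

open Polynomial

namespace CUB

namespace BLIN

lemma add {k R E : Type} [Field k] [CommRing R] [Algebra k R] [Field E] {n : ℕ}
    {c c' : RP k R[X] (n + 1) →₀ E} {d d' : RP k R n →₀ E} (h : IsBeta k E c d)
    (h' : IsBeta k E c' d') : IsBeta k E (c + c') (d + d') := by
  intro p
  rw [Finsupp.add_apply, h p, h' p, Finsupp.sum_add_index']
  · intro z
    exact zero_mul _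
  · intro z e₁ e₂
    exact add_mul _ _ _

lemma smul {k R E : Type} [Field k] [CommRing R] [Algebra k R] [Field E] {n : ℕ}
    {c : RP k R[X] (n + 1) →₀ E} {d : RP k R n →₀ E} (x : E) (h : IsBeta k E c d) :
    IsBeta k E (x • c) (x • d) := by
  intro p
  rw [Finsupp.smul_apply, h p, Finsupp.sum_smul_index (fun z => zero_mul _), Finsupp.smul_sum]
  refine Finsupp.sum_congr fun z _ => ?_
  rw [smul_eq_mul, mul_assoc]

lemma zero {k R E : Type} [Field k] [CommRing R] [Algebra k R] [Field E] {n : ℕ} :
    IsBeta k E (0 : RP k R[X] (n + 1) →₀ E) (0 : RP k R n →₀ E) := by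
  intro p
  rw [Finsupp.sum_zero_index]
  rfl

end BLIN

theorem t_BLIN : S_BLIN := by
  intro k R E _ _ _ _ n c c' d d' x h h'
  refine ⟨?_, BLIN.add h h', ?_, BLIN.smul x h, BLIN.zero⟩
  · intro hc
    ext p
    rw [h p, h' p, hc]
  · have := BLIN.add h (BLIN.smul (-1) h')
    rw [neg_one_smul, neg_one_smul, ← sub_eq_add_neg, ← sub_eq_add_neg] at this
    exact this

end CUB
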