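import Pool.Agent.CUB.StmtsB

/-!
# CUB, block B: specialisation commutes with push-forward
-/

set_option autoImplicit false

open Polynomial

namespace CUB

namespace BPU

lemma pushP_injective {k A B : Type} [Field k] [CommRing A] [CommRing B] [Algebra k A]
    [Algebra k B] {n : ℕ} (φ : A →ₐ[k] B) (hφ : Function.Surjective φ) :
    Function.Injective (pushP (n := n) φ hφ) := by
  intro P Q h
  apply Subtype.ext
  apply PrimeSpectrum.comap_injective_of_surjective φ.toRingHom hφ
  exact congrArg Subtype.val h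

lemma exists_pushP {k A B : Type} [Field k] [CommRing A] [CommRing B] [Algebra k A]
    [Algebra k B] {n : ℕ} (φ : A →ₐ[k] B) (hφ : Function.Surjective φ) (p : RP k A n)
    (h : RingHom.ker φ.toRingHom ≤ p.1.asIdeal) : ∃ p' : RP k B n, pushP φ hφ p' = p := by
  have hs : Function.Surjective φ.toRingHom := hφ
  have hpr : (p.1.asIdeal.map φ.toRingHom).IsPrime := Ideal.map_isPrime_of_surjective hs h
  have hc : PrimeSpectrum.comap φ.toRingHom ⟨p.1.asIdeal.map φ.toRingHom, hpr⟩ = p.1 := by
    apply PrimeSpectrum.ext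
    show (p.1.asIdeal.map φ.toRingHom).comap φ.toRingHom = p.1.asIdeal
    rw [Ideal.comap_map_of_surjective _ hs]
    apply sup_eq_left.mpr
    exact h
  refine ⟨⟨⟨p.1.asIdeal.map φ.toRingHom, hpr⟩, ?_⟩, ?_⟩
  · rw [← rdim_comap φ hφ, hc]
    exact p.2
  · exact Subtype.ext hc

end BPU

theorem t_BPU : M_BPU := by
  intro hB k R S E _ _ _ _ _ _ _ _ n ψ hψ c d hcd p
  obtain ⟨_, hB2, hB3, _⟩ := hB
  have hs : Function.Surjective ψ.toRingHom := hψ
  have h1 : (push E (mapX ψ) (mapX_surjective ψ hψ) c).sum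
      (fun z e => e * (bet z.1.asIdeal p.1 : E)) =
      c.sum (fun z e => e * (bet (z.1.asIdeal.comap (mapRingHom ψ.toRingHom)) p.1 : E)) := by
    unfold push
    rw [Finsupp.lmapDomain_apply, Finsupp.sum_mapDomain_index]
    · rfl
    · intro z
      rw [zero_mul]
    · intro z e e'
      rw [add_mul]
  rw [h1]
  by_cases h : RingHom.ker ψ.toRingHom ≤ p.1.asIdeal
  · obtain ⟨p', rfl⟩ := BPU.exists_pushP ψ hψ p h
    have h2 : push E ψ hψ d (pushP ψ hψ p') = d p' := by
      unfold push
      rw [Finsupp.lmapDomain_apply, Finsupp.mapDomain_apply (BPU.pushP_injective ψ hψ)]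
    rw [h2, hcd p']
    refine Finsupp.sum_congr fun z _ => ?_
    congr 2
    exact (hB2 R S ψ.toRingHom hs z.1.asIdeal p'.1).symm
  · have h2 : push E ψ hψ d p = 0 := by
      unfold push
      rw [Finsupp.lmapDomain_apply]
      apply Finsupp.mapDomain_of_notMem_range
      rintro ⟨p', rfl⟩
      apply h
      intro x hx
      show ψ.toRingHom x ∈ p'.1.asIdeal
      rw [RingHom.mem_ker.mp hx]
      exact Ideal.zero_mem _
    rw [h2, Finsupp.sum]
    symm
    apply Finset.sum_eq_zero
    intro z _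
    rw [hB3 R S ψ.toRingHom hs z.1.asIdeal p.1 h]
    simp

end CUB
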