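import Pool.Agent.CUB.StmtsB

/-!
# CUB, module FPD: the flat pull-back of a divisor is a sum of divisors
-/

set_option autoImplicit false
set_option linter.unusedSectionVars false

namespace CUB

namespace FPD

open TensorProduct

/-- elements outside a prime of the base are non zero divisors on flat fibres -/
theorem nzd {A S : Type} [CommRing A] [CommRing S] (f : A →+* S) (hf : f.Flat) (q : Ideal A)
    (hq : q.IsPrime) {s : A} (hs : s ∉ q) :
    Ideal.Quotient.mk (q.map f) (f s) ∈ nonZeroDivisors (S ⧸ q.map f) := by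
  algebraize [f]
  have h1 : IsSMulRegular (A ⧸ q) s := by
    have h0 : Function.Injective (fun x : A ⧸ q => s • x) := by
      intro x y hxy
      obtain ⟨x, rfl⟩ := Ideal.Quotient.mk_surjective x
      obtain ⟨y, rfl⟩ := Ideal.Quotient.mk_surjective y
      have h2 : Ideal.Quotient.mk q (s * x) = Ideal.Quotient.mk q (s * y) := hxy
      rw [Ideal.Quotient.eq, ← mul_sub] at h2
      rw [Ideal.Quotient.eq]
      exact (hq.mem_or_mem h2).resolve_left hs
    exact h0
  have h2 : IsSMulRegular (S ⊗[A] (A ⧸ q)) s := h1.lTensor S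
  let e := Algebra.TensorProduct.quotIdealMapEquivTensorQuot S q
  rw [mem_nonZeroDivisors_iff_right]
  intro x hx
  have h3 : s • e x = s • (0 : S ⊗[A] (A ⧸ q)) := by
    rw [smul_zero]
    have h4 : e (Ideal.Quotient.mk (q.map f) (f s) * x) = 0 := by
      rw [mul_comm]
      exact (congrArg e hx).trans (map_zero e)
    have h5 : Ideal.Quotient.mk (q.map f) (f s) * x = (f s) • x := by
      rw [Algebra.smul_def]
      rfl
    rw [h5] at h4
    have h6 : e ((f s) • x) = (f s) • e x := map_smul e (f s) x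
    rw [h6] at h4
    have h7 : (f s) • e x = s • e x := by
      exact algebraMap_smul S s (e x)
    rw [← h7]
    exact h4
  have h4 : e x = 0 := h2 h3
  exact (map_eq_zero_iff e e.injective).mp h4

/-- surjective homomorphisms, lengths of the quotients -/
theorem length_quot {R S : Type} [CommRing R] [CommRing S] (f : R →+* S)
    (hf : Function.Surjective f) (I : Ideal R) (J : Ideal S) (h : I = J.comap f) :
    Module.length R (R ⧸ I) = Module.length S (S ⧸ J) := by
  let _ : Algebra R S := f.toAlgebra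
  have h1 : Module.length R (S ⧸ J) = Module.length S (S ⧸ J) :=
    Module.length_eq_of_surjective (R := S) (S := R) (M := S ⧸ J) hf
  rw [← h1]
  let g : R →ₐ[R] (S ⧸ J) := Algebra.ofId R (S ⧸ J)
  have hg : ∀ x, g x = Ideal.Quotient.mk J (f x) := fun x => rfl
  have hgs : Function.Surjective g.toLinearMap := by
    intro y
    obtain ⟨z, rfl⟩ := Ideal.Quotient.mk_surjective y
    obtain ⟨x, rfl⟩ := hf z
    exact ⟨x, rfl⟩
  have hk : LinearMap.ker g.toLinearMap = I := by
    ext x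
    rw [LinearMap.mem_ker, h, Ideal.mem_comap]
    have : g.toLinearMap x = Ideal.Quotient.mk J (f x) := rfl
    rw [this, Ideal.Quotient.eq_zero_iff_mem]
  have e := g.toLinearMap.quotKerEquivOfSurjective hgs
  rw [hk] at e
  exact e.length_eq

/-- lengths over a quotient -/
theorem length_mk {S : Type} [CommRing S] (K J : Ideal S) (h : K ≤ J) :
    Module.length S (S ⧸ J) =
      Module.length (S ⧸ K) ((S ⧸ K) ⧸ J.map (Ideal.Quotient.mk K)) :=
  length_quot (Ideal.Quotient.mk K) Ideal.Quotient.mk_surjective J _ (Ideal.comap_map_mk h).symm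

/-- the length of `A_p / I A_p` -/
noncomputable def lenE {A : Type} [CommRing A] (I : Ideal A) (p : PrimeSpectrum A) : ℕ∞ :=
  Module.length (Localization.AtPrime p.asIdeal) (Localization.AtPrime p.asIdeal ⧸
    I.map (algebraMap A (Localization.AtPrime p.asIdeal)))

section Fibre

variable {A B : Type} [CommRing A] [CommRing B] (φ : A →+* B) (q : Ideal A) (P : PrimeSpectrum B)

/-- the ideal of the fibre -/
noncomputable abbrev KK : Ideal (Localization.AtPrime P.asIdeal) :=
  q.map ((algebraMap B (Localization.AtPrime P.asIdeal)).comp φ)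

/-- the local ring of the fibre -/
abbrev CC : Type := Localization.AtPrime P.asIdeal ⧸ KK φ q P

/-- the homomorphism to the local ring of the fibre -/
noncomputable def gg : B →+* CC φ q P :=
  (Ideal.Quotient.mk (KK φ q P)).comp (algebraMap B (Localization.AtPrime P.asIdeal))

theorem gg_apply (b : B) : gg φ q P b = Ideal.Quotient.mk (KK φ q P) (algebraMap B _ b) := rfl

theorem gg_q {x : A} (hx : x ∈ q) : gg φ q P (φ x) = 0 := by
  rw [gg_apply, Ideal.Quotient.eq_zero_iff_mem]
  exact Ideal.mem_map_of_mem ((algebraMap B (Localization.AtPrime P.asIdeal)).comp φ) hx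

theorem gg_mapq {x : B} (hx : x ∈ q.map φ) : gg φ q P x = 0 := by
  have h : q.map φ ≤ RingHom.ker (gg φ q P) := by
    rw [Ideal.map_le_iff_le_comap]
    intro y hy
    exact gg_q φ q P hy
  exact h hx

theorem gg_unit {s : B} (hs : s ∉ P.asIdeal) : IsUnit (gg φ q P s) := by
  have h : IsUnit (algebraMap B (Localization.AtPrime P.asIdeal) s) :=
    IsLocalization.map_units (Localization.AtPrime P.asIdeal) (⟨s, hs⟩ : P.asIdeal.primeCompl)
  exact h.map (Ideal.Quotient.mk (KK φ q P))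

theorem gg_repr (x : CC φ q P) : ∃ b t : B, t ∉ P.asIdeal ∧ gg φ q P t * x = gg φ q P b := by
  obtain ⟨y, rfl⟩ := Ideal.Quotient.mk_surjective x
  obtain ⟨b, t, rfl⟩ := IsLocalization.exists_mk'_eq P.asIdeal.primeCompl y
  refine ⟨b, t.1, t.2, ?_⟩
  rw [gg_apply, gg_apply, ← map_mul, IsLocalization.mk'_spec']

theorem map_comap_gg (I : Ideal (CC φ q P)) : (I.comap (gg φ q P)).map (gg φ q P) = I := by
  apply le_antisymm Ideal.map_comap_le
  intro x hx
  obtain ⟨b, t, ht, h⟩ := gg_repr φ q P x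
  have h1 : gg φ q P b ∈ (I.comap (gg φ q P)).map (gg φ q P) := by
    apply Ideal.mem_map_of_mem
    rw [Ideal.mem_comap, ← h]
    exact I.mul_mem_left _ hx
  rw [← h] at h1
  exact (Ideal.unit_mul_mem_iff_mem _ (gg_unit φ q P ht)).mp h1

theorem comap_le (I : Ideal (CC φ q P)) (hI : I ≠ ⊤) : I.comap (gg φ q P) ≤ P.asIdeal := by
  intro x hx
  by_contra h
  exact hI (Ideal.eq_top_of_isUnit_mem I hx (gg_unit φ q P h))

theorem le_comap (I : Ideal (CC φ q P)) : q.map φ ≤ I.comap (gg φ q P) := by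
  intro x hx
  rw [Ideal.mem_comap, gg_mapq φ q P hx]
  exact I.zero_mem

theorem kk_le {Q : Ideal B} (hq : q.map φ ≤ Q) :
    KK φ q P ≤ Q.map (algebraMap B (Localization.AtPrime P.asIdeal)) := by
  have h := Ideal.map_mono (f := algebraMap B (Localization.AtPrime P.asIdeal)) hq
  rw [Ideal.map_map] at h
  exact h

theorem map_gg (Q : Ideal B) : Q.map (gg φ q P) =
    (Q.map (algebraMap B (Localization.AtPrime P.asIdeal))).map
      (Ideal.Quotient.mk (KK φ q P)) := by
  rw [Ideal.map_map]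
  rfl

theorem prime_map {Q : Ideal B} (hQ : Q.IsPrime) (hq : q.map φ ≤ Q) (hP : Q ≤ P.asIdeal) :
    (Q.map (gg φ q P)).IsPrime ∧ (Q.map (gg φ q P)).comap (gg φ q P) = Q := by
  have hd : Disjoint (P.asIdeal.primeCompl : Set B) Q := by
    rw [Set.disjoint_left]
    intro x hx hx'
    exact hx (hP hx')
  have h1 : (Q.map (algebraMap B (Localization.AtPrime P.asIdeal))).IsPrime :=
    IsLocalization.isPrime_of_isPrime_disjoint P.asIdeal.primeCompl _ _ hQ hd
  have h2 := IsLocalization.under_map_of_isPrime_disjoint P.asIdeal.primeCompl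
    (Localization.AtPrime P.asIdeal) hQ hd
  have hk := kk_le φ q P hq
  constructor
  · rw [map_gg]
    apply Ideal.map_isPrime_of_surjective Ideal.Quotient.mk_surjective
    rw [Ideal.mk_ker]
    exact hk
  · rw [map_gg]
    unfold gg
    rw [← Ideal.comap_comap, Ideal.comap_map_mk hk]
    exact h2

end Fibre

section Local

variable {A B : Type} [CommRing A] [CommRing B] [IsNoetherianRing B] (φ : A →+* B)
  (q : PrimeSpectrum A) (P : PrimeSpectrum B)

/-- the local ring of the fibre is a local ring -/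
theorem local_cc (hqP : q.asIdeal.map φ ≤ P.asIdeal) :
    IsLocalRing (CC φ q.asIdeal P) := by
  have h1 := (prime_map φ q.asIdeal P P.isPrime hqP le_rfl).1
  have hn : Nontrivial (CC φ q.asIdeal P) := by
    by_contra h
    rw [not_nontrivial_iff_subsingleton] at h
    exact h1.ne_top (Subsingleton.elim _ _)
  exact IsLocalRing.of_surjective' (Ideal.Quotient.mk (KK φ q.asIdeal P))
    Ideal.Quotient.mk_surjective

theorem noeth_cc : IsNoetherianRing (CC φ q.asIdeal P) := by
  have hS : IsNoetherianRing (Localization.AtPrime P.asIdeal) :=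
    IsLocalization.isNoetherianRing P.asIdeal.primeCompl _ inferInstance
  infer_instance

theorem comap_max (hqP : q.asIdeal.map φ ≤ P.asIdeal) [IsLocalRing (CC φ q.asIdeal P)] :
    (IsLocalRing.maximalIdeal (CC φ q.asIdeal P)).comap (gg φ q.asIdeal P) = P.asIdeal := by
  have h1 := prime_map φ q.asIdeal P P.isPrime hqP le_rfl
  apply le_antisymm
  · exact comap_le φ q.asIdeal P _ (IsLocalRing.maximalIdeal.isMaximal _).ne_top
  · have h2 := IsLocalRing.le_maximalIdeal h1.1.ne_top
    have h3 := Ideal.comap_mono (f := gg φ q.asIdeal P) h2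
    rw [h1.2] at h3
    exact h3

theorem eq_of_comap {I J : Ideal (CC φ q.asIdeal P)}
    (h : I.comap (gg φ q.asIdeal P) = J.comap (gg φ q.asIdeal P)) : I = J := by
  rw [← map_comap_gg φ q.asIdeal P I, h, map_comap_gg]

theorem lenE_sum (hφ : φ.Flat) (a : A) (ha : a ∉ q.asIdeal) (haP : φ a ∈ P.asIdeal)
    (hqP : q.asIdeal.map φ ≤ P.asIdeal) (T : Finset (PrimeSpectrum B))
    (hT : ∀ Q : PrimeSpectrum B, Q ∈ T ↔ q.asIdeal.map φ ≤ Q.asIdeal ∧ Q < P)
    (hinc : ∀ Q ∈ T, ∀ Q' ∈ T, Q ≤ Q' → Q = Q')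
    (hred : ∀ Q ∈ T, IsLocalRing.maximalIdeal (Localization.AtPrime Q.asIdeal) ≤
      q.asIdeal.map ((algebraMap B (Localization.AtPrime Q.asIdeal)).comp φ))
    (her : S_HER) :
    lenE (q.asIdeal.map φ ⊔ Ideal.span {φ a}) P =
      ∑ Q ∈ T, lenE (Q.asIdeal ⊔ Ideal.span {φ a}) P := by
  have hloc := local_cc φ q P hqP
  have hnoe := noeth_cc φ q P
  have hmax := comap_max φ q P hqP
  -- the element
  have hreg : gg φ q.asIdeal P (φ a) ∈ nonZeroDivisors (CC φ q.asIdeal P) := by
    have hf : ((algebraMap B (Localization.AtPrime P.asIdeal)).comp φ).Flat := by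
      apply RingHom.Flat.comp hφ
      have h1 : Module.Flat B (Localization.AtPrime P.asIdeal) :=
        IsLocalization.flat _ P.asIdeal.primeCompl
      exact (RingHom.flat_algebraMap_iff).mpr h1
    exact nzd _ hf q.asIdeal q.isPrime ha
  -- the primes
  have hmem : ∀ I : Ideal (CC φ q.asIdeal P), ∀ hI : I.IsPrime,
      I ≠ IsLocalRing.maximalIdeal (CC φ q.asIdeal P) →
      (⟨I.comap (gg φ q.asIdeal P), Ideal.comap_isPrime _ _⟩ : PrimeSpectrum B) ∈ T := by
    intro I hI hne
    rw [hT]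
    refine ⟨le_comap φ q.asIdeal P I, lt_of_le_of_ne (comap_le φ q.asIdeal P I hI.ne_top) ?_⟩
    intro h
    apply hne
    apply eq_of_comap
    rw [hmax]
    exact congrArg PrimeSpectrum.asIdeal h
  have hpr : ∀ I : Ideal (CC φ q.asIdeal P), I.IsPrime →
      I = IsLocalRing.maximalIdeal (CC φ q.asIdeal P) ∨ I ∈ minimalPrimes (CC φ q.asIdeal P) := by
    intro I hI
    by_cases hne : I = IsLocalRing.maximalIdeal (CC φ q.asIdeal P)
    · exact Or.inl hne
    right
    refine ⟨⟨hI, bot_le⟩, ?_⟩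
    rintro J ⟨hJ, -⟩ hJI
    have hJne : J ≠ IsLocalRing.maximalIdeal (CC φ q.asIdeal P) := by
      intro h
      apply hne
      apply le_antisymm (IsLocalRing.le_maximalIdeal hI.ne_top)
      rw [← h]
      exact hJI
    have h1 := hinc _ (hmem J hJ hJne) _ (hmem I hI hne)
      (Ideal.comap_mono (f := gg φ q.asIdeal P) hJI)
    have h2 := congrArg PrimeSpectrum.asIdeal h1
    exact (eq_of_comap φ q P h2).symm.le
  have hmaxnot : IsLocalRing.maximalIdeal (CC φ q.asIdeal P) ∉
      minimalPrimes (CC φ q.asIdeal P) := by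
    intro h
    have h1 := Ideal.disjoint_nonZeroDivisors_of_mem_minimalPrimes h
    have h2 : gg φ q.asIdeal P (φ a) ∈ IsLocalRing.maximalIdeal (CC φ q.asIdeal P) := by
      have h3 : φ a ∈ (IsLocalRing.maximalIdeal (CC φ q.asIdeal P)).comap (gg φ q.asIdeal P) := by
        rw [hmax]
        exact haP
      exact h3
    exact Set.disjoint_left.mp h1 h2 hreg
  have hredC : IsReduced (CC φ q.asIdeal P) := by
    constructor
    intro x hx
    by_contra hx0
    obtain ⟨I, hI, hle⟩ := exists_le_isAssociatedPrime_of_isNoetherianRing (CC φ q.asIdeal P) x hx0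
    obtain ⟨hIp, y, hy⟩ := (Submodule.isAssociatedPrime_iff).mp hI
    have hne : I ≠ IsLocalRing.maximalIdeal (CC φ q.asIdeal P) := by
      intro h
      have h2 : gg φ q.asIdeal P (φ a) ∈ I := by
        have h3 : φ a ∈ (IsLocalRing.maximalIdeal (CC φ q.asIdeal P)).comap
            (gg φ q.asIdeal P) := by
          rw [hmax]
          exact haP
        rw [h]
        exact h3
      rw [hy, Submodule.mem_colon_singleton, smul_eq_mul, Submodule.mem_bot] at h2
      have h3 : y = 0 := by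
        rw [mul_comm] at h2
        exact (mem_nonZeroDivisors_iff_right.mp hreg) y h2
      apply hIp.ne_top
      rw [hy, h3, Ideal.eq_top_iff_one, Submodule.mem_colon_singleton]
      simp
    have hQ := hmem I hIp hne
    have hm := hred _ hQ
    obtain ⟨b, t, ht, hbt⟩ := gg_repr φ q.asIdeal P x
    have hxI : x ∈ I := by
      obtain ⟨m, hm⟩ := hx
      have h1 : x ^ m ∈ I := by
        rw [hm]
        exact I.zero_mem
      exact hIp.mem_of_pow_mem m h1
    have hb : b ∈ I.comap (gg φ q.asIdeal P) := by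
      rw [Ideal.mem_comap, ← hbt]
      exact I.mul_mem_left _ hxI
    have hprc : (I.comap (gg φ q.asIdeal P)).IsPrime := Ideal.comap_isPrime _ _
    have hb2 : algebraMap B (Localization.AtPrime (I.comap (gg φ q.asIdeal P))) b ∈
        IsLocalRing.maximalIdeal (Localization.AtPrime (I.comap (gg φ q.asIdeal P))) := by
      rw [← Localization.AtPrime.map_eq_maximalIdeal]
      exact Ideal.mem_map_of_mem _ hb
    have hb3 := hm hb2
    rw [← Ideal.map_map, IsLocalization.algebraMap_mem_map_algebraMap_iff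
      (I.comap (gg φ q.asIdeal P)).primeCompl] at hb3
    obtain ⟨s, hs, hsb⟩ := hb3
    have h1 := gg_mapq φ q.asIdeal P hsb
    rw [map_mul, ← hbt, mul_left_comm] at h1
    have h2 : gg φ q.asIdeal P s * x = 0 := by
      have h3 := gg_unit φ q.asIdeal P ht
      exact (h3.mul_right_eq_zero).mp h1
    apply hs
    change gg φ q.asIdeal P s ∈ I
    apply hle
    rw [Submodule.mem_colon_singleton, smul_eq_mul, h2]
    exact Submodule.zero_mem _
  obtain ⟨hfin, hsum⟩ := her (CC φ q.asIdeal P) (gg φ q.asIdeal P (φ a)) hreg hpr hmaxnot hredC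
  -- the lengths
  have hl : ∀ J : Ideal B, q.asIdeal.map φ ≤ J →
      lenE (J ⊔ Ideal.span {φ a}) P = Module.length (CC φ q.asIdeal P)
        (CC φ q.asIdeal P ⧸ (J.map (gg φ q.asIdeal P) ⊔
          Ideal.span {gg φ q.asIdeal P (φ a)})) := by
    intro J hJ
    unfold lenE
    rw [length_mk (KK φ q.asIdeal P) _ ((kk_le φ q.asIdeal P hJ).trans
      (Ideal.map_mono le_sup_left))]
    rw [Ideal.map_sup, Ideal.map_sup, ← map_gg, Ideal.map_span, Set.image_singleton,
      Ideal.map_span, Set.image_singleton]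
    rfl
  have hq0 : (q.asIdeal.map φ).map (gg φ q.asIdeal P) = ⊥ := by
    rw [eq_bot_iff, Ideal.map_le_iff_le_comap]
    intro x hx
    rw [Ideal.mem_comap, gg_mapq φ q.asIdeal P hx]
    exact Ideal.zero_mem _
  rw [hl _ le_rfl, hq0, bot_sup_eq, hsum]
  symm
  have hTq : ∀ Q ∈ T, q.asIdeal.map φ ≤ Q.asIdeal ∧ Q < P := fun Q hQ => (hT Q).mp hQ
  apply Finset.sum_bij (fun (Q : PrimeSpectrum B) (_ : Q ∈ T) => Q.asIdeal.map (gg φ q.asIdeal P))
  · intro Q hQ
    rw [Set.Finite.mem_toFinset]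
    have h1 := prime_map φ q.asIdeal P Q.isPrime (hTq Q hQ).1 (hTq Q hQ).2.le
    refine (hpr _ h1.1).resolve_left ?_
    intro h2
    have h3 := h1.2
    rw [h2, hmax] at h3
    exact (hTq Q hQ).2.ne (PrimeSpectrum.ext h3.symm)
  · intro Q hQ Q' hQ' h
    have h1 := prime_map φ q.asIdeal P Q.isPrime (hTq Q hQ).1 (hTq Q hQ).2.le
    have h2 := prime_map φ q.asIdeal P Q'.isPrime (hTq Q' hQ').1 (hTq Q' hQ').2.le
    apply PrimeSpectrum.ext
    rw [← h1.2, ← h2.2]
    exact congrArg _ h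
  · intro I hI
    rw [Set.Finite.mem_toFinset] at hI
    have hIp : I.IsPrime := hI.1.1
    have hne : I ≠ IsLocalRing.maximalIdeal (CC φ q.asIdeal P) := by
      intro h
      apply hmaxnot
      rw [← h]
      exact hI
    exact ⟨_, hmem I hIp hne, map_comap_gg φ q.asIdeal P I⟩
  · intro Q hQ
    exact hl _ (hTq Q hQ).1

end Local

section Global

variable {k A B E : Type} [Field k] [CommRing A] [CommRing B] [Algebra k A] [Algebra k B]
  [Algebra.FiniteType k A] [Algebra.FiniteType k B] [Field E]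

/-- the dimension of the primes of the fibre -/
theorem dims (h1 : S_DIM1) {r n : ℕ} {φ : A →ₐ[k] B} (hφ : Good k r φ) (q : RP k A (n + 1))
    (P : RP k B (n + r)) (Q : PrimeSpectrum B) (hq : q.1.asIdeal.map φ.toRingHom ≤ Q.asIdeal)
    (hQ : Q < P.1) : PrimeSpectrum.comap φ.toRingHom Q = q.1 ∧ rdim k Q = (n + 1 + r : ℕ) := by
  obtain ⟨⟨m, hm⟩, h2⟩ := h1 k B Q
  obtain ⟨⟨l, hl⟩, -⟩ := h1 k A (PrimeSpectrum.comap φ.toRingHom Q)
  have h3 := h2 P.1 hQ
  rw [hm, P.2] at h3
  have h4 : n + r < m := by exact_mod_cast h3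
  have h5 := (hφ.at' Q).1
  rw [hm, hl] at h5
  have h6 : m ≤ l + r := by exact_mod_cast h5
  have h7 : q.1 ≤ PrimeSpectrum.comap φ.toRingHom Q := Ideal.map_le_iff_le_comap.mp hq
  rcases h7.eq_or_lt with h8 | h8
  · refine ⟨h8.symm, ?_⟩
    rw [← h8, q.2] at hl
    have h9 : n + 1 = l := by exact_mod_cast hl
    rw [hm]
    have h10 : m = n + 1 + r := by omega
    rw [h10]
  · exfalso
    have h9 := (h1 k A q.1).2 _ h8
    rw [hl, q.2] at h9
    have h10 : l < n + 1 := by exact_mod_cast h9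
    omega

theorem len_eq {A : Type} [CommRing A] (I : Ideal A) (p : PrimeSpectrum A) :
    len I p = (lenE I p).toNat := rfl

theorem toNat_sum {ι : Type} (s : Finset ι) (f : ι → ℕ∞) (h : ∀ i ∈ s, f i ≠ ⊤) :
    ∑ i ∈ s, f i ≠ ⊤ ∧ (∑ i ∈ s, f i).toNat = ∑ i ∈ s, (f i).toNat := by
  classical
  induction s using Finset.induction_on with
  | empty => simp
  | insert a s ha ih =>
    have h1 := h a (Finset.mem_insert_self a s)
    have h2 := ih fun i hi => h i (Finset.mem_insert_of_mem hi)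
    rw [Finset.sum_insert ha, Finset.sum_insert ha]
    refine ⟨?_, ?_⟩
    · rw [Ne, ENat.add_eq_top, not_or]
      exact ⟨h1, h2.1⟩
    · rw [ENat.toNat_add h1 h2.1, h2.2]

/-- the flat pull-back of a divisor is the sum of the divisors on the fibre components -/
theorem gen (h1 : S_DIM1) (hLB : S_LENB) (hLC : S_LENC) (hDV : S_DVX) (hHE : S_HER)
    (hFX : S_FPX) {r n : ℕ} {φ : A →ₐ[k] B} (hφ : Good k r φ)
    (q : RP k A (n + 1)) (a : A) (ha : a ∉ q.1.asIdeal)
    (c : RP k A n →₀ E) (hc : IsDv k E q.1 a c) (d : RP k B (n + r) →₀ E)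
    (hd : IsPull k E r φ c d) :
    ∃ (S : Finset (RP k B (n + r + 1))) (e : RP k B (n + r + 1) → (RP k B (n + r) →₀ E)),
      (∀ P, P ∈ S ↔ PrimeSpectrum.comap φ.toRingHom P.1 = q.1) ∧
      (∀ P ∈ S, φ a ∉ P.1.asIdeal ∧ IsDv k E P.1 (φ a) (e P)) ∧ d = ∑ P ∈ S, e P := by
  classical
  obtain ⟨d', hd'⟩ := hFX k A B E r (n + 1) φ hφ (Finsupp.single q 1)
  have hm : ∀ Q : RP k B (n + 1 + r), Q ∈ d'.support ↔
      PrimeSpectrum.comap φ.toRingHom Q.1 = q.1 := by
    intro Q
    rw [Finsupp.mem_support_iff]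
    constructor
    · intro h
      by_cases h2 : rdim k (PrimeSpectrum.comap φ.toRingHom Q.1) = (n + 1 : ℕ)
      · rw [(hd' Q).1 h2] at h
        have h3 := Finsupp.single_apply_ne_zero.mp h
        exact congrArg Subtype.val h3.1
      · exact absurd ((hd' Q).2 h2) h
    · intro h
      have h2 : rdim k (PrimeSpectrum.comap φ.toRingHom Q.1) = (n + 1 : ℕ) := by
        rw [h]
        exact q.2
      rw [(hd' Q).1 h2]
      have h3 : (⟨PrimeSpectrum.comap φ.toRingHom Q.1, h2⟩ : RP k A (n + 1)) = q :=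
        Subtype.ext h
      rw [h3, Finsupp.single_eq_same]
      exact one_ne_zero
  have hdim : ∀ Q : RP k B (n + 1 + r), rdim k Q.1 = (n + r + 1 : ℕ) := by
    intro Q
    rw [Q.2]
    have : n + 1 + r = n + r + 1 := by omega
    rw [this]
  have hna : ∀ Q : RP k B (n + 1 + r), Q ∈ d'.support → φ a ∉ Q.1.asIdeal := by
    intro Q hQ h
    apply ha
    rw [← (hm Q).mp hQ]
    exact h
  have hex : ∀ P : RP k B (n + r + 1), ∃ e : RP k B (n + r) →₀ E, φ a ∉ P.1.asIdeal →
      IsDv k E P.1 (φ a) e := by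
    intro P
    by_cases hP : φ a ∉ P.1.asIdeal
    · obtain ⟨e, he⟩ := hDV k B E (n + r) P (φ a) hP
      exact ⟨e, fun _ => he⟩
    · exact ⟨0, fun h => absurd h hP⟩
  choose e he using hex
  let up : RP k B (n + 1 + r) → RP k B (n + r + 1) := fun Q => ⟨Q.1, hdim Q⟩
  have hup : Function.Injective up := by
    intro Q Q' h
    apply Subtype.ext
    exact congrArg (fun P : RP k B (n + r + 1) => P.1) h
  let D : RP k B (n + 1 + r) → (RP k B (n + r) →₀ E) := fun Q => e (up Q)
  have hD : ∀ Q : RP k B (n + 1 + r), Q ∈ d'.support → IsDv k E Q.1 (φ a) (D Q) :=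
    fun Q hQ => he (up Q) (hna Q hQ)
  have hqQ : ∀ Q : RP k B (n + 1 + r), Q ∈ d'.support →
      q.1.asIdeal.map φ.toRingHom ≤ Q.1.asIdeal := by
    intro Q hQ
    rw [Ideal.map_le_iff_le_comap, ← (hm Q).mp hQ]
    exact le_rfl
  -- the local computation
  have key : ∀ P : RP k B (n + r), q.1 ≤ PrimeSpectrum.comap φ.toRingHom P.1 →
      a ∈ (PrimeSpectrum.comap φ.toRingHom P.1).asIdeal →
      len (q.1.asIdeal.map φ.toRingHom ⊔ Ideal.span {φ a}) P.1 =
        ∑ Q ∈ d'.support, len (Q.1.asIdeal ⊔ Ideal.span {φ a}) P.1 := by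
    intro P hqP haP
    have hN : IsNoetherianRing B := Algebra.FiniteType.isNoetherianRing k B
    let T : Finset (PrimeSpectrum B) :=
      (d'.support.filter fun Q => Q.1 ≤ P.1).map ⟨Subtype.val, Subtype.val_injective⟩
    have hT0 : ∀ Q : PrimeSpectrum B, Q ∈ T → ∃ Q' : RP k B (n + 1 + r), Q' ∈ d'.support ∧
        Q'.1 ≤ P.1 ∧ Q'.1 = Q := by
      intro Q hQ
      obtain ⟨Q', hQ', h⟩ := Finset.mem_map.mp hQ
      obtain ⟨h2, h3⟩ := Finset.mem_filter.mp hQ'
      exact ⟨Q', h2, h3, h⟩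
    have hT : ∀ Q : PrimeSpectrum B, Q ∈ T ↔ q.1.asIdeal.map φ.toRingHom ≤ Q.asIdeal ∧
        Q < P.1 := by
      intro Q
      constructor
      · intro hQ
        obtain ⟨Q', h2, h3, rfl⟩ := hT0 Q hQ
        refine ⟨hqQ Q' h2, lt_of_le_of_ne h3 ?_⟩
        intro h4
        have h5 := P.2
        rw [← h4, Q'.2] at h5
        have h6 : n + 1 + r = n + r := by exact_mod_cast h5
        omega
      · rintro ⟨hQ1, hQ2⟩
        obtain ⟨h3, h4⟩ := dims h1 hφ q P Q hQ1 hQ2
        refine Finset.mem_map.mpr ⟨⟨Q, h4⟩, Finset.mem_filter.mpr ⟨?_, hQ2.le⟩, rfl⟩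
        exact (hm _).mpr h3
    have hinc : ∀ Q ∈ T, ∀ Q' ∈ T, Q ≤ Q' → Q = Q' := by
      intro Q hQ Q' hQ' hle
      rcases hle.eq_or_lt with h | h
      · exact h
      exfalso
      obtain ⟨Q1, h2, h3, rfl⟩ := hT0 Q hQ
      obtain ⟨Q2, h4, h5, rfl⟩ := hT0 Q' hQ'
      have h6 := (h1 k B Q1.1).2 _ h
      rw [Q1.2, Q2.2] at h6
      exact lt_irrefl _ h6
    have hred : ∀ Q ∈ T, IsLocalRing.maximalIdeal (Localization.AtPrime Q.asIdeal) ≤
        q.1.asIdeal.map ((algebraMap B (Localization.AtPrime Q.asIdeal)).comp φ.toRingHom) := by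
      intro Q hQ
      obtain ⟨hQ1, hQ2⟩ := (hT Q).mp hQ
      obtain ⟨h3, h4⟩ := dims h1 hφ q P Q hQ1 hQ2
      have h5 := (hφ.at' Q).2
      rw [h3, h4, q.2] at h5
      exact h5 (by push_cast; rfl)
    have haP' : φ.toRingHom a ∈ P.1.asIdeal := haP
    have hs := lenE_sum φ.toRingHom q.1 P.1 hφ.flat a ha haP' (Ideal.map_le_iff_le_comap.mpr hqP)
      T hT hinc hred hHE
    have hs2 : len (q.1.asIdeal.map φ.toRingHom ⊔ Ideal.span {φ a}) P.1 =
        ∑ Q ∈ T, len (Q.asIdeal ⊔ Ideal.span {φ a}) P.1 := by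
      have h2 := congrArg ENat.toNat hs
      refine h2.trans (toNat_sum T _ ?_).2
      intro Q hQ htop
      obtain ⟨Q', h3, h4, rfl⟩ := hT0 Q hQ
      have h5 := (hLC k B (n + r) ⟨Q'.1, hdim Q'⟩ P).2.2.1 (φ a) (hna Q' h3) h4 haP
      apply h5
      rw [len_eq]
      exact (congrArg ENat.toNat htop).trans ENat.toNat_top
    have hs3 : ∑ Q ∈ T, len (Q.asIdeal ⊔ Ideal.span {φ a}) P.1 =
        ∑ Q ∈ d'.support.filter (fun Q => Q.1 ≤ P.1),
          len (Q.1.asIdeal ⊔ Ideal.span {φ a}) P.1 := Finset.sum_map _ _ _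
    rw [hs2, hs3, Finset.sum_filter]
    apply Finset.sum_congr rfl
    intro Q hQ
    split_ifs with h
    · rfl
    · by_contra h2
      exact h ((hLC k B (n + r) ⟨Q.1, hdim Q⟩ P).2.1 (φ a) (fun h3 => h2 h3.symm)).1
  have hmain : d = ∑ Q ∈ d'.support, D Q := by
    ext P
    rw [Finsupp.finsetSum_apply]
    have h2 : ∑ Q ∈ d'.support, (D Q) P =
        ((∑ Q ∈ d'.support, len (Q.1.asIdeal ⊔ Ideal.span {φ a}) P.1 : ℕ) : E) := by
      rw [Nat.cast_sum]
      exact Finset.sum_congr rfl fun Q hQ => hD Q hQ P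
    rw [h2]
    by_cases hcase : q.1 ≤ PrimeSpectrum.comap φ.toRingHom P.1 ∧
        a ∈ (PrimeSpectrum.comap φ.toRingHom P.1).asIdeal
    · rw [← key P hcase.1 hcase.2]
      have hlt : q.1 < PrimeSpectrum.comap φ.toRingHom P.1 := by
        refine lt_of_le_of_ne hcase.1 fun h => ha ?_
        rw [h]
        exact hcase.2
      obtain ⟨⟨m, hm2⟩, -⟩ := h1 k A (PrimeSpectrum.comap φ.toRingHom P.1)
      have h3 := (h1 k A q.1).2 _ hlt
      have h4 := (hφ.at' P.1).1
      rw [hm2, q.2] at h3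
      rw [hm2, P.2] at h4
      have h5 : m < n + 1 := by exact_mod_cast h3
      have h6 : n + r ≤ m + r := by exact_mod_cast h4
      have h7 : m = n := by omega
      rw [h7] at hm2
      rw [(hd P).1 hm2]
      refine (hc ⟨_, hm2⟩).trans ?_
      have h8 := (hφ.at' P.1).2 (by rw [P.2, hm2]; push_cast; rfl)
      have h9 := hLB A B φ.toRingHom P.1 hφ.flat h8 (q.1.asIdeal ⊔ Ideal.span {a})
      rw [Ideal.map_sup, Ideal.map_span, Set.image_singleton] at h9
      exact congrArg _ h9.symm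
    · have h3 : ∀ Q ∈ d'.support, len (Q.1.asIdeal ⊔ Ideal.span {φ a}) P.1 = 0 := by
        intro Q hQ
        by_contra h4
        obtain ⟨h5, h6⟩ := (hLC k B (n + r) ⟨Q.1, hdim Q⟩ P).2.1 (φ a) h4
        apply hcase
        refine ⟨?_, h6⟩
        rw [← (hm Q).mp hQ]
        exact Ideal.comap_mono h5
      rw [Finset.sum_eq_zero h3, Nat.cast_zero]
      by_cases h4 : rdim k (PrimeSpectrum.comap φ.toRingHom P.1) = n
      · rw [(hd P).1 h4]
        refine (hc ⟨_, h4⟩).trans ?_
        have h5 : len (q.1.asIdeal ⊔ Ideal.span {a})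
            (PrimeSpectrum.comap φ.toRingHom P.1) = 0 := by
          by_contra h6
          exact hcase ((hLC k A n q ⟨_, h4⟩).2.1 a h6)
        exact (congrArg _ h5).trans Nat.cast_zero
      · exact (hd P).2 h4
  refine ⟨d'.support.map ⟨up, hup⟩, e, ?_, ?_, ?_⟩
  · intro P
    rw [Finset.mem_map]
    constructor
    · rintro ⟨Q, hQ, rfl⟩
      exact (hm Q).mp hQ
    · intro h
      have h2 : rdim k P.1 = (n + 1 + r : ℕ) := by
        rw [P.2]
        have : n + 1 + r = n + r + 1 := by omega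
        rw [this]
      exact ⟨⟨P.1, h2⟩, (hm _).mpr h, rfl⟩
  · intro P hP
    obtain ⟨Q, hQ, rfl⟩ := Finset.mem_map.mp hP
    exact ⟨hna Q hQ, he _ (hna Q hQ)⟩
  · rw [Finset.sum_map]
    exact hmain

end Global

end FPD

theorem t_FPD : M_FPD := by
  intro h1 hLB hLC hDV hHE hFX k A B E _ _ _ _ _ _ _ _ r n φ hφ q a c d ha hc hd
  exact FPD.gen h1 hLB hLC hDV hHE hFX hφ q a ha c hc d hd

end CUB
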