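import Pool.Agent.CUB.StmtsB

/-!
# CUB, block B: the ideals in the chart at infinity
-/

set_option autoImplicit false

open Polynomial

namespace CUB

namespace INFA

variable {R : Type} [CommRing R]

/-- the localisation -/
abbrev LX (R : Type) [CommRing R] : Type := Localization.Away (X : R[X])

/-- the inverse of `X` -/
noncomputable abbrev iv (R : Type) [CommRing R] : LX R := IsLocalization.Away.invSelf (X : R[X])

/-- the chart at infinity -/
noncomputable abbrev jj (R : Type) [CommRing R] : R[X] →+* LX R :=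
  eval₂RingHom ((algebraMap R[X] (LX R)).comp C) (iv R)

lemma X_iv : algebraMap R[X] (LX R) X * iv R = 1 := IsLocalization.Away.mul_invSelf (X : R[X])

lemma eval_id (f : R[X]) :
    eval₂ ((algebraMap R[X] (LX R)).comp C) (algebraMap R[X] (LX R) X) f =
      algebraMap R[X] (LX R) f := by
  rw [← hom_eval₂, eval₂_C_X]

lemma jj_reflect (N : ℕ) (f : R[X]) (hf : f.natDegree ≤ N) :
    jj R (reflect N f) * algebraMap R[X] (LX R) X ^ N = algebraMap R[X] (LX R) f := by
  letI : Invertible (algebraMap R[X] (LX R) X) :=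
    ⟨iv R, by rw [mul_comm]; exact X_iv, X_iv⟩
  have h := eval₂_reflect_mul_pow ((algebraMap R[X] (LX R)).comp C)
    (algebraMap R[X] (LX R) X) N f hf
  rw [eval_id] at h
  exact h

lemma jj_mul (N : ℕ) (g : R[X]) (hg : g.natDegree ≤ N) :
    jj R g * algebraMap R[X] (LX R) X ^ N = algebraMap R[X] (LX R) (reflect N g) := by
  have h1 : (reflect N g).natDegree ≤ N := by
    have := natDegree_reflect_le (N := N) (p := g)
    rwa [max_eq_left hg] at this
  have h := jj_reflect N (reflect N g) h1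
  rwa [reflect_reflect] at h

lemma isUnit_X : IsUnit (algebraMap R[X] (LX R) X) :=
  IsUnit.of_mul_eq_one _ X_iv

lemma mem_iff_jj {z : Ideal R[X]} {g : R[X]} : g ∈ infI z ↔ jj R g ∈ z.map (algebraMap R[X] (LX R)) :=
  Iff.rfl

lemma reflect_add_mul (g : R[X]) {N : ℕ} (m : ℕ) (hg : g.natDegree ≤ N) :
    reflect (N + m) g = X ^ m * reflect N g := by
  have h := reflect_mul g (1 : R[X]) hg (G := m) (by simp)
  rw [mul_one, reflect_one, mul_comm] at h
  exact h

/-- membership for a fixed `N` -/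
lemma mem_iff {z : Ideal R[X]} {g : R[X]} {N : ℕ} (hg : g.natDegree ≤ N) :
    g ∈ infI z ↔ ∃ m : ℕ, X ^ m * reflect N g ∈ z := by
  rw [mem_iff_jj]
  have h1 : jj R g ∈ z.map (algebraMap R[X] (LX R)) ↔
      algebraMap R[X] (LX R) (reflect N g) ∈ z.map (algebraMap R[X] (LX R)) := by
    rw [← jj_mul N g hg]
    exact (Ideal.mul_unit_mem_iff_mem _ (isUnit_X.pow N)).symm
  rw [h1, IsLocalization.algebraMap_mem_map_algebraMap_iff (Submonoid.powers (X : R[X]))]
  constructor
  · rintro ⟨_, ⟨m, rfl⟩, h⟩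
    exact ⟨m, h⟩
  · rintro ⟨m, h⟩
    exact ⟨X ^ m, ⟨m, rfl⟩, h⟩

lemma part1 (z : Ideal R[X]) (g : R[X]) : g ∈ infI z ↔ ∃ N : ℕ, g.natDegree ≤ N ∧ reflect N g ∈ z := by
  constructor
  · intro h
    obtain ⟨m, hm⟩ := (mem_iff (N := g.natDegree) le_rfl).1 h
    exact ⟨g.natDegree + m, Nat.le_add_right _ _, by rwa [reflect_add_mul g m le_rfl]⟩
  · rintro ⟨N, hN, h⟩
    exact (mem_iff hN).2 ⟨0, by simpa using h⟩

/-- removing powers of `X` -/
lemma of_pow {z : Ideal R[X]} (hz : z.IsPrime) (hX : X ∉ z) {m : ℕ} {g : R[X]}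
    (h : X ^ m * g ∈ z) : g ∈ z := by
  rcases hz.mem_or_mem h with h1 | h1
  · exact absurd (hz.mem_of_pow_mem m h1) hX
  · exact h1

/-- for a prime ideal without `X` -/
lemma mem_iff_prime {z : Ideal R[X]} (hz : z.IsPrime) (hX : X ∉ z) {g : R[X]} {N : ℕ}
    (hg : g.natDegree ≤ N) : g ∈ infI z ↔ reflect N g ∈ z := by
  rw [mem_iff hg]
  exact ⟨fun ⟨m, h⟩ => of_pow hz hX h, fun h => ⟨0, by simpa using h⟩⟩

lemma map_prime {z : Ideal R[X]} (hz : z.IsPrime) (hX : X ∉ z) :
    (z.map (algebraMap R[X] (LX R))).IsPrime := by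
  refine IsLocalization.isPrime_of_isPrime_disjoint (Submonoid.powers (X : R[X])) (LX R) z hz ?_
  rw [Set.disjoint_left]
  rintro x ⟨m, rfl⟩ hx
  exact hX (hz.mem_of_pow_mem m hx)

lemma inf_prime {z : Ideal R[X]} (hz : z.IsPrime) (hX : X ∉ z) : (infI z).IsPrime := by
  have h := map_prime hz hX
  exact Ideal.IsPrime.comap (jj R)

lemma X_notMem {z : Ideal R[X]} (hz : z.IsPrime) (hX : X ∉ z) : X ∉ infI z := by
  intro h
  rw [mem_iff_jj] at h
  have h1 : jj R X = iv R := eval₂_X _ _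
  rw [h1] at h
  apply (map_prime hz hX).ne_top
  refine Ideal.eq_top_of_isUnit_mem _ h (IsUnit.of_mul_eq_one (algebraMap R[X] (LX R) X) ?_)
  rw [mul_comm]
  exact X_iv

end INFA

open INFA

theorem t_INFA : S_INFA := by
  refine ⟨?_, ?_, ?_, ?_, ?_⟩
  · intro R _ z g
    exact part1 z g
  · intro R _ z hX
    rw [Ideal.eq_top_iff_one, mem_iff (N := 0) (by simp)]
    refine ⟨1, ?_⟩
    rw [reflect_one]
    simpa using hX
  · intro R _ z hz hX
    have h1 := inf_prime hz hX
    have h2 := X_notMem hz hX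
    refine ⟨h1, h2, ?_⟩
    ext g
    have h3 : (reflect g.natDegree g).natDegree ≤ g.natDegree := by
      have := natDegree_reflect_le (N := g.natDegree) (p := g)
      rwa [max_self] at this
    rw [mem_iff_prime h1 h2 (N := g.natDegree) le_rfl, mem_iff_prime hz hX h3, reflect_reflect]
  · intro R _ z hz hX
    ext r
    rw [Ideal.mem_comap, Ideal.mem_comap, mem_iff_prime hz hX (N := 0) (by simp), reflect_C]
    simp
  · intro R K _ _ θ s hs
    ext g
    rw [part1, RingHom.mem_ker]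
    letI : Invertible (s⁻¹) := ⟨s, mul_inv_cancel₀ hs, inv_mul_cancel₀ hs⟩
    have key : ∀ N, g.natDegree ≤ N → (reflect N g ∈ RingHom.ker (eval₂RingHom θ s) ↔
        eval₂RingHom θ s⁻¹ g = 0) := by
      intro N hN
      rw [RingHom.mem_ker]
      exact eval₂_reflect_eq_zero_iff θ s⁻¹ N g hN
    constructor
    · rintro ⟨N, hN, h⟩
      exact (key N hN).1 h
    · intro h
      exact ⟨g.natDegree, le_rfl, (key _ le_rfl).2 h⟩

end CUB
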