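import Pool.Agent.CUB.StmtsB

/-!
# CUB, module INFD: the dimension of primes in the chart at infinity
-/

set_option autoImplicit false

open Polynomial

namespace CUB

namespace INFD

/-- A subring of a field which generates it has the same transcendence degree. -/
lemma trdeg_of_frac {k A K : Type} [Field k] [CommRing A] [Field K] [Algebra k A] [Algebra k K]
    (f : A →ₐ[k] K) (hf : Function.Injective f)
    (h : ∀ x : K, ∃ a b : A, f b ≠ 0 ∧ x * f b = f a) :
    Algebra.trdeg k A = Algebra.trdeg k K := by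
  let _ : Algebra A K := f.toRingHom.toAlgebra
  have hmap : ∀ a : A, algebraMap A K a = f a := fun a => rfl
  have : IsScalarTower k A K := IsScalarTower.of_algebraMap_eq fun r => (f.commutes r).symm
  have : FaithfulSMul A K := (faithfulSMul_iff_algebraMap_injective A K).mpr hf
  have : Nontrivial A := f.toRingHom.domain_nontrivial
  have : FaithfulSMul k A := (faithfulSMul_iff_algebraMap_injective k A).mpr
    (algebraMap k A).injective
  have : Algebra.IsAlgebraic A K := by
    refine ⟨fun x => ?_⟩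
    obtain ⟨a, b, hb, hx⟩ := h x
    refine ⟨C b * X - C a, ?_, ?_⟩
    · intro h0
      have h1 := congrArg (fun P : A[X] => P.coeff 1) h0
      simp only [coeff_sub, coeff_C_mul, coeff_X_one, mul_one, coeff_C_succ, sub_zero,
        coeff_zero] at h1
      apply hb
      rw [h1, map_zero]
    · have h2 : aeval x (C b * X - C a) = algebraMap A K b * x - algebraMap A K a := by simp
      rw [h2, hmap, hmap, ← hx]
      ring
  have h3 := _root_.trdeg_add_eq k A (A := K)
  rw [_root_.trdeg_eq_zero (R := A) (A := K), add_zero] at h3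
  exact h3

lemma quot {k A K : Type} [Field k] [CommRing A] [Field K] [Algebra k A] [Algebra k K]
    (f : A →ₐ[k] K) (z : PrimeSpectrum A) (hz : RingHom.ker f.toRingHom = z.asIdeal)
    (h : ∀ x : K, ∃ a b : A, f b ≠ 0 ∧ x * f b = f a) :
    rdim k z = Algebra.trdeg k K := by
  unfold rdim
  have hk : ∀ a : A, a ∈ z.asIdeal → f a = 0 := by
    intro a ha
    rw [← hz] at ha
    exact ha
  refine trdeg_of_frac (Ideal.Quotient.liftₐ z.asIdeal f hk) ?_ ?_
  · rw [injective_iff_map_eq_zero]
    intro a ha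
    obtain ⟨b, rfl⟩ := Ideal.Quotient.mk_surjective a
    have h1 : f b = 0 := ha
    rw [Ideal.Quotient.eq_zero_iff_mem, ← hz]
    exact h1
  · intro x
    obtain ⟨a, b, hb, hx⟩ := h x
    exact ⟨Ideal.Quotient.mk _ a, Ideal.Quotient.mk _ b, hb, hx⟩

end INFD

open INFD in
/-- INFD. -/
theorem t_INFD : M_INFD := by
  intro hA k R _ _ _ _ z hz hi hX
  have := hz
  let K := FractionRing (R[X] ⧸ z)
  let ι : R[X] →ₐ[k] K := (IsScalarTower.toAlgHom k (R[X] ⧸ z) K).comp (Ideal.Quotient.mkₐ k z)
  have hιk : RingHom.ker ι.toRingHom = z := by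
    ext P
    constructor
    · intro h
      have h1 : algebraMap (R[X] ⧸ z) K (Ideal.Quotient.mk z P) = 0 := h
      rw [← Ideal.Quotient.eq_zero_iff_mem]
      exact IsFractionRing.injective (R[X] ⧸ z) K (h1.trans (map_zero _).symm)
    · intro h
      have h1 : Ideal.Quotient.mk z P = 0 := Ideal.Quotient.eq_zero_iff_mem.mpr h
      change algebraMap (R[X] ⧸ z) K (Ideal.Quotient.mk z P) = 0
      rw [h1, map_zero]
  let θ : R →ₐ[k] K := ι.comp (CC k R)
  let s : K := ι X
  have hs : s ≠ 0 := by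
    intro h
    apply hX
    rw [← hιk]
    exact h
  have hev : ι = evs θ s := evs_unique θ s ι (fun r => rfl) rfl
  have hzk : RingHom.ker (eval₂RingHom θ.toRingHom s) = z := by
    have h1 : (evs θ s).toRingHom = eval₂RingHom θ.toRingHom s := rfl
    rw [← h1, ← hev, hιk]
  have hinf : RingHom.ker (evs θ s⁻¹).toRingHom = infI z := by
    have h1 : (evs θ s⁻¹).toRingHom = eval₂RingHom θ.toRingHom s⁻¹ := rfl
    rw [h1, ← hA.2.2.2.2 R K θ.toRingHom s hs, hzk]
  have hfrac : ∀ x : K, ∃ a b : R[X], ι b ≠ 0 ∧ x * ι b = ι a := by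
    intro x
    obtain ⟨a, b, hb, hx⟩ := IsFractionRing.div_surjective (A := R[X] ⧸ z) x
    obtain ⟨a, rfl⟩ := Ideal.Quotient.mk_surjective a
    obtain ⟨b, rfl⟩ := Ideal.Quotient.mk_surjective b
    have hb' : ι b ≠ 0 := by
      intro h
      have h1 : algebraMap (R[X] ⧸ z) K (Ideal.Quotient.mk z b) = 0 := h
      exact nonZeroDivisors.ne_zero hb
        (IsFractionRing.injective (R[X] ⧸ z) K (h1.trans (map_zero _).symm))
    refine ⟨a, b, hb', ?_⟩
    rw [← hx]
    exact div_mul_cancel₀ _ hb'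
  have hev2 : ∀ (N : ℕ) (P : R[X]), P.natDegree ≤ N → evs θ s⁻¹ (reflect N P) * s ^ N = ι P := by
    intro N P hP
    let _ : Invertible s := invertibleOfNonzero hs
    have h1 := eval₂_reflect_mul_pow θ.toRingHom s N P hP
    rw [invOf_eq_inv] at h1
    rw [hev]
    exact h1
  rw [quot ι ⟨z, hz⟩ hιk hfrac]
  refine quot (evs θ s⁻¹) ⟨infI z, hi⟩ hinf ?_
  intro x
  obtain ⟨a, b, hb, hx⟩ := hfrac x
  let N := max a.natDegree b.natDegree
  have ha' := hev2 N a (le_max_left _ _)
  have hb' := hev2 N b (le_max_right _ _)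
  refine ⟨reflect N a, reflect N b, ?_, ?_⟩
  · intro h
    rw [h, zero_mul] at hb'
    exact hb hb'.symm
  · rw [← ha', ← hb'] at hx
    have h3 : s ^ N ≠ 0 := pow_ne_zero _ hs
    apply mul_right_cancel₀ h3
    rw [mul_assoc]
    exact hx

end CUB
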