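import Pool.Agent.CUB.StmtsB

/-!
# CUB, module KERQ: kernels of homomorphisms of double covers
-/

set_option autoImplicit false

open Polynomial

namespace CUB

namespace KERQ

theorem basis_inj (T : Type) [CommRing T] (g a b : T)
    (h : algebraMap T (Q T g) a + algebraMap T (Q T g) b * yy g = 0) : a = 0 ∧ b = 0 := by
  rcases subsingleton_or_nontrivial T with hT | hT
  · exact ⟨Subsingleton.elim _ _, Subsingleton.elim _ _⟩
  have h1 : AdjoinRoot.mk (asPoly g) (C a + C b * X) = 0 := by
    rw [map_add, map_mul]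
    exact h
  have h2 : asPoly g ∣ C a + C b * X := AdjoinRoot.mk_eq_zero.mp h1
  have h3 : (asPoly g).natDegree = 2 := by
    unfold asPoly
    compute_degree!
  have h4 : C a + C b * X = 0 := by
    by_contra hne
    refine (asPoly_monic g).not_dvd_of_natDegree_lt hne ?_ h2
    rw [h3]
    have h5 : (C a + C b * X).natDegree ≤ 1 := by compute_degree
    omega
  constructor
  · have h5 := congrArg (fun p : T[X] => p.coeff 0) h4
    simpa using h5
  · have h5 := congrArg (fun p : T[X] => p.coeff 1) h4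
    simpa using h5

theorem ker_Qmap (k T S : Type) [Field k] [CommRing T] [CommRing S] [Algebra k T] [Algebra k S]
    (g : T) (g' : S) (φ : T →ₐ[k] S) (h : φ g = g') : RingHom.ker (Qmap φ h).toRingHom =
      (RingHom.ker φ.toRingHom).map (algebraMap T (Q T g)) := by
  apply le_antisymm
  · intro x hx
    obtain ⟨a, b, rfl⟩ := Q_span x
    have h1 : Qmap φ h (algebraMap T (Q T g) a + algebraMap T (Q T g) b * yy g) = 0 := hx
    rw [map_add, map_mul, Qmap_algebraMap, Qmap_algebraMap, Qmap_yy] at h1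
    obtain ⟨h2, h3⟩ := basis_inj S g' _ _ h1
    refine Ideal.add_mem _ (Ideal.mem_map_of_mem _ h2) (Ideal.mul_mem_right _ _
      (Ideal.mem_map_of_mem _ h3))
  · rw [Ideal.map_le_iff_le_comap]
    intro x hx
    have h1 : φ x = 0 := hx
    have h2 : Qmap φ h (algebraMap T (Q T g) x) = 0 := by
      rw [Qmap_algebraMap, h1, map_zero]
    exact h2

theorem ker_mapX (k R S : Type) [Field k] [CommRing R] [CommRing S] [Algebra k R] [Algebra k S]
    (ψ : R →ₐ[k] S) :
    RingHom.ker (mapX ψ).toRingHom = (RingHom.ker ψ.toRingHom).map (CC k R).toRingHom := by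
  have h := Polynomial.ker_mapRingHom ψ.toRingHom
  exact h

theorem ker_mv (k R S : Type) [Field k] [CommRing R] [CommRing S] [Algebra k R] [Algebra k S]
    (m : ℕ) (ψ : R →ₐ[k] S) :
    RingHom.ker (MvPolynomial.mapAlgHom (σ := Fin m) ψ).toRingHom =
      (RingHom.ker ψ.toRingHom).map (MvPolynomial.C : R →+* MvPolynomial (Fin m) R) := by
  have h := MvPolynomial.ker_map (σ := Fin m) ψ.toRingHom
  exact h

end KERQ

theorem t_KERQ : S_KERQ := by
  refine ⟨KERQ.basis_inj, KERQ.ker_Qmap, ?_, ?_, KERQ.ker_mapX⟩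
  · intro k R S _ _ _ _ _ m f ψ
    have h1 := KERQ.ker_Qmap k _ _ (lin f) _ (MvPolynomial.mapAlgHom ψ) (map_lin ψ f)
    refine h1.trans ?_
    rw [KERQ.ker_mv, Ideal.map_map]
    rfl
  · intro k R S _ _ _ _ _ G f ψ
    have h0 : mapX ψ (C G + X * C f) = C (ψ G) + X * C (ψ f) := by simp [mapX]
    have h1 := KERQ.ker_Qmap k _ _ (C G + X * C f) _ (mapX ψ) h0
    refine h1.trans ?_
    rw [KERQ.ker_mapX, Ideal.map_map]
    rfl

end CUB
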