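import Pool.Agent.CUB.StmtsB

/-!
# CUB, module L0: cycles on polynomial rings
-/

set_option autoImplicit false

open Polynomial

namespace CUB

namespace L0

/-- In an ideal of `D[X]` there is an element which generates it up to constants. -/
theorem pd {D : Type} [CommRing D] [IsDomain D] (I : Ideal D[X]) (hI : I ≠ ⊥) :
    ∃ g ∈ I, g ≠ 0 ∧ ∀ f ∈ I, ∃ s : D, s ≠ 0 ∧ C s * f ∈ Ideal.span {g} := by
  classical
  have hex : ∃ n : ℕ, ∃ g ∈ I, g ≠ 0 ∧ g.natDegree = n := by
    obtain ⟨g, hg, hg0⟩ := Submodule.exists_mem_ne_zero_of_ne_bot hI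
    exact ⟨_, g, hg, hg0, rfl⟩
  obtain ⟨g, hg, hg0, hgn⟩ := Nat.find_spec hex
  have hmin : ∀ f ∈ I, f ≠ 0 → g.natDegree ≤ f.natDegree := by
    intro f hf hf0
    rw [hgn]
    exact Nat.find_min' hex ⟨f, hf, hf0, rfl⟩
  refine ⟨g, hg, hg0, ?_⟩
  have key : ∀ n : ℕ, ∀ f ∈ I, f.natDegree ≤ n → ∃ s : D, s ≠ 0 ∧ C s * f ∈ Ideal.span {g} := by
    intro n
    induction n using Nat.strong_induction_on with
    | _ n ih =>
      intro f hf hfn
      by_cases hf0 : f = 0
      · refine ⟨1, one_ne_zero, ?_⟩
        rw [hf0, mul_zero]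
        exact Submodule.zero_mem _
      have h1 := hmin f hf hf0
      have hlg : g.leadingCoeff ≠ 0 := leadingCoeff_ne_zero.2 hg0
      have hlf : f.leadingCoeff ≠ 0 := leadingCoeff_ne_zero.2 hf0
      set q : D[X] := C f.leadingCoeff * X ^ (f.natDegree - g.natDegree) with hq
      have hCf : C g.leadingCoeff * f ≠ 0 := mul_ne_zero (C_ne_zero.2 hlg) hf0
      have hd1 : (C g.leadingCoeff * f).degree = f.natDegree := by
        rw [degree_mul, degree_C hlg, zero_add, degree_eq_natDegree hf0]
      have hd2 : (q * g).degree = f.natDegree := by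
        rw [hq, degree_mul, degree_C_mul_X_pow _ hlf, degree_eq_natDegree hg0]
        norm_cast
        omega
      have hl : (C g.leadingCoeff * f).leadingCoeff = (q * g).leadingCoeff := by
        rw [hq, leadingCoeff_mul, leadingCoeff_mul, leadingCoeff_C, leadingCoeff_C_mul_X_pow]
        ring
      have hlt := degree_sub_lt_left (hd1.trans hd2.symm) hCf hl
      have hfI : C g.leadingCoeff * f - q * g ∈ I :=
        I.sub_mem (I.mul_mem_left _ hf) (I.mul_mem_left _ hg)
      have hspan : ∃ s : D, s ≠ 0 ∧ C s * (C g.leadingCoeff * f - q * g) ∈ Ideal.span {g} := by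
        by_cases h0 : C g.leadingCoeff * f - q * g = 0
        · refine ⟨1, one_ne_zero, ?_⟩
          rw [h0, mul_zero]
          exact Submodule.zero_mem _
        · have h2 : (C g.leadingCoeff * f - q * g).natDegree < f.natDegree := by
            rw [hd1, degree_eq_natDegree h0] at hlt
            exact_mod_cast hlt
          exact ih _ (lt_of_lt_of_le h2 hfn) _ hfI le_rfl
      obtain ⟨s, hs, h3⟩ := hspan
      refine ⟨s * g.leadingCoeff, mul_ne_zero hs hlg, ?_⟩
      have h4 : C (s * g.leadingCoeff) * f =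
          C s * (C g.leadingCoeff * f - q * g) + C s * q * g := by
        rw [C_mul]
        ring
      rw [h4]
      exact Ideal.add_mem _ h3 (Ideal.mul_mem_left _ _ (Ideal.mem_span_singleton_self g))
  intro f hf
  exact key _ f hf le_rfl

variable {R : Type} [CommRing R]

theorem gen (p : Ideal R) [p.IsPrime] (P : Ideal R[X]) (hne : ¬ P ≤ p.map (C : R →+* R[X])) :
    ∃ g ∈ P, g ∉ p.map (C : R →+* R[X]) ∧ ∀ f ∈ P, ∃ s : R, s ∉ p ∧
      C s * f ∈ p.map (C : R →+* R[X]) ⊔ Ideal.span {g} := by
  set π : R[X] →+* (R ⧸ p)[X] := mapRingHom (Ideal.Quotient.mk p) with hπ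
  have hsur : Function.Surjective π := map_surjective _ Ideal.Quotient.mk_surjective
  have hker : RingHom.ker π = p.map (C : R →+* R[X]) := by
    rw [hπ, ker_mapRingHom, Ideal.mk_ker]
  have hI : P.map π ≠ ⊥ := by
    intro h
    apply hne
    rw [← hker]
    intro f hf
    have h1 : π f ∈ P.map π := Ideal.mem_map_of_mem π hf
    rw [h] at h1
    exact h1
  obtain ⟨g', hg', hg0, h⟩ := pd (P.map π) hI
  obtain ⟨g, hg, rfl⟩ := (Ideal.mem_map_iff_of_surjective π hsur).1 hg'
  refine ⟨g, hg, ?_, ?_⟩
  · intro h1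
    rw [← hker] at h1
    exact hg0 h1
  · intro f hf
    obtain ⟨s', hs', h2⟩ := h (π f) (Ideal.mem_map_of_mem π hf)
    obtain ⟨s, rfl⟩ := Ideal.Quotient.mk_surjective s'
    obtain ⟨h', h3⟩ := Ideal.mem_span_singleton'.1 h2
    obtain ⟨h'', rfl⟩ := hsur h'
    refine ⟨s, fun hs => hs' (Ideal.Quotient.eq_zero_iff_mem.2 hs), ?_⟩
    have h4 : C s * f - h'' * g ∈ p.map (C : R →+* R[X]) := by
      rw [← hker, RingHom.mem_ker, map_sub, map_mul, map_mul, h3, hπ, coe_mapRingHom, map_C,
        sub_self]
    have h5 : C s * f = (C s * f - h'' * g) + h'' * g := by ring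
    rw [h5]
    exact Submodule.add_mem_sup h4 (Ideal.mul_mem_left _ _ (Ideal.mem_span_singleton_self g))

/-- The length is one if the ideal generates the maximal ideal of the localisation. -/
theorem len_one (P : PrimeSpectrum R[X]) (I : Ideal R[X]) (hI : I ≤ P.asIdeal)
    (h : ∀ f ∈ P.asIdeal, ∃ s ∉ P.asIdeal, s * f ∈ I) : len I P = 1 := by
  have h1 : I.map (algebraMap R[X] (Localization.AtPrime P.asIdeal)) =
      IsLocalRing.maximalIdeal (Localization.AtPrime P.asIdeal) := by
    rw [← Localization.AtPrime.map_eq_maximalIdeal]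
    refine le_antisymm (Ideal.map_mono hI) ?_
    rw [Ideal.map_le_iff_le_comap]
    intro f hf
    obtain ⟨s, hs, hsf⟩ := h f hf
    have h2 := Ideal.mem_map_of_mem (algebraMap R[X] (Localization.AtPrime P.asIdeal)) hsf
    rw [map_mul] at h2
    have h3 : IsUnit (algebraMap R[X] (Localization.AtPrime P.asIdeal) s) :=
      IsLocalization.map_units (Localization.AtPrime P.asIdeal) (⟨s, hs⟩ : P.asIdeal.primeCompl)
    exact (Ideal.unit_mul_mem_iff_mem _ h3).1 h2
  unfold len
  rw [h1]
  have h4 : IsSimpleModule (Localization.AtPrime P.asIdeal) (Localization.AtPrime P.asIdeal ⧸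
      IsLocalRing.maximalIdeal (Localization.AtPrime P.asIdeal)) :=
    isSimpleModule_iff_isCoatom.2 (Ideal.isMaximal_def.1 (IsLocalRing.maximalIdeal.isMaximal _))
  rw [Module.length_eq_one]
  rfl

variable {k : Type} [Field k] [Algebra k R]

/-- The dimension of `p R[X]`. -/
theorem rdim_map (p : PrimeSpectrum R) (Q : PrimeSpectrum R[X])
    (hQ : Q.asIdeal = p.asIdeal.map (C : R →+* R[X])) : rdim k p + 1 ≤ rdim k Q := by
  unfold rdim
  have h1 := trdeg_add_eq k (R ⧸ p.asIdeal) (A := (R ⧸ p.asIdeal)[X])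
  rw [Polynomial.trdeg_of_isDomain] at h1
  rw [h1]
  let f : R[X] →ₐ[k] (R ⧸ p.asIdeal)[X] := mapAlgHom (Ideal.Quotient.mkₐ k p.asIdeal)
  have hf : ∀ x ∈ Q.asIdeal, f x = 0 := by
    intro x hx
    rw [hQ, ← Ideal.mk_ker (I := p.asIdeal), ← ker_mapRingHom] at hx
    exact hx
  have hs : Function.Surjective (Ideal.Quotient.liftₐ Q.asIdeal f hf) := by
    intro y
    obtain ⟨x, rfl⟩ := map_surjective (Ideal.Quotient.mk p.asIdeal) Ideal.Quotient.mk_surjective y
    exact ⟨Ideal.Quotient.mk _ x, rfl⟩
  exact trdeg_le_of_surjective _ hs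

theorem le_rdim (P : PrimeSpectrum R[X]) :
    rdim k (PrimeSpectrum.comap (CC k R).toRingHom P) ≤ rdim k P := by
  have H : (PrimeSpectrum.comap (CC k R).toRingHom P).asIdeal ≤ P.asIdeal.comap (CC k R) := le_refl _
  have h1 : Function.Injective (Ideal.quotientMapₐ P.asIdeal (CC k R) H) :=
    Ideal.quotientMap_injective' (H := H) (le_refl _)
  exact trdeg_le_of_injective _ h1

/-- The first case. -/
theorem eq_map [Algebra.FiniteType k R] (hG : S_GX) (P : PrimeSpectrum R[X])
    (h : rdim k P = rdim k (PrimeSpectrum.comap (CC k R).toRingHom P) + 1) :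
    P.asIdeal = (PrimeSpectrum.comap (CC k R).toRingHom P).asIdeal.map (C : R →+* R[X]) := by
  have h1 := ((hG.1 k R).at' P).2 (by rw [Nat.cast_one]; exact h)
  set p := PrimeSpectrum.comap (CC k R).toRingHom P with hp
  have h1' : IsLocalRing.maximalIdeal (Localization.AtPrime P.asIdeal) ≤
      (p.asIdeal.map (C : R →+* R[X])).map
        (algebraMap R[X] (Localization.AtPrime P.asIdeal)) := by
    rw [Ideal.map_map]
    exact h1
  have hle : p.asIdeal.map (C : R →+* R[X]) ≤ P.asIdeal := by
    rw [Ideal.map_le_iff_le_comap]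
    exact le_refl _
  refine le_antisymm ?_ hle
  intro f hf
  have h2 : algebraMap R[X] (Localization.AtPrime P.asIdeal) f ∈
      (p.asIdeal.map (C : R →+* R[X])).map
        (algebraMap R[X] (Localization.AtPrime P.asIdeal)) := by
    apply h1'
    rw [← Localization.AtPrime.map_eq_maximalIdeal]
    exact Ideal.mem_map_of_mem _ hf
  have hpr : (p.asIdeal.map (C : R →+* R[X])).IsPrime := Ideal.isPrime_map_C_of_isPrime
  obtain ⟨s, hs, hsf⟩ := (IsLocalization.algebraMap_mem_map_algebraMap_iff P.asIdeal.primeCompl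
    (Localization.AtPrime P.asIdeal) (p.asIdeal.map (C : R →+* R[X])) f).1 h2
  rcases hpr.mem_or_mem hsf with h3 | h3
  · exact absurd (hle h3) hs
  · exact h3

theorem pull_single [Algebra.FiniteType k R] (hG : S_GX) (E : Type) [Field E] (n : ℕ)
    (P : RP k R[X] (n + 1)) (h : rdim k (PrimeSpectrum.comap (CC k R).toRingHom P.1) = n)
    (x : E) : IsPull k E 1 (CC k R) (Finsupp.single
      (⟨PrimeSpectrum.comap (CC k R).toRingHom P.1, h⟩ : RP k R n) x) (Finsupp.single P x) := by
  have hP : P.1.asIdeal = (PrimeSpectrum.comap (CC k R).toRingHom P.1).asIdeal.map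
      (C : R →+* R[X]) := by
    refine eq_map (k := k) hG P.1 ?_
    rw [h, P.2]
    push_cast
    rfl
  intro P'
  refine ⟨fun h' => ?_, fun h' => ?_⟩
  · by_cases he : P = P'
    · subst he
      rw [Finsupp.single_eq_same, Finsupp.single_eq_same]
    · rw [Finsupp.single_eq_of_ne' he, Finsupp.single_eq_of_ne']
      intro h2
      apply he
      apply Subtype.ext
      apply PrimeSpectrum.ext
      have hP' : P'.1.asIdeal = (PrimeSpectrum.comap (CC k R).toRingHom P'.1).asIdeal.map
          (C : R →+* R[X]) := by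
        refine eq_map (k := k) hG P'.1 ?_
        rw [h', P'.2]
        push_cast
        rfl
      have h3 := congrArg (fun z : RP k R n => z.1) h2
      rw [hP, hP']
      exact congrArg (fun z : PrimeSpectrum R => z.asIdeal.map (C : R →+* R[X])) h3
  · by_cases he : P = P'
    · subst he
      exact absurd h h'
    · exact Finsupp.single_eq_of_ne' he

/-- The second case. -/
theorem main [Algebra.FiniteType k R] (hD : S_DIM1) (hC : S_LENC) (hV : S_DVX) (hG : S_GX)
    (E : Type) [Field E] (m : ℕ) (P : RP k R[X] m)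
    (h : rdim k (PrimeSpectrum.comap (CC k R).toRingHom P.1) = m) :
    ∃ c : RP k R[X] m →₀ E, c ∈ rat k R[X] E m ∧ c P = 1 ∧ ∀ P' : RP k R[X] m, P' ≠ P →
      c P' ≠ 0 → rdim k (PrimeSpectrum.comap (CC k R).toRingHom P'.1) < m := by
  set p := PrimeSpectrum.comap (CC k R).toRingHom P.1 with hp
  let Q : PrimeSpectrum R[X] := ⟨p.asIdeal.map (C : R →+* R[X]), Ideal.isPrime_map_C_of_isPrime⟩
  have hQp : PrimeSpectrum.comap (CC k R).toRingHom Q = p := by
    apply PrimeSpectrum.ext
    ext r
    change C r ∈ p.asIdeal.map (C : R →+* R[X]) ↔ r ∈ p.asIdeal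
    rw [Ideal.mem_map_C_iff]
    constructor
    · intro h1
      simpa using h1 0
    · intro h1 n
      rw [coeff_C]
      split_ifs
      · exact h1
      · exact Submodule.zero_mem _
  have hQ1 : rdim k p + 1 ≤ rdim k Q := rdim_map p Q rfl
  have hQ2 := ((hG.1 k R).at' Q).1
  have hQ3 : rdim k Q = (m + 1 : ℕ) := by
    have h2 : rdim k Q ≤ rdim k (PrimeSpectrum.comap (CC k R).toRingHom Q) + (1 : ℕ) := hQ2
    rw [hQp, h] at h2
    rw [h] at hQ1
    refine le_antisymm ?_ ?_
    · exact_mod_cast h2
    · exact_mod_cast hQ1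
  have hQP : Q.asIdeal ≤ P.1.asIdeal := by
    change p.asIdeal.map (C : R →+* R[X]) ≤ P.1.asIdeal
    rw [Ideal.map_le_iff_le_comap]
    exact le_refl _
  have hne : ¬ P.1.asIdeal ≤ p.asIdeal.map (C : R →+* R[X]) := by
    intro h1
    have h2 : Q = P.1 := PrimeSpectrum.ext (le_antisymm hQP h1)
    rw [h2, P.2] at hQ3
    have h3 : m = m + 1 := by exact_mod_cast hQ3
    omega
  obtain ⟨g, hg, hgQ, hgen⟩ := gen p.asIdeal P.1.asIdeal hne
  let Qr : RP k R[X] (m + 1) := ⟨Q, hQ3⟩
  obtain ⟨c, hc⟩ := hV k R[X] E m Qr g hgQ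
  have hsmem : ∀ s : R, s ∉ p.asIdeal → C s ∉ P.1.asIdeal := fun s hs h1 => hs h1
  refine ⟨c, ?_, ?_, ?_⟩
  · apply Submodule.subset_span
    exact ⟨Qr, g, bot_le, hgQ, hc⟩
  · rw [hc P, len_one, Nat.cast_one]
    · refine sup_le hQP ?_
      rw [Ideal.span_le]
      rintro x rfl
      exact hg
    · intro f hf
      obtain ⟨s, hs, h1⟩ := hgen f hf
      exact ⟨C s, hsmem s hs, h1⟩
  · intro P' hP' hc'
    have h1 : len (Q.asIdeal ⊔ Ideal.span {g}) P'.1 ≠ 0 := by
      intro h2
      apply hc'
      rw [hc P']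
      change ((len (Q.asIdeal ⊔ Ideal.span {g}) P'.1 : ℕ) : E) = 0
      rw [h2, Nat.cast_zero]
    obtain ⟨h2, h3⟩ := (hC k R[X] m Qr P').2.1 g h1
    have hle : p ≤ PrimeSpectrum.comap (CC k R).toRingHom P'.1 := by
      rw [← hQp]
      intro r hr
      exact h2 hr
    rcases hle.eq_or_lt with he | hlt
    · exfalso
      have h4 : P.1.asIdeal ≤ P'.1.asIdeal := by
        intro f hf
        obtain ⟨s, hs, h5⟩ := hgen f hf
        have h6 : C s * f ∈ P'.1.asIdeal := by
          refine (sup_le h2 ?_) h5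
          rw [Ideal.span_le]
          rintro x rfl
          exact h3
        rcases P'.1.isPrime.mem_or_mem h6 with h7 | h7
        · exfalso
          apply hs
          rw [he]
          exact h7
        · exact h7
      have h5 : P.1 ≤ P'.1 := h4
      rcases h5.eq_or_lt with h6 | h6
      · exact hP' (Subtype.ext h6.symm)
      · have h7 := (hD k R[X] P.1).2 P'.1 h6
        rw [P.2, P'.2] at h7
        exact lt_irrefl _ h7
    · have h4 := (hD k R p).2 _ hlt
      rwa [h] at h4

end L0

open L0 in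
theorem t_L0 : M_L0 := by
  intro hD hC hV hG hF hL k R E _ _ _ _ _
  refine ⟨?_, ?_⟩
  · intro n
    have hadd : ∀ c c' : RP k R[X] (n + 1) →₀ E,
        (∃ (v : RP k R n →₀ E) (d : RP k R[X] (n + 1) →₀ E),
          IsPull k E 1 (CC k R) v d ∧ c - d ∈ rat k R[X] E (n + 1)) →
        (∃ (v : RP k R n →₀ E) (d : RP k R[X] (n + 1) →₀ E),
          IsPull k E 1 (CC k R) v d ∧ c' - d ∈ rat k R[X] E (n + 1)) →
        (∃ (v : RP k R n →₀ E) (d : RP k R[X] (n + 1) →₀ E),
          IsPull k E 1 (CC k R) v d ∧ (c + c') - d ∈ rat k R[X] E (n + 1)) := by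
      rintro c c' ⟨v, d, h1, h2⟩ ⟨v', d', h1', h2'⟩
      refine ⟨v + v', d + d', ((hL.1 k R R[X] E 1 n (CC k R) v v' d d' 0 h1 h1').2).1, ?_⟩
      have h3 : c + c' - (d + d') = (c - d) + (c' - d') := by abel
      rw [h3]
      exact Submodule.add_mem _ h2 h2'
    have hrat : ∀ c ∈ rat k R[X] E (n + 1), (∃ (v : RP k R n →₀ E) (d : RP k R[X] (n + 1) →₀ E),
          IsPull k E 1 (CC k R) v d ∧ c - d ∈ rat k R[X] E (n + 1)) := by
      intro c hc
      refine ⟨0, 0, ?_, by rwa [sub_zero]⟩
      intro P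
      exact ⟨fun _ => rfl, fun _ => rfl⟩
    have hsingle : ∀ (P : RP k R[X] (n + 1)) (x : E),
        rdim k (PrimeSpectrum.comap (CC k R).toRingHom P.1) = n →
        (∃ (v : RP k R n →₀ E) (d : RP k R[X] (n + 1) →₀ E),
          IsPull k E 1 (CC k R) v d ∧ Finsupp.single P x - d ∈ rat k R[X] E (n + 1)) := by
      intro P x h
      refine ⟨_, _, pull_single hG E n P h x, ?_⟩
      rw [sub_self]
      exact Submodule.zero_mem _
    have hlow : ∀ P : RP k R[X] (n + 1),
        rdim k (PrimeSpectrum.comap (CC k R).toRingHom P.1) < (n + 1 : ℕ) →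
        rdim k (PrimeSpectrum.comap (CC k R).toRingHom P.1) = n := by
      intro P h
      have h1 : rdim k P.1 ≤ rdim k (PrimeSpectrum.comap (CC k R).toRingHom P.1) + (1 : ℕ) :=
        ((hG.1 k R).at' P.1).1
      obtain ⟨j, hj⟩ := (hD k R (PrimeSpectrum.comap (CC k R).toRingHom P.1)).1
      rw [hj] at h h1 ⊢
      rw [P.2] at h1
      norm_cast at h h1 ⊢
      omega
    have hall : ∀ (P : RP k R[X] (n + 1)) (x : E),
        (∃ (v : RP k R n →₀ E) (d : RP k R[X] (n + 1) →₀ E),
          IsPull k E 1 (CC k R) v d ∧ Finsupp.single P x - d ∈ rat k R[X] E (n + 1)) := by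
      intro P x
      by_cases h : rdim k (PrimeSpectrum.comap (CC k R).toRingHom P.1) = (n + 1 : ℕ)
      · obtain ⟨c, hc, hcP, hc'⟩ := main hD hC hV hG E (n + 1) P h
        have h1 : ∀ (s : Finset (RP k R[X] (n + 1))), (∀ P' ∈ s, P' ≠ P ∧ c P' ≠ 0) →
            (∃ (v : RP k R n →₀ E) (d : RP k R[X] (n + 1) →₀ E),
              IsPull k E 1 (CC k R) v d ∧
                (∑ P' ∈ s, Finsupp.single P' (-x * c P')) - d ∈ rat k R[X] E (n + 1)) := by
          classical
          intro s
          induction s using Finset.induction_on with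
          | empty =>
            intro _
            rw [Finset.sum_empty]
            exact hrat 0 (Submodule.zero_mem _)
          | insert a s ha ih =>
            intro hs
            rw [Finset.sum_insert ha]
            refine hadd _ _ ?_ (ih fun P' hP' => hs P' (Finset.mem_insert_of_mem hP'))
            obtain ⟨h2, h3⟩ := hs a (Finset.mem_insert_self a s)
            exact hsingle a _ (hlow a (hc' a h2 h3))
        classical
        have h2 : Finsupp.single P x = x • c +
            ∑ P' ∈ c.support.erase P, Finsupp.single P' (-x * c P') := by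
          have h3 : c = Finsupp.single P 1 +
              ∑ P' ∈ c.support.erase P, Finsupp.single P' (c P') := by
            conv_lhs => rw [← Finsupp.sum_single c]
            rw [Finsupp.sum, ← Finset.add_sum_erase _ _ (a := P), hcP]
            rw [Finsupp.mem_support_iff, hcP]
            exact one_ne_zero
          conv_rhs => enter [1]; rw [h3]
          rw [smul_add, Finset.smul_sum, Finsupp.smul_single, smul_eq_mul, mul_one, add_assoc,
            ← Finset.sum_add_distrib]
          rw [Finset.sum_eq_zero, add_zero]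
          intro P' _
          rw [Finsupp.smul_single, ← Finsupp.single_add, smul_eq_mul, neg_mul, add_neg_cancel,
            Finsupp.single_zero]
        rw [h2]
        refine hadd _ _ (hrat _ (Submodule.smul_mem _ _ hc)) (h1 _ ?_)
        intro P' hP'
        rw [Finset.mem_erase, Finsupp.mem_support_iff] at hP'
        exact hP'
      · refine hsingle P x (hlow P ?_)
        refine lt_of_le_of_ne ?_ h
        have h1 := le_rdim (k := k) P.1
        rwa [P.2] at h1
    intro c
    induction c using Finsupp.induction_linear with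
    | zero => exact hrat 0 (Submodule.zero_mem _)
    | add f g hf hg => exact hadd _ _ hf hg
    | single P x => exact hall P x
  · intro c
    have hall : ∀ (P : RP k R[X] 0) (x : E), Finsupp.single P x ∈ rat k R[X] E 0 := by
      intro P x
      have h : rdim k (PrimeSpectrum.comap (CC k R).toRingHom P.1) = (0 : ℕ) := by
        have h1 := le_rdim (k := k) P.1
        rw [P.2] at h1
        exact le_antisymm h1 (le_of_eq_of_le Nat.cast_zero zero_le)
      obtain ⟨c, hc, hcP, hc'⟩ := main hD hC hV hG E 0 P h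
      have h2 : Finsupp.single P x = x • c := by
        classical
        refine Finsupp.ext fun P' => ?_
        by_cases he : P = P'
        · subst he
          rw [Finsupp.single_eq_same, Finsupp.smul_apply, hcP, smul_eq_mul, mul_one]
        · rw [Finsupp.single_eq_of_ne' he, Finsupp.smul_apply]
          by_cases h3 : c P' = 0
          · rw [h3, smul_zero]
          · exfalso
            have h4 := hc' P' (fun h5 => he h5.symm) h3
            exact absurd (lt_of_lt_of_eq h4 Nat.cast_zero) not_lt_zero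
      rw [h2]
      exact Submodule.smul_mem _ _ hc
    induction c using Finsupp.induction_linear with
    | zero => exact Submodule.zero_mem _
    | add f g hf hg => exact Submodule.add_mem _ hf hg
    | single P x => exact hall P x

end CUB
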