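import Pool.Agent.CUB.StmtsB

/-!
# Cycles on polynomial rings in several variables
-/

set_option autoImplicit false

open Polynomial

namespace CUB

namespace L0M

lemma ft_mv (k R : Type) [Field k] [CommRing R] [Algebra k R] [Algebra.FiniteType k R] (m : ℕ) :
    Algebra.FiniteType k (MvPolynomial (Fin m) R) :=
  Algebra.FiniteType.trans (S := R) inferInstance inferInstance

lemma ft_X (k R : Type) [Field k] [CommRing R] [Algebra k R] [Algebra.FiniteType k R] :
    Algebra.FiniteType k R[X] :=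
  Algebra.FiniteType.trans (S := R) inferInstance inferInstance

/-- The isomorphism `R[x_0, ..., x_m] ≃ R[x_1, ..., x_m][X]` over `k`. -/
noncomputable def fse (k R : Type) [Field k] [CommRing R] [Algebra k R] (m : ℕ) :
    MvPolynomial (Fin (m + 1)) R ≃ₐ[k] (MvPolynomial (Fin m) R)[X] :=
  (MvPolynomial.finSuccEquiv R m).restrictScalars k

lemma fse_comp (k R : Type) [Field k] [CommRing R] [Algebra k R] (m : ℕ) :
    (((fse k R m).symm : (MvPolynomial (Fin m) R)[X] →ₐ[k] MvPolynomial (Fin (m + 1)) R)).comp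
      ((CC k (MvPolynomial (Fin m) R)).comp
        (IsScalarTower.toAlgHom k R (MvPolynomial (Fin m) R))) =
      IsScalarTower.toAlgHom k R (MvPolynomial (Fin (m + 1)) R) := by
  refine AlgHom.ext fun r => ?_
  have h1 : fse k R m (algebraMap R (MvPolynomial (Fin (m + 1)) R) r) =
      algebraMap R (MvPolynomial (Fin m) R)[X] r := (MvPolynomial.finSuccEquiv R m).commutes r
  have h2 : (fse k R m).symm (algebraMap R (MvPolynomial (Fin m) R)[X] r) =
      algebraMap R (MvPolynomial (Fin (m + 1)) R) r := by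
    rw [← h1, AlgEquiv.symm_apply_apply]
  exact h2

/-- The isomorphism `R ≃ R[]` over `k`. -/
noncomputable def emp (k R : Type) [Field k] [CommRing R] [Algebra k R] :
    R ≃ₐ[k] MvPolynomial (Fin 0) R :=
  ((MvPolynomial.isEmptyAlgEquiv R (Fin 0)).restrictScalars k).symm

lemma emp_eq (k R : Type) [Field k] [CommRing R] [Algebra k R] :
    ((emp k R : R ≃ₐ[k] MvPolynomial (Fin 0) R) : R →ₐ[k] MvPolynomial (Fin 0) R) =
      IsScalarTower.toAlgHom k R (MvPolynomial (Fin 0) R) := by
  refine AlgHom.ext fun r => ?_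
  exact (MvPolynomial.isEmptyAlgEquiv R (Fin 0)).symm.commutes r

/-- Push-forward along an isomorphism and back. -/
lemma push_back (hP : S_PCO) {k A B E : Type} [Field k] [CommRing A] [CommRing B] [Algebra k A]
    [Algebra k B] [Field E] {n : ℕ} (e : A ≃ₐ[k] B) (c : RP k B n →₀ E) :
    push E (e.symm : B →ₐ[k] A) e.symm.surjective (push E (e : A →ₐ[k] B) e.surjective c) = c := by
  have h1 : Function.Surjective (AlgHom.id k B) := Function.surjective_id
  have h2 : AlgHom.id k B = (e : A →ₐ[k] B).comp (e.symm : B →ₐ[k] A) := by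
    ext x
    exact (e.apply_symm_apply x).symm
  have h3 := hP.1 k B A B E n (e.symm : B →ₐ[k] A) (e : A →ₐ[k] B) (AlgHom.id k B)
    e.symm.surjective e.surjective h1 h2 c
  rw [← h3]
  exact hP.2.1 k B E n (AlgHom.id k B) h1 rfl c

lemma main (hGX : S_GX) (hFPX : S_FPX) (hPLIN : S_PLIN) (hGCO : S_GCO) (hFP : S_FP)
    (hPCO : S_PCO) (hL0 : S_L0) : S_L0M := by
  intro k R E _ _ _ _ _ m
  -- pull-back along `CC` preserves rational equivalence
  have hrat : ∀ (A : Type) [CommRing A] [Algebra k A] [Algebra.FiniteType k A] (n : ℕ)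
      (c : RP k A n →₀ E) (d : RP k A[X] (n + 1) →₀ E), IsPull k E 1 (CC k A) c d →
      c ∈ rat k A E n → d ∈ rat k A[X] E (n + 1) := by
    intro A _ _ _ n c d h1 h2
    have := ft_X k A
    have h3 := hFP k A A[X] E 1 n (CC k A) (hGX.1 k A) ⊥ c d h1 h2
    rwa [Ideal.map_bot] at h3
  induction m with
  | zero =>
    refine ⟨fun n c => ?_, fun j hj => absurd hj (Nat.not_lt_zero _)⟩
    refine ⟨push E (emp k R : R →ₐ[k] MvPolynomial (Fin 0) R) (emp k R).surjective c, c, ?_, ?_⟩
    · rw [← emp_eq]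
      refine (hPLIN.2 k R (MvPolynomial (Fin 0) R) E n (emp k R) _ c).2 ?_
      exact push_back hPCO (emp k R) c
    · rw [sub_self]
      exact Submodule.zero_mem _
  | succ m ih =>
    have := ft_mv k R m
    have := ft_mv k R (m + 1)
    have := ft_X k (MvPolynomial (Fin m) R)
    set e := fse k R m with he
    refine ⟨fun n c => ?_, fun j hj c => ?_⟩
    · obtain ⟨v1, d1, hv1, hd1⟩ := (hL0 k (MvPolynomial (Fin m) R) E).1 (n + m)
        (push E (e.symm : (MvPolynomial (Fin m) R)[X] →ₐ[k] MvPolynomial (Fin (m + 1)) R)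
          e.symm.surjective c)
      obtain ⟨v, d2, hv, hd2⟩ := ih.1 n v1
      obtain ⟨d3, hd3⟩ := hFPX k _ _ E 1 (n + m) (CC k (MvPolynomial (Fin m) R))
        (hGX.1 k (MvPolynomial (Fin m) R)) d2
      have h1 : d1 - d3 ∈ rat k (MvPolynomial (Fin m) R)[X] E (n + m + 1) :=
        hrat (MvPolynomial (Fin m) R) (n + m) (v1 - d2) (d1 - d3)
          (hPLIN.1 k _ _ E 1 (n + m) _ v1 d2 d1 d3 0 hv1 hd3).2.2.1 hd2
      have h2 : IsPull k E (m + 1) ((CC k (MvPolynomial (Fin m) R)).comp
          (IsScalarTower.toAlgHom k R (MvPolynomial (Fin m) R))) v d3 :=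
        (hGCO.2.1 k R (MvPolynomial (Fin m) R) (MvPolynomial (Fin m) R)[X] E
          (IsScalarTower.toAlgHom k R (MvPolynomial (Fin m) R)) (CC k (MvPolynomial (Fin m) R))
          m n (hGX.2 k R m)).1 (hGX.1 k (MvPolynomial (Fin m) R)) v d2 d3 hv hd3
      have h3 : Good k (m + 1) ((CC k (MvPolynomial (Fin m) R)).comp
          (IsScalarTower.toAlgHom k R (MvPolynomial (Fin m) R))) :=
        hGCO.1 k R (MvPolynomial (Fin m) R) (MvPolynomial (Fin m) R)[X] _ _ m 1
          (hGX.2 k R m) (hGX.1 k (MvPolynomial (Fin m) R))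
      set d := push E (e : MvPolynomial (Fin (m + 1)) R →ₐ[k] (MvPolynomial (Fin m) R)[X])
        e.surjective d3 with hd
      have h4 : IsPull k E 0
          (e.symm : (MvPolynomial (Fin m) R)[X] →ₐ[k] MvPolynomial (Fin (m + 1)) R) d3 d :=
        (hPLIN.2 k (MvPolynomial (Fin m) R)[X] (MvPolynomial (Fin (m + 1)) R) E
          (n + m + 1) e.symm d3 d).2 rfl
      have h5 := (hGCO.2.1 k R (MvPolynomial (Fin m) R)[X] (MvPolynomial (Fin (m + 1)) R) E
        _ (e.symm : (MvPolynomial (Fin m) R)[X] →ₐ[k] MvPolynomial (Fin (m + 1)) R)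
        (m + 1) n h3).2 (hGCO.2.2.2 k _ _ e.symm) v d3 d h2 h4
      rw [fse_comp] at h5
      refine ⟨v, d, h5, ?_⟩
      have h6 : c = push E (e : MvPolynomial (Fin (m + 1)) R →ₐ[k] (MvPolynomial (Fin m) R)[X])
          e.surjective (push E
            (e.symm : (MvPolynomial (Fin m) R)[X] →ₐ[k] MvPolynomial (Fin (m + 1)) R)
            e.symm.surjective c) := (push_back hPCO e.symm c).symm
      have h7 : c - d = push E
          (e : MvPolynomial (Fin (m + 1)) R →ₐ[k] (MvPolynomial (Fin m) R)[X])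
          e.surjective (push E
            (e.symm : (MvPolynomial (Fin m) R)[X] →ₐ[k] MvPolynomial (Fin (m + 1)) R)
            e.symm.surjective c - d3) := by
        rw [map_sub, ← h6]
      rw [h7]
      refine (hPCO.2.2.1 k (MvPolynomial (Fin (m + 1)) R) (MvPolynomial (Fin m) R)[X] E
        (n + m + 1) e _).2 ?_
      have h8 := Submodule.add_mem _ hd1 h1
      rwa [sub_add_sub_cancel] at h8
    · refine (hPCO.2.2.1 k (MvPolynomial (Fin m) R)[X] (MvPolynomial (Fin (m + 1)) R) E j
        e.symm c).1 ?_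
      rcases j with _ | j
      · exact (hL0 k (MvPolynomial (Fin m) R) E).2 _
      · obtain ⟨v1, d1, hv1, hd1⟩ := (hL0 k (MvPolynomial (Fin m) R) E).1 j
          (push E e.symm.toAlgHom e.symm.surjective c)
        have h1 := hrat (MvPolynomial (Fin m) R) j v1 d1 hv1 (ih.2 j (by omega) v1)
        have h2 := Submodule.add_mem _ hd1 h1
        rwa [sub_add_cancel] at h2

end L0M

theorem t_L0M : M_L0M := fun h1 h2 h3 h4 h5 h6 h7 => L0M.main h1 h2 h3 h4 h5 h6 h7

end CUB
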