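import Pool.Agent.CUB.StmtsB

/-!
# CUB, module PCO: push-forward is functorial, isomorphisms preserve rational equivalence
-/

set_option autoImplicit false

open Polynomial

namespace CUB

namespace PCO

lemma push_comp (k A B C E : Type) [Field k] [CommRing A] [CommRing B] [CommRing C] [Algebra k A]
    [Algebra k B] [Algebra k C] [Field E] (n : ℕ) (φ : A →ₐ[k] B) (χ : B →ₐ[k] C)
    (ψ : A →ₐ[k] C) (hφ : Function.Surjective φ) (hχ : Function.Surjective χ)
    (hψ : Function.Surjective ψ) (h : ψ = χ.comp φ) (c : RP k C n →₀ E) :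
    push E ψ hψ c = push E φ hφ (push E χ hχ c) := by
  subst h
  have h1 : (pushP (χ.comp φ) hψ : RP k C n → RP k A n) = pushP φ hφ ∘ pushP χ hχ := by
    funext P
    rfl
  change Finsupp.mapDomain (pushP (χ.comp φ) hψ) c =
    Finsupp.mapDomain (pushP φ hφ) (Finsupp.mapDomain (pushP χ hχ) c)
  rw [h1, Finsupp.mapDomain_comp]

lemma push_id (k A E : Type) [Field k] [CommRing A] [Algebra k A] [Field E] (n : ℕ)
    (φ : A →ₐ[k] A) (hφ : Function.Surjective φ) (h : φ = AlgHom.id k A) (c : RP k A n →₀ E) :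
    push E φ hφ c = c := by
  subst h
  have h1 : (pushP (AlgHom.id k A) hφ : RP k A n → RP k A n) = id := by
    funext P
    rfl
  change Finsupp.mapDomain (pushP (AlgHom.id k A) hφ) c = c
  rw [h1, Finsupp.mapDomain_id]

lemma push_rat (hP : S_PUSH) (k A B E : Type) [Field k] [CommRing A] [CommRing B] [Algebra k A]
    [Algebra k B] [Field E] (n : ℕ) (e : A ≃ₐ[k] B) (c : RP k B n →₀ E) :
    push E e.toAlgHom e.surjective c ∈ rat k A E n ↔ c ∈ rat k B E n := by
  have h := (hP k A B E e.toAlgHom e.surjective n).2.1 ⊥ c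
  have h2 : (⊥ : Ideal B).comap e.toAlgHom.toRingHom = ⊥ :=
    (RingHom.injective_iff_ker_eq_bot e.toAlgHom.toRingHom).mp e.injective
  rw [h2] at h
  exact h

lemma ptau_ptau (k T E : Type) [Field k] [CommRing T] [Algebra k T] [Field E] (g : T) (n : ℕ)
    (c : RP k (Q T g) n →₀ E) : ptau E g (ptau E g c) = c := by
  have h := push_comp k (Q T g) (Q T g) (Q T g) E n (tauH g) (tauH g) (AlgHom.id k (Q T g))
    (tauH_surjective g) (tauH_surjective g) Function.surjective_id (tauHom_comp g).symm c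
  have h2 := push_id k (Q T g) E n (AlgHom.id k (Q T g)) Function.surjective_id rfl c
  exact h.symm.trans h2

end PCO

theorem t_PCO : M_PCO := by
  intro hP hL
  refine ⟨fun k A B C E _ _ _ _ _ _ _ _ n φ χ ψ hφ hχ hψ h c =>
      PCO.push_comp k A B C E n φ χ ψ hφ hχ hψ h c,
    fun k A E _ _ _ _ n φ hφ h c => PCO.push_id k A E n φ hφ h c,
    fun k A B E _ _ _ _ _ _ n e c => PCO.push_rat hP k A B E n e c, ?_⟩
  intro k T E _ _ _ _ g n c
  refine ⟨PCO.ptau_ptau k T E g n c, ?_, ?_⟩
  · exact (hL.2 k (Q T g) (Q T g) E n (tau g) c (ptau E g c)).mpr rfl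
  · intro hc
    exact (PCO.push_rat hP k (Q T g) (Q T g) E n (tau g) c).mpr hc

end CUB
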