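import Pool.Agent.CUB.StmtsC

/-!
# CHI2: the charts and the sheets
-/

set_option autoImplicit false

open Polynomial

namespace CUB

namespace CHI2

variable {k : Type} [Field k] {R R' : Type} [CommRing R] [CommRing R'] [Algebra k R]
  [Algebra k R']

theorem comm {G f v : R} (hv : v ^ 2 - v = G) (u : Rˣ) (hu : (u : R) = 2 * v - 1)
    (ψ : R →ₐ[k] R') (hf : ψ f = 0) (h0 : (ψ v) ^ 2 - ψ v = ψ G) :
    (muH (k := k) (Units.map ψ.toRingHom.toMonoidHom u)).comp (shv ψ hf (ψ v) h0) =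
      (mapX ψ).comp (chi (k := k) (f := f) v hv) := by
  have hu' : ((Units.map ψ.toRingHom.toMonoidHom u : R'ˣ) : R') = ψ (2 * v - 1) := by
    rw [← hu]
    rfl
  apply Q_ext
  · intro P
    rw [AlgHom.comp_apply, AlgHom.comp_apply, shv_algebraMap, chi_algebraMap]
    have h1 := evs_unique ((CC k R').comp ψ) (C (ψ (2 * v - 1)) * X)
      ((muH (k := k) (Units.map ψ.toRingHom.toMonoidHom u)).comp (mapX ψ))
      (fun r => by
        rw [AlgHom.comp_apply]
        have : mapX ψ (C r) = C (ψ r) := Polynomial.map_C _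
        rw [this]
        exact mu_C _ _)
      (by
        rw [AlgHom.comp_apply]
        have : mapX ψ X = X := Polynomial.map_X _
        rw [this, ← hu']
        exact mu_X _)
    have h2 := evs_unique ((CC k R').comp ψ) (C (ψ (2 * v - 1)) * X)
      ((mapX ψ).comp (evs (CC k R) (X * (X * C f + C (2 * v - 1)))))
      (fun r => by
        rw [AlgHom.comp_apply, evs_C, CC_apply]
        exact Polynomial.map_C _)
      (by
        rw [AlgHom.comp_apply, evs_X]
        have h3 : mapX ψ (X * (X * C f + C (2 * v - 1))) =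
            X * (X * C (ψ f) + C (ψ (2 * v - 1))) := by
          simp [mapX]
        rw [h3, hf]
        simp [mul_comm])
    have h4 := AlgHom.congr_fun (h1.trans h2.symm) P
    exact h4
  · rw [AlgHom.comp_apply, AlgHom.comp_apply, shv_yy, chi_yy]
    have h3 : mapX ψ (C v + X * C f) = C (ψ v) + X * C (ψ f) := by
      simp [mapX]
    rw [h3, hf, C_0, mul_zero, add_zero]
    exact mu_C _ _

theorem chi_f {G f v : R} (hv : v ^ 2 - v = G) :
    chi (k := k) (f := f) v hv (algebraMap R[X] (YY G f) (C f)) = C f := by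
  rw [chi_algebraMap, evs_C, CC_apply]

theorem shv_f {G f : R} (ψ : R →ₐ[k] R') (hf : ψ f = 0) (w : R') (hw : w ^ 2 - w = ψ G) :
    shv ψ hf w hw (algebraMap R[X] (YY G f) (C f)) = 0 := by
  rw [shv_algebraMap]
  have : mapX ψ (C f) = C (ψ f) := Polynomial.map_C _
  rw [this, hf, C_0]

theorem mem_map_eq {A B : Type} [CommRing A] [CommRing B] (φ : A →+* B) (I : Ideal A) (a : A)
    (b : B) (ha : a ∈ I) (h : φ a = b) : b ∈ I.map φ := by
  subst h
  exact Ideal.mem_map_of_mem φ ha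

theorem ker {G f v : R} (hv : v ^ 2 - v = G) (ψ : R →ₐ[k] R') (hf : ψ f = 0)
    (hk : RingHom.ker ψ.toRingHom = Ideal.span {f}) (h0 : (ψ v) ^ 2 - ψ v = ψ G) :
    RingHom.ker (mapX ψ).toRingHom ≤
      (RingHom.ker (shv ψ hf (ψ v) h0).toRingHom).map
        (chi (k := k) (f := f) v hv).toRingHom := by
  have h1 : RingHom.ker (mapX ψ).toRingHom = Ideal.span {C f} := by
    have h2 : RingHom.ker (mapX ψ).toRingHom = RingHom.ker (Polynomial.mapRingHom ψ.toRingHom) :=
      rfl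
    rw [h2, Polynomial.ker_mapRingHom, hk, Ideal.map_span, Set.image_singleton]
  rw [h1, Ideal.span_singleton_le_iff_mem]
  have h3 : (chi (k := k) (f := f) v hv).toRingHom (algebraMap R[X] (YY G f) (C f)) = C f :=
    chi_f hv
  have h4 : algebraMap R[X] (YY G f) (C f) ∈ RingHom.ker (shv ψ hf (ψ v) h0).toRingHom := by
    rw [RingHom.mem_ker]
    exact shv_f ψ hf (ψ v) h0
  exact mem_map_eq _ _ _ _ h4 h3

theorem zero {G f v : R} (hv : v ^ 2 - v = G) (u : Rˣ) (hu : (u : R) = 2 * v - 1)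
    (ψ : R →ₐ[k] R') (hψ : Function.Surjective ψ) (hf : ψ f = 0)
    (h1 : (1 - ψ v) ^ 2 - (1 - ψ v) = ψ G) (E : Type) [Field E] (n : ℕ)
    (c₁ : RP k R'[X] n →₀ E) :
    IsPull k E 0 (chi (k := k) (f := f) v hv)
      (push E (shv ψ hf (1 - ψ v) h1) (shv_surjective ψ hψ hf _ h1) c₁) 0 := by
  intro P
  refine ⟨fun h => ?_, fun _ => rfl⟩
  symm
  refine Finsupp.mapDomain_of_notMem_range _ _ ?_
  rintro ⟨P', hP'⟩
  have h2 : (pushP (shv ψ hf (1 - ψ v) h1) (shv_surjective ψ hψ hf _ h1) P').1.asIdeal =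
      P.1.asIdeal.comap (chi (k := k) (f := f) v hv).toRingHom := by
    rw [hP']
    rfl
  have h3 : ∀ b : YY G f, shv ψ hf (1 - ψ v) h1 b = 0 →
      chi (k := k) (f := f) v hv b ∈ P.1.asIdeal := by
    intro b hb
    have h4 : b ∈ (pushP (shv ψ hf (1 - ψ v) h1) (shv_surjective ψ hψ hf _ h1) P').1.asIdeal := by
      change shv ψ hf (1 - ψ v) h1 b ∈ P'.1.asIdeal
      rw [hb]
      exact P'.1.asIdeal.zero_mem
    rw [h2] at h4
    exact h4
  have h5 := h3 _ (shv_f ψ hf (1 - ψ v) h1)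
  rw [chi_f] at h5
  have h6 := h3 (yy (C G + X * C f) - algebraMap R[X] (YY G f) (C (1 - v))) (by
    rw [map_sub, shv_yy, shv_algebraMap]
    have : mapX ψ (C (1 - v)) = C (ψ (1 - v)) := Polynomial.map_C _
    have h9 : ψ (1 - v) = 1 - ψ v := by rw [map_sub, map_one]
    rw [this, h9, sub_self])
  rw [map_sub, chi_yy, chi_algebraMap, evs_C, CC_apply] at h6
  have h7 : (C (u : R) : R[X]) ∈ P.1.asIdeal := by
    have h8 : (C (u : R) : R[X]) = (C v + X * C f - C (1 - v)) - X * C f := by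
      rw [hu]
      simp only [map_sub, map_mul, map_one]
      have h2 : (C (2 : R) : R[X]) = 2 := rfl
      rw [h2]
      ring
    rw [h8]
    exact P.1.asIdeal.sub_mem h6 (P.1.asIdeal.mul_mem_left _ h5)
  exact P.1.2.ne_top (Ideal.eq_top_of_isUnit_mem _ h7 (u.isUnit.map C))

end CHI2

open CHI2 in
theorem t_CHI2 : M_CHI2 := by
  intro hB hL k R R' E _ _ _ _ _ _ _ G f v hv u hu ψ hψ hf hk h0 h1 n c₀ c₁
  refine ⟨_, (hL.2 k R'[X] R'[X] E n (mu (Units.map ψ.toRingHom.toMonoidHom u)) c₀ _).2 rfl, ?_⟩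
  have h2 := hB k (YY G f) R[X] R'[X] R'[X] E 0 n (chi (k := k) (f := f) v hv)
    (muH (Units.map ψ.toRingHom.toMonoidHom u)) (shv ψ hf (ψ v) h0) (mapX ψ)
    (shv_surjective ψ hψ hf _ h0) (mapX_surjective ψ hψ) (comm hv u hu ψ hf h0)
    (ker hv ψ hf hk h0) c₀ _
    ((hL.2 k R'[X] R'[X] E n (mu (Units.map ψ.toRingHom.toMonoidHom u)) c₀ _).2 rfl)
  have h3 := (hL.1 k (YY G f) R[X] E 0 n _ _ _ _ _ 0 h2
    (zero hv u hu ψ hψ hf h1 E n c₁)).2.1
  rw [add_zero] at h3
  exact h3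

end CUB
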