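import Pool.Agent.CUB.StmtsC

/-!
# CIN: the injectivity statement on cycles
-/

set_option autoImplicit false

open Polynomial

namespace CUB

namespace CIN

lemma ptau_ptau {k T E : Type} [Field k] [CommRing T] [Algebra k T] [Field E] (g : T) {n : ℕ}
    (c : RP k (Q T g) n →₀ E) : ptau E g (ptau E g c) = c := by
  unfold ptau push
  rw [Finsupp.lmapDomain_apply, Finsupp.lmapDomain_apply, ← Finsupp.mapDomain_comp]
  have h : (pushP (tauH (k := k) g) (tauH_surjective g) ∘
      pushP (tauH (k := k) g) (tauH_surjective g) : RP k (Q T g) n → RP k (Q T g) n) = id := by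
    funext P
    apply Subtype.ext
    apply PrimeSpectrum.ext
    change Ideal.comap (tauH (k := k) g).toRingHom (Ideal.comap (tauH (k := k) g).toRingHom
      P.1.asIdeal) = P.1.asIdeal
    rw [Ideal.comap_comap]
    have h2 : (tauH (k := k) g).toRingHom.comp (tauH (k := k) g).toRingHom =
        RingHom.id (Q T g) := by
      apply RingHom.ext
      intro x
      exact AlgHom.congr_fun (tauHom_comp (k := k) g) x
    rw [h2, Ideal.comap_id]
  rw [h, Finsupp.mapDomain_id]

end CIN

theorem t_CIN : M_CIN := by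
  intro hFP _ hCHC hSHE hMVI k R R' E _ _ _ _ _ _ _ _ _ m n f ψ hψ h hker z d hzd hpush
  have hft : Algebra.FiniteType k R' := Algebra.FiniteType.of_surjective ψ hψ
  have h' : ∀ j, AlgHom.id k R' (ψ (f j)) = 0 := h
  obtain ⟨g0, _, _, hpull, htau, hp0, hp1⟩ := hSHE k R R' E (m + 1) f ψ hψ h h' (n + (m + 1))
  set s₀ := sheet (AlgHom.id k R') (fun j => ψ (f j)) h' false
  set s₁ := sheet (AlgHom.id k R') (fun j => ψ (f j)) h' true
  set p₀ := push E (n := n + (m + 1)) s₀ (sheet_surjective _ Function.surjective_id _ h' false)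
  set p₁ := push E (n := n + (m + 1)) s₁ (sheet_surjective _ Function.surjective_id _ h' true)
  have hc : ptau E _ (p₀ d + p₁ (-d)) = -(p₀ d + p₁ (-d)) := by
    rw [map_neg, ← htau d, map_add, map_neg, CIN.ptau_ptau]
    abel
  have hc2 : push E (VRmap ψ f) (VRmap_surjective ψ hψ f) (p₀ d + p₁ (-d)) ∈
      rat k (VR R f) E (n + (m + 1)) := by
    rw [map_add, hp0, hp1, map_neg, ← sub_eq_add_neg]
    exact hpush
  have hset : f '' {j | j ∈ List.finRange (m + 1)} = Set.range f := by
    have : {j | j ∈ List.finRange (m + 1)} = Set.univ := by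
      ext j
      simp
    rw [this, Set.image_univ]
  have hc3 : p₀ d + p₁ (-d) ∈ rat k (VR R' (fun j => ψ (f j))) E (n + (m + 1)) :=
    hCHC k E m (List.finRange (m + 1)) R R' f ψ hψ (by rw [hset]; exact hker) _ _ hc hc2
  have hpd : IsPull k E 0 s₀ (p₀ d + p₁ (-d)) d := hpull d (-d)
  have hd : d ∈ rat k (MvPolynomial (Fin (m + 1)) R') E (n + (m + 1)) := by
    have h3 := hFP k (VR R' (fun j => ψ (f j))) (MvPolynomial (Fin (m + 1)) R') E 0
      (n + (m + 1)) s₀ g0 ⊥ _ d hpd hc3
    rw [Ideal.map_bot] at h3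
    exact h3
  exact hMVI k R' E (m + 1) n z d hzd hd

end CUB
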