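import Pool.Agent.CUB.StmtsC

/-!
# CUB, block C: surjectivity on cycles, one equation (S_CS1)
-/

set_option autoImplicit false

open Polynomial

namespace CUB

namespace CS1

/-- The localisation homomorphism. -/
noncomputable abbrev locA (k : Type) {V : Type} [Field k] [CommRing V] [Algebra k V] (b : V) :
    V →ₐ[k] Localization.Away b := IsScalarTower.toAlgHom k V (Localization.Away b)

lemma isLoc (k : Type) {V : Type} [Field k] [CommRing V] [Algebra k V] (b : V) :
    @IsLocalization.Away V _ b (Localization.Away b) _ (locA k b).toRingHom.toAlgebra := by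
  have h : (locA k b).toRingHom.toAlgebra =
      (inferInstance : Algebra V (Localization.Away b)) := Algebra.algebra_ext _ _ (fun r => rfl)
  rw [h]
  infer_instance

/-- Every cycle of dimension `n + m + 1` on a polynomial ring in `m + 1` variables is a pull-back
from the base, up to rational equivalence. -/
lemma polyStep (hFP : S_FP) (hFPX : S_FPX) (hPLIN : S_PLIN) (hGCO : S_GCO) (hGX : S_GX)
    (hL0 : S_L0) (hL0M : S_L0M) (k S E : Type) [Field k] [CommRing S] [Algebra k S]
    [Algebra.FiniteType k S] [Field E] (m n : ℕ)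
    (c : RP k (MvPolynomial (Fin m) S)[X] (n + m + 1) →₀ E) :
    ∃ (z : RP k S n →₀ E) (d : RP k (MvPolynomial (Fin m) S)[X] (n + m + 1) →₀ E),
      IsPull k E (m + 1) ((CC k (MvPolynomial (Fin m) S)).comp
        (IsScalarTower.toAlgHom k S (MvPolynomial (Fin m) S))) z d ∧
      c - d ∈ rat k (MvPolynomial (Fin m) S)[X] E (n + m + 1) := by
  obtain ⟨v, d1, hd1, hc1⟩ := (hL0 k (MvPolynomial (Fin m) S) E).1 (n + m) c
  obtain ⟨z, d', hd', hv⟩ := (hL0M k S E m).1 n v
  have hC : Good k 1 (CC k (MvPolynomial (Fin m) S)) := hGX.1 k (MvPolynomial (Fin m) S)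
  have hS : Good k m (IsScalarTower.toAlgHom k S (MvPolynomial (Fin m) S)) := hGX.2 k S m
  obtain ⟨d'', hd''⟩ := hFPX k (MvPolynomial (Fin m) S) (MvPolynomial (Fin m) S)[X] E 1 (n + m)
    (CC k _) hC d'
  refine ⟨z, d'', ?_, ?_⟩
  · exact (hGCO.2.1 k S (MvPolynomial (Fin m) S) (MvPolynomial (Fin m) S)[X] E _ _ m n hS).1 hC
      z d' d'' hd' hd''
  · have h1 : IsPull k E 1 (CC k (MvPolynomial (Fin m) S)) (v - d') (d1 - d'') :=
      (hPLIN.1 k _ _ E 1 (n + m) _ v d' d1 d'' 0 hd1 hd'').2.2.1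
    have h2 := hFP k _ _ E 1 (n + m) _ hC ⊥ _ _ h1 hv
    rw [Ideal.map_bot] at h2
    have h3 : c - d'' = (c - d1) + (d1 - d'') := by abel
    rw [h3]
    exact Submodule.add_mem _ hc1 h2

/-- Push-forward along an isomorphism and its inverse. -/
lemma push_push_symm (hPCO : S_PCO) (k A B E : Type) [Field k] [CommRing A] [CommRing B]
    [Algebra k A] [Algebra k B] [Field E] (n : ℕ) (e : A ≃ₐ[k] B) (c : RP k A n →₀ E) :
    push E e.toAlgHom e.surjective (push E e.symm.toAlgHom e.symm.surjective c) = c := by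
  have h1 := hPCO.1 k A B A E n e.toAlgHom e.symm.toAlgHom (AlgHom.id k A) e.surjective
    e.symm.surjective Function.surjective_id (AlgHom.ext fun x => (e.symm_apply_apply x).symm) c
  rw [← h1]
  exact hPCO.2.1 k A E n (AlgHom.id k A) Function.surjective_id rfl c

/-- The same for a ring which is isomorphic to a polynomial ring in `m + 1` variables over a ring
`S`. -/
lemma isoStep (hFP : S_FP) (hFPX : S_FPX) (hPLIN : S_PLIN) (hGCO : S_GCO) (hGX : S_GX)
    (hPCO : S_PCO) (hL0 : S_L0) (hL0M : S_L0M) (k S B E : Type) [Field k] [CommRing S]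
    [CommRing B] [Algebra k S] [Algebra k B] [Algebra.FiniteType k S] [Algebra.FiniteType k B]
    [Field E] (m n : ℕ) (e : B ≃ₐ[k] (MvPolynomial (Fin m) S)[X])
    (c : RP k B (n + (m + 1)) →₀ E) :
    ∃ (z : RP k S n →₀ E) (d : RP k B (n + (m + 1)) →₀ E),
      IsPull k E (m + 1) (e.symm.toAlgHom.comp ((CC k (MvPolynomial (Fin m) S)).comp
        (IsScalarTower.toAlgHom k S (MvPolynomial (Fin m) S)))) z d ∧
      c - d ∈ rat k B E (n + (m + 1)) := by
  obtain ⟨z, d, hd, hc⟩ := polyStep hFP hFPX hPLIN hGCO hGX hL0 hL0M k S E m n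
    (push E e.symm.toAlgHom e.symm.surjective c)
  have hC : Good k 1 (CC k (MvPolynomial (Fin m) S)) := hGX.1 k (MvPolynomial (Fin m) S)
  have hS : Good k m (IsScalarTower.toAlgHom k S (MvPolynomial (Fin m) S)) := hGX.2 k S m
  have hCS : Good k (m + 1) ((CC k (MvPolynomial (Fin m) S)).comp
      (IsScalarTower.toAlgHom k S (MvPolynomial (Fin m) S))) :=
    hGCO.1 k S (MvPolynomial (Fin m) S) (MvPolynomial (Fin m) S)[X] _ _ m 1 hS hC
  have he : Good k 0 e.symm.toAlgHom := hGCO.2.2.2 k _ _ e.symm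
  have hp : IsPull k E 0 e.symm.toAlgHom d (push E e.toAlgHom e.surjective d) :=
    (hPLIN.2 k _ _ E _ e.symm d _).2 rfl
  refine ⟨z, push E e.toAlgHom e.surjective d, ?_, ?_⟩
  · exact (hGCO.2.1 k S (MvPolynomial (Fin m) S)[X] B E _ _ (m + 1) n hCS).2 he z d _ hd hp
  · refine (hPCO.2.2.1 k _ _ E _ e.symm _).1 ?_
    rw [map_sub]
    have h1 := push_push_symm hPCO k (MvPolynomial (Fin m) S)[X] B E (n + m + 1) e.symm d
    have h2 : push E e.symm.toAlgHom e.symm.surjective (push E e.toAlgHom e.surjective d) = d := h1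
    rw [h2]
    exact hc

end CS1

theorem t_CS1 : M_CS1 := by
  intro hFP hFPX hPLIN hGCO hGX hGLO hGVR hVRL hLOC hPUSH hPCO hKERQ hL0 hL0M
    k R R' E _ _ _ _ _ _ _ m n f l ψ hψ hker ζ
  set a : VR R f := VRbase (k := k) f (f l) with ha
  obtain ⟨e, he, -⟩ := hVRL k R (Localization.Away (f l)) (Localization.Away a) m f l
    (CS1.locA k (f l)) (CS1.locA k a) (CS1.isLoc k _) (CS1.isLoc k _)
  have hφ : Good k 0 (CS1.locA k a) := hGLO k _ _ (CS1.locA k a) a (CS1.isLoc k a)
  have hσ : Good k 0 (CS1.locA k (f l)) := hGLO k _ _ (CS1.locA k (f l)) (f l) (CS1.isLoc k _)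
  have hV : Good k (m + 1) (VRbase (k := k) f) := hGVR k R (m + 1) f
  -- the restriction of `ζ`
  obtain ⟨ζB, hζB⟩ := hFPX k (VR R f) (Localization.Away a) E 0 (n + (m + 1)) (CS1.locA k a) hφ ζ
  obtain ⟨z', dB, hdB, hrat⟩ := CS1.isoStep hFP hFPX hPLIN hGCO hGX hPCO hL0 hL0M k
    (Localization.Away (f l)) (Localization.Away a) E m n e ζB
  obtain ⟨z, hz⟩ := (hLOC k R (Localization.Away (f l)) E (CS1.locA k (f l)) (f l)
    (CS1.isLoc k _) n ⊥).2 z'
  obtain ⟨y, hy⟩ := hFPX k R (VR R f) E (m + 1) n (VRbase f) hV z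
  obtain ⟨yB, hyB⟩ := hFPX k (VR R f) (Localization.Away a) E 0 (n + (m + 1)) (CS1.locA k a) hφ y
  -- the two pull-backs agree
  have h1 : IsPull k E (m + 1) ((CS1.locA k a).comp (VRbase f)) z yB :=
    (hGCO.2.1 k R (VR R f) (Localization.Away a) E (VRbase f) (CS1.locA k a) (m + 1) n hV).2 hφ
      z y yB hy hyB
  have hC : Good k 1 (CC k (MvPolynomial (Fin m) (Localization.Away (f l)))) := hGX.1 k _
  have hS : Good k m (IsScalarTower.toAlgHom k (Localization.Away (f l))
      (MvPolynomial (Fin m) (Localization.Away (f l)))) := hGX.2 k _ m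
  have hCS : Good k (m + 1) ((CC k (MvPolynomial (Fin m) (Localization.Away (f l)))).comp
      (IsScalarTower.toAlgHom k (Localization.Away (f l))
        (MvPolynomial (Fin m) (Localization.Away (f l))))) :=
    hGCO.1 k _ _ _ _ _ m 1 hS hC
  have hes : Good k 0 e.symm.toAlgHom := hGCO.2.2.2 k _ _ e.symm
  have hall : Good k (m + 1) (e.symm.toAlgHom.comp
      ((CC k (MvPolynomial (Fin m) (Localization.Away (f l)))).comp
      (IsScalarTower.toAlgHom k (Localization.Away (f l))
        (MvPolynomial (Fin m) (Localization.Away (f l)))))) :=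
    hGCO.1 k _ _ _ _ _ (m + 1) 0 hCS hes
  have h2 : IsPull k E (m + 1) ((e.symm.toAlgHom.comp
      ((CC k (MvPolynomial (Fin m) (Localization.Away (f l)))).comp
      (IsScalarTower.toAlgHom k (Localization.Away (f l))
        (MvPolynomial (Fin m) (Localization.Away (f l)))))).comp (CS1.locA k (f l))) z dB :=
    hGCO.2.2.1 k R (Localization.Away (f l)) (Localization.Away a) E (CS1.locA k (f l)) _
      (m + 1) n hσ hall z z' dB hz hdB
  have h3 : (e.symm.toAlgHom.comp
      ((CC k (MvPolynomial (Fin m) (Localization.Away (f l)))).comp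
      (IsScalarTower.toAlgHom k (Localization.Away (f l))
        (MvPolynomial (Fin m) (Localization.Away (f l)))))).comp (CS1.locA k (f l)) =
      (CS1.locA k a).comp (VRbase f) := by
    refine AlgHom.ext fun r => ?_
    have h9 := he r
    have h10 : e.symm (Polynomial.C (MvPolynomial.C (CS1.locA k (f l) r))) =
        CS1.locA k a (VRbase (k := k) f r) := by
      rw [← h9, AlgEquiv.symm_apply_apply]
    exact h10
  rw [h3] at h2
  have h4 : yB = dB := (hPLIN.1 k R (Localization.Away a) E (m + 1) n _ z z yB dB 0 h1 h2).1 rfl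
  have h5 : IsPull k E 0 (CS1.locA k a) (ζ - y) (ζB - yB) :=
    (hPLIN.1 k _ _ E 0 (n + (m + 1)) _ ζ y ζB yB 0 hζB hyB).2.2.1
  have h6 : ζB - yB ∈ ratOn k E (n + (m + 1)) ((⊥ : Ideal (VR R f)).map
      (CS1.locA k a).toRingHom) := by
    rw [Ideal.map_bot, h4]
    exact hrat
  obtain ⟨ρ, hρ, hsupp⟩ := (hLOC k (VR R f) (Localization.Away a) E (CS1.locA k a) a
    (CS1.isLoc k a) (n + (m + 1)) ⊥).1 (ζ - y) (ζB - yB) h5 h6
  have h7 : RingHom.ker (VRmap ψ f).toRingHom = Ideal.span {a} := by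
    rw [hKERQ.2.2.1 k R R' (m + 1) f ψ, hker, Ideal.map_span, Set.image_singleton]
    rfl
  rw [← h7] at hsupp
  obtain ⟨ξ, hξ⟩ := ((hPUSH k (VR R f) (VR R' (fun j => ψ (f j))) E (VRmap ψ f)
    (VRmap_surjective ψ hψ f) (n + (m + 1))).2.2.2.1 (ζ - y - ρ)).1 hsupp
  refine ⟨z, y, ξ, hy, ?_⟩
  rw [hξ, sub_sub_cancel]
  exact hρ

end CUB
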