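import Pool.Agent.CUB.StmtsC

/-!
# Module CS2: several equations
-/

set_option autoImplicit false

open Polynomial

namespace CUB

namespace CS2

lemma sq {k R S : Type} [Field k] [CommRing R] [CommRing S] [Algebra k R] [Algebra k S] {m : ℕ}
    (f : Fin m → R) (ψ : R →ₐ[k] S) :
    (VRbase (k := k) (fun j => ψ (f j))).comp ψ = (VRmap ψ f).comp (VRbase f) := by
  ext r
  have h1 : VRmap ψ f (algebraMap (MvPolynomial (Fin m) R) (VR R f) (MvPolynomial.C r)) =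
      algebraMap _ (VR S fun j => ψ (f j)) (MvPolynomial.mapAlgHom ψ (MvPolynomial.C r)) :=
    Qmap_algebraMap _ _ _
  have h2 : MvPolynomial.mapAlgHom ψ (MvPolynomial.C (σ := Fin m) r) = MvPolynomial.C (ψ r) := by
    simp
  rw [h2] at h1
  exact h1.symm

lemma qcomp {k T S U : Type} [Field k] [CommRing T] [CommRing S] [CommRing U] [Algebra k T]
    [Algebra k S] [Algebra k U] {g : T} {g' : S} {g'' : U} (φ : T →ₐ[k] S) (χ : S →ₐ[k] U)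
    (ω : T →ₐ[k] U) (h : φ g = g') (h' : χ g' = g'') (h'' : ω g = g'') (hω : ω = χ.comp φ) :
    Qmap ω h'' = (Qmap χ h').comp (Qmap φ h) := by
  subst hω
  apply Q_ext
  · intro t
    rw [AlgHom.comp_apply, Qmap_algebraMap, Qmap_algebraMap, Qmap_algebraMap]
    rfl
  · rw [AlgHom.comp_apply, Qmap_yy, Qmap_yy, Qmap_yy]

lemma vrcomp {k R R₁ S : Type} [Field k] [CommRing R] [CommRing R₁] [CommRing S] [Algebra k R]
    [Algebra k R₁] [Algebra k S] {m : ℕ} (f : Fin m → R) (ψ₁ : R →ₐ[k] R₁) (ψ' : R₁ →ₐ[k] S) :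
    VRmap (ψ'.comp ψ₁) f = (VRmap ψ' (fun j => ψ₁ (f j))).comp (VRmap ψ₁ f) := by
  have h4 : (MvPolynomial.mapAlgHom (σ := Fin m) (ψ'.comp ψ₁)) =
      (MvPolynomial.mapAlgHom ψ').comp (MvPolynomial.mapAlgHom ψ₁) := by
    refine AlgHom.ext fun t => ?_
    rw [AlgHom.comp_apply, MvPolynomial.mapAlgHom_apply, MvPolynomial.mapAlgHom_apply,
      MvPolynomial.mapAlgHom_apply, MvPolynomial.map_map]
    rfl
  exact qcomp _ _ _ _ _ _ h4

end CS2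

open CS2 in
theorem t_CS2 : M_CS2 := by
  intro hPUSH hRON hPLIN hPBC _ _ hPCO hKERQ hCS1 k E _ _ m n L
  induction L with
  | nil =>
    intro R R' _ _ _ _ _ f ψ hψ hker ζ
    have hk : RingHom.ker (VRmap ψ f).toRingHom = ⊥ := by
      rw [hKERQ.2.2.1, hker]
      simp
    obtain ⟨ξ, hξ⟩ := ((hPUSH k (VR R f) (VR R' fun j => ψ (f j)) E (VRmap ψ f)
      (VRmap_surjective ψ hψ f) (n + (m + 1))).2.2.2.1 ζ).1 (by
        intro p _
        rw [hk]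
        exact bot_le)
    refine ⟨0, 0, ξ, fun P => ⟨fun _ => rfl, fun _ => rfl⟩, ?_⟩
    rw [hξ, sub_zero, sub_self]
    exact Submodule.zero_mem _
  | cons l L ih =>
    intro R R' _ _ _ _ _ f ψ hψ hker ζ
    obtain ⟨I, hI⟩ : ∃ I : Ideal R, I = Ideal.span {f l} := ⟨_, rfl⟩
    have hIk : ∀ a ∈ I, ψ a = 0 := by
      intro a ha
      have h1 : I ≤ RingHom.ker ψ.toRingHom := by
        rw [hker, hI]
        apply Ideal.span_mono
        rintro _ rfl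
        exact ⟨l, List.mem_cons_self, rfl⟩
      exact RingHom.mem_ker.1 (h1 ha)
    obtain ⟨ψ', hcomp⟩ : ∃ ψ' : (R ⧸ I) →ₐ[k] R', ψ = ψ'.comp (Ideal.Quotient.mkₐ k I) :=
      ⟨Ideal.Quotient.liftₐ I ψ hIk, (Ideal.Quotient.liftₐ_comp I ψ hIk).symm⟩
    have hψ₁ : Function.Surjective (Ideal.Quotient.mkₐ k I) := Ideal.Quotient.mkₐ_surjective k I
    have hker₁ : RingHom.ker (Ideal.Quotient.mkₐ k I).toRingHom = Ideal.span {f l} := by
      rw [← hI]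
      exact Ideal.Quotient.mkₐ_ker k I
    have hft : Algebra.FiniteType k (R ⧸ I) :=
      Algebra.FiniteType.of_surjective (Ideal.Quotient.mkₐ k I) hψ₁
    obtain ⟨ψ₁, hψ₁e⟩ : ∃ ψ₁, ψ₁ = Ideal.Quotient.mkₐ k I := ⟨_, rfl⟩
    rw [← hψ₁e] at hcomp hψ₁ hker₁
    clear hψ₁e
    subst hcomp
    have hψ' : Function.Surjective ψ' := by
      intro x
      obtain ⟨a, ha⟩ := hψ x
      exact ⟨ψ₁ a, ha⟩
    have hker' : RingHom.ker ψ'.toRingHom =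
        Ideal.span ((fun j => ψ₁ (f j)) '' {j | j ∈ L}) := by
      have h1 : RingHom.ker (ψ'.comp ψ₁).toRingHom = (RingHom.ker ψ'.toRingHom).comap ψ₁.toRingHom := by
        ext x
        rfl
      have h2 : RingHom.ker ψ'.toRingHom = (RingHom.ker (ψ'.comp ψ₁).toRingHom).map ψ₁.toRingHom := by
        rw [h1]
        exact (Ideal.map_comap_of_surjective ψ₁.toRingHom hψ₁ _).symm
      rw [h2, hker, Ideal.map_span]
      apply le_antisymm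
      · rw [Ideal.span_le]
        rintro _ ⟨_, ⟨j, hj, rfl⟩, rfl⟩
        rcases List.mem_cons.1 hj with hj | hj
        · subst hj
          have h3 : f j ∈ RingHom.ker ψ₁.toRingHom := by
            rw [hker₁]
            exact Ideal.subset_span rfl
          have h4 : ψ₁.toRingHom (f j) = 0 := RingHom.mem_ker.1 h3
          rw [h4]
          exact Ideal.zero_mem _
        · exact Ideal.subset_span ⟨j, hj, rfl⟩
      · rw [Ideal.span_le]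
        rintro _ ⟨j, hj, rfl⟩
        exact Ideal.subset_span ⟨f j, ⟨j, List.mem_cons_of_mem _ hj, rfl⟩, rfl⟩
    obtain ⟨z₁, y₁, ξ₁, hp₁, hr₁⟩ := hCS1 k R (R ⧸ I) E m n f l ψ₁ hψ₁ hker₁ ζ
    obtain ⟨z₂, y₂, ξ, hp₂, hr₂⟩ := ih (R ⧸ I) R' (fun j => ψ₁ (f j)) ψ' hψ' hker' ξ₁
    have hs₁ : Function.Surjective (VRmap ψ₁ f) := VRmap_surjective ψ₁ hψ₁ f
    have hs₂ : Function.Surjective (VRmap ψ' fun j => ψ₁ (f j)) := VRmap_surjective ψ' hψ' _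
    have hp₃ : IsPull k E (m + 1) (VRbase f) (push E ψ₁ hψ₁ z₂) (push E (VRmap ψ₁ f) hs₁ y₂) := by
      refine hPBC k R (VR R f) (R ⧸ I) (VR (R ⧸ I) fun j => ψ₁ (f j)) E (m + 1) n (VRbase f)
        (VRbase fun j => ψ₁ (f j)) ψ₁ (VRmap ψ₁ f) hψ₁ hs₁ (sq f ψ₁) ?_ z₂ y₂ hp₂
      rw [hKERQ.2.2.1]
    have e : push E (VRmap (ψ'.comp ψ₁) f) (VRmap_surjective (ψ'.comp ψ₁) hψ f) ξ =
        push E (VRmap ψ₁ f) hs₁ (push E (VRmap ψ' fun j => ψ₁ (f j)) hs₂ ξ) :=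
      hPCO.1 k _ _ _ E _ (VRmap ψ₁ f) (VRmap ψ' fun j => ψ₁ (f j)) (VRmap (ψ'.comp ψ₁) f) hs₁ hs₂
        (VRmap_surjective (ψ'.comp ψ₁) hψ f) (vrcomp f ψ₁ ψ') ξ
    refine ⟨z₁ + push E ψ₁ hψ₁ z₂, y₁ + push E (VRmap ψ₁ f) hs₁ y₂, ξ,
      (hPLIN.1 k R (VR R f) E (m + 1) n (VRbase f) z₁ (push E ψ₁ hψ₁ z₂) y₁
        (push E (VRmap ψ₁ f) hs₁ y₂) 0 hp₁ hp₃).2.1, ?_⟩
    have hm : push E (VRmap ψ₁ f) hs₁ (ξ₁ - y₂ - push E (VRmap ψ' fun j => ψ₁ (f j)) hs₂ ξ) ∈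
        rat k (VR R f) E (n + (m + 1)) := by
      have h5 := (hPUSH k (VR R f) (VR (R ⧸ I) fun j => ψ₁ (f j)) E (VRmap ψ₁ f) hs₁
        (n + (m + 1))).2.2.1 _ hr₂
      exact hRON k (VR R f) E (n + (m + 1)) ⊥ _ bot_le h5
    have hfin := Submodule.add_mem _ hr₁ hm
    rw [map_sub, map_sub, ← e] at hfin
    have h6 : ζ - (y₁ + push E (VRmap ψ₁ f) hs₁ y₂) -
        push E (VRmap (ψ'.comp ψ₁) f) (VRmap_surjective (ψ'.comp ψ₁) hψ f) ξ =
        ζ - y₁ - push E (VRmap ψ₁ f) (VRmap_surjective ψ₁ hψ₁ f) ξ₁ +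
        (push E (VRmap ψ₁ f) hs₁ ξ₁ - push E (VRmap ψ₁ f) hs₁ y₂ -
          push E (VRmap (ψ'.comp ψ₁) f) (VRmap_surjective (ψ'.comp ψ₁) hψ f) ξ) := by
      abel
    exact h6 ▸ hfin

end CUB
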