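import Pool.Agent.CUB.StmtsC

/-!
# CUB, module CSU: the surjectivity statement on cycles
-/

set_option autoImplicit false

open Polynomial

namespace CUB

namespace CSU

lemma span_range_eq {R : Type} [CommRing R] (m : ℕ) (f : Fin (m + 1) → R) :
    Ideal.span (Set.range f) = Ideal.span (f '' {j | j ∈ List.finRange (m + 1)}) := by
  congr 1
  ext x
  simp

end CSU

/-- CSU. -/
theorem t_CSU : M_CSU := by
  intro hFP hGVR hPUSH hRON hL0M hSHE hCS2 k R R' E _ _ _ _ _ _ _ m n f ψ hψ h hker hz ζ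
  have hft : Algebra.FiniteType k R' := Algebra.FiniteType.of_surjective ψ hψ
  obtain ⟨z, y, ξ, hy, hζ⟩ := hCS2 k E m n (List.finRange (m + 1)) R R' f ψ hψ
    (hker.trans (CSU.span_range_eq m f)) ζ
  have hyr : y ∈ rat k (VR R f) E (n + (m + 1)) := by
    have h1 := hFP k R (VR R f) E (m + 1) n (VRbase f) (hGVR k R (m + 1) f) ⊥ z y hy (hz z)
    rw [Ideal.map_bot] at h1
    exact h1
  obtain ⟨-, -, hc, -, -, hp0, hp1⟩ := hSHE k R R' E (m + 1) f ψ hψ h (fun j => h j) (n + (m + 1))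
  obtain ⟨ξ₀, ξ₁, hξ⟩ := hc ξ
  obtain ⟨z₀, d₀, hd₀, he₀⟩ := (hL0M k R' E (m + 1)).1 n ξ₀
  obtain ⟨z₁, d₁, hd₁, he₁⟩ := (hL0M k R' E (m + 1)).1 n ξ₁
  refine ⟨z₀, z₁, d₀, d₁, hd₀, hd₁, ?_⟩
  have key : ∀ (ε : Bool) (c : RP k (MvPolynomial (Fin (m + 1)) R') (n + (m + 1)) →₀ E),
      c ∈ rat k (MvPolynomial (Fin (m + 1)) R') E (n + (m + 1)) →
      push E (sheet ψ f h ε) (sheet_surjective ψ hψ f h ε) c ∈
        rat k (VR R f) E (n + (m + 1)) := by
    intro ε c hc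
    have h1 := (hPUSH k (VR R f) (MvPolynomial (Fin (m + 1)) R') E (sheet ψ f h ε)
      (sheet_surjective ψ hψ f h ε) (n + (m + 1))).2.2.1 c hc
    exact hRON k (VR R f) E (n + (m + 1)) ⊥ _ bot_le h1
  have h0 := key false _ he₀
  have h1 := key true _ he₁
  rw [map_sub] at h0 h1
  have h2 : push E (VRmap ψ f) (VRmap_surjective ψ hψ f) ξ =
      push E (sheet ψ f h false) (sheet_surjective ψ hψ f h false) ξ₀ +
      push E (sheet ψ f h true) (sheet_surjective ψ hψ f h true) ξ₁ := by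
    rw [hξ, map_add]
    exact congrArg₂ (· + ·) (hp0 ξ₀) (hp1 ξ₁)
  rw [h2] at hζ
  have h3 := Submodule.add_mem _ (Submodule.add_mem _ hζ hyr) (Submodule.add_mem _ h0 h1)
  convert h3 using 1
  abel

end CUB
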