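import Pool.Agent.CUB.StmtsC

/-!
# CUB, module DEL: a rationally trivial sum of cycles on the two sheets
-/

set_option autoImplicit false

open Polynomial

namespace CUB

namespace DEL

lemma push_shv_congr {k R R' : Type} (E : Type) [Field k] [CommRing R] [CommRing R'] [Algebra k R]
    [Algebra k R'] [Field E] {G f : R} (ψ : R →ₐ[k] R') (hψ : Function.Surjective ψ)
    (hf : ψ f = 0) {v w : R'} (hvw : v = w) (hv : v ^ 2 - v = ψ G) (hw : w ^ 2 - w = ψ G) {n : ℕ}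
    (c : RP k R'[X] n →₀ E) :
    push E (shv ψ hf v hv) (shv_surjective ψ hψ hf _ hv) c =
      push E (shv ψ hf w hw) (shv_surjective ψ hψ hf _ hw) c := by
  subst hvw
  rfl

end DEL

theorem t_DEL : M_DEL := by
  intro hPUSH _ hCHI2 hB4 hBPU hDL1
  intro k R R' E _ _ _ _ _ _ _ _ G f v hv hu ψ hψ hf hker h0 h1 n c₀ c₁ d₀ d₁ hc hb0 hb1
  have : Algebra.FiniteType k R' := Algebra.FiniteType.of_surjective ψ hψ
  have hu0 := hu
  obtain ⟨u, hu'⟩ := hu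
  obtain ⟨d, hd, hdp⟩ := hCHI2 k R R' E G f v hv u hu' ψ hψ hf hker h0 h1 (n + 1) c₀ c₁
  have hu2 : ((-u : Rˣ) : R) = 2 * (1 - v) - 1 := by
    rw [Units.val_neg, hu']
    ring
  have e0 : ψ (1 - v) = 1 - ψ v := by rw [map_sub, map_one]
  have e1 : 1 - ψ (1 - v) = ψ v := by rw [e0, sub_sub_cancel]
  have h0' : (ψ (1 - v)) ^ 2 - ψ (1 - v) = ψ G := by
    rw [e0]
    exact h1
  have h1' : (1 - ψ (1 - v)) ^ 2 - (1 - ψ (1 - v)) = ψ G := by
    rw [e1]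
    exact h0
  obtain ⟨d', hd', hdp'⟩ := hCHI2 k R R' E G f (1 - v) (conj_root hv) (-u) hu2 ψ hψ hf hker
    h0' h1' (n + 1) c₁ c₀
  rw [DEL.push_shv_congr E ψ hψ hf e0 h0' h1 c₁, DEL.push_shv_congr E ψ hψ hf e1 h1' h0 c₀,
    add_comm (push E (shv ψ hf (1 - ψ v) h1) (shv_surjective ψ hψ hf _ h1) c₁)] at hdp'
  have hB := hBPU k R R' E n ψ hψ d d₀ (hB4 k R' E n _ c₀ d d₀ hd hb0)
  have hB' := hBPU k R R' E n ψ hψ d' d₁ (hB4 k R' E n _ c₁ d' d₁ hd' hb1)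
  have hmain := hDL1 k R E G f v hv hu0 n _ _ _ _ _ hc hdp hdp' hB hB'
  rw [← map_sub, ← hker] at hmain
  have hP := (hPUSH k R R' E ψ hψ n).2.1 ⊥ (d₀ - d₁)
  exact hP.mp hmain

end CUB
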