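import Pool.Agent.CUB.StmtsC

/-!
# CUB, block C: ETA (base change of the etale part of a double cover)
-/

set_option autoImplicit false

open Polynomial

namespace CUB

namespace ETA

/-- `1, y` is a basis of `A[y] / (y ^ 2 - y - g)`. -/
lemma basis {A : Type} [CommRing A] {g a b : A}
    (h : algebraMap A (Q A g) a + algebraMap A (Q A g) b * yy g = 0) : a = 0 ∧ b = 0 := by
  rcases subsingleton_or_nontrivial A with hA | hA
  · exact ⟨Subsingleton.elim _ _, Subsingleton.elim _ _⟩
  have h1 : AdjoinRoot.mk (asPoly g) (C b * X + C a) = 0 := by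
    rw [map_add, map_mul, add_comm]
    exact h
  rw [AdjoinRoot.mk_eq_zero] at h1
  have h3 : (asPoly g).natDegree = 2 := by
    unfold asPoly
    compute_degree!
  have h2 : C b * X + C a = 0 := by
    by_contra hne
    refine (asPoly_monic g).not_dvd_of_natDegree_lt hne ?_ h1
    have := natDegree_linear_le (a := b) (b := a)
    omega
  constructor
  · have := congrArg (fun p => coeff p 0) h2
    simpa using this
  · have := congrArg (fun p => coeff p 1) h2
    simpa using this

section

variable {k S T : Type} [Field k] [CommRing S] [CommRing T] [Algebra k S] [Algebra k T]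
  (G f : S) (φ : Q S G →ₐ[k] T) (σ : S →ₐ[k] T)

variable (k) in
/-- The homomorphism `S → YY G f`. -/
noncomputable def jS : S →ₐ[k] YY G f := (Qbase (k := k) (C G + X * C f)).comp (CC k S)

variable (k) in
lemma jS_apply (s : S) : jS k G f s = algebraMap S[X] (YY G f) (C s) := rfl

variable (k) in
/-- The homomorphism from `(Q S G)[X]`. -/
noncomputable def om : (Q S G)[X] →ₐ[k] Q (YY G f) (jS k G f G) :=
  evs (Qmap (jS k G f) rfl)
    (algebraMap (YY G f) (Q (YY G f) (jS k G f G)) (algebraMap S[X] (YY G f) X))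

lemma om_map (p : S[X]) : om k G f (p.map (algebraMap S (Q S G))) =
    algebraMap (YY G f) (Q (YY G f) (jS k G f G)) (algebraMap S[X] (YY G f) p) := by
  have h1 := evs_unique (k := k) (R := S)
    ((Qbase (k := k) (jS k G f G)).comp (jS k G f))
    (algebraMap (YY G f) (Q (YY G f) (jS k G f G)) (algebraMap S[X] (YY G f) X))
    ((om k G f).comp (mapX (Qbase (k := k) G))) (fun r => by
      rw [AlgHom.comp_apply]
      have h0 : mapX (Qbase (k := k) G) (C r) = C (algebraMap S (Q S G) r) := by
        simp [mapX, Qbase]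
      rw [h0, om, evs_C, Qmap_algebraMap]
      rfl) (by
      rw [AlgHom.comp_apply]
      have h0 : mapX (Qbase (k := k) G) (X : S[X]) = X := by simp [mapX]
      rw [h0, om, evs_X])
  have h2 := evs_unique (k := k) (R := S)
    ((Qbase (k := k) (jS k G f G)).comp (jS k G f))
    (algebraMap (YY G f) (Q (YY G f) (jS k G f G)) (algebraMap S[X] (YY G f) X))
    ((Qbase (k := k) (jS k G f G)).comp (Qbase (k := k) (C G + X * C f))) (fun r => rfl) rfl
  have h3 := DFunLike.congr_fun (h1.trans h2.symm) p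
  exact h3

lemma om_C (x : Q S G) : om k G f (C x) = Qmap (jS k G f) rfl x := evs_C _ _ _

lemma om_two : om k G f (C (2 * yy G - 1)) = 2 * yy (jS k G f G) - 1 := by
  rw [om_C, map_sub, map_mul, map_one, Qmap_yy]
  congr 2
  exact map_ofNat _ 2

/-- every element of `Q (YY G f) _` is `om w + (om w') * y`. -/
lemma span (x : Q (YY G f) (jS k G f G)) : ∃ w w' : (Q S G)[X], x = om k G f w +
    om k G f w' * algebraMap (YY G f) (Q (YY G f) (jS k G f G)) (yy (C G + X * C f)) := by
  obtain ⟨p, q, rfl⟩ := Q_span x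
  obtain ⟨s0, s1, rfl⟩ := Q_span p
  obtain ⟨s2, s3, rfl⟩ := Q_span q
  have hy : yy (jS k G f G) = om k G f (C (yy G)) := by rw [om_C, Qmap_yy]
  refine ⟨s0.map (algebraMap S (Q S G)) + s2.map (algebraMap S (Q S G)) * C (yy G),
    s1.map (algebraMap S (Q S G)) + s3.map (algebraMap S (Q S G)) * C (yy G), ?_⟩
  simp only [map_add, map_mul, om_map, ← hy]
  ring

variable (hσ : σ = φ.comp (Qbase G)) (g' : T[X]) (h : mapX σ (C G + X * C f) = g')

include hσ in
lemma root_eq : (φ (yy G)) ^ 2 - φ (yy G) = σ G := by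
  have h1 := congrArg φ (yy_eq G)
  rw [map_sub, map_sub, map_pow, map_zero] at h1
  have h2 : σ G = φ (algebraMap S (Q S G) G) := by rw [hσ]; rfl
  rw [h2]
  exact sub_eq_zero.mp h1

include hσ in
lemma Phi_aux : (algebraMap T[X] (Q T[X] g') (C (φ (yy G)))) ^ 2 -
    algebraMap T[X] (Q T[X] g') (C (φ (yy G))) = Qmap (mapX σ) h (jS k G f G) := by
  rw [jS_apply, Qmap_algebraMap]
  have h1 : mapX σ (C G) = C (σ G) := by simp [mapX]
  rw [h1, ← root_eq G φ σ hσ, ← map_pow, ← map_sub, ← C_pow, ← C_sub]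

/-- The homomorphism `Q (YY G f) _ → Q T[X] g'`. -/
noncomputable def Phi : Q (YY G f) (jS k G f G) →ₐ[k] Q T[X] g' :=
  Qlift (Qmap (mapX σ) h) (algebraMap T[X] (Q T[X] g') (C (φ (yy G))))
    (Phi_aux G f φ σ hσ g' h)

lemma Phi_algebraMap (x : YY G f) : Phi G f φ σ hσ g' h
    (algebraMap (YY G f) (Q (YY G f) (jS k G f G)) x) = Qmap (mapX σ) h x := by
  unfold Phi
  exact Qlift_algebraMap _ _ _ _

lemma Phi_yy : Phi G f φ σ hσ g' h (yy (jS k G f G)) =
    algebraMap T[X] (Q T[X] g') (C (φ (yy G))) := by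
  unfold Phi
  exact Qlift_yy _ _ _

lemma Phi_comp : (Phi G f φ σ hσ g' h).comp (Qbase (jS k G f G)) = Qmap (mapX σ) h :=
  AlgHom.ext fun x => Phi_algebraMap G f φ σ hσ g' h x

lemma Phi_om (w : (Q S G)[X]) : Phi G f φ σ hσ g' h (om k G f w) =
    algebraMap T[X] (Q T[X] g') (w.map φ.toRingHom) := by
  have hq : ∀ x : Q S G, Phi G f φ σ hσ g' h (Qmap (jS k G f) rfl x) =
      algebraMap T[X] (Q T[X] g') (C (φ x)) := by
    intro x
    have h1 : (Phi G f φ σ hσ g' h).comp (Qmap (jS k G f) rfl) =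
        ((Qbase (k := k) g').comp (CC k T)).comp φ := by
      apply Q_ext
      · intro t
        rw [AlgHom.comp_apply, Qmap_algebraMap, Phi_algebraMap, jS_apply, Qmap_algebraMap]
        have h2 : mapX σ (C t) = C (σ t) := by simp [mapX]
        rw [h2, hσ]
        rfl
      · rw [AlgHom.comp_apply, Qmap_yy, Phi_yy]
        rfl
    exact DFunLike.congr_fun h1 x
  have h1 := evs_unique (k := k) (R := Q S G)
    (((Qbase (k := k) g').comp (CC k T)).comp φ)
    (algebraMap T[X] (Q T[X] g') X)
    ((Phi G f φ σ hσ g' h).comp (om k G f)) (fun r => by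
      rw [AlgHom.comp_apply, om_C, hq]
      rfl) (by
      rw [AlgHom.comp_apply, om, evs_X, Phi_algebraMap, Qmap_algebraMap]
      simp [mapX])
  have h2 := evs_unique (k := k) (R := Q S G)
    (((Qbase (k := k) g').comp (CC k T)).comp φ)
    (algebraMap T[X] (Q T[X] g') X)
    ((Qbase (k := k) g').comp (mapX φ)) (fun r => by
      rw [AlgHom.comp_apply]
      have h3 : mapX φ (C r) = C (φ r) := by simp [mapX]
      rw [h3]
      rfl) (by
      rw [AlgHom.comp_apply]
      have h3 : mapX φ (X : (Q S G)[X]) = X := by simp [mapX]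
      rw [h3]
      rfl)
  exact DFunLike.congr_fun (h1.trans h2.symm) w

lemma Phi_y : Phi G f φ σ hσ g' h
    (algebraMap (YY G f) (Q (YY G f) (jS k G f G)) (yy (C G + X * C f))) = yy g' := by
  rw [Phi_algebraMap, Qmap_yy]

end

/-- Localisation of polynomial rings, elementwise. -/
lemma poly_surj {A B : Type} [CommRing A] [CommRing B] (φ : A →+* B) (a : A)
    (hloc : @IsLocalization.Away A _ a B _ φ.toAlgebra) (t : B[X]) :
    ∃ (n : ℕ) (w : A[X]), C (φ a) ^ n * t = w.map φ := by
  letI := φ.toAlgebra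
  haveI : IsLocalization.Away a B := hloc
  induction t using Polynomial.induction_on' with
  | add p q hp hq =>
    obtain ⟨n, w, hw⟩ := hp
    obtain ⟨m, w', hw'⟩ := hq
    refine ⟨n + m, C a ^ m * w + C a ^ n * w', ?_⟩
    rw [Polynomial.map_add, Polynomial.map_mul, Polynomial.map_mul, Polynomial.map_pow,
      Polynomial.map_pow, map_C, ← hw, ← hw']
    ring
  | monomial i b =>
    obtain ⟨n, x, hx⟩ := IsLocalization.Away.surj a b
    refine ⟨n, monomial i x, ?_⟩
    have hx' : b * φ a ^ n = φ x := hx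
    rw [map_monomial, ← hx', ← C_pow, C_mul_monomial, mul_comm b]

lemma poly_inj {A B : Type} [CommRing A] [CommRing B] (φ : A →+* B) (a : A)
    (hloc : @IsLocalization.Away A _ a B _ φ.toAlgebra) (w : A[X]) (hw : w.map φ = 0) :
    ∃ n : ℕ, C a ^ n * w = 0 := by
  letI := φ.toAlgebra
  haveI : IsLocalization.Away a B := hloc
  have h1 : ∀ i, ∃ n : ℕ, a ^ n * w.coeff i = 0 := by
    intro i
    have h2' : φ (w.coeff i) = 0 := by
      have := congrArg (fun p => coeff p i) hw
      simpa using this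
    have h2 : algebraMap A B (w.coeff i) = algebraMap A B 0 := by
      rw [map_zero]
      exact h2'
    obtain ⟨n, hn⟩ := IsLocalization.Away.exists_of_eq a h2
    exact ⟨n, by simpa using hn⟩
  choose n hn using h1
  refine ⟨∑ i ∈ w.support, n i, ?_⟩
  ext i
  rw [← C_pow, coeff_C_mul, coeff_zero]
  by_cases hi : i ∈ w.support
  · rw [← Finset.add_sum_erase _ _ hi, pow_add, mul_comm (a ^ n i), mul_assoc, hn, mul_zero]
  · rw [notMem_support_iff.mp hi, mul_zero]

end ETA

open ETA in
theorem t_ETA : M_ETA := by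
  intro hGET k S T _ _ _ _ _ _ _ G f φ σ hloc hσ g' h
  haveI : Algebra.FiniteType k S[X] := Algebra.FiniteType.trans (S := S) inferInstance inferInstance
  haveI : Algebra.FiniteType k T[X] := Algebra.FiniteType.trans (S := T) inferInstance inferInstance
  have key : @IsLocalization.Away (Q (YY G f) (jS k G f G)) _ (2 * yy (jS k G f G) - 1)
      (Q T[X] g') _ (Phi G f φ σ hσ g' h).toRingHom.toAlgebra := by
    letI alg := (Phi G f φ σ hσ g' h).toRingHom.toAlgebra
    have hmap : ∀ x, algebraMap (Q (YY G f) (jS k G f G)) (Q T[X] g') x =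
        Phi G f φ σ hσ g' h x := fun x => rfl
    have h2 : Phi G f φ σ hσ g' h (2 * yy (jS k G f G) - 1) =
        algebraMap T[X] (Q T[X] g') (C (φ (2 * yy G - 1))) := by
      rw [← om_two, Phi_om, map_C]
      rfl
    have hunit : IsUnit (φ (2 * yy G - 1)) := by
      letI := φ.toRingHom.toAlgebra
      haveI : IsLocalization.Away (2 * yy G - 1) T := hloc
      exact IsLocalization.Away.algebraMap_isUnit (S := T) (2 * yy G - 1)
    refine IsLocalization.Away.mk _ ?_ ?_ ?_
    · rw [hmap, h2]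
      exact (hunit.map C).map _
    · intro b
      obtain ⟨b0, b1, rfl⟩ := Q_span b
      obtain ⟨n0, w0, hw0⟩ := poly_surj φ.toRingHom _ hloc b0
      obtain ⟨n1, w1, hw1⟩ := poly_surj φ.toRingHom _ hloc b1
      refine ⟨n0 + n1, om k G f (C (2 * yy G - 1) ^ n1 * w0) +
        om k G f (C (2 * yy G - 1) ^ n0 * w1) *
        algebraMap (YY G f) (Q (YY G f) (jS k G f G)) (yy (C G + X * C f)), ?_⟩
      rw [hmap, hmap, h2, map_add (Phi G f φ σ hσ g' h), map_mul (Phi G f φ σ hσ g' h), Phi_y,
        Phi_om, Phi_om, Polynomial.map_mul, Polynomial.map_mul, Polynomial.map_pow,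
        Polynomial.map_pow, map_C, ← hw0, ← hw1]
      simp only [map_mul, map_pow]
      have : φ.toRingHom (2 * yy G - 1) = φ (2 * yy G - 1) := rfl
      rw [this]
      ring
    · intro x y hxy
      obtain ⟨w, w', hw⟩ := ETA.span (k := k) G f (x - y)
      have h3 : Phi G f φ σ hσ g' h (x - y) = 0 := by
        rw [map_sub, ← hmap, ← hmap, hxy, sub_self]
      rw [hw, map_add, map_mul, Phi_y, Phi_om, Phi_om] at h3
      obtain ⟨e0, e1⟩ := ETA.basis h3
      obtain ⟨n0, hn0⟩ := poly_inj φ.toRingHom _ hloc w e0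
      obtain ⟨n1, hn1⟩ := poly_inj φ.toRingHom _ hloc w' e1
      refine ⟨n0 + n1, ?_⟩
      rw [← sub_eq_zero, ← mul_sub, hw, ← om_two (k := k)]
      have f0 := congrArg (om k G f) hn0
      have f1 := congrArg (om k G f) hn1
      rw [map_mul, map_pow, map_zero] at f0 f1
      rw [pow_add]
      linear_combination (om k G f (C (2 * yy G - 1))) ^ n1 * f0 +
        (om k G f (C (2 * yy G - 1))) ^ n0 *
        algebraMap (YY G f) (Q (YY G f) (jS k G f G)) (yy (C G + X * C f)) * f1
  have := hGET k (YY G f) (Q T[X] g') (jS k G f G) (Phi G f φ σ hσ g' h) key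
  rwa [Phi_comp] at this

end CUB
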