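import Pool.Agent.CUB.StmtsC

/-!
# CUB: pull-back to polynomial rings is injective modulo rational equivalence
-/

set_option autoImplicit false

open Polynomial

namespace CUB

namespace MVI

variable {k R : Type} [Field k] [CommRing R] [Algebra k R]

lemma finiteType_mv [Algebra.FiniteType k R] (m : ℕ) :
    Algebra.FiniteType k (MvPolynomial (Fin m) R) :=
  Algebra.FiniteType.trans (S := R) inferInstance inferInstance

variable (k R) in
/-- `MvPolynomial (Fin 0) R` is `R` -/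
noncomputable def e0 : R ≃ₐ[k] MvPolynomial (Fin 0) R :=
  AlgEquiv.restrictScalars k (MvPolynomial.isEmptyAlgEquiv R (Fin 0)).symm

variable (k R) in
/-- `MvPolynomial (Fin (m + 1)) R` is `(MvPolynomial (Fin m) R)[X]` -/
noncomputable def e1 (m : ℕ) : (MvPolynomial (Fin m) R)[X] ≃ₐ[k] MvPolynomial (Fin (m + 1)) R :=
  AlgEquiv.restrictScalars k (MvPolynomial.finSuccEquiv R m).symm

lemma e0_eq : ((e0 k R : R ≃ₐ[k] MvPolynomial (Fin 0) R) : R →ₐ[k] MvPolynomial (Fin 0) R) =
    IsScalarTower.toAlgHom k R (MvPolynomial (Fin 0) R) := by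
  ext r
  rfl

lemma e1_eq (m : ℕ) : ((e1 k R m : (MvPolynomial (Fin m) R)[X] ≃ₐ[k]
      MvPolynomial (Fin (m + 1)) R) : (MvPolynomial (Fin m) R)[X] →ₐ[k]
      MvPolynomial (Fin (m + 1)) R).comp ((CC k (MvPolynomial (Fin m) R)).comp
      (IsScalarTower.toAlgHom k R (MvPolynomial (Fin m) R))) =
    IsScalarTower.toAlgHom k R (MvPolynomial (Fin (m + 1)) R) := by
  refine AlgHom.ext fun r => ?_
  change (MvPolynomial.finSuccEquiv R m).symm (C (algebraMap R (MvPolynomial (Fin m) R) r)) =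
    algebraMap R (MvPolynomial (Fin (m + 1)) R) r
  exact (MvPolynomial.finSuccEquiv R m).symm.commutes r

end MVI

open MVI in
theorem t_MVI : M_MVI := by
  intro hGX hFPX hPL hGCO hPCO hB2 hB3 k R E _ _ _ _ _ _ m n
  induction m with
  | zero =>
    intro c d hd hrat
    rw [← e0_eq] at hd
    have h1 := (hPL.2 k R (MvPolynomial (Fin 0) R) E n (e0 k R) c d).1 hd
    have h2 := hPCO.2.2.1 k (MvPolynomial (Fin 0) R) R E n (e0 k R).symm c
    apply h2.1
    have h3 : push E ((e0 k R).symm.toAlgHom) (e0 k R).symm.surjective c = d := h1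
    rw [h3]
    exact hrat
  | succ m ih =>
    intro c d hd hrat
    have i1 : Algebra.FiniteType k (MvPolynomial (Fin m) R) := finiteType_mv m
    have i2 : Algebra.FiniteType k (MvPolynomial (Fin (m + 1)) R) := finiteType_mv (m + 1)
    have i3 : Algebra.FiniteType k (MvPolynomial (Fin m) R)[X] :=
      Algebra.FiniteType.trans (S := MvPolynomial (Fin m) R) inferInstance inferInstance
    have g1 : Good k m (IsScalarTower.toAlgHom k R (MvPolynomial (Fin m) R)) := hGX.2 k R m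
    have g2 : Good k 1 (CC k (MvPolynomial (Fin m) R)) := hGX.1 k (MvPolynomial (Fin m) R)
    have g3 : Good k 0 ((e1 k R m : (MvPolynomial (Fin m) R)[X] ≃ₐ[k]
      MvPolynomial (Fin (m + 1)) R) : (MvPolynomial (Fin m) R)[X] →ₐ[k]
      MvPolynomial (Fin (m + 1)) R) := hGCO.2.2.2 k _ _ _
    have g12 : Good k (m + 1) ((CC k (MvPolynomial (Fin m) R)).comp
      (IsScalarTower.toAlgHom k R (MvPolynomial (Fin m) R))) := hGCO.1 k _ _ _ _ _ m 1 g1 g2
    obtain ⟨c1, hc1⟩ := hFPX k R (MvPolynomial (Fin m) R) E m n _ g1 c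
    obtain ⟨d1, hd1⟩ := hFPX k (MvPolynomial (Fin m) R) (MvPolynomial (Fin m) R)[X] E 1 (n + m)
      _ g2 c1
    obtain ⟨d2, hd2⟩ := hFPX k (MvPolynomial (Fin m) R)[X] (MvPolynomial (Fin (m + 1)) R) E 0
      (n + m + 1) _ g3 d1
    have h1 := ((hGCO.2.1 k R (MvPolynomial (Fin m) R) (MvPolynomial (Fin m) R)[X] E _ _ m n
      g1).1 g2) c c1 d1 hc1 hd1
    have h2 := ((hGCO.2.1 k R (MvPolynomial (Fin m) R)[X] (MvPolynomial (Fin (m + 1)) R) E _ _
      (m + 1) n g12).2 g3) c d1 d2 h1 hd2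
    rw [e1_eq] at h2
    have h3 : d = d2 := (hPL.1 k R (MvPolynomial (Fin (m + 1)) R) E (m + 1) n _ c c d d2 0 hd
      h2).1 rfl
    have h4 := (hPL.2 k (MvPolynomial (Fin m) R)[X] (MvPolynomial (Fin (m + 1)) R) E (n + m + 1)
      (e1 k R m) d1 d2).1 hd2
    have h5 : d1 ∈ rat k (MvPolynomial (Fin m) R)[X] E (n + m + 1) := by
      apply (hPCO.2.2.1 k (MvPolynomial (Fin (m + 1)) R) (MvPolynomial (Fin m) R)[X] E
        (n + m + 1) (e1 k R m).symm d1).1
      have h6 : push E ((e1 k R m).symm.toAlgHom) (e1 k R m).symm.surjective d1 = d2 := h4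
      rw [h6, ← h3]
      exact hrat
    have h6 : IsBeta k E d1 c1 := hB2 k (MvPolynomial (Fin m) R) E (n + m) c1 d1 hd1
    have h7 : c1 ∈ rat k (MvPolynomial (Fin m) R) E (n + m) := by
      apply hB3 k (MvPolynomial (Fin m) R) E (n + m) ⊥ d1 c1 _ h6
      rw [Ideal.map_bot]
      exact h5
    exact ih c c1 hc1 h7

end CUB
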