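import Pool.Agent.CUB.StmtsC

/-!
# CUB, module SHE: the two sheets of `VR R' 0`
-/

set_option autoImplicit false

open Polynomial

namespace CUB

namespace SHE

theorem push_congr {k A B E : Type} [Field k] [CommRing A] [CommRing B] [Algebra k A]
    [Algebra k B] [Field E] {n : ℕ} (φ φ' : A →ₐ[k] B) (h : φ = φ')
    (hφ : Function.Surjective φ) (hφ' : Function.Surjective φ') :
    push E (n := n) φ hφ = push E φ' hφ' := by
  subst h
  rfl

theorem sheet_eq {k S : Type} [Field k] [CommRing S] [Algebra k S] {m : ℕ} (g : Fin m → S)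
    (h : ∀ j, AlgHom.id k S (g j) = 0) (ε : Bool) (v : MvPolynomial (Fin m) S)
    (hv : v ^ 2 - v = lin g) (hvε : v = if ε then 1 else 0) :
    sheet (AlgHom.id k S) g h ε = sg v hv := by
  apply Q_ext
  · intro t
    unfold sheet
    rw [Qlift_algebraMap, sg_algebraMap]
    change MvPolynomial.map (RingHom.id S) t = t
    exact MvPolynomial.map_id t
  · unfold sheet
    rw [Qlift_yy, sg_yy, hvε]

theorem sheet_tau {k S : Type} [Field k] [CommRing S] [Algebra k S] {m : ℕ} (g : Fin m → S)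
    (h : ∀ j, AlgHom.id k S (g j) = 0) :
    sheet (AlgHom.id k S) g h true =
      (sheet (AlgHom.id k S) g h false).comp (tauH (k := k) (lin g)) := by
  apply Q_ext
  · intro t
    have h1 : tauH (k := k) (lin g) (algebraMap _ (Q (MvPolynomial (Fin m) S) (lin g)) t) =
        algebraMap _ _ t := tau_algebraMap _ t
    rw [AlgHom.comp_apply, h1]
    unfold sheet
    rw [Qlift_algebraMap, Qlift_algebraMap]
  · have h1 : tauH (k := k) (lin g) (yy (lin g)) = 1 - yy (lin g) := tau_yy _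
    rw [AlgHom.comp_apply, h1, map_sub, map_one]
    unfold sheet
    rw [Qlift_yy, Qlift_yy]
    simp

theorem sheet_comp {k R S : Type} [Field k] [CommRing R] [CommRing S] [Algebra k R]
    [Algebra k S] {m : ℕ} (f : Fin m → R) (ψ : R →ₐ[k] S) (h : ∀ j, ψ (f j) = 0)
    (h' : ∀ j, AlgHom.id k S (ψ (f j)) = 0) (ε : Bool) :
    sheet ψ f h ε = (sheet (AlgHom.id k S) (fun j => ψ (f j)) h' ε).comp (VRmap ψ f) := by
  apply Q_ext
  · intro t
    rw [AlgHom.comp_apply]
    unfold VRmap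
    rw [Qmap_algebraMap]
    unfold sheet
    rw [Qlift_algebraMap, Qlift_algebraMap]
    change _ = MvPolynomial.map (RingHom.id S) _
    rw [MvPolynomial.map_id]
  · rw [AlgHom.comp_apply]
    unfold VRmap
    rw [Qmap_yy]
    unfold sheet
    rw [Qlift_yy, Qlift_yy]

end SHE

theorem t_SHE : M_SHE := by
  intro hTWO hPCO hFPX k R R' E _ _ _ _ _ _ _ m f ψ hψ h h' n s₀ s₁ p₀ p₁
  have hft : Algebra.FiniteType k (MvPolynomial (Fin m) R') :=
    Algebra.FiniteType.trans (S := R') inferInstance inferInstance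
  have hG : lin (fun j => ψ (f j)) = 0 := by
    simp [lin, h]
  have hv : (0 : MvPolynomial (Fin m) R') ^ 2 - 0 = lin (fun j => ψ (f j)) := by
    rw [hG]
    ring
  have hu : IsUnit (2 * (0 : MvPolynomial (Fin m) R') - 1) := by
    rw [mul_zero, zero_sub]
    exact isUnit_one.neg
  obtain ⟨hg0, hg1, hsum, hpull⟩ := hTWO k (MvPolynomial (Fin m) R') E
    (lin (fun j => ψ (f j))) 0 hv hu
  have e0 : s₀ = sg 0 hv := SHE.sheet_eq _ h' false 0 hv (by simp)
  have e1 : s₁ = sg (1 - 0) (conj_root hv) :=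
    SHE.sheet_eq _ h' true (1 - 0) (conj_root hv) (by simp)
  have q0 : p₀ = push E (sg 0 hv) (sg_surjective 0 hv) := SHE.push_congr _ _ e0 _ _
  have q1 : p₁ = push E (sg (1 - 0) (conj_root hv)) (sg_surjective (1 - 0) (conj_root hv)) :=
    SHE.push_congr _ _ e1 _ _
  have hgs0 : Good k 0 s₀ := by
    rw [e0]
    exact hg0
  have hgs1 : Good k 0 s₁ := by
    rw [e1]
    exact hg1
  refine ⟨hgs0, hgs1, ?_, ?_, ?_, ?_, ?_⟩
  · intro c
    obtain ⟨c₀, hc0⟩ := hFPX k _ _ E 0 n s₀ hgs0 c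
    obtain ⟨c₁, hc1⟩ := hFPX k _ _ E 0 n s₁ hgs1 c
    rw [e0] at hc0
    rw [e1] at hc1
    refine ⟨c₀, c₁, ?_⟩
    rw [q0, q1]
    exact hsum n c c₀ c₁ hc0 hc1
  · intro c₀ c₁
    rw [q0, q1, e0]
    exact hpull n c₀ c₁
  · intro c
    exact (hPCO.1 k _ _ _ E n (tauH (k := k) _) s₀ s₁ (tauH_surjective _) _ _
      (SHE.sheet_tau _ h') c).symm
  · intro c
    exact (hPCO.1 k _ _ _ E n (VRmap ψ f) s₀ (sheet ψ f h false) _ _ _
      (SHE.sheet_comp f ψ h h' false) c).symm
  · intro c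
    exact (hPCO.1 k _ _ _ E n (VRmap ψ f) s₁ (sheet ψ f h true) _ _ _
      (SHE.sheet_comp f ψ h h' true) c).symm

end CUB
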