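import Pool.Agent.CUB.StmtsC

/-!
# CUB ST0: anti-invariant cycles of the double cover over a divisor `f = 0`
-/

set_option autoImplicit false

open Polynomial

namespace CUB

namespace ST0

/-- the localisation homomorphism -/
noncomputable abbrev locA (k : Type) {V : Type} [Field k] [CommRing V] [Algebra k V] (b : V) :
    V →ₐ[k] Localization.Away b := IsScalarTower.toAlgHom k V (Localization.Away b)

lemma isLoc (k : Type) {V : Type} [Field k] [CommRing V] [Algebra k V] (b : V) :
    @IsLocalization.Away V _ b (Localization.Away b) _ (locA k b).toRingHom.toAlgebra := by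
  have h : (locA k b).toRingHom.toAlgebra =
      (inferInstance : Algebra V (Localization.Away b)) := Algebra.algebra_ext _ _ (fun r => rfl)
  rw [h]
  infer_instance

lemma ft_loc (k : Type) {V : Type} [Field k] [CommRing V] [Algebra k V] [Algebra.FiniteType k V]
    (b : V) : Algebra.FiniteType k (Localization.Away b) := by
  have h : Algebra.FiniteType V (Localization.Away b) :=
    IsLocalization.finiteType_of_monoid_fg (Submonoid.powers b) (Localization.Away b)
  exact Algebra.FiniteType.trans (S := V) inferInstance h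

/-- the localisation of a surjective homomorphism with principal kernel -/
lemma loc_map {k A A' : Type} [Field k] [CommRing A] [CommRing A'] [Algebra k A] [Algebra k A']
    (q : A →ₐ[k] A') (hq : Function.Surjective q) (a : A) (a' : A') (h : q a = a') (x : A)
    (hker : RingHom.ker q.toRingHom = Ideal.span {x}) :
    ∃ ψ' : Localization.Away a →ₐ[k] Localization.Away a', Function.Surjective ψ' ∧
      RingHom.ker ψ'.toRingHom = Ideal.span {locA k a x} ∧
      ∀ y, ψ' (locA k a y) = locA k a' (q y) := by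
  subst h
  have hM : Submonoid.map q.toRingHom (Submonoid.powers a) = Submonoid.powers (q a) :=
    Submonoid.map_powers _ _
  refine ⟨IsLocalization.Away.mapₐ (Localization.Away a) (Localization.Away (q a)) q a,
    IsLocalization.Away.mapₐ_surjective_of_surjective a hq, ?_, ?_⟩
  · have h1 := IsLocalization.ker_map (S := Localization.Away a) (Localization.Away (q a))
      q.toRingHom hM
    have h2 : Ideal.span {locA k a x} =
        (RingHom.ker q.toRingHom).map (algebraMap A (Localization.Away a)) := by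
      rw [hker, Ideal.map_span, Set.image_singleton]
      rfl
    rw [h2, ← h1]
    rfl
  · intro y
    exact IsLocalization.map_eq (M := Submonoid.powers a) (T := Submonoid.powers (q a))
      (g := q.toRingHom) (by rw [← hM]; exact Submonoid.le_comap_map _) y

end ST0

theorem t_ST0 : M_ST0 := by
  intro hGLO hFPX hKER hWLO hA hB k S S' E _ _ _ _ _ _ _ _ _ G f ψ hψ hker n c hc hpush
  have hfψ : ψ f = 0 := by
    have h1 : f ∈ RingHom.ker ψ.toRingHom := hker ▸ Ideal.mem_span_singleton_self f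
    exact h1
  have hS' : Algebra.FiniteType k S' := Algebra.FiniteType.of_surjective ψ hψ
  have hq : Qmap ψ rfl (2 * yy G - 1) = 2 * yy (ψ G) - 1 := by
    rw [map_sub, map_mul, map_one, Qmap_yy, map_ofNat]
  have hkq : RingHom.ker (Qmap (k := k) (g := G) ψ rfl).toRingHom =
      Ideal.span {algebraMap S (Q S G) f} := by
    rw [hKER.2.1 k S S' G (ψ G) ψ rfl, hker, Ideal.map_span, Set.image_singleton]
  obtain ⟨ψ', hψ', hkψ', hcomm⟩ := ST0.loc_map (Qmap (k := k) (g := G) ψ rfl)
    (Qmap_surjective ψ rfl hψ) (2 * yy G - 1) (2 * yy (ψ G) - 1) hq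
    (algebraMap S (Q S G) f) hkq
  have hT := ST0.ft_loc k (2 * yy G - 1 : Q S G)
  have hT' := ST0.ft_loc k (2 * yy (ψ G) - 1 : Q S' (ψ G))
  obtain ⟨φ', hφ'⟩ : ∃ φ', φ' = ST0.locA k (2 * yy (ψ G) - 1 : Q S' (ψ G)) := ⟨_, rfl⟩
  have hloc' : @IsLocalization.Away (Q S' (ψ G)) _ (2 * yy (ψ G) - 1)
      (Localization.Away (2 * yy (ψ G) - 1 : Q S' (ψ G))) _ φ'.toRingHom.toAlgebra := by
    rw [hφ']
    exact ST0.isLoc k _
  have hv' : (φ' (yy (ψ G))) ^ 2 - φ' (yy (ψ G)) = (φ'.comp (Qbase (ψ G))) (ψ G) := by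
    have h1 := yy_eq (ψ G)
    have h2 : (φ'.comp (Qbase (ψ G))) (ψ G) = φ' (algebraMap S' (Q S' (ψ G)) (ψ G)) := rfl
    rw [h2, ← map_pow, ← map_sub, ← sub_eq_zero, ← map_sub, h1, map_zero]
  have hf' : (φ'.comp (Qbase (ψ G))) (ψ f) = 0 := by rw [hfψ, map_zero]
  have hlocw := hWLO k S' (Localization.Away (2 * yy (ψ G) - 1 : Q S' (ψ G))) (ψ G) (ψ f) hfψ
    φ' (φ'.comp (Qbase (ψ G))) (φ' (yy (ψ G))) hv' hf' hloc' rfl rfl
  have hgood := hGLO k (YY (ψ G) (ψ f))
    (Localization.Away (2 * yy (ψ G) - 1 : Q S' (ψ G)))[X]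
    (shv (φ'.comp (Qbase (ψ G))) hf' (φ' (yy (ψ G))) hv') _ hlocw
  obtain ⟨d, hd⟩ := hFPX k (YY (ψ G) (ψ f))
    (Localization.Away (2 * yy (ψ G) - 1 : Q S' (ψ G)))[X] E 0 n
    (shv (φ'.comp (Qbase (ψ G))) hf' (φ' (yy (ψ G))) hv') hgood c
  have hdr := hA k S S' (Localization.Away (2 * yy G - 1 : Q S G))
    (Localization.Away (2 * yy (ψ G) - 1 : Q S' (ψ G))) E G f ψ hψ hker
    (ST0.locA k (2 * yy G - 1 : Q S G)) φ' ψ' (φ'.comp (Qbase (ψ G))) (φ' (yy (ψ G))) hv' hf'
    (ST0.isLoc k _) hloc' hψ' hkψ' (fun x => by rw [hφ']; exact hcomm x) rfl rfl n c d hc hpush hd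
  exact hB k S'[X] (Localization.Away (2 * yy (ψ G) - 1 : Q S' (ψ G)))[X] E
    (C (ψ G) + X * C (ψ f)) (shv (φ'.comp (Qbase (ψ G))) hf' (φ' (yy (ψ G))) hv') hlocw n c d hc
    hd hdr

end CUB
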