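import Pool.Agent.CUB.StmtsC

/-!
# CUB, module ST0A: anti-invariant cycles, the pull-back to a sheet over the etale locus
-/

set_option autoImplicit false

open Polynomial

namespace CUB

namespace ST0A

/-- the image of `2 y - 1` in the localisation is a unit -/
lemma unit_two {k S T : Type} [Field k] [CommRing S] [CommRing T] [Algebra k S] [Algebra k T]
    (G : S) (φ : Q S G →ₐ[k] T)
    (h : @IsLocalization.Away (Q S G) _ (2 * yy G - 1) T _ φ.toRingHom.toAlgebra) :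
    IsUnit (2 * φ (yy G) - 1) := by
  have h1 := @IsLocalization.Away.algebraMap_isUnit (Q S G) _ T _ φ.toRingHom.toAlgebra
    (2 * yy G - 1) h
  have h2 : (2 : T) * φ (yy G) - 1 = φ (2 * yy G - 1) := by
    rw [map_sub, map_mul, map_one, map_ofNat]
  rw [h2]
  exact h1

/-- the root -/
lemma root_eq {k S T : Type} [Field k] [CommRing S] [CommRing T] [Algebra k S] [Algebra k T]
    (G : S) (φ : Q S G →ₐ[k] T) :
    (φ (yy G)) ^ 2 - φ (yy G) = (φ.comp (Qbase G)) G := by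
  have h1 := yy_eq G
  have h2 : (φ.comp (Qbase G)) G = φ (algebraMap S (Q S G) G) := rfl
  rw [h2, ← map_pow, ← map_sub, ← sub_eq_zero, ← map_sub, h1, map_zero]

/-- an isomorphism of rings with equal base elements: push-forward along equal homomorphisms -/
lemma push_congr {k A B : Type} (E : Type) [Field k] [CommRing A] [CommRing B] [Algebra k A]
    [Algebra k B] [Field E] {n : ℕ} (φ χ : A →ₐ[k] B) (hφ : Function.Surjective φ)
    (hχ : Function.Surjective χ) (h : φ = χ) (c : RP k B n →₀ E) :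
    push E φ hφ c = push E χ hχ c := by
  subst h
  rfl

end ST0A

theorem t_ST0A : M_ST0A := by
  intro hFP hFPX hPBC hPLIN hGCO _ _ hPCO hKER hTWO hL0 hB1 hBLIN hBINJ hDEL _ hETA
  intro k S S' T T' E _ _ _ _ _ _ _ _ _ _ _ _ _ _ _ _ G f ψ hψ hker φ φ' ψ' σ' v' hv' hf' hloc
    hloc' hψ' hker' hcomm hσ' hvv n c d hc hpush hd
  obtain ⟨σ, hσ⟩ : ∃ σ : S →ₐ[k] T, σ = φ.comp (Qbase G) := ⟨_, rfl⟩
  obtain ⟨v, hv⟩ : ∃ v : T, v = φ (yy G) := ⟨_, rfl⟩
  have hσσ : ∀ s, ψ' (σ s) = σ' (ψ s) := by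
    intro s
    have h1 := hcomm (algebraMap S (Q S G) s)
    rw [Qmap_algebraMap] at h1
    rw [hσ, hσ']
    exact h1
  have hψv : ψ' v = v' := by
    rw [hv, hcomm, Qmap_yy, hvv]
  have hroot : v ^ 2 - v = σ G := by
    rw [hv, hσ]
    exact ST0A.root_eq G φ
  have hunit : IsUnit (2 * v - 1) := by
    rw [hv]
    exact ST0A.unit_two G φ hloc
  have hunit' : IsUnit (2 * v' - 1) := by
    rw [hvv]
    exact ST0A.unit_two (ψ G) φ' hloc'
  have hkerσ : RingHom.ker ψ'.toRingHom = Ideal.span {σ f} := by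
    rw [hker', hσ]
    rfl
  have hψσf : ψ' (σ f) = 0 := by rw [hσσ]; exact hf'
  rcases Nat.eq_zero_or_pos n with hn | hn
  · subst hn
    exact (hL0 k T' E).2 d
  obtain ⟨j, rfl⟩ : ∃ j, n = j + 1 := ⟨n - 1, by omega⟩
  -- the squares
  have hΦ0 : mapX σ (C G + X * C f) = C (σ G) + X * C (σ f) := by simp [mapX]
  have hGoodΦ : Good k 0 (YYmap G f σ) := hETA k S T G f φ σ hloc hσ _ hΦ0
  have hΦ1 : mapX σ' (C (ψ G) + X * C (ψ f)) = C (ψ' (σ G)) + X * C (ψ' (σ f)) := by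
    simp [mapX, hσσ]
  have hGoodΦ' : Good k 0 (Qmap (mapX σ') hΦ1) := hETA k S' T' (ψ G) (ψ f) φ' σ' hloc' hσ' _ hΦ1
  obtain ⟨c', hc'⟩ := hFPX k (YY (ψ G) (ψ f)) (YY (ψ' (σ G)) (ψ' (σ f))) E 0 (j + 1)
    (Qmap (mapX σ') hΦ1) hGoodΦ' c
  have hsq : (Qmap (mapX σ') hΦ1).comp (YYmap G f ψ) =
      (YYmap (σ G) (σ f) ψ').comp (YYmap G f σ) := by
    apply Q_ext
    · intro P
      simp only [AlgHom.comp_apply, YYmap, Qmap_algebraMap]
      congr 1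
      have h1 : (mapX σ').comp (mapX ψ) = (mapX ψ').comp (mapX (k := k) σ) := by
        apply Polynomial.algHom_ext'
        · ext s
          simp [mapX, hσσ]
        · simp [mapX]
      exact DFunLike.congr_fun h1 P
    · simp only [AlgHom.comp_apply, YYmap, Qmap_yy]
  have hkk : RingHom.ker (YYmap (k := k) (σ G) (σ f) ψ').toRingHom ≤
      (RingHom.ker (YYmap (k := k) G f ψ).toRingHom).map (YYmap (k := k) G f σ).toRingHom := by
    rw [hKER.2.2.2.1 k T T' (σ G) (σ f) ψ', hKER.2.2.2.1 k S S' G f ψ, hkerσ, hker,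
      Ideal.map_span, Ideal.map_span, Ideal.map_span, Set.image_singleton, Set.image_singleton,
      Set.image_singleton]
    apply le_of_eq
    congr 2
    have h1 : YYmap (k := k) G f σ (algebraMap S[X] (YY G f) (C f)) =
        algebraMap T[X] (YY (σ G) (σ f)) (C (σ f)) := by
      have h2 : mapX σ (C f) = C (σ f) := by simp [mapX]
      rw [YYmap, Qmap_algebraMap, h2]
    exact h1.symm
  have hpb := hPBC k (YY G f) (YY (σ G) (σ f)) (YY (ψ G) (ψ f)) (YY (ψ' (σ G)) (ψ' (σ f))) E 0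
    (j + 1) (YYmap G f σ) (Qmap (mapX σ') hΦ1) (YYmap G f ψ) (YYmap (σ G) (σ f) ψ')
    (YYmap_surjective G f ψ hψ) (YYmap_surjective (σ G) (σ f) ψ' hψ') hsq hkk c c' hc'
  have hrat := hFP k (YY G f) (YY (σ G) (σ f)) E 0 (j + 1) (YYmap G f σ) hGoodΦ ⊥ _ _ hpb hpush
  rw [Ideal.map_bot] at hrat
  -- the split cover
  have hV : (C v' : T'[X]) ^ 2 - C v' = C (ψ' (σ G)) + X * C (ψ' (σ f)) := by
    rw [hσσ, hψσf, map_zero, mul_zero, add_zero, ← hv', map_sub, map_pow]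
  have hunitC : IsUnit (2 * (C v' : T'[X]) - 1) := by
    have h1 : 2 * (C v' : T'[X]) - 1 = C (2 * v' - 1) := by
      rw [map_sub, map_mul, map_one, map_ofNat]
    rw [h1]
    exact hunit'.map C
  obtain ⟨hg0, hg1, hsplit, -⟩ := hTWO k T'[X] E (C (ψ' (σ G)) + X * C (ψ' (σ f))) (C v') hV hunitC
  obtain ⟨c₀, hc₀⟩ := hFPX k (YY (ψ' (σ G)) (ψ' (σ f))) T'[X] E 0 (j + 1)
    (sg (k := k) (C v') hV) hg0 c'
  obtain ⟨c₁, hc₁⟩ := hFPX k (YY (ψ' (σ G)) (ψ' (σ f))) T'[X] E 0 (j + 1)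
    (sg (k := k) (1 - C v') (conj_root hV)) hg1 c'
  have hsum := hsplit (j + 1) c' c₀ c₁ hc₀ hc₁
  have he0 : (sg (k := k) (C v') hV).comp (Qmap (mapX σ') hΦ1) = shv σ' hf' v' hv' := by
    apply Q_ext
    · intro P
      rw [AlgHom.comp_apply, Qmap_algebraMap, sg_algebraMap, shv_algebraMap]
    · rw [AlgHom.comp_apply, Qmap_yy, sg_yy, shv_yy]
  have he1 : (sg (k := k) (1 - C v') (conj_root hV)).comp (Qmap (mapX σ') hΦ1) =
      (shv σ' hf' v' hv').comp (tauH (C (ψ G) + X * C (ψ f))) := by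
    apply Q_ext
    · intro P
      have h1 : tauH (k := k) (C (ψ G) + X * C (ψ f))
          (algebraMap S'[X] (YY (ψ G) (ψ f)) P) = algebraMap S'[X] (YY (ψ G) (ψ f)) P :=
        tau_algebraMap _ _
      rw [AlgHom.comp_apply, Qmap_algebraMap, sg_algebraMap, AlgHom.comp_apply, h1, shv_algebraMap]
    · have h1 : tauH (k := k) (C (ψ G) + X * C (ψ f)) (yy (C (ψ G) + X * C (ψ f))) =
          1 - yy (C (ψ G) + X * C (ψ f)) := tau_yy _
      rw [AlgHom.comp_apply, Qmap_yy, sg_yy, AlgHom.comp_apply, h1, map_sub, map_one, shv_yy]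
  have hgoodw : Good k 0 (shv (k := k) σ' hf' v' hv') := by
    rw [← he0]
    exact hGCO.1 k (YY (ψ G) (ψ f)) (YY (ψ' (σ G)) (ψ' (σ f))) T'[X] _ _ 0 0 hGoodΦ' hg0
  have hcd0 : IsPull k E 0 (shv σ' hf' v' hv') c c₀ := by
    rw [← he0]
    exact (hGCO.2.1 k (YY (ψ G) (ψ f)) (YY (ψ' (σ G)) (ψ' (σ f))) T'[X] E _ _ 0 (j + 1)
      hGoodΦ').2 hg0 c c' c₀ hc' hc₀
  have hc₀d : c₀ = d :=
    (hPLIN.1 k (YY (ψ G) (ψ f)) T'[X] E 0 (j + 1) _ c c c₀ d 0 hcd0 hd).1 rfl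
  have hcd1 : IsPull k E 0 ((shv σ' hf' v' hv').comp (tauH (C (ψ G) + X * C (ψ f)))) c c₁ := by
    rw [← he1]
    exact (hGCO.2.1 k (YY (ψ G) (ψ f)) (YY (ψ' (σ G)) (ψ' (σ f))) T'[X] E _ _ 0 (j + 1)
      hGoodΦ').2 hg1 c c' c₁ hc' hc₁
  have hgoodτ : Good k 0 (tauH (k := k) (C (ψ G) + X * C (ψ f))) :=
    hGCO.2.2.2 k _ _ (tau (k := k) (C (ψ G) + X * C (ψ f)))
  have hτ : IsPull k E 0 (tauH (C (ψ G) + X * C (ψ f))) c (-c) := by
    have h1 := (hPCO.2.2.2 k S'[X] E (C (ψ G) + X * C (ψ f)) (j + 1) c).2.1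
    rw [hc] at h1
    exact h1
  have hneg : IsPull k E 0 (shv σ' hf' v' hv') (-c) (-d) := by
    have h1 := (hPLIN.1 k (YY (ψ G) (ψ f)) T'[X] E 0 (j + 1) _ c c d d (-1) hd hd).2.2.2.1
    rw [neg_one_smul, neg_one_smul] at h1
    exact h1
  have hcd2 : IsPull k E 0 ((shv σ' hf' v' hv').comp (tauH (C (ψ G) + X * C (ψ f)))) c (-d) :=
    (hGCO.2.1 k (YY (ψ G) (ψ f)) (YY (ψ G) (ψ f)) T'[X] E _ _ 0 (j + 1) hgoodτ).2 hgoodw
      c (-c) (-d) hτ hneg
  have hc₁d : c₁ = -d :=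
    (hPLIN.1 k (YY (ψ G) (ψ f)) T'[X] E 0 (j + 1) _ c c c₁ (-d) 0 hcd1 hcd2).1 rfl
  subst hc₀d
  subst hc₁d
  -- specialisation
  have h0 : (ψ' v) ^ 2 - ψ' v = ψ' (σ G) := by
    rw [hψv, hσσ]
    exact hv'
  have h1 : (1 - ψ' v) ^ 2 - (1 - ψ' v) = ψ' (σ G) := conj_root h0
  obtain ⟨e, he⟩ := hB1 k T' E j c₀
  have hlin := hBLIN k T' E j c₀ c₀ e e (-1) he he
  have hbn : IsBeta k E (-c₀) (-e) := by
    have h2 := hlin.2.2.2.1
    rw [neg_one_smul, neg_one_smul] at h2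
    exact h2
  have hps : push E (shv ψ' hψσf (ψ' v) h0) (shv_surjective ψ' hψ' hψσf _ h0) c₀ +
      push E (shv ψ' hψσf (1 - ψ' v) h1) (shv_surjective ψ' hψ' hψσf _ h1) (-c₀) ∈
        rat k (YY (σ G) (σ f)) E (j + 1) := by
    have e1 : shv ψ' hψσf (ψ' v) h0 =
        (sg (k := k) (C v') hV).comp (YYmap (σ G) (σ f) ψ') := by
      apply Q_ext
      · intro P
        rw [AlgHom.comp_apply, YYmap, Qmap_algebraMap, sg_algebraMap, shv_algebraMap]
      · rw [AlgHom.comp_apply, YYmap, Qmap_yy, sg_yy, shv_yy, hψv]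
    have e2 : shv ψ' hψσf (1 - ψ' v) h1 =
        (sg (k := k) (1 - C v') (conj_root hV)).comp (YYmap (σ G) (σ f) ψ') := by
      apply Q_ext
      · intro P
        rw [AlgHom.comp_apply, YYmap, Qmap_algebraMap, sg_algebraMap, shv_algebraMap]
      · rw [AlgHom.comp_apply, YYmap, Qmap_yy, sg_yy, shv_yy, hψv, map_sub, map_one]
    rw [hPCO.1 k (YY (σ G) (σ f)) (YY (ψ' (σ G)) (ψ' (σ f))) T'[X] E (j + 1)
      (YYmap (σ G) (σ f) ψ') (sg (C v') hV) (shv ψ' hψσf (ψ' v) h0)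
      (YYmap_surjective (σ G) (σ f) ψ' hψ') (sg_surjective _ _)
      (shv_surjective ψ' hψ' hψσf _ h0) e1 c₀,
      hPCO.1 k (YY (σ G) (σ f)) (YY (ψ' (σ G)) (ψ' (σ f))) T'[X] E (j + 1)
      (YYmap (σ G) (σ f) ψ') (sg (1 - C v') (conj_root hV)) (shv ψ' hψσf (1 - ψ' v) h1)
      (YYmap_surjective (σ G) (σ f) ψ' hψ') (sg_surjective _ _)
      (shv_surjective ψ' hψ' hψσf _ h1) e2 (-c₀), ← map_add, ← hsum]
    exact hrat
  have hdel := hDEL k T T' E (σ G) (σ f) v hroot hunit ψ' hψ' hψσf hkerσ h0 h1 j c₀ (-c₀) e (-e)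
    hps he hbn
  have h2e : (2 : E) • e ∈ rat k T' E j := by
    rw [two_smul]
    rw [sub_neg_eq_add] at hdel
    exact hdel
  have hee : e ∈ rat k T' E j := by
    have h3 := Submodule.smul_mem (rat k T' E j) ((2 : E)⁻¹) h2e
    rwa [smul_smul, inv_mul_cancel₀ (two_ne_zero), one_smul] at h3
  exact hBINJ k T' E j c₀ e he hee

end CUB
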