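import Pool.Agent.CUB.StmtsC

/-!
# CUB: anti-invariant cycles which are rationally equivalent to zero away from the ramification
-/

set_option autoImplicit false

open Polynomial

namespace CUB

namespace ST0B

/-- The involution is the identity modulo `2 y - 1`. -/
theorem sub_tau {k T : Type} [Field k] [CommRing T] [Algebra k T] (g : T) (x : Q T g) :
    ∃ b : Q T g, x - tauH (k := k) g x = b * (2 * yy g - 1) := by
  obtain ⟨a, b, rfl⟩ := Q_span x
  refine ⟨algebraMap T (Q T g) b, ?_⟩
  have h : tauH (k := k) g (algebraMap T (Q T g) a + algebraMap T (Q T g) b * yy g) =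
      algebraMap T (Q T g) a + algebraMap T (Q T g) b * (1 - yy g) := by
    change tau (k := k) g (algebraMap T (Q T g) a + algebraMap T (Q T g) b * yy g) = _
    rw [map_add, map_mul, tau_algebraMap, tau_algebraMap, tau_yy]
  rw [h]
  ring

/-- The involution fixes the primes which contain `2 y - 1`. -/
theorem comap_tau {k T : Type} [Field k] [CommRing T] [Algebra k T] (g : T)
    (P : PrimeSpectrum (Q T g)) (hP : 2 * yy g - 1 ∈ P.asIdeal) :
    PrimeSpectrum.comap (tauH (k := k) g).toRingHom P = P := by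
  refine PrimeSpectrum.ext ?_
  ext x
  have h1 : x ∈ (PrimeSpectrum.comap (tauH (k := k) g).toRingHom P).asIdeal ↔
      tauH (k := k) g x ∈ P.asIdeal := Iff.rfl
  rw [h1]
  obtain ⟨b, hb⟩ := sub_tau (k := k) g x
  have h2 : x - tauH (k := k) g x ∈ P.asIdeal := by
    rw [hb]
    exact P.asIdeal.mul_mem_left b hP
  constructor
  · intro h
    have := P.asIdeal.add_mem h2 h
    rwa [sub_add_cancel] at this
  · intro h
    have := P.asIdeal.sub_mem h h2
    rwa [sub_sub_cancel] at this

/-- Cycles supported on `2 y = 1` are fixed. -/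
theorem ptau_supp {k T E : Type} [Field k] [CommRing T] [Algebra k T] [Field E] (g : T) (n : ℕ)
    (κ : RP k (Q T g) n →₀ E) (h : SuppOn k E (Ideal.span {2 * yy g - 1}) κ) :
    ptau E g κ = κ := by
  have h1 : ptau E g κ = Finsupp.mapDomain (pushP (n := n) (tauH (k := k) g) (tauH_surjective g)) κ :=
    rfl
  rw [h1]
  have h2 : Finsupp.mapDomain (pushP (n := n) (tauH (k := k) g) (tauH_surjective g)) κ =
      Finsupp.mapDomain id κ := by
    refine Finsupp.mapDomain_congr fun P hP => ?_
    have h3 : 2 * yy g - 1 ∈ P.1.asIdeal :=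
      h P (Finsupp.mem_support_iff.1 hP) (Ideal.subset_span rfl)
    exact Subtype.ext (comap_tau g P.1 h3)
  rw [h2, Finsupp.mapDomain_id]

end ST0B

/-- Anti-invariant cycles which are rationally equivalent to zero away from `2 y = 1`. -/
theorem t_ST0B : M_ST0B := by
  intro hLOC hPCO k T B E _ _ _ _ _ _ _ _ _ g w hw n c d hc hp hd
  obtain ⟨ρ, hρ, hs⟩ := (hLOC k (Q T g) B E w (2 * yy g - 1) hw n ⊥).1 c d hp
    (by rw [Ideal.map_bot]; exact hd)
  have h1 := ST0B.ptau_supp g n (c - ρ) hs
  rw [map_sub, hc] at h1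
  have h2 : ptau E g ρ ∈ rat k (Q T g) E n := (hPCO.2.2.2 k T E g n ρ).2.2 hρ
  have h3 : (2 : E) • c = ρ - ptau E g ρ := by
    rw [two_smul]
    have h4 : ptau E g ρ = -c - (c - ρ) := by
      rw [← h1]
      abel
    rw [h4]
    abel
  have h5 : (2 : E) • c ∈ rat k (Q T g) E n := by
    rw [h3]
    exact Submodule.sub_mem _ hρ h2
  have h6 := Submodule.smul_mem _ (2 : E)⁻¹ h5
  rwa [smul_smul, inv_mul_cancel₀ (two_ne_zero), one_smul] at h6

end CUB
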