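import Pool.Agent.CUB.StmtsC

/-!
# CUB, module WLO: the sheet of a split double cover is a localisation
-/

set_option autoImplicit false

open Polynomial

namespace CUB

namespace WLO

variable {k S T : Type} [Field k] [CommRing S] [CommRing T] [Algebra k S] [Algebra k T]

/-- The homomorphism `Q S G → Q S[X] (C G + X * C 0)`. -/
noncomputable def io (G : S) : Q S G →ₐ[k] YY G (0 : S) :=
  Qlift ((Qbase (C G + X * C (0 : S))).comp (CC k S)) (yy (C G + X * C (0 : S))) (by
    have h2 := yy_eq (C G + X * C (0 : S))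
    have h3 : ((Qbase (k := k) (C G + X * C (0 : S))).comp (CC k S)) G =
        algebraMap S[X] (YY G (0 : S)) (C G + X * C (0 : S)) := by
      have h4 : (C G + X * C (0 : S) : S[X]) = C G := by rw [C_0, mul_zero, add_zero]
      exact congrArg (algebraMap S[X] (YY G (0 : S))) h4.symm
    rw [h3]
    exact sub_eq_zero.mp h2)

lemma io_yy (G : S) : io (k := k) G (yy G) = yy (C G + X * C (0 : S)) := by
  unfold io
  exact Qlift_yy _ _ _

lemma io_algebraMap (G a : S) :
    io (k := k) G (algebraMap S (Q S G) a) = algebraMap S[X] (YY G (0 : S)) (C a) := by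
  unfold io
  exact Qlift_algebraMap _ _ _ _

/-- Every element is a polynomial in `X` with coefficients in `Q S G`. -/
lemma expand (G : S) (A B : S[X]) (n : ℕ) (hA : A.natDegree < n) (hB : B.natDegree < n) :
    algebraMap S[X] (YY G (0 : S)) A + algebraMap S[X] (YY G (0 : S)) B * yy (C G + X * C (0 : S)) =
      ∑ i ∈ Finset.range n, algebraMap S[X] (YY G (0 : S)) (X ^ i) *
        io (k := k) G (algebraMap S (Q S G) (A.coeff i) + algebraMap S (Q S G) (B.coeff i) * yy G) := by
  have h1 : ∀ P : S[X], P.natDegree < n → algebraMap S[X] (YY G (0 : S)) P =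
      ∑ i ∈ Finset.range n, algebraMap S[X] (YY G (0 : S)) (X ^ i) *
        algebraMap S[X] (YY G (0 : S)) (C (P.coeff i)) := by
    intro P hP
    conv_lhs => rw [Polynomial.as_sum_range_C_mul_X_pow' P hP]
    rw [map_sum]
    refine Finset.sum_congr rfl fun i _ => ?_
    exact (map_mul (algebraMap S[X] (YY G (0 : S))) (C (P.coeff i)) (X ^ i)).trans (mul_comm _ _)
  rw [h1 A hA, h1 B hB, Finset.sum_mul, ← Finset.sum_add_distrib]
  refine Finset.sum_congr rfl fun i _ => ?_
  rw [map_add, map_mul, io_algebraMap, io_algebraMap, io_yy]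
  ring

end WLO

open WLO

theorem t_WLO : S_WLO := by
  intro k S T _ _ _ _ _ G f hf φ σ v hv hf' hloc hσ hvy
  subst hf
  have hiso : ∀ x : Q S G, shv σ hf' v hv (io (k := k) G x) = C (φ x) := by
    intro x
    have h : (shv σ hf' v hv).comp (io (k := k) G) = (CC k T).comp φ := by
      apply Q_ext
      · intro t
        rw [AlgHom.comp_apply, io_algebraMap, shv_algebraMap, AlgHom.comp_apply, CC_apply]
        change Polynomial.map σ.toRingHom (C t) = _
        rw [Polynomial.map_C, hσ]
        rfl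
      · rw [AlgHom.comp_apply, io_yy, shv_yy, AlgHom.comp_apply, CC_apply, hvy]
    exact DFunLike.congr_fun h x
  have hX : ∀ i : ℕ, shv σ hf' v hv (algebraMap S[X] (YY G (0 : S)) (X ^ i)) = X ^ i := by
    intro i
    rw [shv_algebraMap]
    change Polynomial.map σ.toRingHom (X ^ i) = _
    rw [Polynomial.map_pow, Polynomial.map_X]
  have hs : io (k := k) G (2 * yy G - 1) = 2 * yy (C G + X * C (0 : S)) - 1 := by
    rw [map_sub, map_mul, io_yy, map_one, map_ofNat]
  let _ := φ.toRingHom.toAlgebra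
  have hloc' : IsLocalization.Away (2 * yy G - 1) T := hloc
  have hunit : IsUnit (φ (2 * yy G - 1)) := IsLocalization.Away.algebraMap_isUnit (2 * yy G - 1)
  let _ := (shv σ hf' v hv).toRingHom.toAlgebra
  have halg : ∀ z : YY G (0 : S), algebraMap (YY G (0 : S)) T[X] z = shv σ hf' v hv z := fun _ => rfl
  change IsLocalization.Away (2 * yy (C G + X * C (0 : S)) - 1) T[X]
  refine (isLocalization_iff _ _).2 ⟨?_, ?_, ?_⟩
  · rintro ⟨_, n, rfl⟩
    change IsUnit (shv σ hf' v hv ((2 * yy (C G + X * C (0 : S)) - 1) ^ n))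
    rw [map_pow, ← hs, hiso]
    exact (hunit.map C).pow n
  · intro P
    have key : ∃ (n : ℕ) (z : YY G (0 : S)), P * shv σ hf' v hv (io (k := k) G (2 * yy G - 1)) ^ n =
        shv σ hf' v hv z := by
      induction P using Polynomial.induction_on' with
      | add P₁ P₂ h₁ h₂ =>
        obtain ⟨n₁, z₁, e₁⟩ := h₁
        obtain ⟨n₂, z₂, e₂⟩ := h₂
        refine ⟨n₁ + n₂, z₁ * io (k := k) G (2 * yy G - 1) ^ n₂ + z₂ * io (k := k) G (2 * yy G - 1) ^ n₁, ?_⟩
        rw [map_add, map_mul, map_mul, map_pow, map_pow, ← e₁, ← e₂]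
        ring
      | monomial m t =>
        obtain ⟨n, q, hq⟩ := IsLocalization.Away.surj (2 * yy G - 1) t
        refine ⟨n, io (k := k) G q * algebraMap S[X] (YY G (0 : S)) (X ^ m), ?_⟩
        have hq' : t * φ (2 * yy G - 1) ^ n = φ q := hq
        rw [map_mul, hiso, hX, hiso, ← hq', ← Polynomial.C_mul_X_pow_eq_monomial, C_mul, C_pow]
        ring
    obtain ⟨n, z, hz⟩ := key
    refine ⟨(z, ⟨(2 * yy (C G + X * C (0 : S)) - 1) ^ n, n, rfl⟩), ?_⟩
    change P * shv σ hf' v hv ((2 * yy (C G + X * C (0 : S)) - 1) ^ n) = shv σ hf' v hv z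
    rw [map_pow, ← hs, hz]
  · intro x y hxy
    have hxy' : shv σ hf' v hv (x - y) = 0 := by
      have h : shv σ hf' v hv x = shv σ hf' v hv y := hxy
      rw [map_sub, h, sub_self]
    obtain ⟨A, B, hAB⟩ := Q_span (x - y)
    set n : ℕ := max A.natDegree B.natDegree + 1 with hn
    have hA : A.natDegree < n := Nat.lt_succ_of_le (le_max_left _ _)
    have hB : B.natDegree < n := Nat.lt_succ_of_le (le_max_right _ _)
    have hE := expand (k := k) G A B n hA hB
    rw [← hAB] at hE
    set w : ℕ → Q S G := fun i => algebraMap S (Q S G) (A.coeff i) + algebraMap S (Q S G) (B.coeff i) * yy G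
      with hw
    have hE' : x - y = ∑ i ∈ Finset.range n, algebraMap S[X] (YY G (0 : S)) (X ^ i) * io (k := k) G (w i) := hE
    have hzero : ∀ i ∈ Finset.range n, φ (w i) = 0 := by
      intro i hi
      rw [hE', map_sum] at hxy'
      have h1 := congrArg (fun P => Polynomial.coeff P i) hxy'
      simp only [map_mul, hX, hiso, Polynomial.finsetSum_coeff, Polynomial.coeff_zero] at h1
      rw [Finset.sum_eq_single i] at h1
      · rwa [Polynomial.coeff_X_pow_mul', if_pos (le_refl i), Nat.sub_self, Polynomial.coeff_C_zero] at h1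
      · intro j _ hji
        rw [mul_comm, Polynomial.coeff_C_mul, Polynomial.coeff_X_pow, if_neg (fun h => hji h.symm), mul_zero]
      · intro h
        exact absurd hi h
    have hN : ∀ i ∈ Finset.range n, ∃ m : ℕ, (2 * yy G - 1) ^ m * w i = 0 := by
      intro i hi
      have h1 : algebraMap (Q S G) T (w i) = algebraMap (Q S G) T 0 := by
        rw [map_zero]
        exact hzero i hi
      obtain ⟨⟨_, m, rfl⟩, hc⟩ := IsLocalization.exists_of_eq (M := Submonoid.powers (2 * yy G - 1)) h1
      refine ⟨m, ?_⟩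
      rw [mul_zero] at hc
      exact hc
    choose! m hm using hN
    refine ⟨⟨(2 * yy (C G + X * C (0 : S)) - 1) ^ (∑ i ∈ Finset.range n, m i), _, rfl⟩, ?_⟩
    change (2 * yy (C G + X * C (0 : S)) - 1) ^ (∑ i ∈ Finset.range n, m i) * x =
      (2 * yy (C G + X * C (0 : S)) - 1) ^ (∑ i ∈ Finset.range n, m i) * y
    rw [← sub_eq_zero, ← mul_sub, hE', Finset.mul_sum]
    refine Finset.sum_eq_zero fun i hi => ?_
    have hle : m i ≤ ∑ i ∈ Finset.range n, m i := Finset.single_le_sum (fun _ _ => Nat.zero_le _) hi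
    obtain ⟨d, hd⟩ := Nat.exists_eq_add_of_le hle
    have h2 : (2 * yy (C G + X * C (0 : S)) - 1) ^ (m i) * io (k := k) G (w i) = 0 := by
      rw [← hs, ← map_pow, ← map_mul, hm i hi]
      exact map_zero (io (k := k) G)
    rw [hd, pow_add]
    linear_combination (2 * yy (C G + X * C (0 : S)) - 1) ^ d * algebraMap S[X] (YY G (0 : S)) (X ^ i) * h2

end CUB
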