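import Pool.Agent.CUB.StmtsC

/-!
# CUB, module ZPOL: cycles of small dimension on affine space
-/

set_option autoImplicit false

open Polynomial

namespace CUB

theorem t_ZPOL : M_ZPOL := by
  intro h k E _ _ N i hi z
  exact (h k k E N).2 i hi z

end CUB
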