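import Pool.Agent.CUB.StmtsR

/-!
# Module AVO: prime avoidance in a normal Noetherian domain
-/

set_option autoImplicit false

open Polynomial

namespace CUB

namespace AVO

variable {A K : Type} [CommRing A] [IsDomain A] [Field K] [Algebra A K]

/-- The elements `a` of `A` with `a / x ∈ O`. -/
def sqI (O : ValuationSubring K) (hO : ∀ a : A, algebraMap A K a ∈ O) (x : K) : Ideal A where
  carrier := {a | algebraMap A K a / x ∈ O}
  add_mem' := by
    intro a b ha hb
    show algebraMap A K (a + b) / x ∈ O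
    rw [map_add, add_div]
    exact O.add_mem _ _ ha hb
  zero_mem' := by
    show algebraMap A K 0 / x ∈ O
    rw [map_zero, zero_div]
    exact O.zero_mem
  smul_mem' := by
    intro c a ha
    show algebraMap A K (c * a) / x ∈ O
    rw [map_mul, mul_div_assoc]
    exact O.mul_mem _ _ (hO c) ha

/-- The elements `c` of `A` with `w c ∈ A`. -/
def denI (w : K) : Ideal A where
  carrier := {c | ∃ d : A, w * algebraMap A K c = algebraMap A K d}
  add_mem' := by
    rintro a b ⟨c, hc⟩ ⟨d, hd⟩
    exact ⟨c + d, by rw [map_add, mul_add, hc, hd, map_add]⟩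
  zero_mem' := ⟨0, by rw [map_zero, mul_zero]⟩
  smul_mem' := by
    rintro c a ⟨d, hd⟩
    refine ⟨c * d, ?_⟩
    rw [smul_eq_mul, map_mul, map_mul, ← hd]
    ring

end AVO

open AVO in
theorem t_AVO : M_AVO := by
  classical
  intro hV1 hV2 A K _ _ _ _ _ _ _ T O hT
  refine ⟨?_, ?_⟩
  · intro p hp
    obtain ⟨hp0, hph, hpO⟩ := hT p hp
    obtain ⟨hO, hOp⟩ := (hV2 A K p hp0 hph (O p)).2 hpO
    obtain ⟨O', hO', ⟨π₀, hπ₀⟩, -⟩ := hV1 A K p hp0 hph
    have hOO : O' = O p := by
      ext x
      rw [hO' x, hpO x]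
    rw [hOO] at hπ₀
    obtain ⟨h1, h2, h3, h4⟩ := hπ₀
    have hne : ∀ i ∈ Finset.insertNone (T.erase p),
        ¬ p.asIdeal ≤ (fun i : Option (PrimeSpectrum A) =>
          i.elim (sqI (O p) hO (algebraMap A K π₀ ^ 2)) fun q => q.asIdeal) i := by
      intro i hi hle
      rcases i with _ | q
      · have h5 : π₀ ∈ p.asIdeal := (hOp π₀).2 (Or.inr h3)
        have h6 : algebraMap A K π₀ / algebraMap A K π₀ ^ 2 ∈ O p := hle h5
        apply h3
        have h7 : algebraMap A K π₀ / algebraMap A K π₀ ^ 2 = (algebraMap A K π₀)⁻¹ := by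
          field_simp
        rw [← h7]
        exact h6
      · have hq : q ∈ T.erase p := by simpa using hi
        obtain ⟨hqp, hqT⟩ := Finset.mem_erase.1 hq
        obtain ⟨hq0, hqh, -⟩ := hT q hqT
        have hle' : p.asIdeal ≤ q.asIdeal := hle
        rcases lt_or_eq_of_le hle' with h5 | h5
        · exact hp0 (hqh _ p.isPrime h5)
        · exact hqp (PrimeSpectrum.ext h5.symm)
    have hav := mt (Ideal.subset_union_prime (s := Finset.insertNone (T.erase p))
      (f := fun i : Option (PrimeSpectrum A) =>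
        i.elim (sqI (O p) hO (algebraMap A K π₀ ^ 2)) fun q => q.asIdeal) none none (by
      intro i _ hi _
      rcases i with _ | q
      · exact absurd rfl hi
      · exact q.isPrime) (I := p.asIdeal)).1 (by
      rintro ⟨i, hi, hle⟩
      exact hne i hi hle)
    rw [Set.not_subset] at hav
    obtain ⟨π, hπ, hπn⟩ := hav
    have hπn' : ∀ i ∈ Finset.insertNone (T.erase p), π ∉ (fun i : Option (PrimeSpectrum A) =>
        i.elim (sqI (O p) hO (algebraMap A K π₀ ^ 2)) fun q => q.asIdeal) i := by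
      intro i hi hmem
      apply hπn
      simp only [Set.mem_iUnion]
      exact ⟨i, Finset.mem_coe.2 hi, hmem⟩
    have hπ2 : ¬ algebraMap A K π / algebraMap A K π₀ ^ 2 ∈ O p :=
      hπn' none (by simp)
    have hπ0 : algebraMap A K π ≠ 0 := by
      intro h5
      apply hπ2
      rw [h5, zero_div]
      exact (O p).zero_mem
    have hπi : (algebraMap A K π)⁻¹ ∉ O p := by
      rcases (hOp π).1 hπ with h5 | h5
      · exact absurd h5 hπ0
      · exact h5
    refine ⟨π, ⟨hO π, hπ0, hπi, ?_⟩, ?_⟩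
    · intro x hx hxi
      have h5 : algebraMap A K π / algebraMap A K π₀ ∈ O p := h4 _ (hO π) hπi
      have h6 : (algebraMap A K π / algebraMap A K π₀)⁻¹ ∈ O p := by
        by_contra h7
        apply hπ2
        have h8 := h4 _ h5 h7
        have h9 : algebraMap A K π / algebraMap A K π₀ / algebraMap A K π₀ =
            algebraMap A K π / algebraMap A K π₀ ^ 2 := by
          rw [div_div, sq]
        rw [← h9]
        exact h8
      have h7 := (O p).mul_mem _ _ (h4 x hx hxi) h6
      have h8 : x / algebraMap A K π₀ * (algebraMap A K π / algebraMap A K π₀)⁻¹ =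
          x / algebraMap A K π := by
        field_simp
      rw [← h8]
      exact h7
    · intro p' hp' hne' hmem
      exact hπn' (some p') (by simp [hp', hne']) hmem
  · intro w hw0 hw
    have hav := mt (Ideal.subset_union_prime (s := T)
      (f := fun q : PrimeSpectrum A => q.asIdeal) ⟨⊥, Ideal.isPrime_bot⟩ ⟨⊥, Ideal.isPrime_bot⟩
      (fun q _ _ _ => q.isPrime) (I := denI w)).1 (by
      rintro ⟨p, hp, hle⟩
      obtain ⟨hp0, hph, hpO⟩ := hT p hp
      obtain ⟨a, b, hb, hab⟩ := (hpO w).1 (hw p hp).2.1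
      exact hb (hle ⟨a, hab⟩))
    rw [Set.not_subset] at hav
    obtain ⟨c₂, ⟨c₁, hc⟩, hn⟩ := hav
    refine ⟨c₁, c₂, hc, ?_⟩
    intro p hp
    obtain ⟨hp0, hph, hpO⟩ := hT p hp
    obtain ⟨hO, hOp⟩ := (hV2 A K p hp0 hph (O p)).2 hpO
    have hc₂ : c₂ ∉ p.asIdeal := by
      intro h
      apply hn
      simp only [Set.mem_iUnion]
      exact ⟨p, Finset.mem_coe.2 hp, h⟩
    refine ⟨?_, hc₂⟩
    have h1 : algebraMap A K c₂ ≠ 0 ∧ (algebraMap A K c₂)⁻¹ ∈ O p := by
      have := mt (hOp c₂).2 hc₂
      push Not at this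
      exact this
    intro h2
    rcases (hOp c₁).1 h2 with h3 | h3
    · rw [← hc] at h3
      rcases mul_eq_zero.1 h3 with h4 | h4
      · exact hw0 h4
      · exact h1.1 h4
    · apply h3
      rw [← hc, mul_inv]
      exact (O p).mul_mem _ _ (hw p hp).2.2 h1.2

end CUB
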