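import Pool.Agent.CUB.StmtsR

/-!
# CUB, DEV: additivity of `length (M / y M) - length (M[y])`
-/

set_option autoImplicit false

namespace CUB

namespace DEV

section Six

variable {C : Type} [CommRing C] {K₁ K₂ K₃ C₁ C₂ C₃ : Type} [AddCommGroup K₁]
  [AddCommGroup K₂] [AddCommGroup K₃] [AddCommGroup C₁] [AddCommGroup C₂] [AddCommGroup C₃]
  [Module C K₁] [Module C K₂] [Module C K₃] [Module C C₁] [Module C C₂] [Module C C₃]

/-- the length of the source is that of the kernel plus that of the range -/
lemma len_src (f : K₁ →ₗ[C] K₂) : Module.length C K₁ =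
    Module.length C (LinearMap.ker f) + Module.length C (LinearMap.range f) :=
  Module.length_eq_add_of_exact (LinearMap.ker f).subtype f.rangeRestrict
    (Submodule.injective_subtype _) f.surjective_rangeRestrict
    (by
      intro x
      constructor
      · intro hx
        refine ⟨⟨x, ?_⟩, rfl⟩
        have := congrArg Subtype.val hx
        exact this
      · rintro ⟨x, rfl⟩
        exact Subtype.ext x.2)

/-- the length of the target is that of the range plus that of the cokernel -/
lemma len_tgt (f : K₁ →ₗ[C] K₂) : Module.length C K₂ =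
    Module.length C (LinearMap.range f) + Module.length C (K₂ ⧸ LinearMap.range f) :=
  Module.length_eq_add_of_exact (LinearMap.range f).subtype (LinearMap.range f).mkQ
    (Submodule.injective_subtype _) (Submodule.mkQ_surjective _)
    (LinearMap.exact_subtype_mkQ _)

/-- in an exact sequence the length of the middle term is the sum of the lengths of the ranges -/
lemma len_mid (f : K₁ →ₗ[C] K₂) (g : K₂ →ₗ[C] K₃) (h : Function.Exact f g) :
    Module.length C K₂ =
      Module.length C (LinearMap.range f) + Module.length C (LinearMap.range g) := by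
  rw [len_src g, h.linearMap_ker_eq]

lemma len_inj (f : K₁ →ₗ[C] K₂) (h : Function.Injective f) :
    Module.length C (LinearMap.range f) = Module.length C K₁ :=
  (LinearEquiv.ofInjective f h).length_eq.symm

lemma len_surj (f : K₁ →ₗ[C] K₂) (h : Function.Surjective f) :
    Module.length C (LinearMap.range f) = Module.length C K₂ := by
  rw [LinearMap.range_eq_top.2 h, Module.length_top]

/-- the six term exact sequence -/
lemma six (a : K₁ →ₗ[C] K₂) (b : K₂ →ₗ[C] K₃) (d : K₃ →ₗ[C] C₁) (e : C₁ →ₗ[C] C₂)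
    (f : C₂ →ₗ[C] C₃) (ha : Function.Injective a) (hab : Function.Exact a b)
    (hbd : Function.Exact b d) (hde : Function.Exact d e) (hef : Function.Exact e f)
    (hf : Function.Surjective f) (h1 : Module.length C K₁ ≠ ⊤) (h3 : Module.length C K₃ ≠ ⊤)
    (g1 : Module.length C C₁ ≠ ⊤) (g3 : Module.length C C₃ ≠ ⊤) :
    Module.length C C₂ ≠ ⊤ ∧ Module.length C K₂ ≠ ⊤ ∧
      lC C C₂ + lC C K₁ + lC C K₃ = lC C K₂ + lC C C₁ + lC C C₃ := by
  have e1 := len_mid a b hab
  have e2 := len_mid b d hbd
  have e3 := len_mid d e hde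
  have e4 := len_mid e f hef
  rw [len_inj a ha] at e1
  rw [len_surj f hf] at e4
  unfold lC
  generalize Module.length C (LinearMap.range b) = rb at *
  generalize Module.length C (LinearMap.range d) = rd at *
  generalize Module.length C (LinearMap.range e) = re at *
  generalize Module.length C K₁ = k1 at *
  generalize Module.length C K₂ = k2 at *
  generalize Module.length C K₃ = k3 at *
  generalize Module.length C C₁ = c1 at *
  generalize Module.length C C₂ = c2 at *
  generalize Module.length C C₃ = c3 at *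
  subst e1 e2 e3 e4
  have hb : rb ≠ ⊤ := fun h => h3 (by rw [h, top_add])
  have hd : rd ≠ ⊤ := fun h => g1 (by rw [h, top_add])
  have he : re ≠ ⊤ := fun h => g1 (by rw [h, add_top])
  lift rb to ℕ using hb
  lift rd to ℕ using hd
  lift re to ℕ using he
  lift k1 to ℕ using h1
  lift c3 to ℕ using g3
  refine ⟨by simpa using ENat.coe_ne_top (re + c3), by simpa using ENat.coe_ne_top (k1 + rb), ?_⟩
  simp only [← ENat.coe_add, ENat.toNat_coe]
  omega

end Six

section Snake

variable {C A : Type} [CommRing C] [CommRing A] [Algebra C A] (y : A)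
  {M₁ M₂ M₃ : Type} [AddCommGroup M₁] [AddCommGroup M₂] [AddCommGroup M₃]
  [Module A M₁] [Module A M₂] [Module A M₃] [Module C M₁] [Module C M₂] [Module C M₃]
  [IsScalarTower C A M₁] [IsScalarTower C A M₂] [IsScalarTower C A M₃]

/-- kernel of the multiplication by `y` -/
abbrev Ky (M : Type) [AddCommGroup M] [Module A M] : Submodule A M :=
  LinearMap.ker (LinearMap.lsmul A M y)

/-- range of the multiplication by `y` -/
abbrev Ry (M : Type) [AddCommGroup M] [Module A M] : Submodule A M :=
  LinearMap.range (LinearMap.lsmul A M y)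

/-- the map on kernels -/
def kmap (f : M₁ →ₗ[A] M₂) : Ky y M₁ →ₗ[A] Ky y M₂ :=
  f.restrict (p := Ky y M₁) (q := Ky y M₂) (by
    intro x hx
    have hx' : y • x = 0 := hx
    show y • f x = 0
    rw [← map_smul, hx', map_zero])

/-- the map on cokernels -/
def cmap (f : M₁ →ₗ[A] M₂) : (M₁ ⧸ Ry y M₁) →ₗ[A] (M₂ ⧸ Ry y M₂) :=
  Submodule.mapQ _ _ f (by
    rintro _ ⟨x, rfl⟩
    exact ⟨f x, by simp⟩)

lemma snake (f : M₁ →ₗ[A] M₂) (g : M₂ →ₗ[A] M₃) (hf : Function.Injective f)
    (hg : Function.Surjective g) (hfg : Function.Exact f g)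
    (h1 : Module.length C (Ky y M₁) ≠ ⊤) (h3 : Module.length C (Ky y M₃) ≠ ⊤)
    (g1 : Module.length C (M₁ ⧸ Ry y M₁) ≠ ⊤) (g3 : Module.length C (M₃ ⧸ Ry y M₃) ≠ ⊤) :
    Module.length C (M₂ ⧸ Ry y M₂) ≠ ⊤ ∧ Module.length C (Ky y M₂) ≠ ⊤ ∧
      lC C (M₂ ⧸ Ry y M₂) + lC C (Ky y M₁) + lC C (Ky y M₃) =
        lC C (Ky y M₂) + lC C (M₁ ⧸ Ry y M₁) + lC C (M₃ ⧸ Ry y M₃) := by
  classical
  have s1 : f.comp (LinearMap.lsmul A M₁ y) = (LinearMap.lsmul A M₂ y).comp f := by
    ext x
    simp
  have s2 : g.comp (LinearMap.lsmul A M₂ y) = (LinearMap.lsmul A M₃ y).comp g := by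
    ext x
    simp
  obtain ⟨σ, hσ⟩ := hg.hasRightInverse
  obtain ⟨ρ, hρ⟩ := hf.hasLeftInverse
  have hσ' : g ∘ σ = id := funext hσ
  have hρ' : ρ ∘ f = id := funext hρ
  have hι : ∀ (M : Type) [AddCommGroup M] [Module A M],
      Function.Exact (Ky y M).subtype (LinearMap.lsmul A M y) := by
    intro M _ _
    exact LinearMap.exact_subtype_ker_map _
  have hπ : ∀ (M : Type) [AddCommGroup M] [Module A M],
      Function.Exact (LinearMap.lsmul A M y) (Ry y M).mkQ := by
    intro M _ _
    exact LinearMap.exact_map_mkQ_range _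
  let δ := SnakeLemma.δ (LinearMap.lsmul A M₁ y) (LinearMap.lsmul A M₂ y)
    (LinearMap.lsmul A M₃ y) f g hfg f g hfg s1 s2 σ hσ' ρ hρ' (Ky y M₃).subtype (hι M₃)
    (Ry y M₁).mkQ (hπ M₁)
  have k1 : Function.Exact (kmap y g) δ :=
    SnakeLemma.exact_δ_right (LinearMap.lsmul A M₁ y) (LinearMap.lsmul A M₂ y)
      (LinearMap.lsmul A M₃ y) f g hfg f g hfg s1 s2 σ hσ' ρ hρ' (Ky y M₂).subtype (hι M₂)
      (Ky y M₃).subtype (hι M₃) (Ry y M₁).mkQ (hπ M₁) (kmap y g) rfl
      (Submodule.injective_subtype _)
  have k2 : Function.Exact δ (cmap y f) :=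
    SnakeLemma.exact_δ_left (LinearMap.lsmul A M₁ y) (LinearMap.lsmul A M₂ y)
      (LinearMap.lsmul A M₃ y) f g hfg f g hfg s1 s2 σ hσ' ρ hρ'
      (Ky y M₃).subtype (hι M₃) (Ry y M₁).mkQ (hπ M₁) (Ry y M₂).mkQ (hπ M₂) (cmap y f) rfl
      (Submodule.mkQ_surjective _)
  have k3 : Function.Exact (kmap y f) (kmap y g) := by
    intro x
    constructor
    · intro hx
      have h : g x.1 = 0 := congrArg Subtype.val hx
      obtain ⟨z, hz⟩ := (hfg _).1 h
      have hz0 : y • z = 0 := by
        apply hf
        rw [map_smul, hz, map_zero]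
        exact x.2
      exact ⟨⟨z, hz0⟩, Subtype.ext hz⟩
    · rintro ⟨z, rfl⟩
      exact Subtype.ext ((hfg _).2 ⟨z.1, rfl⟩)
  have k4 : Function.Exact (cmap y f) (cmap y g) := by
    intro x
    constructor
    · intro hx
      induction x using Submodule.Quotient.induction_on with
      | _ x =>
        have h : (Submodule.Quotient.mk (g x) : M₃ ⧸ Ry y M₃) = 0 := hx
        rw [Submodule.Quotient.mk_eq_zero] at h
        obtain ⟨z, hz⟩ := h
        obtain ⟨w, rfl⟩ := hg z
        have hz' : g (x - y • w) = 0 := by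
          rw [map_sub, map_smul, ← hz]
          exact sub_self _
        obtain ⟨u, hu⟩ := (hfg _).1 hz'
        refine ⟨Submodule.Quotient.mk u, ?_⟩
        show (Submodule.Quotient.mk (f u) : M₂ ⧸ Ry y M₂) = Submodule.Quotient.mk x
        rw [hu, Submodule.Quotient.eq]
        exact ⟨-w, by
          show y • (-w) = x - y • w - x
          rw [smul_neg]
          abel⟩
    · rintro ⟨z, rfl⟩
      induction z using Submodule.Quotient.induction_on with
      | _ z =>
        show (Submodule.Quotient.mk (g (f z)) : M₃ ⧸ Ry y M₃) = 0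
        rw [(hfg _).2 ⟨z, rfl⟩]
        rfl
  refine six ((kmap y f).restrictScalars C) ((kmap y g).restrictScalars C)
    (δ.restrictScalars C) ((cmap y f).restrictScalars C) ((cmap y g).restrictScalars C)
    ?_ k3 k1 k2 k4 ?_ h1 h3 g1 g3
  · intro x x' h
    apply Subtype.ext
    apply hf
    exact congrArg Subtype.val h
  · intro x
    induction x using Submodule.Quotient.induction_on with
    | _ x =>
      obtain ⟨z, rfl⟩ := hg x
      exact ⟨Submodule.Quotient.mk z, rfl⟩

end Snake

section Loc

variable {A : Type} [CommRing A]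

/-- the localisation -/
abbrev LM (P : PrimeSpectrum A) (M : Type) [AddCommGroup M] [Module A M] : Type :=
  LocalizedModule P.asIdeal.primeCompl M

lemma loc_add (P : PrimeSpectrum A) {M₁ M₂ M₃ : Type} [AddCommGroup M₁] [AddCommGroup M₂]
    [AddCommGroup M₃] [Module A M₁] [Module A M₂] [Module A M₃] (f : M₁ →ₗ[A] M₂)
    (g : M₂ →ₗ[A] M₃) (hf : Function.Injective f) (hg : Function.Surjective g)
    (hfg : Function.Exact f g) :
    Module.length (Localization.AtPrime P.asIdeal) (LM P M₂) =
      Module.length (Localization.AtPrime P.asIdeal) (LM P M₁) +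
      Module.length (Localization.AtPrime P.asIdeal) (LM P M₃) :=
  Module.length_eq_add_of_exact (LocalizedModule.map P.asIdeal.primeCompl f)
    (LocalizedModule.map P.asIdeal.primeCompl g)
    (LocalizedModule.map_injective _ f hf) (LocalizedModule.map_surjective _ g hg)
    (LocalizedModule.map_exact _ f g hfg)

lemma loc_zero (P p : PrimeSpectrum A) {N : Type} [AddCommGroup N] [Module A N]
    (e : N ≃ₗ[A] A ⧸ p.asIdeal) (h : ¬ p.asIdeal ≤ P.asIdeal) : Subsingleton (LM P N) := by
  rw [← Module.notMem_support_iff, Module.notMem_support_iff']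
  obtain ⟨r, hr, hr'⟩ := SetLike.not_le_iff_exists.1 h
  intro m
  refine ⟨r, hr', ?_⟩
  apply e.injective
  rw [map_smul, map_zero]
  obtain ⟨c, hc⟩ := Ideal.Quotient.mk_surjective (e m)
  rw [← hc]
  show Ideal.Quotient.mk p.asIdeal (r * c) = 0
  rw [Ideal.Quotient.eq_zero_iff_mem]
  exact Ideal.mul_mem_right _ _ hr

lemma loc_one (p : PrimeSpectrum A) {N : Type} [AddCommGroup N] [Module A N]
    (e : N ≃ₗ[A] A ⧸ p.asIdeal) :
    Module.length (Localization.AtPrime p.asIdeal) (LM p N) = 1 := by
  have hz : ∀ (r : A) (n : N), r • n = 0 → r ∉ p.asIdeal → n = 0 := by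
    intro r n h hr
    apply e.injective
    rw [map_zero]
    obtain ⟨c, hc⟩ := Ideal.Quotient.mk_surjective (e n)
    have h1 : r • e n = 0 := by
      rw [← map_smul, h, map_zero]
    rw [← hc] at h1 ⊢
    have h2 : Ideal.Quotient.mk p.asIdeal (r * c) = 0 := h1
    rw [Ideal.Quotient.eq_zero_iff_mem] at h2 ⊢
    exact (p.2.mem_or_mem h2).resolve_left hr
  rw [Module.length_eq_one_iff, isSimpleModule_iff_toSpanSingleton_surjective]
  constructor
  · rw [← Module.mem_support_iff, Module.mem_support_iff']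
    refine ⟨e.symm 1, fun r hr h => ?_⟩
    have h1 := hz r _ h hr
    have h2 : (1 : A ⧸ p.asIdeal) = 0 := by
      rw [← e.apply_symm_apply 1, h1, map_zero]
    exact one_ne_zero h2
  · intro x hx z
    induction x using LocalizedModule.induction_on with
    | _ x s =>
      induction z using LocalizedModule.induction_on with
      | _ z t =>
        obtain ⟨a, ha⟩ := Ideal.Quotient.mk_surjective (e x)
        obtain ⟨b, hb⟩ := Ideal.Quotient.mk_surjective (e z)
        have ha' : a ∉ p.asIdeal := by
          intro h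
          apply hx
          have h1 : x = 0 := by
            apply e.injective
            rw [← ha, map_zero, Ideal.Quotient.eq_zero_iff_mem]
            exact h
          rw [h1, LocalizedModule.zero_mk]
        refine ⟨Localization.mk (b * s) (⟨a, ha'⟩ * t), ?_⟩
        rw [LinearMap.toSpanSingleton_apply, LocalizedModule.mk_smul_mk, LocalizedModule.mk_eq]
        refine ⟨1, ?_⟩
        simp only [one_smul]
        apply e.injective
        have h3 : ∀ r : A, ∀ n : N, e (r • n) = Ideal.Quotient.mk p.asIdeal r * e n := by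
          intro r n
          rw [map_smul]
          rfl
        simp only [Submonoid.smul_def, h3, ← ha, ← hb, Submonoid.coe_mul, ← map_mul]
        congr 1
        ring

end Loc

section Base

variable {C A : Type} [CommRing C] [CommRing A] [Algebra C A]

lemma base_ker (y : A) (p : PrimeSpectrum A) {N : Type} [AddCommGroup N] [Module A N]
    [Module C N] [IsScalarTower C A N] (e : N ≃ₗ[A] A ⧸ p.asIdeal) (hy : y ∉ p.asIdeal) :
    Module.length C (Ky y N) = 0 := by
  rw [Module.length_eq_zero_iff]
  refine ⟨fun a b => ?_⟩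
  have h : ∀ c : Ky y N, c = 0 := by
    rintro ⟨c, hc⟩
    have hc' : y • c = 0 := hc
    apply Subtype.ext
    show c = 0
    apply e.injective
    rw [map_zero]
    obtain ⟨d, hd⟩ := Ideal.Quotient.mk_surjective (e c)
    have h1 : y • e c = 0 := by
      rw [← map_smul, hc', map_zero]
    rw [← hd] at h1 ⊢
    have h2 : Ideal.Quotient.mk p.asIdeal (y * d) = 0 := h1
    rw [Ideal.Quotient.eq_zero_iff_mem] at h2 ⊢
    exact (p.2.mem_or_mem h2).resolve_left hy
  rw [h a, h b]

lemma base_coker (y : A) (p : PrimeSpectrum A) {N : Type} [AddCommGroup N] [Module A N]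
    [Module C N] [IsScalarTower C A N] (e : N ≃ₗ[A] A ⧸ p.asIdeal) :
    Module.length C (N ⧸ Ry y N) = Module.length C (A ⧸ (p.asIdeal ⊔ Ideal.span {y})) := by
  let φ : N →ₗ[A] A ⧸ (p.asIdeal ⊔ Ideal.span {y}) :=
    (Submodule.factor (le_sup_left : p.asIdeal ≤ p.asIdeal ⊔ Ideal.span {y})).comp
      e.toLinearMap
  have hφ : Function.Surjective φ :=
    (Submodule.factor_surjective
      (le_sup_left : p.asIdeal ≤ p.asIdeal ⊔ Ideal.span {y})).comp e.surjective
  have hk : LinearMap.ker φ = Ry y N := by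
    ext n
    obtain ⟨a, ha⟩ := Ideal.Quotient.mk_surjective (e n)
    have h1 : φ n = Submodule.Quotient.mk a := by
      show Submodule.factor (le_sup_left : p.asIdeal ≤ p.asIdeal ⊔ Ideal.span {y}) (e n) = _
      rw [← ha]
      rfl
    rw [LinearMap.mem_ker, h1, Submodule.Quotient.mk_eq_zero, Submodule.mem_sup]
    constructor
    · rintro ⟨q, hq, r, hr, hqr⟩
      obtain ⟨t, rfl⟩ := Ideal.mem_span_singleton'.1 hr
      refine ⟨e.symm (Ideal.Quotient.mk p.asIdeal t), ?_⟩
      apply e.injective
      show e (y • _) = e n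
      rw [map_smul, e.apply_symm_apply, ← ha]
      show Ideal.Quotient.mk p.asIdeal (y * t) = _
      rw [Ideal.Quotient.mk_eq_mk_iff_sub_mem, ← hqr]
      have : y * t - (q + t * y) = -q := by ring
      rw [this]
      exact neg_mem hq
    · rintro ⟨z, hz⟩
      obtain ⟨t, ht⟩ := Ideal.Quotient.mk_surjective (e z)
      have h2 : Ideal.Quotient.mk p.asIdeal a = Ideal.Quotient.mk p.asIdeal (y * t) := by
        rw [ha, ← hz]
        show e (y • z) = _
        rw [map_smul, ← ht]
        rfl
      rw [Ideal.Quotient.mk_eq_mk_iff_sub_mem] at h2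
      exact ⟨a - y * t, h2, y * t, Ideal.mul_mem_right _ _ (Ideal.mem_span_singleton_self y),
        by ring⟩
  rw [← hk]
  exact ((LinearMap.quotKerEquivOfSurjective φ hφ).restrictScalars C).length_eq

end Base

section Concl

variable (C : Type) {A : Type} [CommRing C] [CommRing A] [Algebra C A]

/-- the condition on the support -/
def Hyp (S : Finset (PrimeSpectrum A)) (M : Type) [AddCommGroup M] [Module A M] : Prop :=
  ∀ P ∈ Module.support A M, P ∈ S ∨
    ((∀ P' ∈ S, ¬ P.asIdeal ≤ P'.asIdeal) ∧ Module.length C (A ⧸ P.asIdeal) ≠ ⊤)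

/-- the conclusion -/
def Concl (y : A) (S : Finset (PrimeSpectrum A)) (M : Type) [AddCommGroup M] [Module A M]
    [Module C M] [IsScalarTower C A M] : Prop :=
  Module.length C (M ⧸ (Ry y M)) ≠ ⊤ ∧
  Module.length C (Ky y M) ≠ ⊤ ∧
  (∀ P ∈ S, Module.length (Localization.AtPrime P.asIdeal) (LM P M) ≠ ⊤) ∧
  lC C (M ⧸ (Ry y M)) =
    lC C (Ky y M) +
      ∑ P ∈ S, lC (Localization.AtPrime P.asIdeal) (LM P M) *
        lC C (A ⧸ (P.asIdeal ⊔ Ideal.span {y}))

lemma concl_sub (y : A) (S : Finset (PrimeSpectrum A)) (M : Type) [AddCommGroup M] [Module A M]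
    [Module C M] [IsScalarTower C A M] [Subsingleton M] : Concl C y S M := by
  have h1 : Module.length C (M ⧸ (Ry y M)) = 0 := by
    rw [Module.length_eq_zero_iff]
    infer_instance
  have h2 : Module.length C (Ky y M) = 0 := by
    rw [Module.length_eq_zero_iff]
    infer_instance
  have h3 : ∀ P : PrimeSpectrum A,
      Module.length (Localization.AtPrime P.asIdeal) (LM P M) = 0 := by
    intro P
    rw [Module.length_eq_zero_iff, ← Module.notMem_support_iff, Module.notMem_support_iff']
    intro m
    exact ⟨1, fun h => P.2.ne_top ((Ideal.eq_top_iff_one _).2 h), Subsingleton.elim _ _⟩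
  refine ⟨by rw [h1]; exact ENat.zero_ne_top, by rw [h2]; exact ENat.zero_ne_top,
    fun P _ => by rw [h3]; exact ENat.zero_ne_top, ?_⟩
  unfold lC
  rw [h1, h2]
  simp [h3]

lemma concl_one (y : A) (S : Finset (PrimeSpectrum A))
    (hS : ∀ P ∈ S, y ∉ P.asIdeal ∧ Module.length C (A ⧸ (P.asIdeal ⊔ Ideal.span {y})) ≠ ⊤)
    (hinc : ∀ P ∈ S, ∀ P' ∈ S, P.asIdeal ≤ P'.asIdeal → P = P') (M : Type) [AddCommGroup M]
    [Module A M] [Module C M] [IsScalarTower C A M] (p : PrimeSpectrum A) (hp : p ∈ S)
    (e : M ≃ₗ[A] A ⧸ p.asIdeal) : Concl C y S M := by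
  classical
  have h1 := base_coker (C := C) y p e
  have h2 := base_ker (C := C) y p e (hS p hp).1
  have h3 := loc_one p e
  have h4 : ∀ P ∈ S, P ≠ p →
      Module.length (Localization.AtPrime P.asIdeal) (LM P M) = 0 := by
    intro P hP hne
    rw [Module.length_eq_zero_iff]
    exact loc_zero P p e fun h => hne (hinc p hp P hP h).symm
  refine ⟨by rw [h1]; exact (hS p hp).2, by rw [h2]; exact ENat.zero_ne_top, ?_, ?_⟩
  · intro P hP
    by_cases h : P = p
    · rw [h, h3]
      exact ENat.one_ne_top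
    · rw [h4 P hP h]
      exact ENat.zero_ne_top
  · rw [Finset.sum_eq_single_of_mem p hp]
    · unfold lC
      rw [h1, h2, h3]
      simp
    · intro P hP hne
      unfold lC
      rw [h4 P hP hne]
      simp

lemma concl_fin (y : A) (S : Finset (PrimeSpectrum A)) (M : Type) [AddCommGroup M]
    [Module A M] [Module C M] [IsScalarTower C A M] (p : PrimeSpectrum A)
    (hp : ∀ P' ∈ S, ¬ p.asIdeal ≤ P'.asIdeal) (hf : Module.length C (A ⧸ p.asIdeal) ≠ ⊤)
    (e : M ≃ₗ[A] A ⧸ p.asIdeal) : Concl C y S M := by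
  have h0 : Module.length C M ≠ ⊤ := by
    rw [(e.restrictScalars C).length_eq]
    exact hf
  have h4 : ∀ P ∈ S, Module.length (Localization.AtPrime P.asIdeal) (LM P M) = 0 := by
    intro P hP
    rw [Module.length_eq_zero_iff]
    exact loc_zero P p e (hp P hP)
  have e1 : Module.length C M = Module.length C (Ky y M) +
      Module.length C (LinearMap.range ((LinearMap.lsmul A M y).restrictScalars C)) :=
    len_src ((LinearMap.lsmul A M y).restrictScalars C)
  have e2 : Module.length C M =
      Module.length C (LinearMap.range ((LinearMap.lsmul A M y).restrictScalars C)) +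
      Module.length C (M ⧸ Ry y M) :=
    len_tgt ((LinearMap.lsmul A M y).restrictScalars C)
  have h5 : ∑ P ∈ S, lC (Localization.AtPrime P.asIdeal) (LM P M) *
      lC C (A ⧸ (P.asIdeal ⊔ Ideal.span {y})) = 0 := by
    refine Finset.sum_eq_zero fun P hP => ?_
    unfold lC
    rw [h4 P hP]
    simp
  unfold Concl
  rw [h5]
  unfold lC
  refine and_assoc.1 (and_assoc.1 ⟨⟨⟨?_, ?_⟩, fun P hP => by rw [h4 P hP]; exact ENat.zero_ne_top⟩,
    ?_⟩)
  · intro h
    rw [h, add_top] at e2
    exact h0 e2
  · intro h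
    rw [h, top_add] at e1
    exact h0 e1
  · generalize Module.length C (LinearMap.range ((LinearMap.lsmul A M y).restrictScalars C)) =
      r at *
    generalize Module.length C (Ky y M) = k at *
    generalize Module.length C (M ⧸ Ry y M) = c at *
    rw [e1] at h0 e2
    have hk : k ≠ ⊤ := fun h => h0 (by rw [h, top_add])
    have hr : r ≠ ⊤ := fun h => h0 (by rw [h, add_top])
    have hc : c ≠ ⊤ := by
      intro h
      apply h0
      rw [e2, h, add_top]
    lift k to ℕ using hk
    lift r to ℕ using hr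
    lift c to ℕ using hc
    simp only [ENat.toNat_coe]
    rw [← ENat.coe_add, ← ENat.coe_add] at e2
    have := ENat.coe_inj.1 e2
    omega

lemma concl_add (y : A) (S : Finset (PrimeSpectrum A)) {M₁ M₂ M₃ : Type} [AddCommGroup M₁]
    [AddCommGroup M₂] [AddCommGroup M₃] [Module A M₁] [Module A M₂] [Module A M₃] [Module C M₁]
    [Module C M₂] [Module C M₃] [IsScalarTower C A M₁] [IsScalarTower C A M₂]
    [IsScalarTower C A M₃] (f : M₁ →ₗ[A] M₂) (g : M₂ →ₗ[A] M₃) (hf : Function.Injective f)
    (hg : Function.Surjective g) (hfg : Function.Exact f g) (h1 : Concl C y S M₁)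
    (h3 : Concl C y S M₃) : Concl C y S M₂ := by
  obtain ⟨a1, a2, a3, a4⟩ := h1
  obtain ⟨b1, b2, b3, b4⟩ := h3
  obtain ⟨c1, c2, c3⟩ := snake y f g hf hg hfg a2 b2 a1 b1
  have hl := fun P : PrimeSpectrum A => loc_add P f g hf hg hfg
  have hl' : ∀ P ∈ S, lC (Localization.AtPrime P.asIdeal) (LM P M₂) =
      lC (Localization.AtPrime P.asIdeal) (LM P M₁) +
      lC (Localization.AtPrime P.asIdeal) (LM P M₃) := by
    intro P hP
    unfold lC
    rw [hl P, ENat.toNat_add (a3 P hP) (b3 P hP)]
  refine ⟨c1, c2, ?_, ?_⟩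
  · intro P hP
    rw [hl P]
    exact WithTop.add_ne_top.2 ⟨a3 P hP, b3 P hP⟩
  · rw [Finset.sum_congr rfl fun P hP => by rw [hl' P hP, add_mul], Finset.sum_add_distrib]
    omega

end Concl

end DEV

open DEV in
/-- DEV -/
theorem t_DEV : S_DEV := by
  intro C A _ _ _ _ y S hS hinc M _ _ iC iT _ hsup
  have key := IsNoetherianRing.induction_on_isQuotientEquivQuotientPrime A
    (M := M) ‹Module.Finite A M›
    (motive := fun N _ _ _ => ∀ (_ : Module C N) (_ : IsScalarTower C A N),
      Hyp C S N → Concl C y S N)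
    (by
      intro N _ _ _ _ _ _ _
      exact concl_sub C y S N)
    (by
      intro N _ _ _ p e _ _ hN
      have hp : p ∈ Module.support A N := by
        rw [Module.mem_support_iff']
        refine ⟨e.symm 1, fun r hr h => hr ?_⟩
        have h1 : r • (1 : A ⧸ p.asIdeal) = 0 := by
          rw [← e.apply_symm_apply 1, ← map_smul, h, map_zero]
        have h2 : Ideal.Quotient.mk p.asIdeal (r * 1) = 0 := h1
        rw [Ideal.Quotient.eq_zero_iff_mem, mul_one] at h2
        exact h2
      rcases hN p hp with h | ⟨h, h'⟩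
      · exact concl_one C y S hS hinc N p h e
      · exact concl_fin C y S N p h h' e)
    (by
      intro N₁ _ _ _ N₂ _ _ _ N₃ _ _ _ f g hf hg hfg h1 h3 _ _ hN
      let m1 : Module C N₁ := Module.compHom N₁ (algebraMap C A)
      let m3 : Module C N₃ := Module.compHom N₃ (algebraMap C A)
      have t1 : IsScalarTower C A N₁ := IsScalarTower.of_algebraMap_smul fun _ _ => rfl
      have t3 : IsScalarTower C A N₃ := IsScalarTower.of_algebraMap_smul fun _ _ => rfl
      exact concl_add C y S f g hf hg hfg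
        (h1 m1 t1 fun P hP => hN P (Module.support_subset_of_injective f hf hP))
        (h3 m3 t3 fun P hP => hN P (Module.support_subset_of_surjective g hg hP)))
  exact key iC iT hsup

end CUB
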