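import Pool.Agent.CUB.StmtsR

/-!
# Module FIN: finiteness of the integral closure over a perfect field
-/

namespace CUB

open scoped nonZeroDivisors

namespace FIN

/-- a ring homomorphism which becomes finite after an injective homomorphism is finite
(Noetherian source) -/
theorem fin_of_comp {P A S : Type} [CommRing P] [IsNoetherianRing P] [CommRing A] [CommRing S]
    (i : P →+* A) (ψ : A →+* S) (hinj : Function.Injective ψ) (h : (ψ.comp i).Finite) :
    i.Finite := by
  let := i.toAlgebra
  let := (ψ.comp i).toAlgebra
  have hf : Module.Finite P S := h
  let L : A →ₐ[P] S := { ψ with commutes' := fun _ => rfl }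
  have : Module.Finite P A := Module.Finite.of_injective L.toLinearMap hinj
  exact this

/-- the iterated Frobenius of a polynomial ring over a perfect field is finite -/
theorem frob_finite (k σ : Type) [Field k] [PerfectField k] [Finite σ] (p n : ℕ) [ExpChar k p]
    [ExpChar (MvPolynomial σ k) p] :
    (iterateFrobenius (MvPolynomial σ k) p n).Finite := by
  refine RingHom.IsIntegral.to_finite ?_ ?_
  · intro y
    have hp : p ^ n ≠ 0 := (expChar_pow_pos k p n).ne'
    refine ⟨Polynomial.X ^ (p ^ n) - Polynomial.C y, Polynomial.monic_X_pow_sub_C _ hp, ?_⟩
    simp [iterateFrobenius_def]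
  · have h1 : ((iterateFrobenius (MvPolynomial σ k) p n).comp (algebraMap k (MvPolynomial σ k))).FiniteType := by
      have h2 : (iterateFrobenius (MvPolynomial σ k) p n).comp (algebraMap k (MvPolynomial σ k)) =
          (algebraMap k (MvPolynomial σ k)).comp (iterateFrobenius k p n) := by
        ext x
        simp [iterateFrobenius_def]
      rw [h2]
      refine RingHom.FiniteType.comp ?_ (RingHom.FiniteType.of_surjective _ ?_)
      · exact RingHom.finiteType_algebraMap.mpr inferInstance
      · exact (iterateFrobeniusEquiv k p n).surjective
    exact h1.of_comp_finiteType

/-- the integral closure in a finite extension of the fraction field -/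
theorem core (P F K : Type) [CommRing P] [IsDomain P] [IsIntegrallyClosed P] [IsNoetherianRing P]
    [Field F] [Algebra P F] [IsFractionRing P F] [Field K] [Algebra F K] [Algebra P K]
    [IsScalarTower P F K] [FiniteDimensional F K] (p : ℕ) [ExpChar P p] [ExpChar F p]
    (hfin : ∀ n, (iterateFrobenius P p n).Finite) : Module.Finite P (integralClosure P K) := by
  let S := separableClosure F K
  have : FiniteDimensional S K := IntermediateField.finiteDimensional_right S
  have : FiniteDimensional F S := IntermediateField.finiteDimensional_left S
  have : ExpChar S p := expChar_of_injective_algebraMap (algebraMap F S).injective p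
  have : IsScalarTower P S K := IsScalarTower.of_algebraMap_eq fun x => by
    rw [IsScalarTower.algebraMap_apply P F K, IsScalarTower.algebraMap_apply P F S,
      ← IsScalarTower.algebraMap_apply F S K]
  set n := IsPurelyInseparable.exponent S K with hn
  let φ : K →+* S := IsPurelyInseparable.iterateFrobenius S K p (n := n) le_rfl
  have hφ : ∀ a, algebraMap S K (φ a) = a ^ p ^ n := fun a =>
    IsPurelyInseparable.algebraMap_iterateFrobenius S p le_rfl a
  have hPS : Module.Finite P (integralClosure P S) := IsIntegralClosure.finite P F S _
  have hint : ∀ a : integralClosure P K, φ a ∈ integralClosure P S := by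
    intro a
    have h1 : IsIntegral P (algebraMap S K (φ a)) := by
      rw [hφ]
      exact IsIntegral.pow a.2 _
    exact (isIntegral_algebraMap_iff (algebraMap S K).injective).mp h1
  let ψ : integralClosure P K →+* integralClosure P S :=
    RingHom.codRestrict (φ.comp (algebraMap (integralClosure P K) K)) (integralClosure P S).toSubring hint
  have hψ : Function.Injective ψ := by
    intro a b h
    have h1 : φ a = φ b := congrArg Subtype.val h
    exact Subtype.ext (φ.injective h1)
  have hcomm : ψ.comp (algebraMap P (integralClosure P K)) =
      (algebraMap P (integralClosure P S)).comp (iterateFrobenius P p n) := by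
    refine RingHom.ext fun c => Subtype.ext ((algebraMap S K).injective ?_)
    change algebraMap S K (φ (algebraMap P K c)) = algebraMap S K (algebraMap P S (c ^ p ^ n))
    rw [hφ, map_pow, map_pow, ← IsScalarTower.algebraMap_apply P S K]
  have h3 : (algebraMap P (integralClosure P K)).Finite := by
    refine fin_of_comp _ ψ hψ ?_
    rw [hcomm]
    exact (RingHom.finite_algebraMap.mpr hPS).comp (hfin n)
  exact RingHom.finite_algebraMap.mp h3

end FIN

open FIN in
/-- the integral closure of a domain of finite type over a perfect field is finite -/
theorem t_FIN : S_FIN := by
  intro k B K _ _ _ _ _ _ _ _ _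
  obtain ⟨s, g, hg, hgf⟩ := exists_finite_inj_algHom_of_fg k B
  let P := MvPolynomial (Fin s) k
  let : Algebra P B := g.toRingHom.toAlgebra
  let : Algebra P K := ((algebraMap B K).comp (algebraMap P B)).toAlgebra
  have : IsScalarTower P B K := IsScalarTower.of_algebraMap_eq fun _ => rfl
  have : Module.Finite P B := hgf
  have hinjK : Function.Injective (algebraMap P K) :=
    (IsFractionRing.injective B K).comp hg
  have : FaithfulSMul P K := (faithfulSMul_iff_algebraMap_injective P K).mpr hinjK
  have : FaithfulSMul P B := (faithfulSMul_iff_algebraMap_injective P B).mpr hg
  let : Algebra (FractionRing P) K := FractionRing.liftAlgebra P K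
  have : IsScalarTower P (FractionRing P) K := FractionRing.isScalarTower_liftAlgebra P K
  have : Algebra.IsAlgebraic P B := inferInstance
  have : IsLocalization (Algebra.algebraMapSubmonoid B P⁰) K := by
    infer_instance
  have : FiniteDimensional (FractionRing P) K := .of_isLocalization P B P⁰
  obtain ⟨p, hp⟩ := ExpChar.exists k
  have : ExpChar P p := expChar_of_injective_algebraMap (algebraMap k P).injective p
  have : ExpChar (FractionRing P) p :=
    expChar_of_injective_algebraMap (IsFractionRing.injective P (FractionRing P)) p
  have h1 : Module.Finite P (integralClosure P K) :=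
    core P (FractionRing P) K p fun n => frob_finite k (Fin s) p n
  have h2 : ∀ x : integralClosure B K, IsIntegral P (x : K) := fun x =>
    isIntegral_trans (R := P) (A := B) (x : K) x.2
  let L : integralClosure B K →ₗ[P] integralClosure P K :=
    { toFun := fun x => ⟨x.1, h2 x⟩
      map_add' := fun _ _ => rfl
      map_smul' := fun c x => by
        apply Subtype.ext
        rfl }
  have : Module.Finite P (integralClosure B K) := by
    refine Module.Finite.of_injective L ?_
    intro a b h
    have h3 : (L a : K) = L b := by rw [h]
    exact Subtype.ext h3
  exact Module.Finite.of_restrictScalars_finite P B (integralClosure B K)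

end CUB
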