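import Pool.Agent.CUB.StmtsR

/-!
# CUB, module FINL: finiteness of the normalisation, localised
-/

set_option autoImplicit false

namespace CUB

theorem t_FINL : M_FINL := by
  intro hF k B C K _ _ _ _ _ _ _ _ _ _ _ _ _ m _ _
  have h1 : Module.Finite B (integralClosure B K) := hF k B K
  have h2 : (Subalgebra.toSubmodule (integralClosure B K)).FG := Module.Finite.iff_fg.mp h1
  obtain ⟨G, hG⟩ := h2
  have h3 : Submodule.span C (G : Set K) = Subalgebra.toSubmodule (integralClosure C K) := by
    apply le_antisymm
    · rw [Submodule.span_le]
      intro g hg
      have h4 : g ∈ Submodule.span B (G : Set K) := Submodule.subset_span hg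
      rw [hG] at h4
      have h5 : IsIntegral B g := h4
      exact h5.tower_top
    · intro x hx
      have h4 : IsIntegral C x := hx
      obtain ⟨s, hs⟩ := IsIntegral.exists_multiple_integral_of_isLocalization m.primeCompl x h4
      have h5 : (s • x) ∈ Submodule.span B (G : Set K) := by
        rw [hG]
        exact hs
      have h6 : (s • x) ∈ Submodule.span C (G : Set K) :=
        Submodule.span_le_restrictScalars B C (G : Set K) h5
      obtain ⟨u, hu⟩ := IsLocalization.map_units C s
      have h7 : x = (↑u⁻¹ : C) • (s • x) := by
        have h8 : s • x = (u : C) • x := by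
          rw [hu, algebraMap_smul]
          rfl
        rw [h8, smul_smul, Units.inv_mul, one_smul]
      rw [h7]
      exact Submodule.smul_mem _ _ h6
  have h4 : (Subalgebra.toSubmodule (integralClosure C K)).FG := ⟨G, h3⟩
  exact Module.Finite.iff_fg.mpr h4

end CUB
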