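import Pool.Agent.CUB.StmtsR

/-!
# CUB, block R: existence of the tame symbol and its norm
-/

set_option autoImplicit false

open Polynomial

namespace CUB

namespace GTD

/-- The norm of a nonzero element is a quotient of elements of the image. -/
theorem exists_nm {S L : Type} [CommRing S] [Field L] (ρ : S →+* L) (x : L) (hx : x ≠ 0) :
    ∃ b c : S, IsNm ρ x b c := by
  set F := Subfield.closure (Set.range ρ) with hF
  have h1 : Algebra.norm F x ≠ 0 := by
    have h2 : IsUnit (Algebra.norm F x) := (IsUnit.mk0 x hx).map (Algebra.norm F)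
    exact h2.ne_zero
  have h2 : ((Algebra.norm F x : F) : L) ∈ Subfield.closure (Set.range ρ) :=
    (Algebra.norm F x : F).2
  rw [Subfield.mem_closure_iff] at h2
  obtain ⟨y, hy, z, hz, hyz⟩ := h2
  have h3 : Subring.closure (Set.range ρ) = ρ.range := by
    have : (Set.range ρ) = ((ρ.range : Subring L) : Set L) := by
      ext t
      simp
    rw [this, Subring.closure_eq]
  rw [h3] at hy hz
  obtain ⟨b, rfl⟩ := hy
  obtain ⟨c, rfl⟩ := hz
  have h4 : ((Algebra.norm F x : F) : L) ≠ 0 := by
    intro h
    apply h1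
    exact Subtype.ext h
  have h5 : ρ c ≠ 0 := by
    intro h
    apply h4
    rw [← hyz, h, div_zero]
  have h6 : ρ b ≠ 0 := by
    intro h
    apply h4
    rw [← hyz, h, zero_div]
  refine ⟨b, c, h6, h5, ?_⟩
  rw [← hF, ← hyz]
  field_simp

theorem IsUn_zpow {K : Type} [Field K] (O : ValuationSubring K) {α : K} (h : IsUn O α) (i : ℤ) :
    IsUn O (α ^ i) := by
  obtain ⟨h1, h2, h3⟩ := h
  have hn : ∀ (β : K), β ∈ O → ∀ n : ℕ, β ^ n ∈ O := fun β hβ n => pow_mem hβ n
  rcases Int.eq_nat_or_neg i with ⟨n, rfl | rfl⟩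
  · refine ⟨zpow_ne_zero _ h1, ?_, ?_⟩
    · rw [zpow_natCast]
      exact hn α h2 n
    · rw [zpow_natCast, ← inv_pow]
      exact hn _ h3 n
  · refine ⟨zpow_ne_zero _ h1, ?_, ?_⟩
    · rw [zpow_neg, zpow_natCast, ← inv_pow]
      exact hn _ h3 n
    · rw [zpow_neg, inv_inv, zpow_natCast]
      exact hn α h2 n

theorem IsUn_mul {K : Type} [Field K] (O : ValuationSubring K) {α β : K} (h : IsUn O α)
    (h' : IsUn O β) : IsUn O (α * β) := by
  obtain ⟨h1, h2, h3⟩ := h
  obtain ⟨h1', h2', h3'⟩ := h'
  refine ⟨mul_ne_zero h1 h1', mul_mem h2 h2', ?_⟩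
  rw [mul_inv]
  exact mul_mem h3 h3'

/-- Existence of the tame symbol. -/
theorem exists_tame {K : Type} [Field K] (O : ValuationSubring K) (π : K) (hπ : IsUnif O π)
    (H : ∀ x : K, x ≠ 0 → ∃ (i : ℤ) (α : K), IsUn O α ∧ x = α * π ^ i) (a u : K) (ha : a ≠ 0)
    (hu : u ≠ 0) : ∃ w : O, IsTame O a u (w : K) ∧ IsUn O (w : K) := by
  obtain ⟨i, α, hα, hai⟩ := H a ha
  obtain ⟨j, β, hβ, huj⟩ := H u hu
  have hw : a ^ j * u ^ (-i) = α ^ j * β ^ (-i) := by
    rw [hai, huj, mul_zpow, mul_zpow, ← zpow_mul, ← zpow_mul]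
    have h1 : π ^ (i * j) * π ^ (j * -i) = 1 := by
      rw [← zpow_add₀ hπ.2.1]
      have : i * j + j * -i = 0 := by ring
      rw [this, zpow_zero]
    calc α ^ j * π ^ (i * j) * (β ^ (-i) * π ^ (j * -i))
        = α ^ j * β ^ (-i) * (π ^ (i * j) * π ^ (j * -i)) := by ring
      _ = α ^ j * β ^ (-i) := by rw [h1, mul_one]
  have hun : IsUn O (a ^ j * u ^ (-i)) := by
    rw [hw]
    exact IsUn_mul O (IsUn_zpow O hα j) (IsUn_zpow O hβ (-i))
  exact ⟨⟨a ^ j * u ^ (-i), hun.2.1⟩, ⟨π, α, β, i, j, hπ, hα, hβ, hai, huj, rfl⟩, hun⟩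

theorem residue_ne_zero {K : Type} [Field K] (O : ValuationSubring K) (w : O)
    (h : IsUn O (w : K)) : IsLocalRing.residue O w ≠ 0 := by
  have h1 : IsUnit w := by
    refine IsUnit.of_mul_eq_one ⟨(w : K)⁻¹, h.2.2⟩ ?_
    apply Subtype.ext
    exact mul_inv_cancel₀ h.1
  exact (h1.map (IsLocalRing.residue O)).ne_zero

/-- `b` is in the maximal ideal. -/
theorem residue_eq_zero_iff' {K : Type} [Field K] (O : ValuationSubring K) (w : O) :
    IsLocalRing.residue O w = 0 ↔ (w : K) = 0 ∨ (w : K)⁻¹ ∉ O := by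
  constructor
  · intro h
    by_contra hc
    push Not at hc
    exact residue_ne_zero O w ⟨hc.1, w.2, hc.2⟩ h
  · intro h
    by_contra hc
    have h1 : IsUnit w := by
      by_contra h2
      exact hc ((IsLocalRing.residue_eq_zero_iff w).mpr ((IsLocalRing.mem_maximalIdeal w).mpr h2))
    obtain ⟨v, hv⟩ := h1.exists_right_inv
    have h2 : (w : K) * (v : K) = 1 := congrArg Subtype.val hv
    rcases h with h | h
    · rw [h, zero_mul] at h2
      exact zero_ne_one h2
    · apply h
      rw [inv_eq_of_mul_eq_one_right h2]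
      exact v.2

/-- The valuation ring is determined by the prime. -/
theorem isLocO_unique {A K : Type} [CommRing A] [Field K] [Algebra A K] (p : Ideal A)
    (O O' : ValuationSubring K) (h : IsLocO p O) (h' : IsLocO p O') : O = O' := by
  apply ValuationSubring.ext
  intro x
  rw [h x, h' x]

section Core

variable {B K : Type} [CommRing B] [IsDomain B] [Field K] [Algebra B K] [IsFractionRing B K]

/-- The integral closure is contained in every valuation ring containing `B`. -/
theorem int_mem (O : ValuationSubring K) (hO : ∀ b : B, algebraMap B K b ∈ O) (x : K)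
    (hx : IsIntegral B x) : x ∈ O := by
  let f : B →+* O := (algebraMap B K).codRestrict O.toSubring hO
  let _ : Algebra B O := f.toAlgebra
  have : IsScalarTower B O K := IsScalarTower.of_algebraMap_eq (fun _ => rfl)
  have h1 : IsIntegral O x := hx.tower_top
  obtain ⟨y, hy⟩ := IsIntegrallyClosed.algebraMap_eq_of_integral h1
  rw [← hy]
  exact y.2

variable (hfin : Module.Finite B (integralClosure B K)) [IsNoetherianRing B]

include hfin

theorem core (vc1 : S_VC1) (vc2 : S_VC2) (z : Ideal B) (hz : z ≠ ⊥)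
    (ht : ∀ P' : Ideal B, P'.IsPrime → P' < z → P' = ⊥) :
    {O : ValuationSubring K | (∀ b : B, algebraMap B K b ∈ O) ∧
      ∀ b : B, b ∈ z ↔ algebraMap B K b = 0 ∨ (algebraMap B K b)⁻¹ ∉ O}.Finite ∧
    ∀ O : ValuationSubring K, (∀ b : B, algebraMap B K b ∈ O) →
      (∀ b : B, b ∈ z ↔ algebraMap B K b = 0 ∨ (algebraMap B K b)⁻¹ ∉ O) →
      ∀ a u : K, a ≠ 0 → u ≠ 0 → ∃ w : O, IsTame O a u (w : K) ∧ IsUn O (w : K) := by
  have hfr : IsFractionRing (integralClosure B K) K :=
    integralClosure.isFractionRing_of_finite_extension K K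
  have hic : IsIntegrallyClosed (integralClosure B K) :=
    integralClosure.isIntegrallyClosedOfFiniteExtension K
  have hno : IsNoetherianRing (integralClosure B K) := IsNoetherianRing.of_finite B _
  have key : ∀ O : ValuationSubring K, (∀ b : B, algebraMap B K b ∈ O) →
      (∀ b : B, b ∈ z ↔ algebraMap B K b = 0 ∨ (algebraMap B K b)⁻¹ ∉ O) →
      ∃ p : PrimeSpectrum (integralClosure B K),
        p.asIdeal.comap (algebraMap B (integralClosure B K)) = z ∧ p.asIdeal ≠ ⊥ ∧
        (∀ p' : Ideal (integralClosure B K), p'.IsPrime → p' < p.asIdeal → p' = ⊥) ∧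
        IsLocO p.asIdeal O := by
    intro O hO hc
    have hA : ∀ a : integralClosure B K, algebraMap (integralClosure B K) K a ∈ O :=
      fun a => int_mem O hO _ a.2
    let g : integralClosure B K →+* O :=
      (algebraMap (integralClosure B K) K).codRestrict O.toSubring hA
    let p : PrimeSpectrum (integralClosure B K) :=
      ⟨RingHom.ker ((IsLocalRing.residue O).comp g), RingHom.ker_isPrime _⟩
    have hp : ∀ a : integralClosure B K, a ∈ p.asIdeal ↔
        algebraMap (integralClosure B K) K a = 0 ∨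
          (algebraMap (integralClosure B K) K a)⁻¹ ∉ O := by
      intro a
      change (IsLocalRing.residue O) (g a) = 0 ↔ _
      rw [residue_eq_zero_iff']
      rfl
    have hcm : p.asIdeal.comap (algebraMap B (integralClosure B K)) = z := by
      ext b
      rw [Ideal.mem_comap, hp, hc, ← IsScalarTower.algebraMap_apply]
    have hne : p.asIdeal ≠ ⊥ := by
      intro h
      apply hz
      rw [← hcm, h]
      rw [← RingHom.ker_eq_comap_bot]
      exact (RingHom.injective_iff_ker_eq_bot _).mp
        (FaithfulSMul.algebraMap_injective B (integralClosure B K))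
    have hht : ∀ p' : Ideal (integralClosure B K), p'.IsPrime → p' < p.asIdeal → p' = ⊥ := by
      intro p' hp' hlt
      apply Ideal.eq_bot_of_comap_eq_bot (R := B)
      apply ht _ (Ideal.comap_isPrime _ _)
      rw [← hcm]
      obtain ⟨x, hx, hx'⟩ := SetLike.exists_of_lt hlt
      exact Ideal.comap_lt_comap_of_integral_mem_sdiff hlt.le ⟨hx, hx'⟩
        (Algebra.IsIntegral.isIntegral x)
    exact ⟨p, hcm, hne, hht, (vc2 _ K p hne hht O).mp ⟨hA, hp⟩⟩
  constructor
  · have hfib : (z.primesOver (integralClosure B K)).Finite :=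
      Algebra.QuasiFinite.finite_primesOver z
    choose! P hP using key
    refine Set.Finite.of_finite_image (f := fun O => (P O).asIdeal) (hfib.subset ?_) ?_
    · rintro _ ⟨O, ⟨h1, h2⟩, rfl⟩
      refine ⟨(P O).isPrime, ⟨?_⟩⟩
      exact (hP O h1 h2).1.symm
    · rintro O ⟨h1, h2⟩ O' ⟨h1', h2'⟩ h
      have h3 := (hP O h1 h2).2.2.2
      have h4 := (hP O' h1' h2').2.2.2
      simp only at h
      rw [← h] at h4
      exact isLocO_unique _ _ _ h3 h4
  · intro O hO hc a u ha hu
    obtain ⟨p, hcm, hne, hht, hloc⟩ := key O hO hc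
    obtain ⟨O', hloc', ⟨π, hπ⟩, H⟩ := vc1 _ K p hne hht
    have hOO := isLocO_unique _ _ _ hloc hloc'
    subst hOO
    exact exists_tame O _ hπ (H _ hπ).1 a u ha hu

end Core

end GTD

open GTD

theorem t_GTD : M_GTD := by
  intro dim1 fin vc1 vc2 k S K _ _ _ _ _ _ _ n θ q z hfrac hq
  let B := S ⧸ q.1.asIdeal
  have hqp : q.1.asIdeal.IsPrime := q.1.isPrime
  let ι : B →+* K := Ideal.Quotient.lift q.1.asIdeal θ.toRingHom (by
    intro a ha
    rw [hq] at ha
    exact ha)
  have hι : ∀ s : S, ι (Ideal.Quotient.mk _ s) = θ s := fun s => rfl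
  let _ : Algebra B K := ι.toAlgebra
  have hinj : Function.Injective (algebraMap B K) := by
    rw [injective_iff_map_eq_zero]
    intro b hb
    obtain ⟨s, rfl⟩ := Ideal.Quotient.mk_surjective b
    rw [Ideal.Quotient.eq_zero_iff_mem, hq]
    exact hb
  have : IsFractionRing B K :=
    { map_units := by
        intro y
        apply IsUnit.mk0
        intro h
        exact nonZeroDivisors.ne_zero y.2 (hinj (h.trans (map_zero _).symm))
      surj := by
        intro y
        obtain ⟨a, b, hb, hab⟩ := hfrac y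
        refine ⟨⟨Ideal.Quotient.mk _ a, ⟨Ideal.Quotient.mk _ b, ?_⟩⟩, hab⟩
        apply mem_nonZeroDivisors_of_ne_zero
        intro h
        apply hb
        have h1 : algebraMap B K (Ideal.Quotient.mk _ b) = 0 := by rw [h, map_zero]
        exact h1
      exists_of_eq := by
        intro x y h
        exact ⟨1, by rw [hinj h]⟩ }
  have hno : IsNoetherianRing B := by
    have : IsNoetherianRing S := Algebra.FiniteType.isNoetherianRing k S
    infer_instance
  have hfin : Module.Finite B (integralClosure B K) := fin k B K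
  have hqz : ∀ (O : ValuationSubring K) (h : ∀ s, θ s ∈ O),
      z.1.asIdeal = RingHom.ker (rhoO θ O h) → q.1.asIdeal ≤ z.1.asIdeal := by
    intro O h hz s hs
    rw [hz]
    rw [hq] at hs
    have h1 : θ s = 0 := hs
    change IsLocalRing.residue O ⟨θ s, h s⟩ = 0
    rw [residue_eq_zero_iff']
    exact Or.inl h1
  by_cases hle : q.1.asIdeal ≤ z.1.asIdeal
  · -- the image of `z` in `B`
    have hzm : ∀ s : S, Ideal.Quotient.mk q.1.asIdeal s ∈ z.1.asIdeal.map
        (Ideal.Quotient.mk q.1.asIdeal) ↔ s ∈ z.1.asIdeal := by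
      intro s
      constructor
      · intro h
        obtain ⟨s', hs', he⟩ :=
          (Ideal.mem_map_iff_of_surjective _ Ideal.Quotient.mk_surjective).mp h
        rw [Ideal.Quotient.eq] at he
        have h1 := hle he
        have h2 : s = s' - (s' - s) := by ring
        rw [h2]
        exact Ideal.sub_mem _ hs' h1
      · intro h
        exact Ideal.mem_map_of_mem _ h
    have hlt : q.1 < z.1 := by
      refine lt_of_le_of_ne hle ?_
      intro h
      have h1 := q.2
      have h2 := z.2
      rw [h, h2] at h1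
      have h3 : (n + 1 : ℕ) = n + 1 + 1 := by exact_mod_cast h1
      omega
    have hne : z.1.asIdeal.map (Ideal.Quotient.mk q.1.asIdeal) ≠ ⊥ := by
      intro h
      apply hlt.not_ge
      intro s hs
      have h1 := (hzm s).mpr hs
      rw [h, Ideal.mem_bot, Ideal.Quotient.eq_zero_iff_mem] at h1
      exact h1
    have hht : ∀ P' : Ideal B, P'.IsPrime →
        P' < z.1.asIdeal.map (Ideal.Quotient.mk q.1.asIdeal) → P' = ⊥ := by
      intro P' hP' hlt'
      by_contra hbot
      let Q : PrimeSpectrum S := ⟨P'.comap (Ideal.Quotient.mk q.1.asIdeal),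
        Ideal.comap_isPrime _ _⟩
      have h1 : q.1 < Q := by
        refine lt_of_le_of_ne ?_ ?_
        · intro s hs
          change Ideal.Quotient.mk _ s ∈ P'
          rw [Ideal.Quotient.eq_zero_iff_mem.mpr hs]
          exact P'.zero_mem
        · intro h
          apply hbot
          rw [eq_bot_iff]
          intro b hb
          obtain ⟨s, rfl⟩ := Ideal.Quotient.mk_surjective b
          have h2 : s ∈ Q.asIdeal := hb
          rw [← h] at h2
          rw [Ideal.mem_bot, Ideal.Quotient.eq_zero_iff_mem]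
          exact h2
      have h2 : Q < z.1 := by
        refine lt_of_le_of_ne ?_ ?_
        · intro s hs
          exact (hzm s).mp (hlt'.le hs)
        · intro h
          apply hlt'.ne
          apply le_antisymm hlt'.le
          intro b hb
          obtain ⟨s, rfl⟩ := Ideal.Quotient.mk_surjective b
          have h3 := (hzm s).mp hb
          rw [← h] at h3
          exact h3
      obtain ⟨m, hm⟩ := (dim1 k S Q).1
      have h3 := (dim1 k S q.1).2 Q h1
      have h4 := (dim1 k S Q).2 z.1 h2
      rw [q.2, hm] at h3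
      rw [z.2, hm] at h4
      have h5 : m < n + 1 + 1 := by exact_mod_cast h3
      have h6 : n + 1 < m := by exact_mod_cast h4
      omega
    obtain ⟨hF, hT⟩ := core hfin vc1 vc2 _ hne hht
    have conv : ∀ (O : ValuationSubring K) (h : ∀ s, θ s ∈ O),
        z.1.asIdeal = RingHom.ker (rhoO θ O h) → (∀ b : B, algebraMap B K b ∈ O) ∧
        ∀ b : B, b ∈ z.1.asIdeal.map (Ideal.Quotient.mk q.1.asIdeal) ↔
          algebraMap B K b = 0 ∨ (algebraMap B K b)⁻¹ ∉ O := by
      intro O h hz
      constructor
      · intro b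
        obtain ⟨s, rfl⟩ := Ideal.Quotient.mk_surjective b
        exact h s
      · intro b
        obtain ⟨s, rfl⟩ := Ideal.Quotient.mk_surjective b
        rw [hzm, hz]
        exact residue_eq_zero_iff' O ⟨θ s, h s⟩
    constructor
    · refine hF.subset ?_
      rintro O ⟨h, hz⟩
      exact conv O h hz
    · intro O h hz a u ha hu
      obtain ⟨h1, h2⟩ := conv O h hz
      obtain ⟨w, hw, hun⟩ := hT O h1 h2 a u ha hu
      obtain ⟨b, c, hbc⟩ := exists_nm (rhoO θ O h) (IsLocalRing.residue O w)
        (residue_ne_zero O w hun)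
      exact ⟨w, b, c, hw, hbc⟩
  · constructor
    · convert! Set.finite_empty
      rw [Set.eq_empty_iff_forall_notMem]
      rintro O ⟨h, hz⟩
      exact hle (hqz O h hz)
    · intro O h hz
      exact absurd (hqz O h hz) hle

end CUB
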