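import Pool.Agent.CUB.StmtsR

/-!
# CUB, block R, module HHA
-/

set_option autoImplicit false

namespace CUB

namespace HHA

/-- a finite algebra whose primes lie over maximal ideals has finite length -/
theorem fl (C B : Type) [CommRing C] [IsNoetherianRing C] [CommRing B] [Algebra C B]
    [Module.Finite C B]
    (h : ∀ P : Ideal B, P.IsPrime → (P.comap (algebraMap C B)).IsMaximal) :
    Module.length C B ≠ ⊤ := by
  set I : Ideal C := RingHom.ker (algebraMap C B) with hI
  let : Algebra (C ⧸ I) B := (RingHom.kerLift (algebraMap C B)).toAlgebra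
  have : IsScalarTower C (C ⧸ I) B := IsScalarTower.of_algebraMap_eq fun x => rfl
  have hs : Function.Surjective (algebraMap C (C ⧸ I)) := Ideal.Quotient.mk_surjective
  rw [Module.length_eq_of_surjective (R := C ⧸ I) (S := C) (M := B) hs]
  have : Algebra.IsIntegral C B := Algebra.IsIntegral.of_finite C B
  have : Algebra.IsIntegral C (C ⧸ I) :=
    Algebra.isIntegral_of_surjective hs
  have hz : ∀ Q : Ideal (C ⧸ I), Q.IsPrime → Q.IsMaximal := by
    intro Q hQ
    have := hQ
    have h1 : (Q.comap (algebraMap C (C ⧸ I))).IsPrime := Ideal.comap_isPrime _ _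
    obtain ⟨P, -, hP, hPQ⟩ := Ideal.exists_ideal_over_prime_of_isIntegral
      (Q.comap (algebraMap C (C ⧸ I))) (⊥ : Ideal B) (by
        intro c hc
        rw [Ideal.mem_comap, Ideal.mem_bot] at hc
        rw [Ideal.mem_comap]
        have h2 : algebraMap C (C ⧸ I) c = 0 := Ideal.Quotient.eq_zero_iff_mem.2 hc
        rw [h2]
        exact Q.zero_mem)
    have h3 := h P hP
    rw [hPQ] at h3
    exact Ideal.isMaximal_of_isIntegral_of_isMaximal_comap Q h3
  have : Ring.KrullDimLE 0 (C ⧸ I) := Ring.krullDimLE_zero_iff.2 hz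
  have : IsArtinianRing (C ⧸ I) := IsNoetherianRing.isArtinianRing_of_krullDimLE_zero
  have : Module.Finite (C ⧸ I) B := Module.Finite.of_restrictScalars_finite C _ _
  exact Module.length_ne_top

/-- the same for a quotient of a finite algebra -/
theorem flq (C A : Type) [CommRing C] [IsNoetherianRing C] [CommRing A] [Algebra C A]
    [Module.Finite C A] (J : Ideal A)
    (h : ∀ P : Ideal A, P.IsPrime → J ≤ P → P.IsMaximal) :
    Module.length C (A ⧸ J) ≠ ⊤ := by
  have : Module.Finite C (A ⧸ J) :=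
    Module.Finite.of_surjective (Ideal.Quotient.mkₐ C J).toLinearMap
      (Ideal.Quotient.mkₐ_surjective C J)
  have : Algebra.IsIntegral C A := Algebra.IsIntegral.of_finite C A
  refine fl C (A ⧸ J) ?_
  intro P hP
  have h1 : (P.comap (Ideal.Quotient.mk J)).IsPrime := Ideal.comap_isPrime _ _
  have h2 : J ≤ P.comap (Ideal.Quotient.mk J) := by
    intro x hx
    rw [Ideal.mem_comap, Ideal.Quotient.eq_zero_iff_mem.2 hx]
    exact P.zero_mem
  have h3 := h _ h1 h2
  have h4 : P.comap (algebraMap C (A ⧸ J)) =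
      (P.comap (Ideal.Quotient.mk J)).comap (algebraMap C A) := by
    rw [Ideal.comap_comap]
    rfl
  rw [h4]
  exact Ideal.isMaximal_comap_of_isIntegral_of_isMaximal _

/-- the exact sequence for a product of two elements outside a prime ideal -/
theorem add (C A : Type) [CommRing C] [CommRing A] [Algebra C A]
    (p : Ideal A) (hp : p.IsPrime) (x y : A) (hx : x ∉ p)
    (h1 : Module.length C (A ⧸ (p ⊔ Ideal.span {x})) ≠ ⊤)
    (h2 : Module.length C (A ⧸ (p ⊔ Ideal.span {y})) ≠ ⊤) :
    lC C (A ⧸ (p ⊔ Ideal.span {x * y})) =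
      lC C (A ⧸ (p ⊔ Ideal.span {x})) + lC C (A ⧸ (p ⊔ Ideal.span {y})) := by
  have hle : p ⊔ Ideal.span {y} ≤
      Submodule.comap (LinearMap.lsmul A A x) (p ⊔ Ideal.span {x * y}) := by
    refine sup_le ?_ ?_
    · intro a ha
      exact Ideal.mem_sup_left (p.mul_mem_left x ha)
    · rw [Ideal.span_singleton_le_iff_mem]
      exact Ideal.mem_sup_right (Ideal.mem_span_singleton_self _)
  have hle2 : p ⊔ Ideal.span {x * y} ≤ p ⊔ Ideal.span {x} := by
    refine sup_le le_sup_left (le_trans ?_ le_sup_right)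
    rw [Ideal.span_singleton_le_iff_mem, Ideal.mem_span_singleton]
    exact Dvd.intro y rfl
  let f : (A ⧸ (p ⊔ Ideal.span {y})) →ₗ[A] (A ⧸ (p ⊔ Ideal.span {x * y})) :=
    Submodule.mapQ _ _ (LinearMap.lsmul A A x) hle
  let g : (A ⧸ (p ⊔ Ideal.span {x * y})) →ₗ[A] (A ⧸ (p ⊔ Ideal.span {x})) :=
    Submodule.factor hle2
  have hf : Function.Injective f := by
    rw [← LinearMap.ker_eq_bot, LinearMap.ker_eq_bot']
    intro m hm
    obtain ⟨a, rfl⟩ := Submodule.Quotient.mk_surjective _ m
    have h3 : (Submodule.Quotient.mk (x * a) : A ⧸ (p ⊔ Ideal.span {x * y})) = 0 := hm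
    rw [Submodule.Quotient.mk_eq_zero] at h3
    rw [Submodule.Quotient.mk_eq_zero]
    obtain ⟨u, hu, v, hv, huv⟩ := Submodule.mem_sup.1 h3
    obtain ⟨c, rfl⟩ := Ideal.mem_span_singleton'.1 hv
    have h4 : x * (a - c * y) ∈ p := by
      have : x * (a - c * y) = u := by
        linear_combination -huv
      rw [this]
      exact hu
    have h5 := (hp.mem_or_mem h4).resolve_left hx
    have h6 : a = (a - c * y) + c * y := by ring
    rw [h6]
    exact Ideal.add_mem _ (Ideal.mem_sup_left h5)
      (Ideal.mem_sup_right (Ideal.mul_mem_left _ _ (Ideal.mem_span_singleton_self _)))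
  have hg : Function.Surjective g := by
    intro m
    obtain ⟨a, rfl⟩ := Submodule.Quotient.mk_surjective _ m
    exact ⟨Submodule.Quotient.mk a, rfl⟩
  have hfg : Function.Exact f g := by
    intro m
    obtain ⟨a, rfl⟩ := Submodule.Quotient.mk_surjective _ m
    constructor
    · intro hm
      have h3 : (Submodule.Quotient.mk a : A ⧸ (p ⊔ Ideal.span {x})) = 0 := hm
      rw [Submodule.Quotient.mk_eq_zero] at h3
      obtain ⟨u, hu, v, hv, huv⟩ := Submodule.mem_sup.1 h3
      obtain ⟨c, rfl⟩ := Ideal.mem_span_singleton'.1 hv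
      refine ⟨Submodule.Quotient.mk c, ?_⟩
      show (Submodule.Quotient.mk (x * c) : A ⧸ (p ⊔ Ideal.span {x * y})) = _
      rw [Submodule.Quotient.eq]
      have h4 : x * c - a = -u := by linear_combination huv
      rw [h4]
      exact Ideal.mem_sup_left (p.neg_mem hu)
    · rintro ⟨n, hn⟩
      obtain ⟨c, rfl⟩ := Submodule.Quotient.mk_surjective _ n
      rw [← hn]
      show (Submodule.Quotient.mk (x * c) : A ⧸ (p ⊔ Ideal.span {x})) = 0
      rw [Submodule.Quotient.mk_eq_zero]
      exact Ideal.mem_sup_right (Ideal.mul_mem_right _ _ (Ideal.mem_span_singleton_self _))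
  have h := Module.length_eq_add_of_exact (f.restrictScalars C) (g.restrictScalars C) hf hg hfg
  unfold lC
  rw [h, ENat.toNat_add h2 h1, add_comm]

end HHA

theorem t_HHA : S_HHA := by
  intro C A K _ _ _ _ _ _ _ _ _ _ _ hS
  have hfin := hS.fin
  have hfrC := hS.frC
  have hfrA := hS.frA
  have hinj : Function.Injective (algebraMap C A) := by
    have h1 : Function.Injective (algebraMap C K) := IsFractionRing.injective C K
    rw [IsScalarTower.algebraMap_eq C A K] at h1
    exact Function.Injective.of_comp (f := algebraMap A K) h1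
  have hint : Algebra.IsIntegral C A := Algebra.IsIntegral.of_finite C A
  have hnA : IsNoetherian C A := isNoetherian_of_isNoetherianRing_of_finite C A
  have hn : IsNoetherianRing A := isNoetherian_of_tower C hnA
  have hfs : FaithfulSMul C A := (faithfulSMul_iff_algebraMap_injective C A).2 hinj
  -- (7)
  have h7 : ∀ z ∈ HH C, ∀ p' : Ideal C, p'.IsPrime → p' < z.asIdeal → p' = ⊥ := by
    intro z hz p' hp' hlt
    by_contra hne
    have := hS.dim p' z.asIdeal hp' z.2 hne hlt
    apply hz.2
    rw [this]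
    infer_instance
  -- (2)
  have h2 : ∀ p ∈ HH A, PrimeSpectrum.comap (algebraMap C A) p ∈ HH C := by
    intro p hp
    refine ⟨?_, ?_⟩
    · intro h
      exact hp.1 (Ideal.eq_bot_of_comap_eq_bot h)
    · intro h
      exact hp.2 (Ideal.isMaximal_of_isIntegral_of_isMaximal_comap p.asIdeal h)
  -- (3)
  have h3 : ∀ p ∈ HH A, ∀ p' : Ideal A, p'.IsPrime → p' < p.asIdeal → p' = ⊥ := by
    intro p hp p' hp' hlt
    have hl : p'.comap (algebraMap C A) < p.asIdeal.comap (algebraMap C A) :=
      Ideal.IsIntegral.comap_lt_comap hlt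
    have := h7 _ (h2 p hp) (p'.comap (algebraMap C A)) (Ideal.comap_isPrime _ _) hl
    exact Ideal.eq_bot_of_comap_eq_bot this
  -- a prime ideal strictly above a prime in HH is maximal
  have h3' : ∀ p ∈ HH A, ∀ P : Ideal A, P.IsPrime → p.asIdeal < P → P.IsMaximal := by
    intro p hp P hP hlt
    by_contra hne
    have hP' : (⟨P, hP⟩ : PrimeSpectrum A) ∈ HH A := by
      refine ⟨?_, hne⟩
      intro h
      have h' : P = ⊥ := h
      rw [h'] at hlt
      exact absurd hlt (not_lt_bot)
    exact hp.1 (h3 _ hP' p.asIdeal p.2 hlt)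
  -- (5)
  have h5 : ∀ p ∈ HH A, ∀ x, x ∉ p.asIdeal →
      Module.length C (A ⧸ (p.asIdeal ⊔ Ideal.span {x})) ≠ ⊤ := by
    intro p hp x hx
    refine HHA.flq C A _ ?_
    intro P hP hle
    refine h3' p hp P hP (lt_of_le_of_ne (le_trans le_sup_left hle) ?_)
    intro h
    apply hx
    rw [h]
    exact hle (Ideal.mem_sup_right (Ideal.mem_span_singleton_self _))
  refine ⟨hn, h2, h3, ?_, h5, ?_, h7, ?_, ?_⟩
  · -- (4)
    intro x hx
    have hf : ((Ideal.span {x}).minimalPrimes).Finite :=
      Ideal.finite_minimalPrimes_of_isNoetherianRing A _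
    refine Set.Finite.of_finite_image (f := PrimeSpectrum.asIdeal) (hf.subset ?_) ?_
    · rintro _ ⟨p, ⟨hp, hxp⟩, rfl⟩
      refine ⟨⟨p.2, (Ideal.span_singleton_le_iff_mem _).2 hxp⟩, ?_⟩
      rintro q ⟨hq, hxq⟩ hle
      by_contra hnle
      have hlt : q < p.asIdeal := lt_of_le_not_ge hle hnle
      have := h3 p hp q hq hlt
      rw [this] at hxq
      have h0 : x ∈ (⊥ : Ideal A) := hxq (Ideal.mem_span_singleton_self _)
      exact hx (by simpa using h0)
    · intro p _ q _ h
      exact PrimeSpectrum.ext h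
  · -- (6)
    intro p hp x y hx hy
    exact HHA.add C A p.asIdeal p.2 x y hx (h5 p hp x hx) (h5 p hp y hy)
  · -- (8)
    intro z hz x hx
    refine HHA.flq C C _ ?_
    intro P hP hle
    have hlt : z.asIdeal < P := by
      refine lt_of_le_of_ne (le_trans le_sup_left hle) ?_
      intro h
      apply hx
      rw [h]
      exact hle (Ideal.mem_sup_right (Ideal.mem_span_singleton_self _))
    rw [hS.dim z.asIdeal P z.2 hP hz.1 hlt]
    infer_instance
  · -- (9)
    intro x y hx hy h
    refine HHA.flq C A _ ?_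
    intro P hP hle
    by_contra hne
    have hxP : x ∈ P := hle (Ideal.mem_sup_left (Ideal.mem_span_singleton_self _))
    have hyP : y ∈ P := hle (Ideal.mem_sup_right (Ideal.mem_span_singleton_self _))
    refine h ⟨P, hP⟩ ⟨?_, hne⟩ hxP hyP
    intro hb
    have hb' : P = ⊥ := hb
    rw [hb'] at hxP
    exact hx (by simpa using hxP)

end CUB
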