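import Pool.Agent.CUB.StmtsR

/-!
# Module KOS: the kernels of multiplication on `A / x` and on `A / y`
-/

set_option autoImplicit false

namespace CUB

namespace KOS

variable {A : Type} [CommRing A]

/-- the pairs `(a, b)` with `y a = x b` -/
def N (x y : A) : Submodule A (A × A) where
  carrier := {p | y * p.1 = x * p.2}
  add_mem' := by
    intro p q hp hq
    simp only [Set.mem_ofPred_eq, Prod.fst_add, Prod.snd_add] at hp hq ⊢
    rw [mul_add, mul_add, hp, hq]
  zero_mem' := by simp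
  smul_mem' := by
    intro c p hp
    simp only [Set.mem_ofPred_eq, Prod.smul_fst, Prod.smul_snd, smul_eq_mul] at hp ⊢
    rw [mul_left_comm, hp, mul_left_comm]

theorem mem_N {x y : A} {p : A × A} : p ∈ N x y ↔ y * p.1 = x * p.2 := Iff.rfl

theorem mk_mem {x y a b : A} (h : y * a = x * b) :
    Algebra.linearMap A (A ⧸ Ideal.span {x}) a ∈
      LinearMap.ker (LinearMap.lsmul A (A ⧸ Ideal.span {x}) y) := by
  rw [LinearMap.mem_ker, LinearMap.lsmul_apply, ← map_smul, smul_eq_mul, h,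
    Algebra.linearMap_apply, Ideal.Quotient.algebraMap_eq, Ideal.Quotient.eq_zero_iff_mem]
  exact Ideal.mul_mem_right _ _ (Ideal.mem_span_singleton_self x)

theorem mk_eq_zero {x a : A} :
    Algebra.linearMap A (A ⧸ Ideal.span {x}) a = 0 ↔ ∃ c, a = x * c := by
  rw [Algebra.linearMap_apply, Ideal.Quotient.algebraMap_eq, Ideal.Quotient.eq_zero_iff_mem,
    Ideal.mem_span_singleton]
  rfl

/-- the first projection -/
def f (x y : A) : N x y →ₗ[A] LinearMap.ker (LinearMap.lsmul A (A ⧸ Ideal.span {x}) y) :=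
  LinearMap.codRestrict _ ((Algebra.linearMap A (A ⧸ Ideal.span {x})).comp
    ((LinearMap.fst A A A).comp (N x y).subtype)) fun p => mk_mem (mem_N.1 p.2)

/-- the second projection -/
def g (x y : A) : N x y →ₗ[A] LinearMap.ker (LinearMap.lsmul A (A ⧸ Ideal.span {y}) x) :=
  LinearMap.codRestrict _ ((Algebra.linearMap A (A ⧸ Ideal.span {y})).comp
    ((LinearMap.snd A A A).comp (N x y).subtype)) fun p => mk_mem (mem_N.1 p.2).symm

theorem exists_rep {x y : A} (z : LinearMap.ker (LinearMap.lsmul A (A ⧸ Ideal.span {x}) y)) :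
    ∃ a b : A, y * a = x * b ∧ Algebra.linearMap A (A ⧸ Ideal.span {x}) a = z.1 := by
  obtain ⟨z, hz⟩ := z
  obtain ⟨a, rfl⟩ := Ideal.Quotient.mk_surjective z
  rw [LinearMap.mem_ker, LinearMap.lsmul_apply] at hz
  have h1 : Algebra.linearMap A (A ⧸ Ideal.span {x}) (y * a) = 0 := by
    rw [← smul_eq_mul, map_smul]
    exact hz
  obtain ⟨b, hb⟩ := mk_eq_zero.1 h1
  exact ⟨a, b, hb, rfl⟩

theorem f_surj (x y : A) : Function.Surjective (f x y) := by
  intro z
  obtain ⟨a, b, hab, ha⟩ := exists_rep z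
  exact ⟨⟨(a, b), hab⟩, Subtype.ext ha⟩

theorem g_surj (x y : A) : Function.Surjective (g x y) := by
  intro z
  obtain ⟨b, a, hab, hb⟩ := exists_rep z
  exact ⟨⟨(a, b), hab.symm⟩, Subtype.ext hb⟩

theorem ker_eq [IsDomain A] {x y : A} (hx : x ≠ 0) (hy : y ≠ 0) :
    LinearMap.ker (f x y) = LinearMap.ker (g x y) := by
  ext ⟨⟨a, b⟩, hab⟩
  have hab' : y * a = x * b := hab
  have h1 : (⟨(a, b), hab⟩ : N x y) ∈ LinearMap.ker (f x y) ↔ ∃ c, a = x * c := by
    rw [LinearMap.mem_ker, ← mk_eq_zero, ← Subtype.coe_inj]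
    rfl
  have h2 : (⟨(a, b), hab⟩ : N x y) ∈ LinearMap.ker (g x y) ↔ ∃ c, b = y * c := by
    rw [LinearMap.mem_ker, ← mk_eq_zero, ← Subtype.coe_inj]
    rfl
  rw [h1, h2]
  constructor
  · rintro ⟨c, rfl⟩
    refine ⟨c, mul_left_cancel₀ hx ?_⟩
    rw [← hab']
    ring
  · rintro ⟨c, rfl⟩
    refine ⟨c, mul_left_cancel₀ hy ?_⟩
    rw [hab']
    ring

end KOS

theorem t_KOS : S_KOS := by
  intro C A _ _ _ _ x y hx hy
  let e : LinearMap.ker (LinearMap.lsmul A (A ⧸ Ideal.span {x}) y) ≃ₗ[A]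
      LinearMap.ker (LinearMap.lsmul A (A ⧸ Ideal.span {y}) x) :=
    ((KOS.f x y).quotKerEquivOfSurjective (KOS.f_surj x y)).symm.trans
      ((Submodule.quotEquivOfEq _ _ (KOS.ker_eq hx hy)).trans
        ((KOS.g x y).quotKerEquivOfSurjective (KOS.g_surj x y)))
  exact (e.restrictScalars C).length_eq

end CUB
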