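import Pool.Agent.CUB.StmtsR

set_option autoImplicit false

namespace CUB

namespace NM

/-- The length of `(A / p) / x` over a quotient ring of `C`. -/
lemma length_quot {C A B : Type} [CommRing C] [CommRing A] [Algebra C A] [CommRing B]
    [Algebra C B] (p : Ideal A) [Algebra B (A ⧸ p)] [IsScalarTower C B (A ⧸ p)]
    (hs : Function.Surjective (algebraMap C B)) (x : A) :
    Module.length B ((A ⧸ p) ⧸ Ideal.span {Ideal.Quotient.mk p x}) =
      Module.length C (A ⧸ (p ⊔ Ideal.span {x})) := by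
  rw [← Module.length_eq_of_surjective (S := C) hs]
  have h : Ideal.span {Ideal.Quotient.mk p x} =
      (Ideal.span {x}).map (Ideal.Quotient.mkₐ C p) := by
    rw [Ideal.map_span, Set.image_singleton]
    rfl
  rw [h]
  exact LinearEquiv.length_eq (DoubleQuot.quotQuotEquivQuotSupₐ C p (Ideal.span {x})).toLinearEquiv

lemma core (hN : S_NORM) {C A L : Type} [CommRing C] [IsNoetherianRing C] [CommRing A]
    [Field L] [Algebra C A] [Module.Finite C A] (p : Ideal A) [hp : p.IsPrime] (ρ : C →+* L)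
    (σ : A →+* L) (hσρ : ∀ c, σ (algebraMap C A c) = ρ c) (hker : ∀ a, σ a = 0 ↔ a ∈ p)
    (hfrac : ∀ y : L, ∃ a b : A, σ b ≠ 0 ∧ y * σ b = σ a)
    (hlen : ∀ x : C, x ∉ p.comap (algebraMap C A) →
      Module.length C (C ⧸ (p.comap (algebraMap C A) ⊔ Ideal.span {x})) ≠ ⊤)
    (x : A) (b c : C) (hx : x ∉ p) (hnm : IsNm ρ (σ x) b c) :
    Module.length C (A ⧸ (p ⊔ Ideal.span {x})) +
        Module.length C (C ⧸ (p.comap (algebraMap C A) ⊔ Ideal.span {c})) =
      Module.length C (C ⧸ (p.comap (algebraMap C A) ⊔ Ideal.span {b})) := by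
  classical
  set P : Ideal C := p.comap (algebraMap C A) with hPdef
  have hPp : P.IsPrime := Ideal.comap_isPrime _ _
  let F : Subfield L := Subfield.closure (Set.range ρ)
  have hkerρ : ∀ c, ρ c = 0 ↔ c ∈ P := by
    intro c
    rw [← hσρ, hker]
    rfl
  -- the homomorphisms
  let ρF : C →+* F := ρ.codRestrict F (fun c => Subfield.subset_closure ⟨c, rfl⟩)
  have hρF : ∀ c, ((ρF c : F) : L) = ρ c := fun c => rfl
  let ρB : C ⧸ P →+* F := Ideal.Quotient.lift P ρF (fun a ha => by
    apply Subtype.ext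
    exact (hkerρ a).mpr ha)
  let σB : A ⧸ p →+* L := Ideal.Quotient.lift p σ (fun a ha => (hker a).mpr ha)
  let algBF : Algebra (C ⧸ P) F := ρB.toAlgebra
  let algB1L : Algebra (A ⧸ p) L := σB.toAlgebra
  let algBL : Algebra (C ⧸ P) L := ((algebraMap F L).comp ρB).toAlgebra
  have hmapF : ∀ c : C, algebraMap (C ⧸ P) F (Ideal.Quotient.mk P c) = ρF c := fun c => rfl
  have hmapL : ∀ a : A, algebraMap (A ⧸ p) L (Ideal.Quotient.mk p a) = σ a := fun a => rfl
  have hmap1 : ∀ c : C, algebraMap (C ⧸ P) (A ⧸ p) (Ideal.Quotient.mk P c) =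
      Ideal.Quotient.mk p (algebraMap C A c) := fun c => rfl
  have st1 : IsScalarTower (C ⧸ P) F L := IsScalarTower.of_algebraMap_eq (fun c => rfl)
  have st2 : IsScalarTower (C ⧸ P) (A ⧸ p) L := IsScalarTower.of_algebraMap_eq (by
    intro c
    obtain ⟨c, rfl⟩ := Ideal.Quotient.mk_surjective c
    rw [hmap1, hmapL, hσρ]
    rfl)
  have : IsDomain (C ⧸ P) := Ideal.Quotient.isDomain P
  have : IsDomain (A ⧸ p) := Ideal.Quotient.isDomain p
  have injF : Function.Injective (algebraMap (C ⧸ P) F) := by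
    rw [injective_iff_map_eq_zero]
    intro c hc
    obtain ⟨c, rfl⟩ := Ideal.Quotient.mk_surjective c
    rw [hmapF] at hc
    rw [Ideal.Quotient.eq_zero_iff_mem, ← hkerρ, ← hρF, hc]
    rfl
  have injL : Function.Injective (algebraMap (A ⧸ p) L) := by
    rw [injective_iff_map_eq_zero]
    intro c hc
    obtain ⟨c, rfl⟩ := Ideal.Quotient.mk_surjective c
    rw [hmapL] at hc
    rw [Ideal.Quotient.eq_zero_iff_mem, ← hker, hc]
  have frF : IsFractionRing (C ⧸ P) F := by
    have : FaithfulSMul (C ⧸ P) F := (faithfulSMul_iff_algebraMap_injective _ _).mpr injF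
    refine IsFractionRing.of_field _ _ ?_
    intro z
    obtain ⟨y, hy, w, hw, hyw⟩ := Subfield.mem_closure_iff.mp z.2
    have hcl : Subring.closure (Set.range ρ) = ρ.range := by
      rw [← RingHom.coe_range, Subring.closure_eq]
    rw [hcl] at hy hw
    obtain ⟨y, rfl⟩ := hy
    obtain ⟨w, rfl⟩ := hw
    refine ⟨Ideal.Quotient.mk P y, Ideal.Quotient.mk P w, ?_⟩
    apply Subtype.ext
    rw [hmapF, hmapF]
    exact hyw.symm
  have frL : IsFractionRing (A ⧸ p) L := by
    have : FaithfulSMul (A ⧸ p) L := (faithfulSMul_iff_algebraMap_injective _ _).mpr injL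
    refine IsFractionRing.of_field _ _ ?_
    intro z
    obtain ⟨a, b, hb, hab⟩ := hfrac z
    refine ⟨Ideal.Quotient.mk p a, Ideal.Quotient.mk p b, ?_⟩
    rw [hmapL, hmapL, ← hab]
    field_simp
  have finB : Module.Finite (C ⧸ P) (A ⧸ p) := by
    have : Module.Finite C (A ⧸ p) := Module.Finite.of_surjective
      (Ideal.Quotient.mkₐ C p).toLinearMap Ideal.Quotient.mk_surjective
    have : IsScalarTower C (C ⧸ P) (A ⧸ p) := IsScalarTower.of_algebraMap_eq (fun c => rfl)
    exact Module.Finite.of_restrictScalars_finite C (C ⧸ P) (A ⧸ p)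
  have finL : Module.Finite F L := by
    have : FaithfulSMul (C ⧸ P) (A ⧸ p) :=
      (faithfulSMul_iff_algebraMap_injective _ _).mpr Ideal.algebraMap_quotient_injective
    have : Algebra.IsIntegral (C ⧸ P) (A ⧸ p) := Algebra.IsIntegral.of_finite _ _
    exact Module.Finite.of_isLocalization (C ⧸ P) (A ⧸ p) (nonZeroDivisors (C ⧸ P))
  obtain ⟨hb, hc, hn⟩ := hnm
  have stC : IsScalarTower C (C ⧸ P) (A ⧸ p) := IsScalarTower.of_algebraMap_eq (fun c => rfl)
  have stC2 : IsScalarTower C (C ⧸ P) (C ⧸ P) := IsScalarTower.of_algebraMap_eq (fun c => rfl)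
  have hs : Function.Surjective (algebraMap C (C ⧸ P)) := Ideal.Quotient.mk_surjective
  have key := hN (C ⧸ P) (A ⧸ p) F L (by
    intro y hy
    obtain ⟨y, rfl⟩ := Ideal.Quotient.mk_surjective y
    rw [length_quot (C := C) (B := C ⧸ P) P hs y]
    apply hlen
    intro h
    exact hy (Ideal.Quotient.eq_zero_iff_mem.mpr h))
    (Ideal.Quotient.mk p x) (Ideal.Quotient.mk P b) (Ideal.Quotient.mk P c)
    (fun h => hx (Ideal.Quotient.eq_zero_iff_mem.mp h))
    (fun h => hb ((hkerρ b).mpr (Ideal.Quotient.eq_zero_iff_mem.mp h)))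
    (fun h => hc ((hkerρ c).mpr (Ideal.Quotient.eq_zero_iff_mem.mp h)))
    (by
      apply Subtype.ext
      rw [hmapL, hmapF, hmapF]
      exact hn)
  rw [length_quot (C := C) (B := C ⧸ P) p hs x, length_quot (C := C) (B := C ⧸ P) P hs c,
    length_quot (C := C) (B := C ⧸ P) P hs b] at key
  exact key

end NM

theorem t_NM : M_NM := by
  intro hH hV hN C A K _ _ _ _ _ _ _ _ _ _ _ hS p hp O hO ρ hρ x w b c hx hw hnm
  obtain ⟨hnoeth, h2, h3, h4, h5, h6, h7, h8, h9⟩ := hH C A K hS
  have := hS.fin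
  have := hS.frA
  have := hS.ic
  have := hnoeth
  have hV1 := ((hV A K p hp.1 (h3 p hp) O).mpr hO)
  obtain ⟨hAO, hmem⟩ := hV1
  let σ : A →+* IsLocalRing.ResidueField O :=
    (IsLocalRing.residue O).comp ((algebraMap A K).codRestrict O.toSubring hAO)
  have hσ : ∀ a, σ a = IsLocalRing.residue O ⟨algebraMap A K a, hAO a⟩ := fun a => rfl
  have hinj : Function.Injective (algebraMap A K) := IsFractionRing.injective A K
  have hker : ∀ a, σ a = 0 ↔ a ∈ p.asIdeal := by
    intro a
    rw [hσ, IsLocalRing.residue_eq_zero_iff, IsLocalRing.mem_maximalIdeal, mem_nonunits_iff, hmem]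
    by_cases ha : algebraMap A K a = 0
    · exact ⟨fun _ => Or.inl ha, fun _ hu => hu.ne_zero (Subtype.ext ha)⟩
    · rw [or_iff_right ha, not_iff_not]
      constructor
      · rintro ⟨u, hu⟩
        have h1 : ((u : O) : K) * (((u⁻¹ : (O : Type)ˣ) : O) : K) = 1 :=
          congrArg Subtype.val u.mul_inv
        have h2 : ((u : O) : K) = algebraMap A K a := congrArg Subtype.val hu
        rw [h2] at h1
        have h3 : (algebraMap A K a)⁻¹ = (((u⁻¹ : (O : Type)ˣ) : O) : K) :=
          inv_eq_of_mul_eq_one_left (by rw [mul_comm]; exact h1)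
        rw [h3]
        exact SetLike.coe_mem _
      · intro h
        refine IsUnit.of_mul_eq_one (⟨(algebraMap A K a)⁻¹, h⟩ : O) ?_
        apply Subtype.ext
        exact mul_inv_cancel₀ ha
  have hσρ : ∀ c, σ (algebraMap C A c) = ρ c := by
    intro c
    have h1 : algebraMap C K c ∈ O := by
      rw [IsScalarTower.algebraMap_apply C A K]
      exact hAO _
    rw [hρ c h1, hσ]
    congr 1
    apply Subtype.ext
    exact (IsScalarTower.algebraMap_apply C A K c).symm
  have hfrac : ∀ y : IsLocalRing.ResidueField O, ∃ a b : A, σ b ≠ 0 ∧ y * σ b = σ a := by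
    intro y
    obtain ⟨y, rfl⟩ := IsLocalRing.residue_surjective y
    obtain ⟨a, b, hb, hab⟩ := (hO (y : K)).mp y.2
    refine ⟨a, b, fun h => hb ((hker b).mp h), ?_⟩
    rw [hσ, hσ, ← map_mul]
    congr 1
    apply Subtype.ext
    exact hab
  have hxw : IsLocalRing.residue O w = σ x := by
    rw [hσ]
    congr 1
    apply Subtype.ext
    exact hw
  rw [hxw] at hnm
  have : p.asIdeal.IsPrime := p.isPrime
  have hz : PrimeSpectrum.comap (algebraMap C A) p ∈ HH C := h2 p hp
  have key := NM.core hN p.asIdeal ρ σ hσρ hker hfrac (fun y hy => h8 _ hz y hy) x b c hx hnm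
  have f1 := h5 p hp x hx
  have f2 := h8 _ hz c (fun h => hnm.2.1 (by rw [← hσρ, hker]; exact h))
  have f3 : lC C (C ⧸ (p.asIdeal.comap (algebraMap C A) ⊔ Ideal.span {b})) =
      (Module.length C (A ⧸ (p.asIdeal ⊔ Ideal.span {x})) +
        Module.length C (C ⧸ (p.asIdeal.comap (algebraMap C A) ⊔ Ideal.span {c}))).toNat := by
    rw [key]
    rfl
  rw [f3]
  exact (ENat.toNat_add f1 f2).symm

end CUB
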