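import Pool.Agent.CUB.StmtsR

/-!
# NORM: the length of `B₁ / x` is the order of the norm of `x`
-/

set_option autoImplicit false

open Polynomial

namespace CUB

namespace NORM

section Len

variable {B : Type} [CommRing B]

lemma len_comp {P Q R : Type} [AddCommGroup P] [AddCommGroup Q] [AddCommGroup R] [Module B P]
    [Module B Q] [Module B R] (f : P →ₗ[B] Q) (g : R →ₗ[B] P) (hf : Function.Injective f) :
    Module.length B (Q ⧸ LinearMap.range (f ∘ₗ g)) =
      Module.length B (P ⧸ LinearMap.range g) + Module.length B (Q ⧸ LinearMap.range f) := by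
  have h1 : LinearMap.range g ≤ (LinearMap.range (f ∘ₗ g)).comap f := by
    rintro _ ⟨r, rfl⟩
    exact ⟨r, rfl⟩
  have h2 : LinearMap.range (f ∘ₗ g) ≤ LinearMap.range f := by
    rintro _ ⟨r, rfl⟩
    exact ⟨g r, rfl⟩
  refine Module.length_eq_add_of_exact (Submodule.mapQ _ _ f h1) (Submodule.factor h2) ?_
    (Submodule.factor_surjective h2) ?_
  · rw [← LinearMap.ker_eq_bot, LinearMap.ker_eq_bot']
    intro m
    obtain ⟨p, rfl⟩ := Submodule.mkQ_surjective _ m
    intro h
    rw [Submodule.mkQ_apply, Submodule.mapQ_apply, Submodule.Quotient.mk_eq_zero] at h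
    obtain ⟨r, hr⟩ := h
    rw [Submodule.mkQ_apply, Submodule.Quotient.mk_eq_zero]
    exact ⟨r, hf hr⟩
  · intro m
    obtain ⟨q, rfl⟩ := Submodule.mkQ_surjective _ m
    constructor
    · intro h
      rw [Submodule.factor_mk, Submodule.mkQ_apply] at h
      have h3 := (Submodule.Quotient.mk_eq_zero _).1 h
      obtain ⟨p, hp⟩ := h3
      exact ⟨Submodule.Quotient.mk p, by rw [Submodule.mapQ_apply, hp, Submodule.mkQ_apply]⟩
    · rintro ⟨n, hn⟩
      obtain ⟨p, rfl⟩ := Submodule.mkQ_surjective _ n
      rw [Submodule.mkQ_apply, Submodule.mapQ_apply] at hn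
      rw [← hn]
      exact (Submodule.Quotient.mk_eq_zero _).2 ⟨p, rfl⟩

/-- the length of the cokernel of an endomorphism of an extension -/
lemma len_ext {P Q R : Type} [AddCommGroup P] [AddCommGroup Q] [AddCommGroup R] [Module B P]
    [Module B Q] [Module B R] (i : P →ₗ[B] Q) (p : Q →ₗ[B] R) (a : P →ₗ[B] P) (b : Q →ₗ[B] Q)
    (c : R →ₗ[B] R) (hi : Function.Injective i) (hp : Function.Surjective p)
    (he : Function.Exact i p) (h1 : i ∘ₗ a = b ∘ₗ i) (h2 : p ∘ₗ b = c ∘ₗ p)
    (hc : Function.Injective c) :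
    Module.length B (Q ⧸ LinearMap.range b) =
      Module.length B (P ⧸ LinearMap.range a) + Module.length B (R ⧸ LinearMap.range c) := by
  have h1' : ∀ x, i (a x) = b (i x) := fun x => LinearMap.congr_fun h1 x
  have h2' : ∀ x, p (b x) = c (p x) := fun x => LinearMap.congr_fun h2 x
  have k1 : LinearMap.range a ≤ (LinearMap.range b).comap i := by
    rintro _ ⟨r, rfl⟩
    exact ⟨i r, (h1' r).symm⟩
  have k2 : LinearMap.range b ≤ (LinearMap.range c).comap p := by
    rintro _ ⟨r, rfl⟩
    exact ⟨p r, (h2' r).symm⟩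
  refine Module.length_eq_add_of_exact (Submodule.mapQ _ _ i k1) (Submodule.mapQ _ _ p k2) ?_ ?_ ?_
  · rw [← LinearMap.ker_eq_bot, LinearMap.ker_eq_bot']
    intro m
    obtain ⟨x, rfl⟩ := Submodule.mkQ_surjective _ m
    intro h
    rw [Submodule.mkQ_apply, Submodule.mapQ_apply, Submodule.Quotient.mk_eq_zero] at h
    obtain ⟨y, hy⟩ := h
    have h3 : c (p y) = 0 := by
      rw [← h2', hy]
      exact (he (i x)).2 ⟨x, rfl⟩
    have h4 : p y = 0 := hc (by rw [h3, map_zero])
    obtain ⟨z, hz⟩ := (he y).1 h4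
    rw [Submodule.mkQ_apply, Submodule.Quotient.mk_eq_zero]
    refine ⟨z, hi ?_⟩
    rw [h1', hz, hy]
  · intro m
    obtain ⟨r, rfl⟩ := Submodule.mkQ_surjective _ m
    obtain ⟨q, rfl⟩ := hp r
    exact ⟨Submodule.Quotient.mk q, rfl⟩
  · intro m
    obtain ⟨q, rfl⟩ := Submodule.mkQ_surjective _ m
    constructor
    · intro h
      rw [Submodule.mkQ_apply, Submodule.mapQ_apply, Submodule.Quotient.mk_eq_zero] at h
      obtain ⟨r, hr⟩ := h
      obtain ⟨q', rfl⟩ := hp r
      have h3 : p (q - b q') = 0 := by rw [map_sub, h2', hr, sub_self]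
      obtain ⟨x, hx⟩ := (he _).1 h3
      refine ⟨Submodule.Quotient.mk x, ?_⟩
      rw [Submodule.mapQ_apply, Submodule.mkQ_apply, Submodule.Quotient.eq, hx]
      refine ⟨-q', ?_⟩
      rw [map_neg]
      abel
    · rintro ⟨n, hn⟩
      obtain ⟨x, rfl⟩ := Submodule.mkQ_surjective _ n
      rw [Submodule.mkQ_apply, Submodule.mapQ_apply] at hn
      rw [← hn, Submodule.mapQ_apply, (he (i x)).2 ⟨x, rfl⟩]
      exact Submodule.Quotient.mk_zero _

lemma len_bij {P : Type} [AddCommGroup P] [Module B P] (f : P →ₗ[B] P)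
    (hf : Function.Surjective f) : Module.length B (P ⧸ LinearMap.range f) = 0 := by
  rw [Module.length_eq_zero_iff, LinearMap.range_eq_top.2 hf]
  infer_instance

end Len

section Det

variable {B : Type} [CommRing B] [IsDomain B]

lemma inj_mv {n : ℕ} (A : Matrix (Fin n) (Fin n) B) (h : A.det ≠ 0) :
    Function.Injective A.mulVecLin := by
  rw [← LinearMap.ker_eq_bot, LinearMap.ker_eq_bot']
  intro v hv
  rw [Matrix.mulVecLin_apply] at hv
  have h1 : A.adjugate.mulVec (A.mulVec v) = A.det • v := by
    rw [Matrix.mulVec_mulVec, Matrix.adjugate_mul, Matrix.smul_mulVec, Matrix.one_mulVec]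
  rw [hv, Matrix.mulVec_zero] at h1
  exact (smul_eq_zero.1 h1.symm).resolve_left h

/-- the length of the cokernel of a matrix -/
noncomputable def ck {n : ℕ} (A : Matrix (Fin n) (Fin n) B) : ℕ∞ :=
  Module.length B ((Fin n → B) ⧸ LinearMap.range A.mulVecLin)

lemma ck_mul {n : ℕ} (A C : Matrix (Fin n) (Fin n) B) (h : A.det ≠ 0) :
    ck (A * C) = ck C + ck A := by
  unfold ck
  rw [Matrix.mulVecLin_mul]
  exact len_comp _ _ (inj_mv A h)

lemma ck_unit {n : ℕ} (A C : Matrix (Fin n) (Fin n) B) (h : A * C = 1) : ck A = 0 := by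
  unfold ck
  refine len_bij _ fun v => ⟨C.mulVec v, ?_⟩
  rw [Matrix.mulVecLin_apply, Matrix.mulVec_mulVec, h, Matrix.one_mulVec]

lemma len_mul (a : B) :
    Module.length B (B ⧸ LinearMap.range (LinearMap.mulLeft B a)) = Ring.ord B a := by
  unfold Ring.ord
  have h : LinearMap.range (LinearMap.mulLeft B a) = Ideal.span {a} := by
    ext x
    rw [Ideal.mem_span_singleton']
    constructor
    · rintro ⟨y, rfl⟩
      exact ⟨y, mul_comm _ _⟩
    · rintro ⟨y, rfl⟩
      exact ⟨y, mul_comm _ _⟩
  rw [h]

/-- block triangular matrices -/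
lemma ck_tri {n : ℕ} (M : Matrix (Fin (n + 1)) (Fin (n + 1)) B)
    (h0 : ∀ i : Fin n, M i.succ 0 = 0) (hd : (M.submatrix Fin.succ Fin.succ).det ≠ 0) :
    ck M = Ring.ord B (M 0 0) + ck (M.submatrix Fin.succ Fin.succ) := by
  unfold ck
  rw [← len_mul]
  refine len_ext (LinearMap.single B (fun _ : Fin (n + 1) => B) 0)
    (LinearMap.funLeft B B Fin.succ) _ _ _ ?_ ?_ ?_ ?_ ?_ (inj_mv _ hd)
  · intro x y h
    have := congrFun h 0
    simpa using this
  · exact LinearMap.funLeft_surjective_of_injective _ _ _ (Fin.succ_injective n)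
  · intro v
    constructor
    · intro h
      refine ⟨v 0, ?_⟩
      funext j
      refine Fin.cases ?_ (fun i => ?_) j
      · simp
      · have := congrFun h i
        simp only [LinearMap.funLeft_apply, Pi.zero_apply] at this
        rw [this]
        simp
    · rintro ⟨b, rfl⟩
      funext i
      simp [LinearMap.funLeft_apply]
  · apply LinearMap.ext
    intro b
    refine _root_.funext fun j => ?_
    refine Fin.cases ?_ (fun i => ?_) j
    · simp [Matrix.mulVec, dotProduct, Fin.sum_univ_succ]
    · simp [Matrix.mulVec, dotProduct, Fin.sum_univ_succ, h0]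
  · apply LinearMap.ext
    intro v
    funext i
    simp only [LinearMap.coe_comp, Function.comp_apply, LinearMap.funLeft_apply,
      Matrix.mulVecLin_apply, Matrix.mulVec, dotProduct, Matrix.submatrix_apply]
    rw [Fin.sum_univ_succ, h0, zero_mul, zero_add]

lemma ck_zero (A : Matrix (Fin 0) (Fin 0) B) : ck A = 0 := by
  unfold ck
  exact len_bij _ fun v => ⟨v, Subsingleton.elim _ _⟩

lemma ord_neg (a : B) : Ring.ord B (-a) = Ring.ord B a := by
  unfold Ring.ord
  rw [Ideal.span_singleton_neg]

lemma ord_pow (a : B) (ha : a ≠ 0) (n : ℕ) : Ring.ord B (a ^ n) = n * Ring.ord B a := by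
  induction n with
  | zero => simp
  | succ n ih =>
    rw [pow_succ, Ring.ord_mul B (mem_nonZeroDivisors_of_ne_zero ha), ih]
    push_cast
    ring

/-- scalar matrices -/
lemma ck_smul (n : ℕ) (a : B) (ha : a ≠ 0) :
    ck (a • (1 : Matrix (Fin n) (Fin n) B)) = n * Ring.ord B a := by
  induction n with
  | zero => simp [ck_zero]
  | succ n ih =>
    have h1 : (a • (1 : Matrix (Fin (n + 1)) (Fin (n + 1)) B)).submatrix Fin.succ Fin.succ =
        a • (1 : Matrix (Fin n) (Fin n) B) := by
      ext i j
      simp [Matrix.one_apply, Fin.succ_inj]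
    rw [ck_tri, h1, ih]
    · simp
      ring
    · intro i
      simp [Fin.succ_ne_zero]
    · rw [h1, Matrix.det_smul, Matrix.det_one, mul_one]
      exact pow_ne_zero _ ha

/-- the matrix `diag (1, a, .., a)` -/
def dg (n : ℕ) (a : B) : Matrix (Fin (n + 1)) (Fin (n + 1)) B :=
  Matrix.diagonal (Fin.cons 1 fun _ => a)

/-- the elementary matrix `1 + c e_0` -/
def un {n : ℕ} (c : Fin n → B) : Matrix (Fin (n + 1)) (Fin (n + 1)) B :=
  Matrix.of fun i j => if i = j then 1 else if j = 0 then (Fin.cons 0 c : Fin (n + 1) → B) i else 0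

lemma un_det {n : ℕ} (c : Fin n → B) : (un c).det = 1 := by
  rw [Matrix.det_of_isLowerTriangular]
  · simp [un]
  · intro i j hij
    have h1 : i < j := hij
    have h2 : i ≠ j := h1.ne
    have h3 : j ≠ 0 := fun h => by
      rw [h] at h1
      exact absurd h1 (Fin.not_lt_zero _)
    simp [un, h2, h3]

lemma dg_det (n : ℕ) (a : B) : (dg n a).det = a ^ n := by
  rw [dg, Matrix.det_diagonal, Fin.prod_univ_succ]
  simp

lemma ck_det {n : ℕ} (hfin : ∀ x : B, x ≠ 0 → Ring.ord B x ≠ ⊤) :
    ∀ A : Matrix (Fin n) (Fin n) B, A.det ≠ 0 → ck A = Ring.ord B A.det := by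
  induction n with
  | zero =>
    intro A _
    rw [ck_zero, Matrix.det_fin_zero, Ring.ord_one]
  | succ n ih =>
    -- the case of a nonzero corner
    have key : ∀ A : Matrix (Fin (n + 1)) (Fin (n + 1)) B, A 0 0 ≠ 0 → A.det ≠ 0 →
        ck A = Ring.ord B A.det := by
      intro A ha hA
      set a := A 0 0 with haa
      let E : Matrix (Fin (n + 1)) (Fin (n + 1)) B := un (fun i => -A i.succ 0) * dg n a
      have hE : ∀ i j, E i j = un (fun i => -A i.succ 0) i j * (Fin.cons 1 fun _ => a : Fin (n + 1) → B) j := by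
        intro i j
        simp only [E, dg, Matrix.mul_diagonal]
      have hEd : E.det = a ^ n := by
        rw [Matrix.det_mul, un_det, dg_det, one_mul]
      have hE0 : E.det ≠ 0 := by
        rw [hEd]
        exact pow_ne_zero _ ha
      have hckE : ck E = n * Ring.ord B a := by
        have h1 : ck (un (fun i => -A i.succ 0)) = 0 := by
          refine ck_unit _ (Matrix.adjugate (un (fun i => -A i.succ 0))) ?_
          rw [Matrix.mul_adjugate, un_det, one_smul]
        have h2 : (dg n a).submatrix Fin.succ Fin.succ = a • (1 : Matrix (Fin n) (Fin n) B) := by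
          ext i j
          by_cases hij : i = j
          · subst hij
            simp [dg]
          · have : i.succ ≠ j.succ := fun h => hij (Fin.succ_injective n h)
            simp [dg, hij]
        rw [ck_mul _ _ (by rw [un_det]; exact one_ne_zero), h1, add_zero, ck_tri, h2, ck_smul n a ha]
        · have : dg n a 0 0 = 1 := by simp [dg]
          rw [this, Ring.ord_one, zero_add]
        · intro i
          simp [dg, Fin.succ_ne_zero]
        · rw [h2, Matrix.det_smul, Matrix.det_one, mul_one]
          exact pow_ne_zero _ ha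
      have h00 : (E * A) 0 0 = a := by
        rw [Matrix.mul_apply, Fin.sum_univ_succ]
        have h1 : ∀ j : Fin n, E 0 j.succ = 0 := by
          intro j
          rw [hE]
          simp [un, (Fin.succ_ne_zero j).symm, Fin.succ_ne_zero j]
        simp only [h1, zero_mul, Finset.sum_const_zero, add_zero]
        rw [hE]
        simp [un, ← haa]
      have hs0 : ∀ i : Fin n, (E * A) i.succ 0 = 0 := by
        intro i
        rw [Matrix.mul_apply, Fin.sum_univ_succ]
        have h1 : E i.succ 0 = -A i.succ 0 := by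
          rw [hE]
          simp [un, Fin.succ_ne_zero i]
        have h2 : ∀ j : Fin n, E i.succ j.succ = if i = j then a else 0 := by
          intro j
          rw [hE]
          simp [un, Fin.succ_ne_zero j]
        simp only [h1, h2, ite_mul, zero_mul, Finset.sum_ite_eq, Finset.mem_univ, if_true]
        rw [← haa]
        ring
      have hdet : (E * A).det = a * ((E * A).submatrix Fin.succ Fin.succ).det := by
        rw [Matrix.det_succ_column_zero, Fin.sum_univ_succ]
        simp only [hs0, mul_zero, zero_mul, Finset.sum_const_zero, add_zero]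
        rw [h00]
        simp
      have hd1 : (E * A).det = a ^ n * A.det := by
        rw [Matrix.det_mul, hEd]
      have hne : ((E * A).submatrix Fin.succ Fin.succ).det ≠ 0 := by
        intro h
        rw [h, mul_zero] at hdet
        rw [hdet] at hd1
        exact mul_ne_zero (pow_ne_zero _ ha) hA hd1.symm
      have h3 := ck_mul E A hE0
      rw [ck_tri _ hs0 hne, h00, ih _ hne, hckE] at h3
      have h4 : Ring.ord B a + Ring.ord B ((E * A).submatrix Fin.succ Fin.succ).det =
          n * Ring.ord B a + Ring.ord B A.det := by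
        rw [← Ring.ord_mul B (mem_nonZeroDivisors_of_ne_zero hne), ← hdet, hd1,
          Ring.ord_mul B (mem_nonZeroDivisors_of_ne_zero hA), ord_pow a ha]
      rw [h4] at h3
      have h5 : (n : ℕ∞) * Ring.ord B a ≠ ⊤ := by
        rw [← ord_pow a ha]
        exact hfin _ (pow_ne_zero _ ha)
      rw [add_comm] at h3
      exact (ENat.add_left_injective_of_ne_top h5 h3).symm
    intro A hA
    by_cases ha : A 0 0 = 0
    · have : ∃ i, A i 0 ≠ 0 := by
        by_contra hno
        push Not at hno
        exact hA (Matrix.det_eq_zero_of_column_eq_zero 0 hno)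
      obtain ⟨i, hi⟩ := this
      have h0i : (0 : Fin (n + 1)) ≠ i := fun h => hi (h ▸ ha)
      have h1 : (Matrix.transvection 0 i (1 : B) * A) 0 0 ≠ 0 := by
        rw [Matrix.transvection_mul_apply_same, ha, zero_add, one_mul]
        exact hi
      have h2 : (Matrix.transvection 0 i (1 : B) * A).det = A.det := by
        rw [Matrix.det_mul, Matrix.det_transvection_of_ne _ _ h0i, one_mul]
      have h3 := key _ h1 (by rw [h2]; exact hA)
      rw [h2, ck_mul _ _ (by rw [Matrix.det_transvection_of_ne _ _ h0i]; exact one_ne_zero)] at h3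
      have h4 : ck (Matrix.transvection 0 i (1 : B)) = 0 := by
        refine ck_unit _ (Matrix.transvection 0 i (-1 : B)) ?_
        rw [Matrix.transvection_mul_transvection_same _ _ h0i, add_neg_cancel,
          Matrix.transvection_zero]
      rw [h4, add_zero] at h3
      exact h3
    · exact key A ha hA

end Det

section Main

/-- the length of the cokernel of the multiplication by `x` -/
noncomputable def ml (B : Type) {B₁ : Type} [CommRing B] [CommRing B₁] [Algebra B B₁] (x : B₁) :
    ℕ∞ := Module.length B (B₁ ⧸ LinearMap.range (LinearMap.mulLeft B x))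

lemma ml_eq {B B₁ : Type} [CommRing B] [CommRing B₁] [Algebra B B₁] (x : B₁) :
    Module.length B (B₁ ⧸ Ideal.span {x}) = ml B x := by
  unfold ml
  have h : LinearMap.range (LinearMap.mulLeft B x) = (Ideal.span {x}).restrictScalars B := by
    ext y
    rw [Submodule.restrictScalars_mem, Ideal.mem_span_singleton']
    constructor
    · rintro ⟨z, rfl⟩
      exact ⟨z, mul_comm _ _⟩
    · rintro ⟨z, rfl⟩
      exact ⟨z, mul_comm _ _⟩
  rw [h]
  exact (Submodule.Quotient.restrictScalarsEquiv B (Ideal.span {x})).length_eq.symm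

lemma mulLeft_inj {B B₁ : Type} [CommRing B] [CommRing B₁] [IsDomain B₁] [Algebra B B₁] {x : B₁}
    (hx : x ≠ 0) : Function.Injective (LinearMap.mulLeft B x) := by
  intro y z h
  exact mul_left_cancel₀ hx h

/-- a basis of `L` over `F` with elements in `B₁` -/
lemma exists_basis (B B₁ F L : Type) [CommRing B] [IsDomain B]
    [CommRing B₁] [IsDomain B₁] [Field F] [Field L] [Algebra B B₁] [Algebra B F] [Algebra B L]
    [Algebra B₁ L] [Algebra F L] [IsScalarTower B B₁ L] [IsScalarTower B F L]
    [IsFractionRing B F] [IsFractionRing B₁ L] [Module.Finite B B₁] [Module.Finite F L] :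
    ∃ (e : Fin (Module.finrank F L) → B₁)
    (b : Module.Basis (Fin (Module.finrank F L)) F L), ∀ i, algebraMap B₁ L (e i) = b i := by
  classical
  let b0 := Module.finBasis F L
  have h : ∀ i, ∃ (e : B₁) (d : B), d ≠ 0 ∧ algebraMap B₁ L e = algebraMap B F d • b0 i := by
    intro i
    obtain ⟨s, t, ht, hst⟩ := IsFractionRing.div_surjective (A := B₁) (b0 i)
    have ht1 : IsAlgebraic B t := (Algebra.IsIntegral.isIntegral t).isAlgebraic
    obtain ⟨c, d, hd, hc⟩ := IsAlgebraic.exists_smul_eq_mul s ht1 ht
    refine ⟨c, d, hd, ?_⟩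
    have ht0 : algebraMap B₁ L t ≠ 0 := by
      intro h0
      exact nonZeroDivisors.ne_zero ht ((IsFractionRing.injective B₁ L) (by rw [h0, map_zero]))
    rw [← hst, Algebra.smul_def, ← IsScalarTower.algebraMap_apply B F L,
      IsScalarTower.algebraMap_apply B B₁ L]
    rw [← mul_div_assoc, eq_div_iff ht0, ← map_mul, ← map_mul, mul_comm c t, ← hc,
      Algebra.smul_def]
  choose e d hd he using h
  have hu : ∀ i, IsUnit (algebraMap B F (d i)) := fun i => by
    rw [isUnit_iff_ne_zero]
    intro h0
    exact hd i ((IsFractionRing.injective B F) (by rw [h0, map_zero]))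
  refine ⟨e, b0.isUnitSMul hu, fun i => ?_⟩
  rw [Module.Basis.isUnitSMul_apply, he]

lemma map_lc {B B₁ F L : Type} [CommRing B]
    [CommRing B₁] [Field F] [Field L] [Algebra B B₁] [Algebra B F] [Algebra B L]
    [Algebra B₁ L] [Algebra F L] [IsScalarTower B B₁ L] [IsScalarTower B F L]
    {n : ℕ} (e : Fin n → B₁) (b : Module.Basis (Fin n) F L)
    (he : ∀ i, algebraMap B₁ L (e i) = b i) (v : Fin n → B) :
    algebraMap B₁ L (Fintype.linearCombination B e v) =
      b.equivFun.symm (fun i => algebraMap B F (v i)) := by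
  rw [Fintype.linearCombination_apply, Module.Basis.equivFun_symm_apply, map_sum]
  refine Finset.sum_congr rfl fun i _ => ?_
  rw [Algebra.smul_def, map_mul, he, ← IsScalarTower.algebraMap_apply B B₁ L, Algebra.smul_def,
    ← IsScalarTower.algebraMap_apply B F L]

lemma lc_inj {B B₁ F L : Type} [CommRing B] [IsDomain B]
    [CommRing B₁] [Field F] [Field L] [Algebra B B₁] [Algebra B F] [Algebra B L]
    [Algebra B₁ L] [Algebra F L] [IsScalarTower B B₁ L] [IsScalarTower B F L]
    [IsFractionRing B F]
    {n : ℕ} (e : Fin n → B₁) (b : Module.Basis (Fin n) F L)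
    (he : ∀ i, algebraMap B₁ L (e i) = b i) :
    Function.Injective (Fintype.linearCombination B e) := by
  intro v w h
  have h1 := congrArg (algebraMap B₁ L) h
  rw [map_lc e b he, map_lc e b he] at h1
  have h2 := b.equivFun.symm.injective h1
  funext i
  exact (IsFractionRing.injective B F) (congrFun h2 i)

/-- the lattice generated by the basis has finite index -/
lemma lc_fin {B B₁ F L : Type} [CommRing B] [IsDomain B]
    [CommRing B₁] [IsDomain B₁] [Field F] [Field L] [Algebra B B₁] [Algebra B F] [Algebra B L]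
    [Algebra B₁ L] [Algebra F L] [IsScalarTower B B₁ L] [IsScalarTower B F L]
    [IsFractionRing B F] [IsFractionRing B₁ L] [Module.Finite B B₁]
    (hfin : ∀ x : B, x ≠ 0 → Ring.ord B x ≠ ⊤)
    {n : ℕ} (e : Fin n → B₁) (b : Module.Basis (Fin n) F L)
    (he : ∀ i, algebraMap B₁ L (e i) = b i) :
    Module.length B (B₁ ⧸ LinearMap.range (Fintype.linearCombination B e)) ≠ ⊤ := by
  have h1 : ∀ y : B₁, ∃ d : B, d ≠ 0 ∧ d • y ∈ LinearMap.range (Fintype.linearCombination B e) := by
    intro y
    obtain ⟨c, hc⟩ := IsLocalization.exist_integer_multiples_of_finite (nonZeroDivisors B)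
      (fun i => b.equivFun (algebraMap B₁ L y) i)
    choose a ha using hc
    refine ⟨c, nonZeroDivisors.coe_ne_zero c, a, ?_⟩
    apply IsFractionRing.injective B₁ L
    rw [map_lc e b he]
    have h2 : (fun i => algebraMap B F (a i)) =
        algebraMap B F (c : B) • b.equivFun (algebraMap B₁ L y) := by
      funext i
      rw [ha i, Pi.smul_apply, Algebra.smul_def, smul_eq_mul]
    rw [h2, map_smul, LinearEquiv.symm_apply_apply, Algebra.smul_def, Algebra.smul_def, map_mul,
      ← IsScalarTower.algebraMap_apply B F L, ← IsScalarTower.algebraMap_apply B B₁ L]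
  obtain ⟨m, s, hs⟩ := Module.Finite.exists_fin (R := B) (M := B₁)
  choose d hd hd2 using fun k => h1 (s k)
  set D := ∏ k, d k with hD
  have hD0 : D ≠ 0 := Finset.prod_ne_zero_iff.2 fun k _ => hd k
  have h3 : ∀ k, D • s k ∈ LinearMap.range (Fintype.linearCombination B e) := by
    intro k
    obtain ⟨q, hq⟩ := Finset.dvd_prod_of_mem d (Finset.mem_univ k)
    rw [hD, hq, mul_comm, mul_smul]
    exact Submodule.smul_mem _ _ (hd2 k)
  have h4 : LinearMap.range (D • (1 : Matrix (Fin m) (Fin m) B)).mulVecLin ≤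
      (LinearMap.range (Fintype.linearCombination B e)).comap (Fintype.linearCombination B s) := by
    rintro _ ⟨v, rfl⟩
    rw [Submodule.mem_comap, Matrix.mulVecLin_apply, Matrix.smul_mulVec, Matrix.one_mulVec,
      map_smul, Fintype.linearCombination_apply, Finset.smul_sum]
    refine Submodule.sum_mem _ fun k _ => ?_
    rw [smul_comm]
    exact Submodule.smul_mem _ _ (h3 k)
  have h5 : Function.Surjective (Submodule.mapQ _ _ (Fintype.linearCombination B s) h4) := by
    intro y
    obtain ⟨z, rfl⟩ := Submodule.mkQ_surjective _ y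
    have h6 : z ∈ Submodule.span B (Set.range s) := by
      rw [hs]
      trivial
    rw [← Fintype.range_linearCombination] at h6
    obtain ⟨v, hv⟩ := h6
    exact ⟨Submodule.Quotient.mk v, by rw [Submodule.mapQ_apply, hv, Submodule.mkQ_apply]⟩
  have h7 := Module.length_le_of_surjective _ h5
  have h8 : Module.length B ((Fin m → B) ⧸ LinearMap.range
      (D • (1 : Matrix (Fin m) (Fin m) B)).mulVecLin) = m * Ring.ord B D := ck_smul m D hD0
  rw [h8, ← ord_pow D hD0] at h7
  exact ne_top_of_le_ne_top (hfin _ (pow_ne_zero _ hD0)) h7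

/-- comparison of the lattices -/
lemma ck_ml {B B₁ F L : Type} [CommRing B] [IsDomain B]
    [CommRing B₁] [IsDomain B₁] [Field F] [Field L] [Algebra B B₁] [Algebra B F] [Algebra B L]
    [Algebra B₁ L] [Algebra F L] [IsScalarTower B B₁ L] [IsScalarTower B F L]
    [IsFractionRing B F] [IsFractionRing B₁ L] [Module.Finite B B₁]
    (hfin : ∀ x : B, x ≠ 0 → Ring.ord B x ≠ ⊤)
    {n : ℕ} (e : Fin n → B₁) (b : Module.Basis (Fin n) F L)
    (he : ∀ i, algebraMap B₁ L (e i) = b i) (x : B₁) (hx : x ≠ 0) (A : Matrix (Fin n) (Fin n) B)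
    (hA : ∀ f : Fin n → B, algebraMap B₁ L x * b.equivFun.symm (fun i => algebraMap B F (f i)) =
      b.equivFun.symm (fun i => algebraMap B F (A.mulVec f i))) :
    ck A = ml B x := by
  have h1 := len_comp (LinearMap.mulLeft B x) (Fintype.linearCombination B e) (mulLeft_inj hx)
  have h2 := len_comp (Fintype.linearCombination B e) A.mulVecLin (lc_inj e b he)
  have h3 : LinearMap.mulLeft B x ∘ₗ Fintype.linearCombination B e =
      Fintype.linearCombination B e ∘ₗ A.mulVecLin := by
    apply LinearMap.ext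
    intro v
    apply IsFractionRing.injective B₁ L
    rw [LinearMap.comp_apply, LinearMap.comp_apply, LinearMap.mulLeft_apply, map_mul,
      map_lc e b he, map_lc e b he, hA, Matrix.mulVecLin_apply]
  rw [h3, h2, add_comm] at h1
  exact ENat.add_right_injective_of_ne_top (lc_fin hfin e b he) h1

end Main

end NORM

open NORM in
theorem t_NORM : S_NORM := by
  intro B B₁ F L _ _ _ _ _ _ _ _ _ _ _ _ _ _ _ _ _ _ hfin x b c hx hb hc hn
  have hfin' : ∀ x : B, x ≠ 0 → Ring.ord B x ≠ ⊤ := hfin
  obtain ⟨n, e, bs, he⟩ : ∃ (n : ℕ) (e : Fin n → B₁) (bs : Module.Basis (Fin n) F L),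
      ∀ i, algebraMap B₁ L (e i) = bs i := ⟨_, exists_basis B B₁ F L⟩
  set y := algebraMap B₁ L x with hy
  have hy0 : y ≠ 0 := by
    intro h0
    exact hx ((IsFractionRing.injective B₁ L) (by rw [map_zero]; exact h0))
  obtain ⟨c0, hc0⟩ := IsLocalization.exist_integer_multiples_of_finite (nonZeroDivisors B)
    (fun p : Fin n × Fin n => Algebra.leftMulMatrix bs y p.1 p.2)
  choose a ha using hc0
  have hc00 : (c0 : B) ≠ 0 := nonZeroDivisors.coe_ne_zero c0
  let A : Matrix (Fin n) (Fin n) B := Matrix.of fun i j => a (i, j)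
  have hAm : (algebraMap B F).mapMatrix A =
      algebraMap B F (c0 : B) • Algebra.leftMulMatrix bs y := by
    ext i j
    rw [RingHom.mapMatrix_apply, Matrix.map_apply, Matrix.smul_apply, smul_eq_mul]
    show algebraMap B F (a (i, j)) = _
    rw [ha (i, j), Algebra.smul_def]
  have hAdet : algebraMap B F A.det = algebraMap B F (c0 : B) ^ n * Algebra.norm F y := by
    rw [RingHom.map_det, hAm, Matrix.det_smul, Fintype.card_fin, Algebra.norm_eq_matrix_det bs]
  have hinj := IsFractionRing.injective B F
  have hA1 : A.det * c = (c0 : B) ^ n * b := by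
    apply hinj
    rw [map_mul, hAdet, mul_assoc, hn, map_mul, map_pow]
  have hA0 : A.det ≠ 0 := by
    intro h0
    rw [h0, zero_mul] at hA1
    exact mul_ne_zero (pow_ne_zero _ hc00) hb hA1.symm
  have hc0x : algebraMap B B₁ (c0 : B) ≠ 0 := by
    intro h0
    have h1 : algebraMap B L (c0 : B) = 0 := by
      rw [IsScalarTower.algebraMap_apply B B₁ L, h0, map_zero]
    rw [IsScalarTower.algebraMap_apply B F L] at h1
    have h2 : algebraMap B F (c0 : B) = 0 := (algebraMap F L).injective (by rw [h1, map_zero])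
    exact hc00 (hinj (by rw [h2, map_zero]))
  have e1 : ck A = ml B (algebraMap B B₁ (c0 : B) * x) := by
    refine ck_ml hfin' e bs he _ (mul_ne_zero hc0x hx) A fun f => ?_
    rw [map_mul, ← hy]
    have h1 : (fun i => algebraMap B F (A.mulVec f i)) =
        algebraMap B F (c0 : B) • (Algebra.leftMulMatrix bs y).mulVec
          (fun i => algebraMap B F (f i)) := by
      rw [← Matrix.smul_mulVec, ← hAm]
      funext i
      rw [RingHom.map_mulVec]
      rfl
    have h2 := Algebra.leftMulMatrix_mulVec_repr bs y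
      (bs.equivFun.symm fun i => algebraMap B F (f i))
    have h3 : (⇑(bs.repr (bs.equivFun.symm fun i => algebraMap B F (f i))) : Fin n → F) =
        fun i => algebraMap B F (f i) := by
      have := bs.equivFun.apply_symm_apply (fun i => algebraMap B F (f i))
      exact this
    rw [h3] at h2
    have h4 : bs.equivFun.symm ((Algebra.leftMulMatrix bs y).mulVec
        (fun i => algebraMap B F (f i))) =
        y * bs.equivFun.symm (fun i => algebraMap B F (f i)) := by
      rw [LinearEquiv.symm_apply_eq, h2]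
      rfl
    rw [h1, map_smul, h4, Algebra.smul_def, ← IsScalarTower.algebraMap_apply B F L,
      ← IsScalarTower.algebraMap_apply B B₁ L, mul_assoc]
  have e2 : ck ((c0 : B) • (1 : Matrix (Fin n) (Fin n) B)) = ml B (algebraMap B B₁ (c0 : B)) := by
    refine ck_ml hfin' e bs he _ hc0x _ fun f => ?_
    have h1 : (fun i => algebraMap B F (((c0 : B) • (1 : Matrix (Fin n) (Fin n) B)).mulVec f i)) =
        algebraMap B F (c0 : B) • (fun i => algebraMap B F (f i)) := by
      funext i
      rw [Matrix.smul_mulVec, Matrix.one_mulVec, Pi.smul_apply, Pi.smul_apply, smul_eq_mul,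
        smul_eq_mul, map_mul]
    rw [h1, map_smul, Algebra.smul_def, ← IsScalarTower.algebraMap_apply B F L,
      ← IsScalarTower.algebraMap_apply B B₁ L]
  have e3 : ml B (algebraMap B B₁ (c0 : B) * x) = ml B x + ml B (algebraMap B B₁ (c0 : B)) := by
    have h1 := len_comp (LinearMap.mulLeft B (algebraMap B B₁ (c0 : B))) (LinearMap.mulLeft B x)
      (mulLeft_inj hc0x)
    rw [← LinearMap.mulLeft_mul] at h1
    exact h1
  rw [ck_smul n (c0 : B) hc00, ← ord_pow _ hc00] at e2
  rw [ck_det hfin' A hA0, e3, ← e2] at e1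
  have e4 : Ring.ord B A.det + Ring.ord B c = Ring.ord B ((c0 : B) ^ n) + Ring.ord B b := by
    rw [← Ring.ord_mul B (mem_nonZeroDivisors_of_ne_zero hc), hA1,
      Ring.ord_mul B (mem_nonZeroDivisors_of_ne_zero hb)]
  rw [e1] at e4
  rw [ml_eq]
  have e5 : Ring.ord B ((c0 : B) ^ n) + (ml B x + Ring.ord B c) =
      Ring.ord B ((c0 : B) ^ n) + Ring.ord B b := by
    rw [← e4]
    ring
  exact ENat.add_right_injective_of_ne_top (hfin' _ (pow_ne_zero _ hc00)) e5

end CUB
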