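import Pool.Agent.CUB.StmtsR

/-!
# CUB: PC, the formula for two elements of the base ring
-/

set_option autoImplicit false

namespace CUB

namespace PC

lemma length_max {C A : Type} [CommRing C] [IsNoetherianRing C] [CommRing A] [Algebra C A]
    [Module.Finite C A] (P : Ideal A) (hP : P.IsMaximal) : Module.length C (A ⧸ P) ≠ ⊤ := by
  haveI := hP
  haveI h1 : (P.under C).IsMaximal := Ideal.isMaximal_comap_of_isIntegral_of_isMaximal P
  haveI : P.LiesOver (P.under C) := Ideal.over_under P
  letI : Field (C ⧸ P.under C) := Ideal.Quotient.field _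
  haveI : Module.Finite (C ⧸ P.under C) (A ⧸ P) :=
    Module.Finite.of_restrictScalars_finite C _ _
  rw [Module.length_eq_of_surjective (S := C) (R := C ⧸ P.under C) (M := A ⧸ P)
    Ideal.Quotient.mk_surjective]
  exact Module.length_ne_top

lemma len_eq {A : Type} [CommRing A] (I : Ideal A) (p : PrimeSpectrum A) :
    lC (Localization.AtPrime p.asIdeal) (LocalizedModule p.asIdeal.primeCompl (A ⧸ I)) =
      len I p := by
  unfold lC len
  congr 1
  have e1 := IsLocalizedModule.linearEquiv p.asIdeal.primeCompl
    (LocalizedModule.mkLinearMap p.asIdeal.primeCompl (A ⧸ I))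
    (I.toLocalizedQuotient' (Localization.AtPrime p.asIdeal) p.asIdeal.primeCompl
      (Algebra.linearMap A (Localization.AtPrime p.asIdeal)))
  have e2 := e1.extendScalarsOfIsLocalization p.asIdeal.primeCompl
    (Localization.AtPrime p.asIdeal)
  rw [e2.length_eq, Ideal.localized'_eq_map]

/-- The elements which a power of `u` multiplies into `(a)`. -/
def sat {B : Type} [CommRing B] (a u : B) : Ideal B where
  carrier := {x | ∃ n : ℕ, u ^ n * x ∈ Ideal.span {a}}
  add_mem' := by
    rintro x y ⟨n, hn⟩ ⟨m, hm⟩
    refine ⟨n + m, ?_⟩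
    have h : u ^ (n + m) * (x + y) = u ^ m * (u ^ n * x) + u ^ n * (u ^ m * y) := by ring
    rw [h]
    exact Ideal.add_mem _ (Ideal.mul_mem_left _ _ hn) (Ideal.mul_mem_left _ _ hm)
  zero_mem' := ⟨0, by simp⟩
  smul_mem' := by
    rintro c x ⟨n, hn⟩
    refine ⟨n, ?_⟩
    have h : u ^ n * (c • x) = c * (u ^ n * x) := by rw [smul_eq_mul]; ring
    rw [h]
    exact Ideal.mul_mem_left _ _ hn

lemma mem_sat {B : Type} [CommRing B] (a u x : B) :
    x ∈ sat a u ↔ ∃ n : ℕ, u ^ n * x ∈ Ideal.span {a} := Iff.rfl

lemma loc_len {R M N : Type} [CommRing R] (S : Submonoid R) [AddCommGroup M] [Module R M]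
    [AddCommGroup N] [Module R N] (f : M →ₗ[R] N) (hk : ∀ m, f m = 0 → ∃ s ∈ S, s • m = 0)
    (hc : ∀ n, ∃ s ∈ S, ∃ m, s • n = f m) :
    Module.length (Localization S) (LocalizedModule S M) =
      Module.length (Localization S) (LocalizedModule S N) := by
  haveI : IsLocalizedModule S ((LocalizedModule.mkLinearMap S N) ∘ₗ f) := by
    constructor
    · intro s
      exact IsLocalizedModule.map_units (LocalizedModule.mkLinearMap S N) s
    · intro y
      obtain ⟨⟨n, s⟩, hn⟩ := IsLocalizedModule.surj S (LocalizedModule.mkLinearMap S N) y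
      obtain ⟨t, ht, m, hm⟩ := hc n
      refine ⟨⟨m, ⟨t, ht⟩ * s⟩, ?_⟩
      simp only [LinearMap.comp_apply]
      rw [← hm, map_smul, ← hn, mul_smul]
      rfl
    · intro x y h
      simp only [LinearMap.comp_apply] at h
      obtain ⟨s, hs⟩ := (IsLocalizedModule.eq_iff_exists S
        (LocalizedModule.mkLinearMap S N)).1 h
      obtain ⟨t, ht, h2⟩ := hk ((s : R) • (x - y)) (by
        rw [map_smul, map_sub, smul_sub, sub_eq_zero]
        exact hs)
      refine ⟨⟨t, ht⟩ * s, ?_⟩
      rw [← sub_eq_zero, ← smul_sub, mul_smul]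
      exact h2
  have e1 := IsLocalizedModule.linearEquiv S (LocalizedModule.mkLinearMap S M)
    ((LocalizedModule.mkLinearMap S N) ∘ₗ f)
  exact (e1.extendScalarsOfIsLocalization S (Localization S)).length_eq

lemma onedim (hDEV : S_DEV) {R N : Type} [CommRing R] [IsDomain R] [IsNoetherianRing R]
    (hR : ∀ P : Ideal R, P.IsPrime → P ≠ ⊥ → Module.length R (R ⧸ P) ≠ ⊤)
    [AddCommGroup N] [Module R N] [Module.Finite R N] (y : R) (hy : y ≠ 0)
    (f : R →ₗ[R] N) (hf : ∀ r, f r = 0 → r = 0)
    (hc : ∀ n, ∃ s : R, s ≠ 0 ∧ ∃ m, s • n = f m) (ht : ∀ n : N, y • n = 0 → n = 0) :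
    lC R (N ⧸ LinearMap.range (LinearMap.lsmul R N y)) = lC R (R ⧸ Ideal.span {y}) := by
  classical
  have hfin : Module.length R (R ⧸ Ideal.span {y}) ≠ ⊤ := by
    obtain ⟨_, h2, _⟩ := hDEV R R 0 ∅ (by simp) (by simp) (R ⧸ Ideal.span {y}) (by
      intro P hP
      right
      refine ⟨by simp, hR P.asIdeal P.isPrime ?_⟩
      have h1 : Ideal.span {y} ≤ P.asIdeal := by
        have := Module.mem_support_iff_of_finite.1 hP
        rwa [Ideal.annihilator_quotient] at this
      intro h
      rw [h] at h1
      exact hy (by simpa using h1 (Ideal.mem_span_singleton_self y)))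
    have h3 : LinearMap.ker (LinearMap.lsmul R (R ⧸ Ideal.span {y}) 0) = ⊤ := by
      rw [map_zero, LinearMap.ker_zero]
    rw [h3] at h2
    rwa [Submodule.topEquiv.length_eq] at h2
  obtain ⟨b, hb⟩ : ∃ b : PrimeSpectrum R, b.asIdeal = ⊥ := ⟨⟨⊥, Ideal.isPrime_bot⟩, rfl⟩
  have key : ∀ (N : Type) [AddCommGroup N] [Module R N] [Module.Finite R N],
      (∀ n : N, y • n = 0 → n = 0) →
      lC R (N ⧸ LinearMap.range (LinearMap.lsmul R N y)) =
        lC (Localization.AtPrime b.asIdeal) (LocalizedModule b.asIdeal.primeCompl N) *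
          lC R (R ⧸ (b.asIdeal ⊔ Ideal.span {y})) := by
    intro N _ _ _ hN
    obtain ⟨_, _, _, h4⟩ := hDEV R R y {b} (by
      intro P hP
      rw [Finset.mem_singleton] at hP
      subst hP
      rw [hb]
      refine ⟨by simpa using hy, ?_⟩
      rwa [bot_sup_eq]) (by
      intro P hP P' hP' _
      rw [Finset.mem_singleton] at hP hP'
      rw [hP, hP']) N (by
      intro P _
      by_cases hPb : P.asIdeal = ⊥
      · left
        rw [Finset.mem_singleton]
        exact PrimeSpectrum.ext (hPb.trans hb.symm)
      · right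
        refine ⟨fun P' hP' hle => ?_, hR P.asIdeal P.isPrime hPb⟩
        rw [Finset.mem_singleton] at hP'
        subst hP'
        rw [hb] at hle
        exact hPb (le_bot_iff.1 hle))
    have h5 : LinearMap.ker (LinearMap.lsmul R N y) = ⊥ := by
      rw [LinearMap.ker_eq_bot']
      exact hN
    rw [h5, Finset.sum_singleton] at h4
    have h6 : lC R (⊥ : Submodule R N) = 0 := by
      unfold lC
      rw [Module.length_bot]
      rfl
    rw [h6, zero_add] at h4
    exact h4
  have k1 := key N ht
  have k2 := key R (fun n hn => by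
    rw [smul_eq_mul, mul_eq_zero] at hn
    exact hn.resolve_left hy)
  have k3 : lC (Localization.AtPrime b.asIdeal) (LocalizedModule b.asIdeal.primeCompl R) =
      lC (Localization.AtPrime b.asIdeal) (LocalizedModule b.asIdeal.primeCompl N) := by
    unfold lC
    congr 1
    refine loc_len b.asIdeal.primeCompl f (fun m hm => ⟨1, Submonoid.one_mem _, ?_⟩)
      (fun n => ?_)
    · rw [hf m hm, smul_zero]
    · obtain ⟨s, hs, m, hm⟩ := hc n
      refine ⟨s, ?_, m, hm⟩
      intro h
      rw [hb] at h
      exact hs (by simpa using h)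
  rw [k1, ← k3, ← k2]
  have h7 : LinearMap.range (LinearMap.lsmul R R y) = Ideal.span {y} := by
    ext z
    rw [Ideal.mem_span_singleton']
    constructor
    · rintro ⟨w, rfl⟩
      exact ⟨w, by simp [mul_comm]⟩
    · rintro ⟨w, rfl⟩
      exact ⟨w, by simp [mul_comm]⟩
  rw [h7]

lemma min_lemma {B : Type} [CommRing B] (I P : Ideal B) [P.IsPrime]
    (hmin : ∀ Q : Ideal B, Q.IsPrime → I ≤ Q → Q ≤ P → Q = P) (u : B) (hu : u ∈ P) :
    ∃ s, s ∉ P ∧ ∃ n : ℕ, u ^ n * s ∈ I := by
  by_contra hcon
  push Not at hcon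
  obtain ⟨Q, hQ, hIQ, hdis⟩ := Ideal.exists_le_prime_disjoint I
    (P.primeCompl ⊔ Submonoid.powers u) (by
      rw [Set.disjoint_left]
      intro x hx hx2
      obtain ⟨s, hs, v, ⟨n, rfl⟩, rfl⟩ := Submonoid.mem_sup.1 hx2
      apply hcon s hs n
      rw [mul_comm]
      exact hx)
  have hQP : Q ≤ P := by
    intro x hx
    by_contra hxP
    exact Set.disjoint_left.1 hdis hx (Submonoid.mem_sup_left hxP)
  have := hmin Q hQ hIQ hQP
  rw [← this] at hu
  exact Set.disjoint_left.1 hdis hu (Submonoid.mem_sup_right (Submonoid.mem_powers u))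

lemma quot_loc {R M : Type} [CommRing R] (S : Submonoid R) [AddCommGroup M] [Module R M] (a : R) :
    Module.length (Localization S)
        (LocalizedModule S (M ⧸ LinearMap.range (LinearMap.lsmul R M a))) =
      Module.length (Localization S) (LocalizedModule S M ⧸
        LinearMap.range (LinearMap.lsmul (Localization S) (LocalizedModule S M)
          (algebraMap R (Localization S) a))) := by
  have e1 := IsLocalizedModule.linearEquiv S
    (LocalizedModule.mkLinearMap S (M ⧸ LinearMap.range (LinearMap.lsmul R M a)))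
    ((LinearMap.range (LinearMap.lsmul R M a)).toLocalizedQuotient' (Localization S) S
      (LocalizedModule.mkLinearMap S M))
  have e2 := e1.extendScalarsOfIsLocalization S (Localization S)
  rw [e2.length_eq]
  have h : (LinearMap.range (LinearMap.lsmul R M a)).localized' (Localization S) S
      (LocalizedModule.mkLinearMap S M) =
      LinearMap.range (LinearMap.lsmul (Localization S) (LocalizedModule S M)
        (algebraMap R (Localization S) a)) := by
    ext x
    rw [Submodule.mem_localized']
    constructor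
    · rintro ⟨_, ⟨m, rfl⟩, s, rfl⟩
      refine ⟨IsLocalizedModule.mk' (LocalizedModule.mkLinearMap S M) m s, ?_⟩
      rw [LinearMap.lsmul_apply, LinearMap.lsmul_apply, IsLocalizedModule.mk'_smul,
        algebraMap_smul]
    · rintro ⟨w, rfl⟩
      obtain ⟨⟨m, s⟩, hm⟩ := IsLocalizedModule.mk'_surjective S
        (LocalizedModule.mkLinearMap S M) w
      refine ⟨a • m, ⟨m, rfl⟩, s, ?_⟩
      rw [LinearMap.lsmul_apply, ← hm, IsLocalizedModule.mk'_smul, algebraMap_smul]
      rfl
  rw [h]

lemma loc_dim {C : Type} [CommRing C] [IsDomain C] [IsNoetherianRing C] (z : PrimeSpectrum C)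
    (h7 : ∀ p' : Ideal C, p'.IsPrime → p' < z.asIdeal → p' = ⊥)
    (P : Ideal (Localization.AtPrime z.asIdeal)) (hP : P.IsPrime) (hb : P ≠ ⊥) :
    Module.length (Localization.AtPrime z.asIdeal) (Localization.AtPrime z.asIdeal ⧸ P) ≠ ⊤ := by
  apply length_max
  have h1 : P ≤ IsLocalRing.maximalIdeal (Localization.AtPrime z.asIdeal) :=
    IsLocalRing.le_maximalIdeal hP.ne_top
  have h2 : Ideal.under C P ≤ z.asIdeal := by
    have h3 : Ideal.under C P ≤
        Ideal.under C (IsLocalRing.maximalIdeal (Localization.AtPrime z.asIdeal)) :=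
      Ideal.comap_mono h1
    rwa [Localization.AtPrime.under_maximalIdeal] at h3
  have h4 := IsLocalization.map_under z.asIdeal.primeCompl (Localization.AtPrime z.asIdeal) P
  rcases h2.lt_or_eq with hlt | he
  · exfalso
    have h5 : Ideal.under C P = ⊥ := h7 _ (Ideal.comap_isPrime _ P) hlt
    rw [h5, Ideal.map_bot] at h4
    exact hb h4.symm
  · rw [he, Localization.AtPrime.map_eq_maximalIdeal] at h4
    rw [← h4]
    exact IsLocalRing.maximalIdeal.isMaximal _

/-- The length at `z` of `A / a A` is that of `C / a C`. -/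
lemma at_z (hDEV : S_DEV) {C A K : Type} [CommRing C] [IsDomain C] [IsNoetherianRing C]
    [CommRing A] [IsDomain A] [Field K] [Algebra C A] [Algebra C K] [Algebra A K]
    [IsScalarTower C A K] [Module.Finite C A] [IsFractionRing C K] [IsFractionRing A K]
    (z : PrimeSpectrum C) (h7 : ∀ p' : Ideal C, p'.IsPrime → p' < z.asIdeal → p' = ⊥)
    (a : C) (ha : a ≠ 0) :
    lC (Localization.AtPrime z.asIdeal) (LocalizedModule z.asIdeal.primeCompl
      (A ⧸ LinearMap.range (LinearMap.lsmul C A a))) = len (Ideal.span {a}) z := by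
  have hinj : Function.Injective (algebraMap C A) := by
    have h1 : Function.Injective (algebraMap C K) := IsFractionRing.injective C K
    rw [IsScalarTower.algebraMap_eq C A K] at h1
    exact Function.Injective.of_comp h1
  have hinjK : Function.Injective (algebraMap A K) := IsFractionRing.injective A K
  set R := Localization.AtPrime z.asIdeal with hR
  set N := LocalizedModule z.asIdeal.primeCompl A with hN
  haveI : IsDomain R := IsLocalization.isDomain_localization
    (Ideal.primeCompl_le_nonZeroDivisors z.asIdeal)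
  haveI : IsNoetherianRing R := IsLocalization.isNoetherianRing z.asIdeal.primeCompl R inferInstance
  have hzinj : Function.Injective (algebraMap C R) :=
    IsLocalization.injective R (Ideal.primeCompl_le_nonZeroDivisors z.asIdeal)
  have hmk : ∀ (x : A) (s : z.asIdeal.primeCompl), (LocalizedModule.mk x s : N) = 0 → x = 0 := by
    intro x s h
    have h1 : (LocalizedModule.mk x s : N) = LocalizedModule.mk 0 s := by
      rw [h, LocalizedModule.zero_mk]
    obtain ⟨t, ht⟩ := LocalizedModule.mk_eq.1 h1
    have h2 : ((t : C) * (s : C)) • x = 0 := by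
      rw [mul_smul]
      have h3 : t • s • x = (t : C) • (s : C) • x := rfl
      rw [← h3, ht, smul_zero, smul_zero]
    rw [Algebra.smul_def, mul_eq_zero, ← map_zero (algebraMap C A)] at h2
    rcases h2 with h2 | h2
    · exfalso
      have h3 := hinj h2
      exact (z.asIdeal.primeCompl.mul_mem t.2 s.2) (by
        rw [h3]; exact Ideal.zero_mem _)
    · rw [h2, map_zero]
  have hd := onedim hDEV (R := R) (N := N) (fun P hP hb => loc_dim z h7 P hP hb)
    (algebraMap C R a) (by
      intro h
      rw [← map_zero (algebraMap C R)] at h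
      exact ha (hzinj h))
    (LinearMap.toSpanSingleton R N (LocalizedModule.mk 1 1)) (by
      intro r hr
      obtain ⟨c, s, rfl⟩ := IsLocalization.exists_mk'_eq z.asIdeal.primeCompl r
      rw [LinearMap.toSpanSingleton_apply] at hr
      have h0 : algebraMap C R (s : C) • (IsLocalization.mk' R c s •
          (LocalizedModule.mk 1 1 : N)) = 0 := by rw [hr, smul_zero]
      rw [smul_smul, IsLocalization.mk'_spec', algebraMap_smul, LocalizedModule.smul'_mk] at h0
      have h1 := hmk _ _ h0
      rw [Algebra.smul_def, mul_one, ← map_zero (algebraMap C A)] at h1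
      rw [hinj h1, IsLocalization.mk'_zero]) (by
      intro n
      induction n using LocalizedModule.induction_on with
      | h x s =>
        obtain ⟨c, t, ht, hct⟩ := IsFractionRing.div_surjective (A := C) (algebraMap A K x)
        have ht0 : t ≠ 0 := nonZeroDivisors.ne_zero ht
        have htK : algebraMap C K t ≠ 0 := by
          intro h
          rw [← map_zero (algebraMap C K)] at h
          exact ht0 (IsFractionRing.injective C K h)
        have h1 : t • x = c • (1 : A) := by
          apply hinjK
          rw [Algebra.smul_def, Algebra.smul_def, map_mul, map_mul, map_one, mul_one,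
            ← IsScalarTower.algebraMap_apply, ← IsScalarTower.algebraMap_apply, ← hct,
            mul_div_cancel₀ _ htK]
        refine ⟨algebraMap C R (t * s), ?_, algebraMap C R c, ?_⟩
        · intro h
          rw [← map_zero (algebraMap C R)] at h
          have h2 := hzinj h
          rcases mul_eq_zero.1 h2 with h3 | h3
          · exact ht0 h3
          · exact s.2 (by
              show (s : C) ∈ z.asIdeal
              rw [h3]; exact Ideal.zero_mem _)
        · rw [LinearMap.toSpanSingleton_apply, algebraMap_smul, algebraMap_smul,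
            LocalizedModule.smul'_mk, LocalizedModule.smul'_mk, ← h1]
          rw [LocalizedModule.mk_eq]
          refine ⟨1, ?_⟩
          rw [one_smul, one_smul, one_smul]
          rw [mul_comm t (s : C), mul_smul]
          rfl) (by
      intro n hn
      induction n using LocalizedModule.induction_on with
      | h x s =>
        rw [algebraMap_smul, LocalizedModule.smul'_mk] at hn
        have h1 := hmk _ _ hn
        rw [Algebra.smul_def, mul_eq_zero, ← map_zero (algebraMap C A)] at h1
        rcases h1 with h1 | h1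
        · exact absurd (hinj h1) ha
        · rw [h1, map_zero, LocalizedModule.zero_mk])
  unfold lC at hd ⊢
  rw [quot_loc, hd]
  unfold len
  rw [Ideal.map_span, Set.image_singleton]

/-- A prime of height one containing `a` and the saturation does not contain `u`. -/
lemma not_mem {B : Type} [CommRing B] (a u : B) (ha : a ≠ 0) (P : Ideal B) [P.IsPrime]
    (h3 : ∀ p' : Ideal B, p'.IsPrime → p' < P → p' = ⊥) (hI : sat a u ≤ P) : u ∉ P := by
  intro hu
  obtain ⟨s, hs, n, hn⟩ := min_lemma (Ideal.span {a}) P (by
    intro Q hQ hIQ hQP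
    rcases hQP.lt_or_eq with hlt | he
    · exfalso
      have h4 := h3 Q hQ hlt
      rw [h4] at hIQ
      exact ha (by simpa using hIQ (Ideal.mem_span_singleton_self a))
    · exact he) u hu
  exact hs (hI ((mem_sat a u s).2 ⟨n, hn⟩))

lemma self_mem {B : Type} [CommRing B] (a u : B) : a ∈ sat a u :=
  (mem_sat a u a).2 ⟨0, by simp⟩

lemma of_mul_mem {B : Type} [CommRing B] (a u x : B) (h : u * x ∈ sat a u) : x ∈ sat a u := by
  obtain ⟨n, hn⟩ := (mem_sat a u _).1 h
  exact (mem_sat a u x).2 ⟨n + 1, by rw [pow_succ, mul_assoc]; exact hn⟩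

lemma range_len {C A M : Type} [CommRing C] [CommRing A] [Algebra C A] [AddCommGroup M]
    [Module A M] [Module C M] [IsScalarTower C A M] (u : C) :
    lC C (M ⧸ LinearMap.range (LinearMap.lsmul A M (algebraMap C A u))) =
      lC C (M ⧸ LinearMap.range (LinearMap.lsmul C M u)) := by
  unfold lC
  congr 1
  rw [← (Submodule.Quotient.restrictScalarsEquiv C
    (LinearMap.range (LinearMap.lsmul A M (algebraMap C A u)))).length_eq]
  refine (Submodule.quotEquivOfEq _ _ ?_).length_eq
  ext x
  simp only [Submodule.restrictScalars_mem, LinearMap.mem_range, LinearMap.lsmul_apply,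
    algebraMap_smul]

lemma lC_bot {C A M : Type} [CommRing C] [CommRing A] [Algebra C A] [AddCommGroup M]
    [Module A M] [Module C M] [IsScalarTower C A M] (T : Submodule A M) (hT : T = ⊥) :
    lC C T = 0 := by
  subst hT
  unfold lC
  rw [Module.length_eq_zero]
  rfl

end PC

open PC in
theorem t_PC : M_PC := by
  classical
  intro hDEV hHHA C A K _ _ _ _ _ _ _ _ _ _ _ hSit a u ha hu V Z hV hZ
  obtain ⟨hN, _, h3, _, h5, _, h7, h8, _⟩ := hHHA C A K hSit
  haveI := hN
  haveI := hSit.fin
  haveI := hSit.frC
  haveI := hSit.frA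
  have hinj : Function.Injective (algebraMap C A) := by
    have h1 : Function.Injective (algebraMap C K) := IsFractionRing.injective C K
    rw [IsScalarTower.algebraMap_eq C A K] at h1
    exact Function.Injective.of_comp h1
  have ha' : algebraMap C A a ≠ 0 := by
    intro h
    rw [← map_zero (algebraMap C A)] at h
    exact ha (hinj h)
  obtain ⟨_, _, _, dA⟩ := hDEV C A (algebraMap C A u) V
    (fun P hP => ⟨((hV P).1 hP).2.2, h5 P ((hV P).1 hP).1 _ ((hV P).1 hP).2.2⟩)
    (fun P hP P' hP' hle => by
      rcases hle.lt_or_eq with hlt | he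
      · exact absurd (h3 P' ((hV P').1 hP').1 P.asIdeal P.isPrime hlt) ((hV P).1 hP).1.1
      · exact PrimeSpectrum.ext he)
    (A ⧸ sat (algebraMap C A a) (algebraMap C A u)) (by
      intro P hP
      have hI : sat (algebraMap C A a) (algebraMap C A u) ≤ P.asIdeal := by
        have := Module.mem_support_iff_of_finite.1 hP
        rwa [Ideal.annihilator_quotient] at this
      have haP : algebraMap C A a ∈ P.asIdeal := hI (self_mem _ _)
      by_cases hPH : P ∈ HH A
      · exact Or.inl ((hV P).2 ⟨hPH, haP, not_mem _ _ ha' P.asIdeal (h3 P hPH) hI⟩)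
      · right
        have hmax : P.asIdeal.IsMaximal := by
          by_contra hcon
          refine hPH ⟨?_, hcon⟩
          intro hb
          rw [hb] at haP
          exact ha' ((Ideal.mem_bot).1 haP)
        refine ⟨fun P' hP' hle => ?_, length_max P.asIdeal hmax⟩
        have := hmax.eq_of_le P'.isPrime.ne_top hle
        exact ((hV P').1 hP').1.2 (this ▸ hmax))
  obtain ⟨_, _, _, dC⟩ := hDEV C C u Z
    (fun P hP => ⟨((hZ P).1 hP).2.2, h8 P ((hZ P).1 hP).1 _ ((hZ P).1 hP).2.2⟩)
    (fun P hP P' hP' hle => by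
      rcases hle.lt_or_eq with hlt | he
      · exact absurd (h7 P' ((hZ P').1 hP').1 P.asIdeal P.isPrime hlt) ((hZ P).1 hP).1.1
      · exact PrimeSpectrum.ext he)
    (A ⧸ sat (algebraMap C A a) (algebraMap C A u)) (by
      intro P hP
      have hI' : ∀ c : C, algebraMap C A c ∈ sat (algebraMap C A a) (algebraMap C A u) →
          c ∈ P.asIdeal := by
        intro c hc
        apply Module.mem_support_iff_of_finite.1 hP
        rw [Module.mem_annihilator]
        intro m
        obtain ⟨x, rfl⟩ := Ideal.Quotient.mk_surjective m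
        have h1 : c • Ideal.Quotient.mk (sat (algebraMap C A a) (algebraMap C A u)) x =
          Ideal.Quotient.mk (sat (algebraMap C A a) (algebraMap C A u)) (c • x) := rfl
        rw [h1, Ideal.Quotient.eq_zero_iff_mem, Algebra.smul_def]
        exact Ideal.mul_mem_right _ _ hc
      have hI : sat a u ≤ P.asIdeal := by
        intro c hc
        obtain ⟨n, hn⟩ := (mem_sat _ _ _).1 hc
        apply hI'
        refine (mem_sat _ _ _).2 ⟨n, ?_⟩
        have := Ideal.mem_map_of_mem (algebraMap C A) hn
        rwa [Ideal.map_span, Set.image_singleton, map_mul, map_pow] at this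
      have haP : a ∈ P.asIdeal := hI (self_mem _ _)
      by_cases hPH : P ∈ HH C
      · exact Or.inl ((hZ P).2 ⟨hPH, haP, not_mem _ _ ha P.asIdeal (h7 P hPH) hI⟩)
      · right
        have hmax : P.asIdeal.IsMaximal := by
          by_contra hcon
          refine hPH ⟨?_, hcon⟩
          intro hb
          rw [hb] at haP
          exact ha ((Ideal.mem_bot).1 haP)
        refine ⟨fun P' hP' hle => ?_, length_max P.asIdeal hmax⟩
        have := hmax.eq_of_le P'.isPrime.ne_top hle
        exact ((hZ P').1 hP').1.2 (this ▸ hmax))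
  have kA : LinearMap.ker (LinearMap.lsmul A
      (A ⧸ sat (algebraMap C A a) (algebraMap C A u)) (algebraMap C A u)) = ⊥ := by
    rw [LinearMap.ker_eq_bot']
    intro m hm
    obtain ⟨x, rfl⟩ := Ideal.Quotient.mk_surjective m
    rw [LinearMap.lsmul_apply] at hm
    have h1 : Ideal.Quotient.mk (sat (algebraMap C A a) (algebraMap C A u))
        (algebraMap C A u * x) = 0 := hm
    rw [Ideal.Quotient.eq_zero_iff_mem] at h1 ⊢
    exact of_mul_mem _ _ _ h1
  have kC : LinearMap.ker (LinearMap.lsmul C
      (A ⧸ sat (algebraMap C A a) (algebraMap C A u)) u) = ⊥ := by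
    rw [LinearMap.ker_eq_bot'] at kA ⊢
    intro m hm
    apply kA m
    rw [LinearMap.lsmul_apply] at hm ⊢
    rwa [algebraMap_smul]
  rw [lC_bot _ kA, zero_add, range_len] at dA
  rw [lC_bot _ kC, zero_add, dA] at dC
  have eA : ∀ P ∈ V, lC (Localization.AtPrime P.asIdeal) (LocalizedModule P.asIdeal.primeCompl
      (A ⧸ sat (algebraMap C A a) (algebraMap C A u))) =
      len (Ideal.span {algebraMap C A a}) P := by
    intro P hP
    rw [← len_eq]
    unfold lC
    congr 1
    symm
    refine loc_len P.asIdeal.primeCompl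
      (Submodule.factor (show Ideal.span {algebraMap C A a} ≤
        sat (algebraMap C A a) (algebraMap C A u) from
        (Ideal.span_singleton_le_iff_mem _).2 (self_mem _ _))) ?_ ?_
    · intro m hm
      obtain ⟨x, rfl⟩ := Ideal.Quotient.mk_surjective m
      have h1 : Ideal.Quotient.mk (sat (algebraMap C A a) (algebraMap C A u)) x = 0 := hm
      rw [Ideal.Quotient.eq_zero_iff_mem] at h1
      obtain ⟨n, hn⟩ := (mem_sat _ _ _).1 h1
      refine ⟨algebraMap C A u ^ n, Submonoid.pow_mem _ ((hV P).1 hP).2.2 n, ?_⟩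
      exact Ideal.Quotient.eq_zero_iff_mem.2 hn
    · intro n
      obtain ⟨x, rfl⟩ := Ideal.Quotient.mk_surjective n
      exact ⟨1, Submonoid.one_mem _, Ideal.Quotient.mk _ x, by rw [one_smul]; rfl⟩
  have eC : ∀ z ∈ Z, lC (Localization.AtPrime z.asIdeal) (LocalizedModule z.asIdeal.primeCompl
      (A ⧸ sat (algebraMap C A a) (algebraMap C A u))) = len (Ideal.span {a}) z := by
    intro z hz
    rw [← at_z hDEV (A := A) (K := K) z (h7 z ((hZ z).1 hz).1) a ha]
    unfold lC
    congr 1
    symm
    refine loc_len z.asIdeal.primeCompl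
      (Submodule.liftQ (LinearMap.range (LinearMap.lsmul C A a))
        ((Submodule.mkQ (sat (algebraMap C A a) (algebraMap C A u))).restrictScalars C) ?_) ?_ ?_
    · rintro _ ⟨x, rfl⟩
      have h1 : Ideal.Quotient.mk (sat (algebraMap C A a) (algebraMap C A u)) (a • x) = 0 := by
        rw [Ideal.Quotient.eq_zero_iff_mem, Algebra.smul_def]
        exact Ideal.mul_mem_right _ _ (self_mem _ _)
      exact h1
    · intro m hm
      obtain ⟨x, rfl⟩ := Submodule.mkQ_surjective _ m
      have h1 : Ideal.Quotient.mk (sat (algebraMap C A a) (algebraMap C A u)) x = 0 := hm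
      rw [Ideal.Quotient.eq_zero_iff_mem] at h1
      obtain ⟨n, hn⟩ := (mem_sat _ _ _).1 h1
      refine ⟨u ^ n, Submonoid.pow_mem _ ((hZ z).1 hz).2.2 n, ?_⟩
      rw [← map_smul, Submodule.mkQ_apply, Submodule.Quotient.mk_eq_zero]
      obtain ⟨y, hy⟩ := Ideal.mem_span_singleton'.1 hn
      refine ⟨y, ?_⟩
      rw [LinearMap.lsmul_apply, Algebra.smul_def, Algebra.smul_def, map_pow, ← hy, mul_comm]
    · intro n
      obtain ⟨x, rfl⟩ := Ideal.Quotient.mk_surjective n
      exact ⟨1, Submonoid.one_mem _, Submodule.Quotient.mk x, by rw [one_smul]; rfl⟩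
  have s1 : ∑ P ∈ V, len (Ideal.span {algebraMap C A a}) P *
      lC C (A ⧸ (P.asIdeal ⊔ Ideal.span {algebraMap C A u})) =
      ∑ P ∈ V, lC (Localization.AtPrime P.asIdeal) (LocalizedModule P.asIdeal.primeCompl
        (A ⧸ sat (algebraMap C A a) (algebraMap C A u))) *
        lC C (A ⧸ (P.asIdeal ⊔ Ideal.span {algebraMap C A u})) :=
    Finset.sum_congr rfl fun P hP => by rw [eA P hP]
  have s2 : ∑ z ∈ Z, len (Ideal.span {a}) z * lC C (C ⧸ (z.asIdeal ⊔ Ideal.span {u})) =
      ∑ z ∈ Z, lC (Localization.AtPrime z.asIdeal) (LocalizedModule z.asIdeal.primeCompl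
        (A ⧸ sat (algebraMap C A a) (algebraMap C A u))) *
        lC C (C ⧸ (z.asIdeal ⊔ Ideal.span {u})) :=
    Finset.sum_congr rfl fun z hz => by rw [eC z hz]
  rw [s1, s2]
  exact dC

end CUB
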