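import Pool.Agent.CUB.StmtsR

/-!
# CUB R: the main theorem on the specialisation at infinity
-/

set_option autoImplicit false

open Polynomial

namespace CUB

namespace R

/-- The length of the zero ring is zero. -/
lemma len_top {A : Type} [CommRing A] (p : PrimeSpectrum A) : len (⊤ : Ideal A) p = 0 := by
  unfold len
  have h : Subsingleton (Localization.AtPrime p.asIdeal ⧸
      (⊤ : Ideal A).map (algebraMap A (Localization.AtPrime p.asIdeal))) := by
    rw [Ideal.map_top]
    exact Ideal.Quotient.subsingleton_iff.mpr rfl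
  rw [Module.length_eq_zero]
  rfl

/-- The relation between `u` and `u'` is symmetric. -/
lemma symm_rel {K : Type} [Field K] (O : ValuationSubring K) {u u' : K} (hu : u ≠ 0)
    (hu' : u' ≠ 0) (h : u' / u - 1 = 0 ∨ (u' / u - 1)⁻¹ ∉ O) :
    u / u' - 1 = 0 ∨ (u / u' - 1)⁻¹ ∉ O := by
  rcases eq_or_ne (u' / u - 1) 0 with h0 | h0
  · left
    have h1 : u' = u := by
      rw [sub_eq_zero, div_eq_one_iff_eq hu] at h0
      exact h0
    rw [h1, div_self hu, sub_self]
  · right
    have h1 : (u' / u - 1)⁻¹ ∉ O := h.resolve_left h0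
    intro h2
    apply h1
    have h3 : u' - u ≠ 0 := by
      intro h4
      apply h0
      rw [sub_eq_zero] at h4
      rw [h4, div_self hu, sub_self]
    have h5 : (u' / u - 1)⁻¹ = -((u / u' - 1)⁻¹) - 1 := by
      have h6 : u' / u - 1 = (u' - u) / u := by field_simp
      have h7 : u / u' - 1 = -((u' - u) / u') := by field_simp; ring
      rw [h6, h7, inv_neg, neg_neg, inv_div, inv_div]
      field_simp
      ring
    rw [h5]
    exact sub_mem (neg_mem h2) (one_mem _)

end R

theorem t_R : M_R := by
  intro hLENC hINFA hTDU hTDF hTDE k R K E _ _ _ _ _ _ _ _ n θ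
  classical
  refine ⟨fun O a u => if h : ∃ d, IsTD E θ O a u d then h.choose else (0 : RP k R n →₀ E),
    ?_, ?_, ?_⟩
  · intro O a u I hI
    beta_reduce
    by_cases h : ∃ d : RP k R n →₀ E, IsTD E θ O a u d
    · rw [dif_pos h]
      exact (hTDU k R K E n θ O a u h.choose h.choose_spec).2.2 I hI
    · rw [dif_neg h]
      exact zero_mem _
  · intro O a u u' hu hu' h
    have key : ∀ d : RP k R n →₀ E, IsTD E θ O a u d ↔ IsTD E θ O a u' d := by
      intro d
      constructor
      · intro hd
        exact (hTDU k R K E n θ O a u d hd).2.1 u' hu hu' h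
      · intro hd
        exact (hTDU k R K E n θ O a u' d hd).2.1 u hu' hu (CUB.R.symm_rel O hu hu' h)
    beta_reduce
    by_cases h1 : ∃ d : RP k R n →₀ E, IsTD E θ O a u d
    · have h2 : ∃ d : RP k R n →₀ E, IsTD E θ O a u' d := h1.imp fun d hd => (key d).1 hd
      rw [dif_pos h1, dif_pos h2]
      exact (hTDU k R K E n θ O a u h1.choose h1.choose_spec).1 _
        ((key h2.choose).2 h2.choose_spec)
    · have h2 : ¬ ∃ d : RP k R n →₀ E, IsTD E θ O a u' d := fun h2 =>
        h1 (h2.imp fun d hd => (key d).2 hd)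
      rw [dif_neg h1, dif_neg h2]
  · intro s P q c d hfr hq hP hc hd
    rcases eq_or_ne s 0 with hs | hs
    · subst hs
      have hV : VV n θ (0 : K) = ∅ := by
        ext O
        simp only [Set.mem_empty_iff_false, iff_false]
        intro hO
        exact hO.1 (zero_mem _)
      refine ⟨by rw [hV]; exact Set.finite_empty, ?_⟩
      have hd0 : d = 0 := by
        refine Finsupp.ext fun p => ?_
        rw [hd p, Finsupp.zero_apply]
        refine Finset.sum_eq_zero fun z hz => ?_
        have hcz : c z ≠ 0 := Finsupp.mem_support_iff.1 hz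
        have h1 : len (q.1.asIdeal ⊔ Ideal.span {P}) z.1 ≠ 0 := by
          intro h1
          apply hcz
          rw [hc z, h1, Nat.cast_zero]
        have h2 : q.1.asIdeal ≤ z.1.asIdeal := ((hLENC k R[X] (n + 1) q z).2.1 P h1).1
        have hX : (X : R[X]) ∈ z.1.asIdeal := by
          apply h2
          rw [hq]
          exact evs_X θ (0 : K)
        have h3 : bet z.1.asIdeal p.1 = 0 := by
          unfold bet
          rw [hINFA.2.1 R z.1.asIdeal hX, top_sup_eq]
          exact CUB.R.len_top _
        show c z * (bet z.1.asIdeal p.1 : E) = 0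
        rw [h3, Nat.cast_zero, mul_zero]
      rw [hd0]
      symm
      apply Finset.sum_eq_zero
      intro O hO
      rw [Set.Finite.mem_toFinset, hV] at hO
      exact absurd hO (Set.notMem_empty O)
    · obtain ⟨h, hD⟩ := hTDF k R K E n θ s P q c d hs hfr hq hP hc hd
      refine ⟨h, hD _ ?_⟩
      intro O hO
      have ha : evs θ s P ≠ 0 := by
        intro h0
        apply hP
        rw [hq]
        exact h0
      have h1 : ∃ d : RP k R n →₀ E, IsTD E θ O (evs θ s P) s⁻¹ d :=
        hTDE k R K E n θ s q hs hfr hq O hO (evs θ s P) ha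
      show IsTD E θ O (evs θ s P) s⁻¹ (if h : ∃ d, IsTD E θ O (evs θ s P) s⁻¹ d then h.choose
        else (0 : RP k R n →₀ E))
      rw [dif_pos h1]
      exact h1.choose_spec

end CUB
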