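import Pool.Agent.CUB.StmtsR

/-!
# REC: reciprocity on a two-dimensional local domain
-/

set_option autoImplicit false

open Polynomial

namespace CUB

namespace REC

section Loc

variable {A K : Type} [CommRing A] [IsDomain A] [Field K] [Algebra A K] [IsFractionRing A K]
  {p : PrimeSpectrum A} {O : ValuationSubring K}

lemma am_ne {a : A} (h : a ≠ 0) : algebraMap A K a ≠ 0 :=
  (map_ne_zero_iff _ (IsFractionRing.injective A K)).2 h

lemma un_of_not (hO : IsLocO p.asIdeal O) {x : A} (hx : x ∉ p.asIdeal) :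
    IsUn O (algebraMap A K x) := by
  have hx0 : x ≠ 0 := fun h => hx (h ▸ p.asIdeal.zero_mem)
  have h1 : (1 : A) ∉ p.asIdeal := fun h => p.isPrime.ne_top ((Ideal.eq_top_iff_one _).2 h)
  have hw : algebraMap A K x ≠ 0 := am_ne hx0
  refine ⟨hw, (hO _).2 ⟨x, 1, h1, by rw [map_one, mul_one]⟩, (hO _).2 ⟨1, x, hx, ?_⟩⟩
  rw [map_one]
  exact inv_mul_cancel₀ hw

lemma locO_unique {O' : ValuationSubring K} (h : IsLocO p.asIdeal O)
    (h' : IsLocO p.asIdeal O') : O' = O := by
  ext x
  exact (h' x).trans (h x).symm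

end Loc

lemma lC_one (C A : Type) [CommRing C] [CommRing A] [Algebra C A] (I : Ideal A) :
    lC C (A ⧸ (I ⊔ Ideal.span {(1 : A)})) = 0 := by
  have h : I ⊔ Ideal.span {(1 : A)} = ⊤ := by
    rw [Ideal.span_singleton_one, sup_top_eq]
  have h1 : Subsingleton (A ⧸ (I ⊔ Ideal.span {(1 : A)})) :=
    Ideal.Quotient.subsingleton_iff.2 h
  have h2 : Module.length C (A ⧸ (I ⊔ Ideal.span {(1 : A)})) = 0 :=
    Module.length_eq_zero_iff.2 h1
  rw [lC, h2]
  rfl

lemma lC_pow (C A : Type) [CommRing C] [CommRing A] [Algebra C A] (p : PrimeSpectrum A)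
    (hadd : ∀ x y, x ∉ p.asIdeal → y ∉ p.asIdeal →
      lC C (A ⧸ (p.asIdeal ⊔ Ideal.span {x * y})) =
      lC C (A ⧸ (p.asIdeal ⊔ Ideal.span {x})) + lC C (A ⧸ (p.asIdeal ⊔ Ideal.span {y})))
    (x : A) (hx : x ∉ p.asIdeal) (n : ℕ) :
    lC C (A ⧸ (p.asIdeal ⊔ Ideal.span {x ^ n})) =
      n * lC C (A ⧸ (p.asIdeal ⊔ Ideal.span {x})) := by
  induction n with
  | zero => rw [pow_zero, lC_one, zero_mul]
  | succ n ih =>
    rw [pow_succ, hadd _ _ (fun h => hx (p.isPrime.mem_of_pow_mem _ h)) hx, ih]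
    ring

end REC

open REC in
theorem t_REC : M_REC := by
  intro hHHA hVC1 hVC2 hTAME hPC
  intro C A K _ _ _ _ _ _ _ _ _ _ _ hs a u ha hu O W Z X Y hO hW hZ hXY
  classical
  have := hs.frC
  have := hs.frA
  have := hs.ic
  obtain ⟨hN, -, hht, hfin, -, hadd, -, -, -⟩ := hHHA C A K hs
  have := hN
  have ha' : algebraMap C K a ≠ 0 := (map_ne_zero_iff _ (IsFractionRing.injective C K)).2 ha
  have hu' : algebraMap C K u ≠ 0 := (map_ne_zero_iff _ (IsFractionRing.injective C K)).2 hu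
  have hae : algebraMap C K a = algebraMap A K (algebraMap C A a) :=
    IsScalarTower.algebraMap_apply C A K a
  have hue : algebraMap C K u = algebraMap A K (algebraMap C A u) :=
    IsScalarTower.algebraMap_apply C A K u
  have haA : algebraMap C A a ≠ 0 := by
    intro h
    rw [hae, h, map_zero] at ha'
    exact ha' rfl
  -- the primes containing `a` and not `u`
  have hVf : {p | p ∈ HH A ∧ algebraMap C A a ∈ p.asIdeal ∧
      algebraMap C A u ∉ p.asIdeal}.Finite :=
    (hfin _ haA).subset fun p hp => ⟨hp.1, hp.2.1⟩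
  set V := hVf.toFinset with hVdef
  have hV : ∀ p, p ∈ V ↔ p ∈ HH A ∧ algebraMap C A a ∈ p.asIdeal ∧
      algebraMap C A u ∉ p.asIdeal := by
    intro p
    rw [hVdef, Set.Finite.mem_toFinset]
    rfl
  have hdisj : Disjoint V W := by
    rw [Finset.disjoint_left]
    intro p h1 h2
    exact ((hV p).1 h1).2.2 ((hW p).1 h2).2
  have key := hTAME C A K hs (algebraMap C K a) (algebraMap C K u) ha' hu' O (V ∪ W)
    (fun p => if p ∈ W then X p else 1)
    (fun p => if p ∈ W then Y p else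
      (algebraMap C A u) ^ (len (Ideal.span {algebraMap C A a}) p)) hO
    (by
      intro p hp
      rcases Finset.mem_union.1 hp with h | h
      · exact ((hV p).1 h).1
      · exact ((hW p).1 h).1)
    (by
      intro p hp h
      by_contra hn
      rw [Finset.mem_union, not_or] at hn
      have h2 : algebraMap C A u ∉ p.asIdeal := fun h2 => hn.2 ((hW p).2 ⟨hp, h2⟩)
      have h1 : algebraMap C A a ∉ p.asIdeal := fun h1 => hn.1 ((hV p).2 ⟨hp, h1, h2⟩)
      rcases h with h | h
      · apply h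
        rw [hae]
        exact un_of_not (hO p hp) h1
      · apply h
        rw [hue]
        exact un_of_not (hO p hp) h2)
    (by
      intro p hp
      by_cases hpW : p ∈ W
      · rw [if_pos hpW, if_pos hpW]
        exact hXY p hpW
      · rw [if_neg hpW, if_neg hpW]
        have hpV : p ∈ V := (Finset.mem_union.1 hp).resolve_right hpW
        obtain ⟨hH, h1, h2⟩ := (hV p).1 hpV
        refine ⟨fun h => p.isPrime.ne_top ((Ideal.eq_top_iff_one _).2 h),
          fun h => h2 (p.isPrime.mem_of_pow_mem _ h), ?_⟩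
        obtain ⟨O', hO', ⟨π, hπ⟩, hall⟩ := hVC1 A K p hH.1 (hht p hH)
        have hOO : O' = O p := locO_unique (hO p hH) hO'
        subst hOO
        obtain ⟨-, h4⟩ := hall _ hπ
        obtain ⟨α, hα, h5⟩ := h4 _ haA
        refine ⟨algebraMap A K π, α, algebraMap A K (algebraMap C A u),
          ((len (Ideal.span {algebraMap C A a}) p : ℕ) : ℤ), 0, hπ, hα,
          un_of_not (hO p hH) h2, ?_, ?_, ?_⟩
        · rw [hae]
          exact h5
        · rw [hue, zpow_zero, mul_one]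
        · rw [zpow_zero, one_mul, zpow_neg, zpow_natCast, map_one, map_pow, one_div, hue])
  have hPC' := hPC C A K hs a u ha hu V Z hV hZ
  rw [Finset.sum_union hdisj] at key
  have e1 : ∑ p ∈ V, ((lC C (A ⧸ (p.asIdeal ⊔ Ideal.span
        {(if p ∈ W then X p else 1 : A)})) : ℤ) -
      lC C (A ⧸ (p.asIdeal ⊔ Ideal.span {(if p ∈ W then Y p else
        (algebraMap C A u) ^ (len (Ideal.span {algebraMap C A a}) p) : A)}))) =
      - ∑ p ∈ V, ((len (Ideal.span {algebraMap C A a}) p : ℤ) *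
        lC C (A ⧸ (p.asIdeal ⊔ Ideal.span {algebraMap C A u}))) := by
    rw [← Finset.sum_neg_distrib]
    apply Finset.sum_congr rfl
    intro p hp
    have hpW : p ∉ W := fun h => (Finset.disjoint_left.1 hdisj) hp h
    obtain ⟨hH, h1, h2⟩ := (hV p).1 hp
    rw [if_neg hpW, if_neg hpW, lC_one, lC_pow C A p (hadd p hH) _ h2]
    push_cast
    ring
  have e2 : ∑ p ∈ W, ((lC C (A ⧸ (p.asIdeal ⊔ Ideal.span
        {(if p ∈ W then X p else 1 : A)})) : ℤ) -
      lC C (A ⧸ (p.asIdeal ⊔ Ideal.span {(if p ∈ W then Y p else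
        (algebraMap C A u) ^ (len (Ideal.span {algebraMap C A a}) p) : A)}))) =
      ∑ p ∈ W, ((lC C (A ⧸ (p.asIdeal ⊔ Ideal.span {X p})) : ℤ) -
      lC C (A ⧸ (p.asIdeal ⊔ Ideal.span {Y p}))) := by
    apply Finset.sum_congr rfl
    intro p hp
    rw [if_pos hp, if_pos hp]
  rw [e1, e2] at key
  have e3 : (∑ z ∈ Z, (len (Ideal.span {a}) z : ℤ) *
      lC C (C ⧸ (z.asIdeal ⊔ Ideal.span {u}))) =
      ∑ p ∈ V, ((len (Ideal.span {algebraMap C A a}) p : ℤ) *
        lC C (A ⧸ (p.asIdeal ⊔ Ideal.span {algebraMap C A u}))) := by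
    exact_mod_cast hPC'.symm
  rw [e3]
  linarith

end CUB
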