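import Pool.Agent.CUB.StmtsR

/-!
# TAME: the tame symbol lemma for a two-dimensional normal domain
-/

set_option autoImplicit false

open Polynomial

namespace CUB

namespace TAME

section Val

variable {K : Type} [Field K] {O : ValuationSubring K}

lemma un_one : IsUn O (1 : K) := ⟨one_ne_zero, O.one_mem, by rw [inv_one]; exact O.one_mem⟩

lemma un_mul {x y : K} (hx : IsUn O x) (hy : IsUn O y) : IsUn O (x * y) := by
  refine ⟨mul_ne_zero hx.1 hy.1, O.mul_mem _ _ hx.2.1 hy.2.1, ?_⟩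
  rw [mul_inv]
  exact O.mul_mem _ _ hx.2.2 hy.2.2

lemma un_inv {x : K} (hx : IsUn O x) : IsUn O x⁻¹ :=
  ⟨inv_ne_zero hx.1, hx.2.2, by rw [inv_inv]; exact hx.2.1⟩

lemma un_pow {x : K} (hx : IsUn O x) (n : ℕ) : IsUn O (x ^ n) := by
  induction n with
  | zero => rw [pow_zero]; exact un_one
  | succ n ih => rw [pow_succ]; exact un_mul ih hx

lemma un_zpow {x : K} (hx : IsUn O x) (n : ℤ) : IsUn O (x ^ n) := by
  cases n with
  | ofNat n => rw [Int.ofNat_eq_natCast, zpow_natCast]; exact un_pow hx n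
  | negSucc n => rw [zpow_negSucc]; exact un_inv (un_pow hx _)

lemma pow_succ_not {π : K} (hπ : IsUnif O π) (n : ℕ) : (π ^ (n + 1))⁻¹ ∉ O := by
  intro h
  apply hπ.2.2.1
  have h1 : π⁻¹ = (π ^ (n + 1))⁻¹ * π ^ n := by
    have h0 := hπ.2.1
    field_simp
    exact pow_succ' π n
  rw [h1]
  exact O.mul_mem _ _ h (pow_mem hπ.1 n)

lemma unif_zpow {π : K} (hπ : IsUnif O π) (n : ℤ) (h : IsUn O (π ^ n)) : n = 0 := by
  cases n with
  | ofNat n =>
    cases n with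
    | zero => rfl
    | succ n =>
      exfalso
      rw [Int.ofNat_eq_natCast, zpow_natCast] at h
      exact pow_succ_not hπ n h.2.2
  | negSucc n =>
    exfalso
    rw [zpow_negSucc] at h
    exact pow_succ_not hπ n h.2.1

lemma un_gamma {π π' : K} (hπ : IsUnif O π) (hπ' : IsUnif O π') : IsUn O (π' / π) := by
  refine ⟨div_ne_zero hπ'.2.1 hπ.2.1, hπ.2.2.2 π' hπ'.1 hπ'.2.2.1, ?_⟩
  rw [inv_div]
  exact hπ'.2.2.2 π hπ.1 hπ.2.2.1

lemma exp_unique {π π' α β : K} {i j : ℤ} (hπ : IsUnif O π) (hπ' : IsUnif O π')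
    (hα : IsUn O α) (hβ : IsUn O β) (h : α * π ^ i = β * π' ^ j) : i = j := by
  have h0 := hπ.2.1
  have h0' := hπ'.2.1
  have h1 : π ^ (i - j) = β * (π' / π) ^ j * α⁻¹ := by
    have ha := hα.1
    rw [zpow_sub₀ h0, div_zpow]
    have hj : π ^ j ≠ 0 := zpow_ne_zero _ h0
    field_simp
    rw [mul_comm (π ^ i) α]
    exact h
  have h2 : IsUn O (π ^ (i - j)) := by
    rw [h1]
    exact un_mul (un_mul hβ (un_zpow (un_gamma hπ hπ') j)) (un_inv hα)
  have h3 := unif_zpow hπ _ h2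
  omega

end Val

section Loc

variable {A K : Type} [CommRing A] [IsDomain A] [Field K] [Algebra A K] [IsFractionRing A K]
  {p : PrimeSpectrum A} {O : ValuationSubring K}

lemma am_ne {a : A} (h : a ≠ 0) : algebraMap A K a ≠ 0 :=
  (map_ne_zero_iff _ (IsFractionRing.injective A K)).2 h

lemma un_of_frac (hO : IsLocO p.asIdeal O) {w : K} {x y : A} (hx : x ∉ p.asIdeal)
    (hy : y ∉ p.asIdeal) (h : w * algebraMap A K y = algebraMap A K x) : IsUn O w := by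
  have hx0 : x ≠ 0 := fun h => hx (h ▸ p.asIdeal.zero_mem)
  have hy0 : y ≠ 0 := fun h => hy (h ▸ p.asIdeal.zero_mem)
  have hw : w ≠ 0 := by
    rintro rfl
    rw [zero_mul] at h
    exact am_ne (K := K) hx0 h.symm
  refine ⟨hw, (hO w).2 ⟨x, y, hy, h⟩, (hO _).2 ⟨y, x, hx, ?_⟩⟩
  rw [← h]
  field_simp

lemma un_of_not (hO : IsLocO p.asIdeal O) {x : A} (hx : x ∉ p.asIdeal) :
    IsUn O (algebraMap A K x) := by
  apply un_of_frac hO hx (y := 1)
  · exact fun h => p.isPrime.ne_top ((Ideal.eq_top_iff_one _).2 h)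
  · rw [map_one, mul_one]

lemma frac_of_un (hO : IsLocO p.asIdeal O) {w : K} (hw : IsUn O w) :
    ∃ x y : A, x ∉ p.asIdeal ∧ y ∉ p.asIdeal ∧ w * algebraMap A K y = algebraMap A K x := by
  obtain ⟨x, y, hy, h⟩ := (hO w).1 hw.2.1
  obtain ⟨x', y', hy', h'⟩ := (hO _).1 hw.2.2
  refine ⟨x, y, ?_, hy, h⟩
  intro hx
  have h1 : algebraMap A K (x * x') = algebraMap A K (y * y') := by
    rw [map_mul, map_mul, ← h, ← h']
    have := hw.1
    field_simp
  have h2 := IsFractionRing.injective A K h1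
  have h3 : y * y' ∈ p.asIdeal := h2 ▸ Ideal.mul_mem_right x' _ hx
  rcases p.isPrime.mem_or_mem h3 with h4 | h4
  · exact hy h4
  · exact hy' h4

lemma not_of_un (hO : IsLocO p.asIdeal O) {x : A} (hx : IsUn O (algebraMap A K x)) :
    x ∉ p.asIdeal := by
  intro h
  obtain ⟨a, b, hb, hab⟩ := (hO _).1 hx.2.2
  apply hb
  have h1 : algebraMap A K b = algebraMap A K (x * a) := by
    rw [map_mul, ← hab]
    have := hx.1
    field_simp
  rw [IsFractionRing.injective A K h1]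
  exact Ideal.mul_mem_right a _ h

/-- The local homomorphism `w ↦ length (A / (p + x)) - length (A / (p + y))`, `w = x / y`. -/
lemma exists_lam (C : Type) [CommRing C] [Algebra C A]
    (hadd : ∀ x y, x ∉ p.asIdeal → y ∉ p.asIdeal →
      lC C (A ⧸ (p.asIdeal ⊔ Ideal.span {x * y})) =
      lC C (A ⧸ (p.asIdeal ⊔ Ideal.span {x})) + lC C (A ⧸ (p.asIdeal ⊔ Ideal.span {y}))) :
    ∃ lam : K → ℤ, ∀ (w : K) (x y : A), x ∉ p.asIdeal → y ∉ p.asIdeal →
      w * algebraMap A K y = algebraMap A K x →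
      lam w = (lC C (A ⧸ (p.asIdeal ⊔ Ideal.span {x})) : ℤ) -
        lC C (A ⧸ (p.asIdeal ⊔ Ideal.span {y})) := by
  classical
  have key : ∀ (w : K), ∃ l : ℤ, ∀ x y : A, x ∉ p.asIdeal → y ∉ p.asIdeal →
      w * algebraMap A K y = algebraMap A K x →
      l = (lC C (A ⧸ (p.asIdeal ⊔ Ideal.span {x})) : ℤ) -
        lC C (A ⧸ (p.asIdeal ⊔ Ideal.span {y})) := by
    intro w
    by_cases hw : ∃ x y : A, x ∉ p.asIdeal ∧ y ∉ p.asIdeal ∧
        w * algebraMap A K y = algebraMap A K x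
    · obtain ⟨x₀, y₀, hx₀, hy₀, h₀⟩ := hw
      refine ⟨(lC C (A ⧸ (p.asIdeal ⊔ Ideal.span {x₀})) : ℤ) -
        lC C (A ⧸ (p.asIdeal ⊔ Ideal.span {y₀})), ?_⟩
      intro x y hx hy h
      have h1 : algebraMap A K (x₀ * y) = algebraMap A K (x * y₀) := by
        rw [map_mul, map_mul, ← h, ← h₀]
        ring
      have h2 := IsFractionRing.injective A K h1
      have h3 := hadd x₀ y hx₀ hy
      have h4 := hadd x y₀ hx hy₀
      rw [h2, h4] at h3
      have h5 : (lC C (A ⧸ (p.asIdeal ⊔ Ideal.span {x})) : ℤ) +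
          lC C (A ⧸ (p.asIdeal ⊔ Ideal.span {y₀})) =
          lC C (A ⧸ (p.asIdeal ⊔ Ideal.span {x₀})) +
          lC C (A ⧸ (p.asIdeal ⊔ Ideal.span {y})) := by exact_mod_cast h3
      linarith
    · refine ⟨0, ?_⟩
      intro x y hx hy h
      exact absurd ⟨x, y, hx, hy, h⟩ hw
  choose lam hlam using key
  exact ⟨lam, hlam⟩

end Loc

end TAME

open TAME in
theorem t_TAME : M_TAME := by
  classical
  intro hHHA hVC1 _ hAVO hDISJ hTAMEF C A K _ _ _ _ _ _ _ _ _ _ _ hS a b ha hb O W X Y hO hW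
    hW' hXY
  obtain ⟨hN, _, hmin, hfin, _, hadd, _, _, _⟩ := hHHA C A K hS
  have : IsFractionRing A K := hS.frA
  have : IsIntegrallyClosed A := hS.ic
  -- the places
  have hpl : ∀ p ∈ HH A, (∃ π : A, IsUnif (O p) (algebraMap A K π)) ∧
      ∀ π : K, IsUnif (O p) π →
        (∀ x : K, x ≠ 0 → ∃ (i : ℤ) (α : K), IsUn (O p) α ∧ x = α * π ^ i) ∧
        ∀ a : A, a ≠ 0 → ∃ α : K, IsUn (O p) α ∧
          algebraMap A K a = α * π ^ ((len (Ideal.span {a}) p : ℕ) : ℤ) := by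
    intro p hp
    obtain ⟨O', hO', h1, h2⟩ := hVC1 A K p hp.1 (hmin p hp)
    have he : O' = O p := by
      ext x
      rw [hO' x, hO p hp x]
    rw [he] at h1 h2
    exact ⟨h1, h2⟩
  have hv : ∀ h : {p // p ∈ HH A}, ∃ v : K → ℤ, ∀ x : K, x ≠ 0 → ∀ π : K,
      IsUnif (O h.1) π → ∃ α, IsUn (O h.1) α ∧ x = α * π ^ (v x) := by
    rintro ⟨p, hp⟩
    obtain ⟨⟨π₀, hπ₀⟩, h2⟩ := hpl p hp
    have hex : ∀ x : K, ∃ i : ℤ, x ≠ 0 → ∀ π : K, IsUnif (O p) π →
        ∃ α, IsUn (O p) α ∧ x = α * π ^ i := by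
      intro x
      by_cases hx : x = 0
      · exact ⟨0, fun h => absurd hx h⟩
      · obtain ⟨i, α, hα, he⟩ := (h2 _ hπ₀).1 x hx
        refine ⟨i, fun _ π hπ => ?_⟩
        refine ⟨α * (algebraMap A K π₀ / π) ^ i, un_mul hα (un_zpow (un_gamma hπ hπ₀) i), ?_⟩
        rw [he, mul_assoc, ← mul_zpow, div_mul_cancel₀ _ hπ.2.1]
    choose v hv using hex
    exact ⟨v, hv⟩
  choose v hv using hv
  have hvu : ∀ (h : {p // p ∈ HH A}) (x π α : K) (i : ℤ), x ≠ 0 → IsUnif (O h.1) π →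
      IsUn (O h.1) α → x = α * π ^ i → v h x = i := by
    intro h x π α i hx hπ hα he
    obtain ⟨β, hβ, hb⟩ := hv h x hx π hπ
    exact exp_unique hπ hπ hβ hα (hb.symm.trans he)
  have hlam : ∀ h : {p // p ∈ HH A}, ∃ lam : K → ℤ, ∀ (w : K) (x y : A),
      x ∉ h.1.asIdeal → y ∉ h.1.asIdeal → w * algebraMap A K y = algebraMap A K x →
      lam w = (lC C (A ⧸ (h.1.asIdeal ⊔ Ideal.span {x})) : ℤ) -
        lC C (A ⧸ (h.1.asIdeal ⊔ Ideal.span {y})) :=
    fun h => exists_lam C (hadd h.1 h.2)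
  choose lam hlam using hlam
  -- elementary properties
  have hv0 : ∀ (h : {p // p ∈ HH A}) (x : K), x ≠ 0 → (v h x = 0 ↔ IsUn (O h.1) x) := by
    intro h x hx
    obtain ⟨⟨π₀, hπ₀⟩, _⟩ := hpl h.1 h.2
    constructor
    · intro h0
      obtain ⟨α, hα, he⟩ := hv h x hx _ hπ₀
      rw [h0, zpow_zero, mul_one] at he
      rw [he]
      exact hα
    · intro hu
      exact hvu h x _ x 0 hx hπ₀ hu (by rw [zpow_zero, mul_one])
  have hvA : ∀ (h : {p // p ∈ HH A}) (x : A), x ≠ 0 →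
      v h (algebraMap A K x) = (len (Ideal.span {x}) h.1 : ℤ) := by
    intro h x hx
    obtain ⟨⟨π₀, hπ₀⟩, h2⟩ := hpl h.1 h.2
    obtain ⟨α, hα, he⟩ := (h2 _ hπ₀).2 x hx
    exact hvu h _ _ α _ (am_ne hx) hπ₀ hα he
  have hvA0 : ∀ (h : {p // p ∈ HH A}) (x : A), x ≠ 0 →
      (v h (algebraMap A K x) = 0 ↔ x ∉ h.1.asIdeal) := by
    intro h x hx
    rw [hv0 h _ (am_ne hx)]
    exact ⟨not_of_un (hO h.1 h.2), un_of_not (hO h.1 h.2)⟩
  have hone : ∀ h : {p // p ∈ HH A}, (1 : A) ∉ h.1.asIdeal :=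
    fun h h1 => h.1.isPrime.ne_top ((Ideal.eq_top_iff_one _).2 h1)
  have hlamA : ∀ (h : {p // p ∈ HH A}) (x : A), x ∉ h.1.asIdeal →
      lam h (algebraMap A K x) = (lC C (A ⧸ (h.1.asIdeal ⊔ Ideal.span {x})) : ℤ) := by
    intro h x hx
    have h1 := hlam h (algebraMap A K x) x 1 hx (hone h) (by rw [map_one, mul_one])
    have h2 : lC C (A ⧸ (h.1.asIdeal ⊔ Ideal.span {(1 : A)})) = 0 := by
      have h3 := hadd h.1 h.2 1 1 (hone h) (hone h)
      rw [mul_one] at h3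
      omega
    rw [h1, h2]
    simp
  have main := hTAMEF K {p // p ∈ HH A} v lam {x | ∃ a : A, a ≠ 0 ∧ x = algebraMap A K a}
    ?_ ?_ ?_ ?_ ?_ ?_ a b ha hb
  · -- the conclusion
    let e : {p // p ∈ W} ↪ {p // p ∈ HH A} :=
      ⟨fun p => ⟨p.1, hW p.1 p.2⟩, fun p q h => Subtype.ext (congrArg (fun z => z.1) h)⟩
    have h1 := main (W.attach.map e) (by
      intro h hh
      rw [Finset.mem_map]
      refine ⟨⟨h.1, hW' h.1 h.2 ?_⟩, Finset.mem_attach _ _, rfl⟩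
      rcases hh with hh | hh
      · left; intro hu; exact hh ((hv0 h a ha).2 hu)
      · right; intro hu; exact hh ((hv0 h b hb).2 hu))
    rw [Finset.sum_map] at h1
    rw [← Finset.sum_attach, ← h1]
    apply Finset.sum_congr rfl
    intro p _
    obtain ⟨hX, hY, π, α, β, i, j, hπ, hα, hβ, hai, hbj, hw⟩ := hXY p.1 p.2
    have hi : v (e p) a = i := hvu (e p) a π α i ha hπ hα hai
    have hj : v (e p) b = j := hvu (e p) b π β j hb hπ hβ hbj
    rw [hi, hj]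
    symm
    apply hlam (e p) _ _ _ hX hY
    rw [← hw]
    have hY0 : Y p.1 ≠ 0 := fun h => hY (h ▸ p.1.asIdeal.zero_mem)
    exact div_mul_cancel₀ _ (am_ne hY0)
  · -- valuations are homomorphisms
    intro h x y hx hy
    obtain ⟨⟨π₀, hπ₀⟩, _⟩ := hpl h.1 h.2
    obtain ⟨α, hα, he⟩ := hv h x hx _ hπ₀
    obtain ⟨β, hβ, hf⟩ := hv h y hy _ hπ₀
    apply hvu h (x * y) _ (α * β) _ (mul_ne_zero hx hy) hπ₀ (un_mul hα hβ)
    rw [zpow_add₀ hπ₀.2.1]
    calc x * y = (α * algebraMap A K π₀ ^ v h x) * (β * algebraMap A K π₀ ^ v h y) := by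
          rw [← he, ← hf]
      _ = _ := by ring
  · intro h x y hx hy hx0 hy0
    obtain ⟨x₁, x₂, hx1, hx2, hxe⟩ := frac_of_un (hO h.1 h.2) ((hv0 h x hx).1 hx0)
    obtain ⟨y₁, y₂, hy1, hy2, hye⟩ := frac_of_un (hO h.1 h.2) ((hv0 h y hy).1 hy0)
    have hn : ∀ s t : A, s ∉ h.1.asIdeal → t ∉ h.1.asIdeal → s * t ∉ h.1.asIdeal := by
      intro s t hs ht hst
      rcases h.1.isPrime.mem_or_mem hst with h4 | h4
      · exact hs h4
      · exact ht h4
    rw [hlam h (x * y) (x₁ * y₁) (x₂ * y₂) (hn _ _ hx1 hy1) (hn _ _ hx2 hy2)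
      (by rw [map_mul, map_mul, ← hxe, ← hye]; ring), hlam h x x₁ x₂ hx1 hx2 hxe,
      hlam h y y₁ y₂ hy1 hy2 hye, hadd h.1 h.2 _ _ hx1 hy1, hadd h.1 h.2 _ _ hx2 hy2]
    push_cast
    ring
  · rintro x ⟨c, hc, rfl⟩
    refine ⟨am_ne hc, fun h => ?_, ?_⟩
    · rw [hvA h c hc]
      exact Int.natCast_nonneg _
    · have hf := hfin c hc
      refine Set.Finite.of_finite_image (f := fun h => h.1) (hf.subset ?_)
        Subtype.val_injective.injOn
      rintro _ ⟨h, hh, rfl⟩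
      refine ⟨h.2, ?_⟩
      by_contra hcon
      exact hh ((hvA0 h c hc).2 hcon)
  · intro S h hh
    obtain ⟨h1, _⟩ := hAVO A K (S.map ⟨fun h => h.1, Subtype.val_injective⟩) O (by
      intro p hp
      rw [Finset.mem_map] at hp
      obtain ⟨q, _, rfl⟩ := hp
      exact ⟨q.2.1, hmin _ q.2, hO _ q.2⟩)
    obtain ⟨π, hπ, hπ'⟩ := h1 h.1 (Finset.mem_map.2 ⟨h, hh, rfl⟩)
    have hπ0 : π ≠ 0 := by
      rintro rfl
      exact hπ.2.1 (map_zero _)
    refine ⟨algebraMap A K π, ⟨π, hπ0, rfl⟩, ?_, ?_⟩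
    · exact hvu h _ _ 1 1 (am_ne hπ0) hπ un_one (by rw [one_mul, zpow_one])
    · intro h' hh' hne
      rw [hvA0 h' π hπ0]
      apply hπ' h'.1 (Finset.mem_map.2 ⟨h', hh', rfl⟩)
      exact fun h => hne (Subtype.ext h)
  · intro w S hw hS0
    rcases S.eq_empty_or_nonempty with rfl | hne
    · obtain ⟨x, y, hy, hxy⟩ := IsFractionRing.div_surjective (A := A) w
      have hy0 : y ≠ 0 := nonZeroDivisors.ne_zero hy
      have hx0 : x ≠ 0 := by
        rintro rfl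
        rw [map_zero, zero_div] at hxy
        exact hw hxy.symm
      refine ⟨algebraMap A K x, ⟨x, hx0, rfl⟩, algebraMap A K y, ⟨y, hy0, rfl⟩, ?_, ?_⟩
      · rw [← hxy]
        exact div_mul_cancel₀ _ (am_ne hy0)
      · intro h hh
        exact absurd hh (Finset.notMem_empty h)
    · obtain ⟨_, h2⟩ := hAVO A K (S.map ⟨fun h => h.1, Subtype.val_injective⟩) O (by
        intro p hp
        rw [Finset.mem_map] at hp
        obtain ⟨q, _, rfl⟩ := hp
        exact ⟨q.2.1, hmin _ q.2, hO _ q.2⟩)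
      obtain ⟨c₁, c₂, hc, hc'⟩ := h2 w hw (by
        intro p hp
        rw [Finset.mem_map] at hp
        obtain ⟨q, hq, rfl⟩ := hp
        exact (hv0 q w hw).1 (hS0 q hq))
      obtain ⟨h0, hh0⟩ := hne
      have h3 := hc' h0.1 (Finset.mem_map.2 ⟨h0, hh0, rfl⟩)
      have hc10 : c₁ ≠ 0 := fun h => h3.1 (h ▸ h0.1.asIdeal.zero_mem)
      have hc20 : c₂ ≠ 0 := fun h => h3.2 (h ▸ h0.1.asIdeal.zero_mem)
      refine ⟨algebraMap A K c₁, ⟨c₁, hc10, rfl⟩, algebraMap A K c₂, ⟨c₂, hc20, rfl⟩, hc, ?_⟩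
      intro h hh
      have h4 := hc' h.1 (Finset.mem_map.2 ⟨h, hh, rfl⟩)
      exact ⟨(hvA0 h c₁ hc10).2 h4.1, (hvA0 h c₂ hc20).2 h4.2⟩
  · rintro _ ⟨x, hx, rfl⟩ _ ⟨y, hy, rfl⟩ hdis S hSS
    have h1 := hDISJ C A K hS x y hx hy (by
      intro p hp hxp hyp
      rcases hdis ⟨p, hp⟩ with h | h
      · exact (hvA0 ⟨p, hp⟩ x hx).1 h hxp
      · exact (hvA0 ⟨p, hp⟩ y hy).1 h hyp) (S.map ⟨fun h => h.1, Subtype.val_injective⟩)
      (by
        intro p hp
        rw [Finset.mem_map] at hp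
        obtain ⟨q, _, rfl⟩ := hp
        exact q.2)
      (by
        intro p hp hxy
        refine Finset.mem_map.2 ⟨⟨p, hp⟩, hSS _ ?_, rfl⟩
        rcases hxy with h | h
        · left; intro h0; exact (hvA0 ⟨p, hp⟩ x hx).1 h0 h
        · right; intro h0; exact (hvA0 ⟨p, hp⟩ y hy).1 h0 h)
    rw [Finset.sum_map, Finset.sum_map] at h1
    have h2 : ∀ h ∈ S, v h (algebraMap A K y) * lam h (algebraMap A K x) -
        v h (algebraMap A K x) * lam h (algebraMap A K y) =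
        ((len (Ideal.span {y}) h.1 * lC C (A ⧸ (h.1.asIdeal ⊔ Ideal.span {x})) : ℕ) : ℤ) -
        ((len (Ideal.span {x}) h.1 * lC C (A ⧸ (h.1.asIdeal ⊔ Ideal.span {y})) : ℕ) : ℤ) := by
      intro h _
      rcases hdis h with h0 | h0
      · have h3 := hlamA h x ((hvA0 h x hx).1 h0)
        have h4 := hvA h x hx
        rw [h0] at h4
        have h5 : len (Ideal.span {x}) h.1 = 0 := by exact_mod_cast h4.symm
        rw [h3, h0, hvA h y hy, h5]
        push_cast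
        ring
      · have h3 := hlamA h y ((hvA0 h y hy).1 h0)
        have h4 := hvA h y hy
        rw [h0] at h4
        have h5 : len (Ideal.span {y}) h.1 = 0 := by exact_mod_cast h4.symm
        rw [h3, h0, hvA h x hx, h5]
        push_cast
        ring
    rw [Finset.sum_congr rfl h2, Finset.sum_sub_distrib, ← Nat.cast_sum, ← Nat.cast_sum, sub_eq_zero]
    have h3 : ∑ h ∈ S, len (Ideal.span {y}) h.1 * lC C (A ⧸ (h.1.asIdeal ⊔ Ideal.span {x})) =
        ∑ h ∈ S, len (Ideal.span {x}) h.1 * lC C (A ⧸ (h.1.asIdeal ⊔ Ideal.span {y})) :=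
      h1.symm
    rw [h3]

end CUB
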