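import Pool.Agent.CUB.StmtsR

/-!
# CUB, block R: the formal lemma on tame symbols (TAMEF)
-/

set_option autoImplicit false

namespace CUB

namespace TAMEF

/-- The hypotheses of `S_TAMEF`. -/
structure Dat {K H : Type} [Field K] (v lam : H → K → ℤ) (A0 : Set K) : Prop where
  vm : ∀ h a b, a ≠ 0 → b ≠ 0 → v h (a * b) = v h a + v h b
  lm : ∀ h a b, a ≠ 0 → b ≠ 0 → v h a = 0 → v h b = 0 → lam h (a * b) = lam h a + lam h b
  ef : ∀ a ∈ A0, a ≠ 0 ∧ (∀ h, 0 ≤ v h a) ∧ {h | v h a ≠ 0}.Finite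
  appr : ∀ (S : Finset H), ∀ h ∈ S, ∃ π ∈ A0, v h π = 1 ∧ ∀ h' ∈ S, h' ≠ h → v h' π = 0
  frac : ∀ (w : K) (S : Finset H), w ≠ 0 → (∀ h ∈ S, v h w = 0) → ∃ c₁ ∈ A0, ∃ c₂ ∈ A0,
    w * c₂ = c₁ ∧ ∀ h ∈ S, v h c₁ = 0 ∧ v h c₂ = 0
  disj : ∀ a ∈ A0, ∀ b ∈ A0, (∀ h, v h a = 0 ∨ v h b = 0) → ∀ S : Finset H,
    (∀ h, v h a ≠ 0 ∨ v h b ≠ 0 → h ∈ S) → ∑ h ∈ S, (v h b * lam h a - v h a * lam h b) = 0

variable {K H : Type} [Field K] {v lam : H → K → ℤ} {A0 : Set K}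

theorem v_one (D : Dat v lam A0) (h : H) : v h 1 = 0 := by
  have := D.vm h 1 1 one_ne_zero one_ne_zero
  rw [mul_one] at this
  omega

theorem v_inv (D : Dat v lam A0) (h : H) {a : K} (ha : a ≠ 0) : v h a⁻¹ = - v h a := by
  have := D.vm h a a⁻¹ ha (inv_ne_zero ha)
  rw [mul_inv_cancel₀ ha, v_one D] at this
  omega

theorem v_pow (D : Dat v lam A0) (h : H) {a : K} (ha : a ≠ 0) (n : ℕ) :
    v h (a ^ n) = n * v h a := by
  induction n with
  | zero => simp [v_one D]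
  | succ n ih =>
    rw [pow_succ, D.vm h _ _ (pow_ne_zero n ha) ha, ih]
    push_cast
    ring

theorem v_zpow (D : Dat v lam A0) (h : H) {a : K} (ha : a ≠ 0) (n : ℤ) :
    v h (a ^ n) = n * v h a := by
  obtain ⟨m, rfl | rfl⟩ := n.eq_nat_or_neg
  · rw [zpow_natCast, v_pow D h ha]
  · rw [zpow_neg, zpow_natCast, v_inv D h (pow_ne_zero m ha), v_pow D h ha]
    ring

theorem l_one (D : Dat v lam A0) (h : H) : lam h 1 = 0 := by
  have := D.lm h 1 1 one_ne_zero one_ne_zero (v_one D h) (v_one D h)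
  rw [mul_one] at this
  omega

theorem l_inv (D : Dat v lam A0) (h : H) {a : K} (ha : a ≠ 0) (hv : v h a = 0) :
    lam h a⁻¹ = - lam h a := by
  have := D.lm h a a⁻¹ ha (inv_ne_zero ha) hv (by rw [v_inv D h ha, hv, neg_zero])
  rw [mul_inv_cancel₀ ha, l_one D] at this
  omega

theorem l_pow (D : Dat v lam A0) (h : H) {a : K} (ha : a ≠ 0) (hv : v h a = 0) (n : ℕ) :
    lam h (a ^ n) = n * lam h a := by
  induction n with
  | zero => simp [l_one D]
  | succ n ih =>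
    rw [pow_succ, D.lm h _ _ (pow_ne_zero n ha) ha (by rw [v_pow D h ha, hv, mul_zero]) hv, ih]
    push_cast
    ring

theorem l_zpow (D : Dat v lam A0) (h : H) {a : K} (ha : a ≠ 0) (hv : v h a = 0) (n : ℤ) :
    lam h (a ^ n) = n * lam h a := by
  obtain ⟨m, rfl | rfl⟩ := n.eq_nat_or_neg
  · rw [zpow_natCast, l_pow D h ha hv]
  · rw [zpow_neg, zpow_natCast, l_inv D h (pow_ne_zero m ha) (by rw [v_pow D h ha, hv, mul_zero]),
      l_pow D h ha hv]
    ring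

/-- The local term. -/
def g (v lam : H → K → ℤ) (a b : K) (h : H) : ℤ := lam h (a ^ v h b * b ^ (-v h a))

theorem t_ne {a b : K} (ha : a ≠ 0) (hb : b ≠ 0) (m n : ℤ) : a ^ m * b ^ n ≠ 0 :=
  mul_ne_zero (zpow_ne_zero _ ha) (zpow_ne_zero _ hb)

theorem v_t (D : Dat v lam A0) (h : H) {a b : K} (ha : a ≠ 0) (hb : b ≠ 0) :
    v h (a ^ v h b * b ^ (-v h a)) = 0 := by
  rw [D.vm h _ _ (zpow_ne_zero _ ha) (zpow_ne_zero _ hb), v_zpow D h ha, v_zpow D h hb]
  ring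

theorem g_mul (D : Dat v lam A0) (h : H) {a a' b : K} (ha : a ≠ 0) (ha' : a' ≠ 0) (hb : b ≠ 0) :
    g v lam (a * a') b h = g v lam a b h + g v lam a' b h := by
  unfold g
  rw [← D.lm h _ _ (t_ne ha hb _ _) (t_ne ha' hb _ _) (v_t D h ha hb) (v_t D h ha' hb)]
  congr 1
  rw [D.vm h a a' ha ha', neg_add, zpow_add₀ hb, mul_zpow]
  ring

theorem g_symm (D : Dat v lam A0) (h : H) {a b : K} (ha : a ≠ 0) (hb : b ≠ 0) :
    g v lam b a h = - g v lam a b h := by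
  unfold g
  rw [← l_inv D h (t_ne ha hb _ _) (v_t D h ha hb)]
  congr 1
  rw [mul_inv, ← zpow_neg, ← zpow_neg, neg_neg, mul_comm]

theorem g_left (D : Dat v lam A0) (h : H) {a : K} (b : K) (ha : a ≠ 0) (hv : v h a = 0) :
    g v lam a b h = v h b * lam h a := by
  unfold g
  rw [hv, neg_zero, zpow_zero, mul_one, l_zpow D h ha hv]

theorem g_right (D : Dat v lam A0) (h : H) {b : K} (a : K) (hb : b ≠ 0) (hv : v h b = 0) :
    g v lam a b h = - (v h a * lam h b) := by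
  unfold g
  rw [hv, zpow_zero, one_mul, l_zpow D h hb hv]
  ring

theorem g_zero (D : Dat v lam A0) (h : H) {a b : K} (ha : a ≠ 0) (hva : v h a = 0)
    (hvb : v h b = 0) : g v lam a b h = 0 := by
  rw [g_left D h b ha hva, hvb, zero_mul]

theorem g_disj (D : Dat v lam A0) (h : H) {a b : K} (ha : a ≠ 0) (hb : b ≠ 0)
    (hv : v h a = 0 ∨ v h b = 0) : g v lam a b h = v h b * lam h a - v h a * lam h b := by
  rcases hv with hv | hv
  · rw [g_left D h b ha hv, hv]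
    ring
  · rw [g_right D h a hb hv, hv]
    ring

/-- Every nonzero element has finitely many places. -/
theorem fin_pl (D : Dat v lam A0) {a : K} (ha : a ≠ 0) : {h | v h a ≠ 0}.Finite := by
  obtain ⟨c₁, h₁, c₂, h₂, he, -⟩ := D.frac a ∅ ha (by simp)
  obtain ⟨hc₁, -, hf₁⟩ := D.ef c₁ h₁
  obtain ⟨hc₂, -, hf₂⟩ := D.ef c₂ h₂
  refine (hf₁.union hf₂).subset ?_
  intro h hh
  by_contra hcon
  simp only [Set.mem_union, Set.mem_ofPred_eq, not_or, not_not] at hcon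
  have := D.vm h a c₂ ha hc₂
  rw [he] at this
  apply hh
  omega

/-- The sum of the local terms. -/
noncomputable def Phi (v lam : H → K → ℤ) (a b : K) : ℤ := ∑ᶠ h, g v lam a b h

theorem supp (D : Dat v lam A0) {a b : K} (ha : a ≠ 0) :
    Function.support (g v lam a b) ⊆ {h | v h a ≠ 0} ∪ {h | v h b ≠ 0} := by
  intro h hh
  by_contra hcon
  simp only [Set.mem_union, Set.mem_ofPred_eq, not_or, not_not] at hcon
  exact hh (g_zero D h ha hcon.1 hcon.2)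

theorem supp_fin (D : Dat v lam A0) {a b : K} (ha : a ≠ 0) (hb : b ≠ 0) :
    (Function.support (g v lam a b)).Finite :=
  ((fin_pl D ha).union (fin_pl D hb)).subset (supp D ha)

theorem Phi_eq (D : Dat v lam A0) {a b : K} (ha : a ≠ 0) (S : Finset H)
    (hS : ∀ h, v h a ≠ 0 ∨ v h b ≠ 0 → h ∈ S) : Phi v lam a b = ∑ h ∈ S, g v lam a b h := by
  unfold Phi
  apply finsum_eq_sum_of_support_subset
  intro h hh
  exact hS h (supp D ha hh)

theorem Phi_mul (D : Dat v lam A0) {a a' b : K} (ha : a ≠ 0) (ha' : a' ≠ 0) (hb : b ≠ 0) :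
    Phi v lam (a * a') b = Phi v lam a b + Phi v lam a' b := by
  unfold Phi
  rw [← finsum_add_distrib (supp_fin D ha hb) (supp_fin D ha' hb)]
  exact finsum_congr fun h => g_mul D h ha ha' hb

theorem Phi_symm (D : Dat v lam A0) {a b : K} (ha : a ≠ 0) (hb : b ≠ 0) :
    Phi v lam b a = - Phi v lam a b := by
  unfold Phi
  rw [← finsum_neg_distrib]
  exact finsum_congr fun h => g_symm D h ha hb

theorem Phi_one (D : Dat v lam A0) {b : K} (hb : b ≠ 0) : Phi v lam 1 b = 0 := by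
  have := Phi_mul D one_ne_zero one_ne_zero hb
  rw [mul_one] at this
  omega

theorem Phi_inv (D : Dat v lam A0) {a b : K} (ha : a ≠ 0) (hb : b ≠ 0) :
    Phi v lam a⁻¹ b = - Phi v lam a b := by
  have := Phi_mul D ha (inv_ne_zero ha) hb
  rw [mul_inv_cancel₀ ha, Phi_one D hb] at this
  omega

theorem Phi_pow (D : Dat v lam A0) {a b : K} (ha : a ≠ 0) (hb : b ≠ 0) (n : ℕ) :
    Phi v lam (a ^ n) b = n * Phi v lam a b := by
  induction n with
  | zero => simp [Phi_one D hb]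
  | succ n ih =>
    rw [pow_succ, Phi_mul D (pow_ne_zero n ha) ha hb, ih]
    push_cast
    ring

theorem Phi_zpow (D : Dat v lam A0) {a b : K} (ha : a ≠ 0) (hb : b ≠ 0) (n : ℤ) :
    Phi v lam (a ^ n) b = n * Phi v lam a b := by
  obtain ⟨m, rfl | rfl⟩ := n.eq_nat_or_neg
  · rw [zpow_natCast, Phi_pow D ha hb]
  · rw [zpow_neg, zpow_natCast, Phi_inv D (pow_ne_zero m ha) hb, Phi_pow D ha hb]
    ring

/-- A product of elements `π_h ^ n_h`. -/
theorem Phi_prod (D : Dat v lam A0) {b : K} (hb : b ≠ 0) (S : Finset H) (π : H → K) (n : H → ℤ)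
    (hπ : ∀ h ∈ S, π h ≠ 0) (hz : ∀ h ∈ S, Phi v lam (π h) b = 0) :
    (∏ h ∈ S, π h ^ n h) ≠ 0 ∧ Phi v lam (∏ h ∈ S, π h ^ n h) b = 0 := by
  classical
  induction S using Finset.induction_on with
  | empty => simp [Phi_one D hb]
  | insert a S ha ih =>
    obtain ⟨h1, h2⟩ := ih (fun h hh => hπ h (Finset.mem_insert_of_mem hh))
      (fun h hh => hz h (Finset.mem_insert_of_mem hh))
    have hπa := hπ a (Finset.mem_insert_self a S)
    rw [Finset.prod_insert ha]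
    refine ⟨mul_ne_zero (zpow_ne_zero _ hπa) h1, ?_⟩
    rw [Phi_mul D (zpow_ne_zero _ hπa) h1 hb, h2, Phi_zpow D hπa hb,
      hz a (Finset.mem_insert_self a S)]
    ring

/-- The valuation of such a product. -/
theorem v_prod (D : Dat v lam A0) (h₀ : H) (S : Finset H) (π : H → K) (n : H → ℤ)
    (hπ : ∀ h ∈ S, π h ≠ 0) :
    (∏ h ∈ S, π h ^ n h) ≠ 0 ∧ v h₀ (∏ h ∈ S, π h ^ n h) = ∑ h ∈ S, n h * v h₀ (π h) := by
  classical
  induction S using Finset.induction_on with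
  | empty => simp [v_one D]
  | insert a S ha ih =>
    obtain ⟨h1, h2⟩ := ih (fun h hh => hπ h (Finset.mem_insert_of_mem hh))
    have hπa := hπ a (Finset.mem_insert_self a S)
    rw [Finset.prod_insert ha, Finset.sum_insert ha]
    refine ⟨mul_ne_zero (zpow_ne_zero _ hπa) h1, ?_⟩
    rw [D.vm _ _ _ (zpow_ne_zero _ hπa) h1, h2, v_zpow D h₀ hπa]

/-- (A) -/
theorem stepA (D : Dat v lam A0) {a b : K} (ha : a ∈ A0) (hb : b ∈ A0)
    (hd : ∀ h, v h a = 0 ∨ v h b = 0) : Phi v lam a b = 0 := by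
  classical
  have ha0 := (D.ef a ha).1
  have hb0 := (D.ef b hb).1
  have hf := (fin_pl D ha0).union (fin_pl D hb0)
  have hS : ∀ h, v h a ≠ 0 ∨ v h b ≠ 0 → h ∈ hf.toFinset := by
    intro h hh
    rw [Set.Finite.mem_toFinset]
    exact hh
  refine (Phi_eq D ha0 hf.toFinset hS).trans (Eq.trans ?_ (D.disj a ha b hb hd hf.toFinset hS))
  exact Finset.sum_congr rfl fun h _ => g_disj D h ha0 hb0 (hd h)

/-- (B) -/
theorem stepB (D : Dat v lam A0) {c b : K} (hc : c ≠ 0) (hb : b ∈ A0)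
    (hd : ∀ h, v h b ≠ 0 → v h c = 0) : Phi v lam c b = 0 := by
  have hb0 := (D.ef b hb).1
  have hf := fin_pl D hb0
  obtain ⟨c₁, h₁, c₂, h₂, he, hv⟩ := D.frac c hf.toFinset hc (by
    intro h hh
    rw [Set.Finite.mem_toFinset] at hh
    exact hd h hh)
  have hA : ∀ c' ∈ A0, (∀ h ∈ hf.toFinset, v h c' = 0) → Phi v lam c' b = 0 := by
    intro c' hc' hh
    apply stepA D hc' hb
    intro h
    by_cases hvb : v h b = 0
    · exact Or.inr hvb
    · exact Or.inl (hh h (by rw [Set.Finite.mem_toFinset]; exact hvb))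
  have h1 := hA c₁ h₁ fun h hh => (hv h hh).1
  have h2 := hA c₂ h₂ fun h hh => (hv h hh).2
  have h3 := Phi_mul D hc (D.ef c₂ h₂).1 hb0
  rw [he, h1, h2] at h3
  omega

/-- (C), the exchange: `π, σ` good at `h₀`, `ρ ∈ A0` having at most the place `h₀` in common with each of them. -/
theorem exch (D : Dat v lam A0) (h₀ : H) {π σ ρ : K} (hπ : π ∈ A0) (hσ : σ ∈ A0) (hρ : ρ ∈ A0)
    (h1 : v h₀ π = 1) (h2 : v h₀ σ = 1) (h3 : ∀ h, h ≠ h₀ → v h π = 0 ∨ v h ρ = 0)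
    (h4 : ∀ h, h ≠ h₀ → v h σ = 0 ∨ v h ρ = 0) : Phi v lam π ρ = Phi v lam σ ρ := by
  have hπ0 := (D.ef π hπ).1
  have hσ0 := (D.ef σ hσ).1
  have hρ0 := (D.ef ρ hρ).1
  have hB : Phi v lam (π * σ⁻¹) ρ = 0 := by
    apply stepB D (mul_ne_zero hπ0 (inv_ne_zero hσ0)) hρ
    intro h hh
    rw [D.vm h _ _ hπ0 (inv_ne_zero hσ0), v_inv D h hσ0]
    by_cases hh0 : h = h₀
    · subst hh0
      rw [h1, h2]
      norm_num
    · rw [(h3 h hh0).resolve_right hh, (h4 h hh0).resolve_right hh]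
      norm_num
  rw [Phi_mul D hπ0 (inv_ne_zero hσ0) hρ0, Phi_inv D hσ0 hρ0] at hB
  omega

/-- (C) -/
theorem stepC (D : Dat v lam A0) (h₀ : H) {π ρ : K} (hπ : π ∈ A0) (hρ : ρ ∈ A0)
    (h1 : v h₀ π = 1) (h2 : v h₀ ρ = 1) (h3 : ∀ h, h ≠ h₀ → v h π = 0 ∨ v h ρ = 0) :
    Phi v lam π ρ = 0 := by
  classical
  have hπ0 := (D.ef π hπ).1
  have hρ0 := (D.ef ρ hρ).1
  have hf := (fin_pl D hπ0).union (fin_pl D hρ0)
  have hS : ∀ h, v h π ≠ 0 ∨ v h ρ ≠ 0 → h ∈ hf.toFinset := by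
    intro h hh
    rw [Set.Finite.mem_toFinset]
    exact hh
  obtain ⟨σ, hσ, h4, h5⟩ := D.appr hf.toFinset h₀ (hS h₀ (Or.inl (by rw [h1]; norm_num)))
  have hσ0 := (D.ef σ hσ).1
  have hσπ : ∀ h, h ≠ h₀ → v h σ = 0 ∨ v h π = 0 := by
    intro h hh
    by_cases hv : v h π = 0
    · exact Or.inr hv
    · exact Or.inl (h5 h (hS h (Or.inl hv)) hh)
  have hσρ : ∀ h, h ≠ h₀ → v h σ = 0 ∨ v h ρ = 0 := by
    intro h hh
    by_cases hv : v h ρ = 0
    · exact Or.inr hv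
    · exact Or.inl (h5 h (hS h (Or.inr hv)) hh)
  have e1 : Phi v lam π ρ = Phi v lam σ ρ := exch D h₀ hπ hσ hρ h1 h4 h3 hσρ
  have e2 : Phi v lam ρ σ = Phi v lam π σ :=
    exch D h₀ hρ hπ hσ h2 h1 (fun h hh => (hσρ h hh).symm) (fun h hh => (hσπ h hh).symm)
  have e3 : Phi v lam σ π = Phi v lam ρ π :=
    exch D h₀ hσ hρ hπ h4 h2 hσπ (fun h hh => (h3 h hh).symm)
  have s1 := Phi_symm D hρ0 hσ0
  have s2 := Phi_symm D hσ0 hπ0
  have s3 := Phi_symm D hρ0 hπ0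
  omega

/-- (D) for elements of `A0`. -/
theorem stepD (D : Dat v lam A0) {a b : K} (ha : a ∈ A0) (hb : b ∈ A0) : Phi v lam a b = 0 := by
  classical
  have ha0 := (D.ef a ha).1
  have hb0 := (D.ef b hb).1
  have hf := (fin_pl D ha0).union (fin_pl D hb0)
  set S := hf.toFinset with hSdef
  have hS : ∀ h, v h a ≠ 0 ∨ v h b ≠ 0 → h ∈ S := by
    intro h hh
    rw [hSdef, Set.Finite.mem_toFinset]
    exact hh
  -- the elements `π_h`
  have hex : ∀ h : H, ∃ π : K, π ≠ 0 ∧ (h ∈ S → π ∈ A0 ∧ v h π = 1 ∧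
      ∀ h' ∈ S, h' ≠ h → v h' π = 0) := by
    intro h
    by_cases hh : h ∈ S
    · obtain ⟨π, h1, h2, h3⟩ := D.appr S h hh
      exact ⟨π, (D.ef π h1).1, fun _ => ⟨h1, h2, h3⟩⟩
    · exact ⟨1, one_ne_zero, fun h' => absurd h' hh⟩
  choose π hπ0 hπ using hex
  -- it is enough to treat the `π_h`
  have key : ∀ h ∈ S, Phi v lam (π h) b = 0 := by
    intro h hh
    obtain ⟨hπA, hπ1, hπ2⟩ := hπ h hh
    set S' := S ∪ (fin_pl D (hπ0 h)).toFinset with hS'def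
    have hSS' : ∀ h', h' ∈ S → h' ∈ S' := fun h' hh' => Finset.mem_union_left _ hh'
    have hS' : ∀ h', v h' (π h) ≠ 0 → h' ∈ S' := by
      intro h' hh'
      apply Finset.mem_union_right
      rw [Set.Finite.mem_toFinset]
      exact hh'
    have hex2 : ∀ h' : H, ∃ ρ : K, ρ ≠ 0 ∧ (h' ∈ S → ρ ∈ A0 ∧ v h' ρ = 1 ∧
        ∀ h'' ∈ S', h'' ≠ h' → v h'' ρ = 0) := by
      intro h'
      by_cases hh' : h' ∈ S
      · obtain ⟨ρ, h1, h2, h3⟩ := D.appr S' h' (hSS' h' hh')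
        exact ⟨ρ, (D.ef ρ h1).1, fun _ => ⟨h1, h2, h3⟩⟩
      · exact ⟨1, one_ne_zero, fun h'' => absurd h'' hh'⟩
    choose ρ hρ0 hρ using hex2
    -- `Φ(ρ_{h'}, π_h) = 0`
    have hpr : ∀ h' ∈ S, Phi v lam (ρ h') (π h) = 0 := by
      intro h' hh'
      obtain ⟨hρA, hρ1, hρ2⟩ := hρ h' hh'
      have hcom : ∀ h'', h'' ≠ h' → v h'' (ρ h') = 0 ∨ v h'' (π h) = 0 := by
        intro h'' hne
        by_cases hv : v h'' (π h) = 0
        · exact Or.inr hv
        · exact Or.inl (hρ2 h'' (hS' h'' hv) hne)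
      by_cases hhh : h' = h
      · subst hhh
        exact stepC D h' hρA hπA hρ1 hπ1 hcom
      · apply stepA D hρA hπA
        intro h''
        by_cases hne : h'' = h'
        · subst hne
          exact Or.inr (hπ2 h'' hh' hhh)
        · exact hcom h'' hne
    obtain ⟨hP0, hP⟩ := Phi_prod D (hπ0 h) S ρ (fun h' => v h' b) (fun h' _ => hρ0 h') hpr
    -- the rest
    have hd : Phi v lam (b * (∏ h' ∈ S, ρ h' ^ v h' b)⁻¹) (π h) = 0 := by
      apply stepB D (mul_ne_zero hb0 (inv_ne_zero hP0)) hπA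
      intro h'' hh''
      have hmem := hS' h'' hh''
      rw [D.vm _ _ _ hb0 (inv_ne_zero hP0), v_inv D _ hP0,
        (v_prod D h'' S ρ (fun h' => v h' b) (fun h' _ => hρ0 h')).2]
      by_cases hm : h'' ∈ S
      · rw [Finset.sum_eq_single_of_mem h'' hm, (hρ h'' hm).2.1]
        · ring
        · intro h' hh' hne
          rw [(hρ h' hh').2.2 h'' hmem (Ne.symm hne), mul_zero]
      · rw [Finset.sum_eq_zero]
        · have : v h'' b = 0 := by
            by_contra hcon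
            exact hm (hS h'' (Or.inr hcon))
          rw [this]
          ring
        · intro h' hh'
          have hne : h'' ≠ h' := by
            rintro rfl
            exact hm hh'
          rw [(hρ h' hh').2.2 h'' hmem hne, mul_zero]
    rw [Phi_mul D hb0 (inv_ne_zero hP0) (hπ0 h), Phi_inv D hP0 (hπ0 h), hP] at hd
    have := Phi_symm D hb0 (hπ0 h)
    omega
  obtain ⟨hP0, hP⟩ := Phi_prod D hb0 S π (fun h => v h a) (fun h _ => hπ0 h) key
  have hc : Phi v lam (a * (∏ h ∈ S, π h ^ v h a)⁻¹) b = 0 := by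
    apply stepB D (mul_ne_zero ha0 (inv_ne_zero hP0)) hb
    intro h'' hh''
    have hm : h'' ∈ S := hS h'' (Or.inr hh'')
    rw [D.vm _ _ _ ha0 (inv_ne_zero hP0), v_inv D _ hP0,
      (v_prod D h'' S π (fun h => v h a) (fun h _ => hπ0 h)).2,
      Finset.sum_eq_single_of_mem h'' hm, (hπ h'' hm).2.1]
    · ring
    · intro h' hh' hne
      rw [(hπ h' hh').2.2 h'' hm (Ne.symm hne), mul_zero]
  rw [Phi_mul D ha0 (inv_ne_zero hP0) hb0, Phi_inv D hP0 hb0, hP] at hc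
  omega

/-- Half of the reduction to `A0`. -/
theorem half (D : Dat v lam A0) {a b : K} (ha : a ≠ 0) (hb : b ∈ A0) : Phi v lam a b = 0 := by
  obtain ⟨c₁, h₁, c₂, h₂, he, -⟩ := D.frac a ∅ ha (by simp)
  have h3 := Phi_mul D ha (D.ef c₂ h₂).1 (D.ef b hb).1
  rw [he, stepD D h₁ hb, stepD D h₂ hb] at h3
  omega

theorem all (D : Dat v lam A0) {a b : K} (ha : a ≠ 0) (hb : b ≠ 0) : Phi v lam a b = 0 := by
  obtain ⟨c₁, h₁, c₂, h₂, he, -⟩ := D.frac b ∅ hb (by simp)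
  have h3 := Phi_mul D hb (D.ef c₂ h₂).1 ha
  rw [he] at h3
  have s1 := Phi_symm D ha (D.ef c₁ h₁).1
  have s2 := Phi_symm D ha (D.ef c₂ h₂).1
  have s3 := Phi_symm D ha hb
  have z1 := half D ha h₁
  have z2 := half D ha h₂
  omega

end TAMEF

open TAMEF in
theorem t_TAMEF : S_TAMEF := by
  intro K H _ v lam A0 hvm hlm hef happr hfrac hdisj a b ha hb S hS
  have D : Dat v lam A0 := ⟨hvm, hlm, hef, happr, hfrac, hdisj⟩
  have h := Phi_eq D ha S hS
  rw [all D ha hb] at h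
  exact h.symm

end CUB
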