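import Pool.Agent.CUB.StmtsR

/-!
# CUB: existence of the divisors of the norms of the tame symbols
-/

set_option autoImplicit false

open Polynomial

namespace CUB

namespace TDE

/-- Evaluation at `0`. -/
noncomputable def ev0 (k R : Type) [Field k] [CommRing R] [Algebra k R] : R[X] →ₐ[k] R :=
  evs (AlgHom.id k R) 0

theorem ev0_C {k R : Type} [Field k] [CommRing R] [Algebra k R] (r : R) : ev0 k R (C r) = r :=
  evs_C _ _ _

theorem ev0_X {k R : Type} [Field k] [CommRing R] [Algebra k R] : ev0 k R (X : R[X]) = 0 :=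
  evs_X _ _

theorem ev0_surj (k R : Type) [Field k] [CommRing R] [Algebra k R] :
    Function.Surjective (ev0 k R) := fun r => ⟨C r, ev0_C r⟩

/-- Norms for the image of a surjective homomorphism. -/
theorem isNm_comp {L R S : Type} [Field L] [CommRing R] [CommRing S] (ρ : R →+* L) (φ : S →+* R)
    (hφ : Function.Surjective φ) (x : L) (b c : S) (h : IsNm (ρ.comp φ) x b c) :
    IsNm ρ x (φ b) (φ c) := by
  unfold IsNm at h ⊢
  have hr : Set.range (ρ.comp φ) = Set.range ρ := by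
    rw [RingHom.coe_comp]
    exact hφ.range_comp ρ
  rw [hr] at h
  exact h

theorem evs_mem {k R K : Type} [Field k] [CommRing R] [Algebra k R] [Field K] [Algebra k K]
    (θ : R →ₐ[k] K) (O : ValuationSubring K) (h : ∀ r, θ r ∈ O) (u : K) (hu : u ∈ O) (P : R[X]) :
    evs θ u P ∈ O := by
  induction P using Polynomial.induction_on with
  | C a => rw [evs_C]; exact h a
  | add p q hp hq => rw [map_add]; exact O.add_mem _ _ hp hq
  | monomial n a _ =>
    rw [map_mul, map_pow, evs_C, evs_X]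
    exact O.mul_mem _ _ (h a) (pow_mem hu _)

theorem res_u {K : Type} [Field K] (O : ValuationSubring K) (u : K) (hu : u ∈ O) (hu' : u⁻¹ ∉ O) :
    IsLocalRing.residue O ⟨u, hu⟩ = 0 := by
  rw [IsLocalRing.residue_eq_zero_iff, IsLocalRing.mem_maximalIdeal, mem_nonunits_iff]
  intro h
  obtain ⟨v, hv⟩ := h.exists_right_inv
  have h1 : u * (v : K) = 1 := congrArg Subtype.val hv
  have h2 : (v : K) = u⁻¹ := by
    have hu0 : u ≠ 0 := by
      rintro rfl
      rw [zero_mul] at h1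
      exact zero_ne_one h1
    field_simp
    linear_combination h1
  exact hu' (h2 ▸ v.2)

theorem rho_eq {k R K : Type} [Field k] [CommRing R] [Algebra k R] [Field K] [Algebra k K]
    (θ : R →ₐ[k] K) (O : ValuationSubring K) (h : ∀ r, θ r ∈ O) (u : K) (hu : u ∈ O)
    (hu' : u⁻¹ ∉ O) (h' : ∀ P, evs θ u P ∈ O) :
    rhoO (evs θ u) O h' = (rhoO θ O h).comp (ev0 k R).toRingHom := by
  apply Polynomial.ringHom_ext
  · intro r
    have h1 : ((rhoO θ O h).comp (ev0 k R).toRingHom) (C r) = rhoO θ O h (ev0 k R (C r)) := rfl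
    rw [h1, ev0_C]
    change IsLocalRing.residue O ⟨evs θ u (C r), _⟩ = IsLocalRing.residue O ⟨θ r, _⟩
    congr 1
    exact Subtype.ext (evs_C _ _ _)
  · have h1 : ((rhoO θ O h).comp (ev0 k R).toRingHom) X = rhoO θ O h (ev0 k R X) := rfl
    rw [h1, ev0_X, map_zero]
    change IsLocalRing.residue O ⟨evs θ u X, _⟩ = 0
    rw [← res_u O u hu hu']
    congr 1
    exact Subtype.ext (evs_X _ _)

theorem evs_reflect {k R K : Type} [Field k] [CommRing R] [Algebra k R] [Field K] [Algebra k K]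
    (θ : R →ₐ[k] K) (s : K) (hs : s ≠ 0) (N : ℕ) (P : R[X]) (hN : P.natDegree ≤ N) :
    evs θ s⁻¹ (reflect N P) * s ^ N = evs θ s P := by
  letI : Invertible s := invertibleOfNonzero hs
  have h := eval₂_reflect_mul_pow θ.toRingHom s N P hN
  rw [invOf_eq_inv] at h
  exact h

end TDE

/-- Existence of the divisors of the norms of the tame symbols. -/
theorem t_TDE : M_TDE := by
  intro hDIM1 hDVX hINFA hINFD hGTD k R K E _ _ _ _ _ _ _ _ n θ s q hs hfr hq O hO a ha
  obtain ⟨hsO, h, T, hT⟩ := hO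
  have hu : s⁻¹ ∈ O := (O.mem_or_inv_mem s).resolve_left hsO
  have hu' : (s⁻¹)⁻¹ ∉ O := by rwa [inv_inv]
  have h' : ∀ P, evs θ s⁻¹ P ∈ O := TDE.evs_mem θ O h s⁻¹ hu
  have hX : (X : R[X]) ∉ q.1.asIdeal := by
    rw [hq]
    intro hc
    have : evs θ s (X : R[X]) = 0 := hc
    rw [evs_X] at this
    exact hs this
  obtain ⟨hi, _, _⟩ := hINFA.2.2.1 R q.1.asIdeal q.1.isPrime hX
  have hd : rdim k (⟨infI q.1.asIdeal, hi⟩ : PrimeSpectrum R[X]) = (n + 1 + 1 : ℕ) :=
    (hINFD k R q.1.asIdeal q.1.isPrime hi hX).trans q.2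
  have hz : rdim k (PrimeSpectrum.comap (TDE.ev0 k R).toRingHom T.1) = (n + 1 : ℕ) :=
    (rdim_comap (TDE.ev0 k R) (TDE.ev0_surj k R) T.1).trans T.2
  have hrho := TDE.rho_eq θ O h s⁻¹ hu hu' h'
  have hq' : infI q.1.asIdeal = RingHom.ker (evs θ s⁻¹).toRingHom := by
    rw [hq]
    exact hINFA.2.2.2.2 R K θ.toRingHom s hs
  have hfr' : ∀ y : K, ∃ a b : R[X], evs θ s⁻¹ b ≠ 0 ∧ y * evs θ s⁻¹ b = evs θ s⁻¹ a := by
    intro y
    obtain ⟨A, B, hB, hy⟩ := hfr y
    have h1 := TDE.evs_reflect θ s hs (max A.natDegree B.natDegree) A (le_max_left _ _)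
    have h2 := TDE.evs_reflect θ s hs (max A.natDegree B.natDegree) B (le_max_right _ _)
    have hp : s ^ (max A.natDegree B.natDegree) ≠ 0 := pow_ne_zero _ hs
    refine ⟨reflect (max A.natDegree B.natDegree) A, reflect (max A.natDegree B.natDegree) B, ?_, ?_⟩
    · intro h0
      rw [h0, zero_mul] at h2
      exact hB h2.symm
    · refine mul_right_cancel₀ hp ?_
      rw [mul_assoc, h1, h2, hy]
  have hzk : (PrimeSpectrum.comap (TDE.ev0 k R).toRingHom T.1).asIdeal =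
      RingHom.ker (rhoO (evs θ s⁻¹) O h') := by
    rw [hrho, ← RingHom.comap_ker, ← hT]
    rfl
  obtain ⟨w, b, c, htame, hnm⟩ := (hGTD k R[X] K n (evs θ s⁻¹) ⟨⟨infI q.1.asIdeal, hi⟩, hd⟩
    ⟨PrimeSpectrum.comap (TDE.ev0 k R).toRingHom T.1, hz⟩ hfr' hq').2 O h' hzk a s⁻¹ ha
    (inv_ne_zero hs)
  rw [hrho] at hnm
  have hnm' := TDE.isNm_comp (rhoO θ O h) (TDE.ev0 k R).toRingHom (TDE.ev0_surj k R) _ b c hnm
  have hb : (TDE.ev0 k R).toRingHom b ∉ T.1.asIdeal := by
    rw [hT]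
    exact hnm'.1
  have hc : (TDE.ev0 k R).toRingHom c ∉ T.1.asIdeal := by
    rw [hT]
    exact hnm'.2.1
  obtain ⟨db, hdb⟩ := hDVX k R E n T _ hb
  obtain ⟨dc, hdc⟩ := hDVX k R E n T _ hc
  exact ⟨db - dc, h, T, w, _, _, db, dc, hT, htame, hnm', hdb, hdc, rfl⟩

end CUB
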