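import Pool.Agent.CUB.StmtsR

/-!
# CUB: the main formula (TDF)
-/

set_option autoImplicit false

open Polynomial

namespace CUB

namespace TDF

section Basic

variable {k : Type} [Field k] {R K : Type} [CommRing R] [Algebra k R]

variable (k R) in
/-- evaluation at zero -/
noncomputable def ev0 : R[X] →ₐ[k] R := evs (AlgHom.id k R) 0

lemma ev0_toRingHom : (ev0 k R).toRingHom = evalRingHom (0 : R) := rfl

lemma ev0_surj : Function.Surjective (ev0 k R) := fun r => ⟨C r, evs_C _ _ _⟩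

lemma rdim0 (p : PrimeSpectrum R) :
    rdim k (PrimeSpectrum.comap (evalRingHom (0 : R)) p) = rdim k p :=
  rdim_comap (ev0 k R) ev0_surj p

/-- the prime `(p, X)` -/
noncomputable def up {n : ℕ} (p : RP k R n) : RP k R[X] n :=
  ⟨PrimeSpectrum.comap (evalRingHom (0 : R)) p.1, (rdim0 p.1).trans p.2⟩

lemma mem_up {n : ℕ} (p : RP k R n) (g : R[X]) : g ∈ (up p).1.asIdeal ↔ g.eval 0 ∈ p.1.asIdeal :=
  Iff.rfl

lemma X_mem_up {n : ℕ} (p : RP k R n) : (X : R[X]) ∈ (up p).1.asIdeal := by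
  rw [mem_up, eval_X]
  exact zero_mem _

lemma up_le {n m : ℕ} (p : RP k R n) (p' : RP k R m) (h : (up p).1.asIdeal ≤ (up p').1.asIdeal) :
    p.1.asIdeal ≤ p'.1.asIdeal := by
  intro r hr
  have h1 : C r ∈ (up p).1.asIdeal := by
    rw [mem_up, eval_C]
    exact hr
  have h2 := h h1
  rw [mem_up, eval_C] at h2
  exact h2

lemma le_up {n m : ℕ} (p : RP k R n) (p' : RP k R m) (h : p.1.asIdeal ≤ p'.1.asIdeal) :
    (up p).1.asIdeal ≤ (up p').1.asIdeal := fun _ hg => h hg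

/-- the length with a constant -/
lemma len_up (hL : S_LENA) {n m : ℕ} (T : RP k R m) (p : RP k R n) (b : R) :
    len ((up T).1.asIdeal ⊔ Ideal.span {C b}) (up p).1 = len (T.1.asIdeal ⊔ Ideal.span {b}) p.1 := by
  rw [← hL R[X] R (evalRingHom (0 : R)) (fun r => ⟨C r, by simp⟩) (T.1.asIdeal ⊔ Ideal.span {b}) p.1]
  have h1 : (T.1.asIdeal ⊔ Ideal.span {b}).comap (evalRingHom (0 : R)) =
      (up T).1.asIdeal ⊔ Ideal.span {C b} := by
    apply le_antisymm
    · intro g hg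
      rw [Ideal.mem_comap, Submodule.mem_sup] at hg
      obtain ⟨t, ht, y, hy, hty⟩ := hg
      obtain ⟨r, rfl⟩ := Ideal.mem_span_singleton'.1 hy
      rw [Submodule.mem_sup]
      refine ⟨g - C (r * b), ?_, C (r * b), ?_, by ring⟩
      · rw [mem_up, eval_sub, eval_C]
        have h2 : eval 0 g = t + r * b := hty.symm
        rw [h2, add_sub_cancel_right]
        exact ht
      · rw [C_mul]
        exact Ideal.mul_mem_left _ _ (Ideal.mem_span_singleton_self _)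
    · apply sup_le
      · intro g hg
        exact Ideal.mem_comap.2 (Ideal.mem_sup_left hg)
      · rw [Ideal.span_le, Set.singleton_subset_iff]
        rw [SetLike.mem_coe, Ideal.mem_comap]
        have h2 : evalRingHom (0 : R) (C b) = b := eval_C
        rw [h2]
        exact Ideal.mem_sup_right (Ideal.mem_span_singleton_self _)
  rw [h1]
  rfl

end Basic

section Eval

variable {k : Type} [Field k] {R K : Type} [CommRing R] [Algebra k R] [Field K] [Algebra k K]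

lemma evs_reflect (θ : R →ₐ[k] K) {s : K} (hs : s ≠ 0) (N : ℕ) (g : R[X]) (hg : g.natDegree ≤ N) :
    evs θ s⁻¹ (reflect N g) = s⁻¹ ^ N * evs θ s g := by
  have : Invertible s := invertibleOfNonzero hs
  have h1 := eval₂_reflect_mul_pow θ.toRingHom s N g hg
  rw [invOf_eq_inv] at h1
  rw [evs_apply, evs_apply, ← h1, inv_pow]
  field_simp

lemma evs_mem (θ : R →ₐ[k] K) (O : ValuationSubring K) (h : ∀ r, θ r ∈ O) {u : K} (hu : u ∈ O)
    (g : R[X]) : evs θ u g ∈ O := by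
  induction g using Polynomial.induction_on' with
  | add p q hp hq => rw [map_add]; exact O.add_mem _ _ hp hq
  | monomial n a =>
    rw [← C_mul_X_pow_eq_monomial, map_mul, map_pow, evs_C, evs_X]
    exact O.mul_mem _ _ (h a) (pow_mem hu n)

/-- a nonunit has residue zero -/
lemma res_zero (O : ValuationSubring K) {u : K} (hu : u ∈ O) (hn : u⁻¹ ∉ O) :
    IsLocalRing.residue O ⟨u, hu⟩ = 0 := by
  rw [IsLocalRing.residue_eq_zero_iff, IsLocalRing.mem_maximalIdeal, mem_nonunits_iff]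
  intro h
  obtain ⟨v, hv⟩ := h.exists_right_inv
  apply hn
  have h1 : u * (v : K) = 1 := congrArg Subtype.val hv
  rw [inv_eq_of_mul_eq_one_right h1]
  exact v.2

lemma not_res_zero (O : ValuationSubring K) {u : K} (hu : u ∈ O)
    (hr : IsLocalRing.residue O ⟨u, hu⟩ = 0) (h0 : u ≠ 0) : u⁻¹ ∉ O := by
  rw [IsLocalRing.residue_eq_zero_iff, IsLocalRing.mem_maximalIdeal, mem_nonunits_iff] at hr
  intro h
  apply hr
  exact IsUnit.of_mul_eq_one (⟨u⁻¹, h⟩ : O) (Subtype.ext (mul_inv_cancel₀ h0))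

lemma rho_apply (θ : R →ₐ[k] K) (O : ValuationSubring K) (h : ∀ r, θ r ∈ O) (r : R) :
    rhoO θ O h r = IsLocalRing.residue O ⟨θ r, h r⟩ := rfl

/-- the residue of the value of a polynomial -/
lemma rho_evs (θ : R →ₐ[k] K) (O : ValuationSubring K) (h : ∀ r, θ r ∈ O) {u : K}
    (h' : ∀ g, evs θ u g ∈ O) (hu : u ∈ O) (hn : IsLocalRing.residue O ⟨u, hu⟩ = 0) (g : R[X]) :
    rhoO (evs θ u) O h' g = rhoO θ O h (g.eval 0) := by
  have h1 : rhoO (evs θ u) O h' X = 0 := by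
    rw [rho_apply]
    have h2 : (⟨evs θ u X, h' X⟩ : O) = ⟨u, hu⟩ := Subtype.ext (evs_X θ u)
    rw [h2, hn]
  have h3 : ∀ r : R, rhoO (evs θ u) O h' (C r) = rhoO θ O h r := by
    intro r
    rw [rho_apply, rho_apply]
    congr 1
    exact Subtype.ext (evs_C θ u r)
  have h4 : g = divX g * X + C (g.coeff 0) := (divX_mul_X_add g).symm
  conv_lhs => rw [h4]
  rw [map_add, map_mul, h1, mul_zero, zero_add, h3, coeff_zero_eq_eval_zero]

end Eval

section Data

variable {k : Type} [Field k] {R K : Type} [CommRing R] [Algebra k R] [Field K] [Algebra k K]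

lemma ker_evs (θ : R →ₐ[k] K) (O : ValuationSubring K) (h : ∀ r, θ r ∈ O) {u : K}
    (h' : ∀ g, evs θ u g ∈ O) (hu : u ∈ O) (hn : IsLocalRing.residue O ⟨u, hu⟩ = 0) {m : ℕ}
    (T : RP k R m) (hT : T.1.asIdeal = RingHom.ker (rhoO θ O h)) :
    (up T).1.asIdeal = RingHom.ker (rhoO (evs θ u) O h') := by
  ext g
  rw [mem_up, hT, RingHom.mem_ker, RingHom.mem_ker, rho_evs θ O h h' hu hn]

lemma vv_data {n : ℕ} (θ : R →ₐ[k] K) {s : K} {O : ValuationSubring K}
    (hO : O ∈ VV n θ s) : ∃ (h : ∀ r, θ r ∈ O) (h' : ∀ g, evs θ s⁻¹ g ∈ O) (hu : s⁻¹ ∈ O)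
    (T : RP k R (n + 1)), IsLocalRing.residue O ⟨s⁻¹, hu⟩ = 0 ∧
    T.1.asIdeal = RingHom.ker (rhoO θ O h) ∧
    (up T).1.asIdeal = RingHom.ker (rhoO (evs θ s⁻¹) O h') := by
  obtain ⟨hsO, h, T, hT⟩ := hO
  have hu : s⁻¹ ∈ O := (O.mem_or_inv_mem s).resolve_left hsO
  have h' : ∀ g, evs θ s⁻¹ g ∈ O := evs_mem θ O h hu
  have hres : IsLocalRing.residue O ⟨s⁻¹, hu⟩ = 0 := res_zero O hu (by rw [inv_inv]; exact hsO)
  exact ⟨h, h', hu, T, hres, hT, ker_evs θ O h h' hu hres T hT⟩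

lemma vv_of {n : ℕ} (θ : R →ₐ[k] K) {s : K} (hs : s ≠ 0) {O : ValuationSubring K}
    (h' : ∀ g, evs θ s⁻¹ g ∈ O) (z : RP k R[X] (n + 1))
    (hz : z.1.asIdeal = RingHom.ker (rhoO (evs θ s⁻¹) O h')) (hX : X ∈ z.1.asIdeal) :
    O ∈ VV n θ s := by
  have hu : s⁻¹ ∈ O := by
    have := h' X
    rwa [evs_X] at this
  have hres : IsLocalRing.residue O ⟨s⁻¹, hu⟩ = 0 := by
    rw [hz, RingHom.mem_ker, rho_apply] at hX
    have h2 : (⟨evs θ s⁻¹ X, h' X⟩ : O) = ⟨s⁻¹, hu⟩ := Subtype.ext (evs_X θ s⁻¹)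
    rwa [h2] at hX
  have hsO : s ∉ O := by
    have := not_res_zero O hu hres (inv_ne_zero hs)
    rwa [inv_inv] at this
  have h : ∀ r, θ r ∈ O := by
    intro r
    have := h' (C r)
    rwa [evs_C] at this
  let T0 : PrimeSpectrum R := ⟨RingHom.ker (rhoO θ O h), RingHom.ker_isPrime _⟩
  have hT0 : PrimeSpectrum.comap (evalRingHom (0 : R)) T0 = z.1 := by
    apply PrimeSpectrum.ext
    ext g
    rw [hz, RingHom.mem_ker, rho_evs θ O h h' hu hres]
    exact Iff.rfl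
  have hd : rdim k T0 = ((n + 1 : ℕ) : Cardinal) := by
    rw [← rdim0 T0, hT0]
    exact z.2
  exact ⟨hsO, h, ⟨T0, hd⟩, rfl⟩

/-- the tame symbol after multiplication of `a` by a power of `u` -/
lemma tame_pow {O : ValuationSubring K} {a u w : K} (hu : u ≠ 0) (N : ℕ) (h : IsTame O a u w) :
    IsTame O (u ^ N * a) u w := by
  obtain ⟨π, α, β, i, j, hπ, hα, hβ, ha, hb, hw⟩ := h
  have hπ0 : π ≠ 0 := hπ.2.1
  refine ⟨π, β ^ N * α, β, i + N * j, j, hπ, ?_, hβ, ?_, hb, ?_⟩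
  · refine ⟨mul_ne_zero (pow_ne_zero _ hβ.1) hα.1, O.mul_mem _ _ (pow_mem hβ.2.1 N) hα.2.1, ?_⟩
    rw [mul_inv, ← inv_pow]
    exact O.mul_mem _ _ (pow_mem hβ.2.2 N) hα.2.2
  · rw [ha, hb, mul_pow, ← zpow_natCast (π ^ j), ← zpow_mul, zpow_add₀ hπ0, mul_comm (N : ℤ) j]
    ring
  · rw [hw, mul_zpow, ← zpow_natCast, ← zpow_mul, mul_comm (u ^ ((N : ℤ) * j)) (a ^ j), mul_assoc,
      ← zpow_add₀ hu]
    congr 2
    ring

lemma nm_congr {L : Type} [Field L] {R' : Type} [CommRing R'] (ρ : R →+* L) (ρ' : R' →+* L)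
    (x : L) (b c : R) (b' c' : R') (hr : Set.range ρ' = Set.range ρ) (hb : ρ' b' = ρ b)
    (hc : ρ' c' = ρ c) (h : IsNm ρ x b c) : IsNm ρ' x b' c' := by
  obtain ⟨h1, h2, h3⟩ := h
  refine ⟨by rwa [hb], by rwa [hc], ?_⟩
  rw [hb, hc, hr]
  exact h3

end Data

section Fin

/-- The length at a prime of the quotient by the unit ideal is zero. -/
lemma len_top {A : Type} [CommRing A] (p : PrimeSpectrum A) : len (⊤ : Ideal A) p = 0 := by
  unfold len
  rw [Ideal.map_top]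
  have h : Subsingleton (Localization.AtPrime p.asIdeal ⧸
      (⊤ : Ideal (Localization.AtPrime p.asIdeal))) := by
    infer_instance
  rw [Module.length_eq_zero]
  rfl

lemma infI_mono {R : Type} [CommRing R] {I J : Ideal R[X]} (h : I ≤ J) : infI I ≤ infI J :=
  Ideal.comap_mono (Ideal.map_mono h)

lemma div_fin (hDVX : S_DVX) (k A : Type) [Field k] [CommRing A] [Algebra k A]
    [Algebra.FiniteType k A] (n : ℕ) (q : RP k A (n + 1)) (a : A) (ha : a ∉ q.1.asIdeal) :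
    ∃ F : Finset (RP k A n), ∀ z : RP k A n, len (q.1.asIdeal ⊔ Ideal.span {a}) z.1 ≠ 0 →
      z ∈ F := by
  obtain ⟨c, hc⟩ := hDVX k A ℚ n q a ha
  refine ⟨c.support, fun z hz => ?_⟩
  rw [Finsupp.mem_support_iff, hc z]
  exact_mod_cast hz

lemma ex_inf (hINFA : S_INFA) (hINFD : S_INFD) (k R : Type) [Field k] [CommRing R] [Algebra k R]
    [Algebra.FiniteType k R] (m : ℕ) (z : RP k R[X] m) (hX : X ∉ z.1.asIdeal) :
    ∃ z' : RP k R[X] m, z'.1.asIdeal = infI z.1.asIdeal ∧ X ∉ z'.1.asIdeal ∧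
      infI z'.1.asIdeal = z.1.asIdeal := by
  obtain ⟨hi, hXi, hii⟩ := hINFA.2.2.1 R z.1.asIdeal z.1.isPrime hX
  have h1 : rdim k (⟨infI z.1.asIdeal, hi⟩ : PrimeSpectrum R[X]) = (m : Cardinal) :=
    (hINFD k R z.1.asIdeal z.1.isPrime hi hX).trans z.2
  exact ⟨⟨⟨infI z.1.asIdeal, hi⟩, h1⟩, rfl, hXi, hii⟩

lemma vv_finite (hLENC : S_LENC) (hDVX : S_DVX) (hGTD : S_GTD) (k R K : Type) [Field k]
    [PerfectField k] [CommRing R] [Algebra k R] [Algebra.FiniteType k R] [Field K] [Algebra k K]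
    (n : ℕ) (θ : R →ₐ[k] K) (s : K)
    (hf : ∀ x : K, ∃ A B : R[X], evs θ s⁻¹ B ≠ 0 ∧ x * evs θ s⁻¹ B = evs θ s⁻¹ A)
    (q' : RP k R[X] (n + 1 + 1)) (hq' : q'.1.asIdeal = RingHom.ker (evs θ s⁻¹).toRingHom)
    (hX : X ∉ q'.1.asIdeal) : (VV n θ s).Finite := by
  have : Algebra.FiniteType k R[X] := Algebra.FiniteType.trans (S := R) inferInstance inferInstance
  obtain ⟨F, hF⟩ := div_fin hDVX k R[X] (n + 1) q' X hX
  refine Set.Finite.subset (Set.Finite.biUnion F.finite_toSet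
    (fun z _ => (hGTD k R[X] K n (evs θ s⁻¹) q' z hf hq').1)) ?_
  intro O hO
  obtain ⟨h, h', hu, T, hres, hT, hT'⟩ := vv_data θ hO
  rw [Set.mem_iUnion₂]
  refine ⟨up T, ?_, h', hT'⟩
  apply hF
  apply (hLENC k R[X] (n + 1) q' (up T)).2.2.1 X hX
  · intro g hg
    rw [hq', RingHom.mem_ker] at hg
    rw [hT', RingHom.mem_ker, rho_apply]
    have h2 : (⟨evs θ s⁻¹ g, h' g⟩ : O) = 0 := Subtype.ext hg
    rw [h2, map_zero]
  · exact X_mem_up T

end Fin

end TDF

/-- The main formula. -/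
theorem t_TDF : M_TDF := by
  intro _ hLENA hLENC hDVX hINFA hINFD hINFL hGREC hGTD k R K E _ _ _ _ _ _ _ _ n θ s P q c d
    hs hfr hq hP hc hd
  classical
  have hFT : Algebra.FiniteType k R[X] := Algebra.FiniteType.trans (S := R) inferInstance inferInstance
  have hNR : IsNoetherianRing R := Algebra.FiniteType.isNoetherianRing k R
  -- the chart at infinity
  have hXq : X ∉ q.1.asIdeal := by
    rw [hq, RingHom.mem_ker]
    have h1 : (evs θ s).toRingHom X = s := evs_X θ s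
    rw [h1]
    exact hs
  obtain ⟨q', hq'1, hXq', hq'2⟩ := TDF.ex_inf hINFA hINFD k R (n + 1 + 1) q hXq
  have hq'k : q'.1.asIdeal = RingHom.ker (evs θ s⁻¹).toRingHom := by
    rw [hq'1, hq]
    exact hINFA.2.2.2.2 R K θ.toRingHom s hs
  have hfr' : ∀ x : K, ∃ A B : R[X], evs θ s⁻¹ B ≠ 0 ∧ x * evs θ s⁻¹ B = evs θ s⁻¹ A := by
    intro x
    obtain ⟨A, B, hB, hAB⟩ := hfr x
    set N := max A.natDegree B.natDegree
    refine ⟨reflect N A, reflect N B, ?_, ?_⟩
    · rw [TDF.evs_reflect θ hs N B (le_max_right _ _)]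
      exact mul_ne_zero (pow_ne_zero _ (inv_ne_zero hs)) hB
    · rw [TDF.evs_reflect θ hs N B (le_max_right _ _), TDF.evs_reflect θ hs N A (le_max_left _ _),
        ← hAB]
      ring
  have hfin := TDF.vv_finite hLENC hDVX hGTD k R K n θ s hfr' q' hq'k hXq'
  refine ⟨hfin, fun D hD => ?_⟩
  set N := P.natDegree with hN
  set P' := reflect N P with hP'
  have hPe : evs θ s P ≠ 0 := by
    intro h0
    apply hP
    rw [hq, RingHom.mem_ker]
    exact h0
  have hP'e : evs θ s⁻¹ P' = s⁻¹ ^ N * evs θ s P := TDF.evs_reflect θ hs N P le_rfl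
  have hP'q : P' ∉ q'.1.asIdeal := by
    rw [hq'k, RingHom.mem_ker]
    intro h0
    have h1 : evs θ s⁻¹ P' = 0 := h0
    rw [hP'e] at h1
    exact mul_ne_zero (pow_ne_zero _ (inv_ne_zero hs)) hPe h1
  have hex : ∀ z : RP k R[X] (n + 1), ∃ z' : RP k R[X] (n + 1), X ∉ z.1.asIdeal →
      z'.1.asIdeal = infI z.1.asIdeal ∧ X ∉ z'.1.asIdeal ∧ infI z'.1.asIdeal = z.1.asIdeal := by
    intro z
    by_cases hXz : X ∈ z.1.asIdeal
    · exact ⟨z, fun h => absurd hXz h⟩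
    · obtain ⟨z', hz'⟩ := TDF.ex_inf hINFA hINFD k R (n + 1) z hXz
      exact ⟨z', fun _ => hz'⟩
  choose ι hι using hex
  obtain ⟨Z0, hZ0⟩ := TDF.div_fin hDVX k R[X] (n + 1) q P hP
  apply Finsupp.ext
  intro p
  rw [Finsupp.finsetSum_apply]
  -- the data at the valuation rings
  have hdat : ∀ O ∈ VV n θ s, ∃ g : ℤ, (g : E) = D O p ∧
      (∀ h' : ∀ f, evs θ s⁻¹ f ∈ O, ∃ (w : O) (b c : R[X]),
        IsTame O (evs θ s⁻¹ P') (evs θ s⁻¹ X) (w : K) ∧
        IsNm (rhoO (evs θ s⁻¹) O h') (IsLocalRing.residue O w) b c ∧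
        g = (len (RingHom.ker (rhoO (evs θ s⁻¹) O h') ⊔ Ideal.span {b}) (TDF.up p).1 : ℤ) -
          len (RingHom.ker (rhoO (evs θ s⁻¹) O h') ⊔ Ideal.span {c}) (TDF.up p).1) ∧
      ((¬ ∃ (h' : ∀ f, evs θ s⁻¹ f ∈ O) (z : RP k R[X] (n + 1)),
        z.1.asIdeal = RingHom.ker (rhoO (evs θ s⁻¹) O h') ∧ X ∈ z.1.asIdeal ∧
        z.1.asIdeal ≤ (TDF.up p).1.asIdeal) → g = 0) := by
    intro O hO
    obtain ⟨h, h'0, hu, T0, hres, hT0, hT0'⟩ := TDF.vv_data θ hO
    obtain ⟨h1, T, w, b, c', db, dc, hT, htame, hnm, hdb, hdc, hDO⟩ := hD O hO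
    have hT' := TDF.ker_evs θ O h1 h'0 hu hres T hT
    refine ⟨(len (T.1.asIdeal ⊔ Ideal.span {b}) p.1 : ℤ) - len (T.1.asIdeal ⊔ Ideal.span {c'}) p.1,
      ?_, ?_, ?_⟩
    · rw [hDO, Finsupp.sub_apply, hdb p, hdc p]
      push_cast
      rfl
    · intro h'
      refine ⟨w, C b, C c', ?_, ?_, ?_⟩
      · rw [evs_X, hP'e]
        exact TDF.tame_pow (inv_ne_zero hs) N htame
      · apply TDF.nm_congr _ _ _ _ _ _ _ _ _ _ hnm
        · ext y
          constructor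
          · rintro ⟨g, rfl⟩
            exact ⟨g.eval 0, (TDF.rho_evs θ O h1 h' hu hres g).symm⟩
          · rintro ⟨r, rfl⟩
            refine ⟨C r, ?_⟩
            rw [TDF.rho_evs θ O h1 h' hu hres, eval_C]
        · rw [TDF.rho_evs θ O h1 h' hu hres, eval_C]
        · rw [TDF.rho_evs θ O h1 h' hu hres, eval_C]
      · rw [← hT', TDF.len_up hLENA, TDF.len_up hLENA]
    · intro hno
      have h2 : ¬ T.1.asIdeal ≤ p.1.asIdeal := by
        intro hle
        exact hno ⟨h'0, TDF.up T, hT', TDF.X_mem_up T, TDF.le_up T p hle⟩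
      have h3 : ∀ a : R, len (T.1.asIdeal ⊔ Ideal.span {a}) p.1 = 0 := by
        intro a
        by_contra h4
        exact h2 ((hLENC k R n T p).2.1 a h4).1
      rw [h3, h3]
      simp
  choose! g hg1 hg2 hg3 using hdat
  -- the finite sets
  set Z1 : Finset (RP k R[X] (n + 1)) :=
    Z0.filter (fun z => X ∉ z.1.asIdeal ∧ q.1.asIdeal ≤ z.1.asIdeal) with hZ1
  set Z : Finset (RP k R[X] (n + 1)) := Z1.image ι with hZ
  set W : Finset (ValuationSubring K) := hfin.toFinset.filter (fun O =>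
    ∃ (h' : ∀ f, evs θ s⁻¹ f ∈ O) (z : RP k R[X] (n + 1)),
        z.1.asIdeal = RingHom.ker (rhoO (evs θ s⁻¹) O h') ∧ X ∈ z.1.asIdeal ∧
        z.1.asIdeal ≤ (TDF.up p).1.asIdeal) with hW
  have hlen : ∀ z : RP k R[X] (n + 1), X ∉ z.1.asIdeal → q.1.asIdeal ≤ z.1.asIdeal →
      len (q.1.asIdeal ⊔ Ideal.span {P}) z.1 = len (q'.1.asIdeal ⊔ Ideal.span {P'}) (ι z).1 := by
    intro z hXz hqz
    obtain ⟨hi, -, -⟩ := hINFA.2.2.1 R z.1.asIdeal z.1.isPrime hXz
    have h1 := hINFL R q.1.asIdeal z.1.asIdeal z.1.isPrime hi P N hqz hXz le_rfl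
    have h2 : (ι z).1 = ⟨infI z.1.asIdeal, hi⟩ := PrimeSpectrum.ext (hι z hXz).1
    rw [h2, hq'1]
    exact h1
  have hιι : ∀ z : RP k R[X] (n + 1), X ∉ z.1.asIdeal → ι (ι z) = z := by
    intro z hXz
    obtain ⟨h1, h2, h3⟩ := hι z hXz
    apply Subtype.ext
    apply PrimeSpectrum.ext
    rw [(hι (ι z) h2).1, h3]
  have hmain := hGREC k R[X] K n (evs θ s⁻¹) q' (TDF.up p) X P' hfr' hq'k (TDF.X_mem_up p) hXq' hP'q
    Z W g ?_ ?_ ?_ ?_
  · -- conclusion
    have hsumO : ∑ O ∈ hfin.toFinset, D O p = ((∑ O ∈ W, g O : ℤ) : E) := by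
      rw [Int.cast_sum, hW, Finset.sum_filter]
      refine Finset.sum_congr rfl fun O hO => ?_
      have hOV : O ∈ VV n θ s := hfin.mem_toFinset.1 hO
      rw [← hg1 O hOV]
      split_ifs with hcnd
      · rfl
      · rw [hg3 O hOV hcnd]
        simp
    rw [hsumO, ← hmain, hd p]
    have hsupp : c.support ⊆ Z0 := by
      intro z hz
      apply hZ0
      intro h0
      rw [Finsupp.mem_support_iff, hc z, h0] at hz
      exact hz (by simp)
    rw [Finsupp.sum_of_support_subset c hsupp _ (fun z _ => by rw [zero_mul])]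
    have h1 : ∑ z ∈ Z0, c z * (bet z.1.asIdeal p.1 : E) =
        ∑ z ∈ Z1, c z * (bet z.1.asIdeal p.1 : E) := by
      rw [hZ1]
      refine (Finset.sum_filter_of_ne ?_).symm
      intro z _ hne
      constructor
      · intro hXz
        apply hne
        have h2 : bet z.1.asIdeal p.1 = 0 := by
          unfold bet
          rw [hINFA.2.1 R z.1.asIdeal hXz, top_sup_eq]
          exact TDF.len_top _
        rw [h2]
        simp
      · by_contra hqz
        apply hne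
        have h2 : len (q.1.asIdeal ⊔ Ideal.span {P}) z.1 = 0 := by
          by_contra h3
          exact hqz ((hLENC k R[X] (n + 1) q z).2.1 P h3).1
        rw [hc z, h2]
        simp
    rw [h1, hZ, Finset.sum_image, Int.cast_sum]
    · refine Finset.sum_congr rfl fun z hz => ?_
      rw [hZ1, Finset.mem_filter] at hz
      obtain ⟨-, hXz, hqz⟩ := hz
      rw [← hlen z hXz hqz, hc z]
      have h2 : bet z.1.asIdeal p.1 = len ((ι z).1.asIdeal ⊔ Ideal.span {X}) (TDF.up p).1 := by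
        rw [(hι z hXz).1]
        rfl
      rw [h2]
      push_cast
      rfl
    · intro z hz z' hz' hzz
      have h2 : X ∉ z.1.asIdeal := by
        have := Finset.mem_coe.1 hz
        rw [hZ1, Finset.mem_filter] at this
        exact this.2.1
      have h3 : X ∉ z'.1.asIdeal := by
        have := Finset.mem_coe.1 hz'
        rw [hZ1, Finset.mem_filter] at this
        exact this.2.1
      rw [← hιι z h2, ← hιι z' h3, hzz]
  · -- `X` is not in the elements of `Z`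
    intro z hz
    rw [hZ, Finset.mem_image] at hz
    obtain ⟨z0, hz0, rfl⟩ := hz
    rw [hZ1, Finset.mem_filter] at hz0
    exact (hι z0 hz0.2.1).2.1
  · intro z hPz hqz _ hXz
    obtain ⟨h1, h2, h3⟩ := hι z hXz
    rw [hZ, Finset.mem_image]
    have h4 : q.1.asIdeal ≤ (ι z).1.asIdeal := by
      rw [← hq'2, h1]
      exact TDF.infI_mono hqz
    refine ⟨ι z, ?_, hιι z hXz⟩
    rw [hZ1, Finset.mem_filter]
    refine ⟨?_, h2, h4⟩
    apply hZ0
    rw [hlen (ι z) h2 h4, hιι z hXz]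
    exact (hLENC k R[X] (n + 1) q' z).2.2.1 P' hP'q hqz hPz
  · intro O
    rw [hW, Finset.mem_filter]
    constructor
    · exact fun h => h.2
    · intro hcnd
      refine ⟨?_, hcnd⟩
      obtain ⟨h', z, hz, hXz, -⟩ := hcnd
      exact hfin.mem_toFinset.2 (TDF.vv_of θ hs h' z hz hXz)
  · intro O hO h'
    rw [hW, Finset.mem_filter] at hO
    exact hg2 O (hfin.mem_toFinset.1 hO.1) h'

end CUB
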