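import Pool.Agent.CUB.StmtsR

/-!
# TDU: the relation `IsTD` determines the cycle
-/

set_option autoImplicit false

open Polynomial

namespace CUB

namespace TDU

section Val

variable {K : Type} [Field K]

lemma un_val {O : ValuationSubring K} {x : K} (h : IsUn O x) : O.valuation x = 1 := by
  obtain ⟨h0, h1, h2⟩ := h
  have h3 : O.valuation x ≤ 1 := (O.valuation_le_one_iff x).2 h1
  have h4 : O.valuation x⁻¹ ≤ 1 := (O.valuation_le_one_iff _).2 h2
  rw [map_inv₀] at h4
  have h5 : O.valuation x ≠ 0 := (Valuation.ne_zero_iff _).2 h0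
  exact le_antisymm h3 ((inv_le_one₀ (zero_lt_iff.2 h5)).1 h4)

lemma val_un {O : ValuationSubring K} {x : K} (h : O.valuation x = 1) : IsUn O x := by
  refine ⟨?_, ?_, ?_⟩
  · rintro rfl
    rw [map_zero] at h
    exact zero_ne_one h
  · exact (O.valuation_le_one_iff x).1 h.le
  · refine (O.valuation_le_one_iff _).1 ?_
    rw [map_inv₀, h, inv_one]

lemma lt_val {O : ValuationSubring K} {x : K} (h : x = 0 ∨ x⁻¹ ∉ O) : O.valuation x < 1 := by
  by_cases h0 : x = 0
  · rw [h0, map_zero]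
    exact zero_lt_one
  · have h1 : x⁻¹ ∉ O := h.resolve_left h0
    have h2 : ¬ O.valuation x⁻¹ ≤ 1 := fun h3 => h1 ((O.valuation_le_one_iff _).1 h3)
    rw [map_inv₀, not_le] at h2
    have h5 : O.valuation x ≠ 0 := (Valuation.ne_zero_iff _).2 h0
    exact (one_lt_inv₀ (zero_lt_iff.2 h5)).1 h2

lemma unif_val {O : ValuationSubring K} {π π' : K} (h : IsUnif O π) (h' : IsUnif O π') :
    O.valuation π' ≤ O.valuation π := by
  have h1 : π' / π ∈ O := h.2.2.2 π' h'.1 h'.2.2.1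
  have h2 : O.valuation (π' / π) ≤ 1 := (O.valuation_le_one_iff _).2 h1
  rw [map_div₀] at h2
  have h5 : O.valuation π ≠ 0 := (Valuation.ne_zero_iff _).2 h.2.1
  exact (div_le_one₀ (zero_lt_iff.2 h5)).1 h2

lemma unif_uniq {O : ValuationSubring K} {π π' α α' : K} {i i' : ℤ} (h : IsUnif O π)
    (h' : IsUnif O π') (hα : IsUn O α) (hα' : IsUn O α') (e : α * π ^ i = α' * π' ^ i') :
    i = i' := by
  have h1 : O.valuation π = O.valuation π' := le_antisymm (unif_val h' h) (unif_val h h')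
  have h2 := congrArg O.valuation e
  rw [map_mul, map_mul, map_zpow₀, map_zpow₀, un_val hα, un_val hα', one_mul, one_mul, ← h1] at h2
  have h3 : O.valuation π < 1 := lt_val (Or.inr h.2.2.1)
  have h5 : O.valuation π ≠ 0 := (Valuation.ne_zero_iff _).2 h.2.1
  exact zpow_right_injective₀ (zero_lt_iff.2 h5) h3.ne h2

lemma tame_uniq {O : ValuationSubring K} {a u w w' : K} (h : IsTame O a u w)
    (h' : IsTame O a u w') : w = w' := by
  obtain ⟨π, α, β, i, j, hπ, hα, hβ, ha, hu, hw⟩ := h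
  obtain ⟨π', α', β', i', j', hπ', hα', hβ', ha', hu', hw'⟩ := h'
  have h1 : i = i' := unif_uniq hπ hπ' hα hα' (ha.symm.trans ha')
  have h2 : j = j' := unif_uniq hπ hπ' hβ hβ' (hu.symm.trans hu')
  rw [hw, hw', h1, h2]

end Val

section Nm

variable {R L : Type} [CommRing R] [Field L]

lemma nm_eq {ρ : R →+* L} {x : L} {b c b' c' : R} (h : IsNm ρ x b c) (h' : IsNm ρ x b' c') :
    ρ (b * c') = ρ (b' * c) := by
  obtain ⟨h1, h2, h3⟩ := h
  obtain ⟨h1', h2', h3'⟩ := h'
  rw [map_mul, map_mul, ← h3, ← h3']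
  ring

end Nm

lemma sup_eq {R : Type} [CommRing R] {T : Ideal R} {x y : R} (h : x - y ∈ T) :
    T ⊔ Ideal.span {x} = T ⊔ Ideal.span {y} := by
  refine le_antisymm (sup_le le_sup_left ?_) (sup_le le_sup_left ?_)
  · rw [Ideal.span_singleton_le_iff_mem]
    have h1 : x = (x - y) + y := by ring
    rw [h1]
    exact Ideal.add_mem _ (Ideal.mem_sup_left h)
      (Ideal.mem_sup_right (Ideal.mem_span_singleton_self y))
  · rw [Ideal.span_singleton_le_iff_mem]
    have h1 : y = x - (x - y) := by ring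
    rw [h1]
    exact Ideal.sub_mem _ (Ideal.mem_sup_right (Ideal.mem_span_singleton_self x))
      (Ideal.mem_sup_left h)

section Main

variable {k R K E : Type} [Field k] [CommRing R] [Algebra k R] [Algebra.FiniteType k R] [Field K]
  [Algebra k K] [Field E] {n : ℕ}

lemma td_uniq (hL : S_LENC) {θ : R →ₐ[k] K} {O : ValuationSubring K} {a u : K}
    {d d' : RP k R n →₀ E} (H : IsTD E θ O a u d) (H' : IsTD E θ O a u d') : d = d' := by
  obtain ⟨h, T, w, b, c, db, dc, hT, hw, hN, hb, hc, rfl⟩ := H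
  obtain ⟨h', T', w', b', c', db', dc', hT', hw', hN', hb', hc', rfl⟩ := H'
  have e1 : T = T' := by
    apply Subtype.ext
    apply PrimeSpectrum.ext
    rw [hT, hT']
  subst e1
  have e2 : w = w' := Subtype.ext (tame_uniq hw hw')
  subst e2
  have e3 := nm_eq hN hN'
  have e4 : b * c' - b' * c ∈ T.1.asIdeal := by
    rw [hT, RingHom.mem_ker, map_sub, e3, sub_self]
  have mT : ∀ x : R, rhoO θ O h x ≠ 0 → x ∉ T.1.asIdeal := by
    intro x hx hx'
    rw [hT, RingHom.mem_ker] at hx'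
    exact hx hx'
  have kb := mT b hN.1
  have kc := mT c hN.2.1
  have kb' := mT b' hN'.1
  have kc' := mT c' hN'.2.1
  ext p
  have l1 := (hL k R n T p).1 b c' kb kc'
  have l2 := (hL k R n T p).1 b' c kb' kc
  rw [sup_eq e4, l2] at l1
  rw [Finsupp.sub_apply, Finsupp.sub_apply, hb p, hc p, hb' p, hc' p]
  have l3 := congrArg (Nat.cast : ℕ → E) l1
  simp only [Nat.cast_add] at l3
  linear_combination -l3

omit [Algebra.FiniteType k R] in
lemma td_mul {θ : R →ₐ[k] K} {O : ValuationSubring K} {a u u' : K}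
    {d : RP k R n →₀ E} (H : IsTD E θ O a u d) (hu : u ≠ 0) (hu' : u' ≠ 0)
    (hv : u' / u - 1 = 0 ∨ (u' / u - 1)⁻¹ ∉ O) : IsTD E θ O a u' d := by
  obtain ⟨h, T, w, b, c, db, dc, hT, hw, hN, hb, hc, rfl⟩ := H
  have v1 := lt_val hv
  have v2 : u' / u - 1 ∈ O := (O.valuation_le_one_iff _).1 v1.le
  set t : O := ⟨u' / u - 1, v2⟩ with ht
  have v3 : t ∈ IsLocalRing.maximalIdeal O := (O.valuation_lt_one_iff t).2 v1
  have v4 : IsLocalRing.residue O (1 + t) = 1 := by
    rw [map_add, map_one, (IsLocalRing.residue_eq_zero_iff t).2 v3, add_zero]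
  have v5 : IsUnit (1 + t) := by
    by_contra hcon
    have h1 := (IsLocalRing.residue_eq_zero_iff (1 + t)).2 ((IsLocalRing.mem_maximalIdeal _).2 hcon)
    rw [v4] at h1
    exact one_ne_zero h1
  obtain ⟨e, he⟩ := v5
  have e1 : ((e : O) : K) = u' / u := by
    rw [he]
    change (1 : K) + (u' / u - 1) = u' / u
    ring
  have e2 : ∀ m : ℤ, (((e ^ m : Oˣ) : O) : K) = (u' / u) ^ m := by
    intro m
    have h1 : (((e ^ m : Oˣ) : O) : K) = ((Units.map O.subtype.toMonoidHom (e ^ m) : Kˣ) : K) := rfl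
    rw [h1, map_zpow, Units.val_zpow_eq_zpow_val]
    congr 1
  have e3 : ∀ m : ℤ, IsLocalRing.residue O ((e ^ m : Oˣ) : O) = 1 := by
    intro m
    have h1 : IsLocalRing.residue O ((e ^ m : Oˣ) : O) =
      ((Units.map (IsLocalRing.residue O).toMonoidHom (e ^ m) : (IsLocalRing.ResidueField O)ˣ) :
        IsLocalRing.ResidueField O) := rfl
    have h2 : Units.map (IsLocalRing.residue O).toMonoidHom e = 1 := by
      apply Units.ext
      change IsLocalRing.residue O (e : O) = 1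
      rw [he, v4]
    rw [h1, map_zpow, h2, one_zpow, Units.val_one]
  obtain ⟨π, α, β, i, j, hπ, hα, hβ, ha, hu1, hw1⟩ := hw
  refine ⟨h, T, w * ((e ^ (-i) : Oˣ) : O), b, c, db, dc, hT, ?_, ?_, hb, hc, rfl⟩
  · refine ⟨π, α, β * (u' / u), i, j, hπ, hα, ?_, ha, ?_, ?_⟩
    · apply val_un
      rw [map_mul, un_val hβ, one_mul]
      have h1 := O.valuation_unit e
      rw [e1] at h1
      exact h1
    · field_simp
      rw [hu1]
    · change (w : K) * (((e ^ (-i) : Oˣ) : O) : K) = _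
      rw [e2, hw1, mul_assoc, ← mul_zpow, mul_div_cancel₀ _ hu]
  · rw [map_mul, e3, mul_one]
    exact hN

omit [Algebra.FiniteType k R] in
lemma td_rat {θ : R →ₐ[k] K} {O : ValuationSubring K} {a u : K}
    {d : RP k R n →₀ E} (H : IsTD E θ O a u d) (I : Ideal R)
    (hI : ∀ r ∈ I, θ r = 0 ∨ (θ r)⁻¹ ∉ O) : d ∈ ratOn k E n I := by
  obtain ⟨h, T, w, b, c, db, dc, hT, hw, hN, hb, hc, rfl⟩ := H
  have hle : I ≤ T.1.asIdeal := by
    intro r hr
    rw [hT, RingHom.mem_ker]
    have h1 := lt_val (hI r hr)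
    change IsLocalRing.residue O ⟨θ r, h r⟩ = 0
    rw [IsLocalRing.residue_eq_zero_iff]
    exact (O.valuation_lt_one_iff _).2 h1
  have mT : ∀ x : R, rhoO θ O h x ≠ 0 → x ∉ T.1.asIdeal := by
    intro x hx hx'
    rw [hT, RingHom.mem_ker] at hx'
    exact hx hx'
  refine Submodule.sub_mem _ ?_ ?_
  · exact Submodule.subset_span ⟨T, b, hle, mT b hN.1, hb⟩
  · exact Submodule.subset_span ⟨T, c, hle, mT c hN.2.1, hc⟩

end Main

end TDU

theorem t_TDU : M_TDU := by
  intro hL k R K E _ _ _ _ _ _ _ n θ O a u d H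
  exact ⟨fun d' H' => TDU.td_uniq hL H H', fun u' hu hu' hv => TDU.td_mul H hu hu' hv,
    fun I hI => TDU.td_rat H I hI⟩

end CUB
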