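import Pool.Agent.CUB.StmtsR

/-!
# CUB, block R: VC1 (the valuation ring of a height one prime of a normal domain)
-/

set_option autoImplicit false

namespace CUB

namespace VC1

section DVR

variable (R K : Type) [CommRing R] [IsDomain R] [IsDiscreteValuationRing R] [Field K]
  [Algebra R K] [IsFractionRing R K]

/-- The discrete valuation ring `R` as a valuation subring of its fraction field. -/
noncomputable def OO : ValuationSubring K :=
  { (algebraMap R K).range with
    mem_or_inv_mem' := fun x => by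
      rcases ValuationRing.isInteger_or_isInteger R x with h | h
      · exact Or.inl h
      · exact Or.inr h }

lemma mem_OO {x : K} : x ∈ OO R K ↔ ∃ y : R, algebraMap R K y = x := Iff.rfl

lemma inv_mem {y : R} (hy : y ≠ 0) : (algebraMap R K y)⁻¹ ∈ OO R K ↔ IsUnit y := by
  have hy0 : algebraMap R K y ≠ 0 := by simpa using hy
  rw [mem_OO]
  constructor
  · rintro ⟨z, hz⟩
    have h1 : algebraMap R K (y * z) = algebraMap R K 1 := by
      rw [map_mul, hz, mul_inv_cancel₀ hy0, map_one]
    exact IsUnit.of_mul_eq_one z (IsFractionRing.injective R K h1)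
  · rintro ⟨u, rfl⟩
    refine ⟨((u⁻¹ : Rˣ) : R), ?_⟩
    apply eq_inv_of_mul_eq_one_left
    rw [← map_mul, Units.inv_mul, map_one]

lemma unif_iff (π : K) : IsUnif (OO R K) π ↔ ∃ ϖ : R, Irreducible ϖ ∧ algebraMap R K ϖ = π := by
  constructor
  · rintro ⟨⟨ϖ, rfl⟩, h0, hinv, hdiv⟩
    refine ⟨ϖ, ?_, rfl⟩
    have hϖ0 : ϖ ≠ 0 := by
      rintro rfl
      exact h0 (map_zero _)
    have hnu : ¬ IsUnit ϖ := fun h => hinv ((inv_mem R K hϖ0).mpr h)
    obtain ⟨ϖ₀, hi⟩ := IsDiscreteValuationRing.exists_irreducible R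
    obtain ⟨z, hz⟩ := hdiv (algebraMap R K ϖ₀) ⟨ϖ₀, rfl⟩
      (fun h => hi.not_isUnit ((inv_mem R K hi.ne_zero).mp h))
    have h1 : ϖ₀ = ϖ * z := by
      apply IsFractionRing.injective R K
      rw [map_mul, hz]
      field_simp
    have h2 : IsUnit z := (hi.isUnit_or_isUnit h1).resolve_left hnu
    obtain ⟨u, rfl⟩ := h2
    exact (associated_mul_unit_left ϖ (u : R) u.isUnit |>.symm).irreducible_iff.mpr (h1 ▸ hi)
  · rintro ⟨ϖ, hi, rfl⟩
    have h0 : algebraMap R K ϖ ≠ 0 := by simpa using hi.ne_zero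
    refine ⟨⟨ϖ, rfl⟩, h0, fun h => hi.not_isUnit ((inv_mem R K hi.ne_zero).mp h), ?_⟩
    rintro _ ⟨y, rfl⟩ hy
    have hy0 : y ≠ 0 := by
      rintro rfl
      apply hy
      rw [map_zero, inv_zero]
      exact ⟨0, map_zero _⟩
    have hnu : ¬ IsUnit y := fun h => hy ((inv_mem R K hy0).mpr h)
    have hm : y ∈ IsLocalRing.maximalIdeal R := (IsLocalRing.mem_maximalIdeal y).mpr hnu
    rw [hi.maximalIdeal_eq, Ideal.mem_span_singleton] at hm
    obtain ⟨z, rfl⟩ := hm
    refine ⟨z, ?_⟩
    rw [map_mul, mul_div_cancel_left₀ _ h0]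

lemma isUn_unit (u : Rˣ) : IsUn (OO R K) (algebraMap R K u) := by
  refine ⟨?_, ⟨u, rfl⟩, (inv_mem R K u.ne_zero).mpr u.isUnit⟩
  exact (map_ne_zero_iff _ (IsFractionRing.injective R K)).mpr u.ne_zero

lemma exists_zpow {ϖ : R} (hi : Irreducible ϖ) {x : K} (hx : x ≠ 0) :
    ∃ (i : ℤ) (α : K), IsUn (OO R K) α ∧ x = α * algebraMap R K ϖ ^ i := by
  obtain ⟨i, u, h⟩ := IsDiscreteValuationRing.exists_units_eq_smul_zpow_of_irreducible
    (K := K) hi hx
  refine ⟨i, algebraMap R K u, isUn_unit R K u, ?_⟩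
  rw [h, Units.smul_def, Algebra.smul_def]

end DVR

lemma length_eq {R : Type} [CommRing R] [IsDomain R] [IsDiscreteValuationRing R] {ϖ : R}
    (hi : Irreducible ϖ) (u : Rˣ) (n : ℕ) (I : Ideal R) (hI : I = Ideal.span {(u : R) * ϖ ^ n}) :
    Module.length R (R ⧸ I) = n := by
  have h1 : I = IsLocalRing.maximalIdeal R ^ n := by
    rw [hI, hi.maximalIdeal_eq, Ideal.span_singleton_pow, Ideal.span_singleton_eq_span_singleton]
    exact associated_unit_mul_left _ _ u.isUnit
  rw [h1, IsDiscreteValuationRing.length_quotient_pow_maximalIdeal]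

end VC1

open VC1 in
theorem t_VC1 : S_VC1 := by
  intro A K _ _ _ _ _ _ _ p hp hht
  have hle : p.asIdeal.primeCompl ≤ nonZeroDivisors A := p.asIdeal.primeCompl_le_nonZeroDivisors
  let Ap := Localization.AtPrime p.asIdeal
  haveI : IsDomain Ap := IsLocalization.isDomain_localization hle
  haveI : IsNoetherianRing Ap := IsLocalization.isNoetherianRing p.asIdeal.primeCompl _ inferInstance
  haveI : IsIntegrallyClosed Ap :=
    isIntegrallyClosed_of_isLocalization (S := Ap) p.asIdeal.primeCompl hle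
  have hinj : Function.Injective (algebraMap A Ap) := IsLocalization.injective Ap hle
  have hmax : IsLocalRing.maximalIdeal Ap ≠ ⊥ := by
    intro h
    apply hp
    rw [← IsLocalization.AtPrime.comap_maximalIdeal Ap p.asIdeal, h]
    exact Ideal.comap_bot_of_injective _ hinj
  have hfield : ¬ IsField Ap := by
    rw [IsLocalRing.isField_iff_maximalIdeal_eq]
    exact hmax
  haveI : IsDiscreteValuationRing Ap := by
    have htf := (IsDiscreteValuationRing.TFAE Ap hfield).out 0 3
    refine htf.mpr ⟨inferInstance, IsLocalRing.maximalIdeal Ap, ⟨hmax, inferInstance⟩, ?_⟩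
    rintro P ⟨hP0, hPp⟩
    by_contra hne
    have hlt : P < IsLocalRing.maximalIdeal Ap :=
      lt_of_le_of_ne (IsLocalRing.le_maximalIdeal hPp.ne_top) hne
    have hcm := IsLocalization.AtPrime.comap_maximalIdeal Ap p.asIdeal
    have h1 : P.comap (algebraMap A Ap) < p.asIdeal := by
      refine lt_of_le_of_ne ((Ideal.comap_mono hlt.le).trans hcm.le) ?_
      intro h
      apply hlt.ne
      have h2 := congrArg (Ideal.map (algebraMap A Ap)) (h.trans hcm.symm)
      rwa [IsLocalization.map_under p.asIdeal.primeCompl Ap,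
        IsLocalization.map_under p.asIdeal.primeCompl Ap] at h2
    have h3 := hht _ (Ideal.IsPrime.comap (algebraMap A Ap)) h1
    apply hP0
    rw [← IsLocalization.map_under p.asIdeal.primeCompl Ap P, Ideal.under, h3, Ideal.map_bot]
  have hunits : ∀ y : p.asIdeal.primeCompl, IsUnit (algebraMap A K y) := by
    intro y
    have := nonZeroDivisors.ne_zero (hle y.2)
    exact isUnit_iff_ne_zero.mpr (by simpa using this)
  letI : Algebra Ap K := (IsLocalization.lift (S := Ap) hunits).toAlgebra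
  haveI : IsScalarTower A Ap K := IsScalarTower.of_algebraMap_eq fun x =>
    (IsLocalization.lift_eq hunits x).symm
  haveI : IsFractionRing Ap K :=
    IsFractionRing.isFractionRing_of_isDomain_of_isLocalization p.asIdeal.primeCompl Ap K
  refine ⟨OO Ap K, ?_, ?_, ?_⟩
  · intro x
    rw [mem_OO]
    constructor
    · rintro ⟨y, rfl⟩
      obtain ⟨a, s, rfl⟩ := IsLocalization.exists_mk'_eq p.asIdeal.primeCompl y
      refine ⟨a, s, s.2, ?_⟩
      rw [IsScalarTower.algebraMap_apply A Ap K (s : A), ← map_mul, IsLocalization.mk'_spec,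
        ← IsScalarTower.algebraMap_apply]
    · rintro ⟨a, b, hb, h⟩
      refine ⟨IsLocalization.mk' Ap a (⟨b, hb⟩ : p.asIdeal.primeCompl), ?_⟩
      have hb0 : algebraMap A K b ≠ 0 := (hunits ⟨b, hb⟩).ne_zero
      apply mul_right_cancel₀ hb0
      rw [h, IsScalarTower.algebraMap_apply A Ap K b, ← map_mul]
      have := IsLocalization.mk'_spec Ap a (⟨b, hb⟩ : p.asIdeal.primeCompl)
      rw [this, ← IsScalarTower.algebraMap_apply]
  · obtain ⟨ϖ, hi⟩ := IsDiscreteValuationRing.exists_irreducible Ap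
    obtain ⟨a, s, hs⟩ := IsLocalization.exists_mk'_eq p.asIdeal.primeCompl ϖ
    refine ⟨a, (unif_iff Ap K _).mpr ⟨algebraMap A Ap a, ?_,
      (IsScalarTower.algebraMap_apply A Ap K a).symm⟩⟩
    have h1 : algebraMap A Ap a = ϖ * algebraMap A Ap s := by
      rw [← hs, IsLocalization.mk'_spec]
    rw [h1]
    have hu : IsUnit (algebraMap A Ap s) := IsLocalization.map_units Ap s
    exact (associated_mul_unit_left ϖ _ hu).irreducible_iff.mpr hi
  · intro π hπ
    obtain ⟨ϖ, hi, rfl⟩ := (unif_iff Ap K π).mp hπ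
    refine ⟨fun x hx => exists_zpow Ap K hi hx, ?_⟩
    intro a ha
    have ha' : algebraMap A Ap a ≠ 0 := by
      intro h
      exact ha (hinj (h.trans (map_zero _).symm))
    obtain ⟨n, u, hn⟩ := IsDiscreteValuationRing.eq_unit_mul_pow_irreducible ha' hi
    refine ⟨algebraMap Ap K u, isUn_unit Ap K u, ?_⟩
    have hlen : len (Ideal.span {a}) p = n := by
      unfold len
      rw [length_eq hi u n _ (by rw [Ideal.map_span, Set.image_singleton, hn])]
      rfl
    rw [hlen, zpow_natCast, IsScalarTower.algebraMap_apply A Ap K a, hn, map_mul, map_pow]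

end CUB
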