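import Pool.Agent.CUB.StmtsR

/-!
# VC2: valuation rings which dominate a prime of height one
-/

set_option autoImplicit false

open Polynomial

namespace CUB

namespace VC2

theorem valR (A : Type) [CommRing A] [IsDomain A] [IsNoetherianRing A] [IsIntegrallyClosed A]
    (p : PrimeSpectrum A)
    (hp : ∀ p' : Ideal A, p'.IsPrime → p' < p.asIdeal → p' = ⊥) :
    ValuationRing (Localization.AtPrime p.asIdeal) := by
  have hM : p.asIdeal.primeCompl ≤ nonZeroDivisors A := p.asIdeal.primeCompl_le_nonZeroDivisors
  have hic : IsIntegrallyClosed (Localization.AtPrime p.asIdeal) :=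
    isIntegrallyClosed_of_isLocalization _ p.asIdeal.primeCompl hM
  have hno : IsNoetherianRing (Localization.AtPrime p.asIdeal) :=
    IsLocalization.isNoetherianRing p.asIdeal.primeCompl _ inferInstance
  have hdo : IsDomain (Localization.AtPrime p.asIdeal) :=
    IsLocalization.isDomain_localization hM
  have key := (tfae_of_isNoetherianRing_of_isLocalRing_of_isDomain
    (Localization.AtPrime p.asIdeal)).out 3 1
  refine key.1 ⟨hic, fun P hP0 hP => ?_⟩
  have hle : P.comap (algebraMap A (Localization.AtPrime p.asIdeal)) ≤ p.asIdeal := by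
    intro x hx
    by_contra hxp
    have hu : IsUnit (algebraMap A (Localization.AtPrime p.asIdeal) x) :=
      IsLocalization.map_units _ (⟨x, hxp⟩ : p.asIdeal.primeCompl)
    exact hP.ne_top (Ideal.eq_top_of_isUnit_mem _ hx hu)
  have hPm : (P.comap (algebraMap A (Localization.AtPrime p.asIdeal))).map
      (algebraMap A (Localization.AtPrime p.asIdeal)) = P :=
    IsLocalization.map_comap p.asIdeal.primeCompl _ P
  rcases hle.lt_or_eq with h | h
  · have h1 := hp _ (hP.comap _) h
    rw [h1, Ideal.map_bot] at hPm
    exact absurd hPm.symm hP0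
  · rw [h] at hPm
    rw [← hPm]
    exact Localization.AtPrime.map_eq_maximalIdeal

theorem dich (A : Type) [CommRing A] [IsDomain A] [IsNoetherianRing A] [IsIntegrallyClosed A]
    (p : PrimeSpectrum A)
    (hp : ∀ p' : Ideal A, p'.IsPrime → p' < p.asIdeal → p' = ⊥) (a b : A) :
    ∃ c s : A, s ∉ p.asIdeal ∧ (a * c = b * s ∨ b * c = a * s) := by
  have hV := valR A p hp
  have hM : p.asIdeal.primeCompl ≤ nonZeroDivisors A := p.asIdeal.primeCompl_le_nonZeroDivisors
  have hinj : Function.Injective (algebraMap A (Localization.AtPrime p.asIdeal)) :=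
    IsLocalization.injective _ hM
  have key : ∀ (a b : A) (c : Localization.AtPrime p.asIdeal),
      algebraMap A (Localization.AtPrime p.asIdeal) a * c =
        algebraMap A (Localization.AtPrime p.asIdeal) b →
      ∃ c s : A, s ∉ p.asIdeal ∧ a * c = b * s := by
    intro a b c hc
    obtain ⟨⟨c1, s⟩, hcs⟩ := IsLocalization.surj p.asIdeal.primeCompl c
    refine ⟨c1, s.1, s.2, hinj ?_⟩
    rw [map_mul, map_mul, ← hc, mul_assoc]
    exact congrArg _ hcs.symm
  obtain ⟨c, hc⟩ := ValuationRing.cond (algebraMap A (Localization.AtPrime p.asIdeal) a)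
    (algebraMap A (Localization.AtPrime p.asIdeal) b)
  rcases hc with hc | hc
  · obtain ⟨c', s, hs, h⟩ := key a b c hc
    exact ⟨c', s, hs, Or.inl h⟩
  · obtain ⟨c', s, hs, h⟩ := key b a c hc
    exact ⟨c', s, hs, Or.inr h⟩

end VC2

theorem t_VC2 : S_VC2 := by
  intro A K _ _ _ _ _ _ _ p hp0 hp O
  have hinj : Function.Injective (algebraMap A K) := IsFractionRing.injective A K
  constructor
  · rintro ⟨h1, h2⟩ x
    have hinv : ∀ b : A, b ∉ p.asIdeal → algebraMap A K b ≠ 0 ∧ (algebraMap A K b)⁻¹ ∈ O := by
      intro b hb
      rw [h2 b, not_or, not_not] at hb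
      exact hb
    constructor
    · intro hx
      obtain ⟨a, b, hb0, rfl⟩ := IsFractionRing.div_surjective (A := A) x
      have hb1 : algebraMap A K b ≠ 0 := by
        rw [Ne, IsFractionRing.to_map_eq_zero_iff]
        exact nonZeroDivisors.ne_zero hb0
      obtain ⟨c, s, hs, h⟩ := VC2.dich A p hp a b
      have hs1 := hinv s hs
      rcases h with h | h
      · -- `a c = b s`
        by_cases hcp : c ∈ p.asIdeal
        · exfalso
          have h3 : algebraMap A K a * algebraMap A K c = algebraMap A K b * algebraMap A K s := by
            rw [← map_mul, ← map_mul, h]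
          have hc0 : algebraMap A K c ≠ 0 := by
            intro h0
            rw [h0, mul_zero] at h3
            exact (mul_ne_zero hb1 hs1.1) h3.symm
          rcases (h2 c).1 hcp with h4 | h4
          · exact hc0 h4
          · apply h4
            have h5 : (algebraMap A K c)⁻¹ =
                algebraMap A K a / algebraMap A K b * (algebraMap A K s)⁻¹ := by
              have := hs1.1
              field_simp
              linear_combination -h3
            rw [h5]
            exact O.mul_mem _ _ hx hs1.2
        · refine ⟨s, c, hcp, ?_⟩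
          have h3 : algebraMap A K a * algebraMap A K c = algebraMap A K b * algebraMap A K s := by
            rw [← map_mul, ← map_mul, h]
          field_simp
          linear_combination h3
      · refine ⟨c, s, hs, ?_⟩
        have h3 : algebraMap A K b * algebraMap A K c = algebraMap A K a * algebraMap A K s := by
          rw [← map_mul, ← map_mul, h]
        field_simp
        linear_combination -h3
    · rintro ⟨a, b, hb, hab⟩
      obtain ⟨hb1, hb2⟩ := hinv b hb
      have h3 : x = algebraMap A K a * (algebraMap A K b)⁻¹ := by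
        rw [← hab, mul_assoc, mul_inv_cancel₀ hb1, mul_one]
      rw [h3]
      exact O.mul_mem _ _ (h1 a) hb2
  · intro hO
    refine ⟨fun a => (hO _).2 ⟨a, 1, p.2.one_notMem, by rw [map_one, mul_one]⟩, fun a => ?_⟩
    constructor
    · intro ha
      by_contra hc
      rw [not_or, not_not] at hc
      obtain ⟨c, b, hb, hcb⟩ := (hO _).1 hc.2
      apply hb
      have h3 : algebraMap A K b = algebraMap A K (a * c) := by
        rw [map_mul, ← hcb, ← mul_assoc, mul_inv_cancel₀ hc.1, one_mul]
      rw [hinj h3]
      exact p.asIdeal.mul_mem_right _ ha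
    · rintro (h | h)
      · rw [IsFractionRing.to_map_eq_zero_iff] at h
        rw [h]
        exact p.asIdeal.zero_mem
      · by_contra ha
        apply h
        refine (hO _).2 ⟨1, a, ha, ?_⟩
        rw [map_one]
        refine inv_mul_cancel₀ ?_
        rw [Ne, IsFractionRing.to_map_eq_zero_iff]
        rintro rfl
        exact ha p.asIdeal.zero_mem

end CUB
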