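import Pool.Agent.CUB.StmtsV

/-!
# CUB, module MAIN: from smooth cubic hypersurfaces to all affine varieties
-/

set_option autoImplicit false

open Polynomial CategoryTheory AlgebraicGeometry

namespace CUB

open Pool.Agent.Lib_helper55.Beil

universe v

namespace MAIN

theorem core (hQ : S_QUAD) (hP : S_PAD) (hC : S_CUV) (hS : S_SMO) (hI : S_SMI) (hZ : S_ZPOL)
    (hR : S_RED.{v}) (k E : Type) [Field k] [Finite k] [Field E] [CharZero E]
    (T : ∀ i : ℕ, Homology.{v} k E i) (hT : Extra T) (i : ℕ) (A : Type) [CommRing A]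
    [Algebra k A] [Algebra.FiniteType k A] :
    ∃ (n : ℕ) (F : MvPolynomial (Fin (3 * n)) k), F.totalDegree ≤ 3 ∧ Smooth (cubic F).f ∧
      ((T (2 * n)).Inj (cubic F) → (T i).Inj (aff k A)) ∧
      ((T (2 * n)).Surj (cubic F) → (T i).Surj (aff k A)) := by
  obtain ⟨N, m, f, φ, hφ, hk, hd⟩ := hQ k A
  obtain ⟨f', φ', hφ', hk', hd'⟩ := hP k A N m f φ hφ hk hd (N + m + 3 * i + 1)
    (2 * N + 2 * m + 3 * i + 1 + 1) (by omega) (by omega)
  obtain ⟨F, hF, ⟨e⟩⟩ := hC k (N + m + 3 * i + 1) (2 * N + 2 * m + 3 * i + 1 + 1)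
    (N + m + 2 * i + 1) (by omega) f' hd'
  have h2 : 2 * (N + m + 2 * i + 1) = i + (2 * N + 2 * m + 3 * i + 1 + 1) := by omega
  have hs : Smooth (cubic F).f := hI k _ _ e.symm (hS k _ _ f')
  obtain ⟨r1, r2⟩ := hR k E T hT (MvPolynomial (Fin (N + m + 3 * i + 1)) k) A
    (2 * N + 2 * m + 3 * i + 1) i f' φ' hφ' hk'
    (fun z => hZ k E (N + m + 3 * i + 1) i (by omega) z)
  refine ⟨N + m + 2 * i + 1, F, hF, hs, fun h => r1 ?_, fun h => r2 ?_⟩
  · rw [h2] at h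
    exact (inj_viso (T _) (viso e)).mpr h
  · rw [h2] at h
    exact (surj_viso T _ (viso e)).mpr h

end MAIN

theorem t_MAIN : M_MAIN.{v} := by
  intro hQ hP hC hS hI hZ hR k E _ _ _ _ T hT
  constructor
  · intro h i X hX
    obtain ⟨A, _, _, _, ⟨s⟩⟩ := exists_aff X
    obtain ⟨n, F, h1, h2, h3, -⟩ := MAIN.core hQ hP hC hS hI hZ hR k E T hT i A
    exact (inj_viso (T i) s).mp (h3 (h n F h1 h2))
  · intro h i X hX
    obtain ⟨A, _, _, _, ⟨s⟩⟩ := exists_aff X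
    obtain ⟨n, F, h1, h2, -, h3⟩ := MAIN.core hQ hP hC hS hI hZ hR k E T hT i A
    exact (surj_viso T i s).mp (h3 (h n F h1 h2))

end CUB
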