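import Pool.Agent.CUB.StmtsV

/-!
# CUB: more variables and more equations
-/

set_option autoImplicit false

open Polynomial CategoryTheory AlgebraicGeometry

namespace CUB

namespace PAD

/-- The new variables are mapped to zero. -/
noncomputable def rho (k : Type) [Field k] (N N' : ℕ) :
    MvPolynomial (Fin N') k →ₐ[k] MvPolynomial (Fin N) k :=
  MvPolynomial.aeval fun j : Fin N' => if h : (j : ℕ) < N then MvPolynomial.X ⟨j, h⟩ else 0

theorem rho_X_lt (k : Type) [Field k] (N N' : ℕ) (j : Fin N') (h : (j : ℕ) < N) :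
    rho k N N' (MvPolynomial.X j) = MvPolynomial.X ⟨j, h⟩ := by
  rw [rho, MvPolynomial.aeval_X, dif_pos h]

theorem rho_X_ge (k : Type) [Field k] (N N' : ℕ) (j : Fin N') (h : ¬ (j : ℕ) < N) :
    rho k N N' (MvPolynomial.X j) = 0 := by
  rw [rho, MvPolynomial.aeval_X, dif_neg h]

theorem rho_rename (k : Type) [Field k] (N N' : ℕ) (hN : N ≤ N') (P : MvPolynomial (Fin N) k) :
    rho k N N' (MvPolynomial.rename (Fin.castLE hN) P) = P := by
  have h : (rho k N N').comp (MvPolynomial.rename (Fin.castLE hN)) =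
      AlgHom.id k (MvPolynomial (Fin N) k) := by
    refine MvPolynomial.algHom_ext fun i => ?_
    rw [AlgHom.comp_apply, MvPolynomial.rename_X, rho_X_lt k N N' _ i.2]
    rfl
  exact DFunLike.congr_fun h P

/-- The new equations. -/
noncomputable def eqs (k : Type) [Field k] (N N' m m' : ℕ) (hN : N ≤ N')
    (f : Fin m → MvPolynomial (Fin N) k) (j : Fin m') : MvPolynomial (Fin N') k :=
  if h : (j : ℕ) < m then MvPolynomial.rename (Fin.castLE hN) (f ⟨j, h⟩)
  else if h' : N + (j - m) < N' then MvPolynomial.X ⟨N + (j - m), h'⟩ else 0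

theorem X_mem (k : Type) [Field k] (N N' m m' : ℕ) (hN : N ≤ N') (hm : m + (N' - N) ≤ m')
    (f : Fin m → MvPolynomial (Fin N) k) (j : Fin N') (h : ¬ (j : ℕ) < N) :
    (MvPolynomial.X j : MvPolynomial (Fin N') k) ∈
      Ideal.span (Set.range (eqs k N N' m m' hN f)) := by
  have hj := j.2
  have h1 : m + ((j : ℕ) - N) < m' := by omega
  refine Ideal.subset_span ⟨⟨m + ((j : ℕ) - N), h1⟩, ?_⟩
  have h2 : ¬ (m + ((j : ℕ) - N) < m) := by omega
  have h3 : N + (m + ((j : ℕ) - N) - m) < N' := by omega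
  unfold eqs
  rw [dif_neg h2, dif_pos h3]
  congr 1
  refine Fin.ext ?_
  change N + (m + ((j : ℕ) - N) - m) = j
  omega

theorem rename_mem (k : Type) [Field k] (N N' m m' : ℕ) (hN : N ≤ N') (hm : m + (N' - N) ≤ m')
    (f : Fin m → MvPolynomial (Fin N) k) (j : Fin m) :
    MvPolynomial.rename (Fin.castLE hN) (f j) ∈
      Ideal.span (Set.range (eqs k N N' m m' hN f)) := by
  have h1 : (j : ℕ) < m' := by have := j.2; omega
  refine Ideal.subset_span ⟨⟨j, h1⟩, ?_⟩
  unfold eqs
  rw [dif_pos j.2]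

theorem sub_mem (k : Type) [Field k] (N N' m m' : ℕ) (hN : N ≤ N') (hm : m + (N' - N) ≤ m')
    (f : Fin m → MvPolynomial (Fin N) k) (P : MvPolynomial (Fin N') k) :
    P - MvPolynomial.rename (Fin.castLE hN) (rho k N N' P) ∈
      Ideal.span (Set.range (eqs k N N' m m' hN f)) := by
  have h : (Ideal.Quotient.mkₐ k (Ideal.span (Set.range (eqs k N N' m m' hN f)))) =
      ((Ideal.Quotient.mkₐ k (Ideal.span (Set.range (eqs k N N' m m' hN f)))).comp
        (MvPolynomial.rename (Fin.castLE hN))).comp (rho k N N') := by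
    refine MvPolynomial.algHom_ext fun j => ?_
    rw [AlgHom.comp_apply, AlgHom.comp_apply]
    by_cases hj : (j : ℕ) < N
    · rw [rho_X_lt k N N' j hj, MvPolynomial.rename_X]
      rfl
    · rw [rho_X_ge k N N' j hj, map_zero, map_zero]
      exact Ideal.Quotient.eq_zero_iff_mem.2 (X_mem k N N' m m' hN hm f j hj)
  rw [← Ideal.Quotient.eq]
  exact DFunLike.congr_fun h P

end PAD

/-- More variables and more equations. -/
theorem t_PAD : S_PAD := by
  intro k A _ _ _ N m f φ hφ hker hdeg N' m' hN hm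
  refine ⟨PAD.eqs k N N' m m' hN f, φ.comp (PAD.rho k N N'), ?_, ?_, ?_⟩
  · intro x
    obtain ⟨P, rfl⟩ := hφ x
    exact ⟨MvPolynomial.rename (Fin.castLE hN) P, congrArg φ (PAD.rho_rename k N N' hN P)⟩
  · have hmem : ∀ P : MvPolynomial (Fin N) k, φ P = 0 ↔ P ∈ Ideal.span (Set.range f) := by
      intro P
      rw [← hker]
      rfl
    refine le_antisymm ?_ ?_
    · intro P hP
      have hP' : φ (PAD.rho k N N' P) = 0 := hP
      rw [hmem] at hP'
      have h1 : MvPolynomial.rename (Fin.castLE hN) (PAD.rho k N N' P) ∈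
          Ideal.span (Set.range (PAD.eqs k N N' m m' hN f)) := by
        have h2 := Ideal.mem_map_of_mem
          (MvPolynomial.rename (R := k) (Fin.castLE hN) : MvPolynomial (Fin N) k →ₐ[k]
            MvPolynomial (Fin N') k).toRingHom hP'
        rw [Ideal.map_span] at h2
        refine (Ideal.span_le.2 ?_) h2
        rintro _ ⟨_, ⟨j, rfl⟩, rfl⟩
        exact PAD.rename_mem k N N' m m' hN hm f j
      have h3 := Ideal.add_mem _ (PAD.sub_mem k N N' m m' hN hm f P) h1
      rwa [sub_add_cancel] at h3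
    · rw [Ideal.span_le]
      rintro _ ⟨j, rfl⟩
      change φ (PAD.rho k N N' (PAD.eqs k N N' m m' hN f j)) = 0
      unfold PAD.eqs
      split_ifs with h h'
      · rw [PAD.rho_rename, hmem]
        exact Ideal.subset_span ⟨_, rfl⟩
      · rw [PAD.rho_X_ge k N N' _ (by change ¬ (N + ((j : ℕ) - m) < N); omega), map_zero]
      · rw [map_zero, map_zero]
  · intro j
    unfold PAD.eqs
    split_ifs with h h'
    · exact (MvPolynomial.totalDegree_rename_le _ _).trans (hdeg _)
    · rw [MvPolynomial.totalDegree_X]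
      norm_num
    · rw [MvPolynomial.totalDegree_zero]
      norm_num

end CUB
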