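import Pool.Agent.CUB.StmtsV

/-!
# QUAD: every algebra of finite type is defined by equations of degree at most two
-/

set_option autoImplicit false



namespace CUB

namespace QUAD

open MvPolynomial

open Classical in
/-- the variable of an exponent -/
noncomputable def ev {n : ℕ} (k : Type) [Field k] (S : Finset (Fin n →₀ ℕ)) (a : Fin n →₀ ℕ) :
    MvPolynomial {a // a ∈ S} k := if h : a ∈ S then X ⟨a, h⟩ else 0

lemma ev_pos {n : ℕ} {k : Type} [Field k] {S : Finset (Fin n →₀ ℕ)} {a : Fin n →₀ ℕ} (h : a ∈ S) :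
    ev k S a = X ⟨a, h⟩ := by
  simp only [ev, h, dif_pos]

lemma ev_deg {n : ℕ} {k : Type} [Field k] (S : Finset (Fin n →₀ ℕ)) (a : Fin n →₀ ℕ) :
    (ev k S a).totalDegree ≤ 1 := by
  by_cases h : a ∈ S
  · rw [ev_pos h]
    exact le_of_eq (totalDegree_X _)
  · simp only [ev, h, dif_neg, not_false_eq_true, totalDegree_zero, zero_le]

/-- the linear equation of a polynomial -/
noncomputable def lin {n : ℕ} {k : Type} [Field k] (S : Finset (Fin n →₀ ℕ)) (g : MvPolynomial (Fin n) k) :
    MvPolynomial {a // a ∈ S} k := ∑ a ∈ g.support, C (g.coeff a) * ev k S a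

lemma lin_deg {n : ℕ} {k : Type} [Field k] (S : Finset (Fin n →₀ ℕ)) (g : MvPolynomial (Fin n) k) :
    (lin S g).totalDegree ≤ 1 := by
  unfold lin
  refine (totalDegree_finsetSum _ _).trans (Finset.sup_le fun a _ => ?_)
  refine (totalDegree_mul _ _).trans ?_
  rw [totalDegree_C, zero_add]
  exact ev_deg S a

/-- general index types -/
lemma general {k A : Type} [Field k] [CommRing A] [Algebra k A] [Algebra.FiniteType k A] :
    ∃ (ι : Type) (_ : Finite ι) (E : Finset (MvPolynomial ι k)) (φ : MvPolynomial ι k →ₐ[k] A),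
      Function.Surjective φ ∧ RingHom.ker φ.toRingHom = Ideal.span (E : Set (MvPolynomial ι k)) ∧
      ∀ f ∈ E, f.totalDegree ≤ 2 := by
  classical
  obtain ⟨n, π, hπ⟩ := Algebra.FiniteType.iff_quotient_mvPolynomial''.1 (inferInstance : Algebra.FiniteType k A)
  obtain ⟨G, hG⟩ : (RingHom.ker π.toRingHom).FG := IsNoetherian.noetherian _
  let e : Fin n → Fin n →₀ ℕ := fun i => Finsupp.single i 1
  let Bd : Fin n →₀ ℕ := (G.sup fun g => g.support.sup id) ⊔ (Finset.univ.sup e)
  let S : Finset (Fin n →₀ ℕ) := Finset.Icc 0 Bd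
  have hS : ∀ a, a ∈ S ↔ a ≤ Bd := by
    intro a
    simp only [S, Finset.mem_Icc]
    exact ⟨fun h => h.2, fun h => ⟨bot_le, h⟩⟩
  have h0 : (0 : Fin n →₀ ℕ) ∈ S := (hS 0).2 bot_le
  have hlow : ∀ a b, a ≤ b → b ∈ S → a ∈ S := fun a b hab hb => (hS a).2 (hab.trans ((hS b).1 hb))
  have he : ∀ i, e i ∈ S := fun i => (hS _).2
    ((Finset.le_sup (f := e) (Finset.mem_univ i)).trans le_sup_right)
  have hg : ∀ g ∈ G, ∀ a ∈ g.support, a ∈ S := fun g hg a ha => (hS _).2
    (((Finset.le_sup (f := id) ha).trans (Finset.le_sup (f := fun g : MvPolynomial (Fin n) k => g.support.sup id) hg)).trans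
      le_sup_left)
  -- the maps
  let θ : MvPolynomial {a // a ∈ S} k →ₐ[k] MvPolynomial (Fin n) k := aeval fun a => monomial a.1 1
  have hθ : ∀ a : {a // a ∈ S}, θ (X a) = monomial a.1 1 := fun a => by simp only [θ, aeval_X]
  have hθe : ∀ a ∈ S, θ (ev k S a) = monomial a 1 := fun a ha => by rw [ev_pos ha, hθ]
  let E1 : Finset (MvPolynomial {a // a ∈ S} k) := {ev k S 0 - 1}
  let E2 : Finset (MvPolynomial {a // a ∈ S} k) := ((S ×ˢ S).filter fun p => p.1 + p.2 ∈ S).image
    fun p => ev k S p.1 * ev k S p.2 - ev k S (p.1 + p.2)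
  let E3 : Finset (MvPolynomial {a // a ∈ S} k) := G.image (lin S)
  let E := E1 ∪ E2 ∪ E3
  let J : Ideal (MvPolynomial {a // a ∈ S} k) := Ideal.span (E : Set (MvPolynomial {a // a ∈ S} k))
  have hJ1 : ev k S 0 - 1 ∈ J := Ideal.subset_span (by
    simp only [E, E1, Finset.coe_union, Set.mem_union, Finset.mem_coe, Finset.mem_singleton, true_or])
  have hJ2 : ∀ a ∈ S, ∀ b ∈ S, a + b ∈ S → ev k S a * ev k S b - ev k S (a + b) ∈ J := by
    intro a ha b hb hab
    refine Ideal.subset_span ?_
    have : ev k S a * ev k S b - ev k S (a + b) ∈ E2 :=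
      Finset.mem_image.2 ⟨(a, b), Finset.mem_filter.2 ⟨Finset.mk_mem_product ha hb, hab⟩, rfl⟩
    simp only [E, Finset.coe_union, Set.mem_union, Finset.mem_coe, this, true_or, or_true]
  have hJ3 : ∀ g ∈ G, lin S g ∈ J := by
    intro g hg
    refine Ideal.subset_span ?_
    have : lin S g ∈ E3 := Finset.mem_image.2 ⟨g, hg, rfl⟩
    simp only [E, Finset.coe_union, Set.mem_union, Finset.mem_coe, this, or_true]
  let q : MvPolynomial {a // a ∈ S} k →ₐ[k] (MvPolynomial {a // a ∈ S} k ⧸ J) := Ideal.Quotient.mkₐ k J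
  have hq : ∀ x y, x - y ∈ J → q x = q y := fun x y h => (Ideal.Quotient.mk_eq_mk_iff_sub_mem x y).2 h
  let ψ : MvPolynomial (Fin n) k →ₐ[k] (MvPolynomial {a // a ∈ S} k ⧸ J) := aeval fun i => q (ev k S (e i))
  have hψ : ∀ i, ψ (X i) = q (ev k S (e i)) := fun i => by simp only [ψ, aeval_X]
  have key : ∀ N : ℕ, ∀ a : Fin n →₀ ℕ, a.sum (fun _ c => c) = N → a ∈ S → ψ (monomial a 1) = q (ev k S a) := by
    intro N
    induction N with
    | zero =>
      intro a hsum ha
      have ha0 : a = 0 := by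
        ext i
        rw [Finsupp.sum_fintype _ _ (fun _ => rfl)] at hsum
        exact (Finset.sum_eq_zero_iff.1 hsum) i (Finset.mem_univ i)
      subst ha0
      have h1 : (monomial (0 : Fin n →₀ ℕ) (1 : k)) = 1 := rfl
      rw [h1, map_one, hq _ _ hJ1, map_one]
    | succ N ih =>
      intro a hsum ha
      have hne : a ≠ 0 := by
        rintro rfl
        simp at hsum
      obtain ⟨i, hi⟩ := Finsupp.ne_iff.1 hne
      have hi' : 1 ≤ a i := Nat.one_le_iff_ne_zero.2 (by simpa using hi)
      have hle : e i ≤ a := by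
        simp only [e]
        exact Finsupp.single_le_iff.2 hi'
      have hdec : a - e i + e i = a := tsub_add_cancel_of_le hle
      have h1 : a - e i ∈ S := hlow _ _ tsub_le_self ha
      have h2 : (a - e i).sum (fun _ c => c) = N := by
        have h3 : (a - e i + e i).sum (fun _ c => c) = N + 1 := by rw [hdec, hsum]
        rw [Finsupp.sum_add_index' (fun _ => rfl) (fun _ _ _ => rfl)] at h3
        simp only [e, Finsupp.sum_single_index] at h3
        simp only [e]
        omega
      have h3 := ih _ h2 h1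
      have h4 : monomial a (1 : k) = monomial (a - e i) 1 * X i := by
        rw [X, monomial_mul, mul_one]
        change _ = monomial (a - e i + e i) (1 : k)
        rw [hdec]
      rw [h4, map_mul, h3, hψ, ← map_mul]
      have h5 := hq _ _ (hJ2 _ h1 _ (he i) (by rw [hdec]; exact ha))
      rw [hdec] at h5
      exact h5
  have hmon : ∀ a ∈ S, ψ (monomial a 1) = q (ev k S a) := fun a ha => key _ a rfl ha
  have hlin : ∀ g : MvPolynomial (Fin n) k, (∀ a ∈ g.support, a ∈ S) → ψ g = q (lin S g) := by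
    intro g hgS
    conv_lhs => rw [g.as_sum]
    simp only [lin, map_sum, map_mul]
    refine Finset.sum_congr rfl fun a ha => ?_
    have h1 : monomial a (g.coeff a) = C (g.coeff a) * monomial a 1 := by
      rw [C_mul_monomial, mul_one]
    rw [h1, map_mul, hmon a (hgS a ha)]
    congr 1
    rw [← algebraMap_eq, ← algebraMap_eq, AlgHom.commutes, AlgHom.commutes]
  have hθlin : ∀ g : MvPolynomial (Fin n) k, (∀ a ∈ g.support, a ∈ S) → θ (lin S g) = g := by
    intro g hgS
    conv_rhs => rw [g.as_sum]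
    simp only [lin, map_sum, map_mul]
    refine Finset.sum_congr rfl fun a ha => ?_
    rw [hθe a (hgS a ha)]
    have h1 : θ (C (g.coeff a)) = C (g.coeff a) := by
      rw [← algebraMap_eq, ← algebraMap_eq, AlgHom.commutes]
    rw [h1, C_mul_monomial, mul_one]
  have hker : RingHom.ker π.toRingHom ≤ RingHom.ker ψ.toRingHom := by
    rw [← hG, Ideal.span_le]
    intro g hgG
    have h1 : ψ g = 0 := by
      rw [hlin g (hg g hgG)]
      exact Ideal.Quotient.eq_zero_iff_mem.2 (hJ3 g hgG)
    exact h1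
  have hqθ : ∀ p, q p = ψ (θ p) := by
    have : q = ψ.comp θ := by
      refine MvPolynomial.algHom_ext fun a => ?_
      rw [AlgHom.comp_apply, hθ, hmon a.1 a.2, ev_pos a.2]
    intro p
    rw [this]
    rfl
  refine ⟨{a // a ∈ S}, inferInstance, E, π.comp θ, ?_, ?_, ?_⟩
  · intro b
    obtain ⟨p, rfl⟩ := hπ b
    refine ⟨aeval (fun i => ev k S (e i)) p, ?_⟩
    rw [AlgHom.comp_apply]
    congr 1
    have : (θ.comp (aeval fun i => ev k S (e i))) = AlgHom.id k _ := by
      refine MvPolynomial.algHom_ext fun i => ?_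
      rw [AlgHom.comp_apply, aeval_X, hθe _ (he i)]
      rfl
    exact DFunLike.congr_fun this p
  · apply le_antisymm
    · intro p hp
      have h1 : π (θ p) = 0 := hp
      have h2 : ψ (θ p) = 0 := hker h1
      rw [← hqθ] at h2
      exact Ideal.Quotient.eq_zero_iff_mem.1 h2
    · rw [Ideal.span_le]
      intro f hf
      change π (θ f) = 0
      simp only [E, Finset.coe_union, Set.mem_union, Finset.mem_coe] at hf
      rcases hf with (hf | hf) | hf
      · have h1 : (monomial (0 : Fin n →₀ ℕ) (1 : k)) = 1 := rfl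
        have h2 : θ 1 = 1 := map_one θ
        rw [Finset.mem_singleton.1 hf, map_sub, hθe _ h0, h1, h2, sub_self, map_zero]
      · obtain ⟨p, hp, rfl⟩ := Finset.mem_image.1 hf
        obtain ⟨hp1, hp2⟩ := Finset.mem_filter.1 hp
        obtain ⟨hp3, hp4⟩ := Finset.mem_product.1 hp1
        rw [map_sub, map_mul, hθe _ hp3, hθe _ hp4, hθe _ hp2, monomial_mul, mul_one, sub_self, map_zero]
      · obtain ⟨g, hgG, rfl⟩ := Finset.mem_image.1 hf
        rw [hθlin g (hg g hgG)]
        have : g ∈ RingHom.ker π.toRingHom := by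
          rw [← hG]
          exact Ideal.subset_span hgG
        exact this
  · intro f hf
    simp only [E, Finset.mem_union] at hf
    rcases hf with (hf | hf) | hf
    · rw [Finset.mem_singleton.1 hf]
      refine (totalDegree_sub _ _).trans (max_le ((ev_deg S 0).trans (by norm_num)) ?_)
      rw [totalDegree_one]
      norm_num
    · obtain ⟨p, hp, rfl⟩ := Finset.mem_image.1 hf
      refine (totalDegree_sub _ _).trans (max_le ?_ ((ev_deg S _).trans (by norm_num)))
      exact (totalDegree_mul _ _).trans (add_le_add (ev_deg S _) (ev_deg S _))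
    · obtain ⟨g, hgG, rfl⟩ := Finset.mem_image.1 hf
      exact (lin_deg S g).trans (by norm_num)

end QUAD

theorem t_QUAD : S_QUAD := by
  intro k A _ _ _ _
  classical
  obtain ⟨ι, hι, E, φ, h1, h2, h3⟩ := QUAD.general (k := k) (A := A)
  have := Fintype.ofFinite ι
  let r : ι ≃ Fin (Fintype.card ι) := Fintype.equivFin ι
  let ρ : MvPolynomial ι k ≃ₐ[k] MvPolynomial (Fin (Fintype.card ι)) k := MvPolynomial.renameEquiv k r
  refine ⟨Fintype.card ι, E.card, fun j => ρ (E.equivFin.symm j).1, φ.comp ρ.symm.toAlgHom, ?_, ?_, ?_⟩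
  · exact h1.comp ρ.symm.surjective
  · have hr : (Set.range fun j : Fin E.card => ρ (E.equivFin.symm j).1) = ρ '' (E : Set (MvPolynomial ι k)) := by
      ext x
      constructor
      · rintro ⟨j, rfl⟩
        exact ⟨_, (E.equivFin.symm j).2, rfl⟩
      · rintro ⟨y, hy, rfl⟩
        refine ⟨E.equivFin ⟨y, hy⟩, ?_⟩
        simp
    rw [hr]
    have h4 : Ideal.span (ρ '' (E : Set (MvPolynomial ι k))) =
        (Ideal.span (E : Set (MvPolynomial ι k))).map ρ.toAlgHom.toRingHom := by
      rw [Ideal.map_span]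
      rfl
    rw [h4, ← h2]
    ext x
    constructor
    · intro hx
      have h5 : φ (ρ.symm x) = 0 := hx
      have h6 : ρ.symm x ∈ RingHom.ker φ.toRingHom := h5
      have h7 := Ideal.mem_map_of_mem ρ.toAlgHom.toRingHom h6
      have h8 : ρ.toAlgHom.toRingHom (ρ.symm x) = x := ρ.apply_symm_apply x
      rw [h8] at h7
      exact h7
    · intro hx
      have h5 : (RingHom.ker φ.toRingHom).map ρ.toAlgHom.toRingHom ≤
          RingHom.ker (φ.comp ρ.symm.toAlgHom).toRingHom := by
        rw [Ideal.map_le_iff_le_comap]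
        intro y hy
        have h6 : φ y = 0 := hy
        change φ (ρ.symm (ρ y)) = 0
        rw [ρ.symm_apply_apply]
        exact h6
      exact h5 hx
  · intro j
    have h4 := h3 _ (E.equivFin.symm j).2
    have h5 : (ρ (E.equivFin.symm j).1).totalDegree ≤ ((E.equivFin.symm j).1).totalDegree := by
      change (MvPolynomial.rename r (E.equivFin.symm j).1).totalDegree ≤ _
      exact MvPolynomial.totalDegree_rename_le r _
    exact h5.trans h4

end CUB
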