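import Pool.Agent.CUB.V_LINE
import Pool.Agent.CUB.StmtsV

/-!
# CUB, block V: the reduction of a variety to its double cover
-/

set_option autoImplicit false

open Polynomial CategoryTheory AlgebraicGeometry

namespace CUB

open Pool.Agent.Lib_helper55.Beil Pool.Agent.Lib_helper66.OneP

universe v

variable {k : Type} [Field k] {E : Type} [Field E]

section Sheets

variable {R R' : Type} [CommRing R] [CommRing R'] [Algebra k R] [Algebra k R']

lemma sheet_yy {m : ℕ} (ψ : R →ₐ[k] R') (f : Fin m → R) (h : ∀ j, ψ (f j) = 0) (ε : Bool) :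
    sheet ψ f h ε (yy (lin f)) = if ε then 1 else 0 := Qlift_yy _ _ _

lemma sheet_alg {m : ℕ} (ψ : R →ₐ[k] R') (f : Fin m → R) (h : ∀ j, ψ (f j) = 0) (ε : Bool)
    (t : MvPolynomial (Fin m) R) :
    sheet ψ f h ε (algebraMap _ (VR R f) t) = MvPolynomial.mapAlgHom ψ t :=
  Qlift_algebraMap _ _ _ _

/-- The involution exchanges the sheets. -/
lemma sheet_tau {m : ℕ} (ψ : R →ₐ[k] R') (f : Fin m → R) (h : ∀ j, ψ (f j) = 0) :
    (sheet ψ f h false).comp (tauH (k := k) (lin f)) = sheet ψ f h true := by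
  apply Q_ext
  · intro t
    change sheet ψ f h false (tau (lin f) (algebraMap _ _ t)) = sheet ψ f h true (algebraMap _ _ t)
    rw [tau_algebraMap, sheet_alg, sheet_alg]
  · change sheet ψ f h false (tau (lin f) (yy _)) = sheet ψ f h true (yy _)
    rw [tau_yy, map_sub, map_one, sheet_yy, sheet_yy]
    simp

/-- The sheets factor over the restriction. -/
lemma sheet_factor {m : ℕ} (ψ : R →ₐ[k] R') (f : Fin m → R) (h : ∀ j, ψ (f j) = 0)
    (h' : ∀ j, AlgHom.id k R' (ψ (f j)) = 0) (ε : Bool) :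
    (sheet (AlgHom.id k R') (fun j => ψ (f j)) h' ε).comp (VRmap ψ f) = sheet ψ f h ε := by
  apply Q_ext
  · intro t
    change sheet (AlgHom.id k R') (fun j => ψ (f j)) h' ε (VRmap ψ f (algebraMap _ _ t)) =
      sheet ψ f h ε (algebraMap _ _ t)
    have h1 : VRmap ψ f (algebraMap _ (VR R f) t) = algebraMap _ _ (MvPolynomial.mapAlgHom ψ t) :=
      Qmap_algebraMap _ _ _
    rw [h1, sheet_alg, sheet_alg]
    exact MvPolynomial.map_id _
  · change sheet (AlgHom.id k R') (fun j => ψ (f j)) h' ε (VRmap ψ f (yy _)) =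
      sheet ψ f h ε (yy _)
    have h1 : VRmap ψ f (yy (lin f)) = yy _ := Qmap_yy _ _
    rw [h1, sheet_yy, sheet_yy]

variable {m : ℕ} (g : Fin m → R') (h' : ∀ j, AlgHom.id k R' (g j) = 0)

lemma sheet_id_alg (ε : Bool) (t : MvPolynomial (Fin m) R') :
    sheet (AlgHom.id k R') g h' ε (algebraMap _ (VR R' g) t) = t :=
  (sheet_alg _ _ _ _ _).trans (MvPolynomial.map_id _)

include h' in
lemma lin_zero : lin g = 0 := by
  unfold lin
  apply Finset.sum_eq_zero
  intro j _
  have : g j = 0 := h' j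
  rw [this, MvPolynomial.C_0, mul_zero]

include h' in
lemma yy_idem : (yy (lin g)) * (yy (lin g)) = yy (lin g) := by
  have h1 := yy_eq (lin g)
  have h2 : algebraMap _ (Q (MvPolynomial (Fin m) R') (lin g)) (lin g) = 0 := by
    have h3 := congrArg (algebraMap (MvPolynomial (Fin m) R') (VR R' g)) (lin_zero (k := k) g h')
    exact h3.trans (map_zero _)
  rw [h2] at h1
  linear_combination h1

lemma ker_sheet_true :
    RingHom.ker (sheet (AlgHom.id k R') g h' true).toRingHom = Ideal.span {1 - yy (lin g)} := by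
  apply le_antisymm
  · intro x hx
    obtain ⟨a, b, rfl⟩ := Q_span x
    have h1 : sheet (AlgHom.id k R') g h' true
        (algebraMap _ _ a + algebraMap _ _ b * yy (lin g)) = 0 := hx
    rw [map_add, map_mul, sheet_id_alg, sheet_id_alg, sheet_yy] at h1
    have h2 : a + b = 0 := by simpa using h1
    rw [Ideal.mem_span_singleton]
    refine ⟨algebraMap _ _ a, ?_⟩
    have h3 : algebraMap _ (VR R' g) a + algebraMap _ (VR R' g) b = 0 := by
      rw [← map_add, h2, map_zero]
    linear_combination (yy (lin g)) * h3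
  · rw [Ideal.span_singleton_le_iff_mem]
    change sheet (AlgHom.id k R') g h' true (1 - yy (lin g)) = 0
    rw [map_sub, map_one, sheet_yy]
    simp

lemma ker_sheet_false :
    RingHom.ker (sheet (AlgHom.id k R') g h' false).toRingHom = Ideal.span {yy (lin g)} := by
  apply le_antisymm
  · intro x hx
    obtain ⟨a, b, rfl⟩ := Q_span x
    have h1 : sheet (AlgHom.id k R') g h' false
        (algebraMap _ _ a + algebraMap _ _ b * yy (lin g)) = 0 := hx
    rw [map_add, map_mul, sheet_id_alg, sheet_id_alg, sheet_yy] at h1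
    have h2 : a = 0 := by simpa using h1
    rw [Ideal.mem_span_singleton]
    refine ⟨algebraMap _ _ b, ?_⟩
    rw [h2, map_zero]
    ring
  · rw [Ideal.span_singleton_le_iff_mem]
    change sheet (AlgHom.id k R') g h' false (yy (lin g)) = 0
    rw [sheet_yy]
    simp

lemma isLocalization_sheet_false :
    @IsLocalization.Away (VR R' g) _ (1 - yy (lin g)) (MvPolynomial (Fin m) R') _
      (sheet (AlgHom.id k R') g h' false).toRingHom.toAlgebra := by
  let : Algebra (VR R' g) (MvPolynomial (Fin m) R') :=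
    (sheet (AlgHom.id k R') g h' false).toRingHom.toAlgebra
  apply IsLocalization.away_of_isIdempotentElem
  · have := yy_idem (k := k) g h'
    unfold IsIdempotentElem
    linear_combination this
  · have h1 := ker_sheet_false (k := k) g h'
    have h2 : (1 - (1 - yy (lin g)) : VR R' g) = yy (lin g) := by ring
    rw [h2]
    exact h1
  · exact sheet_surjective _ Function.surjective_id _ h' false

end Sheets

/-! ## The reduction -/

section Red

variable (T : ∀ i : ℕ, Homology.{v} k E i)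
  {R R' : Type} [CommRing R] [CommRing R'] [Algebra k R] [Algebra k R']
  [Algebra.FiniteType k R] [Algebra.FiniteType k R']

/-- RED, injectivity. -/
theorem red_inj (X : Extra T) [PerfectField k] [CharZero E] (hPLIN : S_PLIN) (hGX : S_GX)
    (hGCO : S_GCO) (hFPX : S_FPX) (hCIN : S_CIN) (i m : ℕ) (f : Fin (m + 1) → R)
    (ψ : R →ₐ[k] R') (hψ : Function.Surjective ψ)
    (hk : RingHom.ker ψ.toRingHom = Ideal.span (Set.range f)) (h : ∀ j, ψ (f j) = 0)
    (hI : (T (i + (m + 1))).Inj (aff k (VR R f))) : (T i).Inj (aff k R') := by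
  rw [inj_iff_cls] at hI ⊢
  intro z hz
  obtain ⟨lam, hlam⟩ := hline T X hPLIN hGX hGCO hFPX R' i (m + 1)
  obtain ⟨d, hd⟩ := hFPX k R' (MvPolynomial (Fin (m + 1)) R') E (m + 1) i (mvC k R' (m + 1))
    (hGX.2 k R' (m + 1)) z
  have hd0 : cls T (i + (m + 1)) d = 0 := by
    rw [← hlam.cls z d hd, hz, map_zero]
  refine hCIN k R R' E m i f ψ hψ h hk z d hd (hI _ ?_)
  have h0 := cls_push T (i + (m + 1)) (sheet ψ f h false) (sheet_surjective ψ hψ f h false) d
  have h1 := cls_push T (i + (m + 1)) (sheet ψ f h true) (sheet_surjective ψ hψ f h true) d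
  rw [hd0, P_zero] at h0 h1
  rw [map_sub, ← h0, ← h1, sub_zero]

/-- RED, surjectivity. -/
theorem red_surj (X : Extra T) [PerfectField k] [CharZero E] (hKERQ : S_KERQ) (hVRL : S_VRL)
    (hPLIN : S_PLIN) (hGX : S_GX)
    (hGCO : S_GCO) (hFPX : S_FPX) (hCSU : S_CSU) (i m : ℕ) (f : Fin (m + 1) → R)
    (ψ : R →ₐ[k] R') (hψ : Function.Surjective ψ)
    (hk : RingHom.ker ψ.toRingHom = Ideal.span (Set.range f)) (h : ∀ j, ψ (f j) = 0)
    (hzr : ∀ z : RP k R i →₀ E, z ∈ rat k R E i)
    (hS : (T (i + (m + 1))).Surj (aff k (VR R f))) : (T i).Surj (aff k R') := by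
  rw [surj_iff_cls] at hS ⊢
  intro α hα
  obtain ⟨lam, hlam⟩ := hline T X hPLIN hGX hGCO hFPX R' i (m + 1)
  have h' : ∀ j, AlgHom.id k R' (ψ (f j)) = 0 := h
  -- notation
  let N := i + (m + 1)
  let g : Fin (m + 1) → R' := fun j => ψ (f j)
  let s0 := sheet (AlgHom.id k R') g h' false
  let s1 := sheet (AlgHom.id k R') g h' true
  have hs0 : Function.Surjective s0 := sheet_surjective _ Function.surjective_id _ h' false
  have hs1 : Function.Surjective s1 := sheet_surjective _ Function.surjective_id _ h' true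
  let I0 := (T N).push (2 * N) (clo s0 hs0)
  let I1 := (T N).push (2 * N) (clo s1 hs1)
  let V := (T N).push (2 * N) (clo (VRmap ψ f) (VRmap_surjective ψ hψ f))
  let τ := (T N).push (2 * N) (vcl (tau (k := k) (lin g)))
  let F := (T N).frob (2 * N) (aff k (MvPolynomial (Fin (m + 1)) R'))
  let a := lam α
  have ha : F a = a := by
    have := hlam.frob α
    rw [hα] at this
    exact this.symm
  -- the sheets are exchanged
  have hτ0 : ∀ x, τ (I0 x) = I1 x := fun x => X.push_comp N (2 * N) _ _ _ (clo s0 hs0)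
    (vcl (tau (k := k) (lin g))) (clo s1 hs1) (by
      change spm s0 ≫ spm (tauH (k := k) (lin g)) = spm s1
      rw [spm_comp]
      exact congrArg spm (sheet_tau (AlgHom.id k R') g h')) x
  have hττ : ∀ x, τ (τ x) = x := fun x => P_tau_tau T X N (2 * N) (lin g) x
  have hτ1 : ∀ x, τ (I1 x) = I0 x := fun x => by rw [← hτ0, hττ]
  -- the class of the difference of the sheets
  let δ := I0 a - I1 a
  have hFV : (T N).F (2 * N) _ (V δ) = V δ := by
    have e1 := (T N).equivariant.1 (2 * N) _ _ (clo (VRmap ψ f) (VRmap_surjective ψ hψ f)) δ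
    have e2 := (T N).equivariant.1 (2 * N) _ _ (clo s0 hs0) a
    have e3 := (T N).equivariant.1 (2 * N) _ _ (clo s1 hs1) a
    have e4 : (T N).F (2 * N) _ δ = δ := by
      change (T N).frob (2 * N) _ (I0 a - I1 a) = I0 a - I1 a
      rw [map_sub]
      change (T N).F (2 * N) _ ((T N).P (2 * N) (clo s0 hs0) a) -
        (T N).F (2 * N) _ ((T N).P (2 * N) (clo s1 hs1) a) = _
      rw [← e2, ← e3]
      change I0 (F a) - I1 (F a) = _
      rw [ha]
    rw [e4] at e1
    exact e1.symm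
  obtain ⟨ζ, hζ⟩ := hS (V δ) hFV
  obtain ⟨z₀, z₁, d₀, d₁, hd₀, hd₁, hrat⟩ := hCSU k R R' E m i f ψ hψ h hk hzr ζ
  let b0 := lam (cls T i z₀)
  let b1 := lam (cls T i z₁)
  have hb0 : b0 = cls T N d₀ := hlam.cls z₀ d₀ hd₀
  have hb1 : b1 = cls T N d₁ := hlam.cls z₁ d₁ hd₁
  have hsh : ∀ ε (hs : Function.Surjective (sheet (AlgHom.id k R') g h' ε)) x,
      (T N).P (2 * N) (clo (sheet ψ f h ε) (sheet_surjective ψ hψ f h ε)) x =
        V ((T N).push (2 * N) (clo (sheet (AlgHom.id k R') g h' ε) hs) x) := by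
    intro ε hs x
    refine (X.push_comp N (2 * N) _ _ _ (clo (sheet (AlgHom.id k R') g h' ε) hs)
      (clo (VRmap ψ f) (VRmap_surjective ψ hψ f))
      (clo (sheet ψ f h ε) (sheet_surjective ψ hψ f h ε)) ?_ x).symm
    change spm (sheet (AlgHom.id k R') g h' ε) ≫ spm (VRmap ψ f) = spm (sheet ψ f h ε)
    rw [spm_comp]
    exact congrArg spm (sheet_factor ψ f h h' ε)
  have hVδ : V δ = V (I0 b0) + V (I1 b1) := by
    have e1 := cls_rat T N _ hrat
    rw [map_sub, map_sub, ← cls_push, ← cls_push] at e1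
    have e2 : cls T N ζ = V δ := hζ
    rw [e2, ← hb0, ← hb1, hsh false hs0, hsh true hs1] at e1
    have e3 : V δ - V (I0 b0) - V (I1 b1) = 0 := e1
    rw [sub_sub, sub_eq_zero] at e3
    exact e3
  let δ' := δ - I0 b0 - I1 b1
  have hVδ' : V δ' = 0 := by
    change V (δ - I0 b0 - I1 b1) = 0
    rw [map_sub, map_sub, hVδ]
    abel
  have hτV : ∀ x, V (τ x) = (T N).push (2 * N) (vcl (tau (k := k) (lin f))) (V x) := fun x =>
    (P_tau_VRmap T X N (2 * N) f ψ hψ x).symm
  have hδ'' : δ' - τ δ' = 0 := by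
    refine hchain T X hKERQ hVRL (i + m) (2 * (i + m) + 1) m (List.finRange (m + 1)) f ψ hψ ?_
      (δ' - τ δ') ?_ ?_
    · rw [hk]
      congr 1
      ext x
      simp
    · change τ (δ' - τ δ') = -(δ' - τ δ')
      rw [map_sub, hττ]
      abel
    · change V (δ' - τ δ') = 0
      rw [map_sub, hVδ', hτV, hVδ', map_zero, sub_zero]
  let w := a - b0 + (a + b1)
  have hδI : δ' = I0 (a - b0) - I1 (a + b1) := by
    change I0 a - I1 a - I0 b0 - I1 b1 = _
    rw [map_sub, map_add]
    abel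
  have hτδ : τ δ' = I1 (a - b0) - I0 (a + b1) := by
    have e1 : τ δ' = τ (I0 (a - b0)) - τ (I1 (a + b1)) := (congrArg τ hδI).trans (map_sub τ _ _)
    rw [e1, hτ0, hτ1]
  have hw : I0 w = I1 w := by
    have e1 : I0 (a - b0) - I1 (a + b1) = I1 (a - b0) - I0 (a + b1) :=
      hδI.symm.trans ((sub_eq_zero.mp hδ'').trans hτδ)
    change I0 (a - b0 + (a + b1)) = I1 (a - b0 + (a + b1))
    rw [map_add I0, map_add I1]
    exact sub_eq_sub_iff_add_eq_add.mp e1
  -- restriction to the first sheet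
  have hloc := isLocalization_sheet_false (k := k) g h'
  have hc := complementary_away s0 (1 - yy (lin g)) hloc s1 hs1 (ker_sheet_true g h')
  have e0 : (T N).R (2 * N) (opn s0 (isOpenImmersion_spm s0 _ hloc)) (I0 w) = w :=
    X.clopen N (2 * N) _ _ (clo s0 hs0) (opn s0 (isOpenImmersion_spm s0 _ hloc)) rfl w
  have e1 : (T N).R (2 * N) (opn s0 (isOpenImmersion_spm s0 _ hloc)) (I1 w) = 0 :=
    (((T N).localisation (2 * N) _ _ _ _ _ hc).1 (I1 w)).mpr ⟨w, rfl⟩
  rw [hw, e1] at e0
  have e2 : lam ((2 : E) • α) = lam (cls T i (z₀ - z₁)) := by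
    rw [map_smul, map_sub, map_sub, two_smul]
    have e3 : a - b0 + (a + b1) = 0 := e0.symm
    have e4 : a + a = b0 - b1 := by
      rw [← sub_eq_zero]
      rw [← e3]
      abel
    exact e4
  have e5 := hlam.inj e2
  refine ⟨(2 : E)⁻¹ • (z₀ - z₁), ?_⟩
  rw [map_smul, ← e5, smul_smul, inv_mul_cancel₀ two_ne_zero, one_smul]

/-- RED. The cycle class maps of the variety `ψ : R → R'`, `R' = R / (f_0, ..., f_m)`, and of the double
cover `y ^ 2 - y = ∑ t_j f_j`. -/
theorem red_main (X : Extra T) [Finite k] [CharZero E] (hKERQ : S_KERQ) (hVRL : S_VRL)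
    (hPLIN : S_PLIN) (hGX : S_GX) (hGCO : S_GCO) (hFPX : S_FPX) (hCIN : S_CIN) (hCSU : S_CSU)
    (i m : ℕ) (f : Fin (m + 1) → R) (ψ : R →ₐ[k] R') (hψ : Function.Surjective ψ)
    (hk : RingHom.ker ψ.toRingHom = Ideal.span (Set.range f)) (h : ∀ j, ψ (f j) = 0)
    (hzr : ∀ z : RP k R i →₀ E, z ∈ rat k R E i) :
    ((T (i + (m + 1))).Inj (aff k (VR R f)) → (T i).Inj (aff k R')) ∧
    ((T (i + (m + 1))).Surj (aff k (VR R f)) → (T i).Surj (aff k R')) :=
  ⟨red_inj T X hPLIN hGX hGCO hFPX hCIN i m f ψ hψ hk h,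
    red_surj T X hKERQ hVRL hPLIN hGX hGCO hFPX hCSU i m f ψ hψ hk h hzr⟩

end Red

/-- RED. -/
theorem t_RED (hKERQ : S_KERQ) (hVRL : S_VRL) (hPLIN : S_PLIN) (hGX : S_GX) (hGCO : S_GCO)
    (hFPX : S_FPX) (hCIN : S_CIN) (hCSU : S_CSU) : S_RED.{v} := by
  intro k E _ _ _ _ T X R R' _ _ _ _ _ _ m i f ψ hψ hk hzr
  have h : ∀ j, ψ (f j) = 0 := by
    intro j
    have h1 : f j ∈ RingHom.ker ψ.toRingHom := by
      rw [hk]
      exact Ideal.subset_span ⟨j, rfl⟩
    exact h1
  exact red_main T X hKERQ hVRL hPLIN hGX hGCO hFPX hCIN hCSU i m f ψ hψ hk h hzr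

end CUB
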