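import Pool.Agent.CUB.StmtsV

/-!
# CUB, module SMI: smoothness is invariant under isomorphisms of algebras
-/

set_option autoImplicit false

open Polynomial CategoryTheory AlgebraicGeometry

namespace CUB

open Pool.Agent.Lib_helper55.Beil

/-- SMI. -/
theorem t_SMI : S_SMI := by
  intro k A B _ _ _ _ _ _ _ e h
  have h1 := (viso e).comm
  rw [← h1]
  exact (MorphismProperty.cancel_left_of_respectsIso @Smooth (viso e).e.hom (aff k A).f).2 h

end CUB
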