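import Pool.Agent.CUB.StmtsV

/-!
# CUB, module SMO: `VR P f` is smooth over `k` for a polynomial ring `P`
-/

set_option autoImplicit false

open Polynomial CategoryTheory AlgebraicGeometry

namespace CUB

open Pool.Agent.Lib_helper55.Beil

namespace SMO

/-- The standard etale pair of the double cover. -/
noncomputable def pair {T : Type} [CommRing T] (g : T) : StandardEtalePair T where
  f := asPoly g
  monic_f := asPoly_monic g
  g := derivative (asPoly g)
  cond := ⟨1, 0, 1, by simp⟩

lemma mk_derivative {T : Type} [CommRing T] (g : T) :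
    AdjoinRoot.mk (asPoly g) (derivative (asPoly g)) = 2 * yy g - 1 := by
  have h : derivative (asPoly g) = (2 : T[X]) * X - 1 := by
    simp [asPoly]
    norm_num
  rw [h, map_sub, map_mul, map_one, AdjoinRoot.mk_X, map_ofNat]
  rfl

lemma etale {T : Type} [CommRing T] (g : T) :
    Algebra.Etale T (Localization.Away (2 * yy g - 1)) := by
  rw [← mk_derivative g]
  exact Algebra.Etale.of_equiv (pair g).equivAwayAdjoinRoot

lemma smoothMv {k : Type} [Field k] {R : Type} [CommRing R] [Algebra k R]
    [Algebra.Smooth k R] (m : ℕ) : Algebra.Smooth k (MvPolynomial (Fin m) R) := by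
  have h : Algebra.Smooth R (MvPolynomial (Fin m) R) := ⟨inferInstance, inferInstance⟩
  exact Algebra.Smooth.comp k R _

lemma smoothX {k : Type} [Field k] {R : Type} [CommRing R] [Algebra k R]
    [Algebra.Smooth k R] : Algebra.Smooth k R[X] := by
  have h : Algebra.Smooth R R[X] := ⟨inferInstance, inferInstance⟩
  exact Algebra.Smooth.comp k R _

lemma smooth1 {k : Type} [Field k] {T : Type} [CommRing T] [Algebra k T] [Algebra.Smooth k T]
    (g : T) : Algebra.Smooth k (Localization.Away (2 * yy g - 1)) := by
  have := etale g
  exact Algebra.Smooth.comp k T _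

lemma smooth2 (hVRL : S_VRL) {k : Type} [Field k] {R : Type} [CommRing R] [Algebra k R]
    [Algebra.Smooth k R] (m : ℕ) (f : Fin (m + 1) → R) (l : Fin (m + 1)) :
    Algebra.Smooth k (Localization.Away (VRbase (k := k) f (f l))) := by
  obtain ⟨e, -⟩ := hVRL k R (Localization.Away (f l))
    (Localization.Away (VRbase (k := k) f (f l))) m f l
    (IsScalarTower.toAlgHom k R _) (IsScalarTower.toAlgHom k (VR R f) _)
    (by
      have h : (IsScalarTower.toAlgHom k R (Localization.Away (f l))).toRingHom.toAlgebra =
        (inferInstance : Algebra R (Localization.Away (f l))) := by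
        apply Algebra.algebra_ext
        intro r
        rfl
      rw [h]
      infer_instance)
    (by
      have h : (IsScalarTower.toAlgHom k (VR R f)
        (Localization.Away (VRbase (k := k) f (f l)))).toRingHom.toAlgebra =
        (inferInstance : Algebra (VR R f) (Localization.Away (VRbase (k := k) f (f l)))) := by
        apply Algebra.algebra_ext
        intro r
        rfl
      rw [h]
      infer_instance)
  have h0 : Algebra.Smooth R (Localization.Away (f l)) :=
    ⟨Algebra.FormallySmooth.of_isLocalization (.powers (f l)),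
      IsLocalization.Away.finitePresentation (f l)⟩
  have h1 : Algebra.Smooth k (Localization.Away (f l)) := Algebra.Smooth.comp k R _
  have h2 : Algebra.Smooth k (MvPolynomial (Fin m) (Localization.Away (f l))) := smoothMv _
  have h3 : Algebra.Smooth k (MvPolynomial (Fin m) (Localization.Away (f l)))[X] := smoothX
  exact Algebra.Smooth.of_equiv e.symm

/-- The open sets cover. -/
lemma span_top {k : Type} [Field k] {R : Type} [CommRing R] [Algebra k R] (m : ℕ)
    (f : Fin m → R) :
    Ideal.span (insert (2 * yy (lin f) - 1) (Set.range fun l => VRbase (k := k) f (f l))) = ⊤ := by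
  rw [Ideal.eq_top_iff_one]
  set I := Ideal.span (insert (2 * yy (lin f) - 1) (Set.range fun l => VRbase (k := k) f (f l)))
    with hI
  have h1 : 2 * yy (lin f) - 1 ∈ I := Ideal.subset_span (Set.mem_insert _ _)
  have h2 : algebraMap (MvPolynomial (Fin m) R) (VR R f) (lin f) ∈ I := by
    have h : algebraMap (MvPolynomial (Fin m) R) (VR R f) (lin f) =
        ∑ j, algebraMap (MvPolynomial (Fin m) R) (VR R f) (MvPolynomial.X j) *
          VRbase (k := k) f (f j) := by
      unfold lin
      rw [map_sum]
      refine Finset.sum_congr rfl fun j _ => ?_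
      rw [map_mul]
      rfl
    rw [h]
    exact Ideal.sum_mem _ fun j _ => Ideal.mul_mem_left _ _
      (Ideal.subset_span (Set.mem_insert_of_mem _ ⟨j, rfl⟩))
  have h3 : (1 : VR R f) = (2 * yy (lin f) - 1) * (2 * yy (lin f) - 1) -
      4 * algebraMap (MvPolynomial (Fin m) R) (VR R f) (lin f) := by
    linear_combination (-4 : VR R f) * yy_eq (lin f)
  rw [h3]
  exact Ideal.sub_mem _ (Ideal.mul_mem_left _ _ h1) (Ideal.mul_mem_left _ _ h2)

end SMO

/-- SMO. -/
theorem t_SMO : M_SMO := by
  intro hVRL k _ a b f
  refine (HasRingHomProperty.Spec_iff (P := @Smooth)).2 ?_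
  refine RingHom.Smooth.ofLocalizationSpanTarget _ _ (SMO.span_top (k := k) b f) ?_
  rintro ⟨r, hr⟩
  have hk : Algebra.Smooth k (MvPolynomial (Fin a) k) := SMO.smoothMv a
  have h0 : Algebra.Smooth k (Localization.Away r) := by
    rcases hr with rfl | ⟨l, rfl⟩
    · have h1 : Algebra.Smooth k (MvPolynomial (Fin b) (MvPolynomial (Fin a) k)) :=
        SMO.smoothMv b
      exact SMO.smooth1 _
    · cases b with
      | zero => exact l.elim0
      | succ m => exact SMO.smooth2 hVRL m f l
  exact RingHom.smooth_algebraMap.2 h0

end CUB
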