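import Pool.Agent.CUB.StmtsV
import Pool.Agent.Lib_helper55.Beil.Cover

/-!
# SURJ: surjectivity for all affine varieties gives it for all varieties, with semisimplicity
-/

set_option autoImplicit false

open Polynomial CategoryTheory AlgebraicGeometry

namespace CUB

open Pool.Agent.Lib_helper55.Beil

universe v

theorem t_SURJ : S_SURJ.{v} := by
  intro k E _ _ _ i T hT X
  have hc : T.CoverVanish := by
    intro d U _ _ _ hcov h0
    obtain ⟨g, hg, -, -⟩ := hcov
    have hU : IsAffine U.X := isAffine_of_isAffineHom g
    exact ⟨U, ⟨𝟙 _, Category.id_comp _, inferInstance⟩, inferInstance,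
      T.inv_zero_of_surj (hT U hU) h0⟩
  exact ⟨T.surj_of_good X (T.good_of_cover hc X), T.semisimple_of_good X (T.good_of_cover hc X)⟩

end CUB
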