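import Pool.Agent.CUB.A_DIM1
import Pool.Agent.CUB.A_DVX
import Pool.Agent.CUB.A_FP
import Pool.Agent.CUB.A_FPX
import Pool.Agent.CUB.A_GCO
import Pool.Agent.CUB.A_GET
import Pool.Agent.CUB.A_GLI
import Pool.Agent.CUB.A_GLO
import Pool.Agent.CUB.A_GVR
import Pool.Agent.CUB.A_GX
import Pool.Agent.CUB.A_HER
import Pool.Agent.CUB.A_LENA
import Pool.Agent.CUB.A_LENB
import Pool.Agent.CUB.A_LENC
import Pool.Agent.CUB.A_LOC
import Pool.Agent.CUB.A_PBC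
import Pool.Agent.CUB.A_PLIN
import Pool.Agent.CUB.A_PUSH
import Pool.Agent.CUB.A_RON
import Pool.Agent.CUB.A_VRL
import Pool.Agent.CUB.B_B1
import Pool.Agent.CUB.B_B2
import Pool.Agent.CUB.B_B3
import Pool.Agent.CUB.B_B4
import Pool.Agent.CUB.B_BETF
import Pool.Agent.CUB.B_BINJ
import Pool.Agent.CUB.B_BLIN
import Pool.Agent.CUB.B_BPU
import Pool.Agent.CUB.B_FPD
import Pool.Agent.CUB.B_INFA
import Pool.Agent.CUB.B_INFD
import Pool.Agent.CUB.B_INFL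
import Pool.Agent.CUB.B_KERQ
import Pool.Agent.CUB.B_L0
import Pool.Agent.CUB.B_L0M
import Pool.Agent.CUB.B_PCO
import Pool.Agent.CUB.B_TWO
import Pool.Agent.CUB.C_CHC
import Pool.Agent.CUB.C_CHI
import Pool.Agent.CUB.C_CHI2
import Pool.Agent.CUB.C_CHIV
import Pool.Agent.CUB.C_CIN
import Pool.Agent.CUB.C_CS1
import Pool.Agent.CUB.C_CS2
import Pool.Agent.CUB.C_CSU
import Pool.Agent.CUB.C_DEL
import Pool.Agent.CUB.C_DL1
import Pool.Agent.CUB.C_DLG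
import Pool.Agent.CUB.C_ETA
import Pool.Agent.CUB.C_MVI
import Pool.Agent.CUB.C_SHE
import Pool.Agent.CUB.C_ST0
import Pool.Agent.CUB.C_ST0A
import Pool.Agent.CUB.C_ST0B
import Pool.Agent.CUB.C_STP
import Pool.Agent.CUB.C_VRX
import Pool.Agent.CUB.C_WLO
import Pool.Agent.CUB.C_ZPOL
import Pool.Agent.CUB.R_AVO
import Pool.Agent.CUB.R_DEV
import Pool.Agent.CUB.R_DISJ
import Pool.Agent.CUB.R_FIN
import Pool.Agent.CUB.R_FINL
import Pool.Agent.CUB.R_GREC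
import Pool.Agent.CUB.R_GTD
import Pool.Agent.CUB.R_HHA
import Pool.Agent.CUB.R_KOS
import Pool.Agent.CUB.R_NM
import Pool.Agent.CUB.R_NORM
import Pool.Agent.CUB.R_PC
import Pool.Agent.CUB.R_R
import Pool.Agent.CUB.R_REC
import Pool.Agent.CUB.R_TAME
import Pool.Agent.CUB.R_TAMEF
import Pool.Agent.CUB.R_TDE
import Pool.Agent.CUB.R_TDF
import Pool.Agent.CUB.R_TDU
import Pool.Agent.CUB.R_VC1
import Pool.Agent.CUB.R_VC2
import Pool.Agent.CUB.V_CUV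
import Pool.Agent.CUB.V_MAIN
import Pool.Agent.CUB.V_PAD
import Pool.Agent.CUB.V_QUAD
import Pool.Agent.CUB.V_RED
import Pool.Agent.CUB.V_SMI
import Pool.Agent.CUB.V_SMO
import Pool.Agent.CUB.V_SURJ

/-!
# CUB: assembly of all modules
-/

set_option autoImplicit false

namespace CUB

namespace Asm

universe v

theorem s_QUAD : S_QUAD := t_QUAD

theorem s_PAD : S_PAD := t_PAD

theorem s_CUV : S_CUV := t_CUV

theorem s_VRL : S_VRL := t_VRL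

theorem s_SMO : S_SMO := t_SMO s_VRL

theorem s_SMI : S_SMI := t_SMI

theorem s_DIM1 : S_DIM1 := t_DIM1

theorem s_GCO : S_GCO := t_GCO

theorem s_GX : S_GX := t_GX s_DIM1 s_GCO

theorem s_FPX : S_FPX := t_FPX s_DIM1

theorem s_PLIN : S_PLIN := t_PLIN

theorem s_LENB : S_LENB := t_LENB

theorem s_LENC : S_LENC := t_LENC s_DIM1

theorem s_DVX : S_DVX := t_DVX s_DIM1 s_LENC

theorem s_HER : S_HER := t_HER

theorem s_FP : S_FP := t_FP s_DIM1 s_LENB s_LENC s_DVX s_HER s_FPX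

theorem s_LENA : S_LENA := t_LENA

theorem s_PUSH : S_PUSH := t_PUSH s_LENA

theorem s_PCO : S_PCO := t_PCO s_PUSH s_PLIN

theorem s_L0 : S_L0 := t_L0 s_DIM1 s_LENC s_DVX s_GX s_FPX s_PLIN

theorem s_L0M : S_L0M := t_L0M s_GX s_FPX s_PLIN s_GCO s_FP s_PCO s_L0

theorem s_ZPOL : S_ZPOL := t_ZPOL s_L0M

theorem s_KERQ : S_KERQ := t_KERQ

theorem s_GLO : S_GLO := t_GLO

theorem s_WLO : S_WLO := t_WLO

theorem s_PBC : S_PBC := t_PBC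

theorem s_GET : S_GET := t_GET

theorem s_TWO : S_TWO := t_TWO s_GLO

theorem s_INFA : S_INFA := t_INFA

theorem s_INFD : S_INFD := t_INFD s_INFA

theorem s_B1 : S_B1 := t_B1 s_DVX s_INFA s_INFD

theorem s_BLIN : S_BLIN := t_BLIN

theorem s_BETF : S_BETF := t_BETF s_DIM1 s_LENA s_INFA

theorem s_B2 : S_B2 := t_B2 s_DIM1 s_GX s_BETF

theorem s_TDU : S_TDU := t_TDU s_LENC

theorem s_INFL : S_INFL := t_INFL s_LENB s_INFA

theorem s_HHA : S_HHA := t_HHA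

theorem s_VC1 : S_VC1 := t_VC1

theorem s_VC2 : S_VC2 := t_VC2

theorem s_AVO : S_AVO := t_AVO s_VC1 s_VC2

theorem s_DEV : S_DEV := t_DEV

theorem s_KOS : S_KOS := t_KOS

theorem s_DISJ : S_DISJ := t_DISJ s_DEV s_KOS s_HHA

theorem s_TAMEF : S_TAMEF := t_TAMEF

theorem s_TAME : S_TAME := t_TAME s_HHA s_VC1 s_VC2 s_AVO s_DISJ s_TAMEF

theorem s_PC : S_PC := t_PC s_DEV s_HHA

theorem s_REC : S_REC := t_REC s_HHA s_VC1 s_VC2 s_TAME s_PC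

theorem s_NORM : S_NORM := t_NORM

theorem s_NM : S_NM := t_NM s_HHA s_VC2 s_NORM

theorem s_FIN : S_FIN := t_FIN

theorem s_FINL : S_FINL := t_FINL s_FIN

theorem s_GREC : S_GREC := t_GREC s_DIM1 s_LENA s_LENB s_HHA s_VC1 s_VC2 s_REC s_NM s_FINL

theorem s_GTD : S_GTD := t_GTD s_DIM1 s_FIN s_VC1 s_VC2

theorem s_TDF : S_TDF := t_TDF s_DIM1 s_LENA s_LENC s_DVX s_INFA s_INFD s_INFL s_GREC s_GTD

theorem s_TDE : S_TDE := t_TDE s_DIM1 s_DVX s_INFA s_INFD s_GTD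

theorem s_R : S_R := t_R s_LENC s_INFA s_TDU s_TDF s_TDE

theorem s_B3 : S_B3 := t_B3 s_B1 s_BLIN s_R

theorem s_BINJ : S_BINJ := t_BINJ s_FP s_GX s_L0 s_B2 s_B3 s_BLIN

theorem s_CHI2 : S_CHI2 := t_CHI2 s_PBC s_PLIN

theorem s_B4 : S_B4 := t_B4 s_PLIN s_BETF

theorem s_BPU : S_BPU := t_BPU s_BETF

theorem s_GLI : S_GLI := t_GLI

theorem s_CHI : S_CHI := t_CHI s_GLI

theorem s_FPD : S_FPD := t_FPD s_DIM1 s_LENB s_LENC s_DVX s_HER s_FPX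

theorem s_CHIV : S_CHIV := t_CHIV

theorem s_DLG : S_DLG := t_DLG s_R s_FPD s_CHI s_CHIV

theorem s_DL1 : S_DL1 := t_DL1 s_FPX s_FP s_PLIN s_CHI s_B1 s_BLIN s_B3 s_DLG

theorem s_DEL : S_DEL := t_DEL s_PUSH s_PLIN s_CHI2 s_B4 s_BPU s_DL1

theorem s_ETA : S_ETA := t_ETA s_GET

theorem s_ST0A : S_ST0A := t_ST0A s_FP s_FPX s_PBC s_PLIN s_GCO s_GLO s_GET s_PCO s_KERQ s_TWO s_L0 s_B1 s_BLIN s_BINJ s_DEL s_WLO s_ETA

theorem s_LOC : S_LOC := t_LOC s_DIM1 s_LENB s_LENC s_DVX s_GLO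

theorem s_ST0B : S_ST0B := t_ST0B s_LOC s_PCO

theorem s_ST0 : S_ST0 := t_ST0 s_GLO s_FPX s_KERQ s_WLO s_ST0A s_ST0B

theorem s_VRX : S_VRX := t_VRX

theorem s_STP : S_STP := t_STP s_PCO s_ST0 s_VRX

theorem s_CHC : S_CHC := t_CHC s_PCO s_STP

theorem s_SHE : S_SHE := t_SHE s_TWO s_PCO s_FPX

theorem s_MVI : S_MVI := t_MVI s_GX s_FPX s_PLIN s_GCO s_PCO s_B2 s_B3

theorem s_CIN : S_CIN := t_CIN s_FP s_PLIN s_CHC s_SHE s_MVI

theorem s_GVR : S_GVR := t_GVR s_DIM1 s_GCO s_GX s_GLO s_GET s_VRL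

theorem s_RON : S_RON := t_RON

theorem s_CS1 : S_CS1 := t_CS1 s_FP s_FPX s_PLIN s_GCO s_GX s_GLO s_GVR s_VRL s_LOC s_PUSH s_PCO s_KERQ s_L0 s_L0M

theorem s_CS2 : S_CS2 := t_CS2 s_PUSH s_RON s_PLIN s_PBC s_FPX s_GVR s_PCO s_KERQ s_CS1

theorem s_CSU : S_CSU := t_CSU s_FP s_GVR s_PUSH s_RON s_L0M s_SHE s_CS2

theorem s_RED : S_RED.{v} := t_RED.{v} s_KERQ s_VRL s_PLIN s_GX s_GCO s_FPX s_CIN s_CSU

theorem s_MAIN : S_MAIN.{v} := t_MAIN.{v} s_QUAD s_PAD s_CUV s_SMO s_SMI s_ZPOL s_RED.{v}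

theorem s_SURJ : S_SURJ.{v} := t_SURJ.{v}

end Asm

end CUB
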