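import Pool.Agent.CUB.Defs2
import Pool.Agent.CUB.Dim1
import Pool.Agent.Lib_helper55.Beil.Cover

/-!
# CUB: points and cycles of affine varieties
-/

set_option autoImplicit false

open Polynomial CategoryTheory AlgebraicGeometry

namespace CUB

open Pool.Agent.Lib_helper55.Beil

variable {k : Type} [Field k] {A B : Type} [CommRing A] [CommRing B] [Algebra k A] [Algebra k B]
  [Algebra.FiniteType k A] [Algebra.FiniteType k B]

/-- The point of `Spec A` defined by a prime ideal. -/
def toPt (x : PrimeSpectrum A) : (aff k A).X := x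

/-- The prime ideal defined by a point of `Spec A`. -/
def ofPt (x : (aff k A).X) : PrimeSpectrum A := x

@[simp] lemma toPt_ofPt (x : (aff k A).X) : toPt (ofPt x) = x := rfl

@[simp] lemma ofPt_toPt (x : PrimeSpectrum A) : ofPt (toPt (k := k) x) = x := rfl

lemma spm_toPt (φ : A →ₐ[k] B) (x : PrimeSpectrum B) :
    spm φ (toPt x) = toPt (PrimeSpectrum.comap φ.toRingHom x) := rfl

instance aff_isAffine : IsAffine (aff k A).X := by
  unfold aff
  infer_instance

instance aff_isIntegral [IsDomain A] : AlgebraicGeometry.IsIntegral (aff k A).X := by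
  unfold aff
  infer_instance

lemma genericPoint_aff [IsDomain A] : genericPoint (aff k A).X = toPt ⟨⊥, Ideal.isPrime_bot⟩ :=
  genericPoint_eq_bot_of_affine (CommRingCat.of A)

lemma dim_generic_aff [IsDomain A] :
    (aff k A).dim (genericPoint (aff k A).X) = Algebra.trdeg k A := by
  let V : Var k := aff k A
  let ι : A ≃+* Γ(V.X, ⊤) := (Scheme.ΓSpecIso (CommRingCat.of A)).commRingCatIsoToRingEquiv.symm
  let ψ : k →+* Γ(V.X, ⊤) := ι.toRingHom.comp (algebraMap k A)
  have hψ : Spec.map (CommRingCat.ofHom ψ) = (isAffineOpen_top V.X).fromSpec ≫ V.f := by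
    rw [IsAffineOpen.fromSpec_top]
    have h1 : V.X.isoSpec.inv = Spec.map (Scheme.ΓSpecIso (CommRingCat.of A)).inv :=
      Scheme.isoSpec_Spec_inv _
    rw [h1]
    have key : Spec.map (CommRingCat.ofHom (algebraMap k A) ≫
        (Scheme.ΓSpecIso (CommRingCat.of A)).inv) =
        Spec.map (Scheme.ΓSpecIso (CommRingCat.of A)).inv ≫
          Spec.map (CommRingCat.ofHom (algebraMap k A)) := Spec.map_comp _ _
    exact key
  rw [dim_generic_eq V ⊤ (isAffineOpen_top V.X) trivial ψ hψ]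
  let : Algebra k Γ(V.X, ⊤) := ψ.toAlgebra
  let e : A ≃ₐ[k] Γ(V.X, ⊤) := AlgEquiv.ofRingEquiv (f := ι) (fun r => rfl)
  exact e.trdeg_eq.symm

/-- The closed immersion `Spec (A / q) → Spec A`. -/
noncomputable def cq (q : Ideal A) : ClosedIn (aff k (A ⧸ q)) (aff k A) :=
  clo (Ideal.Quotient.mkₐ k q) (Ideal.Quotient.mkₐ_surjective k q)

theorem dim_toPt (x : PrimeSpectrum A) : (aff k A).dim (toPt x) = rdim k x := by
  have hc : IsClosedImmersion (cq (k := k) x.asIdeal).g := (cq x.asIdeal).closed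
  have h1 := dim_map (cq (k := k) x.asIdeal).g (cq x.asIdeal).comm
    (genericPoint (aff k (A ⧸ x.asIdeal)).X)
  rw [dim_generic_aff] at h1
  rw [genericPoint_aff] at h1
  have h2 : (cq (k := k) x.asIdeal).g (toPt ⟨⊥, Ideal.isPrime_bot⟩) = toPt x := by
    change toPt _ = toPt x
    congr 1
    apply PrimeSpectrum.ext
    change Ideal.comap (Ideal.Quotient.mk x.asIdeal) ⊥ = x.asIdeal
    exact Ideal.mk_ker
  rw [h2] at h1
  exact h1

/-- The points of dimension `n`. -/
noncomputable def ptE (n : ℕ) : RP k A n ≃ Pts n (aff k A) where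
  toFun p := ⟨toPt p.1, (dim_toPt p.1).trans p.2⟩
  invFun p := ⟨ofPt p.1, (dim_toPt (ofPt p.1)).symm.trans p.2⟩
  left_inv _ := rfl
  right_inv _ := rfl

@[simp] lemma ptE_val (n : ℕ) (p : RP k A n) : (ptE n p).1 = toPt p.1 := rfl

variable (E : Type) [Field E]

/-- Cycles on `Spec A`. -/
noncomputable def cyE (n : ℕ) : (RP k A n →₀ E) ≃ₗ[E] (Pts n (aff k A) →₀ E) :=
  Finsupp.domLCongr (ptE n)

variable {E}

lemma cyE_apply {n : ℕ} (c : RP k A n →₀ E) (p : RP k A n) : cyE E n c (ptE n p) = c p := by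
  unfold cyE
  simp [Finsupp.domLCongr_apply]

lemma cyE_apply' {n : ℕ} (c : RP k A n →₀ E) (p : PrimeSpectrum A) (h : rdim k p = n)
    (h' : (aff k A).dim (toPt p) = n) : cyE E n c ⟨toPt p, h'⟩ = c ⟨p, h⟩ :=
  cyE_apply c ⟨p, h⟩

lemma cyE_single {n : ℕ} (p : RP k A n) (e : E) :
    cyE E n (Finsupp.single p e) = Finsupp.single (ptE n p) e := by
  unfold cyE
  simp [Finsupp.domLCongr_apply]

end CUB
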