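import Pool.Agent.CUB.Defs
import Pool.Agent.Lib_helper55.Beil.Defs
import Pool.Agent.Lib_helper66.OneP.Ord

/-!
# CUB: lengths and orders of vanishing
-/

set_option autoImplicit false

open Polynomial CategoryTheory AlgebraicGeometry

namespace CUB

open Pool.Agent.Lib_helper55.Beil Pool.Agent.Lib_helper66.OneP

section Len

lemma length_comap {R S : Type} [CommRing R] [CommRing S] (π : R →+* S)
    (hπ : Function.Surjective π) (J : Ideal S) :
    Module.length R (R ⧸ J.comap π) = Module.length S (S ⧸ J) := by
  let : Algebra R S := π.toAlgebra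
  have h1 : Module.length R (S ⧸ J) = Module.length S (S ⧸ J) :=
    Module.length_eq_of_surjective (R := S) (S := R) hπ
  rw [← h1]
  let f : R →ₗ[R] (S ⧸ J) := (J.mkQ.restrictScalars R).comp (Algebra.linearMap R S)
  have hf : Function.Surjective f := J.mkQ_surjective.comp hπ
  have hk : LinearMap.ker f = J.comap π := by
    ext r
    exact Ideal.Quotient.eq_zero_iff_mem
  exact ((Submodule.quotEquivOfEq _ _ hk.symm).trans (f.quotKerEquivOfSurjective hf)).length_eq

variable {A B : Type} [CommRing A] [CommRing B]

/-- Lengths and surjective homomorphisms. -/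
theorem len_comap (φ : A →+* B) (hφ : Function.Surjective φ) (J : Ideal A)
    (hJ : RingHom.ker φ ≤ J) (P : PrimeSpectrum B) :
    len J (PrimeSpectrum.comap φ P) = len (J.map φ) P := by
  have hp : (PrimeSpectrum.comap φ P).asIdeal = P.asIdeal.comap φ := rfl
  let π : Localization.AtPrime (PrimeSpectrum.comap φ P).asIdeal →+*
      Localization.AtPrime P.asIdeal := Localization.localRingHom _ _ φ hp
  have hπ : Function.Surjective π :=
    (RingHom.surjectiveOnStalks_of_surjective hφ).localRingHom_surjective _ _ hp
  have key : J.map (algebraMap A (Localization.AtPrime (PrimeSpectrum.comap φ P).asIdeal)) =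
      ((J.map φ).map (algebraMap B (Localization.AtPrime P.asIdeal))).comap π := by
    apply le_antisymm
    · rw [Ideal.map_le_iff_le_comap]
      intro a ha
      have h1 : π (algebraMap A _ a) = algebraMap B _ (φ a) :=
        Localization.localRingHom_to_map _ _ _ _ a
      have h2 : algebraMap B (Localization.AtPrime P.asIdeal) (φ a) ∈
          (J.map φ).map (algebraMap B (Localization.AtPrime P.asIdeal)) :=
        Ideal.mem_map_of_mem _ (Ideal.mem_map_of_mem _ ha)
      change π (algebraMap A _ a) ∈
        (J.map φ).map (algebraMap B (Localization.AtPrime P.asIdeal))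
      rw [h1]
      exact h2
    · intro x hx
      obtain ⟨a, s, rfl⟩ := IsLocalization.exists_mk'_eq
        (PrimeSpectrum.comap φ P).asIdeal.primeCompl x
      have h1 : π (IsLocalization.mk' _ a s) = IsLocalization.mk' _ (φ a)
          (⟨φ s.1, s.2⟩ : P.asIdeal.primeCompl) := Localization.localRingHom_mk' _ _ _ _ a s
      have h2 : IsLocalization.mk' (Localization.AtPrime P.asIdeal) (φ a)
          (⟨φ s.1, s.2⟩ : P.asIdeal.primeCompl) ∈
            (J.map φ).map (algebraMap B (Localization.AtPrime P.asIdeal)) := h1 ▸ hx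
      rw [IsLocalization.mk'_mem_map_algebraMap_iff P.asIdeal.primeCompl] at h2
      obtain ⟨t, ht, ht2⟩ := h2
      obtain ⟨t, rfl⟩ := hφ t
      rw [← map_mul, Ideal.mem_map_iff_of_surjective φ hφ] at ht2
      obtain ⟨b, hb, hb2⟩ := ht2
      rw [IsLocalization.mk'_mem_map_algebraMap_iff (PrimeSpectrum.comap φ P).asIdeal.primeCompl]
      refine ⟨t, ht, ?_⟩
      have h3 : t * a - b ∈ J := hJ (by rw [RingHom.mem_ker, map_sub, hb2, sub_self])
      have h4 := J.add_mem h3 hb
      rwa [sub_add_cancel] at h4
  unfold len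
  rw [key, length_comap π hπ]

/-- The length is zero at primes which do not contain the ideal. -/
theorem len_eq_zero {I : Ideal A} {p : PrimeSpectrum A} (h : ¬ I ≤ p.asIdeal) : len I p = 0 := by
  unfold len
  have h1 : I.map (algebraMap A (Localization.AtPrime p.asIdeal)) = ⊤ := by
    obtain ⟨a, ha, hap⟩ := Set.not_subset.mp h
    rw [Ideal.eq_top_iff_one]
    have h2 : IsUnit (algebraMap A (Localization.AtPrime p.asIdeal) a) :=
      IsLocalization.map_units (M := p.asIdeal.primeCompl) _ ⟨a, hap⟩
    exact (Ideal.eq_top_iff_one _).mp (Ideal.eq_top_of_isUnit_mem _ (Ideal.mem_map_of_mem _ ha) h2)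
  rw [h1]
  have h2 : Subsingleton (Localization.AtPrime p.asIdeal ⧸
      (⊤ : Ideal (Localization.AtPrime p.asIdeal))) :=
    Ideal.Quotient.subsingleton_iff.mpr rfl
  rw [Module.length_eq_zero]
  rfl

lemma len_span (a : A) (p : PrimeSpectrum A) : len (Ideal.span {a}) p =
    (Ring.ord (Localization.AtPrime p.asIdeal)
      (algebraMap A (Localization.AtPrime p.asIdeal) a)).toNat := by
  unfold len Ring.ord
  rw [Ideal.map_span, Set.image_singleton]

/-- The length of `A / (q + (a))` at a prime containing `q`, computed in `A / q`. -/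
theorem len_quot (q : Ideal A) (a : A) (P : PrimeSpectrum (A ⧸ q)) :
    len (q ⊔ Ideal.span {a}) (PrimeSpectrum.comap (Ideal.Quotient.mk q) P) =
      len (Ideal.span {Ideal.Quotient.mk q a}) P := by
  rw [len_comap _ Ideal.Quotient.mk_surjective _ (by rw [Ideal.mk_ker]; exact le_sup_left)]
  rw [Ideal.map_sup, Ideal.map_quotient_self, bot_sup_eq, Ideal.map_span, Set.image_singleton]

end Len

section Ord

variable {R : CommRingCat.{0}} [IsDomain R]

/-- A function as an element of the function field. -/
noncomputable def fn (a : R) : (Spec R).functionField :=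
  algebraMap R (Spec R).functionField a

lemma fn_injective : Function.Injective (fn (R := R)) :=
  IsFractionRing.injective R (Spec R).functionField

lemma fn_zero : fn (0 : R) = 0 := map_zero _

lemma fn_ne_zero {a : R} (ha : a ≠ 0) : fn a ≠ 0 := fun h => ha (fn_injective (h.trans fn_zero.symm))

lemma exists_fn (φ : (Spec R).functionField) (hφ : φ ≠ 0) :
    ∃ a b : R, a ≠ 0 ∧ b ≠ 0 ∧ φ * fn b = fn a := by
  obtain ⟨a, b, hb, h⟩ := IsFractionRing.div_surjective (A := R) φ
  have hb0 : b ≠ 0 := nonZeroDivisors.ne_zero hb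
  have hb1 : (algebraMap R (Spec R).functionField b) ≠ 0 := fn_ne_zero hb0
  refine ⟨a, b, ?_, hb0, ?_⟩
  · rintro rfl
    apply hφ
    rw [← h, map_zero, zero_div]
  · rw [← h]
    exact div_mul_cancel₀ _ hb1

/-- A point of `Spec R` as a prime ideal. -/
def pr {R : CommRingCat.{0}} (x : Spec R) : PrimeSpectrum R := x

/-- The germ of a function. -/
noncomputable def st (x : Spec R) : R →+* (Spec R).presheaf.stalk x :=
  (StructureSheaf.toStalk R (pr x)).hom

lemma fn_eq (x : Spec R) (a : R) :
    fn a = algebraMap ((Spec R).presheaf.stalk x) (Spec R).functionField (st x a) := by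
  have := StructureSheaf.toStalk_stalkSpecializes (R := R) (x := genericPoint (Spec R))
    (y := x) (genericPoint_specializes _)
  exact (congrArg (fun f => f.hom a) this).symm

lemma st_injective (x : Spec R) : Function.Injective (st x) := by
  intro b c hbc
  apply fn_injective
  rw [fn_eq x, fn_eq x, hbc]

lemma ord_st (x : Spec R) (a : R) :
    Ring.ord ((Spec R).presheaf.stalk x) (st x a) =
      Ring.ord (Localization.AtPrime (pr x).asIdeal)
        (algebraMap R (Localization.AtPrime (pr x).asIdeal) a) := by
  let : Algebra R ((Spec R).presheaf.stalk x) := (st x).toAlgebra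
  have hloc : IsLocalization.AtPrime ((Spec R).presheaf.stalk x)
      (pr x).asIdeal :=
    StructureSheaf.IsLocalization.to_stalk (R := R) (pr x)
  let e : Localization.AtPrime (pr x).asIdeal ≃ₐ[R]
      (Spec R).presheaf.stalk x :=
    IsLocalization.algEquiv (pr x).asIdeal.primeCompl _ _
  have h1 : st x a = e (algebraMap R _ a) := (e.commutes a).symm
  rw [h1]
  exact ord_ringEquiv e.toRingEquiv _

/-- The order of vanishing of a function at a point of codimension one is a length. -/
theorem ord_fn [IsNoetherianRing R] (a : R) (ha : a ≠ 0) (x : Spec R)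
    (hx : Order.coheight x = 1) :
    Scheme.ord (fn a) x = (len (Ideal.span {a}) (pr x) : ℤ) := by
  have i1 : Ring.KrullDimLE 1 ((Spec R).presheaf.stalk x) := krullDimLE_of_coheight_le hx.le
  have hsta : st x a ≠ 0 := fun h => ha (st_injective x (h.trans (map_zero _).symm))
  have hnzd : st x a ∈ nonZeroDivisors ((Spec R).presheaf.stalk x) :=
    mem_nonZeroDivisors_of_ne_zero hsta
  have hfin := Ring.ord_ne_top hnzd
  have h2 : Ring.ord ((Spec R).presheaf.stalk x) (st x a) =
      ((len (Ideal.span {a}) (pr x) : ℕ) : ℕ∞) := by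
    rw [len_span, ← ord_st]
    exact (ENat.natCast_toNat hfin).symm
  have h3 : Scheme.ordHom x hx (fn a) =
      Ring.ordMonoidWithZeroHom ((Spec R).presheaf.stalk x) (st x a) := by
    rw [fn_eq x]
    exact Ring.ordFrac_eq_ord _ hsta
  rw [Scheme.ord_eq_iff hx (fn_ne_zero ha), h3]
  exact Ring.ordMonoidWithZeroHom_eq_coe _ hnzd h2

end Ord

end CUB
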