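import Pool.Agent.CUB.BR1
import Pool.Agent.CUB.BR2
import Pool.Agent.Lib_helper66.OneP.Loc

/-!
# CUB: rational equivalence on affine varieties
-/

set_option autoImplicit false

open Polynomial CategoryTheory AlgebraicGeometry

namespace CUB

open Pool.Agent.Lib_helper55.Beil Pool.Agent.Lib_helper66.OneP

variable {k : Type} [Field k]

section Coheight

variable {D : Type} [CommRing D] [Algebra k D] [Algebra.FiniteType k D] [IsDomain D]

lemma rdim_bot : rdim k (⟨⊥, Ideal.isPrime_bot⟩ : PrimeSpectrum D) = Algebra.trdeg k D :=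
  (AlgEquiv.quotientBot k D).trdeg_eq

/-- A point of dimension one less than the dimension has codimension one. -/
theorem coheight_eq_one {n : ℕ} (hD : Algebra.trdeg k D = (n + 1 : ℕ)) (x : (aff k D).X)
    (hx : rdim k (ofPt x) = n) : Order.coheight x = 1 := by
  have hbot : rdim k (⟨⊥, Ideal.isPrime_bot⟩ : PrimeSpectrum D) = (n + 1 : ℕ) := rdim_bot.trans hD
  have hne : ofPt x ≠ ⟨⊥, Ideal.isPrime_bot⟩ := by
    intro h
    rw [h, hbot] at hx
    have : n + 1 = n := by exact_mod_cast hx
    omega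
  have hlt : (⟨⊥, Ideal.isPrime_bot⟩ : PrimeSpectrum D) < ofPt x :=
    lt_of_le_of_ne (fun _ h => by
      have h0 : _ = (0 : D) := h
      rw [h0]
      exact (ofPt x).asIdeal.zero_mem) hne.symm
  apply le_antisymm
  · have h1 : Order.coheight x ≤ ((1 : ℕ) : ℕ∞) := by
      rw [Order.coheight_le_coe_iff]
      intro y hy
      have h2 : y ⤳ x := hy.le
      have h3 : ofPt y ≤ ofPt x := (PrimeSpectrum.le_iff_specializes _ _).mpr h2
      have h4 : ofPt y ≠ ofPt x := by
        intro h
        have h5 : y = x := h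
        exact hy.ne h5.symm
      have h5 : ofPt y < ofPt x := lt_of_le_of_ne h3 h4
      have h6 := rdim_add_one_le (k := k) h5
      rw [hx] at h6
      have h7 : ofPt y = ⟨⊥, Ideal.isPrime_bot⟩ := by
        by_contra hcon
        have h8 : (⟨⊥, Ideal.isPrime_bot⟩ : PrimeSpectrum D) < ofPt y :=
          lt_of_le_of_ne (fun _ h => by
            have h0 : _ = (0 : D) := h
            rw [h0]
            exact (ofPt y).asIdeal.zero_mem) (fun h => hcon h.symm)
        have h9 := rdim_lt (k := k) h8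
        rw [hbot] at h9
        have h10 : ((n : Cardinal) + 1) < ((n + 1 : ℕ) : Cardinal) := h6.trans_lt h9
        rw [Nat.cast_add, Nat.cast_one] at h10
        exact lt_irrefl _ h10
      have h8 : Order.coheight y = 0 := by
        rw [Order.coheight_eq_zero]
        intro z hz
        have h9 : z ⤳ y := hz
        have h10 : ofPt z ≤ ofPt y := (PrimeSpectrum.le_iff_specializes _ _).mpr h9
        have h11 : ofPt z = ofPt y := by
          apply le_antisymm h10
          rw [h7]
          intro _ h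
          have h0 : _ = (0 : D) := h
          rw [h0]
          exact (ofPt z).asIdeal.zero_mem
        have h12 : z = y := h11
        rw [h12]
      rw [h8]
      exact_mod_cast Nat.zero_lt_one
    exact_mod_cast h1
  · rw [Order.one_le_iff_pos, Order.coheight_pos]
    intro hmax
    have h1 : toPt (k := k) (⟨⊥, Ideal.isPrime_bot⟩ : PrimeSpectrum D) ⤳ x :=
      (PrimeSpectrum.le_iff_specializes _ _).mp hlt.le
    have h2 : x ≤ toPt (k := k) (⟨⊥, Ideal.isPrime_bot⟩ : PrimeSpectrum D) := h1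
    have h3 : x ⤳ toPt (k := k) (⟨⊥, Ideal.isPrime_bot⟩ : PrimeSpectrum D) := hmax h2
    have h4 : ofPt x ≤ ⟨⊥, Ideal.isPrime_bot⟩ := (PrimeSpectrum.le_iff_specializes _ _).mpr h3
    exact hlt.not_ge h4

variable (k) in
/-- A function as an element of the function field of `Spec D`. -/
noncomputable def fnA (a : D) : (aff k D).X.functionField := fn (R := CommRingCat.of D) a

lemma fnA_ne_zero {a : D} (ha : a ≠ 0) : fnA k a ≠ 0 := fn_ne_zero (R := CommRingCat.of D) ha

lemma exists_fnA (φ : (aff k D).X.functionField) (hφ : φ ≠ 0) :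
    ∃ a b : D, a ≠ 0 ∧ b ≠ 0 ∧ φ * fnA k b = fnA k a :=
  exists_fn (R := CommRingCat.of D) φ hφ

theorem ord_fnA {n : ℕ} (hD : Algebra.trdeg k D = (n + 1 : ℕ)) (a : D) (ha : a ≠ 0)
    (x : (aff k D).X) (hx : rdim k (ofPt x) = n) :
    Scheme.ord (fnA k a) x = (len (Ideal.span {a}) (ofPt x) : ℤ) := by
  have h1 := coheight_eq_one hD x hx
  have hN : IsNoetherianRing D := Algebra.FiniteType.isNoetherianRing k D
  exact ord_fn (R := CommRingCat.of D) a ha x h1

end Coheight

section Main

variable {A : Type} [CommRing A] [Algebra k A] [Algebra.FiniteType k A] {E : Type} [Field E]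
  {n : ℕ}

lemma cq_toPt (q : Ideal A) (x : PrimeSpectrum (A ⧸ q)) :
    (cq (k := k) q).g (toPt x) = toPt (PrimeSpectrum.comap (Ideal.Quotient.mk q) x) := rfl

lemma rdim_comap_mk (q : Ideal A) (x : PrimeSpectrum (A ⧸ q)) :
    rdim k (PrimeSpectrum.comap (Ideal.Quotient.mk q) x) = rdim k x :=
  rdim_comap (Ideal.Quotient.mkₐ k q) (Ideal.Quotient.mkₐ_surjective k q) x

lemma mem_range_cq (q : Ideal A) (p : PrimeSpectrum A) :
    toPt p ∈ Set.range (cq (k := k) q).g ↔ q ≤ p.asIdeal := by
  have h1 : Set.range (cq (k := k) q).g =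
      Set.range (PrimeSpectrum.comap (Ideal.Quotient.mk q)) := rfl
  rw [h1, range_comap_of_surjective _ _ Ideal.Quotient.mk_surjective, Ideal.mk_ker]
  exact Iff.rfl

/-- The divisor of a regular function on `V(q)`, in terms of schemes and in terms of rings. -/
theorem isDiv_iff (q : PrimeSpectrum A) (hq : rdim k q = (n + 1 : ℕ)) (a : A)
    (ha : a ∉ q.asIdeal) (c : RP k A n →₀ E) :
    IsDiv (cq (k := k) q.asIdeal) (fnA k (Ideal.Quotient.mk q.asIdeal a)) (cyE E n c) ↔
      IsDv k E q a c := by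
  have ha' : Ideal.Quotient.mk q.asIdeal a ≠ 0 := fun h => ha (Ideal.Quotient.eq_zero_iff_mem.mp h)
  have key : ∀ x : PrimeSpectrum (A ⧸ q.asIdeal), rdim k x = n →
      Scheme.ord (fnA k (Ideal.Quotient.mk q.asIdeal a)) (toPt x) =
        (len (q.asIdeal ⊔ Ideal.span {a}) (PrimeSpectrum.comap (Ideal.Quotient.mk _) x) : ℤ) := by
    intro x hx
    rw [len_quot]
    exact ord_fnA hq _ ha' _ hx
  constructor
  · rintro ⟨h1, h2⟩ p
    by_cases hp : q.asIdeal ≤ p.1.asIdeal
    · obtain ⟨x, hx⟩ := (mem_range_cq (k := k) q.asIdeal p.1).mpr hp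
      have hx2 : PrimeSpectrum.comap (Ideal.Quotient.mk q.asIdeal) (ofPt x) = p.1 := hx
      have hx3 : rdim k (ofPt x) = n := by
        rw [← rdim_comap_mk, hx2]
        exact p.2
      have h3 : (aff k A).dim ((cq (k := k) q.asIdeal).g x) = n := by
        rw [hx]
        exact (dim_toPt p.1).trans p.2
      have h4 := h1 x h3
      have h5 : (⟨(cq (k := k) q.asIdeal).g x, h3⟩ : Pts n (aff k A)) = ptE n p :=
        Subtype.ext hx
      rw [h5, cyE_apply] at h4
      have h6 := key (ofPt x) hx3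
      rw [toPt_ofPt] at h6
      rw [h4, h6, hx2]
      push_cast
      rfl
    · have h3 : (ptE (k := k) n p).1 ∉ Set.range (cq (k := k) q.asIdeal).g := fun h =>
        hp ((mem_range_cq q.asIdeal p.1).mp h)
      have h4 := h2 _ h3
      rw [cyE_apply] at h4
      rw [h4, len_eq_zero (fun h => hp (le_sup_left.trans h)), Nat.cast_zero]
  · intro h
    refine ⟨?_, ?_⟩
    · intro x hx
      have hx2 : rdim k (PrimeSpectrum.comap (Ideal.Quotient.mk q.asIdeal) (ofPt x)) = n :=
        (dim_toPt _).symm.trans hx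
      have hx3 : rdim k (ofPt x) = n := (rdim_comap_mk _ _).symm.trans hx2
      have h3 := h ⟨_, hx2⟩
      have h4 := key (ofPt x) hx3
      rw [toPt_ofPt] at h4
      rw [h4]
      push_cast
      rw [← h3]
      exact cyE_apply c ⟨_, hx2⟩
    · intro x hx
      obtain ⟨p, rfl⟩ := (ptE (k := k) n).surjective x
      have hp : ¬ q.asIdeal ≤ p.1.asIdeal := fun h => hx ((mem_range_cq q.asIdeal p.1).mpr h)
      rw [cyE_apply, h p, len_eq_zero (fun h => hp (le_sup_left.trans h)), Nat.cast_zero]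

lemma mem_ratZero_of_isDv (q : RP k A (n + 1)) (a : A) (ha : a ∉ q.1.asIdeal)
    (c : RP k A n →₀ E) (hc : IsDv k E q.1 a c) : cyE E n c ∈ ratZero E n (aff k A) := by
  apply Submodule.subset_span
  refine ⟨aff k (A ⧸ q.1.asIdeal), inferInstance, cq q.1.asIdeal,
    fnA k (Ideal.Quotient.mk q.1.asIdeal a), ?_, ?_, ?_⟩
  · rw [dim_generic_aff]
    exact q.2
  · exact fnA_ne_zero (fun h => ha (Ideal.Quotient.eq_zero_iff_mem.mp h))
  · exact (isDiv_iff q.1 q.2 a ha c).mpr hc

/-- The divisor of a rational function on an integral closed subvariety of `Spec A` is rationally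
equivalent to zero in the sense of rings. -/
lemma mem_rat_of_isDiv (W : Var k) [AlgebraicGeometry.IsIntegral W.X]
    (a : ClosedIn W (aff k A)) (φ : W.X.functionField)
    (hW : W.dim (genericPoint W.X) = (n + 1 : ℕ)) (hφ : φ ≠ 0) (c : RP k A n →₀ E)
    (hc : IsDiv a φ (cyE E n c)) : c ∈ rat k A E n := by
  have hcl : IsClosedImmersion a.g := a.closed
  obtain ⟨I, e, he⟩ := (IsClosedImmersion.Spec_iff (R := CommRingCat.of A) (f := a.g)).mp hcl
  have hne : Nonempty (Spec (CommRingCat.of (A ⧸ I))) := ⟨e.hom (genericPoint W.X)⟩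
  have hint : AlgebraicGeometry.IsIntegral (Spec (CommRingCat.of (A ⧸ I))) :=
    isIntegral_of_isOpenImmersion e.inv
  have hdom : IsDomain (A ⧸ I) := (affine_isIntegral_iff (CommRingCat.of (A ⧸ I))).mp hint
  have hI : I.IsPrime := (Ideal.Quotient.isDomain_iff_prime I).mp hdom
  let q : PrimeSpectrum A := ⟨I, hI⟩
  let h : (aff k (A ⧸ I)).X ⟶ W.X := e.inv
  have hh : IsOpenImmersion h := inferInstanceAs (IsOpenImmersion e.inv)
  have hhg : h ≫ a.g = (cq (k := k) I).g := by
    have h1 : e.inv ≫ a.g = Spec.map (CommRingCat.ofHom (Ideal.Quotient.mk I)) :=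
      (Iso.inv_comp_eq e).mpr he
    exact h1
  have hhg' : ∀ x, a.g (h x) = (cq (k := k) I).g x := fun x =>
    congrArg (fun f : (aff k (A ⧸ I)).X ⟶ (aff k A).X => f x) hhg
  have hsurj : ∀ w : W.X, ∃ x, h x = w := fun w => ⟨e.hom w, by
    change (e.hom ≫ e.inv) w = w
    rw [e.hom_inv_id]
    rfl⟩
  have hcI : IsClosedImmersion (cq (k := k) I).g := (cq I).closed
  -- dimension of `q`
  have hq : rdim k q = (n + 1 : ℕ) := by
    have h1 : (aff k A).dim (a.g (genericPoint W.X)) = W.dim (genericPoint W.X) :=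
      dim_map a.g a.comm _
    have h2 : h (genericPoint (aff k (A ⧸ I)).X) = genericPoint W.X :=
      genericPoint_eq_of_isOpenImmersion h
    have h3 := dim_map (cq (k := k) I).g (cq I).comm (genericPoint (aff k (A ⧸ I)).X)
    rw [← hhg', h2, h1, hW, dim_generic_aff] at h3
    exact h3.symm
  -- the function
  have hψ : funMap h φ ≠ 0 := by
    intro h0
    exact hφ ((map_eq_zero_iff _ (funMap h).hom.injective).mp h0)
  obtain ⟨α, β, hα, hβ, hαβ⟩ := exists_fnA (k := k) (D := A ⧸ I) (funMap h φ) hψ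
  obtain ⟨α, rfl⟩ := Ideal.Quotient.mk_surjective α
  obtain ⟨β, rfl⟩ := Ideal.Quotient.mk_surjective β
  have hα' : α ∉ q.asIdeal := fun h => hα (Ideal.Quotient.eq_zero_iff_mem.mpr h)
  have hβ' : β ∉ q.asIdeal := fun h => hβ (Ideal.Quotient.eq_zero_iff_mem.mpr h)
  obtain ⟨cα, hcα⟩ := exists_div (E := E) (i := n) (cq (k := k) I)
    (fnA k (Ideal.Quotient.mk I α)) (fnA_ne_zero hα)
  obtain ⟨cβ, hcβ⟩ := exists_div (E := E) (i := n) (cq (k := k) I)
    (fnA k (Ideal.Quotient.mk I β)) (fnA_ne_zero hβ)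
  obtain ⟨cα, rfl⟩ := (cyE (k := k) (A := A) E n).surjective cα
  obtain ⟨cβ, rfl⟩ := (cyE (k := k) (A := A) E n).surjective cβ
  have h1 : cα ∈ rat k A E n := Submodule.subset_span
    ⟨⟨q, hq⟩, α, bot_le, hα', (isDiv_iff q hq α hα' cα).mp hcα⟩
  have h2 : cβ ∈ rat k A E n := Submodule.subset_span
    ⟨⟨q, hq⟩, β, bot_le, hβ', (isDiv_iff q hq β hβ' cβ).mp hcβ⟩
  have h3 : c + cβ = cα := by
    apply (cyE (k := k) (A := A) E n).injective
    apply isDiv_unique (cq (k := k) I) (fnA k (Ideal.Quotient.mk I α)) _ _ _ hcα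
    rw [map_add]
    refine ⟨?_, ?_⟩
    · intro x hx
      have hx' : (aff k A).dim (a.g (h x)) = n := by rw [hhg']; exact hx
      have h4 := hc.1 (h x) hx'
      have h5 := hcβ.1 x hx
      have h6 : (⟨a.g (h x), hx'⟩ : Pts n (aff k A)) = ⟨(cq (k := k) I).g x, hx⟩ :=
        Subtype.ext (hhg' x)
      rw [h6] at h4
      refine (Finsupp.add_apply _ _ _).trans ((congrArg₂ (· + ·) h4 h5).trans ?_)
      rw [← hαβ, Scheme.ord_mul hψ (fnA_ne_zero hβ), ord_funMap]
      push_cast
      rfl
    · intro x hx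
      have hx' : x.1 ∉ Set.range a.g := by
        rintro ⟨w, hw⟩
        obtain ⟨y, rfl⟩ := hsurj w
        exact hx ⟨y, (hhg' y).symm.trans hw⟩
      exact (Finsupp.add_apply _ _ _).trans
        ((congrArg₂ (· + ·) (hc.2 x hx') (hcβ.2 x hx)).trans (add_zero _))
  have h4 : c = cα - cβ := eq_sub_of_add_eq h3
  rw [h4]
  exact Submodule.sub_mem _ h1 h2

/-- MAIN: rational equivalence on `Spec A`, in terms of schemes and in terms of rings. -/
theorem cyE_mem (c : RP k A n →₀ E) : cyE E n c ∈ ratZero E n (aff k A) ↔ c ∈ rat k A E n := by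
  constructor
  · intro h
    have h1 : ratZero E n (aff k A) ≤
        (rat k A E n).comap (cyE (k := k) (A := A) E n).symm.toLinearMap := by
      refine Submodule.span_le.mpr ?_
      rintro d ⟨W, hint, a, φ, hW, hφ, hd⟩
      obtain ⟨c, rfl⟩ := (cyE (k := k) (A := A) E n).surjective d
      change (cyE E n).symm (cyE E n c) ∈ rat k A E n
      rw [LinearEquiv.symm_apply_apply]
      exact mem_rat_of_isDiv W a φ hW hφ c hd
    have h2 := h1 h
    change (cyE E n).symm (cyE E n c) ∈ rat k A E n at h2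
    rwa [LinearEquiv.symm_apply_apply] at h2
  · intro h
    have h1 : rat k A E n ≤
        (ratZero E n (aff k A)).comap (cyE (k := k) (A := A) E n).toLinearMap := by
      refine Submodule.span_le.mpr ?_
      rintro d ⟨q, a, -, ha, hd⟩
      exact mem_ratZero_of_isDv q a ha d hd
    exact h1 h

end Main

end CUB
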