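import Pool.Agent.CUB.BR1
import Pool.Agent.Lib_helper55.Beil.Inj
import Pool.Agent.Lib_helper66.OneP.Ord

/-!
# CUB: open immersions, complements, lines and isomorphisms of affine varieties
-/

set_option autoImplicit false

open Polynomial CategoryTheory AlgebraicGeometry

namespace CUB

open Pool.Agent.Lib_helper55.Beil Pool.Agent.Lib_helper66.OneP

variable {k : Type} [Field k] {A B Z : Type} [CommRing A] [CommRing B] [CommRing Z]
  [Algebra k A] [Algebra k B] [Algebra k Z]
  [Algebra.FiniteType k A] [Algebra.FiniteType k B] [Algebra.FiniteType k Z]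

/-! ## Points -/

lemma clo_g (φ : A →ₐ[k] B) (hφ : Function.Surjective φ) (x : PrimeSpectrum B) :
    (clo φ hφ).g (toPt x) = toPt (PrimeSpectrum.comap φ.toRingHom x) := rfl

lemma clo_ptE (φ : A →ₐ[k] B) (hφ : Function.Surjective φ) {n : ℕ} (P : RP k B n) :
    (clo φ hφ).g (ptE n P).1 = (ptE n (pushP φ hφ P)).1 := rfl

lemma ptsMap_clo (φ : A →ₐ[k] B) (hφ : Function.Surjective φ) {n : ℕ} (P : RP k B n) :
    ptsMap n (clo φ hφ) (ptE n P) = ptE n (pushP φ hφ P) := Subtype.ext rfl

lemma opn_g (φ : A →ₐ[k] B) (h : IsOpenImmersion (spm φ)) (x : PrimeSpectrum B) :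
    (opn φ h).g (toPt x) = toPt (PrimeSpectrum.comap φ.toRingHom x) := rfl

lemma opn_ptE (φ : A →ₐ[k] B) (h : IsOpenImmersion (spm φ)) {n : ℕ} (P : RP k B n) :
    (opn φ h).g (ptE n P).1 = toPt (PrimeSpectrum.comap φ.toRingHom P.1) := rfl

/-- An open immersion preserves the dimension of primes. -/
lemma rdim_comap_opn (φ : A →ₐ[k] B) (h : IsOpenImmersion (spm φ)) (P : PrimeSpectrum B) :
    rdim k (PrimeSpectrum.comap φ.toRingHom P) = rdim k P := by
  rw [← dim_toPt, ← dim_toPt]
  exact dim_map (spm φ) (spm_comm φ) (toPt P)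

/-! ## Open immersions defined by localizations -/

lemma isOpenImmersion_spm (φ : A →ₐ[k] B) (a : A)
    (h : @IsLocalization.Away A _ a B _ φ.toRingHom.toAlgebra) : IsOpenImmersion (spm φ) := by
  let : Algebra A B := φ.toRingHom.toAlgebra
  exact IsOpenImmersion.of_isLocalization (R := A) (S := B) a

lemma range_spm_away (φ : A →ₐ[k] B) (a : A)
    (h : @IsLocalization.Away A _ a B _ φ.toRingHom.toAlgebra) :
    Set.range (PrimeSpectrum.comap φ.toRingHom) = {p : PrimeSpectrum A | a ∉ p.asIdeal} := by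
  let : Algebra A B := φ.toRingHom.toAlgebra
  exact PrimeSpectrum.localization_away_comap_range (R := A) B a

lemma range_spm_surj (ψ : A →ₐ[k] Z) (hψ : Function.Surjective ψ) :
    Set.range (PrimeSpectrum.comap ψ.toRingHom) =
      {p : PrimeSpectrum A | RingHom.ker ψ.toRingHom ≤ p.asIdeal} := by
  have := range_comap_of_surjective Z ψ.toRingHom hψ
  rw [this]
  rfl

/-- The complement of `V(a)` is `Spec` of the localization away from `a`. -/
theorem complementary_away (φ : A →ₐ[k] B) (a : A)
    (h : @IsLocalization.Away A _ a B _ φ.toRingHom.toAlgebra)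
    (ψ : A →ₐ[k] Z) (hψ : Function.Surjective ψ) (hk : RingHom.ker ψ.toRingHom = Ideal.span {a}) :
    Complementary (clo ψ hψ) (opn φ (isOpenImmersion_spm φ a h)) := by
  have h1 : Set.range (clo ψ hψ).g =
      (Set.range (PrimeSpectrum.comap ψ.toRingHom) : Set (PrimeSpectrum A)) := rfl
  have h2 : Set.range (opn φ (isOpenImmersion_spm φ a h)).g =
      (Set.range (PrimeSpectrum.comap φ.toRingHom) : Set (PrimeSpectrum A)) := rfl
  have h3 : (Set.range (PrimeSpectrum.comap ψ.toRingHom) : Set (PrimeSpectrum A)) =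
      (Set.range (PrimeSpectrum.comap φ.toRingHom))ᶜ := by
    rw [range_spm_surj ψ hψ, range_spm_away φ a h, hk]
    ext p
    simp
  unfold Complementary
  rw [h1, h2]
  exact h3

/-! ## Lines -/

attribute [local instance] Polynomial.algebra

/-- `Spec B` is the product of `Spec A` and the affine line if `B` is isomorphic to `A[X]`. -/
noncomputable def lineE (φ : A →ₐ[k] B) (e : A[X] ≃+* B) (he : ∀ a, e (C a) = φ a) :
    Line (aff k B) (aff k A) where
  q := spm φ
  t := Spec.map (CommRingCat.ofHom (e.toRingHom.comp (Polynomial.mapRingHom (algebraMap k A))))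
  comm := spm_comm φ
  prod := by
    have h1 : IsPushout (CommRingCat.ofHom (algebraMap k A)) (CommRingCat.ofHom (algebraMap k k[X]))
        (CommRingCat.ofHom (algebraMap A A[X])) (CommRingCat.ofHom (algebraMap k[X] A[X])) :=
      CommRingCat.isPushout_of_isPushout k A k[X] A[X]
    have h2 : IsPushout (CommRingCat.ofHom (algebraMap k A)) (CommRingCat.ofHom (algebraMap k k[X]))
        (CommRingCat.ofHom φ.toRingHom)
        (CommRingCat.ofHom (e.toRingHom.comp (Polynomial.mapRingHom (algebraMap k A)))) := by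
      refine h1.of_iso (Iso.refl _) (Iso.refl _) (Iso.refl _) e.toCommRingCatIso ?_ ?_ ?_ ?_
      · simp
      · simp
      · exact CommRingCat.hom_ext (RingHom.ext he)
      · exact CommRingCat.hom_ext (RingHom.ext fun _ => rfl)
    exact isPullback_SpecMap_of_isPushout _ _ _ _ h2

lemma lineE_q (φ : A →ₐ[k] B) (e : A[X] ≃+* B) (he : ∀ a, e (C a) = φ a) :
    (lineE φ e he).q = spm φ := rfl

lemma lineE_toPt (φ : A →ₐ[k] B) (e : A[X] ≃+* B) (he : ∀ a, e (C a) = φ a)
    (x : PrimeSpectrum B) :
    (lineE φ e he).q (toPt x) = toPt (PrimeSpectrum.comap φ.toRingHom x) := rfl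

/-- The line over `Spec A`. -/
noncomputable def lineX (A : Type) [CommRing A] [Algebra k A] [Algebra.FiniteType k A] :
    Line (aff k A[X]) (aff k A) :=
  lineE (Polynomial.CAlgHom : A →ₐ[k] A[X]) (RingEquiv.refl _) (fun _ => rfl)

end CUB
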