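import Pool.Agent.CUB.BR3
import Pool.Agent.CUB.BR4

/-!
# CUB: classes of cycles on affine varieties, isomorphisms
-/

set_option autoImplicit false

open Polynomial CategoryTheory AlgebraicGeometry

namespace CUB

open Pool.Agent.Lib_helper55.Beil Pool.Agent.Lib_helper66.OneP

universe v

variable {k : Type} [Field k] {A B : Type} [CommRing A] [CommRing B]
  [Algebra k A] [Algebra k B] [Algebra.FiniteType k A] [Algebra.FiniteType k B]
  {E : Type} [Field E]

/-! ## The dimension of `p[X]` -/

section Line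

/-- The ideal `p[X]` is prime. -/
lemma isPrime_map_C {A : Type} [CommRing A] (p : PrimeSpectrum A) :
    (p.asIdeal.map (C : A →+* A[X])).IsPrime :=
  have := p.2
  Ideal.isPrime_map_C_of_isPrime

/-- The prime ideal `p[X]`. -/
noncomputable def pX (p : PrimeSpectrum A) : PrimeSpectrum A[X] :=
  ⟨p.asIdeal.map C, isPrime_map_C p⟩

lemma comap_pX (p : PrimeSpectrum A) : PrimeSpectrum.comap C (pX p) = p := by
  apply PrimeSpectrum.ext
  ext a
  change C a ∈ p.asIdeal.map C ↔ a ∈ p.asIdeal
  rw [Ideal.mem_map_C_iff]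
  constructor
  · intro h
    have := h 0
    rwa [coeff_C_zero] at this
  · intro h n
    rw [coeff_C]
    split_ifs
    · exact h
    · exact p.asIdeal.zero_mem

lemma pX_le (p : PrimeSpectrum A) (P : PrimeSpectrum A[X]) (h : PrimeSpectrum.comap C P = p) :
    pX p ≤ P := by
  subst h
  exact Ideal.map_comap_le

omit [Algebra.FiniteType k A] in
lemma rdim_pX (p : PrimeSpectrum A) : rdim k (pX p) = rdim k p + 1 := by
  let D := A ⧸ p.asIdeal
  have h1 : Algebra.trdeg k D[X] = Algebra.trdeg k D + 1 := by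
    have hf : FaithfulSMul k D := (faithfulSMul_iff_algebraMap_injective k D).mpr
      (algebraMap k D).injective
    have hf2 : FaithfulSMul D D[X] := (faithfulSMul_iff_algebraMap_injective D D[X]).mpr
      C_injective
    have h2 := trdeg_add_eq k D (A := D[X])
    rw [Polynomial.trdeg_of_isDomain] at h2
    exact h2.symm
  have e : D[X] ≃ₐ[k] (A[X] ⧸ (pX p).asIdeal) := AlgEquiv.ofRingEquiv
    (f := Ideal.polynomialQuotientEquivQuotientPolynomial p.asIdeal) (by
      intro r
      rw [IsScalarTower.algebraMap_apply k D D[X], IsScalarTower.algebraMap_apply k A D]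
      have h3 : algebraMap D D[X] (algebraMap A D (algebraMap k A r)) =
          (C (algebraMap k A r)).map (Ideal.Quotient.mk p.asIdeal) := by
        rw [Polynomial.map_C]
        rfl
      exact (congrArg _ h3).trans
        (Ideal.polynomialQuotientEquivQuotientPolynomial_map_mk p.asIdeal _))
  unfold rdim
  rw [← e.trdeg_eq, h1]

/-- The points of dimension `n + 1` of `Spec B`, `B ≃ A[X]`, over the points of dimension `n`. -/
noncomputable def lineP (φ : A →ₐ[k] B) (e : A[X] ≃+* B) (he : ∀ a, e (C a) = φ a) {n : ℕ}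
    (p : RP k A n) : RP k B (n + 1) :=
  ⟨PrimeSpectrum.comap e.symm.toRingHom (pX p.1), by
    have hk : ∀ r : k, e (algebraMap k A[X] r) = algebraMap k B r := fun r => by
      rw [IsScalarTower.algebraMap_apply k A A[X]]
      exact (he _).trans (φ.commutes r)
    let e' : A[X] ≃ₐ[k] B := AlgEquiv.ofRingEquiv (f := e) hk
    have h1 := rdim_comap (e'.symm : B →ₐ[k] A[X]) e'.symm.surjective (pX p.1)
    refine h1.trans ((rdim_pX p.1).trans ?_)
    rw [p.2]
    push_cast
    rfl⟩

lemma comap_lineP (φ : A →ₐ[k] B) (e : A[X] ≃+* B) (he : ∀ a, e (C a) = φ a) {n : ℕ}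
    (p : RP k A n) : PrimeSpectrum.comap φ.toRingHom (lineP φ e he p).1 = p.1 := by
  have h1 : e.symm.toRingHom.comp φ.toRingHom = C := by
    ext1 a
    change e.symm (φ a) = C a
    rw [← he, RingEquiv.symm_apply_apply]
  have h2 : PrimeSpectrum.comap φ.toRingHom (PrimeSpectrum.comap e.symm.toRingHom (pX p.1)) =
      PrimeSpectrum.comap (e.symm.toRingHom.comp φ.toRingHom) (pX p.1) := rfl
  change PrimeSpectrum.comap φ.toRingHom (PrimeSpectrum.comap e.symm.toRingHom (pX p.1)) = p.1
  rw [h2, h1, comap_pX]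

lemma lineP_injective (φ : A →ₐ[k] B) (e : A[X] ≃+* B) (he : ∀ a, e (C a) = φ a) {n : ℕ} :
    Function.Injective (lineP φ e he (n := n)) := by
  intro p q h
  apply Subtype.ext
  rw [← comap_lineP φ e he p, ← comap_lineP φ e he q, h]

/-- A point of dimension `n + 1` over a point of dimension `n` is `lineP`. -/
lemma eq_lineP (φ : A →ₐ[k] B) (e : A[X] ≃+* B) (he : ∀ a, e (C a) = φ a) {n : ℕ}
    (P : RP k B (n + 1)) (h : rdim k (PrimeSpectrum.comap φ.toRingHom P.1) = n) :
    P = lineP φ e he ⟨PrimeSpectrum.comap φ.toRingHom P.1, h⟩ := by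
  apply Subtype.ext
  symm
  apply eq_of_le_of_rdim_eq (k := k)
  · have h1 : pX (PrimeSpectrum.comap φ.toRingHom P.1) ≤ PrimeSpectrum.comap e.toRingHom P.1 := by
      apply pX_le
      have h2 : e.toRingHom.comp C = φ.toRingHom := RingHom.ext he
      rw [← h2]
      rfl
    intro b hb
    have h2 : e (e.symm b) ∈ P.1.asIdeal := h1 hb
    rwa [RingEquiv.apply_symm_apply] at h2
  · exact (lineP φ e he ⟨PrimeSpectrum.comap φ.toRingHom P.1, h⟩).2.trans P.2.symm

lemma mapDomain_lineP (φ : A →ₐ[k] B) (e : A[X] ≃+* B) (he : ∀ a, e (C a) = φ a) {n : ℕ}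
    (c : RP k A n →₀ E) (P : RP k B (n + 1))
    (h : rdim k (PrimeSpectrum.comap φ.toRingHom P.1) = n) :
    Finsupp.mapDomain (lineP φ e he) c P = c ⟨PrimeSpectrum.comap φ.toRingHom P.1, h⟩ :=
  (congrArg (Finsupp.mapDomain (lineP φ e he) c) (eq_lineP φ e he P h)).trans
    (Finsupp.mapDomain_apply (lineP_injective φ e he) c _)

lemma mapDomain_lineP_zero (φ : A →ₐ[k] B) (e : A[X] ≃+* B) (he : ∀ a, e (C a) = φ a) {n : ℕ}
    (c : RP k A n →₀ E) (P : RP k B (n + 1))
    (h : rdim k (PrimeSpectrum.comap φ.toRingHom P.1) ≠ n) :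
    Finsupp.mapDomain (lineP φ e he) c P = 0 := by
  apply Finsupp.mapDomain_of_notMem_range
  rintro ⟨p, rfl⟩
  exact h ((congrArg (rdim k) (comap_lineP φ e he p)).trans p.2)

/-- Flat pull-back along a line. -/
theorem isPull_line_iff (φ : A →ₐ[k] B) (e : A[X] ≃+* B) (he : ∀ a, e (C a) = φ a) {n : ℕ}
    (c : RP k A n →₀ E) (d : RP k B (n + 1) →₀ E) :
    IsPull k E 1 φ c d ↔ d = Finsupp.mapDomain (lineP φ e he) c := by
  constructor
  · intro h
    ext P
    by_cases hP : rdim k (PrimeSpectrum.comap φ.toRingHom P.1) = n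
    · exact ((h P).1 hP).trans (mapDomain_lineP φ e he c P hP).symm
    · exact ((h P).2 hP).trans (mapDomain_lineP_zero φ e he c P hP).symm
  · rintro rfl P
    exact ⟨fun hP => mapDomain_lineP φ e he c P hP, fun hP => mapDomain_lineP_zero φ e he c P hP⟩

end Line

/-! ## Classes -/

section Cls

variable (T : ∀ i : ℕ, Homology.{v} k E i)

/-- The homology class of a cycle on `Spec A`. -/
noncomputable def cls (n : ℕ) : (RP k A n →₀ E) →ₗ[E] (T n).H (2 * n) (aff k A) :=
  (Finsupp.linearCombination E ((T n).cl (aff k A))).comp (cyE E n).toLinearMap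

lemma cls_eq (n : ℕ) (c : RP k A n →₀ E) :
    cls T n c = Finsupp.linearCombination E ((T n).cl (aff k A)) (cyE E n c) := rfl

lemma cls_single (n : ℕ) (p : RP k A n) (x : E) :
    cls T n (Finsupp.single p x) = x • (T n).cl (aff k A) (ptE n p) := by
  rw [cls_eq, cyE_single, Finsupp.linearCombination_single]

lemma cls_rat (n : ℕ) (c : RP k A n →₀ E) (hc : c ∈ rat k A E n) : cls T n c = 0 :=
  (T n).cl_rat _ _ ((cyE_mem c).mpr hc)

lemma cls_frob (n : ℕ) (c : RP k A n →₀ E) :
    (T n).F (2 * n) (aff k A) (cls T n c) = cls T n c := by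
  change (T n).frob (2 * n) (aff k A) (cls T n c) = cls T n c
  induction c using Finsupp.induction_linear with
  | zero => rw [map_zero, map_zero]
  | add c d hc hd => rw [map_add, map_add, hc, hd]
  | single p x => rw [cls_single, map_smul, (T n).frob_cl]

lemma cls_push (n : ℕ) (φ : A →ₐ[k] B) (hφ : Function.Surjective φ) (c : RP k B n →₀ E) :
    (T n).P (2 * n) (clo φ hφ) (cls T n c) = cls T n (push E φ hφ c) := by
  change (T n).push (2 * n) (clo φ hφ) (cls T n c) = cls T n (push E φ hφ c)
  induction c using Finsupp.induction_linear with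
  | zero => simp only [map_zero]
  | add c d hc hd => simp only [map_add, hc, hd]
  | single p x =>
    have h1 : push E φ hφ (Finsupp.single p x) = Finsupp.single (pushP φ hφ p) x :=
      Finsupp.mapDomain_single
    rw [h1, cls_single, cls_single, map_smul]
    congr 1
    exact (T n).push_cl (clo φ hφ) (ptE n p) (ptE n (pushP φ hφ p)).2

/-- The points of an open affine subvariety as points of the variety. -/
noncomputable def resP (φ : A →ₐ[k] B) (h : IsOpenImmersion (spm φ)) {n : ℕ} (P : RP k B n) :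
    RP k A n :=
  ⟨PrimeSpectrum.comap φ.toRingHom P.1, (rdim_comap_opn φ h P.1).trans P.2⟩

lemma resP_injective (φ : A →ₐ[k] B) (h : IsOpenImmersion (spm φ)) {n : ℕ} :
    Function.Injective (resP φ h (n := n)) := by
  intro P Q hPQ
  apply Subtype.ext
  have h1 : (opn φ h).g (toPt P.1) = (opn φ h).g (toPt Q.1) :=
    congrArg (fun x : RP k A n => toPt (k := k) x.1) hPQ
  exact openIn_injective (opn φ h) h1

/-- Restriction of cycles to an open affine subvariety is flat pull-back. -/
lemma isPull_zero_iff (φ : A →ₐ[k] B) (h : IsOpenImmersion (spm φ)) {n : ℕ}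
    (c : RP k A n →₀ E) (d : RP k B n →₀ E) :
    IsPull k E 0 φ c d ↔ ∀ P, d P = c (resP φ h P) := by
  constructor
  · intro hd P
    exact (hd P).1 (resP φ h P).2
  · intro hd P
    refine ⟨fun _ => hd P, fun hP => ?_⟩
    exact absurd (resP φ h P).2 hP

/-- Restriction of classes to an open affine subvariety. -/
lemma cls_res (n : ℕ) (φ : A →ₐ[k] B) (h : IsOpenImmersion (spm φ)) (c : RP k A n →₀ E)
    (d : RP k B n →₀ E) (hcd : IsPull k E 0 φ c d) :
    (T n).R (2 * n) (opn φ h) (cls T n c) = cls T n d := by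
  have h1 : d = Finsupp.lcomapDomain (R := E) (M := E) (resP φ h) (resP_injective φ h) c := by
    ext P
    exact (isPull_zero_iff φ h c d).mp hcd P
  rw [h1]
  change (T n).res (2 * n) (opn φ h) (cls T n c) = cls T n (Finsupp.lcomapDomain _ _ c)
  clear h1 hcd
  induction c using Finsupp.induction_linear with
  | zero => simp only [map_zero]
  | add c d hc hd => simp only [map_add, hc, hd]
  | single p x =>
    rw [cls_single, map_smul]
    by_cases hp : p ∈ Set.range (resP φ h (n := n))
    · obtain ⟨P, rfl⟩ := hp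
      have h2 : Finsupp.lcomapDomain (R := E) (M := E) (resP φ h) (resP_injective φ h)
          (Finsupp.single (resP φ h P) x) = Finsupp.single P x :=
        Finsupp.comapDomain_single _ _ _ _
      rw [h2, cls_single]
      congr 1
      exact (T n).res_cl (opn φ h) (ptE n P) (ptE n (resP φ h P)).2
    · have h2 : Finsupp.lcomapDomain (R := E) (M := E) (resP φ h) (resP_injective φ h)
          (Finsupp.single p x) = 0 := by
        ext P
        change Finsupp.single p x (resP φ h P) = 0
        classical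
        rw [Finsupp.single_apply, if_neg]
        intro h3
        exact hp ⟨P, h3.symm⟩
      rw [h2, map_zero]
      have h3 : (ptE (k := k) n p).1 ∉ Set.range (opn φ h).g := by
        rintro ⟨y, hy⟩
        have h4 : PrimeSpectrum.comap φ.toRingHom (ofPt y) = p.1 := hy
        apply hp
        refine ⟨⟨ofPt y, ?_⟩, Subtype.ext h4⟩
        rw [← rdim_comap_opn φ h, h4]
        exact p.2
      have hoi : IsOpenImmersion (opn φ h).g := h
      let U : (aff k A).X.Opens := (opn φ h).g.opensRange
      have hcompl : Complementary (closedVarIn (aff k A) U.compl) (opn φ h) := by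
        rw [Complementary, range_closedVarIn]
        rfl
      have h5 : (ptE (k := k) n p).1 ∈ Set.range (closedVarIn (aff k A) U.compl).g := by
        rw [hcompl]
        exact h3
      rw [(T n).res_cl_eq_zero _ _ hcompl _ h5, smul_zero]

theorem inj_iff_cls (n : ℕ) :
    (T n).Inj (aff k A) ↔ ∀ c : RP k A n →₀ E, cls T n c = 0 → c ∈ rat k A E n := by
  rw [Homology.inj_iff]
  constructor
  · intro h c hc
    exact (cyE_mem c).mp (h _ hc)
  · intro h c hc
    obtain ⟨c, rfl⟩ := (cyE (k := k) (A := A) E n).surjective c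
    exact (cyE_mem c).mpr (h c hc)

theorem surj_iff_lin (i : ℕ) (X : Var k) : (T i).Surj X ↔
    ∀ m, (T i).F (2 * i) X m = m → ∃ c, Finsupp.linearCombination E ((T i).cl X) c = m := by
  constructor
  · intro h m hm
    obtain ⟨a, ha⟩ := h m hm
    obtain ⟨c, rfl⟩ := (ratZero E i X).mkQ_surjective a
    exact ⟨c, by rw [← (T i).clMap_mk]; exact ha⟩
  · intro h m hm
    obtain ⟨c, hc⟩ := h m hm
    exact ⟨(ratZero E i X).mkQ c, by rw [(T i).clMap_mk]; exact hc⟩

theorem surj_iff_cls (n : ℕ) : (T n).Surj (aff k A) ↔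
    ∀ m, (T n).F (2 * n) (aff k A) m = m → ∃ c : RP k A n →₀ E, cls T n c = m := by
  rw [surj_iff_lin]
  constructor
  · intro h m hm
    obtain ⟨c, hc⟩ := h m hm
    obtain ⟨c, rfl⟩ := (cyE (k := k) (A := A) E n).surjective c
    exact ⟨c, hc⟩
  · intro h m hm
    obtain ⟨c, hc⟩ := h m hm
    exact ⟨_, hc⟩

/-- The class of the pull-back of a cycle to a line. -/
theorem line_cls (X : Extra T) (φ : A →ₐ[k] B) (e : A[X] ≃+* B) (he : ∀ a, e (C a) = φ a) {n : ℕ}
    (c : RP k A n →₀ E) (d : RP k B (n + 1) →₀ E) (h : IsPull k E 1 φ c d) :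
    X.line n (2 * n) (lineE φ e he) (cls T n c) = cls T (n + 1) d := by
  rw [isPull_line_iff φ e he] at h
  subst h
  induction c using Finsupp.induction_linear with
  | zero => simp only [map_zero, Finsupp.mapDomain_zero]
  | add c d hc hd => simp only [map_add, Finsupp.mapDomain_add, hc, hd]
  | single p x =>
    rw [Finsupp.mapDomain_single, cls_single, cls_single, map_smul]
    congr 1
    apply X.line_cl n (lineE φ e he) (ptE n p) (ptE (n + 1) (lineP φ e he p))
    change toPt (PrimeSpectrum.comap φ.toRingHom (lineP φ e he p).1) = toPt p.1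
    rw [comap_lineP]

end Cls

/-! ## Isomorphisms -/

section Iso

variable {X Y W : Var k}

/-- The identity. -/
noncomputable def VIso.refl (X : Var k) : VIso X X where
  e := Iso.refl _
  comm := Category.id_comp _

/-- The inverse isomorphism. -/
noncomputable def VIso.symm (s : VIso X Y) : VIso Y X where
  e := s.e.symm
  comm := (Iso.inv_comp_eq s.e).mpr s.comm.symm

/-- The composite isomorphism. -/
noncomputable def VIso.trans (s : VIso X Y) (t : VIso Y W) : VIso X W where
  e := s.e ≪≫ t.e
  comm := by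
    rw [Iso.trans_hom, Category.assoc, t.comm, s.comm]

lemma VIso.surj (s : VIso X Y) (y : Y.X) : s.cl.g (s.symm.cl.g y) = y := by
  change (s.e.inv ≫ s.e.hom) y = y
  rw [s.e.inv_hom_id]
  rfl

lemma VIso.surj' (s : VIso X Y) (x : X.X) : s.symm.cl.g (s.cl.g x) = x := by
  change (s.e.hom ≫ s.e.inv) x = x
  rw [s.e.hom_inv_id]
  rfl

lemma VIso.range (s : VIso X Y) : Set.range s.cl.g = Set.univ :=
  Set.eq_univ_of_forall fun y => ⟨_, s.surj y⟩

/-- An isomorphism induces a bijection of points. -/
noncomputable def VIso.pts (s : VIso X Y) (i : ℕ) : Pts i X ≃ Pts i Y where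
  toFun := ptsMap i s.cl
  invFun := ptsMap i s.symm.cl
  left_inv x := Subtype.ext (s.surj' x.1)
  right_inv y := Subtype.ext (s.surj y.1)

variable {i : ℕ} (T : Homology.{v} k E i)

/-- Push-forward along an isomorphism is bijective. -/
theorem push_viso_bijective (n : ℕ) (s : VIso X Y) : Function.Bijective (T.P n s.cl) := by
  have hc : Complementary s.cl (openVarIn Y ⊥) := by
    rw [Complementary, s.range, range_openVarIn]
    simp
  have he := isEmpty_openVar_bot Y
  obtain ⟨bd, hbd⟩ := (T.localisation n X (openVar Y ⊥) Y s.cl (openVarIn Y ⊥) hc).2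
  have h1 := T.exact_X n s.cl (openVarIn Y ⊥) hc
  have i1 : Subsingleton (T.H n (openVar Y ⊥)) := T.empty n _ he
  have i2 : Subsingleton (T.H (n + 1) (openVar Y ⊥)) := T.empty (n + 1) _ he
  constructor
  · change Function.Injective (T.push n s.cl)
    rw [injective_iff_map_eq_zero]
    intro m hm
    obtain ⟨u, hu⟩ := (hbd m).mp hm
    rw [← hu, Subsingleton.elim u 0, map_zero]
  · intro m
    exact (h1 m).mp (Subsingleton.elim _ _)

theorem injC_of_viso (s : VIso X Y) (h : T.InjC Y) : T.InjC X := by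
  intro c hc
  have h1 := T.push_linComb s.cl c
  rw [hc, map_zero] at h1
  have h2 := h _ h1.symm
  have h3 := ratZero_map s.symm.cl _ h2
  rw [← Finsupp.mapDomain_comp] at h3
  have h4 : ptsMap i s.symm.cl ∘ ptsMap i s.cl = id := funext fun x => (s.pts i).left_inv x
  rwa [h4, Finsupp.mapDomain_id] at h3

/-- Injectivity of the cycle class map is invariant under isomorphisms. -/
theorem inj_viso (s : VIso X Y) : T.Inj X ↔ T.Inj Y := by
  rw [T.inj_iff, T.inj_iff]
  exact ⟨injC_of_viso T s.symm, injC_of_viso T s⟩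

theorem surj_of_viso (T : ∀ i : ℕ, Homology.{v} k E i) (i : ℕ) (s : VIso X Y)
    (h : (T i).Surj Y) : (T i).Surj X := by
  rw [surj_iff_lin] at h ⊢
  intro m hm
  have h1 : (T i).F (2 * i) Y ((T i).P (2 * i) s.cl m) = (T i).P (2 * i) s.cl m := by
    rw [← (T i).equivariant.1, hm]
  obtain ⟨c, hc⟩ := h _ h1
  refine ⟨Finsupp.mapDomain (s.pts i).symm c, ?_⟩
  apply (push_viso_bijective (T i) (2 * i) s).injective
  rw [← hc]
  change (T i).push (2 * i) s.cl _ = _
  rw [(T i).push_linComb, ← Finsupp.mapDomain_comp]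
  have h4 : ptsMap i s.cl ∘ (s.pts i).symm = id := funext fun x => (s.pts i).right_inv x
  rw [h4, Finsupp.mapDomain_id]

/-- Surjectivity of the cycle class map is invariant under isomorphisms. -/
theorem surj_viso (T : ∀ i : ℕ, Homology.{v} k E i) (i : ℕ) (s : VIso X Y) :
    (T i).Surj X ↔ (T i).Surj Y :=
  ⟨surj_of_viso T i s.symm, surj_of_viso T i s⟩

/-- Every affine variety is `Spec` of an algebra of finite type. -/
theorem exists_aff (X : Var k) [IsAffine X.X] : ∃ (A : Type) (_ : CommRing A) (_ : Algebra k A)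
    (_ : Algebra.FiniteType k A), Nonempty (VIso (aff k A) X) := by
  let A : CommRingCat.{0} := Γ(X.X, ⊤)
  let ψ : CommRingCat.of k ⟶ A := Spec.preimage (X.X.isoSpec.inv ≫ X.f)
  have hψ : Spec.map ψ = X.X.isoSpec.inv ≫ X.f := Spec.map_preimage _
  have hft : ψ.hom.FiniteType := by
    have h1 : LocallyOfFiniteType (Spec.map ψ) := by
      rw [hψ]
      infer_instance
    exact (HasRingHomProperty.Spec_iff (P := @LocallyOfFiniteType)).1 h1
  let alg : Algebra k A := ψ.hom.toAlgebra
  have hft2 : Algebra.FiniteType k A := hft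
  refine ⟨A, inferInstance, alg, hft2, ⟨⟨X.X.isoSpec.symm, ?_⟩⟩⟩
  exact hψ.symm

end Iso

end CUB
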