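import Pool.Agent.CUB.StmtsB

/-!
# INFL: lengths in the chart at infinity
-/

set_option autoImplicit false

open Polynomial

namespace CUB

namespace INFL

/-- The ring of Laurent polynomials, in the model used by `infI`. -/
abbrev LL (R : Type) [CommRing R] : Type := Localization.Away (X : R[X])

/-- The first chart. -/
noncomputable abbrev ph1 (R : Type) [CommRing R] : R[X] →+* LL R :=
  algebraMap R[X] (Localization.Away (X : R[X]))

/-- The second chart. -/
noncomputable abbrev ph2 (R : Type) [CommRing R] : R[X] →+* LL R :=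
  eval₂RingHom ((algebraMap R[X] (Localization.Away (X : R[X]))).comp C)
    (IsLocalization.Away.invSelf (X : R[X]))

variable (R : Type) [CommRing R]

lemma ph2_X : ph2 R X = (IsLocalization.Away.invSelf (X : R[X]) : LL R) := by
  simp [ph2]

lemma ph2_C (r : R) : ph2 R (C r) = ph1 R (C r) := by
  simp [ph2]

lemma mul_inv : ph1 R X * (IsLocalization.Away.invSelf (X : R[X]) : LL R) = 1 :=
  IsLocalization.Away.mul_invSelf (X : R[X])

lemma ph2_unit : IsUnit (ph2 R X) := by
  rw [ph2_X]
  exact IsUnit.of_mul_eq_one (ph1 R X) (by rw [mul_comm]; exact mul_inv R)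

/-- The automorphism `X ↦ 1 / X` of the ring of Laurent polynomials. -/
noncomputable def sig : LL R →+* LL R :=
  IsLocalization.Away.lift (X : R[X]) (g := ph2 R) (ph2_unit R)

lemma sig_ph1 (a : R[X]) : sig R (ph1 R a) = ph2 R a :=
  IsLocalization.Away.lift_eq (X : R[X]) (ph2_unit R) a

lemma sig_comp : (sig R).comp (ph1 R) = ph2 R := RingHom.ext (sig_ph1 R)

lemma sig_inv : sig R (IsLocalization.Away.invSelf (X : R[X]) : LL R) = ph1 R X := by
  have h1 : sig R (ph1 R X) * sig R (IsLocalization.Away.invSelf (X : R[X]) : LL R) = 1 := by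
    rw [← map_mul, mul_inv, map_one]
  rw [sig_ph1, ph2_X] at h1
  calc sig R (IsLocalization.Away.invSelf (X : R[X]) : LL R)
      = (ph1 R X * (IsLocalization.Away.invSelf (X : R[X]) : LL R)) *
        sig R (IsLocalization.Away.invSelf (X : R[X]) : LL R) := by rw [mul_inv, one_mul]
    _ = ph1 R X := by rw [mul_assoc, h1, mul_one]

lemma sig_sig : (sig R).comp (sig R) = RingHom.id (LL R) := by
  apply IsLocalization.ringHom_ext (Submonoid.powers (X : R[X]))
  apply Polynomial.ringHom_ext
  · intro r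
    change sig R (sig R (ph1 R (C r))) = ph1 R (C r)
    rw [sig_ph1, ph2_C, sig_ph1, ph2_C]
  · change sig R (sig R (ph1 R X)) = ph1 R X
    rw [sig_ph1, ph2_X, sig_inv]

lemma sig_bij : Function.Bijective (sig R) := by
  have h : ∀ x, sig R (sig R x) = x := fun x => RingHom.congr_fun (sig_sig R) x
  exact ⟨Function.LeftInverse.injective h, Function.RightInverse.surjective h⟩

lemma flat1 : (ph1 R).Flat := by
  rw [RingHom.flat_algebraMap_iff]
  exact IsLocalization.flat (LL R) (Submonoid.powers (X : R[X]))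

lemma flat2 : (ph2 R).Flat := by
  rw [← sig_comp]
  exact RingHom.Flat.comp (flat1 R) (RingHom.Flat.of_bijective (sig_bij R))

lemma mc1 (J : Ideal (LL R)) : (J.comap (ph1 R)).map (ph1 R) = J :=
  IsLocalization.map_comap (Submonoid.powers (X : R[X])) (LL R) J

lemma mc2 (J : Ideal (LL R)) : (J.comap (ph2 R)).map (ph2 R) = J := by
  rw [← sig_comp, ← Ideal.comap_comap, ← Ideal.map_map, mc1,
    Ideal.map_comap_of_surjective _ (sig_bij R).2]

lemma key {A B : Type} [CommRing A] [CommRing B] (φ : A →+* B) (P : PrimeSpectrum B)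
    (h : (P.asIdeal.comap φ).map φ = P.asIdeal) :
    IsLocalRing.maximalIdeal (Localization.AtPrime P.asIdeal) ≤
    (PrimeSpectrum.comap φ P).asIdeal.map
      ((algebraMap B (Localization.AtPrime P.asIdeal)).comp φ) := by
  rw [← Ideal.map_map, PrimeSpectrum.comap_asIdeal, h,
    Localization.AtPrime.map_eq_maximalIdeal]

lemma refl_eq (P : R[X]) (N : ℕ) (hP : P.natDegree ≤ N) :
    ph2 R (reflect N P) * ph1 R X ^ N = ph1 R P := by
  let _ : Invertible (ph1 R X) :=
    { invOf := IsLocalization.Away.invSelf (X : R[X])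
      invOf_mul_self := by rw [mul_comm]; exact mul_inv R
      mul_invOf_self := mul_inv R }
  have h := eval₂_reflect_mul_pow ((ph1 R).comp C) (ph1 R X) N P hP
  refine Eq.trans h ?_
  have h2 : eval₂RingHom ((ph1 R).comp C) (ph1 R X) = ph1 R := by
    apply Polynomial.ringHom_ext
    · intro r
      simp
    · simp
  exact RingHom.congr_fun h2 P

lemma ph1_unit : IsUnit (ph1 R X) := IsUnit.of_mul_eq_one _ (mul_inv R)

lemma span_eq (P : R[X]) (N : ℕ) (hP : P.natDegree ≤ N) :
    Ideal.span {ph1 R P} = Ideal.span {ph2 R (reflect N P)} := by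
  rw [← refl_eq R P N hP]
  exact Ideal.span_singleton_mul_right_unit ((ph1_unit R).pow N) _

end INFL

open INFL in
theorem t_INFL : M_INFL := by
  intro hB _ R _ _ q z hz hi P N _ hX hP
  have hd : Disjoint ((Submonoid.powers (X : R[X]) : Submonoid R[X]) : Set R[X]) (z : Set R[X]) := by
    rw [Set.disjoint_left]
    rintro a ⟨n, rfl⟩ ha
    exact hX (hz.mem_of_pow_mem n ha)
  have hp : (z.map (ph1 R)).IsPrime :=
    IsLocalization.isPrime_of_isPrime_disjoint (Submonoid.powers (X : R[X])) (LL R) z hz hd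
  have hc : (z.map (ph1 R)).comap (ph1 R) = z :=
    IsLocalization.comap_map_of_isPrime_disjoint (Submonoid.powers (X : R[X])) (LL R) hz hd
  let W : PrimeSpectrum (LL R) := ⟨z.map (ph1 R), hp⟩
  have e1 : PrimeSpectrum.comap (ph1 R) W = ⟨z, hz⟩ := PrimeSpectrum.ext hc
  have e2 : PrimeSpectrum.comap (ph2 R) W = ⟨infI z, hi⟩ := PrimeSpectrum.ext rfl
  have h1 := hB R[X] (LL R) (ph1 R) W (flat1 R) (key (ph1 R) W (mc1 R _)) (q ⊔ Ideal.span {P})
  have h2 := hB R[X] (LL R) (ph2 R) W (flat2 R) (key (ph2 R) W (mc2 R _))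
    (infI q ⊔ Ideal.span {reflect N P})
  rw [e1] at h1
  rw [e2] at h2
  rw [← h1, ← h2]
  congr 1
  rw [Ideal.map_sup, Ideal.map_sup, Ideal.map_span, Ideal.map_span, Set.image_singleton,
    Set.image_singleton, span_eq R P N hP]
  congr 1
  exact (mc2 R (q.map (ph1 R))).symm

end CUB
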