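import Pool.Agent.CUB.StmtsC

/-!
# CUB, block C: the case of a generator not contained in `f = 0`
-/

set_option autoImplicit false

open Polynomial

namespace CUB

namespace DLG

variable {k R E K : Type} [Field k] [CommRing R] [Algebra k R] [Field E] [Field K] [Algebra k K]

/-- the point in the chart -/
noncomputable def spt {G f : R} (κ : YY G f →ₐ[k] K) (θ : R →ₐ[k] K) (v : R) : K :=
  (κ (yy (C G + X * C f)) - θ v) / θ f

lemma dim_ge {A B : Type} [CommRing A] [CommRing B] [Algebra k A] [Algebra k B] (φ : A →ₐ[k] B)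
    (P : PrimeSpectrum B) : rdim k (PrimeSpectrum.comap φ.toRingHom P) ≤ rdim k P := by
  unfold rdim
  have H : (PrimeSpectrum.comap φ.toRingHom P).asIdeal ≤ P.asIdeal.comap φ := le_refl _
  have h1 : Function.Injective (Ideal.quotientMapₐ P.asIdeal φ H) :=
    Ideal.quotientMap_injective' (H := H) (le_refl _)
  exact trdeg_le_of_injective _ h1

lemma l1 {K : Type} [Field K] (s w : K) (_ : s ≠ 0) (ht : s + w ≠ 0) :
    (s + w)⁻¹ / s⁻¹ - 1 = -w * (s + w)⁻¹ := by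
  field_simp
  ring

lemma l2 {K : Type} [Field K] (t w : K) (ht : t ≠ 0) (hw : w ≠ 0) : t = -w * (-w * t⁻¹)⁻¹ := by
  field_simp

lemma l3 {K : Type} [Field K] (g f : K) (hg : g ≠ 0) : f⁻¹ = g * (g * f)⁻¹ := by
  rw [mul_inv, mul_inv_cancel_left₀ hg]

/-- one chart -/
lemma one [Algebra.FiniteType k R] (hFPD : S_FPD) (hCHI : S_CHI) (hCHIV : S_CHIV)
    {G f : R} {n : ℕ} (D : ValuationSubring K → K → K → (RP k R n →₀ E)) (θ : R →ₐ[k] K)
    (κ : YY G f →ₐ[k] K)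
    (hD : ∀ (s : K) (P : R[X]) (q : RP k R[X] (n + 1 + 1)) (c : RP k R[X] (n + 1) →₀ E)
      (d : RP k R n →₀ E), (∀ x : K, ∃ A B : R[X], evs θ s B ≠ 0 ∧ x * evs θ s B = evs θ s A) →
      q.1.asIdeal = RingHom.ker (evs θ s).toRingHom → P ∉ q.1.asIdeal → IsDv k E q.1 P c →
      IsBeta k E c d →
      ∃ h : (VV n θ s).Finite, d = ∑ O ∈ h.toFinset, D O (evs θ s P) s⁻¹)
    (hθ : ∀ r, θ r = κ (algebraMap R[X] (YY G f) (C r))) (hf : θ f ≠ 0)
    (hfr : ∀ x : K, ∃ A B : YY G f, κ B ≠ 0 ∧ x * κ B = κ A)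
    (q : RP k (YY G f) (n + 1 + 1)) (hq : q.1.asIdeal = RingHom.ker κ.toRingHom)
    (a : YY G f) (c : RP k (YY G f) (n + 1) →₀ E) (ha : a ∉ q.1.asIdeal)
    (hc : IsDv k E q.1 a c) (v : R) (hv : v ^ 2 - v = G) (hu : IsUnit (2 * v - 1))
    (e : RP k R[X] (n + 1) →₀ E) (d : RP k R n →₀ E) (he : IsPull k E 0 (chi v hv) c e)
    (hd : IsBeta k E e d) :
    ∃ h : (VV n θ (spt κ θ v)).Finite, d = ∑ O ∈ h.toFinset, D O (κ a) (spt κ θ v)⁻¹ := by
  obtain ⟨c1, c2⟩ := hCHIV k R K G f v hv κ θ hθ hf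
  have hgood := hCHI k R G f v hv hu
  change (evs θ (spt κ θ v)).comp (chi (k := k) (f := f) v hv) = κ at c1
  change ∀ P : Ideal R[X], P.IsPrime → P.comap (chi (k := k) (f := f) v hv).toRingHom =
    RingHom.ker κ.toRingHom → P = RingHom.ker (evs θ (spt κ θ v)).toRingHom at c2
  set s : K := spt κ θ v with hs
  have c1' : ∀ y, evs θ s (chi (k := k) (f := f) v hv y) = κ y := fun y =>
    AlgHom.congr_fun c1 y
  -- the prime over `q`
  have hpr : (RingHom.ker (evs θ s).toRingHom).IsPrime := RingHom.ker_isPrime _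
  let P0 : PrimeSpectrum R[X] := ⟨RingHom.ker (evs θ s).toRingHom, hpr⟩
  have hcom : PrimeSpectrum.comap (chi (k := k) (f := f) v hv).toRingHom P0 = q.1 := by
    apply PrimeSpectrum.ext
    rw [hq]
    ext y
    change evs θ s (chi (k := k) (f := f) v hv y) = 0 ↔ κ y = 0
    rw [c1']
  have hdim : rdim k P0 = ((n + 1 + 1 : ℕ) : Cardinal) := by
    apply le_antisymm
    · have h1 := (hgood.at' P0).1
      rw [hcom, q.2] at h1
      simpa using h1
    · have h1 := dim_ge (chi (k := k) (f := f) v hv) P0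
      rw [hcom, q.2] at h1
      exact h1
  let Q0 : RP k R[X] (n + 1 + 1) := ⟨P0, hdim⟩
  obtain ⟨S, e', hS, hS', hde⟩ := hFPD k (YY G f) R[X] E 0 (n + 1) (chi v hv) hgood q a c e ha hc he
  have hQS : Q0 ∈ S := (hS Q0).2 hcom
  have hSs : S = {Q0} := by
    ext P
    rw [Finset.mem_singleton]
    constructor
    · intro hP
      have h1 := (hS P).1 hP
      apply Subtype.ext
      apply PrimeSpectrum.ext
      refine c2 P.1.asIdeal P.1.isPrime ?_
      rw [← hq, ← h1]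
      rfl
    · rintro rfl
      exact hQS
  rw [hSs, Finset.sum_singleton] at hde
  obtain ⟨g1, g2⟩ := hS' Q0 hQS
  rw [← hde] at g2
  have h3 := hD s (chi v hv a) Q0 e d ?_ rfl g1 g2 hd
  · rw [c1'] at h3
    exact h3
  · intro x
    obtain ⟨A, B, hB, hx⟩ := hfr x
    refine ⟨chi (k := k) v hv A, chi (k := k) v hv B, ?_, ?_⟩
    · rw [c1']
      exact hB
    · rw [c1', c1']
      exact hx

end DLG

open DLG in
theorem t_DLG : M_DLG := by
  classical
  intro hR hFPD hCHI hCHIV k R E _ _ _ _ _ _ G f v hv hu n q a c e₀ e₁ d₀ d₁ hfq ha hc he₀ he₁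
    hd₀ hd₁
  let A := YY G f ⧸ q.1.asIdeal
  have hdom : IsDomain A := Ideal.Quotient.isDomain q.1.asIdeal
  let K := FractionRing A
  let κ : YY G f →ₐ[k] K := (IsScalarTower.toAlgHom k A K).comp (Ideal.Quotient.mkₐ k q.1.asIdeal)
  let θ : R →ₐ[k] K := κ.comp ((IsScalarTower.toAlgHom k R[X] (YY G f)).comp (CC k R))
  have hθ : ∀ r, θ r = κ (algebraMap R[X] (YY G f) (C r)) := fun r => rfl
  have hκ : ∀ y, κ y = algebraMap A K (Ideal.Quotient.mk q.1.asIdeal y) := fun y => rfl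
  have hκ0 : ∀ y, κ y = 0 ↔ y ∈ q.1.asIdeal := by
    intro y
    rw [hκ, ← Ideal.Quotient.eq_zero_iff_mem]
    exact map_eq_zero_iff _ (IsFractionRing.injective A K)
  have hq : q.1.asIdeal = RingHom.ker κ.toRingHom := by
    ext y
    exact (hκ0 y).symm
  have hf : θ f ≠ 0 := by
    rw [hθ]
    intro h
    exact hfq ((hκ0 _).1 h)
  have hfr : ∀ x : K, ∃ A' B : YY G f, κ B ≠ 0 ∧ x * κ B = κ A' := by
    intro x
    obtain ⟨⟨x1, x2⟩, hx⟩ := IsLocalization.surj (nonZeroDivisors A) x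
    obtain ⟨y1, rfl⟩ := Ideal.Quotient.mk_surjective x1
    obtain ⟨x2, hx2⟩ := x2
    obtain ⟨y2, rfl⟩ := Ideal.Quotient.mk_surjective x2
    refine ⟨y1, y2, ?_, hx⟩
    rw [hκ]
    intro h
    have h1 := (map_eq_zero_iff _ (IsFractionRing.injective A K)).1 h
    exact (nonZeroDivisors.ne_zero hx2) h1
  obtain ⟨D, r1, r2, r3⟩ := hR k R K E n θ
  have hu1 : IsUnit (2 * (1 - v) - 1) := by
    have h1 : 2 * (1 - v) - 1 = -(2 * v - 1) := by ring
    rw [h1]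
    exact hu.neg
  obtain ⟨f0, g0⟩ := one hFPD hCHI hCHIV D θ κ r3 hθ hf hfr q hq a c ha hc v hv hu e₀ d₀ he₀ hd₀
  obtain ⟨f1, g1⟩ := one hFPD hCHI hCHIV D θ κ r3 hθ hf hfr q hq a c ha hc (1 - v)
    (conj_root hv) hu1 e₁ d₁ he₁ hd₁
  set s₀ : K := spt κ θ v with hs₀
  set s₁ : K := spt κ θ (1 - v) with hs₁
  have hw : s₁ = s₀ + θ (2 * v - 1) * (θ f)⁻¹ := by
    rw [hs₁, hs₀]
    unfold spt
    rw [map_sub, map_sub, map_one, map_mul, div_eq_mul_inv, div_eq_mul_inv]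
    have h2 : θ 2 = 2 := map_ofNat θ 2
    rw [h2]
    ring
  -- the common part
  have key : ∀ (O : ValuationSubring K) (s t w : K), w ∈ O → t = s + w → s ∉ O → t ∉ O ∧
      D O (κ a) s⁻¹ = D O (κ a) t⁻¹ := by
    intro O s t w hwO hst hsO
    have ht : t ∉ O := by
      intro h
      apply hsO
      have h1 : s = t - w := by rw [hst]; ring
      rw [h1]
      exact sub_mem h hwO
    have hs0 : s ≠ 0 := fun h => hsO (h ▸ O.zero_mem)
    have ht0 : t ≠ 0 := fun h => ht (h ▸ O.zero_mem)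
    refine ⟨ht, r2 O (κ a) s⁻¹ t⁻¹ (inv_ne_zero hs0) (inv_ne_zero ht0) ?_⟩
    have h1 : t⁻¹ / s⁻¹ - 1 = -w * t⁻¹ := by
      rw [hst] at ht0 ⊢
      exact l1 _ _ hs0 ht0
    rw [h1]
    by_cases hw0 : w = 0
    · left
      rw [hw0]
      ring
    · right
      intro h2
      apply ht
      rw [l2 t w ht0 hw0]
      exact mul_mem (neg_mem hwO) h2
  have hmem : ∀ (s : K) (O : ValuationSubring K), O ∈ VV n θ s ↔
      s ∉ O ∧ ∃ (h : ∀ r, θ r ∈ O) (T : RP k R (n + 1)),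
        T.1.asIdeal = RingHom.ker (rhoO θ O h) := fun s O => Iff.rfl
  have hrat : ∀ (s : K) (O : ValuationSubring K), O ∈ VV n θ s → (θ f)⁻¹ ∉ O →
      D O (κ a) s⁻¹ ∈ ratOn k E n (Ideal.span {f}) := by
    intro s O hO hfO
    obtain ⟨-, hRO, -⟩ := (hmem s O).1 hO
    apply r1
    intro r hr
    by_contra hcon
    push Not at hcon
    obtain ⟨h1, h2⟩ := hcon
    obtain ⟨g, rfl⟩ := Ideal.mem_span_singleton'.1 hr
    apply hfO
    rw [map_mul] at h1 h2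
    rw [l3 (θ g) (θ f) (left_ne_zero_of_mul h1)]
    exact mul_mem (hRO g) h2
  have hgoodset : f0.toFinset.filter (fun O => (θ f)⁻¹ ∈ O) =
      f1.toFinset.filter (fun O => (θ f)⁻¹ ∈ O) := by
    ext O
    rw [Finset.mem_filter, Finset.mem_filter, Set.Finite.mem_toFinset, Set.Finite.mem_toFinset,
      hmem, hmem]
    constructor
    · rintro ⟨⟨h1, h2, T, h3⟩, h4⟩
      exact ⟨⟨(key O s₀ s₁ _ (mul_mem (h2 (2 * v - 1)) h4) hw h1).1, h2, T, h3⟩, h4⟩
    · rintro ⟨⟨h1, h2, T, h3⟩, h4⟩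
      have h5 : s₀ = s₁ + -(θ (2 * v - 1) * (θ f)⁻¹) := by rw [hw]; ring
      exact ⟨⟨(key O s₁ s₀ _ (neg_mem (mul_mem (h2 (2 * v - 1)) h4)) h5 h1).1, h2, T,
        h3⟩, h4⟩
  rw [g0, g1, ← Finset.sum_filter_add_sum_filter_not f0.toFinset (fun O => (θ f)⁻¹ ∈ O),
    ← Finset.sum_filter_add_sum_filter_not f1.toFinset (fun O => (θ f)⁻¹ ∈ O), ← hgoodset]
  have hcommon : ∑ O ∈ f0.toFinset.filter (fun O => (θ f)⁻¹ ∈ O), D O (κ a) s₀⁻¹ =
      ∑ O ∈ f0.toFinset.filter (fun O => (θ f)⁻¹ ∈ O), D O (κ a) s₁⁻¹ := by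
    refine Finset.sum_congr rfl fun O hO => ?_
    rw [Finset.mem_filter, Set.Finite.mem_toFinset, hmem] at hO
    obtain ⟨⟨h1, h2, T, h3⟩, h4⟩ := hO
    exact (key O s₀ s₁ _ (mul_mem (h2 (2 * v - 1)) h4) hw h1).2
  rw [hcommon, add_sub_add_left_eq_sub]
  refine Submodule.sub_mem _ (Submodule.sum_mem _ fun O hO => ?_)
    (Submodule.sum_mem _ fun O hO => ?_)
  · rw [Finset.mem_filter, Set.Finite.mem_toFinset] at hO
    exact hrat s₀ O hO.1 hO.2
  · rw [Finset.mem_filter, Set.Finite.mem_toFinset] at hO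
    exact hrat s₁ O hO.1 hO.2

end CUB
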