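import Mathlib

/-!
# CUB: cycles on affine varieties (ring level), double covers, homology theories with homotopy invariance
-/

set_option autoImplicit false

open Polynomial

namespace CUB

section Ring

variable (k : Type) [Field k] {A B : Type} [CommRing A] [CommRing B] [Algebra k A] [Algebra k B]

/-- The dimension of a prime ideal: the transcendence degree over `k` of the residue ring. -/
noncomputable def rdim (p : PrimeSpectrum A) : Cardinal := Algebra.trdeg k (A ⧸ p.asIdeal)

variable (A) in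
/-- The primes of dimension `n`. -/
def RP (n : ℕ) : Type := {p : PrimeSpectrum A // rdim k p = n}

/-- The length of `A / I` at the prime `p` (`0` if it is infinite). -/
noncomputable def len (I : Ideal A) (p : PrimeSpectrum A) : ℕ :=
  (Module.length (Localization.AtPrime p.asIdeal) (Localization.AtPrime p.asIdeal ⧸
    I.map (algebraMap A (Localization.AtPrime p.asIdeal)))).toNat

variable (E : Type) [Field E]

/-- The cycle `c` is the divisor of the function `a` on the closed subvariety `V(q)`. -/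
def IsDv {n : ℕ} (q : PrimeSpectrum A) (a : A) (c : RP k A n →₀ E) : Prop :=
  ∀ p : RP k A n, c p = (len (q.asIdeal ⊔ Ideal.span {a}) p.1 : E)

/-- The `n`-dimensional cycles which are rationally equivalent to zero on the closed subset `V(I)`. -/
noncomputable def ratOn (n : ℕ) (I : Ideal A) : Submodule E (RP k A n →₀ E) :=
  Submodule.span E {c | ∃ (q : RP k A (n + 1)) (a : A), I ≤ q.1.asIdeal ∧ a ∉ q.1.asIdeal ∧
    IsDv k E q.1 a c}

variable (A) in
/-- The `n`-dimensional cycles which are rationally equivalent to zero. -/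
noncomputable abbrev rat (n : ℕ) : Submodule E (RP k A n →₀ E) := ratOn k E n (⊥ : Ideal A)

/-- The cycle `c` is supported on the closed subset `V(I)`. -/
def SuppOn {n : ℕ} (I : Ideal A) (c : RP k A n →₀ E) : Prop :=
  ∀ p : RP k A n, c p ≠ 0 → I ≤ p.1.asIdeal

/-- `d` is the flat pull-back of `c` (of relative dimension `r`). -/
def IsPull (r : ℕ) (φ : A →ₐ[k] B) {n : ℕ} (c : RP k A n →₀ E) (d : RP k B (n + r) →₀ E) : Prop :=
  ∀ P : RP k B (n + r),
    (∀ h : rdim k (PrimeSpectrum.comap φ.toRingHom P.1) = n,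
      d P = c ⟨PrimeSpectrum.comap φ.toRingHom P.1, h⟩) ∧
    (rdim k (PrimeSpectrum.comap φ.toRingHom P.1) ≠ n → d P = 0)

/-- The local condition for flat pull-back of relative dimension `r` at the prime `P`. -/
def GoodAt (r : ℕ) (φ : A →ₐ[k] B) (P : PrimeSpectrum B) : Prop :=
  rdim k P ≤ rdim k (PrimeSpectrum.comap φ.toRingHom P) + r ∧
  (rdim k P = rdim k (PrimeSpectrum.comap φ.toRingHom P) + r →
    IsLocalRing.maximalIdeal (Localization.AtPrime P.asIdeal) ≤
      (PrimeSpectrum.comap φ.toRingHom P).asIdeal.map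
        ((algebraMap B (Localization.AtPrime P.asIdeal)).comp φ.toRingHom))

/-- `φ` is flat, with fibres of dimension at most `r` which are reduced at their generic points of
dimension `r`. -/
structure Good (r : ℕ) (φ : A →ₐ[k] B) : Prop where
  flat : φ.toRingHom.Flat
  at' : ∀ P : PrimeSpectrum B, GoodAt k r φ P

variable {k}

lemma rdim_comap (φ : A →ₐ[k] B) (hφ : Function.Surjective φ) (P : PrimeSpectrum B) :
    rdim k (PrimeSpectrum.comap φ.toRingHom P) = rdim k P := by
  unfold rdim
  have H : (PrimeSpectrum.comap φ.toRingHom P).asIdeal ≤ P.asIdeal.comap φ := le_refl _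
  have h1 : Function.Injective (Ideal.quotientMapₐ P.asIdeal φ H) :=
    Ideal.quotientMap_injective' (H := H) (le_refl _)
  have h2 : Function.Surjective (Ideal.quotientMapₐ P.asIdeal φ H) :=
    Ideal.quotientMap_surjective (H := H) hφ
  exact AlgEquiv.trdeg_eq (AlgEquiv.ofBijective _ ⟨h1, h2⟩)

/-- The push-forward of points along a surjective homomorphism. -/
noncomputable def pushP {n : ℕ} (φ : A →ₐ[k] B) (hφ : Function.Surjective φ) (P : RP k B n) :
    RP k A n :=
  ⟨PrimeSpectrum.comap φ.toRingHom P.1, (rdim_comap φ hφ P.1).trans P.2⟩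

/-- The push-forward of cycles along a surjective homomorphism (closed immersion). -/
noncomputable def push {n : ℕ} (φ : A →ₐ[k] B) (hφ : Function.Surjective φ) :
    (RP k B n →₀ E) →ₗ[E] (RP k A n →₀ E) :=
  Finsupp.lmapDomain E E (pushP φ hφ)

end Ring

/-! ## Double covers -/

section Cover

variable {k : Type} [Field k]

/-- The polynomial `y ^ 2 - y - g`. -/
noncomputable def asPoly {T : Type} [CommRing T] (g : T) : T[X] := X ^ 2 - X - C g

/-- The double cover `T[y] / (y ^ 2 - y - g)`. -/
abbrev Q (T : Type) [CommRing T] (g : T) : Type := AdjoinRoot (asPoly g)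

/-- The element `y` of `T[y] / (y ^ 2 - y - g)`. -/
noncomputable def yy {T : Type} [CommRing T] (g : T) : Q T g := AdjoinRoot.root (asPoly g)

lemma asPoly_monic {T : Type} [CommRing T] (g : T) : (asPoly g).Monic := by
  unfold asPoly
  monicity!

lemma eval_asPoly {T S : Type} [CommRing T] [CommRing S] (φ : T →+* S) (g : T) (x : S) :
    (asPoly g).eval₂ φ x = x ^ 2 - x - φ g := by
  simp [asPoly]

lemma yy_eq {T : Type} [CommRing T] (g : T) :
    yy g ^ 2 - yy g - algebraMap T (Q T g) g = 0 := by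
  have h := AdjoinRoot.eval₂_root (asPoly g)
  rw [eval_asPoly] at h
  exact h

instance {T : Type} [CommRing T] (g : T) : Module.Finite T (Q T g) :=
  (asPoly_monic g).finite_adjoinRoot

instance {T : Type} [CommRing T] (g : T) : Module.Free T (Q T g) :=
  (asPoly_monic g).free_adjoinRoot

instance finiteType_Q {T : Type} [CommRing T] [Algebra k T] [Algebra.FiniteType k T] (g : T) :
    Algebra.FiniteType k (Q T g) :=
  Algebra.FiniteType.trans (S := T) inferInstance inferInstance

/-- The homomorphism from the double cover defined by a homomorphism on the base and the image of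
`y`. -/
noncomputable def Qlift {T S : Type} [CommRing T] [CommRing S] [Algebra k T] [Algebra k S] {g : T}
    (φ : T →ₐ[k] S) (x : S) (h : x ^ 2 - x = φ g) : Q T g →ₐ[k] S :=
  AdjoinRoot.liftAlgHom (asPoly g) φ x (by
    have := eval_asPoly φ.toRingHom g x
    refine this.trans ?_
    rw [h]
    exact sub_self _)

@[simp] lemma Qlift_yy {T S : Type} [CommRing T] [CommRing S] [Algebra k T] [Algebra k S] {g : T}
    (φ : T →ₐ[k] S) (x : S) (h : x ^ 2 - x = φ g) : Qlift φ x h (yy g) = x :=
  AdjoinRoot.liftAlgHom_root _ _ _ _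

@[simp] lemma Qlift_algebraMap {T S : Type} [CommRing T] [CommRing S] [Algebra k T] [Algebra k S]
    {g : T} (φ : T →ₐ[k] S) (x : S) (h : x ^ 2 - x = φ g) (t : T) :
    Qlift φ x h (algebraMap T (Q T g) t) = φ t :=
  AdjoinRoot.liftAlgHom_of _ _ _ _ _

/-- Two homomorphisms on the double cover are equal if they agree on the base and at `y`. -/
lemma Q_ext {T S : Type} [CommRing T] [CommRing S] [Algebra k T] [Algebra k S] {g : T}
    {α β : Q T g →ₐ[k] S} (h1 : ∀ t, α (algebraMap T (Q T g) t) = β (algebraMap T (Q T g) t))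
    (h2 : α (yy g) = β (yy g)) : α = β := by
  apply AdjoinRoot.algHom_ext'
  · ext t
    exact h1 t
  · exact h2

/-- The base of the double cover. -/
noncomputable def Qbase {T : Type} [CommRing T] [Algebra k T] (g : T) : T →ₐ[k] Q T g :=
  IsScalarTower.toAlgHom k T (Q T g)

/-- The homomorphism `y ↦ 1 - y` -/
noncomputable def tauHom {T : Type} [CommRing T] [Algebra k T] (g : T) : Q T g →ₐ[k] Q T g :=
  Qlift (Qbase g) (1 - yy g) (by
    have h := yy_eq g
    have h2 : Qbase (k := k) g g = algebraMap T (Q T g) g := rfl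
    rw [h2]
    linear_combination h)

lemma tauHom_yy {T : Type} [CommRing T] [Algebra k T] (g : T) :
    tauHom (k := k) g (yy g) = 1 - yy g := by
  unfold tauHom
  exact Qlift_yy _ _ _

lemma tauHom_algebraMap {T : Type} [CommRing T] [Algebra k T] (g : T) (t : T) :
    tauHom (k := k) g (algebraMap T (Q T g) t) = algebraMap T (Q T g) t := by
  unfold tauHom
  exact Qlift_algebraMap _ _ _ _

lemma tauHom_comp {T : Type} [CommRing T] [Algebra k T] (g : T) :
    (tauHom (k := k) g).comp (tauHom g) = AlgHom.id k (Q T g) := by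
  apply Q_ext
  · intro t
    rw [AlgHom.comp_apply, tauHom_algebraMap, tauHom_algebraMap]
    rfl
  · rw [AlgHom.comp_apply, tauHom_yy, map_sub, map_one, tauHom_yy, sub_sub_cancel]
    rfl

/-- The involution `y ↦ 1 - y` of the double cover. -/
noncomputable def tau {T : Type} [CommRing T] [Algebra k T] (g : T) : Q T g ≃ₐ[k] Q T g :=
  AlgEquiv.ofAlgHom (tauHom g) (tauHom g) (tauHom_comp g) (tauHom_comp g)

@[simp] lemma tau_yy {T : Type} [CommRing T] [Algebra k T] (g : T) :
    tau (k := k) g (yy g) = 1 - yy g := tauHom_yy g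

@[simp] lemma tau_algebraMap {T : Type} [CommRing T] [Algebra k T] (g : T) (t : T) :
    tau (k := k) g (algebraMap T (Q T g) t) = algebraMap T (Q T g) t := tauHom_algebraMap g t

/-- The homomorphism of double covers defined by a homomorphism of the bases. -/
noncomputable def Qmap {T S : Type} [CommRing T] [CommRing S] [Algebra k T] [Algebra k S] {g : T}
    {g' : S} (φ : T →ₐ[k] S) (h : φ g = g') : Q T g →ₐ[k] Q S g' :=
  Qlift ((Qbase g').comp φ) (yy g') (by
    have h2 := yy_eq g'
    have h3 : ((Qbase (k := k) g').comp φ) g = algebraMap S (Q S g') g' := by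
      rw [← h]; rfl
    rw [h3]
    exact sub_eq_zero.mp h2)

@[simp] lemma Qmap_yy {T S : Type} [CommRing T] [CommRing S] [Algebra k T] [Algebra k S] {g : T}
    {g' : S} (φ : T →ₐ[k] S) (h : φ g = g') : Qmap φ h (yy g) = yy g' := Qlift_yy _ _ _

@[simp] lemma Qmap_algebraMap {T S : Type} [CommRing T] [CommRing S] [Algebra k T] [Algebra k S]
    {g : T} {g' : S} (φ : T →ₐ[k] S) (h : φ g = g') (t : T) :
    Qmap φ h (algebraMap T (Q T g) t) = algebraMap S (Q S g') (φ t) := Qlift_algebraMap _ _ _ _

lemma Q_span {T : Type} [CommRing T] {g : T} (x : Q T g) :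
    ∃ a b : T, x = algebraMap T (Q T g) a + algebraMap T (Q T g) b * yy g := by
  obtain ⟨p, rfl⟩ := AdjoinRoot.mk_surjective (g := asPoly g) x
  rcases subsingleton_or_nontrivial T with hT | hT
  · refine ⟨0, 0, ?_⟩
    have : Subsingleton (Q T g) := Module.subsingleton T (Q T g)
    exact Subsingleton.elim _ _
  have h1 : AdjoinRoot.mk (asPoly g) p = AdjoinRoot.mk (asPoly g) (p %ₘ asPoly g) := by
    rw [AdjoinRoot.mk_eq_mk]
    refine ⟨p /ₘ asPoly g, ?_⟩
    have := modByMonic_add_div p (asPoly g)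
    linear_combination -this
  have h2 : (p %ₘ asPoly g).natDegree < 2 := by
    have h3 : (asPoly g).natDegree = 2 := by
      unfold asPoly
      compute_degree!
    rw [← h3]
    exact natDegree_modByMonic_lt _ (asPoly_monic g) (fun h => by rw [h] at h3; simp at h3)
  have h4 : p %ₘ asPoly g = C ((p %ₘ asPoly g).coeff 0) + C ((p %ₘ asPoly g).coeff 1) * X := by
    have := Polynomial.eq_X_add_C_of_natDegree_le_one (Nat.lt_succ_iff.mp h2)
    rw [add_comm]
    exact this
  refine ⟨(p %ₘ asPoly g).coeff 0, (p %ₘ asPoly g).coeff 1, ?_⟩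
  rw [h1]
  conv_lhs => rw [h4]
  rw [map_add, map_mul]
  rfl

lemma Qmap_surjective {T S : Type} [CommRing T] [CommRing S] [Algebra k T] [Algebra k S] {g : T}
    {g' : S} (φ : T →ₐ[k] S) (h : φ g = g') (hφ : Function.Surjective φ) :
    Function.Surjective (Qmap φ h) := by
  intro x
  obtain ⟨a, b, rfl⟩ := Q_span x
  obtain ⟨a', rfl⟩ := hφ a
  obtain ⟨b', rfl⟩ := hφ b
  refine ⟨algebraMap T (Q T g) a' + algebraMap T (Q T g) b' * yy g, ?_⟩
  rw [map_add, map_mul, Qmap_algebraMap, Qmap_algebraMap, Qmap_yy]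

/-! ## The varieties `y ^ 2 - y = ∑ t_j f_j` -/

/-- The element `∑ t_j f_j` of `R[t_1, ..., t_m]`. -/
noncomputable def lin {m : ℕ} {R : Type} [CommRing R] (f : Fin m → R) : MvPolynomial (Fin m) R :=
  ∑ j, MvPolynomial.X j * MvPolynomial.C (f j)

/-- The ring `R[t_1, ..., t_m, y] / (y ^ 2 - y - ∑ t_j f_j)`. -/
abbrev VR {m : ℕ} (R : Type) [CommRing R] (f : Fin m → R) : Type :=
  Q (MvPolynomial (Fin m) R) (lin f)

lemma map_lin {m : ℕ} {R S : Type} [CommRing R] [CommRing S] [Algebra k R] [Algebra k S]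
    (ψ : R →ₐ[k] S) (f : Fin m → R) :
    MvPolynomial.mapAlgHom ψ (lin f) = lin (fun j => ψ (f j)) := by
  simp [lin]

/-- The homomorphism `R[t, y] / (y ^ 2 - y - ∑ t_j f_j) → S[t, y] / (y ^ 2 - y - ∑ t_j ψ(f_j))`. -/
noncomputable def VRmap {m : ℕ} {R S : Type} [CommRing R] [CommRing S] [Algebra k R] [Algebra k S]
    (ψ : R →ₐ[k] S) (f : Fin m → R) : VR R f →ₐ[k] VR S (fun j => ψ (f j)) :=
  Qmap (MvPolynomial.mapAlgHom ψ) (map_lin ψ f)

lemma VRmap_surjective {m : ℕ} {R S : Type} [CommRing R] [CommRing S] [Algebra k R] [Algebra k S]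
    (ψ : R →ₐ[k] S) (hψ : Function.Surjective ψ) (f : Fin m → R) :
    Function.Surjective (VRmap ψ f) :=
  Qmap_surjective _ _ (MvPolynomial.map_surjective _ hψ)

/-- The homomorphism `R → R[t, y] / (y ^ 2 - y - ∑ t_j f_j)`. -/
noncomputable def VRbase {m : ℕ} {R : Type} [CommRing R] [Algebra k R] (f : Fin m → R) :
    R →ₐ[k] VR R f :=
  (Qbase (lin f)).comp (IsScalarTower.toAlgHom k R (MvPolynomial (Fin m) R))

/-- The two sheets over the common zeros of the `f j`: if `ψ : R → S` maps all `f j` to `0`, the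
homomorphism `R[t, y] / (y ^ 2 - y - ∑ t_j f_j) → S[t]` which maps `y` to `ε`, where `ε` is `0` or
`1`. -/
noncomputable def sheet {m : ℕ} {R S : Type} [CommRing R] [CommRing S] [Algebra k R] [Algebra k S]
    (ψ : R →ₐ[k] S) (f : Fin m → R) (h : ∀ j, ψ (f j) = 0) (ε : Bool) :
    VR R f →ₐ[k] MvPolynomial (Fin m) S :=
  Qlift (MvPolynomial.mapAlgHom ψ) (if ε then 1 else 0) (by
    rw [map_lin]
    simp [lin, h])

lemma sheet_surjective {m : ℕ} {R S : Type} [CommRing R] [CommRing S] [Algebra k R] [Algebra k S]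
    (ψ : R →ₐ[k] S) (hψ : Function.Surjective ψ) (f : Fin m → R) (h : ∀ j, ψ (f j) = 0)
    (ε : Bool) : Function.Surjective (sheet ψ f h ε) := by
  intro x
  obtain ⟨y, hy⟩ := MvPolynomial.map_surjective ψ.toRingHom hψ x
  exact ⟨algebraMap _ _ y, (Qlift_algebraMap _ _ _ _).trans hy⟩

end Cover

end CUB
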