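import Pool.Agent.CUB.Defs
import Pool.Agent.Lib_helper55.Beil.Defs

/-!
# CUB: affine varieties, lines, homology theories with homotopy invariance
-/

set_option autoImplicit false

open Polynomial CategoryTheory AlgebraicGeometry

namespace CUB

open Pool.Agent.Lib_helper55.Beil

universe v

section Aff

variable (k : Type) [Field k]

/-- The affine variety `Spec A`. -/
noncomputable def aff (A : Type) [CommRing A] [Algebra k A] [Algebra.FiniteType k A] : Var k where
  X := Spec (CommRingCat.of A)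
  f := Spec.map (CommRingCat.ofHom (algebraMap k A))
  sep := inferInstance
  lft := (HasRingHomProperty.Spec_iff (P := @LocallyOfFiniteType)).2
    (RingHom.finiteType_algebraMap.2 inferInstance)
  qc := inferInstance

variable {k} {A B : Type} [CommRing A] [CommRing B] [Algebra k A] [Algebra k B]
  [Algebra.FiniteType k A] [Algebra.FiniteType k B]

/-- The morphism of affine varieties defined by a homomorphism. -/
noncomputable def spm (φ : A →ₐ[k] B) : (aff k B).X ⟶ (aff k A).X :=
  Spec.map (CommRingCat.ofHom φ.toRingHom)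

lemma spm_comm (φ : A →ₐ[k] B) : spm φ ≫ (aff k A).f = (aff k B).f := by
  change Spec.map _ ≫ Spec.map _ = Spec.map _
  rw [← Spec.map_comp, ← CommRingCat.ofHom_comp]
  congr 2
  exact φ.comp_algebraMap

/-- The closed immersion defined by a surjective homomorphism. -/
noncomputable def clo (φ : A →ₐ[k] B) (hφ : Function.Surjective φ) :
    ClosedIn (aff k B) (aff k A) where
  g := spm φ
  comm := spm_comm φ
  closed := IsClosedImmersion.spec_of_surjective _ hφ

/-- The open immersion defined by a homomorphism. -/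
noncomputable def opn (φ : A →ₐ[k] B) (h : IsOpenImmersion (spm φ)) :
    OpenIn (aff k B) (aff k A) where
  g := spm φ
  comm := spm_comm φ
  isOpen := h

end Aff

variable {k : Type} [Field k]

/-- An isomorphism of varieties over `k`. -/
structure VIso (X Y : Var k) where
  /-- the isomorphism -/
  e : X.X ≅ Y.X
  comm : e.hom ≫ Y.f = X.f

/-- An isomorphism as a closed immersion. -/
def VIso.cl {X Y : Var k} (s : VIso X Y) : ClosedIn X Y where
  g := s.e.hom
  comm := s.comm
  closed := inferInstance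

/-- The isomorphism of affine varieties defined by an isomorphism of algebras. -/
noncomputable def viso {A B : Type} [CommRing A] [CommRing B] [Algebra k A] [Algebra k B]
    [Algebra.FiniteType k A] [Algebra.FiniteType k B] (e : A ≃ₐ[k] B) :
    VIso (aff k B) (aff k A) where
  e := Scheme.Spec.mapIso e.toRingEquiv.toCommRingCatIso.op
  comm := spm_comm (e : A →ₐ[k] B)

/-- `Y` is the product of `X` and the affine line, with projections `q` and `t`. -/
structure Line (Y X : Var k) where
  /-- the projection to `X` -/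
  q : Y.X ⟶ X.X
  /-- the projection to the affine line -/
  t : Y.X ⟶ Spec (CommRingCat.of k[X])
  comm : q ≫ X.f = Y.f
  prod : IsPullback q t X.f (Spec.map (CommRingCat.ofHom (algebraMap k k[X])))

variable {E : Type} [Field E]

/-- The push-forward along closed immersions is functorial. -/
def PushFunctorial (T : ∀ i : ℕ, Homology.{v} k E i) : Prop :=
  (∀ (i n : ℕ) (X : Var k) (a : ClosedIn X X), a.g = 𝟙 X.X → ∀ m, (T i).P n a m = m) ∧
  ∀ (i n : ℕ) (W Z X : Var k) (a : ClosedIn W Z) (b : ClosedIn Z X) (c : ClosedIn W X),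
    a.g ≫ b.g = c.g → ∀ m, (T i).P n b ((T i).P n a m) = (T i).P n c m

/-- For an open and closed subvariety, restriction after push-forward is the identity. -/
def Clopen (T : ∀ i : ℕ, Homology.{v} k E i) : Prop :=
  ∀ (i n : ℕ) (Z X : Var k) (a : ClosedIn Z X) (j : OpenIn Z X), a.g = j.g →
    ∀ m, (T i).R n j ((T i).P n a m) = m

/-- Boundary maps and pull-back maps for the projections `X × A^1 → X`. -/
structure ExtraMaps (T : ∀ i : ℕ, Homology.{v} k E i) where
  /-- the boundary map -/
  bd : ∀ (i n : ℕ) {Z U X : Var k} (a : ClosedIn Z X) (j : OpenIn U X), Complementary a j →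
    ((T i).H (n + 1) U →ₗ[E] (T i).H n Z)
  /-- the pull-back along the projection of a product with the affine line -/
  line : ∀ (i n : ℕ) {Y X : Var k}, Line Y X → ((T i).H n X →ₗ[E] (T (i + 1)).H (n + 2) Y)

/-- The boundary of a homology class. -/
def ExtraMaps.B {T : ∀ i : ℕ, Homology.{v} k E i} (S : ExtraMaps T) (i n : ℕ) {Z U X : Var k}
    (a : ClosedIn Z X) (j : OpenIn U X) (h : Complementary a j) (u : (T i).H (n + 1) U) :
    (T i).H n Z :=
  S.bd i n a j h u

/-- The pull-back of a homology class. -/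
def ExtraMaps.L {T : ∀ i : ℕ, Homology.{v} k E i} (S : ExtraMaps T) (i n : ℕ) {Y X : Var k}
    (q : Line Y X) (m : (T i).H n X) : (T (i + 1)).H (n + 2) Y :=
  S.line i n q m

/-- The sequence `H_(n+1)(U) → H_n(Z) → H_n(X)` is exact. -/
def ExtraMaps.BdExact {T : ∀ i : ℕ, Homology.{v} k E i} (S : ExtraMaps T) : Prop :=
  ∀ (i n : ℕ) {Z U X : Var k} (a : ClosedIn Z X) (j : OpenIn U X) (h : Complementary a j),
    Function.Exact (S.B i n a j h) ((T i).P n a)

/-- The boundary maps are compatible with isomorphisms. -/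
def ExtraMaps.BdNatural {T : ∀ i : ℕ, Homology.{v} k E i} (S : ExtraMaps T) : Prop :=
  ∀ (i n : ℕ) {Z U X Z' U' X' : Var k} (a : ClosedIn Z X) (j : OpenIn U X)
    (h : Complementary a j) (a' : ClosedIn Z' X') (j' : OpenIn U' X') (h' : Complementary a' j')
    (sZ : VIso Z Z') (sU : VIso U U') (sX : VIso X X'),
    sZ.e.hom ≫ a'.g = a.g ≫ sX.e.hom → sU.e.hom ≫ j'.g = j.g ≫ sX.e.hom →
    ∀ u, (T i).P n sZ.cl (S.B i n a j h u) = S.B i n a' j' h' ((T i).P (n + 1) sU.cl u)

/-- Homotopy invariance: the pull-back `H_n(X, i) → H_(n+2)(X × A^1, i + 1)` is bijective. -/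
def ExtraMaps.LineBij {T : ∀ i : ℕ, Homology.{v} k E i} (S : ExtraMaps T) : Prop :=
  ∀ (i n : ℕ) {Y X : Var k} (q : Line Y X), Function.Bijective (S.L i n q)

/-- The pull-back commutes with Frobenius. -/
def ExtraMaps.LineFrob {T : ∀ i : ℕ, Homology.{v} k E i} (S : ExtraMaps T) : Prop :=
  ∀ (i n : ℕ) {Y X : Var k} (q : Line Y X) (m : (T i).H n X),
    S.L i n q ((T i).F n X m) = (T (i + 1)).F (n + 2) Y (S.L i n q m)

/-- The pull-back is compatible with isomorphisms. -/
def ExtraMaps.LineNatural {T : ∀ i : ℕ, Homology.{v} k E i} (S : ExtraMaps T) : Prop :=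
  ∀ (i n : ℕ) {Y X Y' X' : Var k} (q : Line Y X) (q' : Line Y' X') (sY : VIso Y Y')
    (sX : VIso X X'), sY.e.hom ≫ q'.q = q.q ≫ sX.e.hom →
    ∀ m, (T (i + 1)).P (n + 2) sY.cl (S.L i n q m) = S.L i n q' ((T i).P n sX.cl m)

/-- The pull-back of the class of a point `x` is the class of the point `y` of dimension `i + 1`
over `x`. -/
def ExtraMaps.LineClass {T : ∀ i : ℕ, Homology.{v} k E i} (S : ExtraMaps T) : Prop :=
  ∀ (i : ℕ) {Y X : Var k} (q : Line Y X) (x : Pts i X) (y : Pts (i + 1) Y),
    q.q y.1 = x.1 → S.L i (2 * i) q ((T i).cl X x) = (T (i + 1)).cl Y y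

/-- The further formal properties of l-adic homology `(T i).H n X = H_n(Xbar, Q_l(i))` which are
used: functoriality of the push-forward, natural boundary maps, and the pull-back isomorphisms
`H_n(X, i) → H_(n+2)(X × A^1, i + 1)`. -/
structure Extra (T : ∀ i : ℕ, Homology.{v} k E i) extends ExtraMaps T where
  pushFunctorial : PushFunctorial T
  isClopen : Clopen T
  bdExact : toExtraMaps.BdExact
  bdNatural : toExtraMaps.BdNatural
  lineBij : toExtraMaps.LineBij
  lineFrob : toExtraMaps.LineFrob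
  lineNatural : toExtraMaps.LineNatural
  lineClass : toExtraMaps.LineClass

namespace Extra

variable {T : ∀ i : ℕ, Homology.{v} k E i} (hT : Extra T)

include hT

lemma push_id : ∀ (i n : ℕ) (X : Var k) (a : ClosedIn X X), a.g = 𝟙 X.X →
    ∀ m, (T i).P n a m = m := hT.pushFunctorial.1

lemma push_comp : ∀ (i n : ℕ) (W Z X : Var k) (a : ClosedIn W Z) (b : ClosedIn Z X)
    (c : ClosedIn W X), a.g ≫ b.g = c.g → ∀ m, (T i).P n b ((T i).P n a m) = (T i).P n c m :=
  hT.pushFunctorial.2

lemma clopen : ∀ (i n : ℕ) (Z X : Var k) (a : ClosedIn Z X) (j : OpenIn Z X), a.g = j.g →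
    ∀ m, (T i).R n j ((T i).P n a m) = m := hT.isClopen

lemma bd_exact : ∀ (i n : ℕ) {Z U X : Var k} (a : ClosedIn Z X) (j : OpenIn U X)
    (h : Complementary a j), Function.Exact (hT.bd i n a j h) ((T i).P n a) := hT.bdExact

lemma bd_nat : ∀ (i n : ℕ) {Z U X Z' U' X' : Var k} (a : ClosedIn Z X) (j : OpenIn U X)
    (h : Complementary a j) (a' : ClosedIn Z' X') (j' : OpenIn U' X') (h' : Complementary a' j')
    (sZ : VIso Z Z') (sU : VIso U U') (sX : VIso X X'),
    sZ.e.hom ≫ a'.g = a.g ≫ sX.e.hom → sU.e.hom ≫ j'.g = j.g ≫ sX.e.hom →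
    ∀ u, (T i).P n sZ.cl (hT.bd i n a j h u) = hT.bd i n a' j' h' ((T i).P (n + 1) sU.cl u) :=
  hT.bdNatural

lemma line_bij : ∀ (i n : ℕ) {Y X : Var k} (L : Line Y X), Function.Bijective (hT.line i n L) :=
  hT.lineBij

lemma line_frob : ∀ (i n : ℕ) {Y X : Var k} (L : Line Y X) (m : (T i).H n X),
    hT.line i n L ((T i).F n X m) = (T (i + 1)).F (n + 2) Y (hT.line i n L m) := hT.lineFrob

lemma line_nat : ∀ (i n : ℕ) {Y X Y' X' : Var k} (L : Line Y X) (L' : Line Y' X')
    (sY : VIso Y Y') (sX : VIso X X'), sY.e.hom ≫ L'.q = L.q ≫ sX.e.hom →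
    ∀ m, (T (i + 1)).P (n + 2) sY.cl (hT.line i n L m) = hT.line i n L' ((T i).P n sX.cl m) :=
  hT.lineNatural

lemma line_cl : ∀ (i : ℕ) {Y X : Var k} (L : Line Y X) (x : Pts i X) (y : Pts (i + 1) Y),
    L.q y.1 = x.1 → hT.line i (2 * i) L ((T i).cl X x) = (T (i + 1)).cl Y y := hT.lineClass

end Extra

/-- The hypersurface `y ^ 2 - y = F(x_1, ..., x_N)` of affine space of dimension `N + 1`. -/
noncomputable def cubic {N : ℕ} (F : MvPolynomial (Fin N) k) : Var k :=
  aff k (Q (MvPolynomial (Fin N) k) F)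

end CUB
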