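import Pool.Agent.CUB.StmtsA

/-!
# CUB: specialisation at infinity, charts of double covers, tame symbols
-/

set_option autoImplicit false

open Polynomial

namespace CUB

/-! ## Evaluation -/

section Ev

variable {k : Type} [Field k] {R K : Type} [CommRing R] [CommRing K] [Algebra k R] [Algebra k K]

/-- The homomorphism `R[X] → K` which is `θ` on `R` and maps `X` to `s`. -/
noncomputable def evs (θ : R →ₐ[k] K) (s : K) : R[X] →ₐ[k] K where
  toRingHom := eval₂RingHom θ.toRingHom s
  commutes' r := by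
    have h : algebraMap k R[X] r = C (algebraMap k R r) := rfl
    rw [h]
    simp

@[simp] lemma evs_C (θ : R →ₐ[k] K) (s : K) (r : R) : evs θ s (C r) = θ r := eval₂_C _ _

@[simp] lemma evs_X (θ : R →ₐ[k] K) (s : K) : evs θ s X = s := eval₂_X _ _

lemma evs_apply (θ : R →ₐ[k] K) (s : K) (P : R[X]) : evs θ s P = P.eval₂ θ.toRingHom s := rfl

lemma evs_unique (θ : R →ₐ[k] K) (s : K) (φ : R[X] →ₐ[k] K) (h : ∀ r, φ (C r) = θ r)
    (hX : φ X = s) : φ = evs θ s := by
  have h1 : φ.toRingHom = (evs θ s).toRingHom := by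
    apply Polynomial.ringHom_ext
    · intro r
      exact (h r).trans (evs_C θ s r).symm
    · exact hX.trans (evs_X θ s).symm
  exact AlgHom.ext fun x => RingHom.congr_fun h1 x

variable (k) in
/-- The inclusion `R → R[X]`. -/
noncomputable def CC (R : Type) [CommRing R] [Algebra k R] : R →ₐ[k] R[X] :=
  IsScalarTower.toAlgHom k R R[X]

@[simp] lemma CC_apply (r : R) : CC k R r = C r := rfl

/-- The homomorphism `R[X] → S[X]`. -/
noncomputable abbrev mapX (ψ : R →ₐ[k] K) : R[X] →ₐ[k] K[X] := Polynomial.mapAlgHom ψ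

lemma mapX_surjective (ψ : R →ₐ[k] K) (h : Function.Surjective ψ) :
    Function.Surjective (mapX ψ) := Polynomial.map_surjective ψ.toRingHom h

/-- The homomorphism `X ↦ u X`. -/
noncomputable def muHom (u : R) : R[X] →ₐ[k] R[X] := evs (CC k R) (C u * X)

lemma muHom_C (u r : R) : muHom (k := k) u (C r) = C r := evs_C _ _ _

lemma muHom_X (u : R) : muHom (k := k) u X = C u * X := evs_X _ _

lemma muHom_comp (u v : R) (h : u * v = 1) :
    (muHom (k := k) u).comp (muHom v) = AlgHom.id k R[X] := by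
  have h1 := evs_unique (CC k R) X ((muHom (k := k) u).comp (muHom v))
    (fun r => by rw [AlgHom.comp_apply, muHom_C, muHom_C]; rfl)
    (by
      rw [AlgHom.comp_apply, muHom_X, map_mul, muHom_C, muHom_X, ← mul_assoc, ← C_mul,
        mul_comm v u, h, C_1, one_mul])
  have h2 := evs_unique (CC k R) X (AlgHom.id k R[X]) (fun r => rfl) rfl
  rw [h1, h2]

/-- The automorphism `X ↦ u X` for a unit `u`. -/
noncomputable def mu (u : Rˣ) : R[X] ≃ₐ[k] R[X] :=
  AlgEquiv.ofAlgHom (muHom (u : R)) (muHom ((u⁻¹ : Rˣ) : R)) (muHom_comp _ _ u.mul_inv)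
    (muHom_comp _ _ u.inv_mul)

/-- The automorphism `X ↦ u X` as a homomorphism. -/
noncomputable abbrev muH (u : Rˣ) : R[X] →ₐ[k] R[X] := (mu (k := k) u).toAlgHom

@[simp] lemma mu_C (u : Rˣ) (r : R) : mu (k := k) u (C r) = C r := muHom_C _ _

@[simp] lemma mu_X (u : Rˣ) : mu (k := k) u (X : R[X]) = C (u : R) * X := muHom_X _

end Ev

/-! ## Specialisation at infinity -/

section Inf

variable {R : Type} [CommRing R]

/-- The closure in the chart at infinity: the ideal `z` of `R[X]` is extended to `R[X, 1 / X]` and then contracted along `R[X] → R[X, 1 / X]`, `X ↦ 1 / X`. -/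
noncomputable def infI (z : Ideal R[X]) : Ideal R[X] :=
  (z.map (algebraMap R[X] (Localization.Away (X : R[X])))).comap
    (eval₂RingHom ((algebraMap R[X] (Localization.Away (X : R[X]))).comp C)
      (IsLocalization.Away.invSelf (X : R[X])))

/-- The multiplicity at the prime `p` of `R` of the specialisation at infinity of `V(z)`. -/
noncomputable def bet (z : Ideal R[X]) (p : PrimeSpectrum R) : ℕ :=
  len (infI z ⊔ Ideal.span {X}) (PrimeSpectrum.comap (evalRingHom (0 : R)) p)

variable (k E : Type) [Field k] [Algebra k R] [Field E]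

/-- The cycle `d` is the specialisation at infinity of the cycle `c`. -/
def IsBeta {n : ℕ} (c : RP k R[X] (n + 1) →₀ E) (d : RP k R n →₀ E) : Prop :=
  ∀ p : RP k R n, d p = c.sum (fun z e => e * (bet z.1.asIdeal p.1 : E))

end Inf

/-! ## The two sheets of a split double cover -/

section Sg

variable {k : Type} [Field k] {T : Type} [CommRing T] [Algebra k T]

/-- The homomorphism `T[y] / (y ^ 2 - y - G) → T`, `y ↦ v`, where `v` is a root. -/
noncomputable def sg {G : T} (v : T) (hv : v ^ 2 - v = G) : Q T G →ₐ[k] T :=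
  Qlift (AlgHom.id k T) v hv

@[simp] lemma sg_yy {G : T} (v : T) (hv : v ^ 2 - v = G) : sg (k := k) v hv (yy G) = v :=
  Qlift_yy _ _ _

@[simp] lemma sg_algebraMap {G : T} (v : T) (hv : v ^ 2 - v = G) (t : T) :
    sg (k := k) v hv (algebraMap T (Q T G) t) = t := Qlift_algebraMap _ _ _ _

lemma sg_surjective {G : T} (v : T) (hv : v ^ 2 - v = G) :
    Function.Surjective (sg (k := k) v hv) := fun x => ⟨algebraMap T (Q T G) x, sg_algebraMap v hv x⟩

lemma conj_root {G v : T} (hv : v ^ 2 - v = G) : (1 - v) ^ 2 - (1 - v) = G := by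
  rw [← hv]; ring

/-- The involution `y ↦ 1 - y`, as a homomorphism. -/
noncomputable abbrev tauH (g : T) : Q T g →ₐ[k] Q T g := (tau (k := k) g).toAlgHom

lemma tauH_surjective (g : T) : Function.Surjective (tauH (k := k) g) :=
  (tau (k := k) g).surjective

/-- The action of the involution `y ↦ 1 - y` on cycles. -/
noncomputable def ptau (E : Type) [Field E] (g : T) {n : ℕ} :
    (RP k (Q T g) n →₀ E) →ₗ[E] (RP k (Q T g) n →₀ E) :=
  push E (tauH g) (tauH_surjective g)

end Sg

/-! ## Charts of the double cover `y ^ 2 - y = G + X f` over `R[X]` -/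

section Chart

variable {k : Type} [Field k] {R R' : Type} [CommRing R] [CommRing R'] [Algebra k R]
  [Algebra k R']

/-- The ring `R[X][y] / (y ^ 2 - y - G - X f)`. -/
abbrev YY (G f : R) : Type := Q R[X] (C G + X * C f)

/-- The homomorphism `R[X][y] / (y ^ 2 - y - G - X f) → R'[X]`, `y ↦ v`, if `f` maps to zero
in `R'` and `v ^ 2 - v = G` in `R'`. -/
noncomputable def shv {G f : R} (ψ : R →ₐ[k] R') (hf : ψ f = 0) (v : R') (hv : v ^ 2 - v = ψ G) :
    YY G f →ₐ[k] R'[X] :=
  Qlift (mapX ψ) (C v) (by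
    have h : mapX ψ (C G + X * C f) = C (ψ G) + X * C (ψ f) := by simp [mapX]
    rw [h, hf, ← hv]
    simp)

@[simp] lemma shv_yy {G f : R} (ψ : R →ₐ[k] R') (hf : ψ f = 0) (v : R')
    (hv : v ^ 2 - v = ψ G) : shv ψ hf v hv (yy (C G + X * C f)) = C v := Qlift_yy _ _ _

@[simp] lemma shv_algebraMap {G f : R} (ψ : R →ₐ[k] R') (hf : ψ f = 0) (v : R')
    (hv : v ^ 2 - v = ψ G) (P : R[X]) :
    shv ψ hf v hv (algebraMap R[X] (YY G f) P) = mapX ψ P := Qlift_algebraMap _ _ _ _

lemma shv_surjective {G f : R} (ψ : R →ₐ[k] R') (hψ : Function.Surjective ψ) (hf : ψ f = 0)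
    (v : R') (hv : v ^ 2 - v = ψ G) : Function.Surjective (shv ψ hf v hv) := by
  intro x
  obtain ⟨P, rfl⟩ := mapX_surjective ψ hψ x
  exact ⟨_, shv_algebraMap ψ hf v hv P⟩

/-- The chart `Spec R[X] → Spec (R[X][y] / (y ^ 2 - y - G - X f))` defined by a root `v` of
`v ^ 2 - v = G`: `y ↦ v + X f` and `X ↦ X (X f + (2 v - 1))`. -/
noncomputable def chi {G f : R} (v : R) (hv : v ^ 2 - v = G) : YY G f →ₐ[k] R[X] :=
  Qlift (evs (CC k R) (X * (X * C f + C (2 * v - 1)))) (C v + X * C f) (by
    have h : evs (CC k R) (X * (X * C f + C (2 * v - 1))) (C G + X * C f) =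
        C G + X * (X * C f + C (2 * v - 1)) * C f := by simp; ring
    rw [h, ← hv]
    simp only [map_sub, map_mul, map_pow, map_one]
    have h2 : (C (2 : R) : R[X]) = 2 := rfl
    rw [h2]
    ring)

@[simp] lemma chi_yy {G f : R} (v : R) (hv : v ^ 2 - v = G) :
    chi (k := k) (f := f) v hv (yy (C G + X * C f)) = C v + X * C f := Qlift_yy _ _ _

@[simp] lemma chi_algebraMap {G f : R} (v : R) (hv : v ^ 2 - v = G) (P : R[X]) :
    chi (k := k) (f := f) v hv (algebraMap R[X] (YY G f) P) =
      evs (CC k R) (X * (X * C f + C (2 * v - 1))) P := Qlift_algebraMap _ _ _ _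

/-- The map of double covers `y ^ 2 - y = G + X f` defined by `R → R'`. -/
noncomputable def YYmap (G f : R) (ψ : R →ₐ[k] R') : YY G f →ₐ[k] YY (ψ G) (ψ f) :=
  Qmap (mapX ψ) (by simp [mapX])

lemma YYmap_surjective (G f : R) (ψ : R →ₐ[k] R') (hψ : Function.Surjective ψ) :
    Function.Surjective (YYmap G f ψ) := Qmap_surjective _ _ (mapX_surjective ψ hψ)

end Chart

/-! ## Valuation rings, norms and tame symbols -/

section Val

variable {k : Type} [Field k] {R K : Type} [CommRing R] [Field K] [Algebra k R] [Algebra k K]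

/-- The homomorphism from `R` to the residue field of the valuation ring `O`. -/
noncomputable def rhoO (θ : R →ₐ[k] K) (O : ValuationSubring K) (h : ∀ r, θ r ∈ O) :
    R →+* IsLocalRing.ResidueField O :=
  (IsLocalRing.residue O).comp (θ.toRingHom.codRestrict O.toSubring h)

/-- `b / c` is the norm of `x`, an element of the field `L`, to the subfield generated by the image
of `ρ : R → L`. -/
def IsNm {L : Type} [Field L] (ρ : R →+* L) (x : L) (b c : R) : Prop :=
  ρ b ≠ 0 ∧ ρ c ≠ 0 ∧
    ((Algebra.norm (Subfield.closure (Set.range ρ)) x : Subfield.closure (Set.range ρ)) : L) * ρ c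
      = ρ b

/-- `π` is a uniformiser of `O`. -/
def IsUnif (O : ValuationSubring K) (π : K) : Prop :=
  π ∈ O ∧ π ≠ 0 ∧ π⁻¹ ∉ O ∧ ∀ x ∈ O, x⁻¹ ∉ O → x / π ∈ O

/-- `x` is a unit of `O`. -/
def IsUn (O : ValuationSubring K) (x : K) : Prop := x ≠ 0 ∧ x ∈ O ∧ x⁻¹ ∈ O

/-- `w` is the tame symbol (up to sign and before reduction) of `a` and `u` at the discrete
valuation ring `O`. -/
def IsTame (O : ValuationSubring K) (a u w : K) : Prop :=
  ∃ (π α β : K) (i j : ℤ), IsUnif O π ∧ IsUn O α ∧ IsUn O β ∧ a = α * π ^ i ∧ u = β * π ^ j ∧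
    w = a ^ j * u ^ (-i)

variable (E : Type) [Field E]

/-- The cycle `d` is the divisor, on the centre of `O`, of the norm of the tame symbol of `a`
and `u`. -/
def IsTD (θ : R →ₐ[k] K) {n : ℕ} (O : ValuationSubring K) (a u : K) (d : RP k R n →₀ E) : Prop :=
  ∃ (h : ∀ r, θ r ∈ O) (T : RP k R (n + 1)) (w : O) (b c : R) (db dc : RP k R n →₀ E),
    T.1.asIdeal = RingHom.ker (rhoO θ O h) ∧ IsTame O a u (w : K) ∧
    IsNm (rhoO θ O h) (IsLocalRing.residue O w) b c ∧ IsDv k E T.1 b db ∧ IsDv k E T.1 c dc ∧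
    d = db - dc

variable (n : ℕ)

/-- The valuation rings `O` of `K` which contain the image of `R`, whose centre on `R` has
dimension `n + 1`, and which do not contain `s`. -/
def VV (θ : R →ₐ[k] K) (s : K) : Set (ValuationSubring K) :=
  {O | s ∉ O ∧ ∃ (h : ∀ r, θ r ∈ O) (T : RP k R (n + 1)), T.1.asIdeal = RingHom.ker (rhoO θ O h)}

end Val

end CUB
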