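import Pool.Agent.CUB.StmtsV
import Pool.Agent.Lib_helper66.OneP.Full

/-!
# CUB: affine space bundles; from smooth cubic hypersurfaces to all varieties
-/

set_option autoImplicit false

open Polynomial CategoryTheory AlgebraicGeometry

namespace CUB

open Pool.Agent.Lib_helper55.Beil Pool.Agent.Lib_helper66.OneP

universe v

variable {k : Type} [Field k] {E : Type} [Field E]

/-- `p : Y → X` is a bundle of affine spaces of dimension `r`: Zariski locally on `X` it is the
projection of the product with the affine space of dimension `r`. -/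
structure Bundle (r : ℕ) (Y X : Var k) where
  /-- the projection -/
  p : Y.X ⟶ X.X
  comm : p ≫ X.f = Y.f
  loc : ∀ x : X.X, ∃ (U V : Var k) (j : OpenIn U X) (j' : OpenIn V Y) (q : V.X ⟶ U.X)
    (t : V.X ⟶ Spec (CommRingCat.of (MvPolynomial (Fin r) k))), x ∈ Set.range j.g ∧
      IsPullback j'.g q p j.g ∧
      IsPullback q t U.f (Spec.map (CommRingCat.ofHom MvPolynomial.C))

variable (k) in
/-- The theorem of Jouanolou and Thomason for smooth proper varieties: there is a bundle of affine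
spaces over `X` whose total space is affine. -/
def Jouanolou : Prop := ∀ (X : Var k) (d : ℕ), X.SmoothProper d →
  ∃ (Y : Var k) (r : ℕ), IsAffine Y.X ∧ Nonempty (Bundle r Y X)

/-- Homotopy invariance for bundles of affine spaces: the pull-back `h` in homology is compatible
with the flat pull-back `c` of cycles, and `c` is injective on Chow groups. -/
def HomotopyInvariance (T : ∀ i : ℕ, Homology.{v} k E i) : Prop :=
  ∀ (i r : ℕ) (Y X : Var k) (B : Bundle r Y X),
    ∃ (c : (Pts i X →₀ E) →ₗ[E] (Pts (i + r) Y →₀ E))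
      (h : (T i).H (2 * i) X →ₗ[E] (T (i + r)).H (2 * (i + r)) Y),
      (∀ (x : Pts i X) (y : Pts (i + r) Y), B.p y.1 = x.1 →
        c (Finsupp.single x 1) = Finsupp.single y 1) ∧
      (∀ z, h (Finsupp.linearCombination E ((T i).cl X) z) =
        Finsupp.linearCombination E ((T (i + r)).cl Y) (c z)) ∧
      ∀ z, c z ∈ ratZero E (i + r) Y → z ∈ ratZero E i X

/-- Injectivity for affine varieties implies injectivity for smooth proper varieties. -/
lemma inj_smoothProper (T : ∀ i : ℕ, Homology.{v} k E i) (hJ : Jouanolou k)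
    (hH : HomotopyInvariance T) (h : ∀ (i : ℕ) (X : Var k), IsAffine X.X → (T i).Inj X) (i : ℕ)
    (X : Var k) (d : ℕ) (hX : X.SmoothProper d) : (T i).Inj X := by
  obtain ⟨Y, r, hY, ⟨B⟩⟩ := hJ X d hX
  obtain ⟨c, g, -, h1, h2⟩ := hH i r Y X B
  have h3 := h (i + r) Y hY
  rw [Homology.inj_iff, injC_iff] at h3 ⊢
  intro z hz
  apply h2
  apply h3
  unfold Pool.Agent.Lib_helper66.OneP.cls at hz ⊢
  rw [← h1 z, hz, map_zero]

/-- The varieties considered are the smooth hypersurfaces `y ^ 2 - y = F(x_1, ..., x_3n)` with `F` of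
degree at most three, and the cycles of dimension `2 n` (codimension `n`). -/
def CubicInj (T : ∀ i : ℕ, Homology.{v} k E i) : Prop :=
  ∀ (n : ℕ) (F : MvPolynomial (Fin (3 * n)) k), F.totalDegree ≤ 3 → Smooth (cubic F).f →
    (T (2 * n)).Inj (cubic F)

/-- See `CubicInj`. -/
def CubicSurj (T : ∀ i : ℕ, Homology.{v} k E i) : Prop :=
  ∀ (n : ℕ) (F : MvPolynomial (Fin (3 * n)) k), F.totalDegree ≤ 3 → Smooth (cubic F).f →
    (T (2 * n)).Surj (cubic F)

/-- From affine varieties to all varieties. -/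
theorem final [Finite k] [CharZero E] (hMAIN : S_MAIN.{v}) (hSURJ : S_SURJ.{v})
    (T : ∀ i : ℕ, Homology.{v} k E i) (hT : Extra T) :
    (CubicSurj T ↔ ∀ (i : ℕ) (X : Var k), (T i).Surj X ∧ (T i).Semisimple X) ∧
    (CubicInj T ↔ ∀ (i : ℕ) (X : Var k), IsAffine X.X → (T i).Inj X) ∧
    (Pool.Agent.Lib_helper66.OneP.Alterations k → (∀ i, Published (T i)) → Jouanolou k → HomotopyInvariance T →
      (CubicInj T ∧ CubicSurj T ↔
        ∀ (i : ℕ) (X : Var k), (T i).Inj X ∧ (T i).Surj X ∧ (T i).Semisimple X)) := by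
  have hM := hMAIN k E T hT
  have hS : CubicSurj T → ∀ (i : ℕ) (X : Var k), (T i).Surj X ∧ (T i).Semisimple X := fun h i =>
    hSURJ k E i (T i) (fun X hX => hM.2 h i X hX)
  have haff : ∀ (n : ℕ) (F : MvPolynomial (Fin (3 * n)) k), IsAffine (cubic F).X := by
    intro n F
    unfold cubic
    infer_instance
  refine ⟨⟨hS, fun h n F _ _ => (h _ _).1⟩, ⟨hM.1, fun h n F _ _ => h _ _ (haff n F)⟩, ?_⟩
  intro hA hP hJ hH
  refine ⟨?_, fun h => ⟨fun n F _ _ => (h _ _).1, fun n F _ _ => (h _ _).2.1⟩⟩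
  rintro ⟨h1, h2⟩ i X
  refine ⟨?_, hS h2 i X⟩
  have hg : ∀ X : Var k, (T i).gen X ≤ (T i).alg X := by
    apply (T i).good_of_cover
    intro _ U _ _ _ _ h0
    exact ⟨U, ⟨𝟙 _, Category.id_comp _, inferInstance⟩, inferInstance,
      (T i).inv_zero_of_surj (hS h2 i U).1 h0⟩
  exact inj_full hA (T i) hg (hP i)
    (fun Y d _ hY => inj_smoothProper T hJ hH (hM.1 h1) i Y d hY) X

end CUB
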