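import Pool.Agent.CUB.StmtsR

set_option autoImplicit false
set_option linter.unusedSectionVars false

/-!
# CUB, module GREC: reciprocity on an algebra of finite type
-/

open Polynomial

namespace CUB

namespace GREC

section Chart

variable {k S K C : Type} [Field k] [CommRing S] [Algebra k S] [Field K] [Algebra k K]
  [CommRing C] [IsDomain C] [IsLocalRing C] [Algebra C K]

/-- `C` is the local ring at `m` of the closed subvariety `V(q)`. -/
structure Chart (θ : S →ₐ[k] K) (q m : PrimeSpectrum S) (γ : S →+* C) : Prop where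
  comm : ∀ s, algebraMap C K (γ s) = θ s
  ker : ∀ s, γ s = 0 ↔ s ∈ q.asIdeal
  unit : ∀ s, s ∉ m.asIdeal → IsUnit (γ s)
  frac : ∀ c : C, ∃ s t, t ∉ m.asIdeal ∧ γ t * c = γ s
  mem : ∀ s, s ∈ m.asIdeal → γ s ∈ IsLocalRing.maximalIdeal C
  lenT : ∀ (I : Ideal S), q.asIdeal ≤ I → ∀ z : PrimeSpectrum C,
    len (I.map γ) z = len I (PrimeSpectrum.comap γ z)

variable {θ : S →ₐ[k] K} {q m : PrimeSpectrum S} {γ : S →+* C}

theorem mc (H : Chart θ q m γ) (I : Ideal C) : (I.comap γ).map γ = I := by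
  apply le_antisymm Ideal.map_comap_le
  intro x hx
  obtain ⟨b, t, ht, h⟩ := H.frac x
  have h1 : γ b ∈ (I.comap γ).map γ := by
    apply Ideal.mem_map_of_mem
    rw [Ideal.mem_comap, ← h]
    exact I.mul_mem_left _ hx
  rw [← h] at h1
  exact (Ideal.unit_mul_mem_iff_mem _ (H.unit t ht)).mp h1

theorem eq_of_comap (H : Chart θ q m γ) {z z' : PrimeSpectrum C}
    (h : PrimeSpectrum.comap γ z = PrimeSpectrum.comap γ z') : z = z' := by
  have h1 : z.asIdeal.comap γ = z'.asIdeal.comap γ := congrArg PrimeSpectrum.asIdeal h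
  apply PrimeSpectrum.ext
  rw [← mc H z.asIdeal, ← mc H z'.asIdeal, h1]

theorem comap_max (H : Chart θ q m γ) :
    (IsLocalRing.maximalIdeal C).comap γ = m.asIdeal := by
  apply le_antisymm
  · intro s hs
    by_contra h
    exact (IsLocalRing.mem_maximalIdeal _).mp hs (H.unit s h)
  · intro s hs
    exact H.mem s hs

theorem comap_le (H : Chart θ q m γ) (z : PrimeSpectrum C) : PrimeSpectrum.comap γ z ≤ m := by
  intro s hs
  rw [← comap_max H]
  exact IsLocalRing.le_maximalIdeal z.isPrime.ne_top hs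

theorem le_comap (H : Chart θ q m γ) (z : PrimeSpectrum C) : q ≤ PrimeSpectrum.comap γ z := by
  intro s hs
  have h : γ s ∈ z.asIdeal := by
    rw [(H.ker s).mpr hs]
    exact z.asIdeal.zero_mem
  exact h

theorem mem_map (H : Chart θ q m γ) (P : Ideal S) {c : C} (hc : c ∈ P.map γ) :
    ∃ p ∈ P, ∃ t, t ∉ m.asIdeal ∧ γ t * c = γ p := by
  refine Submodule.span_induction ?_ ?_ ?_ ?_ hc
  · rintro _ ⟨p, hp, rfl⟩
    exact ⟨p, hp, 1, m.isPrime.one_notMem, by rw [map_one, one_mul]⟩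
  · exact ⟨0, P.zero_mem, 1, m.isPrime.one_notMem, by rw [map_one, map_zero, mul_zero]⟩
  · rintro x y - - ⟨p, hp, t, ht, h⟩ ⟨p', hp', t', ht', h'⟩
    refine ⟨t' * p + t * p', P.add_mem (P.mul_mem_left _ hp) (P.mul_mem_left _ hp'), t * t',
      fun h2 => (m.isPrime.mem_or_mem h2).elim ht ht', ?_⟩
    rw [map_mul, map_add, map_mul, map_mul, ← h, ← h']
    ring
  · rintro a x - ⟨p, hp, t, ht, h⟩
    obtain ⟨s, t', ht', h'⟩ := H.frac a
    refine ⟨s * p, P.mul_mem_left _ hp, t * t',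
      fun h2 => (m.isPrime.mem_or_mem h2).elim ht ht', ?_⟩
    rw [map_mul, map_mul, ← h, ← h', smul_eq_mul]
    ring

theorem cm (H : Chart θ q m γ) (P : PrimeSpectrum S) (hq : q ≤ P) (hm : P ≤ m) :
    (P.asIdeal.map γ).comap γ = P.asIdeal := by
  apply le_antisymm _ Ideal.le_comap_map
  intro s hs
  obtain ⟨p, hp, t, ht, h⟩ := mem_map H P.asIdeal hs
  rw [← map_mul] at h
  have h1 : t * s - p ∈ q.asIdeal := by
    rw [← H.ker, map_sub, h, sub_self]
  have h2 : t * s ∈ P.asIdeal := by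
    have := P.asIdeal.add_mem (hq h1) hp
    rwa [sub_add_cancel] at this
  exact (P.isPrime.mem_or_mem h2).resolve_left fun h3 => ht (hm h3)

theorem pm (H : Chart θ q m γ) (P : PrimeSpectrum S) (hq : q ≤ P) (hm : P ≤ m) :
    (P.asIdeal.map γ).IsPrime := by
  have hcm := cm H P hq hm
  constructor
  · intro h
    apply P.isPrime.ne_top
    rw [← hcm, h, Ideal.comap_top]
  · intro x y hxy
    obtain ⟨s, t, ht, h⟩ := H.frac x
    obtain ⟨s', t', ht', h'⟩ := H.frac y
    have h1 : s * s' ∈ P.asIdeal := by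
      rw [← hcm, Ideal.mem_comap, map_mul, ← h, ← h']
      have h2 : γ t * x * (γ t' * y) = γ t * γ t' * (x * y) := by ring
      rw [h2]
      exact Ideal.mul_mem_left _ _ hxy
    rcases P.isPrime.mem_or_mem h1 with h2 | h2
    · left
      have h3 : γ s ∈ P.asIdeal.map γ := Ideal.mem_map_of_mem _ h2
      rw [← h] at h3
      exact (Ideal.unit_mul_mem_iff_mem _ (H.unit t ht)).mp h3
    · right
      have h3 : γ s' ∈ P.asIdeal.map γ := Ideal.mem_map_of_mem _ h2
      rw [← h'] at h3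
      exact (Ideal.unit_mul_mem_iff_mem _ (H.unit t' ht')).mp h3

/-- the prime of `C` given by a prime between `q` and `m` -/
theorem exists_prime (H : Chart θ q m γ) (P : PrimeSpectrum S) (hq : q ≤ P) (hm : P ≤ m) :
    ∃ z : PrimeSpectrum C, PrimeSpectrum.comap γ z = P :=
  ⟨⟨P.asIdeal.map γ, pm H P hq hm⟩, PrimeSpectrum.ext (cm H P hq hm)⟩

theorem map_q (H : Chart θ q m γ) : q.asIdeal.map γ = ⊥ := by
  rw [eq_bot_iff, Ideal.map_le_iff_le_comap]
  intro s hs
  rw [Ideal.mem_comap, (H.ker s).mpr hs]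
  exact Ideal.zero_mem _

theorem bot_iff (H : Chart θ q m γ) (z : PrimeSpectrum C) :
    z.asIdeal = ⊥ ↔ PrimeSpectrum.comap γ z = q := by
  constructor
  · intro h
    apply PrimeSpectrum.ext
    ext s
    rw [← H.ker]
    have h1 : s ∈ (PrimeSpectrum.comap γ z).asIdeal ↔ γ s ∈ z.asIdeal := Iff.rfl
    rw [h1, h, Ideal.mem_bot]
  · intro h
    have h1 : z.asIdeal.comap γ = q.asIdeal := congrArg PrimeSpectrum.asIdeal h
    rw [← mc H z.asIdeal, ← map_q H, h1]

theorem max_iff (H : Chart θ q m γ) (z : PrimeSpectrum C) :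
    z.asIdeal.IsMaximal ↔ PrimeSpectrum.comap γ z = m := by
  constructor
  · intro h
    have h1 : z.asIdeal.comap γ = m.asIdeal := by
      rw [← comap_max H, ← IsLocalRing.eq_maximalIdeal h]
    exact PrimeSpectrum.ext h1
  · intro h
    have h2 : z.asIdeal.comap γ = m.asIdeal := congrArg PrimeSpectrum.asIdeal h
    have h1 : z.asIdeal = IsLocalRing.maximalIdeal C := by
      rw [← mc H z.asIdeal, ← mc H (IsLocalRing.maximalIdeal C), comap_max H, h2]
    rw [h1]
    exact IsLocalRing.maximalIdeal.isMaximal C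

/-- lengths at the prime `z` -/
theorem len_z (H : Chart θ q m γ) (x : S) (z : PrimeSpectrum C) :
    len (Ideal.span {γ x}) z = len (q.asIdeal ⊔ Ideal.span {x}) (PrimeSpectrum.comap γ z) := by
  rw [← H.lenT _ le_sup_left, Ideal.map_sup, map_q H, bot_sup_eq, Ideal.map_span,
    Set.image_singleton]

end Chart

/-- surjective homomorphisms, lengths of the quotients -/
theorem length_quot {R S : Type} [CommRing R] [CommRing S] (f : R →+* S)
    (hf : Function.Surjective f) (I : Ideal R) (J : Ideal S) (h : I = J.comap f) :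
    Module.length R (R ⧸ I) = Module.length S (S ⧸ J) := by
  let _ : Algebra R S := f.toAlgebra
  have h1 : Module.length R (S ⧸ J) = Module.length S (S ⧸ J) :=
    Module.length_eq_of_surjective (R := S) (S := R) (M := S ⧸ J) hf
  rw [← h1]
  let g : R →ₐ[R] (S ⧸ J) := Algebra.ofId R (S ⧸ J)
  have hg : ∀ x, g x = Ideal.Quotient.mk J (f x) := fun x => rfl
  have hgs : Function.Surjective g.toLinearMap := by
    intro y
    obtain ⟨z, rfl⟩ := Ideal.Quotient.mk_surjective y
    obtain ⟨x, rfl⟩ := hf z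
    exact ⟨x, rfl⟩
  have hk : LinearMap.ker g.toLinearMap = I := by
    ext x
    rw [LinearMap.mem_ker, h, Ideal.mem_comap]
    have : g.toLinearMap x = Ideal.Quotient.mk J (f x) := rfl
    rw [this, Ideal.Quotient.eq_zero_iff_mem]
  have e := g.toLinearMap.quotKerEquivOfSurjective hgs
  rw [hk] at e
  exact e.length_eq

/-- the localisation of a local ring at the maximal ideal -/
theorem len_max {C : Type} [CommRing C] [IsLocalRing C] (J : Ideal C) :
    len J (⟨IsLocalRing.maximalIdeal C, inferInstance⟩ : PrimeSpectrum C) = lC C (C ⧸ J) := by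
  have hb : Function.Bijective (algebraMap C (Localization.AtPrime (IsLocalRing.maximalIdeal C))) := by
    have h1 : IsLocalization.AtPrime C (IsLocalRing.maximalIdeal C) := by
      apply IsLocalization.self
      intro x hx
      exact (IsLocalRing.notMem_maximalIdeal).mp hx
    have e := IsLocalization.algEquiv (IsLocalRing.maximalIdeal C).primeCompl C
      (Localization.AtPrime (IsLocalRing.maximalIdeal C))
    have h2 : ∀ x, algebraMap C (Localization.AtPrime (IsLocalRing.maximalIdeal C)) x = e x :=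
      fun x => (e.commutes x).symm
    constructor
    · intro x y hxy
      rw [h2, h2] at hxy
      exact e.injective hxy
    · intro y
      obtain ⟨x, hx⟩ := e.surjective y
      exact ⟨x, (h2 x).trans hx⟩
  unfold len lC
  rw [length_quot _ hb.2 J (J.map (algebraMap C (Localization.AtPrime
    (IsLocalRing.maximalIdeal C)))) (Ideal.comap_map_of_bijective _ hb).symm]

section Chart2

variable {k S K C : Type} [Field k] [CommRing S] [Algebra k S] [Field K] [Algebra k K]
  [CommRing C] [IsDomain C] [IsLocalRing C] [Algebra C K] {θ : S →ₐ[k] K}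
  {q m : PrimeSpectrum S} {γ : S →+* C}

theorem len_m (H : Chart θ q m γ) (y : S) (z : PrimeSpectrum C) :
    len ((PrimeSpectrum.comap γ z).asIdeal ⊔ Ideal.span {y}) m =
      lC C (C ⧸ (z.asIdeal ⊔ Ideal.span {γ y})) := by
  have h0 : q.asIdeal ≤ (PrimeSpectrum.comap γ z).asIdeal := le_comap H z
  have h1 := H.lenT ((PrimeSpectrum.comap γ z).asIdeal ⊔ Ideal.span {y})
    (h0.trans le_sup_left) ⟨IsLocalRing.maximalIdeal C, inferInstance⟩
  have h2 : PrimeSpectrum.comap γ (⟨IsLocalRing.maximalIdeal C, inferInstance⟩ :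
      PrimeSpectrum C) = m := PrimeSpectrum.ext (comap_max H)
  rw [h2, Ideal.map_sup, Ideal.map_span, Set.image_singleton] at h1
  have h3 : (PrimeSpectrum.comap γ z).asIdeal.map γ = z.asIdeal := mc H z.asIdeal
  rw [h3, len_max] at h1
  exact h1.symm

end Chart2

section Dims

variable {k S K C : Type} [Field k] [CommRing S] [Algebra k S] [Algebra.FiniteType k S]
  [Field K] [Algebra k K] [CommRing C] [IsDomain C] [IsLocalRing C] [Algebra C K]
  {θ : S →ₐ[k] K} {n : ℕ} {q : RP k S (n + 1 + 1)} {m : RP k S n} {γ : S →+* C}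

theorem rdim_mid (h1 : S_DIM1) (q : RP k S (n + 1 + 1)) (m : RP k S n) (P : PrimeSpectrum S)
    (hq : q.1 < P) (hm : P < m.1) : rdim k P = (n + 1 : ℕ) := by
  obtain ⟨⟨d, hd⟩, h2⟩ := h1 k S P
  have h3 := h2 m.1 hm
  have h4 := (h1 k S q.1).2 P hq
  rw [hd, m.2] at h3
  rw [hd, q.2] at h4
  have h5 : n < d := by exact_mod_cast h3
  have h6 : d < n + 1 + 1 := by exact_mod_cast h4
  have h7 : d = n + 1 := by omega
  rw [hd, h7]

theorem hh_iff (h1 : S_DIM1) (H : Chart θ q.1 m.1 γ) (z : PrimeSpectrum C) :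
    z ∈ HH C ↔ rdim k (PrimeSpectrum.comap γ z) = (n + 1 : ℕ) := by
  constructor
  · rintro ⟨hz1, hz2⟩
    rw [Ne, bot_iff H] at hz1
    rw [max_iff H] at hz2
    exact rdim_mid h1 q m _ (lt_of_le_of_ne (le_comap H z) (Ne.symm hz1))
      (lt_of_le_of_ne (comap_le H z) hz2)
  · intro h
    constructor
    · intro h2
      rw [bot_iff H] at h2
      rw [h2, q.2] at h
      have h3 : n + 1 + 1 = n + 1 := by exact_mod_cast h
      omega
    · intro h2
      rw [max_iff H] at h2
      rw [h2, m.2] at h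
      have h3 : n = n + 1 := by exact_mod_cast h
      omega

theorem sit (h1 : S_DIM1) (H : Chart θ q.1 m.1 γ) [IsNoetherianRing C] [IsFractionRing C K]
    (hfin : Module.Finite C (integralClosure C K)) : Sit C (integralClosure C K) K where
  fin := hfin
  frC := inferInstance
  frA := by
    have : Algebra.IsAlgebraic C K := IsLocalization.isAlgebraic K (nonZeroDivisors C)
    apply integralClosure.isFractionRing_of_algebraic
    intro x hx
    exact (map_eq_zero_iff _ (IsFractionRing.injective C K)).mp hx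
  ic := integralClosure.isIntegrallyClosedOfFiniteExtension K
  dim := by
    intro P P' hP hP' hne hlt
    have hzz : (⟨P, hP⟩ : PrimeSpectrum C) < ⟨P', hP'⟩ := hlt
    have hne' : (⟨P, hP⟩ : PrimeSpectrum C).asIdeal ≠ ⊥ := hne
    have h3 : PrimeSpectrum.comap γ ⟨P, hP⟩ < PrimeSpectrum.comap γ ⟨P', hP'⟩ := by
      refine lt_of_le_of_ne (Ideal.comap_mono hzz.le) fun h => hzz.ne (eq_of_comap H h)
    rw [Ne, bot_iff H] at hne'
    have h4 : q.1 < PrimeSpectrum.comap γ ⟨P, hP⟩ :=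
      lt_of_le_of_ne (le_comap H _) (Ne.symm hne')
    have h5 : PrimeSpectrum.comap γ ⟨P', hP'⟩ = m.1 := by
      by_contra hcon
      have h6 := lt_of_le_of_ne (comap_le H ⟨P', hP'⟩) hcon
      have h7 := rdim_mid h1 q m _ h4 (h3.trans h6)
      have h8 := rdim_mid h1 q m _ (h4.trans h3) h6
      have h9 := (h1 k S (PrimeSpectrum.comap γ ⟨P, hP⟩)).2 _ h3
      rw [h7, h8] at h9
      exact lt_irrefl _ h9
    exact IsLocalRing.eq_maximalIdeal ((max_iff H ⟨P', hP'⟩).mpr h5)

end Dims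

section Norm

theorem norm_ne {L : Type} [Field L] (F : Subfield L) {x : L} (hx : x ≠ 0) :
    Algebra.norm F x ≠ 0 := by
  by_cases h : Module.Finite F L
  · exact Algebra.norm_ne_zero_iff.mpr hx
  · rw [Algebra.norm_eq_one_of_not_module_finite h]
    exact one_ne_zero

theorem norm_congr {L : Type} [Field L] (F F' : Subfield L) (h : F = F') (x : L) :
    ((Algebra.norm F x : F) : L) = ((Algebra.norm F' x : F') : L) := by
  subst h
  rfl

theorem ex_nm {C L : Type} [CommRing C] [Field L] (ρ : C →+* L) {x : L} (hx : x ≠ 0) :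
    ∃ b c : C, IsNm ρ x b c := by
  have h0 : ((Algebra.norm (Subfield.closure (Set.range ρ)) x :
      Subfield.closure (Set.range ρ)) : L) ≠ 0 := by
    intro h
    exact norm_ne _ hx (Subtype.ext h)
  have h1 := (Algebra.norm (Subfield.closure (Set.range ρ)) x).2
  rw [Subfield.mem_closure_iff] at h1
  obtain ⟨y, hy, z, hz, hyz⟩ := h1
  have hcl : Subring.closure (Set.range ρ) = ρ.range := by
    rw [← RingHom.coe_range, Subring.closure_eq]
  rw [hcl] at hy hz
  obtain ⟨b, rfl⟩ := hy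
  obtain ⟨c, rfl⟩ := hz
  have hc : ρ c ≠ 0 := by
    intro h
    rw [h, div_zero] at hyz
    exact h0 hyz.symm
  have hb : ρ b ≠ 0 := by
    intro h
    rw [h, zero_div] at hyz
    exact h0 hyz.symm
  refine ⟨b, c, hb, hc, ?_⟩
  rw [← hyz, div_mul_cancel₀ _ hc]

variable {k S K C : Type} [Field k] [CommRing S] [Algebra k S]
  [Field K] [Algebra k K] [CommRing C] [IsDomain C] [IsLocalRing C] [Algebra C K]
  {θ : S →ₐ[k] K} {q m : PrimeSpectrum S} {γ : S →+* C}

theorem closure_eq (H : Chart θ q m γ) {L : Type} [Field L] (ρS : S →+* L) (ρ : C →+* L)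
    (h : ∀ s, ρS s = ρ (γ s)) :
    Subfield.closure (Set.range ρS) = Subfield.closure (Set.range ρ) := by
  apply le_antisymm
  · rw [Subfield.closure_le]
    rintro _ ⟨s, rfl⟩
    apply Subfield.subset_closure
    exact ⟨γ s, (h s).symm⟩
  · rw [Subfield.closure_le]
    rintro _ ⟨c, rfl⟩
    obtain ⟨s, t, ht, hst⟩ := H.frac c
    have h1 : ρ (γ t) ≠ 0 := ((H.unit t ht).map ρ).ne_zero
    have h2 : ρ c = ρS s / ρS t := by
      rw [h, h, eq_div_iff h1, ← map_mul, mul_comm, hst]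
    rw [h2]
    exact div_mem (Subfield.subset_closure ⟨s, rfl⟩) (Subfield.subset_closure ⟨t, rfl⟩)

theorem nm_C (H : Chart θ q m γ) {L : Type} [Field L] (ρS : S →+* L) (ρ : C →+* L)
    (h : ∀ s, ρS s = ρ (γ s)) {x : L} {b c : S} (hn : IsNm ρS x b c) :
    IsNm ρ x (γ b) (γ c) := by
  obtain ⟨h1, h2, h3⟩ := hn
  refine ⟨?_, ?_, ?_⟩
  · rw [← h]
    exact h1
  · rw [← h]
    exact h2
  · rw [← h, ← h, ← h3]
    congr 1
    exact norm_congr _ _ (closure_eq H ρS ρ h).symm x

/-- additivity of the length -/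
theorem length_ord {C : Type} [CommRing C] (z : Ideal C) (y : C) :
    Module.length C (C ⧸ (z ⊔ Ideal.span {y})) = Ring.ord (C ⧸ z) (Ideal.Quotient.mk z y) := by
  unfold Ring.ord
  apply length_quot (Ideal.Quotient.mk z) Ideal.Quotient.mk_surjective
  have h1 : Ideal.span {Ideal.Quotient.mk z y} =
      (z ⊔ Ideal.span {y}).map (Ideal.Quotient.mk z) := by
    rw [Ideal.map_sup, Ideal.map_quotient_self, bot_sup_eq, Ideal.map_span,
      Set.image_singleton]
  rw [h1, Ideal.comap_map_mk le_sup_left]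

theorem lC_mul {C : Type} [CommRing C] (z : Ideal C) (hz : z.IsPrime)
    (hf : ∀ x, x ∉ z → Module.length C (C ⧸ (z ⊔ Ideal.span {x})) ≠ ⊤) {y y' : C}
    (hy : y ∉ z) (hy' : y' ∉ z) :
    lC C (C ⧸ (z ⊔ Ideal.span {y * y'})) =
      lC C (C ⧸ (z ⊔ Ideal.span {y})) + lC C (C ⧸ (z ⊔ Ideal.span {y'})) := by
  unfold lC
  rw [← ENat.toNat_add (hf y hy) (hf y' hy'), length_ord, length_ord, length_ord, map_mul]
  congr 1
  apply Ring.ord_mul
  apply mem_nonZeroDivisors_of_ne_zero
  rw [Ne, Ideal.Quotient.eq_zero_iff_mem]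
  exact hy'

theorem lC_congr {C : Type} [CommRing C] (z : Ideal C) {y y' : C} (h : y - y' ∈ z) :
    lC C (C ⧸ (z ⊔ Ideal.span {y})) = lC C (C ⧸ (z ⊔ Ideal.span {y'})) := by
  have h1 : z ⊔ Ideal.span {y} = z ⊔ Ideal.span {y'} := by
    apply le_antisymm
    · refine sup_le le_sup_left ?_
      rw [Ideal.span_singleton_le_iff_mem]
      have h2 : y = (y - y') + y' := by ring
      rw [h2]
      exact Ideal.add_mem _ (Ideal.mem_sup_left h)
        (Ideal.mem_sup_right (Ideal.mem_span_singleton_self _))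
    · refine sup_le le_sup_left ?_
      rw [Ideal.span_singleton_le_iff_mem]
      have h2 : y' = -(y - y') + y := by ring
      rw [h2]
      exact Ideal.add_mem _ (Ideal.mem_sup_left (neg_mem h))
        (Ideal.mem_sup_right (Ideal.mem_span_singleton_self _))
  rw [h1]

end Norm

section Loc

variable {k S K C A : Type} [Field k] [CommRing S] [Algebra k S]
  [Field K] [Algebra k K] [CommRing C] [IsDomain C] [IsLocalRing C] [IsNoetherianRing C]
  [Algebra C K] [CommRing A] [IsDomain A] [Algebra C A] [Algebra A K] [IsScalarTower C A K]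
  {θ : S →ₐ[k] K} {q m : PrimeSpectrum S} {γ : S →+* C}

theorem mem_O {p : Ideal A} (hp : p.IsPrime) {O : ValuationSubring K} (hO : IsLocO p O) (a : A) :
    algebraMap A K a ∈ O :=
  (hO _).mpr ⟨a, 1, hp.one_notMem, by rw [map_one, mul_one]⟩

theorem memC_O {p : Ideal A} (hp : p.IsPrime) {O : ValuationSubring K} (hO : IsLocO p O)
    (c : C) : algebraMap C K c ∈ O := by
  rw [IsScalarTower.algebraMap_apply C A K]
  exact mem_O hp hO _

theorem inv_mem {p : Ideal A} {O : ValuationSubring K} (hO : IsLocO p O)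
    (hinj : Function.Injective (algebraMap A K)) {a : A} (ha : a ∉ p) :
    (algebraMap A K a)⁻¹ ∈ O := by
  refine (hO _).mpr ⟨1, a, ha, ?_⟩
  rw [map_one, inv_mul_cancel₀]
  intro h
  apply ha
  rw [(map_eq_zero_iff _ hinj).mp h]
  exact p.zero_mem

theorem inv_notMem {p : Ideal A} {O : ValuationSubring K} (hO : IsLocO p O)
    (hinj : Function.Injective (algebraMap A K)) {a : A} (ha : a ∈ p) (ha0 : a ≠ 0) :
    (algebraMap A K a)⁻¹ ∉ O := by
  intro h
  obtain ⟨a', b, hb, h2⟩ := (hO _).mp h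
  apply hb
  have h0 : algebraMap A K a ≠ 0 := fun h3 => ha0 ((map_eq_zero_iff _ hinj).mp h3)
  have h3 : algebraMap A K b = algebraMap A K (a * a') := by
    rw [map_mul, ← h2, mul_inv_cancel_left₀ h0]
  rw [hinj h3]
  exact p.mul_mem_right _ ha

theorem residue_zero (O : ValuationSubring K) (x : O) :
    IsLocalRing.residue O x = 0 ↔ (x : K) = 0 ∨ (x : K)⁻¹ ∉ O := by
  rw [IsLocalRing.residue_eq_zero_iff, IsLocalRing.mem_maximalIdeal, mem_nonunits_iff]
  constructor
  · intro h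
    by_cases h0 : (x : K) = 0
    · exact Or.inl h0
    right
    intro h2
    apply h
    refine ⟨⟨x, ⟨_, h2⟩, ?_, ?_⟩, rfl⟩
    · exact Subtype.ext (mul_inv_cancel₀ h0)
    · exact Subtype.ext (inv_mul_cancel₀ h0)
  · rintro h ⟨u, hu⟩
    have h1 : (x : K) * ((u⁻¹ : Oˣ) : O) = 1 := by
      have h2 : x * ((u⁻¹ : Oˣ) : O) = 1 := by
        rw [← hu]
        exact u.mul_inv
      exact congrArg Subtype.val h2
    rcases h with h | h
    · rw [h, zero_mul] at h1
      exact zero_ne_one h1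
    · apply h
      rw [inv_eq_of_mul_eq_one_right h1]
      exact ((u⁻¹ : Oˣ) : O).2

theorem residue_A {p : Ideal A} {O : ValuationSubring K} (hO : IsLocO p O)
    (hinj : Function.Injective (algebraMap A K)) (a : A) (h : algebraMap A K a ∈ O) :
    IsLocalRing.residue O ⟨algebraMap A K a, h⟩ = 0 ↔ a ∈ p := by
  rw [residue_zero]
  change algebraMap A K a = 0 ∨ (algebraMap A K a)⁻¹ ∉ O ↔ a ∈ p
  constructor
  · intro h2
    by_contra ha
    rcases h2 with h2 | h2
    · apply ha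
      rw [(map_eq_zero_iff _ hinj).mp h2]
      exact p.zero_mem
    · exact h2 (inv_mem hO hinj ha)
  · intro ha
    by_cases ha0 : a = 0
    · left
      rw [ha0, map_zero]
    · right
      exact inv_notMem hO hinj ha ha0

theorem local_eq (hHHA : S_HHA) (hNM : S_NM) (hsit : Sit C A K) (H : Chart θ q m γ)
    (p : PrimeSpectrum A) (hp : p ∈ HH A) (O : ValuationSubring K) (hO : IsLocO p.asIdeal O)
    (hθ : ∀ s, θ s ∈ O) (w : O) (b c : S)
    (hn : IsNm (rhoO θ O hθ) (IsLocalRing.residue O w) b c) (X Y : A) (hX : X ∉ p.asIdeal)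
    (hY : Y ∉ p.asIdeal) (hXY : (w : K) * algebraMap A K Y = algebraMap A K X) :
    (lC C (A ⧸ (p.asIdeal ⊔ Ideal.span {X})) : ℤ) - lC C (A ⧸ (p.asIdeal ⊔ Ideal.span {Y})) =
      (lC C (C ⧸ (p.asIdeal.comap (algebraMap C A) ⊔ Ideal.span {γ b})) : ℤ) -
        lC C (C ⧸ (p.asIdeal.comap (algebraMap C A) ⊔ Ideal.span {γ c})) := by
  have hfr := hsit.frA
  have hinj : Function.Injective (algebraMap A K) := IsFractionRing.injective A K
  obtain ⟨-, hcomap, -, -, -, -, -, hfinC, -⟩ := hHHA C A K hsit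
  have hCO : ∀ x : C, algebraMap C K x ∈ O.toSubring := fun x => memC_O p.isPrime hO x
  let ρ : C →+* IsLocalRing.ResidueField O :=
    (IsLocalRing.residue O).comp ((algebraMap C K).codRestrict O.toSubring hCO)
  have hρ : ∀ (x : C) (h : algebraMap C K x ∈ O),
      ρ x = IsLocalRing.residue O ⟨algebraMap C K x, h⟩ := fun x h => rfl
  have hρS : ∀ s, rhoO θ O hθ s = ρ (γ s) := by
    intro s
    have h1 : (⟨θ s, hθ s⟩ : O) = ⟨algebraMap C K (γ s), hCO (γ s)⟩ :=
      Subtype.ext (H.comm s).symm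
    exact congrArg (IsLocalRing.residue O) h1
  have hker : ∀ x : C, ρ x = 0 ↔ x ∈ p.asIdeal.comap (algebraMap C A) := by
    intro x
    rw [Ideal.mem_comap, ← residue_A hO hinj _ (mem_O p.isPrime hO _), hρ x (hCO x)]
    have h1 : (⟨algebraMap C K x, hCO x⟩ : O) =
        ⟨algebraMap A K (algebraMap C A x), mem_O p.isPrime hO _⟩ :=
      Subtype.ext (IsScalarTower.algebraMap_apply C A K x)
    rw [h1]
  set z : Ideal C := p.asIdeal.comap (algebraMap C A) with hz
  have hzH : PrimeSpectrum.comap (algebraMap C A) p ∈ HH C := hcomap p hp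
  have hzp : z.IsPrime := (PrimeSpectrum.comap (algebraMap C A) p).isPrime
  have hf : ∀ x, x ∉ z → Module.length C (C ⧸ (z ⊔ Ideal.span {x})) ≠ ⊤ :=
    fun x hx => hfinC _ hzH x hx
  -- the elements
  let wX : O := ⟨algebraMap A K X, mem_O p.isPrime hO X⟩
  let wY : O := ⟨algebraMap A K Y, mem_O p.isPrime hO Y⟩
  have hw : w * wY = wX := Subtype.ext hXY
  have hX0 : IsLocalRing.residue O wX ≠ 0 := by
    rw [Ne, residue_A hO hinj]
    exact hX
  have hY0 : IsLocalRing.residue O wY ≠ 0 := by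
    rw [Ne, residue_A hO hinj]
    exact hY
  obtain ⟨b1, c1, hn1⟩ := ex_nm ρ hX0
  obtain ⟨b2, c2, hn2⟩ := ex_nm ρ hY0
  have e1 := hNM C A K hsit p hp O hO ρ hρ X wX b1 c1 hX rfl hn1
  have e2 := hNM C A K hsit p hp O hO ρ hρ Y wY b2 c2 hY rfl hn2
  rw [← hz] at e1 e2
  have hn' := nm_C H (rhoO θ O hθ) ρ hρS hn
  have hNmul : Algebra.norm (Subfield.closure (Set.range ρ)) (IsLocalRing.residue O w) *
      Algebra.norm (Subfield.closure (Set.range ρ)) (IsLocalRing.residue O wY) =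
      Algebra.norm (Subfield.closure (Set.range ρ)) (IsLocalRing.residue O wX) := by
    rw [← map_mul, ← map_mul, hw]
  have hNmul' := congrArg (Subtype.val) hNmul
  rw [Subfield.coe_mul] at hNmul'
  obtain ⟨hb0, hc0, hbc⟩ := hn'
  obtain ⟨hb10, hc10, hbc1⟩ := hn1
  obtain ⟨hb20, hc20, hbc2⟩ := hn2
  have hrel : γ b * b2 * c1 - b1 * γ c * c2 ∈ z := by
    rw [← hker, map_sub, map_mul, map_mul, map_mul, map_mul, ← hbc, ← hbc1, ← hbc2, ← hNmul']
    ring
  have hnz : ∀ x, ρ x ≠ 0 → x ∉ z := fun x h h2 => h ((hker x).mpr h2)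
  have hmul : ∀ x y, x ∉ z → y ∉ z → x * y ∉ z := fun x y hx hy h =>
    (hzp.mem_or_mem h).elim hx hy
  have e3 := lC_congr z hrel
  rw [lC_mul z hzp hf (hmul _ _ (hnz _ hb0) (hnz _ hb20)) (hnz _ hc10),
    lC_mul z hzp hf (hnz _ hb0) (hnz _ hb20),
    lC_mul z hzp hf (hmul _ _ (hnz _ hb10) (hnz _ hc0)) (hnz _ hc20),
    lC_mul z hzp hf (hnz _ hb10) (hnz _ hc0)] at e3
  omega

theorem ker_rho (H : Chart θ q m γ) {p : PrimeSpectrum A} {O : ValuationSubring K}
    (hO : IsLocO p.asIdeal O) (hinj : Function.Injective (algebraMap A K))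
    (hθ : ∀ s, θ s ∈ O) : RingHom.ker (rhoO θ O hθ) =
      (PrimeSpectrum.comap γ (PrimeSpectrum.comap (algebraMap C A) p)).asIdeal := by
  ext s
  have h1 : s ∈ (PrimeSpectrum.comap γ (PrimeSpectrum.comap (algebraMap C A) p)).asIdeal ↔
      algebraMap C A (γ s) ∈ p.asIdeal := Iff.rfl
  rw [h1, ← residue_A hO hinj _ (mem_O p.isPrime hO _)]
  have h2 : (⟨algebraMap A K (algebraMap C A (γ s)), mem_O p.isPrime hO _⟩ : O) =
      ⟨θ s, hθ s⟩ :=
    Subtype.ext ((IsScalarTower.algebraMap_apply C A K _).symm.trans (H.comm s))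
  rw [h2]
  exact Iff.rfl

theorem un_zpow {O : ValuationSubring K} {a : K} (ha : IsUn O a) (j : ℤ) : IsUn O (a ^ j) := by
  obtain ⟨h0, h1, h2⟩ := ha
  have hp : ∀ (b : K), b ∈ O → ∀ n : ℕ, b ^ n ∈ O := fun b hb n => pow_mem hb n
  refine ⟨zpow_ne_zero _ h0, ?_, ?_⟩
  · cases j with
    | ofNat n =>
      rw [Int.ofNat_eq_natCast, zpow_natCast]
      exact hp a h1 n
    | negSucc n =>
      rw [zpow_negSucc, ← inv_pow]
      exact hp _ h2 _
  · rw [← inv_zpow]
    cases j with
    | ofNat n =>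
      rw [Int.ofNat_eq_natCast, zpow_natCast]
      exact hp _ h2 n
    | negSucc n =>
      rw [zpow_negSucc, ← inv_pow, inv_inv]
      exact hp a h1 _

theorem tame_unit {O : ValuationSubring K} {a u w : K} (h : IsTame O a u w) : IsUn O w := by
  obtain ⟨π, α, β, i, j, hπ, hα, hβ, ha, hu, hw⟩ := h
  have hπ0 : π ≠ 0 := hπ.2.1
  have h1 : w = α ^ j * β ^ (-i) := by
    rw [hw, ha, hu, mul_zpow, mul_zpow, ← zpow_mul, ← zpow_mul]
    have h2 : π ^ (i * j) * π ^ (j * -i) = 1 := by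
      rw [← zpow_add₀ hπ0]
      have : i * j + j * -i = 0 := by ring
      rw [this, zpow_zero]
    calc α ^ j * π ^ (i * j) * (β ^ (-i) * π ^ (j * -i)) =
        α ^ j * β ^ (-i) * (π ^ (i * j) * π ^ (j * -i)) := by ring
      _ = α ^ j * β ^ (-i) := by rw [h2, mul_one]
  obtain ⟨a0, a1, a2⟩ := un_zpow hα j
  obtain ⟨b0, b1, b2⟩ := un_zpow hβ (-i)
  rw [h1]
  refine ⟨mul_ne_zero a0 b0, mul_mem a1 b1, ?_⟩
  rw [mul_inv]
  exact mul_mem a2 b2

theorem ex_XY {p : PrimeSpectrum A} {O : ValuationSubring K}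
    (hO : IsLocO p.asIdeal O) (hinj : Function.Injective (algebraMap A K)) {w : K}
    (hw : IsUn O w) : ∃ X Y : A, X ∉ p.asIdeal ∧ Y ∉ p.asIdeal ∧
      w * algebraMap A K Y = algebraMap A K X := by
  obtain ⟨h0, h1, h2⟩ := hw
  obtain ⟨a, b, hb, hab⟩ := (hO _).mp h1
  obtain ⟨a', b', hb', hab'⟩ := (hO _).mp h2
  refine ⟨a, b, ?_, hb, hab⟩
  intro ha
  have h3 : algebraMap A K (b * b') = algebraMap A K (a * a') := by
    rw [map_mul, map_mul, ← hab, ← hab']
    have h4 : w * algebraMap A K b * (w⁻¹ * algebraMap A K b') =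
        (w * w⁻¹) * (algebraMap A K b * algebraMap A K b') := by ring
    rw [h4, mul_inv_cancel₀ h0, one_mul]
  have h4 : b * b' ∈ p.asIdeal := by
    rw [hinj h3]
    exact p.asIdeal.mul_mem_right _ ha
  exact (p.isPrime.mem_or_mem h4).elim hb hb'

theorem len_top {A : Type} [CommRing A] (I : Ideal A) (p : PrimeSpectrum A)
    (h : ¬ I ≤ p.asIdeal) : len I p = 0 := by
  obtain ⟨x, hx, hxp⟩ := Set.not_subset.mp h
  have h1 : I.map (algebraMap A (Localization.AtPrime p.asIdeal)) = ⊤ := by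
    apply Ideal.eq_top_of_isUnit_mem _ (Ideal.mem_map_of_mem _ hx)
    exact IsLocalization.map_units (Localization.AtPrime p.asIdeal)
      (⟨x, hxp⟩ : p.asIdeal.primeCompl)
  have h2 : Module.length (Localization.AtPrime p.asIdeal) (Localization.AtPrime p.asIdeal ⧸
    I.map (algebraMap A (Localization.AtPrime p.asIdeal))) = 0 := by
    rw [h1, Module.length_eq_zero_iff]
    exact Ideal.Quotient.subsingleton_iff.mpr rfl
  unfold len
  rw [h2, ENat.toNat_zero]

end Loc

section Surj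

variable {k S K C A : Type} [Field k] [CommRing S] [Algebra k S] [Algebra.FiniteType k S]
  [Field K] [Algebra k K] [CommRing C] [IsDomain C] [IsLocalRing C] [IsNoetherianRing C]
  [Algebra C K] [CommRing A] [IsDomain A] [Algebra C A] [Algebra A K] [IsScalarTower C A K]
  {θ : S →ₐ[k] K} {n : ℕ} {q : RP k S (n + 1 + 1)} {m : RP k S n} {γ : S →+* C}

theorem surj (h1 : S_DIM1) (hHHA : S_HHA) (hVC2 : S_VC2) (hsit : Sit C A K)
    (H : Chart θ q.1 m.1 γ) (t : S) (O : ValuationSubring K) (h : ∀ s, θ s ∈ O)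
    (z : RP k S (n + 1)) (hz : z.1.asIdeal = RingHom.ker (rhoO θ O h)) (ht : t ∈ z.1.asIdeal)
    (hzm : z.1.asIdeal ≤ m.1.asIdeal) :
    ∃ p ∈ HH A, algebraMap C A (γ t) ∈ p.asIdeal ∧ IsLocO p.asIdeal O := by
  have hfrA := hsit.frA
  have hfrC := hsit.frC
  have hic := hsit.ic
  have hfin := hsit.fin
  have hinjA : Function.Injective (algebraMap A K) := IsFractionRing.injective A K
  have hinjC : Function.Injective (algebraMap C K) := IsFractionRing.injective C K
  obtain ⟨hNoe, -, hht, -, -, -, -, -, -⟩ := hHHA C A K hsit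
  have hCO : ∀ c : C, algebraMap C K c ∈ O.toSubring := by
    intro c
    obtain ⟨s, t', ht', hst⟩ := H.frac c
    have h2 : t' ∉ RingHom.ker (rhoO θ O h) := by
      rw [← hz]
      exact fun h3 => ht' (hzm h3)
    have h3 : IsLocalRing.residue O ⟨θ t', h t'⟩ ≠ 0 := h2
    rw [Ne, residue_zero, not_or, not_not] at h3
    obtain ⟨h4, h5⟩ := h3
    have h6 : algebraMap C K c = θ s * (θ t')⁻¹ := by
      have h7 : θ t' * algebraMap C K c = θ s := by
        rw [← H.comm, ← H.comm, ← map_mul, hst]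
      rw [← h7, mul_comm (θ t'), mul_assoc, mul_inv_cancel₀ h4, mul_one]
    rw [h6]
    exact mul_mem (h s) h5
  have hAO : ∀ a : A, algebraMap A K a ∈ O.toSubring := by
    intro a
    have h2 : IsIntegral C (algebraMap A K a) :=
      IsIntegral.algebraMap (Algebra.IsIntegral.isIntegral a)
    have h3 : ((algebraMap O K).comp ((algebraMap C K).codRestrict O.toSubring
        hCO)).IsIntegralElem (algebraMap A K a) := h2
    have h4 : IsIntegral O (algebraMap A K a) := h3.of_comp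
    obtain ⟨y, hy⟩ := IsIntegrallyClosed.isIntegral_iff.mp h4
    have h5 : (y : K) = algebraMap A K a := hy
    rw [← h5]
    exact y.2
  let fA : A →+* O := (algebraMap A K).codRestrict O.toSubring hAO
  let p : PrimeSpectrum A := ⟨(IsLocalRing.maximalIdeal O).comap fA,
    Ideal.comap_isPrime _ _⟩
  have hmem : ∀ a : A, a ∈ p.asIdeal ↔ algebraMap A K a = 0 ∨ (algebraMap A K a)⁻¹ ∉ O := by
    intro a
    have h2 : a ∈ p.asIdeal ↔ fA a ∈ IsLocalRing.maximalIdeal O := Iff.rfl
    rw [h2, ← IsLocalRing.residue_eq_zero_iff, residue_zero]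
    exact Iff.rfl
  have hzz : PrimeSpectrum.comap γ (PrimeSpectrum.comap (algebraMap C A) p) = z.1 := by
    apply PrimeSpectrum.ext
    rw [hz]
    ext s
    have h2 : s ∈ (PrimeSpectrum.comap γ (PrimeSpectrum.comap (algebraMap C A) p)).asIdeal ↔
      algebraMap C A (γ s) ∈ p.asIdeal := Iff.rfl
    have h3 : s ∈ RingHom.ker (rhoO θ O h) ↔ IsLocalRing.residue O ⟨θ s, h s⟩ = 0 := Iff.rfl
    rw [h2, h3, hmem, residue_zero, ← IsScalarTower.algebraMap_apply, H.comm]
  have hHC : PrimeSpectrum.comap (algebraMap C A) p ∈ HH C := by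
    rw [hh_iff h1 H, hzz, z.2]
  have hpH : p ∈ HH A := by
    constructor
    · intro h2
      apply hHC.1
      rw [eq_bot_iff]
      intro c hc
      have h3 : algebraMap C A c ∈ p.asIdeal := hc
      rw [h2, Ideal.mem_bot] at h3
      have h4 : algebraMap C K c = 0 := by
        rw [IsScalarTower.algebraMap_apply C A K, h3, map_zero]
      exact (map_eq_zero_iff _ hinjC).mp h4
    · intro h2
      apply hHC.2
      exact Ideal.isMaximal_comap_of_isIntegral_of_isMaximal p.asIdeal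
  refine ⟨p, hpH, ?_, ?_⟩
  · have h2 : t ∈ (PrimeSpectrum.comap γ (PrimeSpectrum.comap (algebraMap C A) p)).asIdeal := by
      rw [hzz]
      exact ht
    exact h2
  · exact (hVC2 A K p hpH.1 (hht p hpH) O).mp ⟨hAO, hmem⟩

theorem core (h1 : S_DIM1) (hHHA : S_HHA) (hVC1 : S_VC1) (hVC2 : S_VC2) (hREC : S_REC)
    (hNM : S_NM) (hsit : Sit C A K) (H : Chart θ q.1 m.1 γ) (t x : S)
    (htq : t ∉ q.1.asIdeal) (hxq : x ∉ q.1.asIdeal)
    (Z : Finset (RP k S (n + 1))) (W : Finset (ValuationSubring K))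
    (g : ValuationSubring K → ℤ) (hZ1 : ∀ z ∈ Z, t ∉ z.1.asIdeal)
    (hZ2 : ∀ z : RP k S (n + 1), x ∈ z.1.asIdeal → q.1.asIdeal ≤ z.1.asIdeal →
      z.1.asIdeal ≤ m.1.asIdeal → t ∉ z.1.asIdeal → z ∈ Z)
    (hW : ∀ O : ValuationSubring K, O ∈ W ↔ ∃ (h : ∀ s, θ s ∈ O) (z : RP k S (n + 1)),
      z.1.asIdeal = RingHom.ker (rhoO θ O h) ∧ t ∈ z.1.asIdeal ∧ z.1.asIdeal ≤ m.1.asIdeal)
    (hg : ∀ O ∈ W, ∀ (h : ∀ s, θ s ∈ O), ∃ (w : O) (b c : S),
      IsTame O (θ x) (θ t) (w : K) ∧ IsNm (rhoO θ O h) (IsLocalRing.residue O w) b c ∧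
      g O = (len (RingHom.ker (rhoO θ O h) ⊔ Ideal.span {b}) m.1 : ℤ) -
        len (RingHom.ker (rhoO θ O h) ⊔ Ideal.span {c}) m.1) :
    ∑ z ∈ Z, (len (q.1.asIdeal ⊔ Ideal.span {x}) z.1 : ℤ) *
      len (z.1.asIdeal ⊔ Ideal.span {t}) m.1 = ∑ O ∈ W, g O := by
  classical
  have hfrA := hsit.frA
  have hfrC := hsit.frC
  have hic := hsit.ic
  have hfin := hsit.fin
  have hinjA : Function.Injective (algebraMap A K) := IsFractionRing.injective A K
  have hinjC : Function.Injective (algebraMap C K) := IsFractionRing.injective C K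
  obtain ⟨hNoe, hcomap, hht, hfinx, -, -, -, -, -⟩ := hHHA C A K hsit
  have ht0 : γ t ≠ 0 := fun h => htq ((H.ker t).mp h)
  have hx0 : γ x ≠ 0 := fun h => hxq ((H.ker x).mp h)
  have htA : algebraMap C A (γ t) ≠ 0 := by
    intro h
    apply ht0
    apply (map_eq_zero_iff _ hinjC).mp
    rw [IsScalarTower.algebraMap_apply C A K, h, map_zero]
  -- the valuation rings
  have hex : ∀ p : PrimeSpectrum A, ∃ O : ValuationSubring K, p ∈ HH A → IsLocO p.asIdeal O := by
    intro p
    by_cases hp : p ∈ HH A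
    · obtain ⟨O, hO, -⟩ := hVC1 A K p hp.1 (hht p hp)
      exact ⟨O, fun _ => hO⟩
    · exact ⟨⊤, fun h => absurd h hp⟩
  choose Of hOf using hex
  have hθ : ∀ p ∈ HH A, ∀ s, θ s ∈ Of p := by
    intro p hp s
    rw [← H.comm]
    exact memC_O p.isPrime (hOf p hp) (γ s)
  let WA : Finset (PrimeSpectrum A) := (hfinx _ htA).toFinset
  have hWA : ∀ p, p ∈ WA ↔ p ∈ HH A ∧ algebraMap C A (γ t) ∈ p.asIdeal := by
    intro p
    exact Set.Finite.mem_toFinset _
  have hWO : ∀ p ∈ WA, Of p ∈ W := by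
    intro p hp
    obtain ⟨hpH, hpt⟩ := (hWA p).mp hp
    have hHC := hcomap p hpH
    rw [hh_iff h1 H] at hHC
    rw [hW]
    refine ⟨hθ p hpH, ⟨_, hHC⟩, (ker_rho H (hOf p hpH) hinjA _).symm, hpt, ?_⟩
    exact comap_le H _
  -- the finite set of primes of `C`
  have hZfin : {z : PrimeSpectrum C | z ∈ HH C ∧ γ x ∈ z.asIdeal ∧ γ t ∉ z.asIdeal}.Finite := by
    have h2 : {z : PrimeSpectrum C | z ∈ HH C ∧ γ x ∈ z.asIdeal ∧ γ t ∉ z.asIdeal} ⊆
        (PrimeSpectrum.comap γ) ⁻¹' (Subtype.val '' (Z : Set (RP k S (n + 1)))) := by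
      rintro z ⟨hz1, hz2, hz3⟩
      rw [hh_iff h1 H] at hz1
      refine ⟨⟨PrimeSpectrum.comap γ z, hz1⟩, ?_, rfl⟩
      exact hZ2 ⟨PrimeSpectrum.comap γ z, hz1⟩ hz2 (le_comap H z) (comap_le H z) hz3
    refine Set.Finite.subset (Set.Finite.preimage ?_ (Z.finite_toSet.image _)) h2
    intro z _ z' _ h
    exact eq_of_comap H h
  let ZC : Finset (PrimeSpectrum C) := hZfin.toFinset
  have hZC : ∀ z, z ∈ ZC ↔ z ∈ HH C ∧ γ x ∈ z.asIdeal ∧ γ t ∉ z.asIdeal := by
    intro z
    exact Set.Finite.mem_toFinset _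
  -- the local data
  have hdata : ∀ p : PrimeSpectrum A, ∃ X Y : A, p ∈ WA → (X ∉ p.asIdeal ∧ Y ∉ p.asIdeal ∧
      IsTame (Of p) (algebraMap C K (γ x)) (algebraMap C K (γ t))
        (algebraMap A K X / algebraMap A K Y)) ∧
      ((lC C (A ⧸ (p.asIdeal ⊔ Ideal.span {X})) : ℤ) -
        lC C (A ⧸ (p.asIdeal ⊔ Ideal.span {Y})) = g (Of p)) := by
    intro p
    by_cases hp : p ∈ WA
    · have hpH := ((hWA p).mp hp).1
      obtain ⟨w, b, c, hw, hn, hgO⟩ := hg (Of p) (hWO p hp) (hθ p hpH)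
      obtain ⟨X, Y, hX, hY, hXY⟩ := ex_XY (hOf p hpH) hinjA (tame_unit hw)
      have hY0 : algebraMap A K Y ≠ 0 := by
        intro h
        apply hY
        rw [(map_eq_zero_iff _ hinjA).mp h]
        exact p.asIdeal.zero_mem
      refine ⟨X, Y, fun _ => ⟨⟨hX, hY, ?_⟩, ?_⟩⟩
      · rw [H.comm, H.comm, ← hXY, mul_div_cancel_right₀ _ hY0]
        exact hw
      · have h2 := local_eq hHHA hNM hsit H p hpH (Of p) (hOf p hpH) (hθ p hpH) w b c hn X Y
          hX hY hXY
        rw [h2, hgO, ker_rho H (hOf p hpH) hinjA, len_m H, len_m H]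
        rfl
    · exact ⟨0, 0, fun h => absurd h hp⟩
  choose X Y hXY using hdata
  have hrec := hREC C A K hsit (γ x) (γ t) hx0 ht0 Of WA ZC X Y hOf hWA hZC
    (fun p hp => (hXY p hp).1)
  -- the left side
  have hleft : ∑ z ∈ Z, (len (q.1.asIdeal ⊔ Ideal.span {x}) z.1 : ℤ) *
      len (z.1.asIdeal ⊔ Ideal.span {t}) m.1 =
      ∑ z ∈ ZC, (len (Ideal.span {γ x}) z : ℤ) *
        lC C (C ⧸ (z.asIdeal ⊔ Ideal.span {γ t})) := by
    let G : PrimeSpectrum S → ℤ := fun P => (len (q.1.asIdeal ⊔ Ideal.span {x}) P : ℤ) *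
      len (P.asIdeal ⊔ Ideal.span {t}) m.1
    have h2 : ∑ z ∈ Z, G z.1 = ∑ P ∈ Z.map ⟨Subtype.val, Subtype.val_injective⟩, G P :=
      (Finset.sum_map Z ⟨Subtype.val, Subtype.val_injective⟩ G).symm
    change ∑ z ∈ Z, G z.1 = _
    rw [h2]
    symm
    apply Finset.sum_of_injOn (PrimeSpectrum.comap γ)
    · intro z _ z' _ h
      exact eq_of_comap H h
    · intro z hz
      obtain ⟨hz1, hz2, hz3⟩ := (hZC z).mp hz
      rw [hh_iff h1 H] at hz1
      rw [Finset.mem_coe]
      exact Finset.mem_map.mpr ⟨⟨PrimeSpectrum.comap γ z, hz1⟩,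
        hZ2 ⟨PrimeSpectrum.comap γ z, hz1⟩ hz2 (le_comap H z) (comap_le H z) hz3, rfl⟩
    · intro P hP hP2
      obtain ⟨z, hz, rfl⟩ := Finset.mem_map.mp hP
      by_contra h3
      apply hP2
      have h4 := left_ne_zero_of_mul h3
      have h5 := right_ne_zero_of_mul h3
      have h6 : q.1.asIdeal ⊔ Ideal.span {x} ≤ z.1.asIdeal := by
        by_contra h7
        exact h4 (by exact_mod_cast len_top _ _ h7)
      have h7 : z.1.asIdeal ⊔ Ideal.span {t} ≤ m.1.asIdeal := by
        by_contra h7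
        exact h5 (by exact_mod_cast len_top _ _ h7)
      obtain ⟨z', hz'⟩ := exists_prime H z.1 (le_sup_left.trans h6) (le_sup_left.trans h7)
      refine ⟨z', ?_, hz'⟩
      rw [Finset.mem_coe, hZC, hh_iff h1 H, hz']
      refine ⟨z.2, ?_, ?_⟩
      · have h8 : x ∈ (PrimeSpectrum.comap γ z').asIdeal := by
          rw [hz']
          exact h6 (Ideal.mem_sup_right (Ideal.mem_span_singleton_self _))
        exact h8
      · intro h8
        have h9 : t ∈ (PrimeSpectrum.comap γ z').asIdeal := h8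
        rw [hz'] at h9
        exact hZ1 z hz h9
    · intro z hz
      change _ = (len (q.1.asIdeal ⊔ Ideal.span {x}) (PrimeSpectrum.comap γ z) : ℤ) *
        len ((PrimeSpectrum.comap γ z).asIdeal ⊔ Ideal.span {t}) m.1
      rw [len_z H, len_m H]
  -- the right side
  have hright : ∑ p ∈ WA, ((lC C (A ⧸ (p.asIdeal ⊔ Ideal.span {X p})) : ℤ) -
      lC C (A ⧸ (p.asIdeal ⊔ Ideal.span {Y p}))) = ∑ O ∈ W, g O := by
    apply Finset.sum_of_injOn Of
    · intro p hp p' hp' h
      have hpH := ((hWA p).mp hp).1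
      have hpH' := ((hWA p').mp hp').1
      have h2 := (hVC2 A K p hpH.1 (hht p hpH) (Of p)).mpr (hOf p hpH)
      have h3 := (hVC2 A K p' hpH'.1 (hht p' hpH') (Of p')).mpr (hOf p' hpH')
      apply PrimeSpectrum.ext
      ext a
      rw [h2.2, h3.2, h]
    · intro p hp
      exact hWO p hp
    · intro O hO hO2
      exfalso
      apply hO2
      obtain ⟨h, z, hz, htz, hzm⟩ := (hW O).mp hO
      obtain ⟨p, hpH, hpt, hpO⟩ := surj (A := A) h1 hHHA hVC2 hsit H t O h z hz htz hzm
      refine ⟨p, (hWA p).mpr ⟨hpH, hpt⟩, ?_⟩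
      ext y
      rw [hOf p hpH y, hpO y]
    · intro p hp
      exact (hXY p hp).2
  rw [hleft, hrec, hright]

end Surj

section Final

variable {k S K B : Type} [Field k] [PerfectField k] [CommRing S] [Algebra k S]
  [Algebra.FiniteType k S] [Field K] [Algebra k K] [CommRing B] [IsDomain B] [Algebra k B]
  [Algebra.FiniteType k B] [Algebra B K] [IsFractionRing B K]
  {θ : S →ₐ[k] K} {n : ℕ} {q : RP k S (n + 1 + 1)} {m : RP k S n}

theorem lenB (hLA : S_LENA) (hLB : S_LENB) {S B : Type} [CommRing S] [CommRing B]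
    (π : S →+* B) (hπ : Function.Surjective π) (M : Ideal B) [M.IsPrime]
    (I : Ideal S) (hI : RingHom.ker π ≤ I) (z : PrimeSpectrum (Localization.AtPrime M)) :
    len (I.map ((algebraMap B (Localization.AtPrime M)).comp π)) z =
      len I (PrimeSpectrum.comap ((algebraMap B (Localization.AtPrime M)).comp π) z) := by
  have hflat : (algebraMap B (Localization.AtPrime M)).Flat := by
    have h1 : Module.Flat B (Localization.AtPrime M) := IsLocalization.flat _ M.primeCompl
    exact (RingHom.flat_algebraMap_iff).mpr h1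
  have hmax : IsLocalRing.maximalIdeal (Localization.AtPrime z.asIdeal) ≤
      (PrimeSpectrum.comap (algebraMap B (Localization.AtPrime M)) z).asIdeal.map
        ((algebraMap (Localization.AtPrime M) (Localization.AtPrime z.asIdeal)).comp
          (algebraMap B (Localization.AtPrime M))) := by
    have h1 : (PrimeSpectrum.comap (algebraMap B (Localization.AtPrime M)) z).asIdeal.map
        (algebraMap B (Localization.AtPrime M)) = z.asIdeal :=
      IsLocalization.map_under M.primeCompl (Localization.AtPrime M) z.asIdeal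
    rw [← Ideal.map_map, h1, Localization.AtPrime.map_eq_maximalIdeal]
  have e1 := hLB B (Localization.AtPrime M) (algebraMap B (Localization.AtPrime M)) z hflat
    hmax (I.map π)
  have e2 := hLA S B π hπ (I.map π)
    (PrimeSpectrum.comap (algebraMap B (Localization.AtPrime M)) z)
  have h3 : (I.map π).comap π = I := by
    rw [Ideal.comap_map_of_surjective π hπ]
    exact sup_eq_left.mpr hI
  rw [h3] at e2
  rw [← Ideal.map_map, e1, ← e2]
  rfl

theorem final (h1 : S_DIM1) (hLA : S_LENA) (hLB : S_LENB) (hHHA : S_HHA) (hVC1 : S_VC1)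
    (hVC2 : S_VC2) (hREC : S_REC) (hNM : S_NM) (hFINL : S_FINL) (π : S →+* B)
    (hπ : Function.Surjective π) (hker : RingHom.ker π = q.1.asIdeal)
    (hπK : ∀ s, algebraMap B K (π s) = θ s) (M : Ideal B) [M.IsPrime]
    (hM : M.comap π = m.1.asIdeal) (t x : S)
    (htq : t ∉ q.1.asIdeal) (hxq : x ∉ q.1.asIdeal)
    (Z : Finset (RP k S (n + 1))) (W : Finset (ValuationSubring K))
    (g : ValuationSubring K → ℤ) (hZ1 : ∀ z ∈ Z, t ∉ z.1.asIdeal)
    (hZ2 : ∀ z : RP k S (n + 1), x ∈ z.1.asIdeal → q.1.asIdeal ≤ z.1.asIdeal →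
      z.1.asIdeal ≤ m.1.asIdeal → t ∉ z.1.asIdeal → z ∈ Z)
    (hW : ∀ O : ValuationSubring K, O ∈ W ↔ ∃ (h : ∀ s, θ s ∈ O) (z : RP k S (n + 1)),
      z.1.asIdeal = RingHom.ker (rhoO θ O h) ∧ t ∈ z.1.asIdeal ∧ z.1.asIdeal ≤ m.1.asIdeal)
    (hg : ∀ O ∈ W, ∀ (h : ∀ s, θ s ∈ O), ∃ (w : O) (b c : S),
      IsTame O (θ x) (θ t) (w : K) ∧ IsNm (rhoO θ O h) (IsLocalRing.residue O w) b c ∧
      g O = (len (RingHom.ker (rhoO θ O h) ⊔ Ideal.span {b}) m.1 : ℤ) -
        len (RingHom.ker (rhoO θ O h) ⊔ Ideal.span {c}) m.1) :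
    ∑ z ∈ Z, (len (q.1.asIdeal ⊔ Ideal.span {x}) z.1 : ℤ) *
      len (z.1.asIdeal ⊔ Ideal.span {t}) m.1 = ∑ O ∈ W, g O := by
  have hle : M.primeCompl ≤ nonZeroDivisors B := M.primeCompl_le_nonZeroDivisors
  let _ : Algebra (Localization.AtPrime M) K :=
    IsLocalization.localizationAlgebraOfSubmonoidLe (Localization.AtPrime M) K M.primeCompl
      (nonZeroDivisors B) hle
  have hst : IsScalarTower B (Localization.AtPrime M) K :=
    IsLocalization.localization_isScalarTower_of_submonoid_le (Localization.AtPrime M) K M.primeCompl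
      (nonZeroDivisors B) hle
  have hdom : IsDomain (Localization.AtPrime M) := IsLocalization.isDomain_localization hle
  have hfr : IsFractionRing (Localization.AtPrime M) K :=
    IsFractionRing.isFractionRing_of_isDomain_of_isLocalization M.primeCompl
      (Localization.AtPrime M) K
  have hNB : IsNoetherianRing B := Algebra.FiniteType.isNoetherianRing k B
  have hNC : IsNoetherianRing (Localization.AtPrime M) :=
    IsLocalization.isNoetherianRing M.primeCompl _ hNB
  have hinj : Function.Injective (algebraMap B (Localization.AtPrime M)) :=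
    IsLocalization.injective (Localization.AtPrime M) hle
  have hmM : ∀ s, s ∈ m.1.asIdeal ↔ π s ∈ M := by
    intro s
    rw [← hM]
    exact Iff.rfl
  have hfin := hFINL k B (Localization.AtPrime M) K M
  have H : Chart θ q.1 m.1 ((algebraMap B (Localization.AtPrime M)).comp π) := by
    refine ⟨?_, ?_, ?_, ?_, ?_, ?_⟩
    · intro s
      rw [RingHom.comp_apply, ← IsScalarTower.algebraMap_apply, hπK]
    · intro s
      rw [RingHom.comp_apply, map_eq_zero_iff _ hinj, ← hker]
      exact Iff.rfl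
    · intro s hs
      rw [hmM] at hs
      exact IsLocalization.map_units (Localization.AtPrime M) (⟨π s, hs⟩ : M.primeCompl)
    · intro c
      obtain ⟨b, u, rfl⟩ := IsLocalization.exists_mk'_eq M.primeCompl c
      obtain ⟨s, rfl⟩ := hπ b
      obtain ⟨t', ht'⟩ := hπ u.1
      refine ⟨s, t', ?_, ?_⟩
      · rw [hmM, ht']
        exact u.2
      · rw [RingHom.comp_apply, RingHom.comp_apply, ht', IsLocalization.mk'_spec']
    · intro s hs
      rw [hmM] at hs
      exact (IsLocalization.AtPrime.to_map_mem_maximal_iff (Localization.AtPrime M) M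
        (π s)).mpr hs
    · intro I hI z
      exact lenB hLA hLB π hπ M I (by rw [hker]; exact hI) z
  exact core h1 hHHA hVC1 hVC2 hREC hNM (sit h1 H hfin) H t x htq hxq Z W g hZ1 hZ2 hW hg

end Final

end GREC

theorem t_GREC : M_GREC := by
  intro h1 hLA hLB hHHA hVC1 hVC2 hREC hNM hFINL k S K _ _ _ _ _ _ _ n θ q m t x hfrac hq htm
    htq hxq Z W g hZ1 hZ2 hW hg
  by_cases hqm : q.1.asIdeal ≤ m.1.asIdeal
  · have hqp : q.1.asIdeal.IsPrime := q.1.isPrime
    let _ : Algebra (S ⧸ q.1.asIdeal) K :=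
      (Ideal.Quotient.lift q.1.asIdeal θ.toRingHom (fun a ha => by
        rw [hq] at ha
        exact ha)).toAlgebra
    have hπK : ∀ s, algebraMap (S ⧸ q.1.asIdeal) K (Ideal.Quotient.mk q.1.asIdeal s) = θ s :=
      fun s => Ideal.Quotient.lift_mk _ _ _
    have hinj : Function.Injective (algebraMap (S ⧸ q.1.asIdeal) K) := by
      rw [injective_iff_map_eq_zero]
      intro b hb
      obtain ⟨s, rfl⟩ := Ideal.Quotient.mk_surjective b
      rw [hπK] at hb
      rw [Ideal.Quotient.eq_zero_iff_mem, hq]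
      exact hb
    have hfs : FaithfulSMul (S ⧸ q.1.asIdeal) K :=
      (faithfulSMul_iff_algebraMap_injective _ _).mpr hinj
    have hfr : IsFractionRing (S ⧸ q.1.asIdeal) K := by
      apply IsFractionRing.of_field
      intro y
      obtain ⟨a, b, hb, hab⟩ := hfrac y
      refine ⟨Ideal.Quotient.mk q.1.asIdeal a, Ideal.Quotient.mk q.1.asIdeal b, ?_⟩
      rw [hπK, hπK, ← hab, mul_div_cancel_right₀ _ hb]
    have hMp : (m.1.asIdeal.map (Ideal.Quotient.mk q.1.asIdeal)).IsPrime := by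
      apply Ideal.map_isPrime_of_surjective Ideal.Quotient.mk_surjective
      rw [Ideal.mk_ker]
      exact hqm
    exact GREC.final h1 hLA hLB hHHA hVC1 hVC2 hREC hNM hFINL
      (Ideal.Quotient.mk q.1.asIdeal) Ideal.Quotient.mk_surjective Ideal.mk_ker hπK
      (m.1.asIdeal.map (Ideal.Quotient.mk q.1.asIdeal)) (Ideal.comap_map_mk hqm) t x htq hxq Z W
      g hZ1 hZ2 hW hg
  · have hW0 : W = ∅ := by
      rw [Finset.eq_empty_iff_forall_notMem]
      intro O hO
      obtain ⟨h, z, hz, -, hzm⟩ := (hW O).mp hO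
      apply hqm
      refine le_trans ?_ hzm
      rw [hq, hz]
      intro s hs
      have h2 : θ s = 0 := hs
      have h3 : (⟨θ s, h s⟩ : O) = 0 := Subtype.ext h2
      have h4 : rhoO θ O h s = IsLocalRing.residue O ⟨θ s, h s⟩ := rfl
      rw [RingHom.mem_ker, h4, h3, map_zero]
    rw [hW0, Finset.sum_empty]
    apply Finset.sum_eq_zero
    intro z hz
    by_cases h2 : q.1.asIdeal ≤ z.1.asIdeal
    · have h3 : ¬ z.1.asIdeal ⊔ Ideal.span {t} ≤ m.1.asIdeal :=
        fun h4 => hqm (h2.trans (le_sup_left.trans h4))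
      rw [GREC.len_top _ _ h3, Nat.cast_zero, mul_zero]
    · have h3 : ¬ q.1.asIdeal ⊔ Ideal.span {x} ≤ z.1.asIdeal :=
        fun h4 => h2 (le_sup_left.trans h4)
      rw [GREC.len_top _ _ h3, Nat.cast_zero, zero_mul]

end CUB
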