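import Pool.Agent.CUB.Defs

/-!
# CUB, block A: dimension, lengths, flat pull-back, localisation (statements)

Module `X` proves `theorem t_X : M_X` (or `t_X : S_X` if there is no `M_X`) in the namespace `CUB`, in the file
`Pool/Agent/CUB/A_X.lean`, importing this file.  The hypotheses of `M_X` are statements of other modules.
All algebras are algebras of finite type over the field `k`; `rdim k p` is the transcendence degree of `A / p`, a
cardinal, which is finite here; `RP k A n` are the primes of dimension `n`, cycles are `RP k A n →₀ E`.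
-/

set_option autoImplicit false

open Polynomial

namespace CUB

/-! ## 1. Dimension -/

/-- DIM1. (1) `A / p` is of finite type, so its transcendence degree is finite (`trdeg_lt_aleph0_of_finiteType` or similar). (2) Replace `A` by `A / p`: a domain `A`, `q ≠ 0`
a prime, `d = trdeg (A / q)`; lift a transcendence basis of `A / q` to `x_1, ..., x_d` in `A`; it is algebraically independent. If `trdeg A = d` then `A` is
algebraic over `k[x]`; let `0 ≠ a ∈ q` satisfy `c_r a^r + ... + c_0 = 0` with `c_i` in `k[x]`, `c_0 ≠ 0` (divide by powers of `a`); then `c_0 ∈ q ∩ k[x] = 0`,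
a contradiction. -/
def S_DIM1 : Prop := ∀ (k A : Type) [Field k] [CommRing A] [Algebra k A] [Algebra.FiniteType k A]
  (p : PrimeSpectrum A), (∃ n : ℕ, rdim k p = n) ∧ ∀ q : PrimeSpectrum A, p < q →
    rdim k q < rdim k p

/-- DIM2. Replace `A` by the domain `A / p`, `q` of height one. Noether normalisation: `k[x_1, ..., x_d] ⊆ A` finite injective (Mathlib: `exists_integral_inj_algHom_of_fg` or similar),
`d = trdeg A`. `q' = q ∩ k[x]`, and `A / q` is integral over `k[x] / q'`, so the transcendence degrees agree. `q' ≠ 0` (incomparability). Let `F` be an irreducible element of `q'` (UFD). Going down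
(`k[x]` is integrally closed, `A` is a domain): there is a prime `q1 ⊆ q` over `(F)`; it is not `0`, so `q1 = q` and `q' = (F)`. `trdeg k[x] / (F) = d - 1`: at most `d - 1` by DIM1, and at least
`d - 1`: if the variable `x_j` occurs in `F`, the other variables are algebraically independent modulo `F` (degree in `x_j`). If going down is not in Mathlib there are other proofs: let `0 ≠ a ∈ q`, and take the norm
`F0 = N(a) ∈ q'` for the extension of fraction fields; all minimal primes of `(a)`, for instance `q` (Krull), ... (see Atiyah-Macdonald 5.16, Matsumura 5.6, Stacks 00OE, 00OS). -/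
def S_DIM2 : Prop := ∀ (k A : Type) [Field k] [CommRing A] [Algebra k A] [Algebra.FiniteType k A]
  (p q : PrimeSpectrum A), p ⋖ q → rdim k q + 1 = rdim k p

/-! ## 2. Lengths -/

/-- LENA. Lengths and surjections. `φ : A → B` surjective, `P` a prime of `B`, `p = φ⁻¹(P)`: `B_P / J B_P` and `A_p / φ⁻¹(J) A_p` are the same ring (the localisation of `B / J = A / φ⁻¹ J` at the prime), and the
length is the length as a module over itself (lattice of ideals). -/
def S_LENA : Prop := ∀ (A B : Type) [CommRing A] [CommRing B] (φ : A →+* B),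
  Function.Surjective φ → ∀ (J : Ideal B) (P : PrimeSpectrum B),
  len (J.comap φ) (PrimeSpectrum.comap φ P) = len J P

/-- LENB. Lengths and flat local homomorphisms. Let `p = P ∩ A`, and suppose the maximal ideal of `B_P` is `p B_P`. `A_p → B_P` is flat and local, and the length of `B_P ⊗ M` over `B_P` is the length of `M` over `A_p`
for every `A_p`-module `M` of finite length (composition series; for `M = A_p / p A_p` it is `B_P / p B_P`, a field); if `A_p / I` has infinite length so has `B_P / I` (faithful flatness: strict chains of submodules stay strict), so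
both sides are `0`. (Use `M = A_p / I A_p`.) -/
def S_LENB : Prop := ∀ (A B : Type) [CommRing A] [CommRing B] (φ : A →+* B) (P : PrimeSpectrum B),
  φ.Flat → IsLocalRing.maximalIdeal (Localization.AtPrime P.asIdeal) ≤
    (PrimeSpectrum.comap φ P).asIdeal.map
      ((algebraMap B (Localization.AtPrime P.asIdeal)).comp φ) →
  ∀ I : Ideal A, len (I.map φ) P = len I (PrimeSpectrum.comap φ P)

/-- LENC. Basic properties in dimension one. Let `C = A_p / q A_p`, a Noetherian local domain of dimension one by DIM2 / DIM1 (there is no prime strictly between `q` and `p`: its dimension would be strictly between `n` and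
`n + 1`), so `C / c` has finite length for `c ≠ 0` (`isFiniteLength_quotient_span_singleton`). (1) `len` is the length of `C / (a)` (`Module.length` over `A_p` or over `C` is the same) and it is additive (`Ring.ord_mul`).
(2), (3): `C / (a) = 0` iff `a` is a unit in `C` or, if `q` is not contained in `p`, `C = 0`. (4) is clear. -/
def S_LENC : Prop := ∀ (k A : Type) [Field k] [CommRing A] [Algebra k A] [Algebra.FiniteType k A]
  (n : ℕ) (q : RP k A (n + 1)) (p : RP k A n),
  (∀ a b : A, a ∉ q.1.asIdeal → b ∉ q.1.asIdeal →
    len (q.1.asIdeal ⊔ Ideal.span {a * b}) p.1 =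
      len (q.1.asIdeal ⊔ Ideal.span {a}) p.1 + len (q.1.asIdeal ⊔ Ideal.span {b}) p.1) ∧
  (∀ a : A, len (q.1.asIdeal ⊔ Ideal.span {a}) p.1 ≠ 0 → q.1.asIdeal ≤ p.1.asIdeal ∧
    a ∈ p.1.asIdeal) ∧
  (∀ a : A, a ∉ q.1.asIdeal → q.1.asIdeal ≤ p.1.asIdeal → a ∈ p.1.asIdeal →
    len (q.1.asIdeal ⊔ Ideal.span {a}) p.1 ≠ 0) ∧
  (∀ a : A, a ∉ p.1.asIdeal → len (q.1.asIdeal ⊔ Ideal.span {a}) p.1 = 0)

def M_LENC : Prop := S_DIM1 → S_LENC

/-- DVX. The divisor of a function exists: finitely many primes `p` of dimension `n` have `len (q ⊔ (a)) p ≠ 0`: by S_LENC they contain `q + (a)`, and they are minimal over it (a smaller prime containing `q + (a)` has a larger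
dimension, `≥ n + 1`, and it contains `q` strictly, so its dimension is `< n + 1`); a Noetherian ring has finitely many minimal primes over an ideal. -/
def S_DVX : Prop := ∀ (k A E : Type) [Field k] [CommRing A] [Algebra k A]
  [Algebra.FiniteType k A] [Field E] (n : ℕ) (q : RP k A (n + 1)) (a : A), a ∉ q.1.asIdeal →
  ∃ c : RP k A n →₀ E, IsDv k E q.1 a c

def M_DVX : Prop := S_DIM1 → S_LENC → S_DVX

/-! ## 3. Closed immersions -/

/-- PUSH. Closed immersions. `φ : A → B` surjective. The primes of `B` are the primes of `A` which contain the kernel, with the same dimension; `len` agrees by S_LENA: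
`φ⁻¹(Q ⊔ (φ a)) = φ⁻¹(Q) ⊔ (a)` since it contains the kernel. (1) generators of `ratOn J` are mapped to generators of `ratOn (φ⁻¹ J)` and conversely: a generator of the latter is the divisor of `a` on `V(q)`, `q ⊇ φ⁻¹ J ⊇ ker φ`, and
`push` is injective; its value at primes which do not contain `ker φ` is zero. (2) is elementary. (3) `push` is functorial. -/
def S_PUSH : Prop := (∀ (k A B E : Type) [Field k] [CommRing A] [CommRing B] [Algebra k A]
    [Algebra k B] [Field E] (φ : A →ₐ[k] B) (hφ : Function.Surjective φ) (n : ℕ),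
    Function.Injective (push E (n := n) φ hφ) ∧
    (∀ (J : Ideal B) (c : RP k B n →₀ E),
      push E φ hφ c ∈ ratOn k E n (J.comap φ.toRingHom) ↔ c ∈ ratOn k E n J) ∧
    (∀ (c : RP k B n →₀ E), c ∈ rat k B E n → push E φ hφ c ∈ ratOn k E n (RingHom.ker φ.toRingHom)) ∧
    (∀ c : RP k A n →₀ E, SuppOn k E (RingHom.ker φ.toRingHom) c ↔ ∃ c' : RP k B n →₀ E,
      push E φ hφ c' = c) ∧
    ∀ c ∈ ratOn k E n (RingHom.ker φ.toRingHom), SuppOn k E (RingHom.ker φ.toRingHom) c)

def M_PUSH : Prop := S_LENA → S_PUSH

/-- RON. Elementary properties of `ratOn`. -/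
def S_RON : Prop := ∀ (k A E : Type) [Field k] [CommRing A] [Algebra k A] [Field E] (n : ℕ)
  (I J : Ideal A), I ≤ J → ratOn k E n J ≤ ratOn k E n I

/-! ## 4. Flat pull-back -/

/-- HER. Additivity (the only non-formal input for flat pull-back). `C` a Noetherian local ring, `a ∈ C` a non zero divisor such that `C / a` has finite length, and
suppose that the localisation at every minimal prime of `C` is a field and that every prime is minimal or maximal, and that the maximal ideal is not minimal. Then the length of `C / a` is the sum of the lengths of `C / (Q + (a))` over the minimal primes `Q`. Proof: for a finitely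
generated module `M` with `M / a M` of finite length let `e(M) = length(M / a M) - length(M[a])`; it is additive in short exact sequences (snake lemma), and `0` if `M` has finite length. Take a filtration of `C` with quotients `C / P_i`; the quotients
with `P_i` maximal contribute zero, and every minimal prime `Q` occurs exactly `length C_Q = 1` times (localise at `Q`); `e(C / Q) = length(C / (Q + a))` as `a ∉ Q`. `e(C) = length(C / a)`. It may be easier to prove the general statement: if `M` is a finitely
generated module, `e(M) = ∑_Q length_{C_Q}(M_Q) e(C / Q)`, by `IsNoetherianRing.induction_on_isQuotientEquivQuotientPrime`; it is also used in block R. -/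
def S_HER : Prop := ∀ (C : Type) [CommRing C] [IsNoetherianRing C] [IsLocalRing C] (a : C),
  a ∈ nonZeroDivisors C → (∀ P : Ideal C, P.IsPrime → P = IsLocalRing.maximalIdeal C ∨
    P ∈ minimalPrimes C) → IsLocalRing.maximalIdeal C ∉ minimalPrimes C → IsReduced C →
  ∃ h : (minimalPrimes C).Finite,
    Module.length C (C ⧸ Ideal.span {a}) = ∑ Q ∈ h.toFinset, Module.length C (C ⧸ (Q ⊔ Ideal.span {a}))

/-- FPX. Existence of flat pull-backs: the primes `P` of `B` of dimension `n + r` over a prime `p` of dimension `n` are minimal over `p B` (a smaller prime over `p` has a larger dimension by DIM1, and at most `n + r` by GoodAt), so there are finitely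
many; `c` has finite support. -/
def S_FPX : Prop := ∀ (k A B E : Type) [Field k] [CommRing A] [CommRing B] [Algebra k A]
  [Algebra k B] [Algebra.FiniteType k A] [Algebra.FiniteType k B] [Field E] (r n : ℕ)
  (φ : A →ₐ[k] B), Good k r φ → ∀ c : RP k A n →₀ E, ∃ d, IsPull k E r φ c d

def M_FPX : Prop := S_DIM1 → S_FPX

/-- FP. Flat pull-back preserves rational equivalence. It is enough to treat the divisor `c` of `a` on `V(q)`, `dim q = n + 1`, `I ⊆ q`. Let `Q_1, ..., Q_s` be the primes of `B` of dimension `n + 1 + r` over `q` (finitely many by S_FPX).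
They contain `I B`, and `φ a ∉ Q_i`. CLAIM: `d = ∑ (divisor of φ a on V(Q_i))`. Let `P` be a prime of `B` of dimension `n + r`, `p = P ∩ A`. By GoodAt `dim p ≥ n`. If `q ⊄ p` or `a ∉ p` or `p = q` both sides are zero at `P`
(S_LENC). Otherwise `q < p`, `dim p = n` by DIM1, and by GoodAt the maximal ideal of `B_P` is `p B_P`. `d P = len (q + (a)) p = len (q B + (a)) P` by S_LENB. Let `C = B_P / q B_P`: it is flat over the domain `A_p / q`, so its minimal primes
lie over `q` (going down, or: nonzero elements of `A_p / q` are non zero divisors on `C`). If `Q ⊆ P` is a prime of `B` minimal over `q B` then it lies over `q`, `Q ≠ P`, so `dim Q ≥ n + r + 1` by DIM1 and `≤ n + 1 + r` by GoodAt: `Q` is one of the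
`Q_i`, and `Q B_Q = q B_Q` by GoodAt: `C_Q` is a field. Conversely a `Q_i ⊆ P` is minimal over `q B`. `C` is reduced: it has no embedded primes, because `C` is flat over the domain `A_p / q`, so it is contained in its localisation at the nonzero elements of
`A_p / q`, which is the ring of the fibre over `q` localised ... in detail: let `x` be nilpotent in `C`; it is zero in every `C_{Q}`, so there is no minimal prime containing `Ann x`; if `x ≠ 0` then `Ann x` is contained in an associated prime `P'` of `C`, which
consists of zero divisors, so it lies over `q` in `A`, so `P' ≠ P` and its dimension is `≥ n + r + 1`, so `= n + r + 1`, so it is one of the `Q_i`, a contradiction. The primes of `C` are minimal or maximal (dimensions between `n + r` and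
`n + 1 + r`). `a` is a non zero divisor of `C` by flatness. So S_HER gives `len (q B + (a)) P = ∑_i len (Q_i + (a)) P`. -/
def S_FP : Prop := ∀ (k A B E : Type) [Field k] [CommRing A] [CommRing B] [Algebra k A]
  [Algebra k B] [Algebra.FiniteType k A] [Algebra.FiniteType k B] [Field E] (r n : ℕ)
  (φ : A →ₐ[k] B), Good k r φ → ∀ (I : Ideal A) (c : RP k A n →₀ E) (d : RP k B (n + r) →₀ E),
  IsPull k E r φ c d → c ∈ ratOn k E n I → d ∈ ratOn k E (n + r) (I.map φ.toRingHom)

def M_FP : Prop := S_DIM1 → S_LENB → S_LENC → S_DVX → S_HER → S_FPX → S_FP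

/-- GCO. Composition. (1) flatness: composition; dimensions: add the inequalities; if equality holds for the composition it holds for both, and then `P C_P` is generated by `(P ∩ B)`, which generates the same ideal of `B_{P ∩ B}` as `P ∩ A`. (2) Pull-back is
functorial: at a prime `P` of `C` of dimension `n + r + 1`, `dim (P ∩ A) = n` implies that `dim (P ∩ B) = n + r` (inequalities). Only `s = 1` and `s = 0` (and `r = 0`) are needed; `n + (r + s)` is definitionally `(n + r) + s` for numerals `s`. (3) isomorphisms are `Good 0`. -/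
def S_GCO : Prop := (∀ (k A B C : Type) [Field k] [CommRing A] [CommRing B] [CommRing C]
    [Algebra k A] [Algebra k B] [Algebra k C] [Algebra.FiniteType k A] [Algebra.FiniteType k B]
    [Algebra.FiniteType k C] (φ : A →ₐ[k] B) (ψ : B →ₐ[k] C) (r s : ℕ), Good k r φ →
    Good k s ψ → Good k (r + s) (ψ.comp φ)) ∧
  (∀ (k A B C E : Type) [Field k] [CommRing A] [CommRing B] [CommRing C]
    [Algebra k A] [Algebra k B] [Algebra k C] [Algebra.FiniteType k A] [Algebra.FiniteType k B]
    [Algebra.FiniteType k C] [Field E] (φ : A →ₐ[k] B) (ψ : B →ₐ[k] C) (r n : ℕ),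
    Good k r φ → ((Good k 1 ψ → ∀ (c : RP k A n →₀ E) (d : RP k B (n + r) →₀ E)
      (e : RP k C (n + r + 1) →₀ E), IsPull k E r φ c d → IsPull k E 1 ψ d e →
      IsPull k E (r + 1) (ψ.comp φ) c e) ∧
     (Good k 0 ψ → ∀ (c : RP k A n →₀ E) (d : RP k B (n + r) →₀ E)
      (e : RP k C (n + r) →₀ E), IsPull k E r φ c d → IsPull k E 0 ψ d e →
      IsPull k E r (ψ.comp φ) c e))) ∧
  (∀ (k A B C E : Type) [Field k] [CommRing A] [CommRing B] [CommRing C]
    [Algebra k A] [Algebra k B] [Algebra k C] [Algebra.FiniteType k A] [Algebra.FiniteType k B]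
    [Algebra.FiniteType k C] [Field E] (φ : A →ₐ[k] B) (ψ : B →ₐ[k] C) (r n : ℕ),
    Good k 0 φ → Good k r ψ → ∀ (c : RP k A n →₀ E) (d : RP k B n →₀ E)
      (e : RP k C (n + r) →₀ E), IsPull k E 0 φ c d → IsPull k E r ψ d e →
      IsPull k E r (ψ.comp φ) c e) ∧
  (∀ (k A B : Type) [Field k] [CommRing A] [CommRing B] [Algebra k A] [Algebra k B]
    (e : A ≃ₐ[k] B), Good k 0 (e : A →ₐ[k] B))

/-- PLIN. Pull-backs are unique and linear, and pull-back along an isomorphism is push-forward along the inverse. -/
def S_PLIN : Prop := (∀ (k A B E : Type) [Field k] [CommRing A] [CommRing B] [Algebra k A]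
    [Algebra k B] [Field E] (r n : ℕ) (φ : A →ₐ[k] B) (c c' : RP k A n →₀ E)
    (d d' : RP k B (n + r) →₀ E) (x : E), IsPull k E r φ c d → IsPull k E r φ c' d' →
    (c = c' → d = d') ∧ IsPull k E r φ (c + c') (d + d') ∧ IsPull k E r φ (c - c') (d - d') ∧
    IsPull k E r φ (x • c) (x • d) ∧ IsPull k E r φ (0 : RP k A n →₀ E) 0) ∧
  (∀ (k A B E : Type) [Field k] [CommRing A] [CommRing B] [Algebra k A]
    [Algebra k B] [Field E] (n : ℕ) (e : A ≃ₐ[k] B) (c : RP k A n →₀ E) (d : RP k B n →₀ E),
    IsPull k E 0 (e : A →ₐ[k] B) c d ↔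
      push E (e.symm : B →ₐ[k] A) e.symm.surjective c = d)

/-- PBC. Base change: `A → B` (`φ`), `A → A'` surjective with kernel `I` (`α`), `B → B'` surjective with kernel `I B` (`β`), and `φ' : A' → B'` with `φ' α = β φ`: the pull-back along `φ` of a push-forward along `α` is the push-forward along `β` of the
pull-back along `φ'`. Elementary: primes of `B'` are the primes of `B` containing `I`, i.e. those `P` with `P ∩ A ⊇ I`. Dimensions are preserved. -/
def S_PBC : Prop := ∀ (k A B A' B' E : Type) [Field k] [CommRing A] [CommRing B] [CommRing A']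
  [CommRing B'] [Algebra k A] [Algebra k B] [Algebra k A'] [Algebra k B'] [Field E] (r n : ℕ)
  (φ : A →ₐ[k] B) (φ' : A' →ₐ[k] B') (α : A →ₐ[k] A') (β : B →ₐ[k] B')
  (hα : Function.Surjective α) (hβ : Function.Surjective β), φ'.comp α = β.comp φ →
  RingHom.ker β.toRingHom ≤ (RingHom.ker α.toRingHom).map φ.toRingHom →
  ∀ (c : RP k A' n →₀ E) (d : RP k B' (n + r) →₀ E), IsPull k E r φ' c d →
  IsPull k E r φ (push E α hα c) (push E β hβ d)

/-! ## 5. Examples of flat homomorphisms -/

/-- GX. Polynomial rings. `R[X]` is free over `R`. A prime `P` of `R[X]` over `p` is a prime of `κ(p)[X]`: it is `0` (then `P = p R[X]`, dimension `dim p + 1`, and `P R[X]_P = p R[X]_P`) or generated by an irreducible polynomial (then `R[X] / P` is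
algebraic over `R / p` and `dim P = dim p`). The second statement follows from the first, S_GCO and `MvPolynomial.finSuccEquiv` or `optionEquivLeft` by induction. -/
def S_GX : Prop := (∀ (k R : Type) [Field k] [CommRing R] [Algebra k R]
    [Algebra.FiniteType k R], Good k 1 (IsScalarTower.toAlgHom k R R[X])) ∧
  ∀ (k R : Type) [Field k] [CommRing R] [Algebra k R] [Algebra.FiniteType k R] (m : ℕ),
    Good k m (IsScalarTower.toAlgHom k R (MvPolynomial (Fin m) R))

def M_GX : Prop := S_DIM1 → S_GCO → S_GX

/-- GLI. Local isomorphisms. If for every prime `P` of `B` there are `a ∈ A` with `φ a ∉ P` and a localisation: `B_{φ a}` is a localisation of `A_a` away from an element (that is, there is `b ∈ A` with `φ b ∉ P` and `A_b → B_{φ b}` bijective; we state this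
form), then `φ` is `Good 0`. Flatness is local; `A_p → B_P` is an isomorphism. -/
def S_GLI : Prop := ∀ (k A B : Type) [Field k] [CommRing A] [CommRing B] [Algebra k A]
  [Algebra k B] [Algebra.FiniteType k A] [Algebra.FiniteType k B] (φ : A →ₐ[k] B),
  (∀ P : PrimeSpectrum B, ∃ b : A, φ b ∉ P.asIdeal ∧
    Function.Bijective (Localization.awayMap φ.toRingHom b)) → Good k 0 φ

/-- GLO. Localisation away from an element, in any model. -/
def S_GLO : Prop := ∀ (k A B : Type) [Field k] [CommRing A] [CommRing B] [Algebra k A]
  [Algebra k B] [Algebra.FiniteType k A] [Algebra.FiniteType k B] (φ : A →ₐ[k] B) (a : A),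
  (@IsLocalization.Away A _ a B _ φ.toRingHom.toAlgebra) → Good k 0 φ

/-- GET. The double cover is etale where `2 y - 1` is invertible. `Q T g` is free of rank `2` over `T`. For a prime `P` of `Q T g` not containing `2 y - 1`, `p = P ∩ T`: `T / p → Q / P` is integral, so the dimensions agree; `Q / p Q = (T / p)[y] / (y^2 - y - g)`, and
over `κ(p)` the polynomial `y^2 - y - g` has the simple root `y mod P` in `κ(P)`, so `κ(p)[y] / (y^2 - y - g)` localised at `P` is a field. For the composition with the localisation use S_GCO-type arguments or do it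
directly for `B`. (Alternatively: standard etale algebras in Mathlib, and unramified implies `m_B = m_A B`.) -/
def S_GET : Prop := ∀ (k T B : Type) [Field k] [CommRing T] [CommRing B] [Algebra k T]
  [Algebra k B] [Algebra.FiniteType k T] [Algebra.FiniteType k B] (g : T)
  (φ : Q T g →ₐ[k] B),
  (@IsLocalization.Away (Q T g) _ (2 * yy g - 1) B _ φ.toRingHom.toAlgebra) →
  Good k 0 (φ.comp (Qbase g))

/-- GVR. The homomorphism `R → VR R f`. Flat: `VR R f` is free over `R[t]`, and `R[t]` is free over `R`. The condition `GoodAt` at the prime `P` may be checked after localising `VR R f` at an element not in `P`. If `2 y - 1 ∉ P` use S_GX (2) and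
S_GET and S_GCO. If `2 y - 1 ∈ P` then `y^2 - y ∉ P`, since `(2 y - 1)^2 = 1 + 4 (y^2 - y)`; so `∑ t_j f_j ∉ P` and `f_l ∉ P` for some `l`. `VR R f` localised at `f_l` is the polynomial ring over `R_{f_l}` in `y` and the `t_j`, `j ≠ l` (statement S_VRL), so
use S_GLO, S_GX (2) and S_GCO. -/
def S_GVR : Prop := ∀ (k R : Type) [Field k] [CommRing R] [Algebra k R]
  [Algebra.FiniteType k R] (m : ℕ) (f : Fin m → R), Good k m (VRbase f : R →ₐ[k] VR R f)

/-- VRL. `VR R f` away from `f l`: `t_l = (y ^ 2 - y - ∑_{j ≠ l} t_j f_j) / f_l`, so the localisation is a polynomial ring in one variable (`y`) over the polynomial ring `P` in the `t_j`, `j ≠ l`, over the localisation `S` of `R` away from `f l`. `B` is any localisation of `VR R f` away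
from `f l`. -/
def S_VRL : Prop := ∀ (k R S B : Type) [Field k] [CommRing R] [CommRing S] [CommRing B]
  [Algebra k R] [Algebra k S] [Algebra k B] (m : ℕ) (f : Fin (m + 1) → R) (l : Fin (m + 1))
  (σ : R →ₐ[k] S) (φ : VR R f →ₐ[k] B),
  (@IsLocalization.Away R _ (f l) S _ σ.toRingHom.toAlgebra) →
  (@IsLocalization.Away (VR R f) _ (VRbase (k := k) f (f l)) B _ φ.toRingHom.toAlgebra) →
  ∃ e : B ≃ₐ[k] (MvPolynomial (Fin m) S)[X],
    (∀ r : R, e (φ (VRbase (k := k) f r)) = C (MvPolynomial.C (σ r))) ∧
    (∀ j : Fin m, e (φ (algebraMap (MvPolynomial (Fin (m + 1)) R) (VR R f)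
      (MvPolynomial.X (l.succAbove j)))) = C (MvPolynomial.X j)) ∧
    e (φ (yy (lin f))) = X

def M_GVR : Prop := S_DIM1 → S_GCO → S_GX → S_GLO → S_GET → S_VRL → S_GVR

/-! ## 6. Localisation -/

/-- LOC. Localisation sequence. `φ : A → B` the localisation away from `a`. The primes of `B` are the primes of `A` not containing `a`, with the same dimensions (S_GLO and the inequality, or directly). If `d` is the divisor of `b / a^r` on `V(Q)` (we may take `b ∈ A`), it is the restriction of the divisor of
`b` on `V(Q ∩ A)` (lengths agree: S_LENB or directly). So there is `ρ ∈ ratOn I` with restriction `d`, the restriction of `c - ρ` is `0`, so `c - ρ` is supported on `V(a)`. (`I` arbitrary: if `Q ⊇ I B` then `Q ∩ A ⊇ I`.) -/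
def S_LOC : Prop := ∀ (k A B E : Type) [Field k] [CommRing A] [CommRing B] [Algebra k A]
  [Algebra k B] [Algebra.FiniteType k A] [Algebra.FiniteType k B] [Field E] (φ : A →ₐ[k] B)
  (a : A), (@IsLocalization.Away A _ a B _ φ.toRingHom.toAlgebra) → ∀ (n : ℕ) (I : Ideal A),
  (∀ (c : RP k A n →₀ E) (d : RP k B n →₀ E), IsPull k E 0 φ c d →
    d ∈ ratOn k E n (I.map φ.toRingHom) →
    ∃ ρ ∈ ratOn k E n I, SuppOn k E (Ideal.span {a}) (c - ρ)) ∧
  (∀ d : RP k B n →₀ E, ∃ c : RP k A n →₀ E, IsPull k E 0 φ c d)

def M_LOC : Prop := S_DIM1 → S_LENB → S_LENC → S_DVX → S_GLO → S_LOC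

end CUB
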