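import Pool.Agent.CUB.Defs3

/-!
# CUB, block B: polynomial rings, specialisation at infinity (statements)

Module `X` proves `theorem t_X : M_X` (or `t_X : S_X` if there is no `M_X`) in the namespace `CUB`, in the file
`Pool/Agent/CUB/B_X.lean`, importing this file.  The hypotheses of `M_X` are statements of other modules (of this file or of
`StmtsA`).  `CC k R : R →ₐ[k] R[X]` is the inclusion, `mapX ψ : R[X] →ₐ[k] S[X]`, `evs θ s : R[X] →ₐ[k] K` is the evaluation at `s`,
`mu u` is the automorphism `X ↦ u X` of `R[X]` (see `Defs3.lean`).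
-/

set_option autoImplicit false

open Polynomial

namespace CUB

/-! ## 1. Functoriality, flat pull-back of divisors -/

/-- PCO. Push-forward is functorial (`Finsupp.mapDomain_comp`); the push-forward along an isomorphism preserves `rat` (bijection on primes; the length `len` agrees by S_LENA; or use S_PUSH (1) with `J = ⊥`), and `tau` is an involution (`tauHom_comp`), so push-forward and pull-back agree (S_PLIN (2)). -/
def S_PCO : Prop :=
  (∀ (k A B C E : Type) [Field k] [CommRing A] [CommRing B] [CommRing C] [Algebra k A]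
    [Algebra k B] [Algebra k C] [Field E] (n : ℕ) (φ : A →ₐ[k] B) (χ : B →ₐ[k] C)
    (ψ : A →ₐ[k] C) (hφ : Function.Surjective φ) (hχ : Function.Surjective χ)
    (hψ : Function.Surjective ψ), ψ = χ.comp φ → ∀ c : RP k C n →₀ E,
    push E ψ hψ c = push E φ hφ (push E χ hχ c)) ∧
  (∀ (k A E : Type) [Field k] [CommRing A] [Algebra k A] [Field E] (n : ℕ)
    (φ : A →ₐ[k] A) (hφ : Function.Surjective φ), φ = AlgHom.id k A → ∀ c : RP k A n →₀ E,
    push E φ hφ c = c) ∧
  (∀ (k A B E : Type) [Field k] [CommRing A] [CommRing B] [Algebra k A] [Algebra k B] [Field E]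
    (n : ℕ) (e : A ≃ₐ[k] B) (c : RP k B n →₀ E),
    push E e.toAlgHom e.surjective c ∈ rat k A E n ↔ c ∈ rat k B E n) ∧
  (∀ (k T E : Type) [Field k] [CommRing T] [Algebra k T] [Field E] (g : T) (n : ℕ)
    (c : RP k (Q T g) n →₀ E), ptau E g (ptau E g c) = c ∧
      (IsPull k E 0 (tauH g) c (ptau E g c)) ∧
      (c ∈ rat k (Q T g) E n → ptau E g c ∈ rat k (Q T g) E n))

def M_PCO : Prop := S_PUSH → S_PLIN → S_PCO

/-- FPD. Flat pull-back of a divisor (this is the CLAIM in the proof of S_FP in `StmtsA`, and the same proof). `S` is the set of the primes of `B` of dimension `n + 1 + r` over `q`. -/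
def S_FPD : Prop := ∀ (k A B E : Type) [Field k] [CommRing A] [CommRing B] [Algebra k A]
  [Algebra k B] [Algebra.FiniteType k A] [Algebra.FiniteType k B] [Field E] (r n : ℕ)
  (φ : A →ₐ[k] B), Good k r φ → ∀ (q : RP k A (n + 1)) (a : A) (c : RP k A n →₀ E)
  (d : RP k B (n + r) →₀ E), a ∉ q.1.asIdeal → IsDv k E q.1 a c → IsPull k E r φ c d →
  ∃ (S : Finset (RP k B (n + r + 1))) (e : RP k B (n + r + 1) → (RP k B (n + r) →₀ E)),
    (∀ P, P ∈ S ↔ PrimeSpectrum.comap φ.toRingHom P.1 = q.1) ∧
    (∀ P ∈ S, φ a ∉ P.1.asIdeal ∧ IsDv k E P.1 (φ a) (e P)) ∧ d = ∑ P ∈ S, e P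

def M_FPD : Prop := S_DIM1 → S_LENB → S_LENC → S_DVX → S_HER → S_FPX → S_FPD

/-- KERQ. Kernels. An element of `Q T g` is uniquely `a + b y` (`Q_span`, and `1, y` is a basis: `AdjoinRoot.powerBasis'`, or degrees), and `Qmap φ h (a + b y) = φ a + φ b y`. For polynomial rings: `Polynomial.ker_mapRingHom`,
`MvPolynomial.ker_map` or similar. -/
def S_KERQ : Prop :=
  (∀ (T : Type) [CommRing T] (g a b : T), algebraMap T (Q T g) a + algebraMap T (Q T g) b * yy g = 0 →
    a = 0 ∧ b = 0) ∧
  (∀ (k T S : Type) [Field k] [CommRing T] [CommRing S] [Algebra k T] [Algebra k S] (g : T)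
    (g' : S) (φ : T →ₐ[k] S) (h : φ g = g'), RingHom.ker (Qmap φ h).toRingHom =
      (RingHom.ker φ.toRingHom).map (algebraMap T (Q T g))) ∧
  (∀ (k R S : Type) [Field k] [CommRing R] [CommRing S] [Algebra k R] [Algebra k S] (m : ℕ)
    (f : Fin m → R) (ψ : R →ₐ[k] S), RingHom.ker (VRmap ψ f).toRingHom =
      (RingHom.ker ψ.toRingHom).map (VRbase (k := k) f).toRingHom) ∧
  (∀ (k R S : Type) [Field k] [CommRing R] [CommRing S] [Algebra k R] [Algebra k S]
    (G f : R) (ψ : R →ₐ[k] S), RingHom.ker (YYmap G f ψ).toRingHom =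
      (RingHom.ker ψ.toRingHom).map ((Qbase (k := k) (C G + X * C f)).comp (CC k R)).toRingHom) ∧
  (∀ (k R S : Type) [Field k] [CommRing R] [CommRing S] [Algebra k R] [Algebra k S]
    (ψ : R →ₐ[k] S), RingHom.ker (mapX ψ).toRingHom = (RingHom.ker ψ.toRingHom).map (CC k R).toRingHom)

/-- TWO. The split double cover. `σ v : Q T G → T`, `y ↦ v`. The map `Q T G → T × T` given by `σ v` and `σ (1 - v)` is an isomorphism since `y^2 - y - G = (y - v) (y - (1 - v))` and the difference of the two roots is the unit `2 v - 1` (Chinese remainder;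
directly: `e = (y - (1 - v)) / (2 v - 1)` is idempotent, `σ v e = 1`, `σ (1 - v) e = 0`; the kernel of `σ v` is generated by `y - v`, and by `1 - e`). `σ v` is the localisation away from `e` (S_GLO, or S_GLI), so `Good 0`. A prime of `Q T G` contains exactly one
of `e` and `1 - e`, so it is the preimage of a prime of `T` under exactly one of `σ v`, `σ (1 - v)`. The statements on cycles are elementary. -/
def S_TWO : Prop := ∀ (k T E : Type) [Field k] [CommRing T] [Algebra k T]
  [Algebra.FiniteType k T] [Field E] (G v : T) (hv : v ^ 2 - v = G), IsUnit (2 * v - 1) →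
  Good k 0 (sg (k := k) v hv) ∧ Good k 0 (sg (k := k) (1 - v) (conj_root hv)) ∧
  (∀ (n : ℕ) (c : RP k (Q T G) n →₀ E) (c₀ c₁ : RP k T n →₀ E), IsPull k E 0 (sg v hv) c c₀ →
    IsPull k E 0 (sg (1 - v) (conj_root hv)) c c₁ →
    c = push E (sg v hv) (sg_surjective v hv) c₀ +
      push E (sg (1 - v) (conj_root hv)) (sg_surjective (1 - v) (conj_root hv)) c₁) ∧
  (∀ (n : ℕ) (c₀ c₁ : RP k T n →₀ E), IsPull k E 0 (sg v hv)
    (push E (sg v hv) (sg_surjective v hv) c₀ +
      push E (sg (1 - v) (conj_root hv)) (sg_surjective (1 - v) (conj_root hv)) c₁) c₀)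

def M_TWO : Prop := S_GLO → S_TWO

/-! ## 2. Cycles on polynomial rings -/

/-- L0. It is enough to treat a prime `P` of `R[X]`. Let `p = P ∩ R`. `dim p ≤ dim P ≤ dim p + 1`. (1) `dim P = n + 1`. If `dim p = n`: by the second part of `GoodAt` (S_GX) the maximal ideal of `R[X]_P` is generated by `p`, so `P = p R[X]` (a prime contained in `P`), and `[P]` is the pull-back of `[p]`: a prime `P'` of
dimension `n + 1` over `p` is also equal to `p R[X]`. If `dim p = n + 1`: let `Q = p R[X]`, of dimension `n + 2` (`trdeg` of a polynomial ring, or: `Q < P`, so `dim Q > dim P` by S_DIM1, and `≤ n + 2`). `P` corresponds to a nonzero prime of `κ(p)[X]`; let `g ∈ P` be a polynomial, not in `Q`, whose image generates it (clear denominators). Let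
`c` be the divisor of `g` on `V(Q)` (S_DVX). `c(P) = 1`: `R[X]_P / (Q + (g))` is the localisation of `κ(p)[X] / (g)` at the prime, since the elements of `R ∖ p` are invertible in `R[X]_P`, a field. If `P' ≠ P` has dimension `n + 1` and `c(P') ≠ 0` then `P' ⊇ Q + (g)` (S_LENC) and `P' ∩ R ≠ p` (otherwise `P'` in `κ(p)[X]` contains the prime
generated by `g`, so it is `P`), so `dim (P' ∩ R) ≤ n` by S_DIM1 and we are in the first case: `[P']` is a pull-back. So `[P] = c - ∑ c(P') [P']`. (2) `dim P = 0`: `dim p = 0` and as before `[P] = c`: all `P' ≠ P` with `c(P') ≠ 0` would satisfy `dim (P' ∩ R) < 0`. -/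
def S_L0 : Prop := ∀ (k R E : Type) [Field k] [CommRing R] [Algebra k R]
  [Algebra.FiniteType k R] [Field E],
  (∀ (n : ℕ) (c : RP k R[X] (n + 1) →₀ E), ∃ (v : RP k R n →₀ E) (d : RP k R[X] (n + 1) →₀ E),
    IsPull k E 1 (CC k R) v d ∧ c - d ∈ rat k R[X] E (n + 1)) ∧
  ∀ c : RP k R[X] 0 →₀ E, c ∈ rat k R[X] E 0

def M_L0 : Prop := S_DIM1 → S_LENC → S_DVX → S_GX → S_FPX → S_PLIN → S_L0

/-- L0M. Induction on `m`, using `MvPolynomial.finSuccEquiv : MvPolynomial (Fin (m + 1)) R ≃ (MvPolynomial (Fin m) R)[X]`, S_L0 for the ring `MvPolynomial (Fin m) R`, and: pull-back along `CC` preserves `rat` (S_FP with `I = ⊥`, S_GX), pull-backs compose (S_GCO), linearity (S_PLIN), isomorphisms preserve `rat` (S_PCO) and pull-back along an isomorphism is push-forward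
along the inverse (S_PLIN). For `m = 0`: `R → MvPolynomial (Fin 0) R` is an isomorphism. Second part: `j < m + 1`: if `j = 0` use S_L0 (2); if `j = j' + 1` then `c` is, modulo `rat`, the pull-back of a cycle `v` of dimension `j' < m` on `MvPolynomial (Fin m) R`, and `v ∈ rat`. -/
def S_L0M : Prop := ∀ (k R E : Type) [Field k] [CommRing R] [Algebra k R]
  [Algebra.FiniteType k R] [Field E] (m : ℕ),
  (∀ (n : ℕ) (c : RP k (MvPolynomial (Fin m) R) (n + m) →₀ E), ∃ (v : RP k R n →₀ E)
    (d : RP k (MvPolynomial (Fin m) R) (n + m) →₀ E),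
    IsPull k E m (IsScalarTower.toAlgHom k R (MvPolynomial (Fin m) R)) v d ∧
    c - d ∈ rat k (MvPolynomial (Fin m) R) E (n + m)) ∧
  ∀ j < m, ∀ c : RP k (MvPolynomial (Fin m) R) j →₀ E, c ∈ rat k (MvPolynomial (Fin m) R) E j

def M_L0M : Prop := S_GX → S_FPX → S_PLIN → S_GCO → S_FP → S_PCO → S_L0 → S_L0M

/-! ## 3. The chart at infinity -/

/-- INFA. (1) `g` lies in `infI z` iff `g (1 / X)` lies in the extension of `z` to `R[X, 1 / X]`, iff `X^M g(1 / X) ∈ z` for some `M`, and `X^N g(1 / X)` is `reflect N g` for `N ≥ natDegree g` (`R[X] → R[X, 1 / X]` is injective). (2) `1 ∈ z` after inverting `X`. (3) `infI z` is the contraction of a prime ideal (the extension of a prime not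
containing `X` to the localisation) along a ring homomorphism; `X ∉ infI z` since `1 / X` is a unit; `infI (infI z) = z` by (1): `reflect N (reflect N g) = g`, and if `X^M reflect(...) ∈ z` then remove `X^M`; (4) for constant polynomials. (5) by (1) and `s^N (g(1 / X))(s) = ...`: `(reflect N g)(s) = s^N g(s⁻¹)` for a nonzero element `s` of a field. -/
def S_INFA : Prop :=
  (∀ (R : Type) [CommRing R] (z : Ideal R[X]) (g : R[X]), g ∈ infI z ↔
    ∃ N : ℕ, g.natDegree ≤ N ∧ reflect N g ∈ z) ∧
  (∀ (R : Type) [CommRing R] (z : Ideal R[X]), X ∈ z → infI z = ⊤) ∧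
  (∀ (R : Type) [CommRing R] (z : Ideal R[X]), z.IsPrime → X ∉ z →
    (infI z).IsPrime ∧ X ∉ infI z ∧ infI (infI z) = z) ∧
  (∀ (R : Type) [CommRing R] (z : Ideal R[X]), z.IsPrime → X ∉ z →
    (infI z).comap (C : R →+* R[X]) = z.comap C) ∧
  (∀ (R K : Type) [CommRing R] [Field K] (θ : R →+* K) (s : K), s ≠ 0 →
    infI (RingHom.ker (eval₂RingHom θ s)) = RingHom.ker (eval₂RingHom θ s⁻¹))

/-- INFD. `R[X] / z` and `R[X] / infI z` have a common localisation, away from the nonzero class of `X`, compatible with `k`: so the same transcendence degree over `k` (for instance: both embed in a common field, and are generated over the image of `R` by `x` and `1 / x`; the field generated is the same; `trdeg` of a domain is the `trdeg` of its fraction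
field, `Algebra.trdeg_fractionRing_eq` or similar; use S_INFA (5) with `K` the fraction field of `R[X] / z`, `s = x`: `R[X] / z → K` and `R[X] / infI z → K`, `X ↦ x⁻¹`, are injective and `K` is algebraic over both images). -/
def S_INFD : Prop := ∀ (k R : Type) [Field k] [CommRing R] [Algebra k R]
  [Algebra.FiniteType k R] (z : Ideal R[X]) (hz : z.IsPrime) (hi : (infI z).IsPrime), X ∉ z →
  rdim k (⟨infI z, hi⟩ : PrimeSpectrum R[X]) = rdim k (⟨z, hz⟩ : PrimeSpectrum R[X])

def M_INFD : Prop := S_INFA → S_INFD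

/-- INFL. Lengths in the chart at infinity. `R[X]` localised at `z` and `R[X]` localised at `infI z` are the same ring: both are the localisation of `R[X, 1 / X]` at the prime generated by `z` (the two charts `R[X] → R[X, 1 / X]`, `X ↦ X` and `X ↦ 1 / X`). The ideal `q + (P)` and the ideal `infI q + (reflect N P)` generate the same ideal in `R[X, 1 / X]`, since
`reflect N P = X^N P(1 / X)`. A convenient way: `len` can be computed after localisation away from `X` (S_LENB for `R[X] → R[X, 1 / X]`, flat, with an isomorphism on local rings), for both charts. -/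
def S_INFL : Prop := ∀ (R : Type) [CommRing R] [IsNoetherianRing R] (q z : Ideal R[X])
  (hz : z.IsPrime) (hi : (infI z).IsPrime) (P : R[X]) (N : ℕ), q ≤ z → X ∉ z →
  P.natDegree ≤ N → len (q ⊔ Ideal.span {P}) ⟨z, hz⟩ =
    len (infI q ⊔ Ideal.span {reflect N P}) ⟨infI z, hi⟩

def M_INFL : Prop := S_LENB → S_INFA → S_INFL

/-- BETF. Functoriality of `bet`. (1) `p` prime of `R`: `infI (p R[X]) = p R[X]` by S_INFA (1), and the preimage of the ideal `p` of `R` under `evalRingHom 0` is `p R[X] + (X)`; so the number is `len p p' ` by S_LENA (`evalRingHom 0 : R[X] → R`); it is `1` if `p = p'` (a field), and `0` if `p ⊄ p'`, in particular if `p ≠ p'` and the dimensions agree (S_DIM1). (2) `infI (comap (mapX ψ) z) = comap (mapX ψ) (infI z)` by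
S_INFA (1) and surjectivity of `ψ` (`reflect` commutes with `map`), the sum with `(X)` is the preimage of the sum, then S_LENA. (3) If `ker ψ ⊄ p`, the ideal is not contained in the prime: length `0`. (4) `infI (comap (mu u) z) = comap (mu u⁻¹) (infI z)` [`g ∈ infI (comap (mu u) z)` iff `X^M g(1 / X)` with `X` replaced by `u X` is in `z`, iff `g (u⁻¹ X) ∈ infI z`], and `(X)` and the prime
`comap (evalRingHom 0) p` are stable under `mu u⁻¹`; S_LENA for the isomorphism `mu u⁻¹`. -/
def S_BETF : Prop :=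
  (∀ (k R : Type) [Field k] [CommRing R] [Algebra k R] [Algebra.FiniteType k R] (n : ℕ)
    (p p' : RP k R n), bet (p.1.asIdeal.map (C : R →+* R[X])) p'.1 = (open Classical in if p = p' then 1 else 0)) ∧
  (∀ (R S : Type) [CommRing R] [CommRing S] (ψ : R →+* S), Function.Surjective ψ →
    ∀ (z : Ideal S[X]) (p : PrimeSpectrum S),
    bet (z.comap (mapRingHom ψ)) (PrimeSpectrum.comap ψ p) = bet z p) ∧
  (∀ (R S : Type) [CommRing R] [CommRing S] (ψ : R →+* S), Function.Surjective ψ →
    ∀ (z : Ideal S[X]) (p : PrimeSpectrum R), ¬ RingHom.ker ψ ≤ p.asIdeal →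
    bet (z.comap (mapRingHom ψ)) p = 0) ∧
  (∀ (k R : Type) [Field k] [CommRing R] [Algebra k R] (u : Rˣ) (z : Ideal R[X])
    (p : PrimeSpectrum R), bet (z.comap (mu (k := k) u).toRingEquiv.toRingHom) p = bet z p)

def M_BETF : Prop := S_DIM1 → S_LENA → S_INFA → S_BETF

/-! ## 4. Specialisation of cycles -/

/-- BLIN. Linearity and uniqueness. -/
def S_BLIN : Prop := ∀ (k R E : Type) [Field k] [CommRing R] [Algebra k R] [Field E] (n : ℕ)
  (c c' : RP k R[X] (n + 1) →₀ E) (d d' : RP k R n →₀ E) (x : E), IsBeta k E c d →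
  IsBeta k E c' d' → (c = c' → d = d') ∧ IsBeta k E (c + c') (d + d') ∧
    IsBeta k E (c - c') (d - d') ∧ IsBeta k E (x • c) (x • d) ∧
    IsBeta k E (0 : RP k R[X] (n + 1) →₀ E) 0

/-- B1. Existence. If `X ∈ z` then `bet z p = 0` for all `p` (S_INFA (2)). Otherwise `infI z` is a prime of dimension `n + 1` which does not contain `X`, and `p ↦ bet z p` is the restriction of the divisor of `X` on `V(infI z)` to the primes `comap (evalRingHom 0) p`, of dimension `n` (`rdim_comap`); finitely many `p` by S_DVX. -/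
def S_B1 : Prop := ∀ (k R E : Type) [Field k] [CommRing R] [Algebra k R]
  [Algebra.FiniteType k R] [Field E] (n : ℕ) (c : RP k R[X] (n + 1) →₀ E),
  ∃ d : RP k R n →₀ E, IsBeta k E c d

def M_B1 : Prop := S_DVX → S_INFA → S_INFD → S_B1

/-- B2. The specialisation of a pull-back `d` of `c`. `d z` is `c (z ∩ R)` if `dim (z ∩ R) = n`, and then `z = (z ∩ R) R[X]` by S_GX (the maximal ideal of the localisation at `z` is generated by `z ∩ R`, and `(z ∩ R) R[X]` is a prime contained in `z`). Conversely for a prime `p` of dimension `n` the prime `p R[X]` has dimension `n + 1`. By S_BETF (1) the sum has only one nonzero term. -/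
def S_B2 : Prop := ∀ (k R E : Type) [Field k] [CommRing R] [Algebra k R]
  [Algebra.FiniteType k R] [Field E] (n : ℕ) (c : RP k R n →₀ E) (d : RP k R[X] (n + 1) →₀ E),
  IsPull k E 1 (CC k R) c d → IsBeta k E d c

def M_B2 : Prop := S_DIM1 → S_GX → S_BETF → S_B2

/-- B4. Invariance under `X ↦ u X` (S_BETF (4); the pull-back along the isomorphism `mu u` is the bijection on primes). -/
def S_B4 : Prop := ∀ (k R E : Type) [Field k] [CommRing R] [Algebra k R]
  [Algebra.FiniteType k R] [Field E] (n : ℕ) (u : Rˣ) (c d : RP k R[X] (n + 1) →₀ E)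
  (e : RP k R n →₀ E), IsPull k E 0 (muH u) c d → IsBeta k E c e →
  IsBeta k E d e

def M_B4 : Prop := S_PLIN → S_BETF → S_B4

/-- BPU. Specialisation commutes with push-forward along a closed immersion (S_BETF (2), (3)). -/
def S_BPU : Prop := ∀ (k R S E : Type) [Field k] [CommRing R] [CommRing S] [Algebra k R]
  [Algebra k S] [Algebra.FiniteType k R] [Algebra.FiniteType k S] [Field E] (n : ℕ)
  (ψ : R →ₐ[k] S) (hψ : Function.Surjective ψ) (c : RP k S[X] (n + 1) →₀ E)
  (d : RP k S n →₀ E), IsBeta k E c d →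
  IsBeta k E (push E (mapX ψ) (mapX_surjective ψ hψ) c) (push E ψ hψ d)

def M_BPU : Prop := S_BETF → S_BPU

/-- R. The main theorem on the specialisation at infinity; to be proved in block R. -/
def S_R : Prop := ∀ (k R K E : Type) [Field k] [PerfectField k] [CommRing R] [Algebra k R]
  [Algebra.FiniteType k R] [Field K] [Algebra k K] [Field E] (n : ℕ) (θ : R →ₐ[k] K),
  ∃ D : ValuationSubring K → K → K → (RP k R n →₀ E),
    (∀ (O : ValuationSubring K) (a u : K) (I : Ideal R), (∀ r ∈ I, θ r = 0 ∨ (θ r)⁻¹ ∉ O) →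
      D O a u ∈ ratOn k E n I) ∧
    (∀ (O : ValuationSubring K) (a u u' : K), u ≠ 0 → u' ≠ 0 →
      (u' / u - 1 = 0 ∨ (u' / u - 1)⁻¹ ∉ O) → D O a u = D O a u') ∧
    (∀ (s : K) (P : R[X]) (q : RP k R[X] (n + 1 + 1)) (c : RP k R[X] (n + 1) →₀ E)
      (d : RP k R n →₀ E), (∀ x : K, ∃ A B : R[X], evs θ s B ≠ 0 ∧ x * evs θ s B = evs θ s A) →
      q.1.asIdeal = RingHom.ker (evs θ s).toRingHom → P ∉ q.1.asIdeal → IsDv k E q.1 P c →
      IsBeta k E c d →
      ∃ h : (VV n θ s).Finite, d = ∑ O ∈ h.toFinset, D O (evs θ s P) s⁻¹)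

/-- B3. Specialisation preserves rational equivalence. By S_B1 and S_BLIN (span induction) it is enough to treat the divisor of `P` on `V(q)`, `q ⊇ I R[X]` a prime of dimension `n + 2`, `P ∉ q`. Let `K` be the fraction field of `R[X] / q`, `θ : R → K`, `s` the image of `X`: `evs θ s` is the canonical homomorphism (`evs_unique`), its kernel is `q`. Apply S_R: `d` is a sum of cycles `D O (..) s⁻¹`, which
are in `ratOn I` since `θ r = 0` for `r ∈ I`. -/
def S_B3 : Prop := ∀ (k R E : Type) [Field k] [PerfectField k] [CommRing R] [Algebra k R]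
  [Algebra.FiniteType k R] [Field E] (n : ℕ) (I : Ideal R) (c : RP k R[X] (n + 1) →₀ E)
  (d : RP k R n →₀ E), c ∈ ratOn k E (n + 1) (I.map (CC k R).toRingHom) → IsBeta k E c d →
  d ∈ ratOn k E n I

def M_B3 : Prop := S_B1 → S_BLIN → S_R → S_B3

/-- BINJ. Let `v, d` be as in S_L0: `c - d ∈ rat`, `d` the pull-back of `v`. `d` specialises to `v` (S_B2), so `c - d` specialises to `e - v` (S_BLIN), which is in `rat` (S_B3), so `v ∈ rat` and `d ∈ rat` (S_FP, S_GX; `I = ⊥`) and `c ∈ rat`. -/
def S_BINJ : Prop := ∀ (k R E : Type) [Field k] [PerfectField k] [CommRing R] [Algebra k R]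
  [Algebra.FiniteType k R] [Field E] (n : ℕ) (c : RP k R[X] (n + 1) →₀ E)
  (e : RP k R n →₀ E), IsBeta k E c e → e ∈ rat k R E n → c ∈ rat k R[X] E (n + 1)

def M_BINJ : Prop := S_FP → S_GX → S_L0 → S_B2 → S_B3 → S_BLIN → S_BINJ

end CUB
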