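import Pool.Agent.CUB.StmtsB

/-!
# CUB, block R: tame symbols on two-dimensional local domains (statements)

Module `X` proves `theorem t_X : M_X` (or `t_X : S_X` if there is no `M_X`) in the namespace `CUB`, in the file
`Pool/Agent/CUB/R_X.lean`, importing this file.  The hypotheses of `M_X` are statements of other modules.
The aim is the statement `S_R` of `StmtsB`.  `len I p` is the length of `A_p / I A_p` (`Defs.lean`); `IsUnif`, `IsUn`, `IsTame`, `IsNm`, `rhoO`, `IsTD`, `VV` are in `Defs3.lean`.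
-/

set_option autoImplicit false

open Polynomial

namespace CUB

/-! ## 0. Definitions -/

/-- The primes which are neither zero nor maximal. -/
def HH (A : Type) [CommRing A] : Set (PrimeSpectrum A) :=
  {p | p.asIdeal ≠ ⊥ ∧ ¬ p.asIdeal.IsMaximal}

/-- The length of the `C`-module `M` as a natural number (`0` if it is infinite). -/
noncomputable def lC (C M : Type) [CommRing C] [AddCommGroup M] [Module C M] : ℕ :=
  (Module.length C M).toNat

/-- `C` is a Noetherian local domain of dimension at most two with fraction field `K`, `A` is its normalisation, and it is finite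
over `C`. -/
structure Sit (C A K : Type) [CommRing C] [IsDomain C] [IsLocalRing C] [IsNoetherianRing C]
    [CommRing A] [IsDomain A] [Field K] [Algebra C A] [Algebra C K] [Algebra A K]
    [IsScalarTower C A K] : Prop where
  fin : Module.Finite C A
  frC : IsFractionRing C K
  frA : IsFractionRing A K
  ic : IsIntegrallyClosed A
  dim : ∀ P P' : Ideal C, P.IsPrime → P'.IsPrime → P ≠ ⊥ → P < P' →
    P' = IsLocalRing.maximalIdeal C

/-- `O` is the localisation of `A` at the prime ideal `p`, as a subring of `K`. -/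
def IsLocO {A K : Type} [CommRing A] [Field K] [Algebra A K] (p : Ideal A)
    (O : ValuationSubring K) : Prop :=
  ∀ x : K, x ∈ O ↔ ∃ a b : A, b ∉ p ∧ x * algebraMap A K b = algebraMap A K a

/-! ## 1. Lengths: additivity -/

/-- DEV. Additivity of `e(M) = length_C (M / y M) - length_C (M[y])`. `S` is a finite set of primes of `A` without inclusions, not containing `y`; every prime in the support of `M` is in `S`, or it is contained in no prime in `S` and `A / P` has finite length over `C`. Proof: dévissage (`IsNoetherianRing.induction_on_isQuotientEquivQuotientPrime`, as in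
`A_HER.lean`, module HER, or a filtration with quotients `A / P_i`). All the terms are additive in short exact sequences (snake lemma for multiplication by `y`; localisation at `P` is exact; the support of a submodule or quotient is contained in the support). For `M = A / P`, `P ∈ S`: `M[y] = 0`, `M_P` has length one over `A_P`, `M_(P') = 0` for `P' ∈ S`, `P' ≠ P`. For
`M = A / P` with `P ⊄ P'` for all `P' ∈ S`, of finite length over `C`: `M_(P') = 0`, and `length (M / y M) = length (M[y])` (endomorphism of a module of finite length). -/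
def S_DEV : Prop := ∀ (C A : Type) [CommRing C] [CommRing A] [IsNoetherianRing A] [Algebra C A]
  (y : A) (S : Finset (PrimeSpectrum A)),
  (∀ P ∈ S, y ∉ P.asIdeal ∧ Module.length C (A ⧸ (P.asIdeal ⊔ Ideal.span {y})) ≠ ⊤) →
  (∀ P ∈ S, ∀ P' ∈ S, P.asIdeal ≤ P'.asIdeal → P = P') →
  ∀ (M : Type) [AddCommGroup M] [Module A M] [Module C M] [IsScalarTower C A M]
    [Module.Finite A M],
  (∀ P ∈ Module.support A M, P ∈ S ∨
    ((∀ P' ∈ S, ¬ P.asIdeal ≤ P'.asIdeal) ∧ Module.length C (A ⧸ P.asIdeal) ≠ ⊤)) →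
  Module.length C (M ⧸ (LinearMap.range (LinearMap.lsmul A M y))) ≠ ⊤ ∧
  Module.length C (LinearMap.ker (LinearMap.lsmul A M y)) ≠ ⊤ ∧
  (∀ P ∈ S, Module.length (Localization.AtPrime P.asIdeal)
    (LocalizedModule P.asIdeal.primeCompl M) ≠ ⊤) ∧
  lC C (M ⧸ (LinearMap.range (LinearMap.lsmul A M y))) =
    lC C (LinearMap.ker (LinearMap.lsmul A M y)) +
      ∑ P ∈ S, lC (Localization.AtPrime P.asIdeal) (LocalizedModule P.asIdeal.primeCompl M) *
        lC C (A ⧸ (P.asIdeal ⊔ Ideal.span {y}))

/-- KOS. `A` a domain: `(A / x)[y] ≅ (A / y)[x]`: if `y a = x b` then `a mod x` corresponds to `b mod y` (`x`, `y` are not zero). -/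
def S_KOS : Prop := ∀ (C A : Type) [CommRing C] [CommRing A] [IsDomain A] [Algebra C A]
  (x y : A), x ≠ 0 → y ≠ 0 →
  Module.length C (LinearMap.ker (LinearMap.lsmul A (A ⧸ Ideal.span {x}) y)) =
    Module.length C (LinearMap.ker (LinearMap.lsmul A (A ⧸ Ideal.span {y}) x))

/-- HHA. Elementary facts. `A` is integral over `C`, so a nonzero prime of `A` contracts to a nonzero prime of `C` (domains), inclusions of primes of `A` which are strict remain strict, and a prime of `A` is maximal iff its contraction is (Mathlib). (1) noetherian; (2) hence; (3): a strict inclusion `0 < p' < p`, `p` not maximal, would give a chain `0 < P' < P < max` in `C`, contradicting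
`dim`. (4) a prime `p ∈ HH A` containing `x` is minimal over `(x)` by (3); finitely many minimal primes. (5) `A / (p + x)` is a finite `C`-module; the primes of `C` in its support contain `(p + x) ∩ C`, strictly larger than `p ∩ C` (`A / p` is an integral extension of the domain `C / (p ∩ C)`), so only the maximal ideal: finite length. (6) the exact sequence
`0 → A / (p + y) → A / (p + x y) → A / (p + x) → 0` (`A / p` is a domain). (7), (8) the same for `C`. (9) `A / (x, y)`: the primes of `A` containing `x` and `y` are maximal, so those of `C` in the support too; finite length. -/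
def S_HHA : Prop := ∀ (C A K : Type) [CommRing C] [IsDomain C] [IsLocalRing C]
  [IsNoetherianRing C] [CommRing A] [IsDomain A] [Field K] [Algebra C A] [Algebra C K]
  [Algebra A K] [IsScalarTower C A K], Sit C A K → IsNoetherianRing A ∧
  (∀ p ∈ HH A, PrimeSpectrum.comap (algebraMap C A) p ∈ HH C) ∧
  (∀ p ∈ HH A, ∀ p' : Ideal A, p'.IsPrime → p' < p.asIdeal → p' = ⊥) ∧
  (∀ x : A, x ≠ 0 → {p | p ∈ HH A ∧ x ∈ p.asIdeal}.Finite) ∧
  (∀ p ∈ HH A, ∀ x, x ∉ p.asIdeal →
    Module.length C (A ⧸ (p.asIdeal ⊔ Ideal.span {x})) ≠ ⊤) ∧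
  (∀ p ∈ HH A, ∀ x y, x ∉ p.asIdeal → y ∉ p.asIdeal →
    lC C (A ⧸ (p.asIdeal ⊔ Ideal.span {x * y})) =
      lC C (A ⧸ (p.asIdeal ⊔ Ideal.span {x})) + lC C (A ⧸ (p.asIdeal ⊔ Ideal.span {y}))) ∧
  (∀ z ∈ HH C, ∀ p' : Ideal C, p'.IsPrime → p' < z.asIdeal → p' = ⊥) ∧
  (∀ z ∈ HH C, ∀ x, x ∉ z.asIdeal →
    Module.length C (C ⧸ (z.asIdeal ⊔ Ideal.span {x})) ≠ ⊤) ∧
  (∀ x y : A, x ≠ 0 → y ≠ 0 → (∀ p ∈ HH A, x ∈ p.asIdeal → y ∉ p.asIdeal) →
    Module.length C (A ⧸ (Ideal.span {x} ⊔ Ideal.span {y})) ≠ ⊤)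

/-- DISJ. `x, y` nonzero elements of `A` without a common prime in `HH A`. S_DEV for `M = A / x`, the element `y`, and `S` the primes in `HH A` containing `x` (other primes in the support are maximal, of finite length over `C`: `A / p` is finite over the residue field of `C`): `length (A / (x, y)) - length ((A / x)[y]) = ∑ ord_p(x) length(A / (p + y))`;
the same with `x` and `y` exchanged; by S_KOS the left sides agree. For `p ∈ W` with `x ∉ p` the number `len (x) p` is `0`. -/
def S_DISJ : Prop := ∀ (C A K : Type) [CommRing C] [IsDomain C] [IsLocalRing C]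
  [IsNoetherianRing C] [CommRing A] [IsDomain A] [Field K] [Algebra C A] [Algebra C K]
  [Algebra A K] [IsScalarTower C A K], Sit C A K → ∀ (x y : A), x ≠ 0 → y ≠ 0 →
  (∀ p ∈ HH A, x ∈ p.asIdeal → y ∉ p.asIdeal) → ∀ W : Finset (PrimeSpectrum A),
  (∀ p ∈ W, p ∈ HH A) → (∀ p ∈ HH A, x ∈ p.asIdeal ∨ y ∈ p.asIdeal → p ∈ W) →
  ∑ p ∈ W, len (Ideal.span {x}) p * lC C (A ⧸ (p.asIdeal ⊔ Ideal.span {y})) =
    ∑ p ∈ W, len (Ideal.span {y}) p * lC C (A ⧸ (p.asIdeal ⊔ Ideal.span {x}))

def M_DISJ : Prop := S_DEV → S_KOS → S_HHA → S_DISJ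

/-! ## 2. Valuation rings of a normal domain -/

/-- VC1. `A_p` is a discrete valuation ring (Noetherian, integrally closed, local, of dimension one; Mathlib: `IsDiscreteValuationRing` criteria / `IsDedekindDomain` of the localisation), considered as a valuation subring of `K`; `π` is a uniformiser which may be taken in `A`; a nonzero `a ∈ A` is a unit times `π ^ r`, `r = length of A_p / a`. Every nonzero element of `K` is a unit of `O` times a power of `π`. -/
def S_VC1 : Prop := ∀ (A K : Type) [CommRing A] [IsDomain A] [IsNoetherianRing A]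
  [IsIntegrallyClosed A] [Field K] [Algebra A K] [IsFractionRing A K] (p : PrimeSpectrum A),
  p.asIdeal ≠ ⊥ → (∀ p' : Ideal A, p'.IsPrime → p' < p.asIdeal → p' = ⊥) →
  ∃ O : ValuationSubring K, IsLocO p.asIdeal O ∧ (∃ π : A, IsUnif O (algebraMap A K π)) ∧
    ∀ π : K, IsUnif O π → (∀ x : K, x ≠ 0 → ∃ (i : ℤ) (α : K), IsUn O α ∧ x = α * π ^ i) ∧
      ∀ a : A, a ≠ 0 → ∃ α : K, IsUn O α ∧
        algebraMap A K a = α * π ^ ((len (Ideal.span {a}) p : ℕ) : ℤ)

/-- VC2. (1) `O` contains `A` and its maximal ideal contracts to `p`: then `O ⊇ A_p`, a discrete valuation ring, and `O ≠ K`, so `O = A_p`. (2) For `O = A_p`: an element of `A` is a nonunit of `O` (or zero) iff it is in `p`. -/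
def S_VC2 : Prop := ∀ (A K : Type) [CommRing A] [IsDomain A] [IsNoetherianRing A]
  [IsIntegrallyClosed A] [Field K] [Algebra A K] [IsFractionRing A K] (p : PrimeSpectrum A),
  p.asIdeal ≠ ⊥ → (∀ p' : Ideal A, p'.IsPrime → p' < p.asIdeal → p' = ⊥) →
  ∀ O : ValuationSubring K,
  (((∀ a : A, algebraMap A K a ∈ O) ∧
    (∀ a : A, a ∈ p.asIdeal ↔ algebraMap A K a = 0 ∨ (algebraMap A K a)⁻¹ ∉ O)) ↔
      IsLocO p.asIdeal O)

/-- AVO. Prime avoidance. `T` a finite set of primes of height one of `A`, `O p = A_p`. (1) for `p ∈ T`: there is `π ∈ p`, not in the symbolic square `{a | a ∈ A, a ∈ (π₀ ^ 2) A_p}` and in no other prime of `T` (`Ideal.subset_union_prime` allows two ideals which are not prime; `p` is not contained in the other primes: height one). (2) `w` a unit at all `p ∈ T`: the ideal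
`{c ∈ A | c w ∈ A}` is contained in no `p ∈ T` (as `w ∈ A_p`), so there is an element `c₂` of it in no `p ∈ T`; `c₁ = c₂ w` is a unit at `p`. -/
def S_AVO : Prop := ∀ (A K : Type) [CommRing A] [IsDomain A] [IsNoetherianRing A]
  [IsIntegrallyClosed A] [Field K] [Algebra A K] [IsFractionRing A K]
  (T : Finset (PrimeSpectrum A)) (O : PrimeSpectrum A → ValuationSubring K),
  (∀ p ∈ T, p.asIdeal ≠ ⊥ ∧ (∀ p' : Ideal A, p'.IsPrime → p' < p.asIdeal → p' = ⊥) ∧
    IsLocO p.asIdeal (O p)) →
  (∀ p ∈ T, ∃ π : A, IsUnif (O p) (algebraMap A K π) ∧ ∀ p' ∈ T, p' ≠ p → π ∉ p'.asIdeal) ∧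
  (∀ w : K, w ≠ 0 → (∀ p ∈ T, IsUn (O p) w) → ∃ c₁ c₂ : A,
    w * algebraMap A K c₂ = algebraMap A K c₁ ∧ ∀ p ∈ T, c₁ ∉ p.asIdeal ∧ c₂ ∉ p.asIdeal)

def M_AVO : Prop := S_VC1 → S_VC2 → S_AVO

/-! ## 3. The tame symbol lemma -/

/-- TAMEF. A formal lemma. `K` a field (only its nonzero elements matter), `H` a set of places with homomorphisms `v h : K^* → ℤ`, `lam h` a homomorphism on `{a | v h a = 0}`, `A0` a set of nonzero effective elements. Let `t h a b = a ^ (v h b) * b ^ (- v h a)` and `Φ(a, b) = ∑_h lam h (t h a b)` (a finite sum: `t h a b = 1` unless `v h a ≠ 0` or `v h b ≠ 0`, and `lam h 1 = 0`). `v h (t h a b) = 0`, `Φ` is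
bilinear on `K^*`, `Φ(b, a) = - Φ(a, b)`, so `Φ(a, a) = 0`.
(A) If `a, b ∈ A0` have no common place then `Φ(a, b) = ∑ (v h b * lam h a - v h a * lam h b) = 0` by (disj). (B) If `c ∈ K^*` has `v h c = 0` at all places `h` of `b ∈ A0` (that is `v h b ≠ 0`) then `Φ(c, b) = 0`: by (frac) `c = c₁ / c₂` with `c_i ∈ A0` having no common place with `b`; use (A). (C) Let `h` be a place, and call `π ∈ A0` good if `v h π = 1`. If `π, ρ, σ` are good, and pairwise have only the
place `h` in common: `Φ(π, ρ) = Φ(σ, ρ) + Φ(π / σ, ρ) = Φ(σ, ρ)` by (B) (at the places of `ρ` other than `h`, `π` and `σ` have valuation `0`; at `h` both have valuation `1`). So for any such triple `Φ(π, ρ) = Φ(σ, ρ)`. Applying this to permutations of the triple and antisymmetry: `Φ(π, ρ) = Φ(σ, ρ) = - Φ(ρ, σ) = - Φ(π, σ) = Φ(σ, π) = Φ(ρ, π) = - Φ(π, ρ)`, so `Φ(π, ρ) = 0`. Given good `π, ρ` having only the place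
`h` in common there is such a `σ` by (appr) for `S` the set of the places of `π` and `ρ`. So `Φ(π, ρ) = 0` for all good `π, ρ` having only `h` in common.
(D) `a, b ∈ K^*` arbitrary. Write `b` as a quotient of elements of `A0` ((frac) with `S = ∅`), similarly `a`; by bilinearity `a, b ∈ A0`. `S` = places of `a` and `b`. For `h ∈ S` choose `π_h ∈ A0` by (appr), `S`. `a = ∏ π_h ^ (v h a) * c`, `v h c = 0` for `h ∈ S`, so `Φ(c, b) = 0` by (B), and it is enough that `Φ(π_h, b) = 0`, `h ∈ S`. Let `S'` be the union of `S` and the places of all `π_h`. For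
`h' ∈ S` choose `ρ_(h')` by (appr), `S'`. `b = ∏_(h' ∈ S) ρ_(h') ^ (v h' b) * d`; `v h'' d = 0` for `h'' ∈ S'` (for `h'' ∈ S' ∖ S`, `v h'' b = 0` and `v h'' ρ_(h') = 0`), so `Φ(π_h, d) = 0` by (B) and antisymmetry. `Φ(π_h, ρ_(h')) = 0`: a common place `h''` is in `S'`, so it is `h'`, and `h' ∈ S` is a place of `π_h`, so `h' = h`. So if `h' ≠ h` there is no common place (A), and if `h' = h` use (C). -/
def S_TAMEF : Prop := ∀ (K H : Type) [Field K] (v lam : H → K → ℤ) (A0 : Set K),
  (∀ h a b, a ≠ 0 → b ≠ 0 → v h (a * b) = v h a + v h b) →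
  (∀ h a b, a ≠ 0 → b ≠ 0 → v h a = 0 → v h b = 0 → lam h (a * b) = lam h a + lam h b) →
  (∀ a ∈ A0, a ≠ 0 ∧ (∀ h, 0 ≤ v h a) ∧ {h | v h a ≠ 0}.Finite) →
  (∀ (S : Finset H), ∀ h ∈ S, ∃ π ∈ A0, v h π = 1 ∧ ∀ h' ∈ S, h' ≠ h → v h' π = 0) →
  (∀ (w : K) (S : Finset H), w ≠ 0 → (∀ h ∈ S, v h w = 0) → ∃ c₁ ∈ A0, ∃ c₂ ∈ A0,
    w * c₂ = c₁ ∧ ∀ h ∈ S, v h c₁ = 0 ∧ v h c₂ = 0) →
  (∀ a ∈ A0, ∀ b ∈ A0, (∀ h, v h a = 0 ∨ v h b = 0) → ∀ S : Finset H,
    (∀ h, v h a ≠ 0 ∨ v h b ≠ 0 → h ∈ S) → ∑ h ∈ S, (v h b * lam h a - v h a * lam h b) = 0) →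
  ∀ (a b : K), a ≠ 0 → b ≠ 0 → ∀ S : Finset H, (∀ h, v h a ≠ 0 ∨ v h b ≠ 0 → h ∈ S) →
    ∑ h ∈ S, lam h (a ^ v h b * b ^ (-v h a)) = 0

/-- TAME. Apply S_TAMEF with `H` the subtype of `HH A`, `v p` the valuation of `A_p` (S_VC1; defined for instance by `x = α π ^ i`, unique `i`), `lam p w = lC (A / (p + x)) - lC (A / (p + y))` for a unit `w = x / y` of `A_p`, `x, y ∉ p` (well defined and a homomorphism by S_HHA (6)), `A0` the nonzero elements of `A`. The hypotheses are S_HHA (4), S_AVO and
S_DISJ (with `v p a = len (a) p` by S_VC1, and `0` iff `a ∉ p`). The hypothesis `IsTame (O p) a b (X p / Y p)` says that `X p / Y p = a ^ (v b) * b ^ (- v a)`: the valuations `i, j` in `IsTame` are unique. -/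
def S_TAME : Prop := ∀ (C A K : Type) [CommRing C] [IsDomain C] [IsLocalRing C]
  [IsNoetherianRing C] [CommRing A] [IsDomain A] [Field K] [Algebra C A] [Algebra C K]
  [Algebra A K] [IsScalarTower C A K], Sit C A K → ∀ (a b : K), a ≠ 0 → b ≠ 0 →
  ∀ (O : PrimeSpectrum A → ValuationSubring K) (W : Finset (PrimeSpectrum A))
  (X Y : PrimeSpectrum A → A), (∀ p ∈ HH A, IsLocO p.asIdeal (O p)) →
  (∀ p ∈ W, p ∈ HH A) → (∀ p ∈ HH A, ¬ IsUn (O p) a ∨ ¬ IsUn (O p) b → p ∈ W) →
  (∀ p ∈ W, X p ∉ p.asIdeal ∧ Y p ∉ p.asIdeal ∧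
    IsTame (O p) a b (algebraMap A K (X p) / algebraMap A K (Y p))) →
  ∑ p ∈ W, ((lC C (A ⧸ (p.asIdeal ⊔ Ideal.span {X p})) : ℤ) -
    lC C (A ⧸ (p.asIdeal ⊔ Ideal.span {Y p}))) = 0

def M_TAME : Prop := S_HHA → S_VC1 → S_VC2 → S_AVO → S_DISJ → S_TAMEF → S_TAME

/-! ## 4. From the normalisation to `C` -/

/-- PC. `a, u ∈ C` nonzero. Let `M = A / a A` and let `M' = M / Γ`, `Γ` the submodule of elements killed by a power of `u` (of a fixed power `u ^ r`: Noetherian). `M'` is a finite `A`-module and a finite `C`-module, `M'[u] = 0`. S_DEV over the ring `A` (lengths over `C`, `y = u`, `S = V`): the support of `M'` consists of the `p ∈ HH A` with `a ∈ p`, `u ∉ p`, and of maximal ideals (if `p` in the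
support is in `HH A` and `u ∈ p`: `M_p` has finite length over `A_p`, as `a ≠ 0`, and `u` acts nilpotently, so `M_p = Γ_p` and `M'_p = 0`); for `p ∈ V`, `M'_p = M_p = A_p / a` since `u` is invertible on `M_p`. So `length_C (M' / u M') = ∑_(p ∈ V) len (a) p * lC (A / (p + u))`. S_DEV over the ring `C` with the same module `M'`: `length_C (M' / u M') = ∑_(z ∈ Z) length_(C_z) (M'_z) * lC (C / (z + u))`, and
`M'_z = M_z = A_z / a A_z` has length `len (a) z = length (C_z / a)` over `C_z`: by S_DEV for the ring `C_z` (or directly) with `S = {0}`, `y = a`, and the module `A_z` (torsion-free, `A_z ⊗ K = K` of dimension one): `length (A_z / a) = 1 * length (C_z / a)`. (`C_z` is a one-dimensional Noetherian local domain: `C_z / a` has finite length.) -/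
def S_PC : Prop := ∀ (C A K : Type) [CommRing C] [IsDomain C] [IsLocalRing C]
  [IsNoetherianRing C] [CommRing A] [IsDomain A] [Field K] [Algebra C A] [Algebra C K]
  [Algebra A K] [IsScalarTower C A K], Sit C A K → ∀ (a u : C), a ≠ 0 → u ≠ 0 →
  ∀ (V : Finset (PrimeSpectrum A)) (Z : Finset (PrimeSpectrum C)),
  (∀ p, p ∈ V ↔ p ∈ HH A ∧ algebraMap C A a ∈ p.asIdeal ∧ algebraMap C A u ∉ p.asIdeal) →
  (∀ z, z ∈ Z ↔ z ∈ HH C ∧ a ∈ z.asIdeal ∧ u ∉ z.asIdeal) →
  ∑ p ∈ V, len (Ideal.span {algebraMap C A a}) p *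
      lC C (A ⧸ (p.asIdeal ⊔ Ideal.span {algebraMap C A u})) =
    ∑ z ∈ Z, len (Ideal.span {a}) z * lC C (C ⧸ (z.asIdeal ⊔ Ideal.span {u}))

def M_PC : Prop := S_DEV → S_HHA → S_PC

/-- REC. Reciprocity. Apply S_TAME to (the images in `K` of) `a` and `u` and the finite set of all `p ∈ HH A` containing `a` or `u` (S_HHA (4); outside it both are units of `O p`, S_VC2). If `u ∉ p` and `a ∈ p`: `v(u) = 0`, `v(a) = len (a) p` (S_VC1), and one may take `X = 1`, `Y = u ^ (len (a) p)`, so the contribution is `- len (a) p * lC (A / (p + u))` (S_HHA (6)). So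
`∑_(p ∈ V) len (a) p * lC (A / (p + u)) = ∑_(p ∈ W) (lC (A / (p + X p)) - lC (A / (p + Y p)))` with `W` the primes in `HH A` containing `u`. The left side is computed by S_PC. -/
def S_REC : Prop := ∀ (C A K : Type) [CommRing C] [IsDomain C] [IsLocalRing C]
  [IsNoetherianRing C] [CommRing A] [IsDomain A] [Field K] [Algebra C A] [Algebra C K]
  [Algebra A K] [IsScalarTower C A K], Sit C A K → ∀ (a u : C), a ≠ 0 → u ≠ 0 →
  ∀ (O : PrimeSpectrum A → ValuationSubring K) (W : Finset (PrimeSpectrum A))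
  (Z : Finset (PrimeSpectrum C)) (X Y : PrimeSpectrum A → A),
  (∀ p ∈ HH A, IsLocO p.asIdeal (O p)) →
  (∀ p, p ∈ W ↔ p ∈ HH A ∧ algebraMap C A u ∈ p.asIdeal) →
  (∀ z, z ∈ Z ↔ z ∈ HH C ∧ a ∈ z.asIdeal ∧ u ∉ z.asIdeal) →
  (∀ p ∈ W, X p ∉ p.asIdeal ∧ Y p ∉ p.asIdeal ∧ IsTame (O p) (algebraMap C K a)
    (algebraMap C K u) (algebraMap A K (X p) / algebraMap A K (Y p))) →
  ∑ z ∈ Z, (len (Ideal.span {a}) z : ℤ) * lC C (C ⧸ (z.asIdeal ⊔ Ideal.span {u})) =
    ∑ p ∈ W, ((lC C (A ⧸ (p.asIdeal ⊔ Ideal.span {X p})) : ℤ) -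
      lC C (A ⧸ (p.asIdeal ⊔ Ideal.span {Y p})))

def M_REC : Prop := S_HHA → S_VC1 → S_VC2 → S_TAME → S_PC → S_REC

/-! ## 5. Norms -/

/-- NORM. `B` a Noetherian domain all whose proper quotients `B / x`, `x ≠ 0`, have finite length, `F` its fraction field, `B₁` a domain, finite over `B`, with fraction field `L` (finite over `F`). For `x ∈ B₁`, `x ≠ 0`: `length_B (B₁ / x)` is the order of the norm of `x`. Proof. A lattice is a finitely generated `B`-submodule `N` of `L` which spans `L` over `F`. If `w ∈ L^*` and `w N ⊆ N` let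
`χ(w, N) = length (N / w N)`, finite. (1) It does not depend on `N`: for `N ⊆ N'` stable under `w`: `length (N' / w N) = length (N' / N) + length (N / w N) = length (N' / w N') + length (w N' / w N)` and `w N' / w N ≅ N' / N`, of finite length. For arbitrary `N, N'` compare with `N + N'`. (2) `χ(w w', N) = χ(w, N) + χ(w', N)`. (3) For `c ∈ B` and a free lattice of rank `D = [L : F]`:
`χ(c, N) = D * length (B / c)`. (4) Let `g = t^m + a_1 t^(m-1) + ... + a_m` be the minimal polynomial of `x` over `F`, `r = [L : F(x)]`, `D = m r`. Choose `0 ≠ c₀ ∈ B` with `c₀ a_i ∈ B` for all `i`, `x' = c₀ x`, a root of the monic polynomial `g' = t^m + c₀ a_1 t^(m-1) + ... + c₀^m a_m ∈ B[t]`. Let `e_1, ..., e_r` be a basis of `L` over `F(x)`; the elements `x'^j e_i`, `j < m`, are a basis of `L` over `F`, and they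
generate a free lattice `N'`, stable under `x'`, with `N' / x' N' ≅ (B[t] / (g', t))^r = (B / c₀^m a_m)^r`. So `χ(x', ·) = r * length (B / (c₀^m a_m))` and `length (B₁ / x) = χ(x, B₁) = χ(x', B₁) - χ(c₀, B₁) = r * length (B / (c₀^m a_m)) - m r * length (B / c₀)`. (5) The norm of `x` is `((-1)^m a_m)^r` (Mathlib: `Algebra.norm_eq_norm_adjoin` may need separability; otherwise
`Algebra.norm_norm` (transitivity), `PowerBasis.norm_gen_eq_coeff_zero_minpoly`, and `Algebra.norm_algebraMap`; or compute the determinant of multiplication by `x` in the basis `x^j e_i`), so `c = `, `b = ` given with `norm * c = b`: `b * c₀^(m r) = ± c * (c₀^m a_m)^r`, and lengths are additive: `length (B / (x y)) = length (B / x) + length (B / y)`. -/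
def S_NORM : Prop := ∀ (B B₁ F L : Type) [CommRing B] [IsDomain B] [IsNoetherianRing B]
  [CommRing B₁] [IsDomain B₁] [Field F] [Field L] [Algebra B B₁] [Algebra B F] [Algebra B L]
  [Algebra B₁ L] [Algebra F L] [IsScalarTower B B₁ L] [IsScalarTower B F L]
  [IsFractionRing B F] [IsFractionRing B₁ L] [Module.Finite B B₁] [Module.Finite F L],
  (∀ x : B, x ≠ 0 → Module.length B (B ⧸ Ideal.span {x}) ≠ ⊤) →
  ∀ (x : B₁) (b c : B), x ≠ 0 → b ≠ 0 → c ≠ 0 →
  Algebra.norm F (algebraMap B₁ L x) * algebraMap B F c = algebraMap B F b →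
  Module.length B (B₁ ⧸ Ideal.span {x}) + Module.length B (B ⧸ Ideal.span {c}) =
    Module.length B (B ⧸ Ideal.span {b})

/-- NM. The situation of S_REC. `p ∈ HH A`, `z = p ∩ C`, `O = A_p`, `κ(O)` its residue field, `ρ : C → κ(O)` with kernel `z`. `A / p` embeds in `κ(O)`, and `κ(O)` is its fraction field. `F = Subfield.closure (range ρ)` is the fraction field of `B = C / z`, and `κ(O)` is finite over `F` (since `A / p` is finite over `C / z`). `x ∈ A ∖ p`, `w` its image in `O`. Apply S_NORM to `B = C / z`, `B₁ = A / p`,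
`L = κ(O)`: `norm_F(w) = b / c` gives `lC (A / (p + x)) + lC (C / (z + c)) = lC (C / (z + b))` (lengths over `C` and over `C / z` agree; finite by S_HHA). -/
def S_NM : Prop := ∀ (C A K : Type) [CommRing C] [IsDomain C] [IsLocalRing C]
  [IsNoetherianRing C] [CommRing A] [IsDomain A] [Field K] [Algebra C A] [Algebra C K]
  [Algebra A K] [IsScalarTower C A K], Sit C A K → ∀ (p : PrimeSpectrum A), p ∈ HH A →
  ∀ (O : ValuationSubring K), IsLocO p.asIdeal O → ∀ (ρ : C →+* IsLocalRing.ResidueField O),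
  (∀ (c : C) (h : algebraMap C K c ∈ O), ρ c = IsLocalRing.residue O ⟨algebraMap C K c, h⟩) →
  ∀ (x : A) (w : O) (b c : C), x ∉ p.asIdeal → (w : K) = algebraMap A K x →
  IsNm ρ (IsLocalRing.residue O w) b c →
  lC C (A ⧸ (p.asIdeal ⊔ Ideal.span {x})) +
      lC C (C ⧸ (p.asIdeal.comap (algebraMap C A) ⊔ Ideal.span {c})) =
    lC C (C ⧸ (p.asIdeal.comap (algebraMap C A) ⊔ Ideal.span {b}))

def M_NM : Prop := S_HHA → S_VC2 → S_NORM → S_NM

/-! ## 6. Finiteness of the normalisation -/

/-- FIN. The integral closure of a domain `B` of finite type over a perfect field `k` in its fraction field `K` is a finite `B`-module. Noether normalisation: `P = k[x_1, ..., x_d] ⊆ B` finite. `K` is finite over `k(x)`. Characteristic zero: separable extension, `IsIntegralClosure.finite` (or `isNoetherian`) for the integrally closed Noetherian domain `P`; the integral closure of `B` in `K` is the integral closure of `P` in `K`.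
Characteristic `p`: there is `q = p^e` such that (in an algebraic closure of `K`) the field `K' = K · k(x_1^(1/q), ..., x_d^(1/q))` is separable over `F' = k(x^(1/q))`: every finite extension of a field `F₀` of characteristic `p` becomes separable after a finite purely inseparable extension of `F₀` contained in `F₀^(1/q)`, and `k(x)^(1/q) = k(x^(1/q))` since `k` is perfect. The integral closure of
`P' = k[x^(1/q)]` (a polynomial ring) in `K'` is finite over `P'`, which is finite over `P`; so it is a Noetherian `P`-module, and it contains the integral closure of `P` in `K`. (If Mathlib has separable transcendence bases for perfect fields, `exists_isTranscendenceBasis_and_isSeparable_of_perfectField` or similar, another route: `B ⊆ K`; enlarge `B` to a finite extension inside `K`... any proof is welcome; the case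
needed is `k` finite, you may also use that `x ↦ x ^ q` is a bijection of `k`.) -/
def S_FIN : Prop := ∀ (k B K : Type) [Field k] [PerfectField k] [CommRing B] [IsDomain B]
  [Algebra k B] [Algebra.FiniteType k B] [Field K] [Algebra B K] [IsFractionRing B K],
  Module.Finite B (integralClosure B K)

/-- FINL. The localised version: `m` a prime of `B`, `C` its localisation, `A` the integral closure of `C` in `K`: it is the localisation of the integral closure of `B` (Mathlib: `IsLocalization` of `integralClosure`, or directly: if `x` is integral over `C` then `s x` is integral over `B` for some `s ∉ m`), so finite over `C`. -/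
def S_FINL : Prop := ∀ (k B C K : Type) [Field k] [PerfectField k] [CommRing B] [IsDomain B]
  [Algebra k B] [Algebra.FiniteType k B] [CommRing C] [Field K] [Algebra B K]
  [IsFractionRing B K] [Algebra B C] [Algebra C K] [IsScalarTower B C K] (m : Ideal B)
  [m.IsPrime] [IsLocalization.AtPrime C m], Module.Finite C (integralClosure C K)

def M_FINL : Prop := S_FIN → S_FINL

/-! ## 7. The formula on an algebra of finite type -/

/-- GREC. Setting: `S` of finite type over the perfect field `k`, `θ : S → K` with kernel `q` of dimension `n + 2`, `K` the fraction field of the image, `m` a prime of dimension `n`, `t ∈ m`, `t, x ∉ q`. `Z` is a finite set of primes `z` of dimension `n + 1` with `t ∉ z` which contains all those with `x ∈ z`, `q ⊆ z ⊆ m`. `W` is the set of the valuation rings `O ⊇ θ(S)` of `K` whose centre `z_O = ker (rhoO θ O)` has dimension `n + 1` and satisfies `t ∈ z_O ⊆ m`, and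
for `O ∈ W` the number `g O` is `len (z_O + b) m - len (z_O + c) m` where `b / c` is the norm of the tame symbol of `θ x` and `θ t` at `O`.
Proof. If `q ⊄ m` both sides are zero: `len (z ⊔ t) m = 0` unless `z ⊆ m`, `len (q ⊔ x) z = 0` unless `q ⊆ z`; `q = ker θ ⊆ z_O`. Let `q ⊆ m`, `B = S / q`, `C` = localisation of `B` at `m / q`, `A` the integral closure of `C` in `K`. `Sit C A K`: S_FINL; the primes of `C` correspond to the primes of `S` between `q` and `m`; dimensions `n + 2 > .. > n`: so a prime strictly between has dimension `n + 1` (S_DIM1), a nonzero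
prime `P < P'` gives `P' = max`. The map `z ↦ z C` is a bijection from the primes `z` of dimension `n + 1` with `q ⊆ z ⊆ m` to `HH C`; `len (q ⊔ x) z = len (x) (z C)` in the ring `C` (S_LENA for `S → B`, S_LENB for `B → C`), and `len (z ⊔ t) m` is the length of `C / (z C + t)` over `C` (the same, and the localisation of the local ring `C` at its maximal ideal is `C`). So the left side is the left side of S_REC for `a = x`,
`u = t`. (Terms of `Z` with `x ∉ z` or `q ⊄ z` or `z ⊄ m` are zero.) The right side: `p ↦ A_p` (S_VC1) is a bijection from `{p ∈ HH A | t ∈ p}` to `W`: `A_p ⊇ θ(S)`, its centre on `S` is the preimage of `p` (S_VC2), strictly between `q` and `m` (S_HHA (2)), so of dimension `n + 1`. Conversely for `O ∈ W`: elements of `S ∖ m` are not in `z_O`, so units in `O`, so `C ⊆ O`, and `A ⊆ O` since `O` is integrally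
closed; `p = m_O ∩ A` contracts to `z_O C ∈ HH C`, so `p ∈ HH A` (not zero, not maximal), and `O = A_p` by S_VC2. For `O ∈ W`, `O = A_p`, let `w` be the tame symbol given with `g O`: a unit of `A_p`, so `w = X / Y` with `X, Y ∈ A ∖ p`; the norm (multiplicative) of `w` is `b / c`; the norms of `X`, `Y` are `b₁ / c₁`, `b₂ / c₂` with `b_i, c_i ∈ C ∖ z_O C` (elements of `F^*`), `b₁ c₂ c = ± b b₂ c₁`: exactly `b₁ c₂ c ≡ b b₂ c₁`
mod `z_O C`; S_NM gives `lC (A / (p + X)) - lC (A / (p + Y)) = lC (C / (z + b)) - lC (C / (z + c))` by additivity of lengths in `C / z_O C` (the subfields generated by the images of `S` and of `C` in the residue field agree). So the right side is the right side of S_REC. -/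
def S_GREC : Prop := ∀ (k S K : Type) [Field k] [PerfectField k] [CommRing S] [Algebra k S]
  [Algebra.FiniteType k S] [Field K] [Algebra k K] (n : ℕ) (θ : S →ₐ[k] K)
  (q : RP k S (n + 1 + 1)) (m : RP k S n) (t x : S),
  (∀ y : K, ∃ a b : S, θ b ≠ 0 ∧ y * θ b = θ a) → q.1.asIdeal = RingHom.ker θ.toRingHom →
  t ∈ m.1.asIdeal → t ∉ q.1.asIdeal → x ∉ q.1.asIdeal →
  ∀ (Z : Finset (RP k S (n + 1))) (W : Finset (ValuationSubring K))
    (g : ValuationSubring K → ℤ),
  (∀ z ∈ Z, t ∉ z.1.asIdeal) →
  (∀ z : RP k S (n + 1), x ∈ z.1.asIdeal → q.1.asIdeal ≤ z.1.asIdeal →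
    z.1.asIdeal ≤ m.1.asIdeal → t ∉ z.1.asIdeal → z ∈ Z) →
  (∀ O : ValuationSubring K, O ∈ W ↔ ∃ (h : ∀ s, θ s ∈ O) (z : RP k S (n + 1)),
    z.1.asIdeal = RingHom.ker (rhoO θ O h) ∧ t ∈ z.1.asIdeal ∧ z.1.asIdeal ≤ m.1.asIdeal) →
  (∀ O ∈ W, ∀ (h : ∀ s, θ s ∈ O), ∃ (w : O) (b c : S),
    IsTame O (θ x) (θ t) (w : K) ∧ IsNm (rhoO θ O h) (IsLocalRing.residue O w) b c ∧
    g O = (len (RingHom.ker (rhoO θ O h) ⊔ Ideal.span {b}) m.1 : ℤ) -
      len (RingHom.ker (rhoO θ O h) ⊔ Ideal.span {c}) m.1) →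
  ∑ z ∈ Z, (len (q.1.asIdeal ⊔ Ideal.span {x}) z.1 : ℤ) *
    len (z.1.asIdeal ⊔ Ideal.span {t}) m.1 = ∑ O ∈ W, g O

def M_GREC : Prop := S_DIM1 → S_LENA → S_LENB → S_HHA → S_VC1 → S_VC2 → S_REC → S_NM → S_FINL →
  S_GREC

/-- GTD. Existence of the tame symbol and its norm. Let `O ⊇ θ(S)` be a valuation ring of `K` whose centre `z` has dimension `n + 1` (`dim K = n + 2`). `B = S / q`, `A` the integral closure of `B` in `K`, finite over `B` (S_FIN) and Noetherian; `A ⊆ O`; `p = m_O ∩ A` lies over `z / q`; it has height one: a prime strictly between `0` and `p` contracts to a prime of `S` strictly between `q` and `z` (integral extension), impossible by dimensions (S_DIM1). So `O = A_p`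
(S_VC2), a discrete valuation ring (S_VC1). (1) There are finitely many such `O` for given `z` (the primes of `A` over `z`, `A` finite over `B`: finite fibres, `Algebra.QuasiFinite` or similar). (2) For `a, u ∈ K^*` a tame symbol `w`, a unit of `O`, exists (S_VC1). (3) For a unit `w` of `O` there are `b, c ∈ S ∖ z` with `IsNm`: the norm of a nonzero element `w` is a nonzero element of `F = Subfield.closure (range ρ)`
(`κ(O)` is finite over `F`; even if not, the norm is `1`), and every element of `F` is a quotient of elements of the image of `S` (`Subfield.mem_closure_iff` or similar). -/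
def S_GTD : Prop := ∀ (k S K : Type) [Field k] [PerfectField k] [CommRing S] [Algebra k S]
  [Algebra.FiniteType k S] [Field K] [Algebra k K] (n : ℕ) (θ : S →ₐ[k] K)
  (q : RP k S (n + 1 + 1)) (z : RP k S (n + 1)),
  (∀ y : K, ∃ a b : S, θ b ≠ 0 ∧ y * θ b = θ a) → q.1.asIdeal = RingHom.ker θ.toRingHom →
  {O : ValuationSubring K | ∃ h : ∀ s, θ s ∈ O, z.1.asIdeal = RingHom.ker (rhoO θ O h)}.Finite ∧
  ∀ (O : ValuationSubring K) (h : ∀ s, θ s ∈ O), z.1.asIdeal = RingHom.ker (rhoO θ O h) →
    ∀ a u : K, a ≠ 0 → u ≠ 0 → ∃ (w : O) (b c : S), IsTame O a u (w : K) ∧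
      IsNm (rhoO θ O h) (IsLocalRing.residue O w) b c

def M_GTD : Prop := S_DIM1 → S_FIN → S_VC1 → S_VC2 → S_GTD

/-! ## 8. The main theorem -/

/-- TDU. The relation `IsTD θ O a u d` of `Defs3`. (1) `IsTD` determines `d`: `i, j` in `IsTame` are unique (if `α π^i = α' π'^i'` with units `α, α'` and uniformisers `π, π'` then `i = i'`: `π' / π` is a unit), so `w` is; the norm `b / c` is determined, so `b c' - b' c ∈ T`, and `div b + div c' = div b' + div c` on `V(T)` by S_LENC (additivity; `len (T ⊔ (b c')) = len (T ⊔ (b' c))` since the ideals agree). (2) `IsTD θ O a u d` and `u' / u = 1 + ε`,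
`ε` zero or a nonunit of `O` (so in the maximal ideal): `u'` has the same valuation `j` as `u`, and `w' = a^j u'^(-i) = w (1 + ε)^(-i)` has the same residue class as `w`. (3) `IsTD θ O a u d` implies `d ∈ ratOn I` for `I ⊆ T = ker`; (the hypothesis on `I` says that every `r ∈ I` maps to zero or to a nonunit of `O`, that is to zero in the residue field). -/
def S_TDU : Prop := ∀ (k R K E : Type) [Field k] [CommRing R] [Algebra k R]
  [Algebra.FiniteType k R] [Field K] [Algebra k K] [Field E] (n : ℕ) (θ : R →ₐ[k] K)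
  (O : ValuationSubring K) (a u : K) (d : RP k R n →₀ E), IsTD E θ O a u d →
  (∀ d' : RP k R n →₀ E, IsTD E θ O a u d' → d = d') ∧
  (∀ u' : K, u ≠ 0 → u' ≠ 0 → (u' / u - 1 = 0 ∨ (u' / u - 1)⁻¹ ∉ O) → IsTD E θ O a u' d) ∧
  (∀ I : Ideal R, (∀ r ∈ I, θ r = 0 ∨ (θ r)⁻¹ ∉ O) → d ∈ ratOn k E n I)

def M_TDU : Prop := S_LENC → S_TDU

/-- TDF. The main formula. `s ≠ 0`, `u = s⁻¹`; `q' = infI q = ker (evs θ u)` (S_INFA (5)), a prime of `S = R[X]` of dimension `n + 2`, `X ∉ q'` (S_INFD, S_INFA). `N = natDegree P`, `P' = reflect N P`; `evs θ u P' = u^N (evs θ s P)`. (1) `VV n θ s` is finite: for `O ∈ VV n θ s` with centre `T` on `R`: `u ∈ O` is a nonunit, so `evs θ u` maps `R[X]` to `O`, and the centre `z` of `O` on `R[X]` is the set of polynomials whose constant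
coefficient is in `T`, that is `comap (evalRingHom 0) T`; its dimension is `n + 1` (`rdim_comap`), it contains `q'` and `X`, so `z` is one of finitely many primes (S_DVX for the divisor of `X` on `V(q')`, S_LENC (3)); for each there are finitely many `O` (S_GTD (1) for `S = R[X]`). (2) `p` a prime of `R` of dimension `n`; `m = comap (evalRingHom 0) p`. By definition `d p = ∑_z c(z) bet z p`. Terms with `X ∈ z` are zero. `z ↦ z' = infI z` is a bijection
from the primes `z` with `dim = n + 1`, `X ∉ z` to themselves, `q ⊆ z` iff `q' ⊆ z'` (S_INFA (1), (3), S_INFD), and by S_INFL `c(z) = len (q ⊔ P) z = len (q' ⊔ P') z'` if `q ⊆ z`, and both are zero otherwise. So `d p = ∑_(z' , X ∉ z') len (q' ⊔ P') z' * len (z' ⊔ X) m`, and `P' ∈ z'` if the first factor is not zero. (3) For `O ∈ VV n θ s` let `D O` be such that `IsTD θ O (evs θ s P) u (D O)` (hypothesis of this statement). S_GREC for `S = R[X]`,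
`evs θ u`, `q'`, `m`, `t = X`, `x = P'`, `W` = those `O ∈ VV n θ s` whose centre `T` is contained in `p` (then the centre on `R[X]` is in `m`; conversely if `O` is in the set `W` of S_GREC then `X ∈ z`, so `u` is a nonunit, `s ∉ O`, and the centre `z` is `comap (evalRingHom 0) T`, `T = z ∩ R` with `dim T = dim z`), `g O = (D O) p`. To verify the last hypothesis of S_GREC: `D O = div b - div c` on `V(T)`, where `b / c` is the norm of the tame symbol `w` of `evs θ s P` and `u`, and `w`
is also the tame symbol of `evs θ u P' = u^N evs θ s P` and `u` (`(u^N a)^j u^(-(i + N j)) = a^j u^(-i)`); `b, c ∈ R` considered as constants `C b, C c` in `R[X]` (the subfields of the residue field generated by the images of `R` and of `R[X]` agree since `X ↦ 0`), `len (z ⊔ C b) m = len (T ⊔ b) p` by S_LENA for `evalRingHom 0`. (4) For `O ∈ VV n θ s` with `T ⊄ p`: `(D O) p = 0` (S_LENC (2)). So `d p = ∑_O (D O) p`. The numbers are integers mapped to `E`. -/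
def S_TDF : Prop := ∀ (k R K E : Type) [Field k] [PerfectField k] [CommRing R] [Algebra k R]
  [Algebra.FiniteType k R] [Field K] [Algebra k K] [Field E] (n : ℕ) (θ : R →ₐ[k] K) (s : K)
  (P : R[X]) (q : RP k R[X] (n + 1 + 1)) (c : RP k R[X] (n + 1) →₀ E) (d : RP k R n →₀ E),
  s ≠ 0 → (∀ x : K, ∃ A B : R[X], evs θ s B ≠ 0 ∧ x * evs θ s B = evs θ s A) →
  q.1.asIdeal = RingHom.ker (evs θ s).toRingHom → P ∉ q.1.asIdeal → IsDv k E q.1 P c →
  IsBeta k E c d →
  ∃ h : (VV n θ s).Finite, ∀ D : ValuationSubring K → (RP k R n →₀ E),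
    (∀ O ∈ VV n θ s, IsTD E θ O (evs θ s P) s⁻¹ (D O)) → d = ∑ O ∈ h.toFinset, D O

def M_TDF : Prop := S_DIM1 → S_LENA → S_LENC → S_DVX → S_INFA → S_INFD → S_INFL → S_GREC → S_GTD →
  S_TDF

/-- TDE. Existence of `IsTD` for `O ∈ VV n θ s`: as in the proof of S_TDF (1) the centre of `O` on `R[X]` (for `evs θ s⁻¹`) is `comap (evalRingHom 0) T`, of dimension `n + 1`; S_GTD (2) gives `w` and `b', c' ∈ R[X]`; take `b, c ∈ R` their constant coefficients (`X ↦ 0` in the residue field; the same subfield). The divisors exist by S_DVX. -/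
def S_TDE : Prop := ∀ (k R K E : Type) [Field k] [PerfectField k] [CommRing R] [Algebra k R]
  [Algebra.FiniteType k R] [Field K] [Algebra k K] [Field E] (n : ℕ) (θ : R →ₐ[k] K) (s : K)
  (q : RP k R[X] (n + 1 + 1)),
  s ≠ 0 → (∀ x : K, ∃ A B : R[X], evs θ s B ≠ 0 ∧ x * evs θ s B = evs θ s A) →
  q.1.asIdeal = RingHom.ker (evs θ s).toRingHom → ∀ O ∈ VV n θ s, ∀ a : K, a ≠ 0 →
  ∃ d : RP k R n →₀ E, IsTD E θ O a s⁻¹ d

def M_TDE : Prop := S_DIM1 → S_DVX → S_INFA → S_INFD → S_GTD → S_TDE

/-- R. Proof of S_R: `D O a u` is the cycle `d` with `IsTD θ O a u d` if there is one (unique by S_TDU) and `0` otherwise. The first two properties: S_TDU (for the second: the relation is symmetric in `u`, `u'`: if `u' / u = 1 + ε` then `u / u' = 1 - ε / (1 + ε)`; so `IsTD .. u d` iff `IsTD .. u' d`). The third: if `s ≠ 0` use S_TDE and S_TDF. If `s = 0`: `VV n θ 0` is empty (`0 ∈ O`), and `d = 0`: `X ∈ q`, so `c z ≠ 0` implies `X ∈ q ⊆ z`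
(S_LENC (2)), `infI z = ⊤` (S_INFA (2)), and `bet z p = 0`. -/
def M_R : Prop := S_LENC → S_INFA → S_TDU → S_TDF → S_TDE → S_R

end CUB
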