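import Pool.Agent.CUB.V_STEP

/-!
# CUB, block V: anti-invariant homology classes, several equations
-/

set_option autoImplicit false

open Polynomial CategoryTheory AlgebraicGeometry

namespace CUB

open Pool.Agent.Lib_helper55.Beil Pool.Agent.Lib_helper66.OneP

universe v

variable {k : Type} [Field k] {E : Type} [Field E]

section VRs

variable {R R₁ R' : Type} [CommRing R] [CommRing R₁] [CommRing R'] [Algebra k R] [Algebra k R₁]
  [Algebra k R'] [Algebra.FiniteType k R] [Algebra.FiniteType k R₁] [Algebra.FiniteType k R']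

omit [Algebra.FiniteType k R] [Algebra.FiniteType k R₁] [Algebra.FiniteType k R'] in
lemma VRmap_comp {m : ℕ} (f : Fin m → R) (π : R →ₐ[k] R₁) (ψ : R₁ →ₐ[k] R') :
    (VRmap ψ (fun j => π (f j))).comp (VRmap π f) = VRmap (ψ.comp π) f := by
  apply Q_ext
  · intro t
    change VRmap ψ _ (VRmap π f (algebraMap _ _ t)) = VRmap (ψ.comp π) f (algebraMap _ _ t)
    have h1 : VRmap π f (algebraMap _ (VR R f) t) = algebraMap _ _ (MvPolynomial.mapAlgHom π t) :=
      Qmap_algebraMap _ _ _
    have h2 : ∀ s, VRmap ψ (fun j => π (f j)) (algebraMap _ (VR R₁ (fun j => π (f j))) s) =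
        algebraMap _ _ (MvPolynomial.mapAlgHom ψ s) := fun s => Qmap_algebraMap _ _ _
    have h3 : VRmap (ψ.comp π) f (algebraMap _ (VR R f) t) =
        algebraMap _ _ (MvPolynomial.mapAlgHom (ψ.comp π) t) := Qmap_algebraMap _ _ _
    rw [h1, h2, h3]
    congr 1
    exact MvPolynomial.map_map π.toRingHom ψ.toRingHom t
  · change VRmap ψ _ (VRmap π f (yy (lin f))) = VRmap (ψ.comp π) f (yy (lin f))
    have h1 : VRmap π f (yy (lin f)) = yy _ := Qmap_yy _ _
    have h2 : VRmap ψ (fun j => π (f j)) (yy (lin fun j => π (f j))) = yy _ := Qmap_yy _ _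
    have h3 : VRmap (ψ.comp π) f (yy (lin f)) = yy _ := Qmap_yy _ _
    rw [h1, h2, h3]
    rfl

variable (T : ∀ i : ℕ, Homology.{v} k E i) (X : Extra T)

include X in
/-- The involution commutes with the push-forward. -/
lemma P_tau_VRmap (i n : ℕ) {m : ℕ} (f : Fin m → R) (ψ : R →ₐ[k] R')
    (hψ : Function.Surjective ψ) (α : (T i).H n (aff k (VR R' (fun j => ψ (f j))))) :
    (T i).P n (vcl (tau (lin f))) ((T i).P n (clo (VRmap ψ f) (VRmap_surjective ψ hψ f)) α) =
      (T i).P n (clo (VRmap ψ f) (VRmap_surjective ψ hψ f))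
        ((T i).P n (vcl (tau (lin fun j => ψ (f j)))) α) := by
  have hs : Function.Surjective ((VRmap ψ f).comp (tauH (k := k) (lin f))) :=
    (VRmap_surjective ψ hψ f).comp (tauH_surjective (k := k) (lin f))
  have h1 := X.push_comp i n _ _ _ (clo (VRmap ψ f) (VRmap_surjective ψ hψ f))
    (vcl (tau (k := k) (lin f))) (clo ((VRmap ψ f).comp (tauH (k := k) (lin f))) hs)
    (spm_comp (tauH (k := k) (lin f)) (VRmap ψ f)) α
  have h2 := X.push_comp i n _ _ _ (vcl (tau (k := k) (lin fun j => ψ (f j))))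
    (clo (VRmap ψ f) (VRmap_surjective ψ hψ f)) (clo ((VRmap ψ f).comp (tauH (k := k) (lin f))) hs)
    (by
      change spm (tauH (k := k) (lin fun j => ψ (f j))) ≫ spm (VRmap ψ f) = spm _
      rw [spm_comp]
      congr 1
      exact AlgHom.ext fun x => (VRmap_tau f ψ x).symm) α
  exact h1.trans h2.symm

include X in
/-- The square of the involution is the identity. -/
lemma P_tau_tau (i n : ℕ) {A : Type} [CommRing A] [Algebra k A] [Algebra.FiniteType k A] (g : A)
    (α : (T i).H n (aff k (Q A g))) :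
    (T i).P n (vcl (tau (k := k) g)) ((T i).P n (vcl (tau (k := k) g)) α) = α := by
  have h1 : (tauH (k := k) g).comp (tauH (k := k) g) = AlgHom.id k _ := tauHom_comp g
  have h2 := X.push_comp i n _ _ _ (vcl (tau (k := k) g)) (vcl (tau (k := k) g))
    (clo (AlgHom.id k (Q A g)) Function.surjective_id)
    (by
      change spm (tauH (k := k) g) ≫ spm (tauH (k := k) g) = spm (AlgHom.id k (Q A g))
      rw [spm_comp, h1]) α
  exact h2.trans (X.push_id i n _ _ spm_id α)

include X in
/-- Push-forward along a composition. -/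
lemma P_VRmap_comp (i n : ℕ) {m : ℕ} (f : Fin m → R) (π : R →ₐ[k] R₁) (ψ : R₁ →ₐ[k] R')
    (hπ : Function.Surjective π) (hψ : Function.Surjective ψ)
    (hψπ : Function.Surjective (ψ.comp π))
    (α : (T i).H n (aff k (VR R' (fun j => ψ (π (f j)))))) :
    (T i).P n (clo (VRmap π f) (VRmap_surjective π hπ f))
      ((T i).P n (clo (VRmap ψ (fun j => π (f j))) (VRmap_surjective ψ hψ _)) α) =
      (T i).P n (clo (VRmap (ψ.comp π) f) (VRmap_surjective (ψ.comp π) hψπ f)) α := by
  apply X.push_comp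
  change spm (VRmap ψ (fun j => π (f j))) ≫ spm (VRmap π f) = spm (VRmap (ψ.comp π) f)
  rw [spm_comp]
  exact congrArg spm (VRmap_comp f π ψ)

end VRs

/-- Several equations. -/
theorem hchain (T : ∀ i : ℕ, Homology.{v} k E i) (X : Extra T) [CharZero E]
    (hKERQ : S_KERQ) (hVRL : S_VRL) (i n m : ℕ) (L : List (Fin (m + 1))) :
    ∀ {R R' : Type} [CommRing R] [CommRing R'] [Algebra k R]
    [Algebra k R'] [Algebra.FiniteType k R] [Algebra.FiniteType k R']
    (f : Fin (m + 1) → R) (ψ : R →ₐ[k] R') (hψ : Function.Surjective ψ),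
    RingHom.ker ψ.toRingHom = Ideal.span (f '' {j | j ∈ L}) →
    ∀ α : (T (i + 1)).H (n + 1) (aff k (VR R' (fun j => ψ (f j)))),
    (T (i + 1)).P (n + 1) (vcl (tau (lin fun j => ψ (f j)))) α = -α →
    (T (i + 1)).P (n + 1) (clo (VRmap ψ f) (VRmap_surjective ψ hψ f)) α = 0 → α = 0 := by
  induction L with
  | nil =>
    intro R R' _ _ _ _ _ _ f ψ hψ hk α _ hz
    have h1 : RingHom.ker (VRmap ψ f).toRingHom = ⊥ := by
      rw [hKERQ.2.2.1 k R R' (m + 1) f ψ, hk]
      simp
    have h2 : Function.Injective (VRmap ψ f) := (RingHom.injective_iff_ker_eq_bot _).mpr h1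
    let e : VR R f ≃ₐ[k] VR R' (fun j => ψ (f j)) :=
      AlgEquiv.ofBijective (VRmap ψ f) ⟨h2, VRmap_surjective ψ hψ f⟩
    have h3 := (push_viso_bijective (T (i + 1)) (n + 1) (viso e)).injective
    apply h3
    rw [P_zero]
    exact hz
  | cons l L ih =>
    intro R R' _ _ _ _ _ _ f ψ hψ hk α ht hz
    let I : Ideal R := Ideal.span {f l}
    let π : R →ₐ[k] R ⧸ I := Ideal.Quotient.mkₐ k I
    have hle : I ≤ RingHom.ker ψ.toRingHom := by
      rw [hk]
      apply Ideal.span_mono
      rintro _ rfl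
      exact ⟨l, by simp, rfl⟩
    let ψ₁ : (R ⧸ I) →ₐ[k] R' := Ideal.Quotient.liftₐ I ψ (fun a ha => hle ha)
    have hπ : Function.Surjective π := Ideal.Quotient.mkₐ_surjective k I
    have hcomp : ψ = ψ₁.comp π := by
      ext x
      rfl
    have hkπ : RingHom.ker π.toRingHom = Ideal.span {f l} := Ideal.mk_ker
    clear_value ψ₁ π
    subst hcomp
    have hψ₁ : Function.Surjective ψ₁ := by
      intro x
      obtain ⟨y, hy⟩ := hψ x
      exact ⟨π y, hy⟩
    have hk₁ : RingHom.ker ψ₁.toRingHom = Ideal.span ((fun j => π (f j)) '' {j | j ∈ L}) := by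
      have h1 : RingHom.ker ψ₁.toRingHom =
          (RingHom.ker (ψ₁.comp π).toRingHom).map π.toRingHom := by
        have h2 : RingHom.ker (ψ₁.comp π).toRingHom =
          (RingHom.ker ψ₁.toRingHom).comap π.toRingHom := rfl
        rw [h2]
        exact (Ideal.map_comap_of_surjective π.toRingHom hπ _).symm
      rw [h1, hk, Ideal.map_span]
      apply le_antisymm
      · rw [Ideal.span_le]
        rintro _ ⟨_, ⟨j, hj, rfl⟩, rfl⟩
        rcases List.mem_cons.mp hj with rfl | hj
        · have h3 : π (f j) = 0 := by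
            have : f j ∈ RingHom.ker π.toRingHom := by
              rw [hkπ]; exact Ideal.subset_span rfl
            exact this
          have h4 : π.toRingHom (f j) = 0 := h3
          rw [h4]
          exact Ideal.zero_mem _
        · exact Ideal.subset_span ⟨j, hj, rfl⟩
      · apply Ideal.span_mono
        rintro _ ⟨j, hj, rfl⟩
        exact ⟨f j, ⟨j, List.mem_cons_of_mem _ hj, rfl⟩, rfl⟩
    have key : (T (i + 1)).P (n + 1)
        (clo (VRmap ψ₁ (fun j => π (f j))) (VRmap_surjective ψ₁ hψ₁ _)) α = 0 := by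
      refine hstep T X hKERQ hVRL i n m f l π hπ hkπ _ ?_ ?_
      · rw [P_tau_VRmap T X (i + 1) (n + 1) (fun j => π (f j)) ψ₁ hψ₁ α]
        have ht' : (T (i + 1)).P (n + 1) (vcl (tau (lin fun j => ψ₁ (π (f j))))) α = -α := ht
        exact (congrArg _ ht').trans (P_neg T (i + 1) (n + 1) _ α)
      · rw [P_VRmap_comp T X (i + 1) (n + 1) f π ψ₁ hπ hψ₁ hψ α]
        exact hz
    exact ih (fun j => π (f j)) ψ₁ hψ₁ hk₁ α ht key

end CUB
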