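import Pool.Agent.CUB.V_CHAIN

/-!
# CUB, block V: the product with an affine space
-/

set_option autoImplicit false

open Polynomial CategoryTheory AlgebraicGeometry

namespace CUB

open Pool.Agent.Lib_helper55.Beil Pool.Agent.Lib_helper66.OneP

universe v

variable {k : Type} [Field k] {E : Type} [Field E]

/-- The homomorphism `R → R[t_1, ..., t_m]`. -/
noncomputable abbrev mvC (k R : Type) [Field k] [CommRing R] [Algebra k R] (m : ℕ) :
    R →ₐ[k] MvPolynomial (Fin m) R := IsScalarTower.toAlgHom k R (MvPolynomial (Fin m) R)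

/-- The pull-back to the product with an affine space. -/
structure IsLam (T : ∀ i : ℕ, Homology.{v} k E i) (R : Type) [CommRing R] [Algebra k R]
    [Algebra.FiniteType k R] (i m : ℕ)
    (lam : (T i).H (2 * i) (aff k R) →ₗ[E]
      (T (i + m)).H (2 * (i + m)) (aff k (MvPolynomial (Fin m) R))) : Prop where
  inj : Function.Injective lam
  frob : ∀ a, lam ((T i).F (2 * i) (aff k R) a) = (T (i + m)).F (2 * (i + m)) _ (lam a)
  cls : ∀ (c : RP k R i →₀ E) (d : RP k (MvPolynomial (Fin m) R) (i + m) →₀ E),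
    IsPull k E m (mvC k R m) c d → lam (CUB.cls T i c) = CUB.cls T (i + m) d

variable (T : ∀ i : ℕ, Homology.{v} k E i)

/-- The case of no variables. -/
lemma hline_zero (hPLIN : S_PLIN) (R : Type) [CommRing R] [Algebra k R]
    [Algebra.FiniteType k R] (i : ℕ) : ∃ lam, IsLam T R i 0 lam := by
  let e : R ≃ₐ[k] MvPolynomial (Fin 0) R := ((MvPolynomial.isEmptyAlgEquiv R (Fin 0)).restrictScalars k).symm
  have he : (e : R →ₐ[k] MvPolynomial (Fin 0) R) = mvC k R 0 := by
    apply AlgHom.ext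
    intro r
    exact ((MvPolynomial.isEmptyAlgEquiv R (Fin 0)).symm.commutes r)
  refine ⟨(T i).push (2 * i) (vcl e.symm), ?_, ?_, ?_⟩
  · exact (push_viso_bijective (T i) (2 * i) (viso e.symm)).injective
  · intro a
    exact (T i).equivariant.1 (2 * i) _ _ (vcl e.symm) a
  · intro c d h
    rw [← he] at h
    have h1 := (hPLIN.2 k R (MvPolynomial (Fin 0) R) E i e c d).mp h
    have h2 := cls_push T i e.symm.toAlgHom e.symm.surjective c
    rw [h1] at h2
    exact h2

/-- One more variable. -/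
lemma hline_succ (X : Extra T) (hPLIN : S_PLIN) (hGX : S_GX) (hGCO : S_GCO) (hFPX : S_FPX) (R : Type)
    [CommRing R] [Algebra k R] [Algebra.FiniteType k R] (i m : ℕ) (h : ∃ lam, IsLam T R i m lam) :
    ∃ lam, IsLam T R i (m + 1) lam := by
  obtain ⟨lam, hlam⟩ := h
  let A := MvPolynomial (Fin m) R
  let B := MvPolynomial (Fin (m + 1)) R
  let e : B ≃ₐ[k] A[X] := (MvPolynomial.finSuccEquiv R m).restrictScalars k
  let φ : A →ₐ[k] B := (e.symm : _ →ₐ[k] _).comp (CC k A)
  have hφ : φ.comp (mvC k R m) = mvC k R (m + 1) := by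
    apply AlgHom.ext
    intro r
    change e.symm (C (algebraMap R A r)) = algebraMap R B r
    rw [AlgEquiv.symm_apply_eq]
    exact ((MvPolynomial.finSuccEquiv R m).commutes r).symm
  have hg : Good k 1 φ := hGCO.1 k A A[X] B (CC k A) (e.symm : _ →ₐ[k] _) 1 0 (hGX.1 k A)
    (hGCO.2.2.2 k A[X] B e.symm)
  let L : Line (aff k B) (aff k A) := lineE φ e.symm.toRingEquiv (fun _ => rfl)
  refine ⟨(X.line (i + m) (2 * (i + m)) L).comp lam, ?_, ?_, ?_⟩
  · exact (X.line_bij (i + m) (2 * (i + m)) L).injective.comp hlam.inj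
  · intro a
    change X.line (i + m) (2 * (i + m)) L (lam _) = _
    rw [hlam.frob]
    exact X.line_frob (i + m) (2 * (i + m)) L (lam a)
  · intro c d hd
    obtain ⟨d₁, hd₁⟩ := hFPX k R A E m i (mvC k R m) (hGX.2 k R m) c
    have h2 := (isPull_line_iff φ e.symm.toRingEquiv (fun _ => rfl) d₁ (Finsupp.mapDomain
      (lineP φ e.symm.toRingEquiv (fun _ => rfl)) d₁)).mpr rfl
    have h3 := ((hGCO.2.1 k R A B E (mvC k R m) φ m i (hGX.2 k R m)).1 hg) c d₁ _ hd₁ h2
    rw [hφ] at h3
    have h4 := (hPLIN.1 k R B E (m + 1) i (mvC k R (m + 1)) c c d _ 0 hd h3).1 rfl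
    rw [h4]
    change X.line (i + m) (2 * (i + m)) L (lam _) = _
    rw [hlam.cls c d₁ hd₁]
    exact line_cls T X φ e.symm.toRingEquiv (fun _ => rfl) d₁ _ h2

/-- HLINE. -/
theorem hline (X : Extra T) (hPLIN : S_PLIN) (hGX : S_GX) (hGCO : S_GCO) (hFPX : S_FPX) (R : Type)
    [CommRing R] [Algebra k R] [Algebra.FiniteType k R] (i m : ℕ) : ∃ lam, IsLam T R i m lam := by
  induction m with
  | zero => exact hline_zero T hPLIN R i
  | succ m ih => exact hline_succ T X hPLIN hGX hGCO hFPX R i m ih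

end CUB
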