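import Pool.Agent.CUB.Defs2
import Pool.Agent.CUB.StmtsA

/-!
# CUB, block V: the double covers are smooth
-/

set_option autoImplicit false

open Polynomial CategoryTheory AlgebraicGeometry

namespace CUB

open Pool.Agent.Lib_helper55.Beil

/-- The standard etale pair `y ^ 2 - y - g`, `2 y - 1`. -/
noncomputable def sep (T : Type) [CommRing T] (g : T) : StandardEtalePair T where
  f := asPoly g
  monic_f := asPoly_monic g
  g := 2 * X - 1
  cond := ⟨1, 0, 1, by
    simp [asPoly]
    ring⟩

variable {k : Type} [Field k]

instance smooth_mv (R : Type) [CommRing R] [Algebra k R] [Algebra.Smooth k R] (m : ℕ) :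
    Algebra.Smooth k (MvPolynomial (Fin m) R) :=
  have : Algebra.Smooth R (MvPolynomial (Fin m) R) := {}
  Algebra.Smooth.comp k R _

/-- The double cover is smooth where `2 y - 1` is invertible. -/
lemma smooth_away_two (T : Type) [CommRing T] [Algebra k T] [Algebra.Smooth k T] (g : T) :
    Algebra.Smooth k (Localization.Away (2 * yy g - 1 : Q T g)) := by
  have h1 : Algebra.Etale T (sep T g).Ring := inferInstance
  have h2 : Algebra.Smooth T (sep T g).Ring := inferInstance
  have h3 : AdjoinRoot.mk (sep T g).f (sep T g).g = (2 * yy g - 1 : Q T g) := by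
    change AdjoinRoot.mk (asPoly g) (2 * X - 1) = _
    rw [map_sub, map_mul, map_one, map_ofNat]
    rfl
  have h4 : Algebra.Smooth T (Localization.Away (AdjoinRoot.mk (sep T g).f (sep T g).g)) :=
    Algebra.Smooth.of_equiv (sep T g).equivAwayAdjoinRoot
  rw [h3] at h4
  have h5 : Algebra.Smooth T (Localization.Away (2 * yy g - 1 : Q T g)) := h4
  exact Algebra.Smooth.comp k T _

/-- The double cover is smooth where `f l` is invertible. -/
lemma smooth_away_f (hVRL : S_VRL) (R : Type) [CommRing R] [Algebra k R] [Algebra.Smooth k R]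
    {m : ℕ} (f : Fin (m + 1) → R) (l : Fin (m + 1)) :
    Algebra.Smooth k (Localization.Away (VRbase (k := k) f (f l))) := by
  let a : VR R f := VRbase (k := k) f (f l)
  have loc : ∀ {A : Type} [CommRing A] [Algebra k A] (x : A), @IsLocalization.Away A _ x
      (Localization.Away x) _ (IsScalarTower.toAlgHom k A (Localization.Away x)).toRingHom.toAlgebra := by
    intro A _ _ x
    have h : (IsScalarTower.toAlgHom k A (Localization.Away x)).toRingHom.toAlgebra =
        (inferInstance : Algebra A (Localization.Away x)) := by
      apply Algebra.algebra_ext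
      intro r
      rfl
    rw [h]
    infer_instance
  obtain ⟨e, -⟩ := hVRL k R (Localization.Away (f l)) (Localization.Away a) m f l
    (IsScalarTower.toAlgHom k R _) (IsScalarTower.toAlgHom k _ _) (loc _) (loc _)
  have h1 : Algebra.Smooth R (Localization.Away (f l)) :=
    Algebra.Smooth.of_isLocalization_Away (f l)
  have h2 : Algebra.Smooth k (Localization.Away (f l)) := Algebra.Smooth.comp k R _
  have h3 : Algebra.Smooth k (MvPolynomial (Fin m) (Localization.Away (f l))) := inferInstance
  have h4 : Algebra.Smooth (MvPolynomial (Fin m) (Localization.Away (f l)))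
    (MvPolynomial (Fin m) (Localization.Away (f l)))[X] := {}
  have h5 : Algebra.Smooth k (MvPolynomial (Fin m) (Localization.Away (f l)))[X] :=
    Algebra.Smooth.comp k (MvPolynomial (Fin m) (Localization.Away (f l))) _
  exact Algebra.Smooth.of_equiv e.symm

/-- The double cover `y ^ 2 - y = ∑ t_j f_j` is smooth. -/
theorem smooth_VR (hVRL : S_VRL) (R : Type) [CommRing R] [Algebra k R] [Algebra.Smooth k R]
    {m : ℕ} (f : Fin m → R) : (algebraMap k (VR R f)).Smooth := by
  let S : Set (VR R f) := insert (2 * yy (lin f) - 1)
    (Set.range fun l => VRbase (k := k) f (f l))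
  apply RingHom.Smooth.ofLocalizationSpanTarget _ S
  · rw [Ideal.eq_top_iff_one]
    have h1 : 2 * yy (lin f) - 1 ∈ Ideal.span S := Ideal.subset_span (Set.mem_insert _ _)
    have h2 : algebraMap _ (VR R f) (lin f) ∈ Ideal.span S := by
      unfold lin
      rw [map_sum]
      apply Ideal.sum_mem
      intro j _
      rw [map_mul]
      apply Ideal.mul_mem_left
      exact Ideal.subset_span (Set.mem_insert_of_mem _ ⟨j, rfl⟩)
    have h3 : (1 : VR R f) = (2 * yy (lin f) - 1) * (2 * yy (lin f) - 1) -
        4 * algebraMap _ (VR R f) (lin f) := by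
      linear_combination (-4) * yy_eq (lin f)
    rw [h3]
    exact Ideal.sub_mem _ (Ideal.mul_mem_left _ _ h1) (Ideal.mul_mem_left _ _ h2)
  · rintro ⟨r, hr⟩
    have key : Algebra.Smooth k (Localization.Away r) := by
      rcases Set.mem_insert_iff.mp hr with rfl | ⟨l, rfl⟩
      · exact smooth_away_two (MvPolynomial (Fin m) R) (lin f)
      · cases m with
        | zero => exact l.elim0
        | succ m => exact smooth_away_f hVRL R f l
    have h1 : (algebraMap (VR R f) (Localization.Away r)).comp (algebraMap k (VR R f)) =
        algebraMap k (Localization.Away r) := rfl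
    change ((algebraMap (VR R f) (Localization.Away r)).comp (algebraMap k (VR R f))).Smooth
    rw [h1, RingHom.smooth_algebraMap]
    exact key

/-- The variety `y ^ 2 - y = ∑ t_j f_j(x)` is smooth. -/
theorem t_SMOOTH (hVRL : S_VRL) (N m : ℕ) (f : Fin m → MvPolynomial (Fin N) k) :
    Smooth (aff k (VR (MvPolynomial (Fin N) k) f)).f := by
  have : Algebra.Smooth k (MvPolynomial (Fin N) k) := {}
  exact (HasRingHomProperty.Spec_iff (P := @Smooth)).2 (smooth_VR hVRL (MvPolynomial (Fin N) k) f)

end CUB
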