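import Pool.Agent.CUB.Bridge
import Pool.Agent.CUB.StmtsC

/-!
# CUB, block V: anti-invariant homology classes
-/

set_option autoImplicit false

open Polynomial CategoryTheory AlgebraicGeometry

namespace CUB

open Pool.Agent.Lib_helper55.Beil Pool.Agent.Lib_helper66.OneP

universe v

variable {k : Type} [Field k] {E : Type} [Field E]

/-! ## Morphisms of affine varieties -/

section Spm

variable {A B C : Type} [CommRing A] [CommRing B] [CommRing C]
  [Algebra k A] [Algebra k B] [Algebra k C]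
  [Algebra.FiniteType k A] [Algebra.FiniteType k B] [Algebra.FiniteType k C]

lemma spm_comp (φ : A →ₐ[k] B) (χ : B →ₐ[k] C) : spm χ ≫ spm φ = spm (χ.comp φ) :=
  (Spec.map_comp _ _).symm

lemma spm_id : spm (AlgHom.id k A) = 𝟙 (aff k A).X := Spec.map_id _

/-- Push-forward along an isomorphism of algebras. -/
noncomputable abbrev vcl (e : A ≃ₐ[k] B) : ClosedIn (aff k B) (aff k A) := (viso e).cl

lemma vcl_g (e : A ≃ₐ[k] B) : (vcl e).g = spm (e : A →ₐ[k] B) := rfl

variable (T : ∀ i : ℕ, Homology.{v} k E i)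

lemma P_add (i n : ℕ) {Z X : Var k} (a : ClosedIn Z X) (x y : (T i).H n Z) :
    (T i).P n a (x + y) = (T i).P n a x + (T i).P n a y := map_add ((T i).push n a) x y

lemma P_sub (i n : ℕ) {Z X : Var k} (a : ClosedIn Z X) (x y : (T i).H n Z) :
    (T i).P n a (x - y) = (T i).P n a x - (T i).P n a y := map_sub ((T i).push n a) x y

lemma P_neg (i n : ℕ) {Z X : Var k} (a : ClosedIn Z X) (x : (T i).H n Z) :
    (T i).P n a (-x) = -(T i).P n a x := map_neg ((T i).push n a) x

lemma P_zero (i n : ℕ) {Z X : Var k} (a : ClosedIn Z X) :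
    (T i).P n a 0 = 0 := map_zero ((T i).push n a)

end Spm

/-! ## One step, abstract form -/

section Abs

variable {A B Z S : Type} [CommRing A] [CommRing B] [CommRing Z] [CommRing S]
  [Algebra k A] [Algebra k B] [Algebra k Z] [Algebra k S]
  [Algebra.FiniteType k A] [Algebra.FiniteType k B] [Algebra.FiniteType k Z]
  [Algebra.FiniteType k S]
  (T : ∀ i : ℕ, Homology.{v} k E i) (X : Extra T)

include X in
lemma hstep_abs [CharZero E] (i n : ℕ) (a : A) (φ : A →ₐ[k] B)
    (hφ : @IsLocalization.Away A _ a B _ φ.toRingHom.toAlgebra)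
    (π : A →ₐ[k] Z) (hπ : Function.Surjective π) (hk : RingHom.ker π.toRingHom = Ideal.span {a})
    (σ : S →ₐ[k] B) (e : S[X] ≃+* B) (he : ∀ s, e (C s) = σ s)
    (tA : A ≃ₐ[k] A) (tB : B ≃ₐ[k] B) (tZ : Z ≃ₐ[k] Z)
    (h1 : ∀ x, φ (tA x) = tB (φ x)) (h2 : ∀ x, π (tA x) = tZ (π x)) (h3 : ∀ s, tB (σ s) = σ s)
    (α : (T (i + 1)).H (n + 1) (aff k Z)) (ht : (T (i + 1)).P (n + 1) (vcl tZ) α = -α)
    (hz : (T (i + 1)).P (n + 1) (clo π hπ) α = 0) : α = 0 := by
  have hc := complementary_away φ a hφ π hπ hk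
  obtain ⟨u, rfl⟩ := (X.bd_exact (i + 1) (n + 1) _ _ hc α).mp hz
  obtain ⟨m0, hm0⟩ := (X.line_bij i n (lineE σ e he)).surjective u
  have hu : (T (i + 1)).P (n + 2) (vcl tB) u = u := by
    rw [← hm0]
    have hid : (T i).P n (VIso.refl (aff k S)).cl m0 = m0 := X.push_id i n _ _ rfl m0
    have := X.line_nat i n (lineE σ e he) (lineE σ e he) (viso tB) (VIso.refl (aff k S))
      (by
        have h4 : σ = (tB : B →ₐ[k] B).comp σ := AlgHom.ext fun s => (h3 s).symm
        change spm (tB : B →ₐ[k] B) ≫ spm σ = spm σ ≫ 𝟙 _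
        rw [spm_comp, ← h4, Category.comp_id]) m0
    rw [hid] at this
    exact this
  have hnat := X.bd_nat (i + 1) (n + 1) _ _ hc _ _ hc (viso tZ) (viso tB) (viso tA)
    (by
      change spm (tZ : Z →ₐ[k] Z) ≫ spm π = spm π ≫ spm (tA : A →ₐ[k] A)
      rw [spm_comp, spm_comp]
      congr 1
      exact AlgHom.ext fun x => (h2 x).symm)
    (by
      change spm (tB : B →ₐ[k] B) ≫ spm φ = spm φ ≫ spm (tA : A →ₐ[k] A)
      rw [spm_comp, spm_comp]
      congr 1
      exact AlgHom.ext fun x => (h1 x).symm) u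
  have h5 : (T (i + 1)).P (n + 2) (viso tB).cl u = u := hu
  rw [h5] at hnat
  have ht' : (T (i + 1)).P (n + 1) (viso tZ).cl (X.bd (i + 1) (n + 1) _ _ hc u) =
      -(X.bd (i + 1) (n + 1) _ _ hc u) := ht
  rw [ht'] at hnat
  have h6 : (2 : E) • (X.bd (i + 1) (n + 1) _ _ hc u) = 0 := by
    rw [two_smul]
    nth_rw 1 [← hnat]
    exact neg_add_cancel _
  exact (smul_eq_zero.mp h6).resolve_left two_ne_zero

end Abs

section VRs

variable {R R' : Type} [CommRing R] [CommRing R'] [Algebra k R] [Algebra k R']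

lemma tau_VRbase {m : ℕ} (f : Fin m → R) (r : R) :
    tau (k := k) (lin f) (VRbase (k := k) f r) = VRbase (k := k) f r := tau_algebraMap _ _

lemma tau_VRalg {m : ℕ} (f : Fin m → R) (r : MvPolynomial (Fin m) R) :
    tau (k := k) (lin f) (algebraMap _ (VR R f) r) = algebraMap _ (VR R f) r := tau_algebraMap _ _

lemma VRmap_tau {m : ℕ} (f : Fin m → R) (ψ : R →ₐ[k] R') (x : VR R f) :
    VRmap ψ f (tau (k := k) (lin f) x) = tau (k := k) (lin fun j => ψ (f j)) (VRmap ψ f x) := by
  have h : (VRmap ψ f).comp (tau (k := k) (lin f) : VR R f →ₐ[k] VR R f) =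
      (tau (k := k) (lin fun j => ψ (f j)) : _ →ₐ[k] _).comp (VRmap ψ f) := by
    apply Q_ext
    · intro t
      change VRmap ψ f (tau (lin f) (algebraMap _ _ t)) = tau _ (VRmap ψ f (algebraMap _ _ t))
      rw [tau_algebraMap]
      have h1 : VRmap ψ f (algebraMap _ (VR R f) t) = algebraMap _ _ (MvPolynomial.mapAlgHom ψ t) :=
        Qmap_algebraMap _ _ _
      rw [h1, tau_algebraMap]
    · change VRmap ψ f (tau (lin f) (yy (lin f))) = tau _ (VRmap ψ f (yy (lin f)))
      have h1 : VRmap ψ f (yy (lin f)) = yy _ := Qmap_yy _ _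
      rw [tau_yy, map_sub, map_one, h1, tau_yy]
  exact AlgHom.congr_fun h x

end VRs

/-- One step. -/
theorem hstep (T : ∀ i : ℕ, Homology.{v} k E i) (X : Extra T) [CharZero E]
    (hKERQ : S_KERQ) (hVRL : S_VRL) {R R' : Type} [CommRing R] [CommRing R'] [Algebra k R]
    [Algebra k R'] [Algebra.FiniteType k R] [Algebra.FiniteType k R'] (i n m : ℕ)
    (f : Fin (m + 1) → R) (l : Fin (m + 1)) (ψ : R →ₐ[k] R') (hψ : Function.Surjective ψ)
    (hk : RingHom.ker ψ.toRingHom = Ideal.span {f l})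
    (α : (T (i + 1)).H (n + 1) (aff k (VR R' (fun j => ψ (f j)))))
    (ht : (T (i + 1)).P (n + 1) (vcl (tau (lin fun j => ψ (f j)))) α = -α)
    (hz : (T (i + 1)).P (n + 1) (clo (VRmap ψ f) (VRmap_surjective ψ hψ f)) α = 0) : α = 0 := by
  let a : VR R f := VRbase (k := k) f (f l)
  let φ : VR R f →ₐ[k] Localization.Away a := awayHom k a
  let σ0 : R →ₐ[k] Localization.Away (f l) := awayHom k (f l)
  obtain ⟨e, he1, he2, he3⟩ := hVRL k R (Localization.Away (f l)) (Localization.Away a) m f l σ0 φ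
    (isLocalization_awayHom _) (isLocalization_awayHom _)
  let σ : MvPolynomial (Fin m) (Localization.Away (f l)) →ₐ[k] Localization.Away a :=
    (e.symm : _ →ₐ[k] _).comp (CC k _)
  let tB : Localization.Away a ≃ₐ[k] Localization.Away a :=
    IsLocalization.algEquivOfAlgEquiv (M := Submonoid.powers a) (T := Submonoid.powers a)
      (Localization.Away a) (Localization.Away a) (tau (k := k) (lin f)) (by
        rw [Submonoid.map_powers]
        congr 1
        exact tau_VRbase f (f l))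
  have htB : ∀ x, tB (φ x) = φ (tau (k := k) (lin f) x) := fun x =>
    IsLocalization.algEquivOfAlgEquiv_eq _ x
  have hker : RingHom.ker (VRmap ψ f).toRingHom = Ideal.span {a} := by
    rw [hKERQ.2.2.1 k R R' (m + 1) f ψ, hk, Ideal.map_span, Set.image_singleton]
    rfl
  refine hstep_abs T X i n a φ (isLocalization_awayHom _) (VRmap ψ f) (VRmap_surjective ψ hψ f)
    hker σ e.symm.toRingEquiv (fun s => rfl) (tau (lin f)) tB (tau (lin fun j => ψ (f j)))
    (fun x => (htB x).symm) (VRmap_tau f ψ) ?_ α ht hz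
  have hC : ∀ r : R, σ (MvPolynomial.C (σ0 r)) = φ (VRbase (k := k) f r) := fun r => by
    change e.symm (C (MvPolynomial.C (σ0 r))) = _
    rw [← he1 r, AlgEquiv.symm_apply_apply]
  have hX : ∀ j : Fin m, σ (MvPolynomial.X j) =
      φ (algebraMap (MvPolynomial (Fin (m + 1)) R) (VR R f) (MvPolynomial.X (l.succAbove j))) :=
    fun j => by
      change e.symm (C (MvPolynomial.X j)) = _
      rw [← he2 j, AlgEquiv.symm_apply_apply]
  have key : tB.toRingEquiv.toRingHom.comp σ.toRingHom = σ.toRingHom := by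
    apply MvPolynomial.ringHom_ext
    · intro s
      have h7 : (tB.toRingEquiv.toRingHom.comp σ.toRingHom).comp MvPolynomial.C =
          σ.toRingHom.comp MvPolynomial.C := by
        apply IsLocalization.ringHom_ext (Submonoid.powers (f l))
        ext1 r
        change tB (σ (MvPolynomial.C (σ0 r))) = σ (MvPolynomial.C (σ0 r))
        rw [hC, htB, tau_VRbase]
      exact RingHom.congr_fun h7 s
    · intro j
      change tB (σ (MvPolynomial.X j)) = σ (MvPolynomial.X j)
      rw [hX, htB, tau_VRalg]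
  exact fun s => RingHom.congr_fun key s

end CUB
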